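import Mathlib

/-!
# Mertens' first theorem, elementary version with few imports

The same statements as in `Pool.Agent.Lib.ANT.Mertens`, without importing the prime number theorem.
-/

open ArithmeticFunction MeasureTheory

namespace Pool.Agent.ANTE

/-- Harmonic sum. -/
noncomputable def Hs (N : ℕ) : ℝ := ∑ n ∈ Finset.Ioc 0 N, (1:ℝ) / n

lemma Hs_nonneg (N : ℕ) : 0 ≤ Hs N := Finset.sum_nonneg fun _ _ => by positivity

/-- `∑_{k ≤ N} ∑_{mn = k} F(m,n)`. -/
lemma sum_pairs (F : ℕ → ℕ → ℝ) (N : ℕ) :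
    ∑ k ∈ Finset.Ioc 0 N, ∑ p ∈ k.divisorsAntidiagonal, F p.1 p.2 =
      ∑ m ∈ Finset.Ioc 0 N, ∑ n ∈ Finset.Ioc 0 (N / m), F m n := by
  rw [Finset.sum_sigma', Finset.sum_sigma']
  refine Finset.sum_bij' (fun x _ => ⟨x.2.1, x.2.2⟩) (fun y _ => ⟨y.1 * y.2, (y.1, y.2)⟩) ?_ ?_ ?_ ?_ ?_
  · rintro ⟨k, p⟩ h
    simp only [Finset.mem_sigma, Finset.mem_Ioc, Nat.mem_divisorsAntidiagonal] at h ⊢
    obtain ⟨⟨h1, h2⟩, h3, h4⟩ := h
    have hp1 : 0 < p.1 := Nat.pos_of_ne_zero (by rintro h; simp [h] at h3; omega)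
    have hp2 : 0 < p.2 := Nat.pos_of_ne_zero (by rintro h; simp [h] at h3; omega)
    refine ⟨⟨hp1, ?_⟩, hp2, ?_⟩
    · calc p.1 ≤ p.1 * p.2 := Nat.le_mul_of_pos_right _ hp2
        _ ≤ N := by rw [h3]; exact h2
    · rw [Nat.le_div_iff_mul_le hp1, mul_comm, h3]; exact h2
  · rintro ⟨m, n⟩ h
    simp only [Finset.mem_sigma, Finset.mem_Ioc, Nat.mem_divisorsAntidiagonal] at h ⊢
    obtain ⟨⟨h1, h2⟩, h3, h4⟩ := h
    have := (Nat.le_div_iff_mul_le h1).mp h4
    refine ⟨⟨Nat.mul_pos h1 h3, by rw [mul_comm]; exact this⟩, trivial, by positivity⟩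
  · rintro ⟨k, p⟩ h
    simp only [Finset.mem_sigma, Nat.mem_divisorsAntidiagonal] at h
    simp [h.2.1]
  · rintro ⟨m, n⟩ h
    rfl
  · rintro ⟨k, p⟩ h
    rfl

lemma Hs_eq_harmonic (N : ℕ) : Hs N = (harmonic N : ℝ) := by
  unfold Hs harmonic
  push_cast
  induction N with
  | zero => simp
  | succ n ih =>
    rw [Finset.sum_Ioc_succ_top (by omega), Finset.sum_range_succ, ih]
    simp

lemma Hs_le (N : ℕ) : Hs N ≤ 1 + Real.log N := by
  rw [Hs_eq_harmonic]; exact harmonic_le_one_add_log N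

lemma sum_log_bounds {k : ℕ} (hk : 1 ≤ k) :
    |∑ n ∈ Finset.Ioc 0 k, Real.log n - (k * Real.log k - k)| ≤ 1 + Real.log k := by
  have key : ∀ k : ℕ, 1 ≤ k → 1 ≤ ∑ n ∈ Finset.Ioc 0 k, Real.log n - (k * Real.log k - k) ∧
      ∑ n ∈ Finset.Ioc 0 k, Real.log n - (k * Real.log k - k) ≤ Hs k := by
    intro k hk
    induction k, hk using Nat.le_induction with
    | base => simp [Hs]
    | succ k hk ih =>
      have hk0 : (0:ℝ) < k := by exact_mod_cast hk
      unfold Hs at ih ⊢
      rw [Finset.sum_Ioc_succ_top (by omega), Finset.sum_Ioc_succ_top (by omega)]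
      have h1 : Real.log ((k+1:ℕ):ℝ) = Real.log k + Real.log (1 + 1 / k) := by
        rw [← Real.log_mul (by positivity) (by positivity)]
        congr 1
        push_cast
        field_simp
      have h2 : Real.log (1 + 1 / (k:ℝ)) ≤ 1 / k := by
        have := Real.log_le_sub_one_of_pos (show (0:ℝ) < 1 + 1 / k by positivity)
        linarith
      have h3 : 2 * (1 / (k:ℝ)) / (1 / k + 2) ≤ Real.log (1 + 1 / k) :=
        Real.le_log_one_add_of_nonneg (by positivity)
      have h4 : 2 * (1 / (k:ℝ)) / (1 / k + 2) = 2 / (2 * k + 1) := by field_simp; ring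
      rw [h4] at h3
      have h5 : (k:ℝ) * Real.log (1 + 1 / k) ≤ 1 := by
        calc (k:ℝ) * Real.log (1 + 1 / k) ≤ k * (1 / k) := by gcongr
          _ = 1 := by field_simp
      have h6 : 1 - 1 / ((k+1:ℕ):ℝ) ≤ k * Real.log (1 + 1 / k) := by
        calc 1 - 1 / ((k+1:ℕ):ℝ) ≤ k * (2 / (2 * k + 1)) := by
              push_cast
              rw [sub_le_iff_le_add, ← sub_nonneg]
              have : (k:ℝ) * (2 / (2 * k + 1)) + 1 / (k + 1) - 1 = k / ((2 * k + 1) * (k + 1)) := by
                field_simp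
                ring
              rw [this]; positivity
          _ ≤ _ := by gcongr
      rw [h1]
      push_cast
      push_cast at h6
      constructor <;> nlinarith [ih.1, ih.2]
  obtain ⟨h1, h2⟩ := key k hk
  rw [abs_le]
  have := Hs_le k
  constructor
  · have : 0 ≤ Real.log k := Real.log_nonneg (by exact_mod_cast hk)
    linarith
  · linarith

lemma sum_vonMangoldt_le {x : ℝ} (hx : 0 ≤ x) :
    ∑ n ∈ Finset.Ioc 0 ⌊x⌋₊, Λ n ≤ 6 * x := by
  have h := Chebyshev.psi_le_const_mul_self hx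
  have h4 : Real.log 4 ≤ 2 := by
    have : Real.log 4 = 2 * Real.log 2 := by
      rw [show (4:ℝ) = 2 ^ 2 by norm_num, Real.log_pow]; push_cast; ring
    have h2 := Real.log_two_lt_d9
    linarith
  unfold Chebyshev.psi at h
  calc _ ≤ _ := h
    _ ≤ 6 * x := by
      gcongr
      linarith

lemma sum_vonMangoldt_floor (N : ℕ) :
    ∑ d ∈ Finset.Ioc 0 N, Λ d * ((N / d : ℕ) : ℝ) = ∑ k ∈ Finset.Ioc 0 N, Real.log k := by
  have h := sum_pairs (fun m _ => Λ m) N
  simp only [Finset.sum_const, Nat.card_Ioc, tsub_zero, nsmul_eq_mul] at h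
  calc _ = ∑ d ∈ Finset.Ioc 0 N, ((N / d : ℕ) : ℝ) * Λ d := by
        refine Finset.sum_congr rfl fun d _ => by ring
    _ = _ := by
        rw [← h]
        refine Finset.sum_congr rfl fun k _ => ?_
        rw [← vonMangoldt_sum, Nat.sum_divisorsAntidiagonal (f := fun i _ => Λ i)]

/-- Mertens' first theorem. -/
theorem mertens_one : ∃ C : ℝ, 0 < C ∧ ∀ N : ℕ, 1 ≤ N →
    |∑ n ∈ Finset.Icc 1 N, Λ n / n - Real.log N| ≤ C := by
  refine ⟨8, by norm_num, fun N hN => ?_⟩
  have hN0 : (0:ℝ) < N := by exact_mod_cast hN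
  have hIcc : Finset.Icc 1 N = Finset.Ioc 0 N := rfl
  rw [hIcc]
  have h1 := sum_vonMangoldt_floor N
  have h2 := sum_log_bounds hN
  have h3 : ∑ n ∈ Finset.Ioc 0 N, Λ n ≤ 6 * N := by
    have := sum_vonMangoldt_le hN0.le
    rwa [Nat.floor_natCast] at this
  have h4 : ∑ d ∈ Finset.Ioc 0 N, Λ d * ((N / d : ℕ) : ℝ) ≤ N * ∑ d ∈ Finset.Ioc 0 N, Λ d / d := by
    rw [Finset.mul_sum]
    refine Finset.sum_le_sum fun d _ => ?_
    have h5 : ((N / d : ℕ) : ℝ) ≤ (N:ℝ) / d := Nat.cast_div_le
    calc Λ d * ((N / d : ℕ) : ℝ) ≤ Λ d * ((N:ℝ) / d) :=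
          mul_le_mul_of_nonneg_left h5 vonMangoldt_nonneg
      _ = _ := by ring
  have h6 : N * ∑ d ∈ Finset.Ioc 0 N, Λ d / d ≤
      ∑ d ∈ Finset.Ioc 0 N, Λ d * ((N / d : ℕ) : ℝ) + ∑ d ∈ Finset.Ioc 0 N, Λ d := by
    rw [Finset.mul_sum, ← Finset.sum_add_distrib]
    refine Finset.sum_le_sum fun d hd => ?_
    have hd0 : 0 < d := (Finset.mem_Ioc.mp hd).1
    have h5 : (N:ℝ) / d ≤ ((N / d : ℕ) : ℝ) + 1 := by
      rw [div_le_iff₀ (by exact_mod_cast hd0)]
      have := Nat.lt_div_mul_add hd0 (a := N)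
      have h7 : (N:ℝ) < (N / d : ℕ) * d + d := by exact_mod_cast this
      nlinarith
    calc (N:ℝ) * (Λ d / d) = Λ d * ((N:ℝ) / d) := by ring
      _ ≤ Λ d * (((N / d : ℕ) : ℝ) + 1) := mul_le_mul_of_nonneg_left h5 vonMangoldt_nonneg
      _ = _ := by ring
  have hlog : Real.log N ≤ N := by
    have := Real.log_le_sub_one_of_pos hN0; linarith
  have hlog0 : 0 ≤ Real.log N := Real.log_nonneg (by exact_mod_cast hN)
  have hN1 : (1:ℝ) ≤ N := by exact_mod_cast hN
  rw [abs_le] at h2 ⊢
  set S := ∑ d ∈ Finset.Ioc 0 N, Λ d / d with hS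
  constructor
  · have : N * (Real.log N - 8) ≤ N * S := by nlinarith
    have := le_of_mul_le_mul_left this hN0
    linarith
  · have : N * S ≤ N * (Real.log N + 8) := by nlinarith
    have := le_of_mul_le_mul_left this hN0
    linarith

/-- Sums of `Λ(n)/n` against a Lipschitz function of `log n`. -/
theorem mertens_lip : ∃ C : ℝ, 0 < C ∧ ∀ (h : ℝ → ℝ) (K A B : ℝ) (N : ℕ), A ≤ B → 0 ≤ K →
    1 ≤ N → B ≤ Real.log N →
    (∀ u ∈ Set.Icc A B, ∀ v ∈ Set.Icc A B, |h u - h v| ≤ K * |u - v|) →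
    (∀ u, u ∉ Set.Ioo A B → h u = 0) →
    |∑ n ∈ Finset.Icc 1 N, Λ n / n * h (Real.log n) - ∫ u in (0:ℝ)..(Real.log N), h u| ≤
      C * K * (B - A) := by
  obtain ⟨C, hC, hM⟩ := mertens_one
  refine ⟨C + 1, by positivity, fun h K A B N hAB hK hN hBN hL h0 => ?_⟩
  set c : ℝ → ℝ := fun x => max A (min B x) with hc
  have hcm : Monotone c := fun x y hxy => max_le_max le_rfl (min_le_min le_rfl hxy)
  have hc_mem : ∀ x, c x ∈ Set.Icc A B := fun x =>
    ⟨le_max_left _ _, max_le hAB (min_le_left _ _)⟩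
  have hcL : ∀ x y, x ≤ y → c y - c x ≤ y - x := by
    intro x y hxy
    have h1 : min B y ≤ min B x + (y - x) := by
      rw [min_add]
      exact min_le_min (by linarith) (by linarith)
    have h2 : max A (min B y) ≤ max A (min B x) + (y - x) := by
      rw [max_add]
      exact max_le_max (by linarith) h1
    linarith
  have hhc : ∀ x, h x = h (c x) := by
    intro x
    by_cases hx : x ∈ Set.Icc A B
    · have : c x = x := by
        simp only [hc]; rw [min_eq_right hx.2, max_eq_right hx.1]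
      rw [this]
    · rw [h0 x fun hx' => hx ⟨hx'.1.le, hx'.2.le⟩]
      rw [Set.mem_Icc, not_and_or, not_le, not_le] at hx
      symm
      apply h0
      rcases hx with hx | hx
      · have : c x = A := by
          simp only [hc]; rw [min_eq_right (by linarith), max_eq_left hx.le]
        rw [this]; simp
      · have : c x = B := by
          simp only [hc]; rw [min_eq_left hx.le, max_eq_right hAB]
        rw [this]; simp
  have hhL : ∀ x y, x ≤ y → |h y - h x| ≤ K * (c y - c x) := by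
    intro x y hxy
    rw [hhc x, hhc y]
    have := hL (c y) (hc_mem y) (c x) (hc_mem x)
    rwa [abs_of_nonneg (sub_nonneg.mpr (hcm hxy))] at this
  have hcont : Continuous h := by
    have : LipschitzWith (Real.toNNReal K) h := by
      refine LipschitzWith.of_dist_le_mul fun x y => ?_
      rw [Real.dist_eq, Real.dist_eq, Real.coe_toNNReal _ hK]
      rcases le_total x y with hxy | hxy
      · rw [abs_sub_comm, abs_sub_comm x y, abs_of_nonneg (sub_nonneg.mpr hxy)]
        exact (hhL x y hxy).trans (mul_le_mul_of_nonneg_left (hcL x y hxy) hK)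
      · rw [abs_of_nonneg (sub_nonneg.mpr hxy)]
        exact (hhL y x hxy).trans (mul_le_mul_of_nonneg_left (hcL y x hxy) hK)
    exact this.continuous
  -- the error function
  set E : ℕ → ℝ := fun n => ∑ k ∈ Finset.Icc 1 n, Λ k / k - Real.log n with hE
  have hEb : ∀ n, 1 ≤ n → |E n| ≤ C := fun n hn => hM n hn
  have key : ∀ n : ℕ, 1 ≤ n →
      |∑ k ∈ Finset.Icc 1 n, Λ k / k * h (Real.log k) - (∫ u in (0:ℝ)..(Real.log n), h u) -
        E n * h (Real.log n)| ≤ (C + 1) * K * (c (Real.log n) - c 0) := by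
    intro n hn
    induction n, hn using Nat.le_induction with
    | base => simp [hE]
    | succ n hn ih =>
      have hn0 : (0:ℝ) < n := by exact_mod_cast hn
      set x := Real.log n with hx
      set y := Real.log ((n + 1 : ℕ) : ℝ) with hy
      have hxy : x ≤ y := Real.log_le_log hn0 (by push_cast; linarith)
      have hyx : y - x ≤ 1 := by
        rw [hx, hy, ← Real.log_div (by positivity) hn0.ne']
        have := Real.log_le_sub_one_of_pos (show 0 < ((n + 1 : ℕ) : ℝ) / n by positivity)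
        have h2 : ((n + 1 : ℕ) : ℝ) / n - 1 = 1 / n := by push_cast; field_simp; ring
        rw [h2] at this
        have h3 : 1 / (n:ℝ) ≤ 1 := by
          rw [div_le_one hn0]; exact_mod_cast hn
        linarith
      have hint : ∫ u in (0:ℝ)..y, h u = (∫ u in (0:ℝ)..x, h u) + ∫ u in x..y, h u :=
        (intervalIntegral.integral_add_adjacent_intervals (hcont.intervalIntegrable _ _)
          (hcont.intervalIntegrable _ _)).symm
      have hI : |(y - x) * h y - ∫ u in x..y, h u| ≤ K * (c y - c x) := by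
        have h1 : (y - x) * h y - ∫ u in x..y, h u = ∫ u in x..y, (h y - h u) := by
          rw [intervalIntegral.integral_sub (by simp) (hcont.intervalIntegrable _ _)]
          simp
        rw [h1]
        have h2 := intervalIntegral.norm_integral_le_of_norm_le_const
          (a := x) (b := y) (C := K * (c y - c x)) (f := fun u => h y - h u) ?_
        · rw [Real.norm_eq_abs, abs_of_nonneg (sub_nonneg.mpr hxy)] at h2
          refine h2.trans ?_
          have : 0 ≤ K * (c y - c x) := mul_nonneg hK (sub_nonneg.mpr (hcm hxy))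
          nlinarith
        · intro u hu
          rw [Set.uIoc_of_le hxy] at hu
          rw [Real.norm_eq_abs]
          refine (hhL u y hu.2).trans ?_
          exact mul_le_mul_of_nonneg_left (by linarith [hcm hu.1.le]) hK
      have hEs : E (n + 1) = E n + Λ (n + 1) / ((n + 1 : ℕ) : ℝ) - (y - x) := by
        simp only [hE]
        rw [Finset.sum_Icc_succ_top (by omega)]
        simp only [← hx, ← hy]
        ring
      have hd : |E n * (h y - h x)| ≤ C * (K * (c y - c x)) := by
        rw [abs_mul]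
        exact mul_le_mul (hEb n hn) (hhL x y hxy) (abs_nonneg _) hC.le
      rw [Finset.sum_Icc_succ_top (by omega), hint, hEs]
      simp only [← hy]
      have : (∑ k ∈ Finset.Icc 1 n, Λ k / k * h (Real.log k) + Λ (n + 1) / ((n + 1 : ℕ) : ℝ) * h y -
          ((∫ u in (0:ℝ)..x, h u) + ∫ u in x..y, h u) -
          (E n + Λ (n + 1) / ((n + 1 : ℕ) : ℝ) - (y - x)) * h y) =
          (∑ k ∈ Finset.Icc 1 n, Λ k / k * h (Real.log k) - (∫ u in (0:ℝ)..x, h u) - E n * h x) -
          E n * (h y - h x) + ((y - x) * h y - ∫ u in x..y, h u) := by ring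
      rw [this]
      calc _ ≤ |∑ k ∈ Finset.Icc 1 n, Λ k / k * h (Real.log k) - (∫ u in (0:ℝ)..x, h u) - E n * h x|
            + |E n * (h y - h x)| + |(y - x) * h y - ∫ u in x..y, h u| :=
            (abs_add_le _ _).trans (add_le_add (abs_sub _ _) le_rfl)
        _ ≤ (C + 1) * K * (c x - c 0) + C * (K * (c y - c x)) + K * (c y - c x) := by
            gcongr
        _ = _ := by ring
  have h1 := key N hN
  have h2 : h (Real.log N) = 0 := h0 _ fun hx => by linarith [hx.2]
  rw [h2, mul_zero, sub_zero] at h1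
  refine h1.trans ?_
  have h3 : c (Real.log N) - c 0 ≤ B - A := by
    have := (hc_mem (Real.log N)).2
    have := (hc_mem 0).1
    linarith
  exact mul_le_mul_of_nonneg_left h3 (by positivity)

end Pool.Agent.ANTE
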