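import Pool.Agent.Lib.ANT.PNT

open Complex ArithmeticFunction
open scoped ArithmeticFunction.Moebius ArithmeticFunction.zeta

namespace Pool.Agent.ANT

lemma abel_Ioc {b : ℕ → ℂ} {w : ℕ → ℝ} {X : ℕ} {B : ℝ}
    (hw0 : ∀ n, 0 < n → 0 ≤ w n) (hw : ∀ n, 0 < n → w (n+1) ≤ w n)
    (hB : ∀ u, u ≤ X → ‖∑ n ∈ Finset.Ioc 0 u, b n‖ ≤ B) :
    ‖∑ n ∈ Finset.Ioc 0 X, b n * w n‖ ≤ B * w 1 :=
  abel_ineq (Nat.zero_le X) hw0 hw fun u _ hu => hB u hu

lemma norm_sum_char_log_le {q : ℕ} [NeZero q] {χ : DirichletCharacter ℂ q} (hχ : χ ≠ 1) {k : ℕ}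
    (hk : 1 ≤ k) :
    ‖∑ n ∈ Finset.Ioc 0 k, χ n * (Real.log n : ℂ)‖ ≤ 2 * q * Real.log k := by
  have hk0 : (1:ℝ) ≤ k := by exact_mod_cast hk
  have hlk : 0 ≤ Real.log k := Real.log_nonneg hk0
  set w : ℕ → ℝ := fun n => max (Real.log k - Real.log n) 0 with hw
  have h1 : ‖∑ n ∈ Finset.Ioc 0 k, χ n * (w n : ℂ)‖ ≤ q * w 1 := by
    refine abel_Ioc (fun n _ => le_max_right _ _) (fun n hn => ?_)
      (fun u _ => norm_sum_Icc_char_le hχ u)
    refine max_le_max ?_ le_rfl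
    have : Real.log n ≤ Real.log ((n+1:ℕ):ℝ) :=
      Real.log_le_log (by exact_mod_cast hn) (by push_cast; linarith)
    linarith
  have h2 : ∑ n ∈ Finset.Ioc 0 k, χ n * (Real.log n : ℂ) =
      (Real.log k : ℂ) * ∑ n ∈ Finset.Ioc 0 k, χ n - ∑ n ∈ Finset.Ioc 0 k, χ n * (w n : ℂ) := by
    rw [Finset.mul_sum, ← Finset.sum_sub_distrib]
    refine Finset.sum_congr rfl fun n hn => ?_
    obtain ⟨hn1, hn2⟩ := Finset.mem_Ioc.mp hn
    have : w n = Real.log k - Real.log n := by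
      rw [hw]
      refine max_eq_left (sub_nonneg.mpr (Real.log_le_log (by exact_mod_cast hn1) ?_))
      exact_mod_cast hn2
    rw [this]; push_cast; ring
  have hw1 : w 1 = Real.log k := by
    rw [hw]; simp [hlk]
  rw [h2]
  calc _ ≤ ‖(Real.log k : ℂ) * ∑ n ∈ Finset.Ioc 0 k, χ n‖ + ‖∑ n ∈ Finset.Ioc 0 k, χ n * (w n : ℂ)‖ :=
        norm_sub_le _ _
    _ ≤ Real.log k * q + q * w 1 := by
        refine add_le_add ?_ h1
        rw [norm_mul, Complex.norm_real, Real.norm_of_nonneg hlk]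
        exact mul_le_mul_of_nonneg_left (norm_sum_Icc_char_le hχ k) hlk
    _ = _ := by rw [hw1]; ring

lemma cLam_conv {q : ℕ} (χ : DirichletCharacter ℂ q) (k : ℕ) :
    ∑ p ∈ k.divisorsAntidiagonal, cmu χ p.1 * (χ p.2 * (Real.log p.2 : ℂ)) = χ k * (Λ k : ℂ) := by
  rw [← vonMangoldt_conv k, Complex.ofReal_sum, Finset.mul_sum]
  refine Finset.sum_congr rfl fun p hp => ?_
  have h := (Nat.mem_divisorsAntidiagonal.mp hp).1
  have h2 : χ (k : ZMod q) = χ (p.1 : ZMod q) * χ (p.2 : ZMod q) := by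
    rw [← h]; push_cast; exact map_mul _ _ _
  rw [h2]
  unfold cmu
  push_cast
  ring

/-- Siegel–Walfisz for `Λ χ`, all nonprincipal characters, uniform in `q`. -/
theorem siegel_walfisz_lambda (m : ℕ) {ε : ℝ} (hε : 0 < ε) : ∃ C : ℝ, 0 < C ∧ ∀ (q : ℕ) [NeZero q]
    (χ : DirichletCharacter ℂ q), χ ≠ 1 → ∀ x : ℝ, 3 ≤ x →
    ‖∑ n ∈ Finset.Icc 1 ⌊x⌋₊, χ n * (Λ n : ℂ)‖ ≤ C * (q:ℝ) ^ ε * x / Real.log x ^ m := by
  obtain ⟨K, hK, hM⟩ := siegel_walfisz_mu (m+2) hε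
  obtain ⟨L, hL, hlog⟩ := log_pow_le_rpow m (show (0:ℝ) < 1/8 by norm_num)
  obtain ⟨L', hL', hlog'⟩ := log_pow_le_rpow m (show (0:ℝ) < ε / 8 by positivity)
  have hlog10 : 1 ≤ Real.log 10 := one_le_log (by norm_num)
  set C0 : ℝ := 8 * L + 8 * 4 ^ (m+2) * K * 2 ^ m with hC0
  set C1 : ℝ := 6 * Real.log 10 ^ m with hC1
  refine ⟨C0 + C1 + 6 * L', by positivity, fun q _ χ hχ x hx => ?_⟩
  have hC0' : 0 ≤ C0 := by positivity
  have hC1' : 0 ≤ C1 := by positivity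
  have hx0 : 0 < x := by linarith
  have hlogx := one_le_log hx
  have hq : (1:ℝ) ≤ q := by exact_mod_cast Nat.pos_of_ne_zero (NeZero.ne q)
  have hqε : 1 ≤ (q:ℝ) ^ ε := Real.one_le_rpow hq hε.le
  have hIcc : Finset.Icc 1 ⌊x⌋₊ = Finset.Ioc 0 ⌊x⌋₊ := rfl
  rw [hIcc]
  have htriv : ‖∑ n ∈ Finset.Ioc 0 ⌊x⌋₊, χ n * (Λ n : ℂ)‖ ≤ 6 * x := by
    refine (norm_sum_le _ _).trans (le_trans (Finset.sum_le_sum fun n _ => ?_)
      (sum_vonMangoldt_le hx0.le))
    rw [norm_mul, Complex.norm_real, Real.norm_of_nonneg vonMangoldt_nonneg]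
    exact mul_le_of_le_one_left vonMangoldt_nonneg (χ.norm_le_one _)
  rcases lt_or_ge x 10 with h10 | h10
  · have h4 : 6 * x ≤ C1 * (q:ℝ) ^ ε * x / Real.log x ^ m := by
      rw [le_div_iff₀ (by positivity), hC1]
      have : Real.log x ^ m ≤ Real.log 10 ^ m := by gcongr
      calc 6 * x * Real.log x ^ m ≤ 6 * x * Real.log 10 ^ m := by gcongr
        _ = 6 * Real.log 10 ^ m * 1 * x := by ring
        _ ≤ 6 * Real.log 10 ^ m * (q:ℝ) ^ ε * x := by gcongr
    calc _ ≤ _ := htriv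
      _ ≤ _ := h4
      _ ≤ _ := by
        gcongr
        linarith
  · rcases lt_or_ge ((q:ℝ)) (x ^ (1/8 : ℝ)) with hqx | hqx
    · set N := ⌊x⌋₊ with hN
      have hN9 : 9 ≤ N := Nat.le_floor (by push_cast; linarith)
      have hNx : (N:ℝ) ≤ x := Nat.floor_le hx0.le
      have hN0 : (0:ℝ) < N := by positivity
      have hS : ∑ n ∈ Finset.Ioc 0 N, χ n * (Λ n : ℂ) =
          ∑ m ∈ Finset.Ioc 0 N, cmu χ m * ∑ n ∈ Finset.Ioc 0 (N / m), χ n * (Real.log n : ℂ) := by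
        rw [← sum_conv (cmu χ) (fun n => χ n * (Real.log n : ℂ)) N]
        exact Finset.sum_congr rfl fun k _ => (cLam_conv χ k).symm
      have hG : ∀ k : ℕ, 1 ≤ k → ‖∑ n ∈ Finset.Ioc 0 k, χ n * (Real.log n : ℂ)‖ ≤
          (4 * q) * √(k:ℝ) := by
        intro k hk
        have hk1 : (1:ℝ) ≤ k := by exact_mod_cast hk
        refine (norm_sum_char_log_le hχ hk).trans ?_
        have h4 : Real.log k ≤ 2 * √(k:ℝ) := by
          have h5 : Real.log k = 2 * Real.log (√(k:ℝ)) := by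
            rw [Real.log_sqrt (by positivity)]; ring
          have h6 := Real.log_le_sub_one_of_pos
            (show 0 < √(k:ℝ) from Real.sqrt_pos.mpr (by positivity))
          linarith
        calc 2 * q * Real.log k ≤ 2 * q * (2 * √(k:ℝ)) := by gcongr
          _ = _ := by ring
      have hA : ∀ k : ℕ, 1 ≤ k → ∑ n ∈ Finset.Ioc 0 k, ‖χ n * (Real.log n : ℂ)‖ / n ≤
          1 * (1 + Real.log k) ^ 2 := by
        intro k hk
        have hk1 : (1:ℝ) ≤ k := by exact_mod_cast hk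
        have hlk : 0 ≤ Real.log k := Real.log_nonneg hk1
        calc ∑ n ∈ Finset.Ioc 0 k, ‖χ n * (Real.log n : ℂ)‖ / n
            ≤ ∑ n ∈ Finset.Ioc 0 k, (Real.log k * (1 / n)) := by
              refine Finset.sum_le_sum fun n hn => ?_
              obtain ⟨hn1, hn2⟩ := Finset.mem_Ioc.mp hn
              have hn0 : (0:ℝ) < n := by exact_mod_cast hn1
              have hn1' : (1:ℝ) ≤ n := by exact_mod_cast hn1
              have h6 : Real.log n ≤ Real.log k := Real.log_le_log hn0 (by exact_mod_cast hn2)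
              have h7 : 0 ≤ Real.log n := Real.log_nonneg hn1'
              rw [norm_mul, Complex.norm_real, Real.norm_of_nonneg h7, mul_one_div]
              gcongr
              exact (mul_le_of_le_one_left h7 (χ.norm_le_one _)).trans h6
          _ = Real.log k * Hs k := by rw [← Finset.mul_sum]; rfl
          _ ≤ (1 + Real.log k) * (1 + Real.log k) := by
              have := Hs_le k
              have := Hs_nonneg k
              gcongr
              linarith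
          _ = _ := by ring
      have hF : ∀ k : ℕ, 3 ≤ k → ‖∑ n ∈ Finset.Ioc 0 k, cmu χ n‖ ≤
          (K * (q:ℝ) ^ ε) * k / Real.log k ^ (m+2) := by
        intro k hk
        have := hM q χ hχ k (by exact_mod_cast hk)
        rw [Nat.floor_natCast] at this
        exact this
      have hmain := conv_bound_sqrt (f := cmu χ) (g := fun n => χ n * (Real.log n : ℂ))
        (G := 4 * q) (K := K * (q:ℝ) ^ ε) (A := 1) (j := m) (N := N) (by positivity)
        (by positivity) (norm_cmu_le χ) hG hA hF hN9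
      rw [hS]
      have h1 : q * (N:ℝ) ^ (3/4 : ℝ) ≤ L * x / Real.log x ^ m := by
        have h2 := hlog x (by linarith)
        rw [le_div_iff₀ (by positivity)]
        calc q * (N:ℝ) ^ (3/4 : ℝ) * Real.log x ^ m
            ≤ x ^ (1/8:ℝ) * x ^ (3/4 : ℝ) * (L * x ^ (1/8:ℝ)) := by gcongr
          _ = L * (x ^ (1/8:ℝ) * x ^ (3/4 : ℝ) * x ^ (1/8:ℝ)) := by ring
          _ = L * x := by rw [← Real.rpow_add hx0, ← Real.rpow_add hx0]; norm_num
      have h2 := floor_div_log_le hx m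
      rw [← hN] at h2
      calc _ ≤ _ := hmain
        _ = 8 * (q * (N:ℝ) ^ (3/4 : ℝ)) + 8 * 4 ^ (m+2) * K * (q:ℝ) ^ ε *
            (N / Real.log N ^ m) := by ring
        _ ≤ 8 * (L * x / Real.log x ^ m) + 8 * 4 ^ (m+2) * K * (q:ℝ) ^ ε *
            (2 ^ m * x / Real.log x ^ m) := by gcongr
        _ = (8 * L * 1 + 8 * 4 ^ (m+2) * K * 2 ^ m * (q:ℝ) ^ ε) * x / Real.log x ^ m := by ring
        _ ≤ (8 * L * (q:ℝ) ^ ε + 8 * 4 ^ (m+2) * K * 2 ^ m * (q:ℝ) ^ ε) * x / Real.log x ^ m := by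
            gcongr
        _ = C0 * (q:ℝ) ^ ε * x / Real.log x ^ m := by rw [hC0]; ring
        _ ≤ _ := by
          gcongr
          linarith
    · have h2 := hlog' x (by linarith)
      have h3 : x ^ (ε / 8) ≤ (q:ℝ) ^ ε := by
        calc x ^ (ε/8) = (x ^ (1/8:ℝ)) ^ ε := by
              rw [← Real.rpow_mul hx0.le]; congr 1; ring
          _ ≤ _ := Real.rpow_le_rpow (by positivity) hqx hε.le
      have h4 : 6 * x ≤ (6 * L') * (q:ℝ) ^ ε * x / Real.log x ^ m := by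
        rw [le_div_iff₀ (by positivity)]
        calc 6 * x * Real.log x ^ m ≤ 6 * x * (L' * x ^ (ε/8)) := by gcongr
          _ ≤ 6 * x * (L' * (q:ℝ) ^ ε) := by gcongr
          _ = _ := by ring
      calc _ ≤ _ := htriv
        _ ≤ _ := h4
        _ ≤ _ := by
          gcongr
          linarith

/-! ### Principal characters -/

lemma sum_vonMangoldt_dvd_le {p : ℕ} (hp : p.Prime) {N : ℕ} (hN : N ≠ 0) :
    ∑ n ∈ (Finset.Ioc 0 N).filter (fun n => p ∣ n), Λ n ≤ Real.log N := by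
  have h1 : ∑ n ∈ (Finset.Ioc 0 N).filter (fun n => p ∣ n), Λ n =
      ∑ n ∈ (Finset.Icc 1 (Nat.log p N)).image (fun k => p ^ k), Λ n := by
    symm
    refine Finset.sum_subset_zero_on_sdiff ?_ ?_ (fun _ _ => rfl)
    · intro n hn
      obtain ⟨k, hk, rfl⟩ := Finset.mem_image.mp hn
      obtain ⟨hk1, hk2⟩ := Finset.mem_Icc.mp hk
      refine Finset.mem_filter.mpr ⟨Finset.mem_Ioc.mpr ⟨pow_pos hp.pos k, ?_⟩,
        dvd_pow_self p (by omega)⟩
      exact Nat.pow_le_of_le_log hN hk2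
    · intro n hn
      obtain ⟨hn1, hn2⟩ := Finset.mem_sdiff.mp hn
      obtain ⟨hn3, hn4⟩ := Finset.mem_filter.mp hn1
      obtain ⟨hn5, hn6⟩ := Finset.mem_Ioc.mp hn3
      rw [vonMangoldt_eq_zero_iff, isPrimePow_nat_iff]
      rintro ⟨r, k, hr, hk, rfl⟩
      have : p = r := (Nat.prime_dvd_prime_iff_eq hp hr).mp (hp.dvd_of_dvd_pow hn4)
      subst this
      exact hn2 (Finset.mem_image.mpr ⟨k, Finset.mem_Icc.mpr
        ⟨hk, Nat.le_log_of_pow_le hp.one_lt hn6⟩, rfl⟩)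
  rw [h1, Finset.sum_image fun a _ b _ h => Nat.pow_right_injective hp.two_le h]
  have h2 : ∑ k ∈ Finset.Icc 1 (Nat.log p N), Λ (p ^ k) =
      ∑ k ∈ Finset.Icc 1 (Nat.log p N), Real.log p := by
    refine Finset.sum_congr rfl fun k hk => ?_
    rw [vonMangoldt_apply_pow (by have := (Finset.mem_Icc.mp hk).1; omega),
      vonMangoldt_apply_prime hp]
  rw [h2]
  simp only [Finset.sum_const, Nat.card_Icc, add_tsub_cancel_right, nsmul_eq_mul]
  rw [← Real.log_pow]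
  exact Real.log_le_log (by have := hp.pos; positivity) (by exact_mod_cast Nat.pow_log_le_self p hN)

lemma two_pow_card_primeFactors_le {q : ℕ} (hq : q ≠ 0) : 2 ^ q.primeFactors.card ≤ q := by
  calc 2 ^ q.primeFactors.card = ∏ _p ∈ q.primeFactors, 2 := by simp
    _ ≤ ∏ p ∈ q.primeFactors, p := Finset.prod_le_prod' fun p hp =>
        (Nat.prime_of_mem_primeFactors hp).two_le
    _ ≤ q := Nat.le_of_dvd (Nat.pos_of_ne_zero hq) (Nat.prod_primeFactors_dvd q)

lemma card_primeFactors_le_log {q : ℕ} (hq : q ≠ 0) :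
    (q.primeFactors.card : ℝ) ≤ 2 * Real.log q := by
  have h1 : ((2:ℝ)) ^ q.primeFactors.card ≤ q := by exact_mod_cast two_pow_card_primeFactors_le hq
  have h2 := Real.log_le_log (by positivity) h1
  rw [Real.log_pow] at h2
  have h3 := Real.log_two_gt_d9
  have : (0:ℝ) ≤ q.primeFactors.card := Nat.cast_nonneg _
  nlinarith

lemma sum_vonMangoldt_not_coprime_le {q : ℕ} (hq : q ≠ 0) {N : ℕ} (hN : N ≠ 0) :
    ∑ n ∈ (Finset.Ioc 0 N).filter (fun n => ¬ n.Coprime q), Λ n ≤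
      q.primeFactors.card * Real.log N := by
  calc ∑ n ∈ (Finset.Ioc 0 N).filter (fun n => ¬ n.Coprime q), Λ n
      ≤ ∑ n ∈ Finset.Ioc 0 N, ∑ p ∈ q.primeFactors, if p ∣ n then Λ n else 0 := by
        rw [Finset.sum_filter]
        refine Finset.sum_le_sum fun n _ => ?_
        have hnn : 0 ≤ ∑ p ∈ q.primeFactors, if p ∣ n then Λ n else 0 := by
          refine Finset.sum_nonneg fun p _ => ?_
          split_ifs
          · exact vonMangoldt_nonneg
          · exact le_rfl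
        by_cases h : n.Coprime q
        · simpa [h] using hnn
        · obtain ⟨p, hp, hpn, hpq⟩ := Nat.Prime.not_coprime_iff_dvd.mp h
          have hmem : p ∈ q.primeFactors := Nat.mem_primeFactors.mpr ⟨hp, hpq, hq⟩
          have := Finset.single_le_sum (f := fun p => if p ∣ n then Λ n else 0)
            (fun p _ => by
              show 0 ≤ if p ∣ n then Λ n else 0
              split_ifs
              · exact vonMangoldt_nonneg
              · exact le_rfl) hmem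
          simpa [hpn, h] using this
    _ = ∑ p ∈ q.primeFactors, ∑ n ∈ (Finset.Ioc 0 N).filter (fun n => p ∣ n), Λ n := by
        rw [Finset.sum_comm]
        exact Finset.sum_congr rfl fun p _ => (Finset.sum_filter _ _).symm
    _ ≤ ∑ p ∈ q.primeFactors, Real.log N := Finset.sum_le_sum fun p hp =>
        sum_vonMangoldt_dvd_le (Nat.prime_of_mem_primeFactors hp) hN
    _ = _ := by simp

/-! ### Arithmetic progressions -/

lemma psi_char_one {q : ℕ} [NeZero q] (N : ℕ) :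
    ∑ n ∈ Finset.Ioc 0 N, (1 : DirichletCharacter ℂ q) n * (Λ n : ℂ) =
      ((∑ n ∈ Finset.Ioc 0 N, Λ n -
        ∑ n ∈ (Finset.Ioc 0 N).filter (fun n => ¬ n.Coprime q), Λ n : ℝ) : ℂ) := by
  rw [Finset.sum_filter, ← Finset.sum_sub_distrib, Complex.ofReal_sum]
  refine Finset.sum_congr rfl fun n _ => ?_
  by_cases h : n.Coprime q
  · have : IsUnit (n : ZMod q) := (ZMod.isUnit_iff_coprime n q).mpr h
    rw [MulChar.one_apply this]
    simp [h]
  · have : ¬ IsUnit (n : ZMod q) := fun h' => h ((ZMod.isUnit_iff_coprime n q).mp h')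
    rw [MulChar.map_nonunit _ this]
    simp [h]

/-- **Siegel–Walfisz theorem** for `Λ` in progressions, all moduli (nontrivial when `q` is at most a
power of `log x`). -/
theorem psi_ap (m : ℕ) {ε : ℝ} (hε : 0 < ε) : ∃ C : ℝ, 0 < C ∧ ∀ (q : ℕ) [NeZero q] (a : ZMod q),
    IsUnit a → ∀ x : ℝ, 3 ≤ x →
    |∑ n ∈ (Finset.Icc 1 ⌊x⌋₊).filter (fun n : ℕ => (n : ZMod q) = a), Λ n - x / q.totient| ≤
      C * (q:ℝ) ^ ε * x / Real.log x ^ m := by
  obtain ⟨C1, hC1, h1⟩ := siegel_walfisz_lambda m hε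
  obtain ⟨C2, hC2, h2⟩ := psi_pnt m
  obtain ⟨L, hL, hlog⟩ := log_pow_le_rpow (m+1) (show (0:ℝ) < 1 by norm_num)
  obtain ⟨L', hL', hlog'⟩ := log_pow_le_rpow 1 hε
  refine ⟨C1 + C2 + 2 * L * L', by positivity, fun q _ a ha x hx => ?_⟩
  have hx0 : 0 < x := by linarith
  have hlogx := one_le_log hx
  have hq0 : q ≠ 0 := NeZero.ne q
  have hq : (1:ℝ) ≤ q := by exact_mod_cast Nat.pos_of_ne_zero hq0
  have hqε : 1 ≤ (q:ℝ) ^ ε := Real.one_le_rpow hq hε.le
  set N := ⌊x⌋₊ with hN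
  have hN1 : N ≠ 0 := by
    have : 3 ≤ N := Nat.le_floor (by exact_mod_cast hx)
    omega
  have hNx : (N:ℝ) ≤ x := Nat.floor_le hx0.le
  have hφ : (0:ℝ) < q.totient := by exact_mod_cast Nat.totient_pos.mpr (Nat.pos_of_ne_zero hq0)
  have hIcc : Finset.Icc 1 N = Finset.Ioc 0 N := rfl
  rw [hIcc]
  set B : ℝ := (C1 + C2 + 2 * L * L') * (q:ℝ) ^ ε * x / Real.log x ^ m with hB
  -- each character sum
  have hchar : ∀ χ : DirichletCharacter ℂ q,
      ‖∑ n ∈ Finset.Ioc 0 N, χ n * (Λ n : ℂ) - (if χ = 1 then (x:ℂ) else 0)‖ ≤ B := by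
    intro χ
    split_ifs with hχ
    · subst hχ
      rw [psi_char_one, ← Complex.ofReal_sub, Complex.norm_real, Real.norm_eq_abs]
      have h3 := h2 x hx
      rw [hIcc] at h3
      have h4 := sum_vonMangoldt_not_coprime_le hq0 hN1
      have h4' : 0 ≤ ∑ n ∈ (Finset.Ioc 0 N).filter (fun n => ¬ n.Coprime q), Λ n :=
        Finset.sum_nonneg fun _ _ => vonMangoldt_nonneg
      have h5 : (q.primeFactors.card : ℝ) * Real.log N ≤ 2 * L * L' * (q:ℝ) ^ ε * x / Real.log x ^ m := by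
        have h6 := hlog x (by linarith)
        have h7 := hlog' q hq
        rw [le_div_iff₀ (by positivity)]
        have h8 : Real.log N ≤ Real.log x := Real.log_le_log (by positivity) hNx
        have h9 : 0 ≤ Real.log N := Real.log_natCast_nonneg _
        have h10 := card_primeFactors_le_log hq0
        rw [Real.rpow_one] at h6
        rw [pow_one] at h7
        calc (q.primeFactors.card : ℝ) * Real.log N * Real.log x ^ m
            ≤ (2 * (L' * (q:ℝ) ^ ε)) * Real.log x * Real.log x ^ m := by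
              gcongr
              exact h10.trans (by gcongr)
          _ = (2 * (L' * (q:ℝ) ^ ε)) * Real.log x ^ (m+1) := by ring
          _ ≤ (2 * (L' * (q:ℝ) ^ ε)) * (L * x) := by gcongr
          _ = _ := by ring
      have h6 : C2 * x / Real.log x ^ m ≤ C2 * (q:ℝ) ^ ε * x / Real.log x ^ m := by
        gcongr
        exact le_mul_of_one_le_right hC2.le hqε
      have h7 : 0 ≤ C1 * (q:ℝ) ^ ε * x / Real.log x ^ m := by positivity
      have h8 : B = C1 * (q:ℝ) ^ ε * x / Real.log x ^ m + C2 * (q:ℝ) ^ ε * x / Real.log x ^ m +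
          2 * L * L' * (q:ℝ) ^ ε * x / Real.log x ^ m := by rw [hB]; ring
      rw [h8]
      rw [abs_le] at h3 ⊢
      constructor <;> linarith [h3.1, h3.2]
    · rw [sub_zero]
      refine (h1 q χ hχ x hx).trans ?_
      rw [hB]
      gcongr
      have : 0 < C2 + 2 * L * L' := by positivity
      linarith
  -- orthogonality
  have horth : ((∑ n ∈ (Finset.Ioc 0 N).filter (fun n : ℕ => (n : ZMod q) = a), Λ n -
      x / q.totient : ℝ) : ℂ) = (q.totient : ℂ)⁻¹ * ∑ χ : DirichletCharacter ℂ q, χ a⁻¹ *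
        (∑ n ∈ Finset.Ioc 0 N, χ n * (Λ n : ℂ) - (if χ = 1 then (x:ℂ) else 0)) := by
    have e1 : ∑ χ : DirichletCharacter ℂ q, χ a⁻¹ * (if χ = 1 then (x:ℂ) else 0) = x := by
      simp only [mul_ite, mul_zero]
      rw [Finset.sum_ite_eq' Finset.univ (1 : DirichletCharacter ℂ q)]
      rw [if_pos (Finset.mem_univ _), MulChar.one_apply, one_mul]
      obtain ⟨u, rfl⟩ := ha
      rw [ZMod.inv_coe_unit]
      exact (u⁻¹).isUnit
    have e2 : ∑ χ : DirichletCharacter ℂ q, χ a⁻¹ * ∑ n ∈ Finset.Ioc 0 N, χ n * (Λ n : ℂ) =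
        q.totient * ((∑ n ∈ (Finset.Ioc 0 N).filter (fun n : ℕ => (n : ZMod q) = a), Λ n : ℝ) : ℂ) := by
      simp_rw [Finset.mul_sum]
      rw [Finset.sum_comm, Finset.sum_filter, Complex.ofReal_sum, Finset.mul_sum]
      refine Finset.sum_congr rfl fun n _ => ?_
      simp_rw [← mul_assoc]
      rw [← Finset.sum_mul, DirichletCharacter.sum_char_inv_mul_char_eq ℂ ha (n : ZMod q)]
      by_cases h : (n : ZMod q) = a
      · simp [h]
      · have h' : ¬ a = (n : ZMod q) := fun h' => h h'.symm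
        simp [h, h']
    simp_rw [mul_sub]
    rw [Finset.sum_sub_distrib, e1, e2]
    have : (q.totient : ℂ) ≠ 0 := by exact_mod_cast hφ.ne'
    push_cast
    field_simp
  have hnorm : |∑ n ∈ (Finset.Ioc 0 N).filter (fun n : ℕ => (n : ZMod q) = a), Λ n -
      x / q.totient| = ‖((∑ n ∈ (Finset.Ioc 0 N).filter (fun n : ℕ => (n : ZMod q) = a), Λ n -
      x / q.totient : ℝ) : ℂ)‖ := by rw [Complex.norm_real, Real.norm_eq_abs]
  rw [hnorm, horth, norm_mul, norm_inv, Complex.norm_natCast]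
  calc (q.totient : ℝ)⁻¹ * ‖∑ χ : DirichletCharacter ℂ q, χ a⁻¹ *
        (∑ n ∈ Finset.Ioc 0 N, χ n * (Λ n : ℂ) - (if χ = 1 then (x:ℂ) else 0))‖
      ≤ (q.totient : ℝ)⁻¹ * ∑ _χ : DirichletCharacter ℂ q, B := by
        gcongr
        refine (norm_sum_le _ _).trans (Finset.sum_le_sum fun χ _ => ?_)
        rw [norm_mul]
        calc ‖χ a⁻¹‖ * _ ≤ 1 * B := mul_le_mul (χ.norm_le_one _) (hchar χ) (norm_nonneg _) zero_le_one
          _ = B := one_mul _
    _ = B := by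
        rw [Finset.sum_const, Finset.card_univ, ← Nat.card_eq_fintype_card,
          DirichletCharacter.card_eq_totient_of_hasEnoughRootsOfUnity ℂ q]
        rw [nsmul_eq_mul]
        field_simp

/-- Siegel–Walfisz for `θ(x; q, a)`. -/
theorem theta_ap (m : ℕ) {ε : ℝ} (hε : 0 < ε) : ∃ C : ℝ, 0 < C ∧ ∀ (q : ℕ) [NeZero q] (a : ZMod q),
    IsUnit a → ∀ x : ℝ, 3 ≤ x →
    |∑ p ∈ (Finset.Icc 1 ⌊x⌋₊).filter (fun p : ℕ => p.Prime ∧ (p : ZMod q) = a), Real.log p -
      x / q.totient| ≤ C * (q:ℝ) ^ ε * x / Real.log x ^ m := by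
  obtain ⟨C1, hC1, h1⟩ := psi_ap m hε
  obtain ⟨L, hL, hlog⟩ := log_pow_le_rpow (m+1) (show (0:ℝ) < 1/2 by norm_num)
  refine ⟨C1 + 2 * L, by positivity, fun q _ a ha x hx => ?_⟩
  have hx0 : 0 < x := by linarith
  have hlogx := one_le_log hx
  have hq : (1:ℝ) ≤ q := by exact_mod_cast Nat.pos_of_ne_zero (NeZero.ne q)
  have hqε : 1 ≤ (q:ℝ) ^ ε := Real.one_le_rpow hq hε.le
  have h2 := h1 q a ha x hx
  have h3 := Chebyshev.psi_sub_theta_le (show 1 ≤ x by linarith)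
  have h4 : ∑ n ∈ (Finset.Icc 1 ⌊x⌋₊).filter (fun n : ℕ => (n : ZMod q) = a), Λ n =
      ∑ p ∈ (Finset.Icc 1 ⌊x⌋₊).filter (fun p : ℕ => p.Prime ∧ (p : ZMod q) = a), Real.log p +
      ∑ n ∈ (Finset.Icc 1 ⌊x⌋₊).filter (fun n : ℕ => ¬ n.Prime ∧ (n : ZMod q) = a), Λ n := by
    have e1 : ∑ p ∈ (Finset.Icc 1 ⌊x⌋₊).filter (fun p : ℕ => p.Prime ∧ (p : ZMod q) = a), Real.log p =
      ∑ p ∈ (Finset.Icc 1 ⌊x⌋₊).filter (fun p : ℕ => p.Prime ∧ (p : ZMod q) = a), Λ p :=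
      Finset.sum_congr rfl fun p hp =>
        (vonMangoldt_apply_prime (Finset.mem_filter.mp hp).2.1).symm
    rw [e1, Finset.sum_filter, Finset.sum_filter, Finset.sum_filter, ← Finset.sum_add_distrib]
    refine Finset.sum_congr rfl fun n _ => ?_
    by_cases hp : n.Prime <;> by_cases hn : (n : ZMod q) = a <;> simp [hp, hn]
  have h5 : ∑ n ∈ (Finset.Icc 1 ⌊x⌋₊).filter (fun n : ℕ => ¬ n.Prime ∧ (n : ZMod q) = a), Λ n ≤
      Chebyshev.psi x - Chebyshev.theta x := by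
    rw [Chebyshev.psi_sub_theta_eq_sum_not_prime]
    refine Finset.sum_le_sum_of_subset_of_nonneg ?_ fun _ _ _ => vonMangoldt_nonneg
    intro n hn
    simp only [Finset.mem_filter] at hn ⊢
    exact ⟨hn.1, hn.2.1⟩
  have h5' : 0 ≤ ∑ n ∈ (Finset.Icc 1 ⌊x⌋₊).filter (fun n : ℕ => ¬ n.Prime ∧ (n : ZMod q) = a), Λ n :=
    Finset.sum_nonneg fun _ _ => vonMangoldt_nonneg
  have h6 : 2 * √x * Real.log x ≤ 2 * L * (q:ℝ) ^ ε * x / Real.log x ^ m := by
    have h7 := hlog x (by linarith)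
    rw [le_div_iff₀ (by positivity)]
    calc 2 * √x * Real.log x * Real.log x ^ m = 2 * √x * Real.log x ^ (m+1) := by ring
      _ ≤ 2 * √x * (L * x ^ (1/2:ℝ)) := by gcongr
      _ = 2 * L * 1 * x := by
        rw [← Real.sqrt_eq_rpow]
        have := Real.mul_self_sqrt hx0.le
        linear_combination 2 * L * this
      _ ≤ _ := by gcongr
  have h8 : (C1 + 2 * L) * (q:ℝ) ^ ε * x / Real.log x ^ m =
      C1 * (q:ℝ) ^ ε * x / Real.log x ^ m + 2 * L * (q:ℝ) ^ ε * x / Real.log x ^ m := by ring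
  rw [h8]
  rw [h4] at h2
  rw [abs_le] at h2 ⊢
  constructor <;> linarith [h2.1, h2.2]

/-- Counting primes from `θ`: `#{p ≤ x : p ≡ a} ≥ (x/φ(q) - error)/log x`. -/
theorem pi_ap_lower (m : ℕ) {ε : ℝ} (hε : 0 < ε) : ∃ C : ℝ, 0 < C ∧ ∀ (q : ℕ) [NeZero q]
    (a : ZMod q), IsUnit a → ∀ x : ℝ, 3 ≤ x →
    x / (q.totient * Real.log x) - C * (q:ℝ) ^ ε * x / Real.log x ^ (m+1) ≤
    (((Finset.Icc 1 ⌊x⌋₊).filter (fun p : ℕ => p.Prime ∧ (p : ZMod q) = a)).card : ℝ) := by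
  obtain ⟨C1, hC1, h1⟩ := theta_ap m hε
  refine ⟨C1, hC1, fun q _ a ha x hx => ?_⟩
  have hx0 : 0 < x := by linarith
  have hlogx := one_le_log hx
  have h2 := h1 q a ha x hx
  have h3 : ∑ p ∈ (Finset.Icc 1 ⌊x⌋₊).filter (fun p : ℕ => p.Prime ∧ (p : ZMod q) = a), Real.log p ≤
      (((Finset.Icc 1 ⌊x⌋₊).filter (fun p : ℕ => p.Prime ∧ (p : ZMod q) = a)).card : ℝ) *
        Real.log x := by
    rw [← nsmul_eq_mul, ← Finset.sum_const]
    refine Finset.sum_le_sum fun p hp => ?_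
    obtain ⟨hp1, hp2⟩ := Finset.mem_filter.mp hp
    obtain ⟨hp3, hp4⟩ := Finset.mem_Icc.mp hp1
    exact Real.log_le_log (by exact_mod_cast hp3)
      ((Nat.cast_le.mpr hp4).trans (Nat.floor_le hx0.le))
  have h4 : x / q.totient - C1 * (q:ℝ) ^ ε * x / Real.log x ^ m ≤
      (((Finset.Icc 1 ⌊x⌋₊).filter (fun p : ℕ => p.Prime ∧ (p : ZMod q) = a)).card : ℝ) *
        Real.log x := by
    rw [abs_le] at h2
    linarith [h2.1]
  have h5 : x / (q.totient * Real.log x) - C1 * (q:ℝ) ^ ε * x / Real.log x ^ (m+1) =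
      (x / q.totient - C1 * (q:ℝ) ^ ε * x / Real.log x ^ m) / Real.log x := by
    rw [sub_div, div_div, div_div, pow_succ]
  rw [h5, div_le_iff₀ (by linarith)]
  exact h4

end Pool.Agent.ANT
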