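import Pool.Agent.Lib.ANT.TypeII

open Complex ArithmeticFunction
open scoped ArithmeticFunction.Moebius ArithmeticFunction.zeta

namespace Pool.Agent.ANT

/-- `∑_{k ≤ N} ∑_{mn = k} F(m,n)`, general target. -/
lemma sum_pairs' {M : Type*} [AddCommMonoid M] (F : ℕ → ℕ → M) (N : ℕ) :
    ∑ k ∈ Finset.Ioc 0 N, ∑ p ∈ k.divisorsAntidiagonal, F p.1 p.2 =
      ∑ m ∈ Finset.Ioc 0 N, ∑ n ∈ Finset.Ioc 0 (N / m), F m n := by
  rw [Finset.sum_sigma', Finset.sum_sigma']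
  refine Finset.sum_bij' (fun x _ => ⟨x.2.1, x.2.2⟩) (fun y _ => ⟨y.1 * y.2, (y.1, y.2)⟩) ?_ ?_ ?_ ?_ ?_
  · rintro ⟨k, p⟩ h
    simp only [Finset.mem_sigma, Finset.mem_Ioc, Nat.mem_divisorsAntidiagonal] at h ⊢
    obtain ⟨⟨h1, h2⟩, h3, h4⟩ := h
    have hp1 : 0 < p.1 := Nat.pos_of_ne_zero (by rintro h; simp [h] at h3; omega)
    have hp2 : 0 < p.2 := Nat.pos_of_ne_zero (by rintro h; simp [h] at h3; omega)
    refine ⟨⟨hp1, ?_⟩, hp2, ?_⟩
    · calc p.1 ≤ p.1 * p.2 := Nat.le_mul_of_pos_right _ hp2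
        _ ≤ N := by rw [h3]; exact h2
    · rw [Nat.le_div_iff_mul_le hp1, mul_comm, h3]; exact h2
  · rintro ⟨m, n⟩ h
    simp only [Finset.mem_sigma, Finset.mem_Ioc, Nat.mem_divisorsAntidiagonal] at h ⊢
    obtain ⟨⟨h1, h2⟩, h3, h4⟩ := h
    have := (Nat.le_div_iff_mul_le h1).mp h4
    refine ⟨⟨Nat.mul_pos h1 h3, by rw [mul_comm]; exact this⟩, trivial, by positivity⟩
  · rintro ⟨k, p⟩ h
    simp only [Finset.mem_sigma, Nat.mem_divisorsAntidiagonal] at h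
    simp [h.2.1]
  · rintro ⟨m, n⟩ h
    rfl
  · rintro ⟨k, p⟩ h
    rfl

/-- truncated Möbius function -/
noncomputable def Mf (U : ℕ) : ArithmeticFunction ℂ :=
  ⟨fun n => if n ≤ U then muC n else 0, by simp [muC]⟩

/-- tail of the Möbius function -/
noncomputable def Hf (U : ℕ) : ArithmeticFunction ℂ :=
  ⟨fun n => if n ≤ U then 0 else muC n, by simp⟩

lemma Mf_apply (U n : ℕ) : Mf U n = if n ≤ U then muC n else 0 := rfl
lemma Hf_apply (U n : ℕ) : Hf U n = if n ≤ U then 0 else muC n := rfl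

lemma Mf_add_Hf (U : ℕ) : Mf U + Hf U = ((μ : ArithmeticFunction ℤ) : ArithmeticFunction ℂ) := by
  ext n
  rw [ArithmeticFunction.add_apply, Mf_apply, Hf_apply, intCoe_apply]
  unfold muC
  split_ifs <;> simp

/-- Vaughan's identity for the Möbius function. -/
lemma vaughan (U : ℕ) : ((μ : ArithmeticFunction ℤ) : ArithmeticFunction ℂ) =
    Mf U + Mf U - (Mf U * Mf U) * (ζ : ArithmeticFunction ℂ) +
      (Hf U * (ζ : ArithmeticFunction ℂ)) * Hf U := by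
  set m := ((μ : ArithmeticFunction ℤ) : ArithmeticFunction ℂ) with hm
  set z := (ζ : ArithmeticFunction ℂ) with hz
  have h1 : Hf U = m - Mf U := by rw [hm, ← Mf_add_Hf U]; ring
  have h2 : m * z = 1 := coe_moebius_mul_coe_zeta
  rw [h1]
  linear_combination (2 * Mf U - m) * h2

lemma norm_Mf_le (U n : ℕ) : ‖Mf U n‖ ≤ 1 := by
  rw [Mf_apply]; split_ifs
  · exact norm_muC_le n
  · simp

lemma norm_Hf_le (U n : ℕ) : ‖Hf U n‖ ≤ 1 := by
  rw [Hf_apply]; split_ifs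
  · simp
  · exact norm_muC_le n

lemma norm_MM_le (U n : ℕ) : ‖(Mf U * Mf U) n‖ ≤ tauR n := by
  rw [ArithmeticFunction.mul_apply, tauR_eq_sum]
  refine (norm_sum_le _ _).trans (Finset.sum_le_sum fun p _ => ?_)
  rw [norm_mul]
  exact mul_le_one₀ (norm_Mf_le _ _) (norm_nonneg _) (norm_Mf_le _ _)

lemma MM_zero {U n : ℕ} (h : U * U < n) : (Mf U * Mf U) n = 0 := by
  rw [ArithmeticFunction.mul_apply]
  refine Finset.sum_eq_zero fun p hp => ?_
  have h1 := (Nat.mem_divisorsAntidiagonal.mp hp).1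
  rw [Mf_apply, Mf_apply]
  split_ifs with h2 h3
  · exfalso
    have := Nat.mul_le_mul h2 h3
    omega
  all_goals simp

lemma norm_HZ_le (U n : ℕ) : ‖(Hf U * (ζ : ArithmeticFunction ℂ)) n‖ ≤ tauR n := by
  rw [ArithmeticFunction.mul_apply, tauR_eq_sum]
  refine (norm_sum_le _ _).trans (Finset.sum_le_sum fun p hp => ?_)
  rw [norm_mul]
  refine mul_le_one₀ (norm_Hf_le _ _) (norm_nonneg _) ?_
  have := Nat.ne_zero_of_mem_divisorsAntidiagonal hp
  simp [this.2]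

lemma HZ_zero {U n : ℕ} (h : n ≤ U) : (Hf U * (ζ : ArithmeticFunction ℂ)) n = 0 := by
  rw [ArithmeticFunction.mul_apply]
  refine Finset.sum_eq_zero fun p hp => ?_
  have h1 := (Nat.mem_divisorsAntidiagonal.mp hp)
  have : p.1 ≤ n := Nat.le_of_dvd (Nat.pos_of_ne_zero h1.2) ⟨p.2, h1.1.symm⟩
  rw [Hf_apply, if_pos (by omega), zero_mul]

/-- The exponential sum decomposition. -/
lemma vaughan_sum (U N : ℕ) (α : ℝ) (hU : U * U ≤ N) :
    ∑ n ∈ Finset.Ioc 0 N, muC n * ee (n * α) =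
      2 * ∑ n ∈ Finset.Ioc 0 N, Mf U n * ee (n * α) -
      ∑ d ∈ Finset.Ioc 0 (U * U), (Mf U * Mf U) d * ∑ l ∈ Finset.Ioc 0 (N / d), ee (l * (d * α)) +
      ∑ m ∈ Finset.Ioc U (N/(U+1)), (Hf U * (ζ : ArithmeticFunction ℂ)) m *
        ∑ n ∈ Finset.Ioc U (N/m), Hf U n * ee (m * (n * α)) := by
  have h1 : ∀ n : ℕ, muC n = Mf U n + Mf U n -
      ∑ p ∈ n.divisorsAntidiagonal, (Mf U * Mf U) p.1 * (ζ : ArithmeticFunction ℂ) p.2 +
      ∑ p ∈ n.divisorsAntidiagonal, (Hf U * (ζ : ArithmeticFunction ℂ)) p.1 * Hf U p.2 := by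
    intro n
    have h := congrArg (fun f : ArithmeticFunction ℂ => f n) (vaughan U)
    exact h
  have h2 : ∑ n ∈ Finset.Ioc 0 N, muC n * ee (n * α) =
      2 * ∑ n ∈ Finset.Ioc 0 N, Mf U n * ee (n * α) -
      ∑ n ∈ Finset.Ioc 0 N, ∑ p ∈ n.divisorsAntidiagonal,
        (Mf U * Mf U) p.1 * ee (p.2 * (p.1 * α)) +
      ∑ n ∈ Finset.Ioc 0 N, ∑ p ∈ n.divisorsAntidiagonal,
        (Hf U * (ζ : ArithmeticFunction ℂ)) p.1 * (Hf U p.2 * ee (p.1 * (p.2 * α))) := by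
    rw [Finset.mul_sum, ← Finset.sum_sub_distrib, ← Finset.sum_add_distrib]
    refine Finset.sum_congr rfl fun n _ => ?_
    rw [h1 n, add_mul, sub_mul, Finset.sum_mul, Finset.sum_mul]
    congr 1
    · congr 1
      · ring
      · refine Finset.sum_congr rfl fun p hp => ?_
        have h3 := Nat.mem_divisorsAntidiagonal.mp hp
        have h4 := Nat.ne_zero_of_mem_divisorsAntidiagonal hp
        have h5 : ((n:ℝ) * α) = p.2 * (p.1 * α) := by
          rw [← h3.1]; push_cast; ring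
        rw [h5]
        simp [h4.2]
    · refine Finset.sum_congr rfl fun p hp => ?_
      have h3 := Nat.mem_divisorsAntidiagonal.mp hp
      have h5 : ((n:ℝ) * α) = p.1 * (p.2 * α) := by
        rw [← h3.1]; push_cast; ring
      rw [h5]; ring
  rw [h2]
  congr 1
  · congr 1
    rw [sum_pairs' (fun d l => (Mf U * Mf U) d * ee (l * (d * α))) N]
    simp_rw [← Finset.mul_sum]
    symm
    refine Finset.sum_subset (Finset.Ioc_subset_Ioc_right hU) ?_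
    intro d hd hd'
    obtain ⟨hd1, hd2⟩ := Finset.mem_Ioc.mp hd
    rw [MM_zero (by by_contra hcon; exact hd' (Finset.mem_Ioc.mpr ⟨hd1, by omega⟩)), zero_mul]
  · rw [sum_pairs' (fun m n => (Hf U * (ζ : ArithmeticFunction ℂ)) m * (Hf U n * ee (m * (n * α)))) N]
    simp_rw [← Finset.mul_sum]
    symm
    have h6 : ∀ m : ℕ, ∑ n ∈ Finset.Ioc 0 (N/m), Hf U n * ee (m * (n * α)) =
        ∑ n ∈ Finset.Ioc U (N/m), Hf U n * ee (m * (n * α)) := by
      intro m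
      symm
      refine Finset.sum_subset (Finset.Ioc_subset_Ioc_left (Nat.zero_le U)) ?_
      intro n hn hn'
      obtain ⟨hn1, hn2⟩ := Finset.mem_Ioc.mp hn
      rw [Hf_apply, if_pos (by by_contra hcon; exact hn' (Finset.mem_Ioc.mpr ⟨by omega, hn2⟩)),
        zero_mul]
    simp_rw [h6]
    refine Finset.sum_subset ?_ ?_
    · intro m hm
      obtain ⟨hm1, hm2⟩ := Finset.mem_Ioc.mp hm
      exact Finset.mem_Ioc.mpr ⟨by omega, hm2.trans (Nat.div_le_self _ _)⟩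
    · intro m hm hm'
      obtain ⟨hm1, hm2⟩ := Finset.mem_Ioc.mp hm
      rcases le_or_gt m U with h | h
      · rw [HZ_zero h, zero_mul]
      · have h7 : N/(U+1) < m := by
          by_contra hcon
          exact hm' (Finset.mem_Ioc.mpr ⟨h, by omega⟩)
        have h8 : N < m * (U+1) := (Nat.div_lt_iff_lt_mul (by omega)).mp h7
        have h9 : N / m < U + 1 := (Nat.div_lt_iff_lt_mul hm1).mpr (by rwa [mul_comm])
        rw [Finset.Ioc_eq_empty (by omega), Finset.sum_empty, mul_zero]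

/-- **Minor arc bound** for `∑ μ(n) e(nα)`. -/
theorem minor_bound {α : ℝ} {r : ℕ} (h : Approx α r) {N : ℕ} (hN : 1 ≤ N) {P : ℝ} (hP : 1 ≤ P)
    (hPN : P ^ 4 ≤ N) (hr1 : P ≤ r) (hr2 : r * P ≤ N) :
    ‖∑ n ∈ Finset.Ioc 0 N, muC n * ee (n * α)‖ ≤ 24 * N * (1 + Real.log N) ^ 3 / √P := by
  have hN0 : (0:ℝ) < N := by exact_mod_cast (by omega : 0 < N)
  have hN1 : (1:ℝ) ≤ N := by exact_mod_cast hN
  set U := Nat.sqrt (Nat.sqrt N) with hU
  set LL := 1 + Real.log N with hLL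
  have hLL1 : 1 ≤ LL := by
    have := Real.log_nonneg hN1
    linarith
  have hP0 : 0 < P := by linarith
  have hr0 : (0:ℝ) < r := by linarith
  have hsP : 1 ≤ √P := Real.one_le_sqrt.mpr hP
  have hsP2 : √P * √P = P := Real.mul_self_sqrt hP0.le
  have hU1 : 1 ≤ U := Nat.le_sqrt.mpr (by
    have : 1 ≤ Nat.sqrt N := Nat.le_sqrt.mpr (by omega)
    omega)
  have hU4 : U ^ 4 ≤ N := by
    have h1 : U * U ≤ Nat.sqrt N := Nat.sqrt_le _
    have h2 : Nat.sqrt N * Nat.sqrt N ≤ N := Nat.sqrt_le _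
    calc U ^ 4 = (U * U) * (U * U) := by ring
      _ ≤ Nat.sqrt N * Nat.sqrt N := Nat.mul_le_mul h1 h1
      _ ≤ N := h2
  have hU4' : N < (U+1) ^ 4 := by
    have h1 : Nat.sqrt N < (U+1) * (U+1) := Nat.lt_succ_sqrt _
    have h2 : N < (Nat.sqrt N + 1) * (Nat.sqrt N + 1) := Nat.lt_succ_sqrt _
    calc N < (Nat.sqrt N + 1) * (Nat.sqrt N + 1) := h2
      _ ≤ ((U+1) * (U+1)) * ((U+1) * (U+1)) := Nat.mul_le_mul h1 h1
      _ = (U+1) ^ 4 := by ring
  have hUR1 : (1:ℝ) ≤ U := by exact_mod_cast hU1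
  have hUR0 : (0:ℝ) < U := by linarith
  have hUR4 : (U:ℝ) ^ 4 ≤ N := by exact_mod_cast hU4
  have hPU : P ≤ 2 * U := by
    have h1 : P ^ 4 ≤ ((U:ℝ)+1) ^ 4 := hPN.trans (by exact_mod_cast hU4'.le)
    have h2 : P ≤ U + 1 := (pow_le_pow_iff_left₀ hP0.le (by positivity) (by norm_num)).mp h1
    linarith
  have hU2 : (U:ℝ) ^ 2 ≤ 2 * N / P := by
    rw [le_div_iff₀ hP0]
    calc (U:ℝ) ^ 2 * P ≤ (U:ℝ) ^ 2 * (2 * (U:ℝ)) := by gcongr
      _ = 2 * (U:ℝ) ^ 3 := by ring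
      _ ≤ 2 * (U:ℝ) ^ 4 := by
          have : (U:ℝ) ^ 3 ≤ U ^ 4 := pow_le_pow_right₀ hUR1 (by norm_num)
          linarith
      _ ≤ 2 * (N:ℝ) := by linarith
  have hNU : N / U ≤ 2 * N / P := by
    rw [div_le_div_iff₀ hUR0 hP0]
    nlinarith
  have hUU : U * U ≤ N := by
    calc U * U ≤ (U * U) * (U * U) := Nat.le_mul_of_pos_left _ (by positivity)
      _ = U ^ 4 := by ring
      _ ≤ N := hU4
  have hUN : (U:ℝ) ≤ 2 * N / P := by
    refine le_trans ?_ hU2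
    nlinarith
  have hHs : Hs N ≤ LL := Hs_le N
  have hHs0 : 0 ≤ Hs N := Hs_nonneg N
  have hHsU : Hs (U*U) ≤ LL := (Hs_mono hUU).trans hHs
  have hHsU0 : 0 ≤ Hs (U*U) := Hs_nonneg _
  have hlogr0 : 0 ≤ Real.log r := Real.log_natCast_nonneg r
  have hrN : (r:ℝ) ≤ N := by nlinarith
  have hlogr : 1 + Real.log r ≤ LL := by
    have := Real.log_le_log hr0 hrN
    linarith
  have hrP : (r:ℝ) ≤ N / P := by rw [le_div_iff₀ hP0]; exact hr2
  have hNr : N / (r:ℝ) ≤ N / P := by gcongr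
  rw [vaughan_sum U N α hUU]
  have hT1 : ‖2 * ∑ n ∈ Finset.Ioc 0 N, Mf U n * ee (n * α)‖ ≤ 4 * N * LL ^ 3 / √P := by
    have e1 : ∑ n ∈ Finset.Ioc 0 N, Mf U n * ee (n * α) = ∑ n ∈ Finset.Ioc 0 U, Mf U n * ee (n * α) := by
      symm
      refine Finset.sum_subset (Finset.Ioc_subset_Ioc_right ?_) ?_
      · calc U ≤ U * U := Nat.le_mul_of_pos_left _ (by omega)
          _ ≤ N := hUU
      · intro n hn hn'
        obtain ⟨hn1, hn2⟩ := Finset.mem_Ioc.mp hn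
        rw [Mf_apply, if_neg (by intro hcon; exact hn' (Finset.mem_Ioc.mpr ⟨hn1, hcon⟩)), zero_mul]
    rw [e1, norm_mul]
    have e2 : ‖∑ n ∈ Finset.Ioc 0 U, Mf U n * ee (n * α)‖ ≤ U := by
      calc _ ≤ ∑ n ∈ Finset.Ioc 0 U, (1:ℝ) := by
            refine (norm_sum_le _ _).trans (Finset.sum_le_sum fun n _ => ?_)
            rw [norm_mul, norm_ee, mul_one]
            exact norm_Mf_le U n
        _ = U := by simp
    have e3 : ‖(2:ℂ)‖ = 2 := by simp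
    rw [e3]
    have e4 : 1 ≤ LL ^ 3 := one_le_pow₀ hLL1
    calc 2 * ‖∑ n ∈ Finset.Ioc 0 U, Mf U n * ee (n * α)‖ ≤ 2 * (2 * N / P) := by
          gcongr
          exact e2.trans hUN
      _ = 4 * N * 1 / P := by ring
      _ ≤ 4 * N * LL ^ 3 / √P := by
          gcongr
          nlinarith
  have hT2 : ‖∑ d ∈ Finset.Ioc 0 (U * U), (Mf U * Mf U) d *
      ∑ l ∈ Finset.Ioc 0 (N / d), ee (l * (d * α))‖ ≤ 6 * N * LL ^ 3 / √P := by
    have e1 := typeI_le h (N := N) (D := U * U) (by omega) (fun d => (Mf U * Mf U) d) (norm_MM_le U)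
    refine (pow_le_pow_iff_left₀ (norm_nonneg _) (by positivity) two_ne_zero).mp (e1.trans ?_)
    have e2 : ((U * U : ℕ) : ℝ) = (U:ℝ) ^ 2 := by push_cast; ring
    calc N * Hs (U*U) ^ 4 * (8 * r * (1 + Real.log r) + 8 * ((U * U : ℕ) : ℝ) * (1 + Real.log r) +
          4 * N / r * Hs (U * U))
        ≤ N * LL ^ 4 * (8 * (N/P) * LL + 8 * (2 * N / P) * LL + 4 * (N / P) * LL) := by
          rw [e2, mul_div_assoc 4 (N:ℝ) r]
          gcongr
      _ = 28 * N ^ 2 * LL ^ 5 / P := by ring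
      _ ≤ 36 * N ^ 2 * LL ^ 6 / P := by
          gcongr
          · norm_num
          · norm_num
      _ = (6 * N * LL ^ 3 / √P) ^ 2 := by
          rw [div_pow, sq (√P), hsP2]; ring
  have hT3 : ‖∑ m ∈ Finset.Ioc U (N/(U+1)), (Hf U * (ζ : ArithmeticFunction ℂ)) m *
        ∑ n ∈ Finset.Ioc U (N/m), Hf U n * ee (m * (n * α))‖ ≤ 14 * N * LL ^ 3 / √P := by
    have e1 := typeII_le h (N := N) (U := U) (by omega) hU1
      (fun m => (Hf U * (ζ : ArithmeticFunction ℂ)) m) (fun n => Hf U n) (norm_HZ_le U) (norm_Hf_le U)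
    refine (pow_le_pow_iff_left₀ (norm_nonneg _) (by positivity) two_ne_zero).mp (e1.trans ?_)
    calc Hs N ^ 4 * (4 * N * (8 * N * Hs N / r + 16 * (1 + Real.log r) * N / U + 2 * N * Hs N / U +
          4 * r * (1 + Real.log r) * Hs N))
        = Hs N ^ 4 * (4 * N * (8 * (N / r) * Hs N + 16 * (1 + Real.log r) * (N / U) +
          2 * (N / U) * Hs N + 4 * r * (1 + Real.log r) * Hs N)) := by ring
      _ ≤ LL ^ 4 * (4 * N * (8 * (N / P) * LL + 16 * LL * (2 * N / P) + 2 * (2 * N / P) * LL +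
          4 * (N / P) * LL * LL)) := by gcongr
      _ = LL ^ 4 * (4 * N * (44 * (N / P) * LL * 1 + 4 * (N / P) * LL * LL)) := by ring
      _ ≤ LL ^ 4 * (4 * N * (44 * (N / P) * LL * LL + 4 * (N / P) * LL * LL)) := by gcongr
      _ = 192 * N ^ 2 * LL ^ 6 / P := by ring
      _ ≤ 196 * N ^ 2 * LL ^ 6 / P := by gcongr; norm_num
      _ = (14 * N * LL ^ 3 / √P) ^ 2 := by
          rw [div_pow, sq (√P), hsP2]; ring
  calc _ ≤ ‖2 * ∑ n ∈ Finset.Ioc 0 N, Mf U n * ee (n * α)‖ +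
        ‖∑ d ∈ Finset.Ioc 0 (U * U), (Mf U * Mf U) d *
          ∑ l ∈ Finset.Ioc 0 (N / d), ee (l * (d * α))‖ +
        ‖∑ m ∈ Finset.Ioc U (N/(U+1)), (Hf U * (ζ : ArithmeticFunction ℂ)) m *
          ∑ n ∈ Finset.Ioc U (N/m), Hf U n * ee (m * (n * α))‖ :=
        (norm_add_le _ _).trans (add_le_add (norm_sub_le _ _) le_rfl)
    _ ≤ 4 * N * LL ^ 3 / √P + 6 * N * LL ^ 3 / √P + 14 * N * LL ^ 3 / √P := by gcongr
    _ = _ := by ring

end Pool.Agent.ANT
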