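import Pool.Agent.Lib.ANT.DivSum

open Complex ArithmeticFunction
open scoped ArithmeticFunction.Moebius ArithmeticFunction.zeta ArithmeticFunction.sigma

namespace Pool.Agent.ANT

lemma log_pow_le_rpow (m : ℕ) {δ : ℝ} (hδ : 0 < δ) : ∃ C : ℝ, 1 ≤ C ∧ ∀ x : ℝ, 1 ≤ x →
    Real.log x ^ m ≤ C * x ^ δ := by
  obtain ⟨C, hC, h⟩ := log_pow_le m
  refine ⟨C * (1 + 1/δ) ^ m, ?_, fun x hx => ?_⟩
  · have : (1:ℝ) ≤ (1 + 1/δ) ^ m := one_le_pow₀ (by have : 0 < 1/δ := by positivity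
                                                    linarith)
    nlinarith
  · have hx0 : 0 < x := by linarith
    have h1 := h (x ^ δ) (Real.one_le_rpow hx hδ.le)
    rw [Real.log_rpow hx0, mul_pow] at h1
    have hl : 0 ≤ Real.log x := Real.log_nonneg hx
    have hxd : 0 < x ^ δ := Real.rpow_pos_of_pos hx0 _
    calc Real.log x ^ m = (1/δ) ^ m * (δ ^ m * Real.log x ^ m) := by
          rw [← mul_assoc, ← mul_pow, one_div_mul_cancel hδ.ne', one_pow, one_mul]
      _ ≤ (1 + 1/δ) ^ m * (C * x ^ δ) := by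
          gcongr
          linarith
      _ = _ := by ring

lemma one_le_log {x : ℝ} (hx : 3 ≤ x) : 1 ≤ Real.log x := by
  rw [Real.le_log_iff_exp_le (by linarith)]
  have := Real.exp_one_lt_d9
  linarith

/-- Passing from `⌊x⌋` to `x`. -/
lemma floor_div_log_le {x : ℝ} (hx : 3 ≤ x) (j : ℕ) :
    ((⌊x⌋₊:ℕ):ℝ) / Real.log ⌊x⌋₊ ^ j ≤ 2 ^ j * x / Real.log x ^ j := by
  have h3 : 3 ≤ ⌊x⌋₊ := Nat.le_floor (by exact_mod_cast hx)
  have h3' : (3:ℝ) ≤ (⌊x⌋₊:ℝ) := by exact_mod_cast h3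
  have h1 : ((⌊x⌋₊:ℕ):ℝ) ≤ x := Nat.floor_le (by linarith)
  have h2 : x ≤ (⌊x⌋₊:ℝ) ^ 2 := by
    have := Nat.lt_floor_add_one x
    nlinarith
  have h4 : Real.log x / 2 ≤ Real.log ⌊x⌋₊ := by
    have := Real.log_le_log (by linarith) h2
    rw [Real.log_pow] at this
    push_cast at this
    linarith
  have h5 := one_le_log hx
  calc ((⌊x⌋₊:ℕ):ℝ) / Real.log ⌊x⌋₊ ^ j ≤ x / (Real.log x / 2) ^ j := by gcongr
    _ = _ := by rw [div_pow]; field_simp

lemma vonMangoldt_conv (k : ℕ) :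
    ∑ p ∈ k.divisorsAntidiagonal, ((μ p.1 : ℤ) : ℝ) * Real.log p.2 = Λ k := by
  have := congrArg (fun f : ArithmeticFunction ℝ => f k) moebius_mul_log_eq_vonMangoldt
  simp only [ArithmeticFunction.mul_apply] at this
  rw [← this]
  rfl

lemma one_conv (k : ℕ) :
    ∑ p ∈ k.divisorsAntidiagonal, ((μ p.1 : ℤ) : ℝ) * 1 = if k = 1 then 1 else 0 := by
  have := congrArg (fun f : ArithmeticFunction ℝ => f k) (coe_moebius_mul_coe_zeta (R := ℝ))
  simp only [ArithmeticFunction.mul_apply, ArithmeticFunction.one_apply] at this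
  rw [← this]
  refine Finset.sum_congr rfl fun p hp => ?_
  have := Nat.ne_zero_of_mem_divisorsAntidiagonal hp
  simp [this.2]

lemma tau_conv {k : ℕ} (hk : k ≠ 0) :
    ∑ p ∈ k.divisorsAntidiagonal, ((μ p.1 : ℤ) : ℝ) * tauR p.2 = 1 := by
  have h : (μ : ArithmeticFunction ℝ) * ((σ 0 : ArithmeticFunction ℕ) : ArithmeticFunction ℝ) =
      (ζ : ArithmeticFunction ℝ) := by
    have : ((σ 0 : ArithmeticFunction ℕ) : ArithmeticFunction ℝ) =
        (ζ : ArithmeticFunction ℝ) * (ζ : ArithmeticFunction ℝ) := by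
      rw [← zeta_mul_pow_eq_sigma, pow_zero_eq_zeta]
      exact natCoe_mul
    rw [this, ← mul_assoc, coe_moebius_mul_coe_zeta, one_mul]
  have := congrArg (fun f : ArithmeticFunction ℝ => f k) h
  simp only [ArithmeticFunction.mul_apply] at this
  have hz : ((ζ : ArithmeticFunction ℝ) : ℕ → ℝ) k = 1 := by simp [hk]
  rw [hz] at this
  rw [← this]
  refine Finset.sum_congr rfl fun p hp => ?_
  simp [tauR, sigma_zero_apply]

lemma sum_vonMangoldt_le {x : ℝ} (hx : 0 ≤ x) :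
    ∑ n ∈ Finset.Ioc 0 ⌊x⌋₊, Λ n ≤ 6 * x := by
  have h := Chebyshev.psi_le_const_mul_self hx
  have h4 : Real.log 4 ≤ 2 := by
    have : Real.log 4 = 2 * Real.log 2 := by
      rw [show (4:ℝ) = 2 ^ 2 by norm_num, Real.log_pow]; push_cast; ring
    have h2 := Real.log_two_lt_d9
    linarith
  unfold Chebyshev.psi at h
  calc _ ≤ _ := h
    _ ≤ 6 * x := by
      gcongr
      linarith

/-- The prime number theorem with arbitrary logarithmic saving. -/
theorem psi_pnt (m : ℕ) : ∃ C : ℝ, 0 < C ∧ ∀ x : ℝ, 3 ≤ x →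
    |∑ n ∈ Finset.Icc 1 ⌊x⌋₊, Λ n - x| ≤ C * x / Real.log x ^ m := by
  obtain ⟨K, hK, hM⟩ := mertens_bound (m+2)
  obtain ⟨L, hL, hlog⟩ := log_pow_le_rpow m (show (0:ℝ) < 1/4 by norm_num)
  set γ := Real.eulerMascheroniConstant
  have hγ0 : 0 < γ := by
    have := Real.one_half_lt_eulerMascheroniConstant; linarith
  have hγ1 : γ < 1 := by
    have := Real.eulerMascheroniConstant_lt_two_thirds; linarith
  set C0 : ℝ := 35 * L + 24 * 4 ^ (m+2) * K * 2 ^ m with hC0
  set C1 : ℝ := 7 * Real.log 10 ^ m with hC1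
  have hlog10 : 1 ≤ Real.log 10 := one_le_log (by norm_num)
  refine ⟨C0 + C1, by positivity, fun x hx => ?_⟩
  have hx0 : 0 < x := by linarith
  have hlogx := one_le_log hx
  have hIcc : Finset.Icc 1 ⌊x⌋₊ = Finset.Ioc 0 ⌊x⌋₊ := rfl
  rw [hIcc]
  rcases lt_or_ge x 10 with h10 | h10
  · have h1 := sum_vonMangoldt_le hx0.le
    have h2 : 0 ≤ ∑ n ∈ Finset.Ioc 0 ⌊x⌋₊, Λ n := Finset.sum_nonneg fun n _ => vonMangoldt_nonneg
    have h3 : |∑ n ∈ Finset.Ioc 0 ⌊x⌋₊, Λ n - x| ≤ 7 * x := by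
      rw [abs_le]; constructor <;> linarith
    have h4 : 7 * x ≤ C1 * x / Real.log x ^ m := by
      rw [le_div_iff₀ (by positivity), hC1]
      have : Real.log x ^ m ≤ Real.log 10 ^ m := by gcongr
      nlinarith [mul_nonneg hx0.le (sub_nonneg.mpr this)]
    calc _ ≤ _ := h3
      _ ≤ _ := h4
      _ ≤ _ := by
        gcongr
        have : 0 ≤ C0 := by positivity
        linarith
  · set N := ⌊x⌋₊ with hN
    have hN9 : 9 ≤ N := Nat.le_floor (by push_cast; linarith)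
    have hNx : (N:ℝ) ≤ x := Nat.floor_le hx0.le
    have hN0 : (0:ℝ) < N := by positivity
    set gR : ℕ → ℝ := fun n => Real.log n - tauR n + 2 * γ with hgR
    have hS : ∑ k ∈ Finset.Ioc 0 N, ∑ p ∈ k.divisorsAntidiagonal, ((μ p.1 : ℤ) : ℝ) * gR p.2 =
        ∑ k ∈ Finset.Ioc 0 N, Λ k - N + 2 * γ := by
      have h1 : ∀ k ∈ Finset.Ioc 0 N, ∑ p ∈ k.divisorsAntidiagonal, ((μ p.1 : ℤ) : ℝ) * gR p.2 =
          Λ k - 1 + 2 * γ * (if k = 1 then 1 else 0) := by
        intro k hk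
        have hk0 : k ≠ 0 := by have := (Finset.mem_Ioc.mp hk).1; omega
        have e : Λ k - 1 + 2 * γ * (if k = 1 then 1 else 0) =
            ∑ p ∈ k.divisorsAntidiagonal, ((μ p.1 : ℤ) : ℝ) * Real.log p.2 -
            ∑ p ∈ k.divisorsAntidiagonal, ((μ p.1 : ℤ) : ℝ) * tauR p.2 +
            2 * γ * ∑ p ∈ k.divisorsAntidiagonal, ((μ p.1 : ℤ) : ℝ) * 1 := by
          rw [vonMangoldt_conv k, tau_conv hk0, one_conv k]
        rw [e, Finset.mul_sum, ← Finset.sum_sub_distrib, ← Finset.sum_add_distrib]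
        refine Finset.sum_congr rfl fun p _ => ?_
        simp only [hgR]; ring
      rw [Finset.sum_congr rfl h1, Finset.sum_add_distrib, Finset.sum_sub_distrib, ← Finset.mul_sum]
      have : ∑ i ∈ Finset.Ioc 0 N, (if i = 1 then (1:ℝ) else 0) = 1 := by
        rw [Finset.sum_ite_eq' (Finset.Ioc 0 N) 1 (fun _ => (1:ℝ))]
        rw [if_pos (Finset.mem_Ioc.mpr ⟨by norm_num, by omega⟩)]
      rw [this]
      simp
    have hS' : ((∑ k ∈ Finset.Ioc 0 N, Λ k - N + 2 * γ : ℝ) : ℂ) =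
        ∑ m ∈ Finset.Ioc 0 N, muC m * ∑ n ∈ Finset.Ioc 0 (N / m), ((gR n : ℝ) : ℂ) := by
      rw [← hS, sum_convR (fun m => ((μ m : ℤ) : ℝ)) gR N]
      push_cast
      rfl
    have hG : ∀ k : ℕ, 1 ≤ k → ‖∑ n ∈ Finset.Ioc 0 k, ((gR n : ℝ) : ℂ)‖ ≤ 16 * √(k:ℝ) := by
      intro k hk
      have hk1 : (1:ℝ) ≤ k := by exact_mod_cast hk
      rw [← Complex.ofReal_sum, Complex.norm_real, Real.norm_eq_abs]
      have h1 := sum_log_bounds hk
      have h2 := sum_tau_asymp hk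
      have h3 : ∑ n ∈ Finset.Ioc 0 k, gR n = (∑ n ∈ Finset.Ioc 0 k, Real.log n -
          (k * Real.log k - k)) - (∑ n ∈ Finset.Ioc 0 k, tauR n - (k * Real.log k +
      (2 * γ - 1) * k)) := by
        simp only [hgR]
        rw [Finset.sum_add_distrib, Finset.sum_sub_distrib]
        simp
        ring
      rw [h3]
      have h4 : Real.log k ≤ 2 * (√(k:ℝ) - 1) := by
        have h5 : Real.log k = 2 * Real.log (√(k:ℝ)) := by
          rw [Real.log_sqrt (by positivity)]; ring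
        have h6 := Real.log_le_sub_one_of_pos (show 0 < √(k:ℝ) from Real.sqrt_pos.mpr (by positivity))
        linarith
      calc _ ≤ |∑ n ∈ Finset.Ioc 0 k, Real.log n - (k * Real.log k - k)| +
            |∑ n ∈ Finset.Ioc 0 k, tauR n - (k * Real.log k + (2 * γ - 1) * k)| := abs_sub _ _
        _ ≤ (1 + Real.log k) + 14 * √(k:ℝ) := add_le_add h1 h2
        _ ≤ 16 * √(k:ℝ) := by linarith
    have hA : ∀ k : ℕ, 1 ≤ k → ∑ n ∈ Finset.Ioc 0 k, ‖((gR n : ℝ) : ℂ)‖ / n ≤
        3 * (1 + Real.log k) ^ 2 := by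
      intro k hk
      have hk1 : (1:ℝ) ≤ k := by exact_mod_cast hk
      have hlk : 0 ≤ Real.log k := Real.log_nonneg hk1
      calc ∑ n ∈ Finset.Ioc 0 k, ‖((gR n : ℝ) : ℂ)‖ / n
          ≤ ∑ n ∈ Finset.Ioc 0 k, ((Real.log k + 2) * (1 / n) + tauR n / n) := by
            refine Finset.sum_le_sum fun n hn => ?_
            obtain ⟨hn1, hn2⟩ := Finset.mem_Ioc.mp hn
            have hn0 : (0:ℝ) < n := by exact_mod_cast hn1
            have hn1' : (1:ℝ) ≤ n := by exact_mod_cast hn1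
            rw [Complex.norm_real, Real.norm_eq_abs]
            have h5 : |gR n| ≤ Real.log k + 2 + tauR n := by
              have h6 : Real.log n ≤ Real.log k := Real.log_le_log hn0 (by exact_mod_cast hn2)
              have h7 : 0 ≤ Real.log n := Real.log_nonneg hn1'
              have h8 := tauR_nonneg n
              simp only [hgR]
              rw [abs_le]; constructor <;> linarith
            calc |gR n| / n ≤ (Real.log k + 2 + tauR n) / n := by gcongr
              _ = _ := by ring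
        _ = (Real.log k + 2) * Hs k + ∑ n ∈ Finset.Ioc 0 k, tauR n / n := by
            rw [Finset.sum_add_distrib, ← Finset.mul_sum]; rfl
        _ ≤ (Real.log k + 2) * (1 + Real.log k) + (1 + Real.log k) ^ 2 := by
            have h9 := Hs_le k
            have h10 := Hs_nonneg k
            gcongr
            exact (sum_tau_div_le k).trans (by gcongr)
        _ ≤ _ := by nlinarith
    have hF : ∀ k : ℕ, 3 ≤ k → ‖∑ n ∈ Finset.Ioc 0 k, muC n‖ ≤ K * k / Real.log k ^ (m+2) := by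
      intro k hk
      have := hM k (by exact_mod_cast hk)
      rw [Nat.floor_natCast] at this
      exact this
    have hmain := conv_bound_sqrt (f := muC) (g := fun n => ((gR n : ℝ) : ℂ)) (G := 16) (K := K)
      (A := 3) (j := m) (N := N) (by norm_num) hK.le norm_muC_le hG hA hF hN9
    rw [← hS', Complex.norm_real, Real.norm_eq_abs] at hmain
    have h1 : (N:ℝ) ^ (3/4 : ℝ) ≤ L * x / Real.log x ^ m := by
      have h2 := hlog x (by linarith)
      rw [le_div_iff₀ (by positivity)]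
      calc (N:ℝ) ^ (3/4 : ℝ) * Real.log x ^ m ≤ x ^ (3/4 : ℝ) * (L * x ^ (1/4:ℝ)) := by gcongr
        _ = L * (x ^ (3/4 : ℝ) * x ^ (1/4:ℝ)) := by ring
        _ = L * x := by rw [← Real.rpow_add hx0]; norm_num
    have h2 := floor_div_log_le hx m
    have h3 : (3:ℝ) ≤ 3 * (L * x / Real.log x ^ m) := by
      have h4 := hlog x (by linarith)
      have h5 : Real.log x ^ m ≤ L * x := by
        refine h4.trans ?_
        gcongr
        calc x ^ (1/4:ℝ) ≤ x ^ (1:ℝ) := Real.rpow_le_rpow_of_exponent_le (by linarith) (by norm_num)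
          _ = x := Real.rpow_one x
      have : 1 ≤ L * x / Real.log x ^ m := by
        rw [le_div_iff₀ (by positivity)]; linarith
      linarith
    have hfl := Nat.lt_floor_add_one x
    rw [← hN] at hfl h2
    have h4 : |∑ n ∈ Finset.Ioc 0 N, Λ n - x| ≤ |∑ k ∈ Finset.Ioc 0 N, Λ k - N + 2 * γ| + 3 := by
      have e1 : ∑ n ∈ Finset.Ioc 0 N, Λ n - x =
          (∑ k ∈ Finset.Ioc 0 N, Λ k - N + 2 * γ) + ((N - x) - 2 * γ) := by ring
      rw [e1]
      refine (abs_add_le _ _).trans ?_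
      gcongr
      rw [abs_le]; constructor <;> linarith
    have hC1' : 0 ≤ C1 := by positivity
    calc |∑ n ∈ Finset.Ioc 0 N, Λ n - x| ≤ _ := h4
      _ ≤ (2 * 16 * (N:ℝ) ^ (3/4 : ℝ) + 8 * 4 ^ (m+2) * K * 3 * N / Real.log N ^ m) + 3 := by
          gcongr
      _ = 32 * (N:ℝ) ^ (3/4 : ℝ) + 24 * 4 ^ (m+2) * K * (N / Real.log N ^ m) + 3 := by ring
      _ ≤ 32 * (L * x / Real.log x ^ m) + 24 * 4 ^ (m+2) * K * (2 ^ m * x / Real.log x ^ m) +
          3 * (L * x / Real.log x ^ m) := by gcongr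
      _ = C0 * x / Real.log x ^ m := by rw [hC0]; ring
      _ ≤ _ := by
          gcongr
          linarith

end Pool.Agent.ANT
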