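import Pool.Agent.Lib.ANT.Coprime
import Pool.Agent.Lib.ANT.Minor
import Pool.Agent.Lib.ANT.PNT

open Complex ArithmeticFunction
open scoped ArithmeticFunction.Moebius

namespace Pool.Agent.ANT

lemma mertens_phim (m : ℕ) : ∃ K : ℝ, 0 < K ∧ ∀ N : ℕ,
    ‖∑ n ∈ Finset.Ioc 0 N, muC n‖ ≤ K * phim m N := by
  obtain ⟨C, hC, h⟩ := mertens_bound m
  exact ⟨(C + 1) * (2 * m + 1) ^ m, by positivity, fun N => to_phim norm_muC_le hC.le h N⟩

/-- The Möbius function twisted by any character, all `N`. -/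
theorem mu_char_phim (m : ℕ) {ε : ℝ} (hε : 0 < ε) : ∃ K : ℝ, 0 < K ∧ ∀ (q : ℕ) [NeZero q]
    (χ : DirichletCharacter ℂ q) (N : ℕ),
    ‖∑ n ∈ Finset.Ioc 0 N, cmu χ n‖ ≤ K * (q:ℝ) ^ ε * phim m N := by
  obtain ⟨C, hC, h⟩ := siegel_walfisz_mu m hε
  obtain ⟨K1, hK1, h1⟩ := mertens_phim m
  obtain ⟨C2, hC2, h2⟩ := pow_omega_le hε (show (1:ℝ) ≤ 4 by norm_num)
  refine ⟨(C + 1) * (2 * m + 1) ^ m + C2 * K1, by positivity, fun q _ χ N => ?_⟩
  have hq0 : q ≠ 0 := NeZero.ne q
  have hq : (1:ℝ) ≤ q := by exact_mod_cast Nat.pos_of_ne_zero hq0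
  have hqε : 1 ≤ (q:ℝ) ^ ε := Real.one_le_rpow hq hε.le
  have hph := phim_nat_nonneg m N
  by_cases hχ : χ = 1
  · subst hχ
    have hG : DilClosed ({fun _ => 1} : Set (ℕ → ℂ)) := by
      intro g hg p _
      rw [Set.mem_singleton_iff] at hg ⊢
      rw [hg]
    have h3 := SS_remove hG (m := m) hK1.le (fun g hg N => by
      rw [Set.mem_singleton_iff] at hg
      subst hg
      simpa using h1 N) q.primeFactors (fun p hp => Nat.prime_of_mem_primeFactors hp)
      (fun _ => 1) (Set.mem_singleton _) N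
    rw [SS_primeFactors hq0] at h3
    have h4 : ∑ n ∈ Finset.Ioc 0 N, cmu (1 : DirichletCharacter ℂ q) n =
        ∑ n ∈ (Finset.Ioc 0 N).filter (fun n => n.Coprime q), muC n * 1 := by
      rw [Finset.sum_filter]
      refine Finset.sum_congr rfl fun n _ => ?_
      unfold cmu
      split_ifs with hc
      · rw [MulChar.one_apply ((ZMod.isUnit_iff_coprime n q).mpr hc), one_mul, mul_one]; rfl
      · rw [MulChar.map_nonunit _ (fun hu => hc ((ZMod.isUnit_iff_coprime n q).mp hu)), zero_mul]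
    rw [h4]
    calc _ ≤ _ := h3
      _ ≤ (C2 * (q:ℝ) ^ ε) * K1 * phim m N := by
          gcongr
          exact h2 q hq0
      _ ≤ _ := by
          have : 0 ≤ (C + 1) * (2 * (m:ℝ) + 1) ^ m * (q:ℝ) ^ ε * phim m N := by positivity
          nlinarith
  · have h3 := to_phim (a := cmu χ) (norm_cmu_le χ) (m := m) (C := C * (q:ℝ) ^ ε) (by positivity)
      (fun x hx => h q χ hχ x hx) N
    calc _ ≤ _ := h3
      _ ≤ (C * (q:ℝ) ^ ε + (q:ℝ) ^ ε) * (2 * m + 1) ^ m * phim m N := by gcongr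
      _ = (C + 1) * (2 * m + 1) ^ m * (q:ℝ) ^ ε * phim m N := by ring
      _ ≤ _ := by
          gcongr
          have : 0 ≤ C2 * K1 := by positivity
          linarith

/-- Möbius in progressions. -/
theorem mu_ap (m : ℕ) {ε : ℝ} (hε : 0 < ε) : ∃ K : ℝ, 0 < K ∧ ∀ (q : ℕ) [NeZero q] (a : ZMod q),
    IsUnit a → ∀ N : ℕ,
    ‖∑ n ∈ (Finset.Ioc 0 N).filter (fun n : ℕ => (n : ZMod q) = a), muC n‖ ≤
      K * (q:ℝ) ^ ε * phim m N := by
  obtain ⟨K, hK, h⟩ := mu_char_phim m hε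
  refine ⟨K, hK, fun q _ a ha N => ?_⟩
  have hφ : (0:ℝ) < q.totient := by
    exact_mod_cast Nat.totient_pos.mpr (Nat.pos_of_ne_zero (NeZero.ne q))
  have horth : ∑ n ∈ (Finset.Ioc 0 N).filter (fun n : ℕ => (n : ZMod q) = a), muC n =
      (q.totient : ℂ)⁻¹ * ∑ χ : DirichletCharacter ℂ q, χ a⁻¹ * ∑ n ∈ Finset.Ioc 0 N, cmu χ n := by
    have e2 : ∑ χ : DirichletCharacter ℂ q, χ a⁻¹ * ∑ n ∈ Finset.Ioc 0 N, cmu χ n =
        q.totient * ∑ n ∈ (Finset.Ioc 0 N).filter (fun n : ℕ => (n : ZMod q) = a), muC n := by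
      simp_rw [Finset.mul_sum]
      rw [Finset.sum_comm, Finset.sum_filter]
      refine Finset.sum_congr rfl fun n _ => ?_
      unfold cmu
      simp_rw [← mul_assoc]
      rw [← Finset.sum_mul, DirichletCharacter.sum_char_inv_mul_char_eq ℂ ha (n : ZMod q)]
      by_cases h : (n : ZMod q) = a
      · simp [h, muC]
      · have h' : ¬ a = (n : ZMod q) := fun h' => h h'.symm
        simp [h, h']
    rw [e2]
    have : (q.totient : ℂ) ≠ 0 := by exact_mod_cast hφ.ne'
    field_simp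
  rw [horth, norm_mul, norm_inv, Complex.norm_natCast]
  calc (q.totient : ℝ)⁻¹ * ‖∑ χ : DirichletCharacter ℂ q, χ a⁻¹ * ∑ n ∈ Finset.Ioc 0 N, cmu χ n‖
      ≤ (q.totient : ℝ)⁻¹ * ∑ _χ : DirichletCharacter ℂ q, K * (q:ℝ) ^ ε * phim m N := by
        gcongr
        refine (norm_sum_le _ _).trans (Finset.sum_le_sum fun χ _ => ?_)
        rw [norm_mul]
        calc ‖χ a⁻¹‖ * _ ≤ 1 * (K * (q:ℝ) ^ ε * phim m N) :=
              mul_le_mul (χ.norm_le_one _) (h q χ N) (norm_nonneg _) zero_le_one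
          _ = _ := one_mul _
    _ = _ := by
        rw [Finset.sum_const, Finset.card_univ, ← Nat.card_eq_fintype_card,
          DirichletCharacter.card_eq_totient_of_hasEnoughRootsOfUnity ℂ q]
        rw [nsmul_eq_mul]
        field_simp

/-- Möbius against any bounded periodic function. -/
theorem mu_periodic (m : ℕ) {ε : ℝ} (hε : 0 < ε) : ∃ K : ℝ, 0 < K ∧ ∀ (q : ℕ) [NeZero q]
    (f : ZMod q → ℂ), (∀ b, ‖f b‖ ≤ 1) → ∀ N : ℕ,
    ‖∑ n ∈ Finset.Ioc 0 N, muC n * f n‖ ≤ K * (q:ℝ) ^ (1 + ε) * phim m N := by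
  obtain ⟨K, hK, h⟩ := mu_ap m (show 0 < ε/2 by positivity)
  obtain ⟨C2, hC2, h2⟩ := pow_omega_le (show 0 < ε/2 by positivity) (show (1:ℝ) ≤ 2 by norm_num)
  refine ⟨C2 * K, by positivity, fun q _ f hf N => ?_⟩
  have hq0 : q ≠ 0 := NeZero.ne q
  have hq : (1:ℝ) ≤ q := by exact_mod_cast Nat.pos_of_ne_zero hq0
  have hqp : (0:ℝ) < q := by linarith
  set G : Set (ℕ → ℂ) := {g | ∃ f : ZMod q → ℂ, (∀ b, ‖f b‖ ≤ 1) ∧ g = fun n : ℕ => f n} with hG
  have hdil : DilClosed G := by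
    rintro g ⟨f, hf, rfl⟩ p _
    exact ⟨fun b => f ((p : ZMod q) * b), fun b => hf _, by ext n; push_cast; rfl⟩
  have hbase : ∀ g ∈ G, ∀ N : ℕ, ‖SS q.primeFactors N g‖ ≤ (q * (K * (q:ℝ) ^ (ε/2))) * phim m N := by
    rintro g ⟨f, hf, rfl⟩ N
    rw [SS_primeFactors hq0]
    have e1 : ∑ n ∈ (Finset.Ioc 0 N).filter (fun n => n.Coprime q), muC n * f n =
        ∑ b : (ZMod q)ˣ, f b * ∑ n ∈ (Finset.Ioc 0 N).filter (fun n : ℕ => (n : ZMod q) = b),
          muC n := by
      simp_rw [Finset.mul_sum, Finset.sum_filter]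
      rw [Finset.sum_comm]
      refine Finset.sum_congr rfl fun n _ => ?_
      by_cases hc : n.Coprime q
      · rw [if_pos hc]
        obtain ⟨u, hu⟩ := (ZMod.isUnit_iff_coprime n q).mpr hc
        rw [Finset.sum_eq_single u]
        · rw [if_pos hu.symm, hu]; ring
        · intro b _ hb
          rw [if_neg]
          intro h
          exact hb (Units.ext (hu.trans h).symm)
        · intro h; exact absurd (Finset.mem_univ _) h
      · rw [if_neg hc]
        refine (Finset.sum_eq_zero fun b _ => ?_).symm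
        rw [if_neg]
        intro h
        exact hc ((ZMod.isUnit_iff_coprime n q).mp ⟨b, h.symm⟩)
    rw [e1]
    have hcard : (Fintype.card (ZMod q)ˣ : ℝ) ≤ q := by
      rw [ZMod.card_units_eq_totient]
      exact_mod_cast Nat.totient_le q
    calc _ ≤ ∑ _b : (ZMod q)ˣ, K * (q:ℝ) ^ (ε/2) * phim m N := by
          refine (norm_sum_le _ _).trans (Finset.sum_le_sum fun b _ => ?_)
          rw [norm_mul]
          calc ‖f b‖ * _ ≤ 1 * (K * (q:ℝ) ^ (ε/2) * phim m N) :=
                mul_le_mul (hf _) (h q b b.isUnit N) (norm_nonneg _) zero_le_one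
            _ = _ := one_mul _
      _ = (Fintype.card (ZMod q)ˣ : ℝ) * (K * (q:ℝ) ^ (ε/2) * phim m N) := by
          rw [Finset.sum_const, Finset.card_univ, nsmul_eq_mul]
      _ ≤ q * (K * (q:ℝ) ^ (ε/2) * phim m N) := by
          have := phim_nat_nonneg m N
          gcongr
      _ = _ := by ring
  have h5 := SS_addback hdil (by positivity) q.primeFactors
    (fun p hp => Nat.prime_of_mem_primeFactors hp) q.primeFactors (Finset.Subset.refl _) hbase
    (fun n : ℕ => f n) ⟨f, hf, rfl⟩ N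
  rw [Finset.sdiff_self] at h5
  have h6 : SS ∅ N (fun n : ℕ => f n) = ∑ n ∈ Finset.Ioc 0 N, muC n * f n := by
    unfold SS
    rw [Finset.filter_true_of_mem fun n _ p hp => absurd hp (Finset.notMem_empty p)]
  rw [h6] at h5
  have hph := phim_nat_nonneg m N
  calc _ ≤ _ := h5
    _ ≤ (C2 * (q:ℝ) ^ (ε/2)) * (q * (K * (q:ℝ) ^ (ε/2))) * phim m N := by
        gcongr
        exact h2 q hq0
    _ = C2 * K * ((q:ℝ) ^ (1:ℝ) * (q:ℝ) ^ (ε/2) * (q:ℝ) ^ (ε/2)) * phim m N := by
        rw [Real.rpow_one]; ring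
    _ = _ := by
        rw [← Real.rpow_add hqp, ← Real.rpow_add hqp]
        congr 3
        ring

/-! ### Partial summation against a rotation -/

lemma norm_ee_sub_one_le (β : ℝ) : ‖ee β - 1‖ ≤ 2 * Real.pi * |β| := by
  unfold ee
  rw [Complex.norm_exp_I_mul_ofReal_sub_one, Real.norm_eq_abs, abs_mul, abs_two]
  have h := Real.abs_sin_le_abs (x := 2 * Real.pi * β / 2)
  have h2 : |2 * Real.pi * β / 2| = Real.pi * |β| := by
    rw [show 2 * Real.pi * β / 2 = Real.pi * β by ring, abs_mul, abs_of_pos Real.pi_pos]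
  rw [h2] at h
  linarith

lemma abel_rot {b : ℕ → ℂ} {β M : ℝ} {N : ℕ}
    (hM : ∀ u, u ≤ N → ‖∑ n ∈ Finset.Ioc 0 u, b n‖ ≤ M) :
    ‖∑ n ∈ Finset.Ioc 0 N, b n * ee (n * β)‖ ≤ M * (1 + 2 * Real.pi * |β| * N) := by
  have key : ∀ N : ℕ, ∑ n ∈ Finset.Ioc 0 N, b n * ee (n * β) =
      (∑ n ∈ Finset.Ioc 0 N, b n) * ee ((N+1:ℕ) * β) +
      ∑ n ∈ Finset.Ioc 0 N, (∑ j ∈ Finset.Ioc 0 n, b j) * (ee (n * β) - ee ((n+1:ℕ) * β)) := by
    intro N
    induction N with
    | zero => simp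
    | succ N ih =>
      rw [Finset.sum_Ioc_succ_top (by omega), ih, Finset.sum_Ioc_succ_top (by omega)
        (fun n => (∑ j ∈ Finset.Ioc 0 n, b j) * (ee (n * β) - ee ((n+1:ℕ) * β))),
        Finset.sum_Ioc_succ_top (by omega) b]
      ring
  have hM0 : 0 ≤ M := (norm_nonneg _).trans (hM 0 (Nat.zero_le _))
  rw [key N]
  have h1 : ‖(∑ n ∈ Finset.Ioc 0 N, b n) * ee ((N+1:ℕ) * β)‖ ≤ M := by
    rw [norm_mul, norm_ee, mul_one]; exact hM N le_rfl
  have h2 : ‖∑ n ∈ Finset.Ioc 0 N, (∑ j ∈ Finset.Ioc 0 n, b j) * (ee (n * β) - ee ((n+1:ℕ) * β))‖ ≤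
      ∑ _n ∈ Finset.Ioc 0 N, M * (2 * Real.pi * |β|) := by
    refine (norm_sum_le _ _).trans (Finset.sum_le_sum fun n hn => ?_)
    rw [norm_mul]
    refine mul_le_mul (hM n (Finset.mem_Ioc.mp hn).2) ?_ (norm_nonneg _) hM0
    have e1 : ee (n * β) - ee ((n+1:ℕ) * β) = -(ee (n * β) * (ee β - 1)) := by
      have : ((n+1:ℕ):ℝ) * β = n * β + β := by push_cast; ring
      rw [this, ee_add]; ring
    rw [e1, norm_neg, norm_mul, norm_ee, one_mul]
    exact norm_ee_sub_one_le β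
  calc _ ≤ M + ∑ _n ∈ Finset.Ioc 0 N, M * (2 * Real.pi * |β|) :=
        (norm_add_le _ _).trans (add_le_add h1 h2)
    _ = _ := by simp; ring

/-- The exponential `n ↦ e(an/r)` is periodic mod `r`. -/
lemma ee_periodic {r : ℕ} [NeZero r] (a : ℤ) : ∃ f : ZMod r → ℂ, (∀ b, ‖f b‖ ≤ 1) ∧
    ∀ n : ℕ, f (n : ZMod r) = ee (n * (a / r : ℝ)) := by
  refine ⟨fun b => ee (b.val * (a / r : ℝ)), fun b => (norm_ee _).le, fun n => ?_⟩
  have hr0 : (r:ℝ) ≠ 0 := by exact_mod_cast NeZero.ne r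
  show ee (((n : ZMod r).val : ℝ) * (a / r : ℝ)) = _
  rw [ZMod.val_natCast]
  have h1 : (n:ℝ) * (a / r : ℝ) = ((n % r : ℕ) : ℝ) * (a / r : ℝ) + (((n / r : ℕ) : ℤ) * a : ℤ) := by
    have h2 : (n:ℝ) = ((n % r : ℕ):ℝ) + r * ((n / r : ℕ):ℝ) := by
      exact_mod_cast (Nat.mod_add_div n r).symm
    rw [Int.cast_mul, Int.cast_natCast]
    generalize ((n / r : ℕ):ℝ) = u at *
    generalize ((n % r : ℕ):ℝ) = v at *
    rw [h2]
    field_simp
  rw [h1, ee_add_int]

/-- **Davenport's theorem**. -/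
theorem davenport (A : ℕ) : ∃ C : ℝ, 0 < C ∧ ∀ (N : ℕ) (α : ℝ),
    ‖∑ n ∈ Finset.Ioc 0 N, muC n * ee (n * α)‖ ≤ C * phim A N := by
  obtain ⟨B, hB⟩ : ∃ B : ℕ, B = 2 * A + 6 := ⟨_, rfl⟩
  obtain ⟨m, hm⟩ : ∃ m : ℕ, m = A + 3 * B := ⟨_, rfl⟩
  obtain ⟨K, hK, hper⟩ := mu_periodic m (show (0:ℝ) < 1 by norm_num)
  obtain ⟨L, hL, hlog⟩ := log_pow_le_rpow B (show (0:ℝ) < 1/4 by norm_num)
  have hL0 : 0 < L := by linarith
  set C0 : ℝ := 192 * √(2*L) + 8 * K + 2 * L with hC0
  have hC0p : 0 < C0 := by positivity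
  refine ⟨(C0 + 1) * (2 * A + 1) ^ A, by positivity, fun N α => ?_⟩
  refine to_phim (a := fun n => muC n * ee (n * α)) (fun n => ?_) hC0p.le (fun x hx => ?_) N
  · rw [norm_mul, norm_ee, mul_one]; exact norm_muC_le n
  have hx0 : 0 < x := by linarith
  have hlogx := one_le_log hx
  have hlx0 : 0 < Real.log x := by linarith
  set M := ⌊x⌋₊ with hM
  have hM3 : 3 ≤ M := Nat.le_floor (by exact_mod_cast hx)
  have hMR3 : (3:ℝ) ≤ M := by exact_mod_cast hM3
  have hM0 : (0:ℝ) < M := by linarith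
  have hMx : (M:ℝ) ≤ x := Nat.floor_le hx0.le
  have hxM : x ≤ 2 * M := by
    have := Nat.lt_floor_add_one x
    rw [← hM] at this
    linarith
  have hIcc : Finset.Icc 1 M = Finset.Ioc 0 M := rfl
  rw [hIcc]
  have htriv : ‖∑ n ∈ Finset.Ioc 0 M, muC n * ee (n * α)‖ ≤ x := by
    calc _ ≤ ∑ n ∈ Finset.Ioc 0 M, (1:ℝ) := (norm_sum_le _ _).trans
          (Finset.sum_le_sum fun n _ => by rw [norm_mul, norm_ee, mul_one]; exact norm_muC_le n)
      _ = M := by simp
      _ ≤ x := hMx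
  set P : ℝ := Real.log x ^ B / (2 * L) with hP
  have hP0 : 0 < P := by positivity
  have hP4 : P ^ 4 ≤ M := by
    have h1 := hlog x (by linarith)
    have h2 : P ≤ x ^ (1/4:ℝ) / 2 := by
      rw [hP, div_le_div_iff₀ (by positivity) (by norm_num)]
      nlinarith
    calc P ^ 4 ≤ (x ^ (1/4:ℝ) / 2) ^ 4 := by gcongr
      _ = (x ^ (1/4:ℝ)) ^ 4 / 16 := by ring
      _ = x / 16 := by
          rw [← Real.rpow_natCast, ← Real.rpow_mul hx0.le]; norm_num
      _ ≤ M := by linarith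
  rcases lt_or_ge P 1 with hP1 | hP1
  · have h1 : Real.log x ^ B ≤ 2 * L := by
      rw [hP, div_lt_one (by positivity)] at hP1
      exact hP1.le
    have h2 : Real.log x ^ A ≤ Real.log x ^ B := pow_le_pow_right₀ hlogx (by omega)
    calc _ ≤ x := htriv
      _ ≤ C0 * x / Real.log x ^ A := by
          rw [le_div_iff₀ (by positivity)]
          have h3 : Real.log x ^ A ≤ C0 := by
            have : 0 ≤ 192 * √(2*L) + 8 * K := by positivity
            linarith
          nlinarith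
  · have hPM : P ≤ M := by
      calc P = P ^ 1 := (pow_one P).symm
        _ ≤ P ^ 4 := pow_le_pow_right₀ hP1 (by norm_num)
        _ ≤ M := hP4
    set n := ⌊(M:ℝ) / P⌋₊ with hn
    have hn1 : 0 < n := Nat.floor_pos.mpr ((one_le_div hP0).mpr hPM)
    obtain ⟨ρ, hρ1, hρ2⟩ := Real.exists_rat_abs_sub_le_and_den_le α hn1
    set r := ρ.den with hr
    have hr0 : 0 < r := ρ.den_pos
    have hrR : (0:ℝ) < r := by exact_mod_cast hr0
    have hr1 : (1:ℝ) ≤ r := by exact_mod_cast hr0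
    have hne : NeZero r := ⟨hr0.ne'⟩
    have hρ : (ρ : ℝ) = ρ.num / r := by
      rw [hr]; exact_mod_cast (Rat.num_div_den ρ).symm
    rw [hρ] at hρ1
    have hnR : (n:ℝ) ≤ M / P := Nat.floor_le (by positivity)
    have hnR' : (M:ℝ) / P < n + 1 := Nat.lt_floor_add_one _
    have hrn : (r:ℝ) ≤ n := by exact_mod_cast hρ2
    have hrP : (r:ℝ) * P ≤ M := by
      have : (r:ℝ) ≤ M / P := hrn.trans hnR
      rwa [le_div_iff₀ hP0] at this
    have happ : Approx α r := by
      refine ⟨hr0, ρ.num, ?_, hρ1.trans ?_⟩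
      · have := ρ.reduced
        rw [Int.isCoprime_iff_nat_coprime]
        simpa using this
      · rw [div_le_div_iff₀ (by positivity) (by positivity)]
        nlinarith
    rcases le_or_gt P r with hPr | hPr
    · have h1 := minor_bound happ (N := M) (by omega) hP1 hP4 hPr hrP
      have h2 : Real.log M ≤ Real.log x := Real.log_le_log hM0 hMx
      have h2' : 0 ≤ Real.log M := Real.log_natCast_nonneg M
      have h3 : √P = Real.log x ^ (A+3) / √(2*L) := by
        rw [hP, Real.sqrt_div (by positivity)]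
        congr 1
        rw [show B = (A+3) * 2 by omega, pow_mul, Real.sqrt_sq (by positivity)]
      calc _ ≤ _ := h1
        _ ≤ 24 * x * (2 * Real.log x) ^ 3 / √P := by
            gcongr
            linarith
        _ = 192 * √(2*L) * x / Real.log x ^ A := by
            rw [h3, pow_add]
            have : 0 < √(2*L) := Real.sqrt_pos.mpr (by positivity)
            field_simp
            ring
        _ ≤ _ := by
            gcongr
            have : 0 ≤ 8 * K + 2 * L := by positivity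
            linarith
    · obtain ⟨f, hf, hfe⟩ := ee_periodic (r := r) ρ.num
      set β := α - ρ.num / r with hβ
      have hβ1 : |β| ≤ P / M := by
        refine hρ1.trans ?_
        rw [div_le_div_iff₀ (by positivity) hM0]
        have h5 : (M:ℝ) ≤ P * (n+1) := by
          rw [div_lt_iff₀ hP0] at hnR'
          linarith
        calc 1 * (M:ℝ) ≤ P * (n+1) * 1 := by linarith
          _ ≤ P * (n+1) * r := by gcongr
          _ = _ := by ring
      have e1 : ∑ k ∈ Finset.Ioc 0 M, muC k * ee (k * α) =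
          ∑ k ∈ Finset.Ioc 0 M, (muC k * f k) * ee (k * β) := by
        refine Finset.sum_congr rfl fun k _ => ?_
        rw [hfe, mul_assoc, ← ee_add]
        congr 2
        rw [hβ]; ring
      have hpart : ∀ u, u ≤ M → ‖∑ k ∈ Finset.Ioc 0 u, muC k * f k‖ ≤ K * P ^ 2 * phim m M := by
        intro u hu
        refine (hper r f hf u).trans ?_
        have h6 := phim_nat_mono m hu
        have h7 := phim_nat_nonneg m u
        have h8 : (r:ℝ) ^ (1 + 1 : ℝ) = (r:ℝ) ^ 2 := by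
          rw [show (1 + 1 : ℝ) = ((2:ℕ):ℝ) by norm_num, Real.rpow_natCast]
        rw [h8]
        gcongr
      have h9 := abel_rot (b := fun k => muC k * f k) (β := β) hpart
      rw [e1]
      have hph : phim m M ≤ x / Real.log x ^ m := by
        unfold phim
        gcongr
        have h10 : Real.log x ≤ Real.log 2 + Real.log M := by
          rw [← Real.log_mul (by norm_num) hM0.ne']
          exact Real.log_le_log hx0 hxM
        have h11 := Real.log_two_lt_d9
        have h12 : (1:ℝ) ≤ m := by exact_mod_cast (by omega : 1 ≤ m)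
        linarith
      have hph0 := phim_nat_nonneg m M
      have hπ := Real.pi_lt_d2
      have hπ0 := Real.pi_pos
      have hPB : P ≤ Real.log x ^ B := by
        rw [hP]
        exact div_le_self (by positivity) (by linarith)
      calc _ ≤ _ := h9
        _ ≤ K * P ^ 2 * phim m M * (1 + 2 * Real.pi * (P / M) * M) := by gcongr
        _ = K * P ^ 2 * phim m M * (1 + 2 * Real.pi * P) := by
            congr 2; field_simp
        _ ≤ K * P ^ 2 * phim m M * (8 * P) := by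
            gcongr
            nlinarith
        _ = 8 * K * P ^ 3 * phim m M := by ring
        _ ≤ 8 * K * (Real.log x ^ B) ^ 3 * (x / Real.log x ^ m) := by gcongr
        _ = 8 * K * x / Real.log x ^ A := by
            have e3 : Real.log x ^ m = Real.log x ^ A * (Real.log x ^ B) ^ 3 := by
              rw [hm, pow_add, mul_comm 3 B, pow_mul]
            rw [e3]
            have : 0 < Real.log x ^ B := by positivity
            field_simp
        _ ≤ _ := by
            gcongr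
            have : 0 ≤ 192 * √(2*L) + 2 * L := by positivity
            linarith

end Pool.Agent.ANT
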