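import Pool.Agent.Lib.ANT.Geo

open Complex

namespace Pool.Agent.ANT

lemma orth_ee {M a b : ℕ} (ha : a < M) (hb : b < M) :
    ∑ j ∈ Finset.range M, ee (a * ((j:ℝ) / M)) * (starRingEnd ℂ) (ee (b * ((j:ℝ) / M))) =
      if a = b then (M:ℂ) else 0 := by
  have hM : 0 < M := by omega
  have hMR : (M:ℝ) ≠ 0 := by exact_mod_cast hM.ne'
  have e1 : ∀ j : ℕ, ee (a * ((j:ℝ) / M)) * (starRingEnd ℂ) (ee (b * ((j:ℝ) / M))) =
      ee (((a:ℝ) - b) / M) ^ j := by
    intro j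
    rw [conj_ee, ← ee_add, ← ee_nat_mul]
    congr 1
    ring
  simp_rw [e1]
  split_ifs with hab
  · subst hab
    simp [ee_zero]
  · set z := ee (((a:ℝ) - b) / M) with hz
    have hzM : z ^ M = 1 := by
      rw [hz, ← ee_nat_mul, mul_div_cancel₀ _ hMR]
      have := ee_int ((a:ℤ) - b)
      push_cast at this
      exact this
    have hz1 : z ≠ 1 := by
      intro h
      have h1 := four_nn_le (((a:ℝ) - b) / M)
      rw [← hz, h, sub_self, norm_zero] at h1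
      have h2 := nn_rational (a := 1) (r := (M:ℤ)) (h := (a:ℤ) - b) (by exact_mod_cast hM)
        isCoprime_one_left (by
          intro hdvd
          have hne : (a:ℤ) - b ≠ 0 := sub_ne_zero.mpr (by exact_mod_cast hab)
          have h3 := Int.le_of_dvd (abs_pos.mpr hne) ((dvd_abs _ _).mpr hdvd)
          have h4 : |(a:ℤ) - b| < M := by rw [abs_lt]; constructor <;> omega
          omega)
      have e2 : (((a:ℤ) - b : ℤ) : ℝ) * (((1:ℤ):ℝ) / ((M:ℤ):ℝ)) = ((a:ℝ) - b) / M := by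
        push_cast; ring
      rw [e2] at h2
      have h3 : (0:ℝ) < 1 / ((M:ℤ):ℝ) := by positivity
      linarith
    have h3 := mul_neg_geom_sum z M
    rw [hzM, sub_self] at h3
    rcases mul_eq_zero.mp h3 with h4 | h4
    · exact absurd (sub_eq_zero.mp h4).symm hz1
    · exact h4

/-- Discrete Parseval identity. -/
lemma parseval (M : ℕ) (c : ℕ → ℂ) :
    ∑ j ∈ Finset.range M, ‖∑ n ∈ Finset.range M, c n * ee (n * ((j:ℝ) / M))‖ ^ 2 =
      M * ∑ n ∈ Finset.range M, ‖c n‖ ^ 2 := by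
  have h : ((∑ j ∈ Finset.range M, ‖∑ n ∈ Finset.range M, c n * ee (n * ((j:ℝ) / M))‖ ^ 2 : ℝ) : ℂ) =
      ((M * ∑ n ∈ Finset.range M, ‖c n‖ ^ 2 : ℝ) : ℂ) := by
    push_cast
    simp_rw [← Complex.mul_conj']
    have e1 : ∀ j ∈ Finset.range M, (∑ n ∈ Finset.range M, c n * ee (n * ((j:ℝ) / M))) *
        (starRingEnd ℂ) (∑ n ∈ Finset.range M, c n * ee (n * ((j:ℝ) / M))) =
        ∑ a ∈ Finset.range M, ∑ b ∈ Finset.range M, (c a * (starRingEnd ℂ) (c b)) *
          (ee (a * ((j:ℝ) / M)) * (starRingEnd ℂ) (ee (b * ((j:ℝ) / M)))) := by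
      intro j _
      rw [map_sum, Finset.sum_mul_sum]
      refine Finset.sum_congr rfl fun a _ => Finset.sum_congr rfl fun b _ => ?_
      rw [map_mul]; ring
    rw [Finset.sum_congr rfl e1, Finset.sum_comm, Finset.mul_sum]
    refine Finset.sum_congr rfl fun a ha => ?_
    rw [Finset.sum_comm]
    simp_rw [← Finset.mul_sum]
    rw [Finset.sum_eq_single a]
    · rw [orth_ee (Finset.mem_range.mp ha) (Finset.mem_range.mp ha), if_pos rfl]; ring
    · intro b hb hba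
      rw [orth_ee (Finset.mem_range.mp ha) (Finset.mem_range.mp hb), if_neg (Ne.symm hba), mul_zero]
    · intro h; exact absurd ha h
  exact_mod_cast h

/-- `ℓ²` bound for an additive convolution. -/
lemma conv_l2 {f g : ℕ → ℂ} {X : ℕ} {S : ℝ}
    (hS : ∀ α : ℝ, ‖∑ m ∈ Finset.Ioc 0 X, g m * ee (m * α)‖ ≤ S) :
    ∑ N ∈ Finset.Ioc 0 X, ‖∑ n ∈ Finset.Ico 1 N, f n * g (N - n)‖ ^ 2 ≤
      S ^ 2 * ∑ n ∈ Finset.Ioc 0 X, ‖f n‖ ^ 2 := by
  set M := 2 * X + 1 with hM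
  have hM0 : (0:ℝ) < M := by positivity
  set PP := Finset.Ioc 0 X ×ˢ Finset.Ioc 0 X with hPP
  set c : ℕ → ℂ := fun N => ∑ x ∈ PP.filter (fun x => x.1 + x.2 = N), f x.1 * g x.2 with hc
  have hcN : ∀ N ∈ Finset.Ioc 0 X, ∑ n ∈ Finset.Ico 1 N, f n * g (N - n) = c N := by
    intro N hN
    obtain ⟨hN1, hN2⟩ := Finset.mem_Ioc.mp hN
    simp only [hc]
    refine Finset.sum_bij' (fun n _ => (n, N - n)) (fun x _ => x.1) ?_ ?_ ?_ ?_ ?_
    · intro n hn
      obtain ⟨hn1, hn2⟩ := Finset.mem_Ico.mp hn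
      refine Finset.mem_filter.mpr ⟨Finset.mem_product.mpr ⟨Finset.mem_Ioc.mpr ⟨?_, ?_⟩,
        Finset.mem_Ioc.mpr ⟨?_, ?_⟩⟩, ?_⟩ <;> simp only <;> omega
    · intro x hx
      obtain ⟨hx1, hx2⟩ := Finset.mem_filter.mp hx
      obtain ⟨hx3, hx4⟩ := Finset.mem_product.mp hx1
      have := Finset.mem_Ioc.mp hx3
      have := Finset.mem_Ioc.mp hx4
      exact Finset.mem_Ico.mpr ⟨by omega, by omega⟩
    · intro n _; rfl
    · intro x hx
      obtain ⟨hx1, hx2⟩ := Finset.mem_filter.mp hx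
      ext
      · rfl
      · simp only; omega
    · intro n _; rfl
  set F : ℝ → ℂ := fun α => ∑ n ∈ Finset.Ioc 0 X, f n * ee (n * α) with hF
  set G : ℝ → ℂ := fun α => ∑ n ∈ Finset.Ioc 0 X, g n * ee (n * α) with hG
  have hFG : ∀ α : ℝ, ∑ N ∈ Finset.range M, c N * ee (N * α) = F α * G α := by
    intro α
    simp only [hF, hG]
    rw [Finset.sum_mul_sum, ← Finset.sum_product']
    rw [← Finset.sum_fiberwise_of_maps_to (t := Finset.range M) (g := fun x : ℕ × ℕ => x.1 + x.2)]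
    · refine Finset.sum_congr rfl fun N _ => ?_
      simp only [hc]
      rw [Finset.sum_mul]
      refine Finset.sum_congr rfl fun x hx => ?_
      have hx2 := (Finset.mem_filter.mp hx).2
      rw [← hx2]
      have : (((x.1 + x.2 : ℕ) : ℝ) * α) = x.1 * α + x.2 * α := by push_cast; ring
      rw [this, ee_add]; ring
    · intro x hx
      obtain ⟨hx3, hx4⟩ := Finset.mem_product.mp hx
      have := Finset.mem_Ioc.mp hx3
      have := Finset.mem_Ioc.mp hx4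
      exact Finset.mem_range.mpr (by omega)
  -- Parseval for `c`
  have hP1 := parseval M c
  -- Parseval for `f`
  set f' : ℕ → ℂ := fun n => if n ∈ Finset.Ioc 0 X then f n else 0 with hf'
  have hP2 := parseval M f'
  have hsub : Finset.Ioc 0 X ⊆ Finset.range M := by
    intro n hn
    have := Finset.mem_Ioc.mp hn
    exact Finset.mem_range.mpr (by omega)
  have hF' : ∀ α : ℝ, ∑ n ∈ Finset.range M, f' n * ee (n * α) = F α := by
    intro α
    simp only [hF, hf']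
    symm
    rw [← Finset.sum_subset hsub]
    · exact Finset.sum_congr rfl fun n hn => by rw [if_pos hn]
    · intro n _ hn; rw [if_neg hn, zero_mul]
  have hf2 : ∑ n ∈ Finset.range M, ‖f' n‖ ^ 2 = ∑ n ∈ Finset.Ioc 0 X, ‖f n‖ ^ 2 := by
    simp only [hf']
    symm
    rw [← Finset.sum_subset hsub]
    · exact Finset.sum_congr rfl fun n hn => by rw [if_pos hn]
    · intro n _ hn; rw [if_neg hn]; simp
  have h1 : ∑ N ∈ Finset.Ioc 0 X, ‖∑ n ∈ Finset.Ico 1 N, f n * g (N - n)‖ ^ 2 ≤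
      ∑ N ∈ Finset.range M, ‖c N‖ ^ 2 := by
    calc _ = ∑ N ∈ Finset.Ioc 0 X, ‖c N‖ ^ 2 :=
          Finset.sum_congr rfl fun N hN => by rw [hcN N hN]
      _ ≤ _ := Finset.sum_le_sum_of_subset_of_nonneg hsub fun _ _ _ => by positivity
  have h2 : M * ∑ N ∈ Finset.range M, ‖c N‖ ^ 2 ≤ S ^ 2 * (M * ∑ n ∈ Finset.Ioc 0 X, ‖f n‖ ^ 2) := by
    rw [← hP1, ← hf2, ← hP2, Finset.mul_sum]
    refine Finset.sum_le_sum fun j _ => ?_
    rw [hFG, hF', norm_mul, mul_pow, mul_comm]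
    have := hS ((j:ℝ) / M)
    gcongr
  have h3 : ∑ N ∈ Finset.range M, ‖c N‖ ^ 2 ≤ S ^ 2 * ∑ n ∈ Finset.Ioc 0 X, ‖f n‖ ^ 2 := by
    have h4 : M * ∑ N ∈ Finset.range M, ‖c N‖ ^ 2 ≤ M * (S ^ 2 * ∑ n ∈ Finset.Ioc 0 X, ‖f n‖ ^ 2) := by
      calc _ ≤ _ := h2
        _ = _ := by ring
    exact le_of_mul_le_mul_left h4 hM0
  exact h1.trans h3

end Pool.Agent.ANT
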