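import Pool.Agent.Lib.ANT.DivSum

open Filter Topology

namespace Pool.Agent.ANT

/-- threshold for small primes -/
lemma exists_threshold {ε : ℝ} (hε : 0 < ε) (A : ℝ) : ∃ P0 : ℕ, 1 ≤ P0 ∧ A ≤ (P0:ℝ) ^ ε := by
  have h1 : Tendsto (fun n : ℕ => (n:ℝ) ^ ε) atTop atTop :=
    (tendsto_rpow_atTop hε).comp tendsto_natCast_atTop_atTop
  have h2 : ∀ᶠ n : ℕ in atTop, A ≤ (n:ℝ) ^ ε := h1.eventually_ge_atTop A
  obtain ⟨n, hn⟩ := (h2.and (eventually_ge_atTop 1)).exists
  exact ⟨n, hn.2, hn.1⟩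

/-- A product over prime factors with small-prime corrections is `≤ C n^ε`. -/
lemma prod_primeFactors_le {ε : ℝ} {f : ℕ → ℕ → ℝ} {B : ℝ} {P0 : ℕ} (hB : 1 ≤ B)
    (hf0 : ∀ p a, 0 ≤ f p a)
    (hsmall : ∀ p a : ℕ, p.Prime → 1 ≤ a → f p a ≤ B * ((p:ℝ) ^ a) ^ ε)
    (hlarge : ∀ p a : ℕ, p.Prime → P0 ≤ p → 1 ≤ a → f p a ≤ ((p:ℝ) ^ a) ^ ε)
    {n : ℕ} (hn : n ≠ 0) :
    ∏ p ∈ n.primeFactors, f p (n.factorization p) ≤ B ^ P0 * (n:ℝ) ^ ε := by
  calc ∏ p ∈ n.primeFactors, f p (n.factorization p)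
      ≤ ∏ p ∈ n.primeFactors, ((if p < P0 then B else 1) * ((p:ℝ) ^ (n.factorization p)) ^ ε) := by
        refine Finset.prod_le_prod (fun p _ => hf0 _ _) fun p hp => ?_
        have hp' := Nat.prime_of_mem_primeFactors hp
        have ha : 1 ≤ n.factorization p :=
          (hp'.dvd_iff_one_le_factorization hn).mp (Nat.dvd_of_mem_primeFactors hp)
        split_ifs with h
        · exact hsmall p _ hp' ha
        · rw [one_mul]; exact hlarge p _ hp' (by omega) ha
    _ = (∏ p ∈ n.primeFactors, (if p < P0 then B else 1)) *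
        ∏ p ∈ n.primeFactors, ((p:ℝ) ^ (n.factorization p)) ^ ε := Finset.prod_mul_distrib
    _ ≤ B ^ P0 * (n:ℝ) ^ ε := by
        refine mul_le_mul ?_ ?_ (Finset.prod_nonneg fun p _ => by positivity) (by positivity)
        · rw [Finset.prod_ite, Finset.prod_const, Finset.prod_const_one, mul_one]
          refine pow_le_pow_right₀ hB ?_
          calc (n.primeFactors.filter (· < P0)).card ≤ (Finset.range P0).card := by
                apply Finset.card_le_card
                intro p hp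
                rw [Finset.mem_filter] at hp
                exact Finset.mem_range.mpr hp.2
            _ = P0 := Finset.card_range _
        · rw [Real.finset_prod_rpow _ _ (fun p _ => by positivity)]
          refine le_of_eq ?_
          congr 1
          have := Nat.prod_factorization_pow_eq_self hn
          rw [Nat.prod_factorization_eq_prod_primeFactors] at this
          conv_rhs => rw [← this]
          push_cast
          rfl

/-- `c^{ω(n)} ≤ C n^ε`. -/
lemma pow_omega_le {ε : ℝ} (hε : 0 < ε) {c : ℝ} (hc : 1 ≤ c) : ∃ C : ℝ, 1 ≤ C ∧ ∀ n : ℕ, n ≠ 0 →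
    c ^ n.primeFactors.card ≤ C * (n:ℝ) ^ ε := by
  obtain ⟨P0, hP1, hP0⟩ := exists_threshold hε c
  refine ⟨c ^ P0, one_le_pow₀ hc, fun n hn => ?_⟩
  have h := prod_primeFactors_le (ε := ε) (f := fun _ _ => c) (B := c) (P0 := P0) hc
    (fun _ _ => by linarith) (fun p a hp ha => ?_) (fun p a hp hP ha => ?_) hn
  · simpa using h
  · have h1 : (1:ℝ) ≤ p := by exact_mod_cast hp.one_le
    have : 1 ≤ ((p:ℝ) ^ a) ^ ε := Real.one_le_rpow (one_le_pow₀ h1) hε.le
    nlinarith
  · have h1 : (1:ℝ) ≤ p := by exact_mod_cast hp.one_le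
    refine hP0.trans (Real.rpow_le_rpow (by positivity) ?_ hε.le)
    calc (P0:ℝ) ≤ p := by exact_mod_cast hP
      _ = (p:ℝ) ^ 1 := (pow_one _).symm
      _ ≤ (p:ℝ) ^ a := pow_le_pow_right₀ h1 ha

/-- The divisor bound `τ(n) ≤ C n^ε`. -/
lemma tauR_le_rpow {ε : ℝ} (hε : 0 < ε) : ∃ C : ℝ, 1 ≤ C ∧ ∀ n : ℕ, n ≠ 0 →
    tauR n ≤ C * (n:ℝ) ^ ε := by
  obtain ⟨P0, hP1, hP0⟩ := exists_threshold hε 2
  set B : ℝ := 1 + 1 / (ε * Real.log 2) with hB
  have hl2 : 0 < Real.log 2 := Real.log_pos (by norm_num)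
  have hB1 : 1 ≤ B := by
    have : 0 < 1 / (ε * Real.log 2) := by positivity
    linarith
  refine ⟨B ^ P0, one_le_pow₀ hB1, fun n hn => ?_⟩
  have hcard : tauR n = ∏ p ∈ n.primeFactors, ((n.factorization p : ℝ) + 1) := by
    unfold tauR
    rw [Nat.card_divisors hn]
    push_cast
    rfl
  rw [hcard]
  refine prod_primeFactors_le (ε := ε) (f := fun _ a => (a:ℝ) + 1) (B := B) (P0 := P0) hB1
    (fun _ _ => by positivity) (fun p a hp ha => ?_) (fun p a hp hP ha => ?_) hn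
  · have h2p : (2:ℝ) ≤ p := by exact_mod_cast hp.two_le
    have h1 : ((2:ℝ) ^ a) ^ ε ≤ ((p:ℝ) ^ a) ^ ε :=
      Real.rpow_le_rpow (by positivity) (by gcongr) hε.le
    have h2 : 1 + a * (ε * Real.log 2) ≤ ((2:ℝ) ^ a) ^ ε := by
      rw [Real.rpow_def_of_pos (by positivity), Real.log_pow]
      have := Real.add_one_le_exp (a * Real.log 2 * ε)
      linarith
    have h3 : (a:ℝ) + 1 ≤ B * (1 + a * (ε * Real.log 2)) := by
      have e1 : B * (1 + a * (ε * Real.log 2)) =
          1 + a + a * (ε * Real.log 2) + 1 / (ε * Real.log 2) := by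
        rw [hB]; field_simp; ring
      rw [e1]
      have : 0 ≤ (a:ℝ) * (ε * Real.log 2) := by positivity
      have : 0 < 1 / (ε * Real.log 2) := by positivity
      linarith
    calc (a:ℝ) + 1 ≤ B * (1 + a * (ε * Real.log 2)) := h3
      _ ≤ B * ((p:ℝ) ^ a) ^ ε := by
        have : 0 ≤ B := by linarith
        gcongr
        exact h2.trans h1
  · have h1 : (2:ℝ) ≤ (p:ℝ) ^ ε :=
      hP0.trans (Real.rpow_le_rpow (by positivity) (by exact_mod_cast hP) hε.le)
    have h2 : ((p:ℝ) ^ a) ^ ε = ((p:ℝ) ^ ε) ^ a := by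
      rw [← Real.rpow_natCast, ← Real.rpow_mul (by positivity), mul_comm, Real.rpow_mul (by positivity),
        Real.rpow_natCast]
    rw [h2]
    calc (a:ℝ) + 1 ≤ 2 ^ a := by
          have := Nat.lt_two_pow_self (n := a)
          exact_mod_cast this
      _ ≤ _ := by gcongr

end Pool.Agent.ANT
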