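import Pool.Agent.Lib.ANT.BVMain

open Complex ArithmeticFunction
open scoped ArithmeticFunction.Moebius ArithmeticFunction.zeta

namespace Pool.Agent.ANT

/-- `ψ(y; q, a)`. -/
noncomputable def psiAP (y : ℝ) (q a : ℕ) : ℝ :=
  ∑ n ∈ (Finset.Icc 1 ⌊y⌋₊).filter (fun n : ℕ => n ≡ a [MOD q]), Λ n

/-- `θ(y; q, a)`. -/
noncomputable def thetaAP (y : ℝ) (q a : ℕ) : ℝ :=
  ∑ p ∈ (Finset.Icc 1 ⌊y⌋₊).filter (fun p : ℕ => p.Prime ∧ p ≡ a [MOD q]), Real.log p

lemma y_mul_WR {y : ℝ} (hy : 0 < y) (n : ℕ) : y * WR y n = max (y - n) 0 := by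
  unfold WR
  rw [mul_max_of_nonneg _ _ hy.le]
  congr 1
  · field_simp
  · ring

lemma psiAP_eq {X y : ℝ} (hy : 0 ≤ y) (hyX : y ≤ X) (q a : ℕ) :
    psiAP y q a = ∑ n ∈ (Finset.Ioc 0 ⌊X⌋₊).filter (fun n : ℕ => (n : ZMod q) = (a : ZMod q)),
      Λ n * (if (n:ℝ) ≤ y then 1 else 0) := by
  unfold psiAP
  have h1 : (Finset.Icc 1 ⌊y⌋₊).filter (fun n : ℕ => n ≡ a [MOD q]) =
      ((Finset.Ioc 0 ⌊X⌋₊).filter (fun n : ℕ => (n : ZMod q) = (a : ZMod q))).filter
        (fun n : ℕ => (n:ℝ) ≤ y) := by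
    ext n
    simp only [Finset.mem_filter, Finset.mem_Icc, Finset.mem_Ioc, ZMod.natCast_eq_natCast_iff]
    rw [Nat.le_floor_iff hy]
    constructor
    · rintro ⟨⟨h1, h2⟩, h3⟩
      exact ⟨⟨⟨by omega, Nat.le_floor (h2.trans hyX)⟩, h3⟩, h2⟩
    · rintro ⟨⟨⟨h1, h2⟩, h3⟩, h4⟩
      exact ⟨⟨by omega, h4⟩, h3⟩
  rw [h1, Finset.sum_filter]
  refine Finset.sum_congr rfl fun n _ => ?_
  split_ifs <;> simp

lemma SAP_mul {X y : ℝ} (hy : 0 < y) (q : ℕ) (a : ZMod q) :
    y * SAP X y q a = ∑ n ∈ (Finset.Ioc 0 ⌊X⌋₊).filter (fun n : ℕ => (n : ZMod q) = a),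
      Λ n * max (y - n) 0 := by
  unfold SAP
  rw [Finset.mul_sum]
  refine Finset.sum_congr rfl fun n _ => ?_
  rw [← y_mul_WR hy]; ring

/-- Unsmoothing for one modulus. -/
lemma unsmooth_one {X y h : ℝ} (hh : 0 < h) (hy : 0 < y) (hyh : y + h ≤ X) {q a : ℕ} (hq : 0 < q) :
    |psiAP y q a - y / q.totient| ≤ h / q.totient +
      X / h * (|SAP X (y + h) q (a : ZMod q) - (y + h) / (2 * q.totient)| +
        |SAP X y q (a : ZMod q) - y / (2 * q.totient)| +
        |SAP X (if h < y then y - h else h) q (a : ZMod q) -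
          (if h < y then y - h else h) / (2 * q.totient)|) := by
  have hX : 0 < X := by linarith
  have hφ : (0:ℝ) < q.totient := by exact_mod_cast Nat.totient_pos.mpr hq
  set φ : ℝ := (q.totient : ℝ) with hφd
  set A : ZMod q := (a : ZMod q) with hA
  set e1 := |SAP X (y + h) q A - (y + h) / (2 * φ)| with he1
  set e2 := |SAP X y q A - y / (2 * φ)| with he2
  set e3 := |SAP X (if h < y then y - h else h) q A - (if h < y then y - h else h) / (2 * φ)| with he3
  have he1' := abs_nonneg (SAP X (y + h) q A - (y + h) / (2 * φ))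
  have he2' := abs_nonneg (SAP X y q A - y / (2 * φ))
  have he3' : 0 ≤ e3 := abs_nonneg _
  rw [← he1] at he1'
  rw [← he2] at he2'
  -- general bound
  have hT : ∀ w : ℝ, 0 < w → w ≤ X → |w * SAP X w q A - w ^ 2 / (2 * φ)| ≤
      X * |SAP X w q A - w / (2 * φ)| := by
    intro w hw hwX
    have : w * SAP X w q A - w ^ 2 / (2 * φ) = w * (SAP X w q A - w / (2 * φ)) := by ring
    rw [this, abs_mul, abs_of_pos hw]
    gcongr
  have hψ := psiAP_eq hy.le (show y ≤ X by linarith) q a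
  have hψ0 : 0 ≤ psiAP y q a := by
    unfold psiAP; exact Finset.sum_nonneg fun _ _ => vonMangoldt_nonneg
  -- upper bound
  have hup : h * psiAP y q a ≤ (y + h) * SAP X (y + h) q A - y * SAP X y q A := by
    rw [SAP_mul (by linarith), SAP_mul hy, hψ, Finset.mul_sum, ← Finset.sum_sub_distrib]
    refine Finset.sum_le_sum fun n _ => ?_
    have h3 : 0 ≤ Λ n := vonMangoldt_nonneg
    have h4 : h * (if (n:ℝ) ≤ y then (1:ℝ) else 0) ≤ max (y + h - n) 0 - max (y - n) 0 := by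
      split_ifs with hn
      · rw [max_eq_left (by linarith), max_eq_left (by linarith)]; linarith
      · have : max (y - (n:ℝ)) 0 = 0 := max_eq_right (by linarith)
        rw [this]; simp
    calc h * (Λ n * (if (n:ℝ) ≤ y then (1:ℝ) else 0)) =
          Λ n * (h * (if (n:ℝ) ≤ y then (1:ℝ) else 0)) := by ring
      _ ≤ Λ n * (max (y + h - n) 0 - max (y - n) 0) := by gcongr
      _ = _ := by ring
  have hT1 := hT (y + h) (by linarith) hyh
  have hT2 := hT y hy (by linarith)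
  rw [abs_le] at hT1 hT2
  have hXh : 0 < X / h := by positivity
  have hupper : psiAP y q a - y / φ ≤ h / φ + X / h * (e1 + e2 + e3) := by
    have h5 : h * psiAP y q a ≤ (y + h) ^ 2 / (2 * φ) - y ^ 2 / (2 * φ) + X * e1 + X * e2 := by
      linarith [hT1.2, hT2.1]
    have h6 : (y + h) ^ 2 / (2 * φ) - y ^ 2 / (2 * φ) = h * (y / φ + h / (2 * φ)) := by
      field_simp; ring
    rw [h6] at h5
    have h7 : psiAP y q a ≤ y / φ + h / (2 * φ) + X / h * (e1 + e2) := by
      have h8 : h * psiAP y q a ≤ h * (y / φ + h / (2 * φ) + X / h * (e1 + e2)) := by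
        refine h5.trans (le_of_eq ?_)
        field_simp
        ring
      exact le_of_mul_le_mul_left h8 hh
    have h9 : h / (2 * φ) ≤ h / φ := by
      rw [div_le_div_iff₀ (by positivity) hφ]; nlinarith [mul_pos hh hφ]
    have h10 : 0 ≤ X / h * e3 := by positivity
    calc psiAP y q a - y / φ ≤ h / (2 * φ) + X / h * (e1 + e2) := by linarith
      _ ≤ h / φ + X / h * (e1 + e2) + X / h * e3 := by linarith
      _ = _ := by ring
  have hlower : -(h / φ + X / h * (e1 + e2 + e3)) ≤ psiAP y q a - y / φ := by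
    by_cases hc : h < y
    · have he3'' : e3 = |SAP X (y - h) q A - (y - h) / (2 * φ)| := by
        rw [he3]; simp [hc]
      have hT3 := hT (y - h) (by linarith) (by linarith)
      rw [← he3'', abs_le] at hT3
      have hlo : y * SAP X y q A - (y - h) * SAP X (y - h) q A ≤ h * psiAP y q a := by
        rw [SAP_mul hy, SAP_mul (by linarith), hψ, Finset.mul_sum, ← Finset.sum_sub_distrib]
        refine Finset.sum_le_sum fun n _ => ?_
        have h3 : 0 ≤ Λ n := vonMangoldt_nonneg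
        have h4 : max (y - n) 0 - max (y - h - n) 0 ≤ h * (if (n:ℝ) ≤ y then (1:ℝ) else 0) := by
          split_ifs with hn
          · rw [max_eq_left (by linarith)]
            have := le_max_left (y - h - (n:ℝ)) 0
            linarith
          · have : max (y - (n:ℝ)) 0 = 0 := max_eq_right (by linarith)
            have := le_max_right (y - h - (n:ℝ)) 0
            linarith
        calc _ = Λ n * (max (y - n) 0 - max (y - h - n) 0) := by ring
          _ ≤ Λ n * (h * (if (n:ℝ) ≤ y then (1:ℝ) else 0)) := by gcongr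
          _ = _ := by ring
      have h5 : y ^ 2 / (2 * φ) - (y - h) ^ 2 / (2 * φ) - X * e2 - X * e3 ≤ h * psiAP y q a := by
        linarith [hT2.1, hT3.2]
      have h6 : y ^ 2 / (2 * φ) - (y - h) ^ 2 / (2 * φ) = h * (y / φ - h / (2 * φ)) := by
        field_simp; ring
      rw [h6] at h5
      have h7 : y / φ - h / (2 * φ) - X / h * (e2 + e3) ≤ psiAP y q a := by
        have h8 : h * (y / φ - h / (2 * φ) - X / h * (e2 + e3)) ≤ h * psiAP y q a := by
          refine le_trans (le_of_eq ?_) h5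
          field_simp; ring
        exact le_of_mul_le_mul_left h8 hh
      have h9 : h / (2 * φ) ≤ h / φ := by
        rw [div_le_div_iff₀ (by positivity) hφ]; nlinarith [mul_pos hh hφ]
      have h10 : 0 ≤ X / h * e1 := by positivity
      have h11 : X / h * (e1 + e2 + e3) = X / h * e1 + X / h * (e2 + e3) := by ring
      linarith
    · have h9 : y / φ ≤ h / φ := by
        gcongr
        linarith
      have h10 : 0 ≤ X / h * (e1 + e2 + e3) := by positivity
      linarith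
  rw [abs_le]
  exact ⟨hlower, hupper⟩

/-- **Bombieri–Vinogradov**, general form. -/
theorem bv_psi (A : ℕ) : ∃ C : ℝ, 0 < C ∧ ∀ x : ℝ, 3 ≤ x → ∀ Q : ℕ, (Q:ℝ) ≤ √x →
    ∀ (y : ℕ → ℝ) (a : ℕ → ℕ), (∀ q, 0 < y q ∧ y q ≤ x) → (∀ q, (a q).Coprime q) →
    ∑ q ∈ Finset.Ioc 0 Q, |psiAP (y q) q (a q) - y q / q.totient| ≤
      C * (x / Real.log x ^ A + Q * √x * Real.log x ^ (A + 10)) := by
  obtain ⟨C, hC, hbv⟩ := riesz_bv (2 * A + 2)
  refine ⟨4 + 24 * C * 2 ^ 9, by positivity, fun x hx Q hQx y a hy ha => ?_⟩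
  have hx0 : 0 < x := by linarith
  have hlog := one_le_log hx
  set L := Real.log x with hL
  have hL0 : 0 < L := by linarith
  set X : ℝ := 2 * x with hX
  have hX3 : 3 ≤ X := by linarith
  have hsx : √x ≤ √X := Real.sqrt_le_sqrt (by linarith)
  have hQX : (Q:ℝ) ≤ √X := hQx.trans hsx
  set h : ℝ := x / L ^ (A + 2) with hh
  have hh0 : 0 < h := by positivity
  have hhx : h ≤ x := by
    rw [hh]
    exact div_le_self hx0.le (one_le_pow₀ hlog)
  have hLX1 : L ≤ Real.log X := Real.log_le_log hx0 (by linarith)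
  have hLX2 : Real.log X ≤ 2 * L := by
    have h1 : X ≤ x ^ 2 := by rw [hX]; nlinarith
    have h2 := Real.log_le_log (by linarith) h1
    rw [Real.log_pow] at h2
    push_cast at h2; exact h2
  have hsX : √X ≤ 2 * √x := by
    have : √X ≤ √(4 * x) := Real.sqrt_le_sqrt (by linarith)
    refine this.trans (le_of_eq ?_)
    rw [Real.sqrt_mul (by norm_num), show (4:ℝ) = 2 ^ 2 by norm_num, Real.sqrt_sq (by norm_num)]
  set E : ℝ := C * (X / Real.log X ^ (2 * A + 2) + Q * √X * Real.log X ^ 8) with hE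
  have hE0 : 0 ≤ E := by
    have : 0 ≤ Real.log X := by linarith
    positivity
  have hEle : E ≤ C * 2 ^ 9 * (x / L ^ (2 * A + 2) + Q * √x * L ^ 8) := by
    rw [hE]
    have h1 : X / Real.log X ^ (2 * A + 2) ≤ 2 * x / L ^ (2 * A + 2) := by
      have h0 : 0 ≤ X := by linarith
      calc X / Real.log X ^ (2 * A + 2) ≤ X / L ^ (2 * A + 2) := by gcongr
        _ = _ := by rw [hX]
    have hLX0 : 0 ≤ Real.log X := by linarith
    have h2 : Q * √X * Real.log X ^ 8 ≤ Q * (2 * √x) * (2 * L) ^ 8 := by gcongr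
    have h3 : 2 * x / L ^ (2 * A + 2) ≤ 2 ^ 9 * (x / L ^ (2 * A + 2)) := by
      have : 0 ≤ x / L ^ (2 * A + 2) := by positivity
      calc _ = 2 * (x / L ^ (2 * A + 2)) := by ring
        _ ≤ _ := by nlinarith
    calc C * (X / Real.log X ^ (2 * A + 2) + Q * √X * Real.log X ^ 8) ≤
          C * (2 ^ 9 * (x / L ^ (2 * A + 2)) + Q * (2 * √x) * (2 * L) ^ 8) := by
          gcongr
          exact h1.trans h3
      _ = _ := by ring
  have b1 := hbv X hX3 Q hQX (fun q => y q + h) a (fun q => ⟨by have := (hy q).1; linarith, by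
    have := (hy q).2; show y q + h ≤ X; linarith⟩) ha
  have b2 := hbv X hX3 Q hQX y a (fun q => ⟨(hy q).1, by have := (hy q).2; linarith⟩) ha
  have b3 := hbv X hX3 Q hQX (fun q => if h < y q then y q - h else h) a (fun q => by
    have h1 := (hy q).1
    have h2 := (hy q).2
    show 0 < (if h < y q then y q - h else h) ∧ (if h < y q then y q - h else h) ≤ X
    split_ifs with hc
    · exact ⟨by linarith, by linarith⟩
    · exact ⟨hh0, by linarith⟩) ha
  have hsum : ∑ q ∈ Finset.Ioc 0 Q, |psiAP (y q) q (a q) - y q / q.totient| ≤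
      h * (∑ q ∈ Finset.Ioc 0 Q, (1:ℝ) / q.totient) + X / h * (E + E + E) := by
    calc _ ≤ ∑ q ∈ Finset.Ioc 0 Q, (h * (1 / (q.totient:ℝ)) +
        X / h * (|SAP X (y q + h) q (a q : ZMod q) - (y q + h) / (2 * q.totient)| +
        |SAP X (y q) q (a q : ZMod q) - y q / (2 * q.totient)| +
        |SAP X (if h < y q then y q - h else h) q (a q : ZMod q) -
          (if h < y q then y q - h else h) / (2 * q.totient)|)) := by
          refine Finset.sum_le_sum fun q hq => ?_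
          have h1 := unsmooth_one (X := X) hh0 (hy q).1 (by have := (hy q).2; linarith)
            (q := q) (a := a q) (Finset.mem_Ioc.mp hq).1
          refine h1.trans (le_of_eq ?_)
          ring
      _ = h * (∑ q ∈ Finset.Ioc 0 Q, (1:ℝ) / q.totient) + X / h * (
        ∑ q ∈ Finset.Ioc 0 Q, |SAP X (y q + h) q (a q : ZMod q) - (y q + h) / (2 * q.totient)| +
        ∑ q ∈ Finset.Ioc 0 Q, |SAP X (y q) q (a q : ZMod q) - y q / (2 * q.totient)| +
        ∑ q ∈ Finset.Ioc 0 Q, |SAP X (if h < y q then y q - h else h) q (a q : ZMod q) -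
          (if h < y q then y q - h else h) / (2 * q.totient)|) := by
          rw [Finset.sum_add_distrib, ← Finset.mul_sum, ← Finset.mul_sum, Finset.sum_add_distrib,
            Finset.sum_add_distrib]
      _ ≤ _ := by
          have : 0 ≤ X / h := by positivity
          gcongr
  have hQx' : (Q:ℝ) ≤ x := by
    refine hQx.trans ?_
    rw [Real.sqrt_le_left hx0.le]
    nlinarith
  have hHs : ∑ q ∈ Finset.Ioc 0 Q, (1:ℝ) / q.totient ≤ 4 * L ^ 2 := by
    rcases Nat.eq_zero_or_pos Q with h0 | h0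
    · subst h0; simp; positivity
    refine (sum_inv_totient_le Q).trans ?_
    have h1 : Hs Q ≤ 2 * L := by
      refine (Hs_le Q).trans ?_
      have : Real.log Q ≤ L := Real.log_le_log (by exact_mod_cast h0) hQx'
      linarith
    have := Hs_nonneg Q
    calc Hs Q ^ 2 ≤ (2 * L) ^ 2 := by gcongr
      _ = _ := by ring
  refine hsum.trans ?_
  have c1 : h * (∑ q ∈ Finset.Ioc 0 Q, (1:ℝ) / q.totient) ≤ 4 * (x / L ^ A) := by
    calc _ ≤ h * (4 * L ^ 2) := by gcongr
      _ = 4 * (x / L ^ A) := by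
          rw [hh, pow_add]; field_simp
  have c2 : X / h * (E + E + E) ≤ 6 * C * 2 ^ 9 * (x / L ^ A + Q * √x * L ^ (A + 10)) := by
    have h1 : X / h = 2 * L ^ (A + 2) := by rw [hX, hh]; field_simp
    rw [h1]
    calc 2 * L ^ (A + 2) * (E + E + E) = 6 * L ^ (A + 2) * E := by ring
      _ ≤ 6 * L ^ (A + 2) * (C * 2 ^ 9 * (x / L ^ (2 * A + 2) + Q * √x * L ^ 8)) := by gcongr
      _ = _ := by
          have : L ^ (2 * A + 2) = L ^ (A + 2) * L ^ A := by ring
          rw [this]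
          field_simp
          ring
  have hp1 : 0 ≤ x / L ^ A := by positivity
  have hp2 : 0 ≤ Q * √x * L ^ (A + 10) := by positivity
  calc _ ≤ 4 * (x / L ^ A) + 6 * C * 2 ^ 9 * (x / L ^ A + Q * √x * L ^ (A + 10)) := add_le_add c1 c2
    _ ≤ 4 * (x / L ^ A + Q * √x * L ^ (A + 10)) +
        24 * C * 2 ^ 9 * (x / L ^ A + Q * √x * L ^ (A + 10)) := by
        have h1 : 6 * C * 2 ^ 9 * (x / L ^ A + Q * √x * L ^ (A + 10)) ≤
            24 * C * 2 ^ 9 * (x / L ^ A + Q * √x * L ^ (A + 10)) := by gcongr; norm_num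
        linarith
    _ = _ := by ring

/-- `ψ` and `θ` in progressions. -/
lemma psiAP_sub_thetaAP {y : ℝ} (hy : 1 ≤ y) (q a : ℕ) :
    |psiAP y q a - thetaAP y q a| ≤ 2 * √y * Real.log y := by
  have h3 := Chebyshev.psi_sub_theta_le hy
  have h4 : psiAP y q a = thetaAP y q a +
      ∑ n ∈ (Finset.Icc 1 ⌊y⌋₊).filter (fun n : ℕ => ¬ n.Prime ∧ n ≡ a [MOD q]), Λ n := by
    unfold psiAP thetaAP
    have e1 : ∑ p ∈ (Finset.Icc 1 ⌊y⌋₊).filter (fun p : ℕ => p.Prime ∧ p ≡ a [MOD q]), Real.log p =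
      ∑ p ∈ (Finset.Icc 1 ⌊y⌋₊).filter (fun p : ℕ => p.Prime ∧ p ≡ a [MOD q]), Λ p :=
      Finset.sum_congr rfl fun p hp =>
        (vonMangoldt_apply_prime (Finset.mem_filter.mp hp).2.1).symm
    rw [e1, Finset.sum_filter, Finset.sum_filter, Finset.sum_filter, ← Finset.sum_add_distrib]
    refine Finset.sum_congr rfl fun n _ => ?_
    by_cases hp : n.Prime <;> by_cases hn : n ≡ a [MOD q] <;> simp [hp, hn]
  have h5 : ∑ n ∈ (Finset.Icc 1 ⌊y⌋₊).filter (fun n : ℕ => ¬ n.Prime ∧ n ≡ a [MOD q]), Λ n ≤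
      Chebyshev.psi y - Chebyshev.theta y := by
    rw [Chebyshev.psi_sub_theta_eq_sum_not_prime]
    refine Finset.sum_le_sum_of_subset_of_nonneg ?_ fun _ _ _ => vonMangoldt_nonneg
    intro n hn
    simp only [Finset.mem_filter] at hn ⊢
    exact ⟨hn.1, hn.2.1⟩
  have h5' : 0 ≤ ∑ n ∈ (Finset.Icc 1 ⌊y⌋₊).filter (fun n : ℕ => ¬ n.Prime ∧ n ≡ a [MOD q]), Λ n :=
    Finset.sum_nonneg fun _ _ => vonMangoldt_nonneg
  rw [h4, add_sub_cancel_left, abs_of_nonneg h5']
  exact h5.trans h3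

/-- **Bombieri–Vinogradov** for `θ`, general form. -/
theorem bv_theta (A : ℕ) : ∃ C : ℝ, 0 < C ∧ ∀ x : ℝ, 3 ≤ x → ∀ Q : ℕ, (Q:ℝ) ≤ √x →
    ∀ (y : ℕ → ℝ) (a : ℕ → ℕ), (∀ q, 1 ≤ y q ∧ y q ≤ x) → (∀ q, (a q).Coprime q) →
    ∑ q ∈ Finset.Ioc 0 Q, |thetaAP (y q) q (a q) - y q / q.totient| ≤
      C * (x / Real.log x ^ A + Q * √x * Real.log x ^ (A + 10)) := by
  obtain ⟨C, hC, hbv⟩ := bv_psi A
  refine ⟨C + 2, by positivity, fun x hx Q hQx y a hy ha => ?_⟩
  have hx0 : 0 < x := by linarith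
  have hlog := one_le_log hx
  have h1 := hbv x hx Q hQx y a (fun q => ⟨by have := (hy q).1; linarith, (hy q).2⟩) ha
  have h2 : ∀ q ∈ Finset.Ioc 0 Q, |thetaAP (y q) q (a q) - y q / q.totient| ≤
      |psiAP (y q) q (a q) - y q / q.totient| + 2 * √x * Real.log x := by
    intro q _
    have h3 := psiAP_sub_thetaAP (hy q).1 q (a q)
    have h4 : 2 * √(y q) * Real.log (y q) ≤ 2 * √x * Real.log x := by
      have h5 : √(y q) ≤ √x := Real.sqrt_le_sqrt (hy q).2
      have h6 : Real.log (y q) ≤ Real.log x := Real.log_le_log (by linarith [(hy q).1]) (hy q).2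
      have h7 : 0 ≤ Real.log (y q) := Real.log_nonneg (hy q).1
      gcongr
    have h5 : thetaAP (y q) q (a q) - y q / q.totient =
        (psiAP (y q) q (a q) - y q / q.totient) - (psiAP (y q) q (a q) - thetaAP (y q) q (a q)) := by
      ring
    rw [h5]
    refine (abs_sub _ _).trans ?_
    exact add_le_add le_rfl (h3.trans h4)
  calc _ ≤ ∑ q ∈ Finset.Ioc 0 Q, (|psiAP (y q) q (a q) - y q / q.totient| + 2 * √x * Real.log x) :=
        Finset.sum_le_sum h2
    _ = ∑ q ∈ Finset.Ioc 0 Q, |psiAP (y q) q (a q) - y q / q.totient| +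
        Q * (2 * √x * Real.log x) := by
        rw [Finset.sum_add_distrib, Finset.sum_const, Nat.card_Ioc, nsmul_eq_mul, Nat.sub_zero]
    _ ≤ C * (x / Real.log x ^ A + Q * √x * Real.log x ^ (A + 10)) +
        2 * (x / Real.log x ^ A + Q * √x * Real.log x ^ (A + 10)) := by
        refine add_le_add h1 ?_
        have h3 : Real.log x ≤ Real.log x ^ (A + 10) := by
          calc Real.log x = Real.log x ^ 1 := (pow_one _).symm
            _ ≤ _ := pow_le_pow_right₀ hlog (by omega)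
        have h4 : 0 ≤ x / Real.log x ^ A := by positivity
        calc (Q:ℝ) * (2 * √x * Real.log x) = 2 * (Q * √x * Real.log x) := by ring
          _ ≤ 2 * (Q * √x * Real.log x ^ (A + 10)) := by gcongr
          _ ≤ _ := by linarith
    _ = _ := by ring

/-- **Bombieri–Vinogradov theorem** (classical form, level `√x / (log x)^(2A+10)`). -/
theorem bombieri_vinogradov (A : ℕ) : ∃ C : ℝ, 0 < C ∧ ∀ x : ℝ, 3 ≤ x →
    ∀ Q : ℕ, (Q:ℝ) ≤ √x / Real.log x ^ (2 * A + 10) →
    ∀ (y : ℕ → ℝ) (a : ℕ → ℕ), (∀ q, 1 ≤ y q ∧ y q ≤ x) → (∀ q, (a q).Coprime q) →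
    ∑ q ∈ Finset.Ioc 0 Q, (|psiAP (y q) q (a q) - y q / q.totient| +
      |thetaAP (y q) q (a q) - y q / q.totient|) ≤ C * x / Real.log x ^ A := by
  obtain ⟨C1, hC1, h1⟩ := bv_psi A
  obtain ⟨C2, hC2, h2⟩ := bv_theta A
  refine ⟨2 * C1 + 2 * C2, by positivity, fun x hx Q hQ y a hy ha => ?_⟩
  have hx0 : 0 < x := by linarith
  have hlog := one_le_log hx
  have hQx : (Q:ℝ) ≤ √x := hQ.trans (div_le_self (Real.sqrt_nonneg _) (one_le_pow₀ hlog))
  have h3 := h1 x hx Q hQx y a (fun q => ⟨by have := (hy q).1; linarith, (hy q).2⟩) ha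
  have h4 := h2 x hx Q hQx y a hy ha
  have h5 : Q * √x * Real.log x ^ (A + 10) ≤ x / Real.log x ^ A := by
    calc Q * √x * Real.log x ^ (A + 10) ≤ (√x / Real.log x ^ (2 * A + 10)) * √x *
          Real.log x ^ (A + 10) := by gcongr
      _ = (√x * √x) * Real.log x ^ (A + 10) / Real.log x ^ (2 * A + 10) := by ring
      _ = x / Real.log x ^ A := by
          rw [Real.mul_self_sqrt hx0.le]
          have : Real.log x ^ (2 * A + 10) = Real.log x ^ A * Real.log x ^ (A + 10) := by ring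
          rw [this]
          field_simp
  rw [Finset.sum_add_distrib]
  calc _ ≤ C1 * (x / Real.log x ^ A + Q * √x * Real.log x ^ (A + 10)) +
        C2 * (x / Real.log x ^ A + Q * √x * Real.log x ^ (A + 10)) := add_le_add h3 h4
    _ ≤ C1 * (x / Real.log x ^ A + x / Real.log x ^ A) +
        C2 * (x / Real.log x ^ A + x / Real.log x ^ A) := by gcongr
    _ = _ := by ring

/-- Bombieri–Vinogradov with level of distribution `x^θ`, `θ < 1/2`. -/
theorem bv_level {θ : ℝ} (hθ : θ < 1/2) (A : ℕ) : ∃ C : ℝ, 0 < C ∧ ∀ x : ℝ, 3 ≤ x →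
    ∀ (y : ℕ → ℝ) (a : ℕ → ℕ), (∀ q, 1 ≤ y q ∧ y q ≤ x) → (∀ q, (a q).Coprime q) →
    ∑ q ∈ Finset.Ioc 0 ⌊x ^ θ⌋₊, |thetaAP (y q) q (a q) - y q / q.totient| ≤
      C * x / Real.log x ^ A := by
  obtain ⟨C, hC, hbv⟩ := bv_theta A
  obtain ⟨K, hK, hlogp⟩ := log_pow_le_rpow (2 * A + 10) (show (0:ℝ) < 1/2 - θ by linarith)
  refine ⟨C * (1 + K), by positivity, fun x hx y a hy ha => ?_⟩
  have hx0 : 0 < x := by linarith
  have hlog := one_le_log hx
  have hQ1 : ((⌊x ^ θ⌋₊ : ℕ) : ℝ) ≤ x ^ θ := Nat.floor_le (by positivity)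
  have hQ : ((⌊x ^ θ⌋₊ : ℕ) : ℝ) ≤ √x := by
    refine hQ1.trans ?_
    rw [Real.sqrt_eq_rpow]
    exact Real.rpow_le_rpow_of_exponent_le (by linarith) hθ.le
  have h1 := hbv x hx _ hQ y a hy ha
  refine h1.trans ?_
  have h2 : (⌊x ^ θ⌋₊ : ℝ) * √x * Real.log x ^ (A + 10) ≤ K * (x / Real.log x ^ A) := by
    rw [mul_div_assoc', le_div_iff₀ (by positivity)]
    have h3 := hlogp x (by linarith)
    calc (⌊x ^ θ⌋₊ : ℝ) * √x * Real.log x ^ (A + 10) * Real.log x ^ A =
          (⌊x ^ θ⌋₊ : ℝ) * √x * Real.log x ^ (2 * A + 10) := by ring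
      _ ≤ x ^ θ * x ^ (1/2 : ℝ) * (K * x ^ (1/2 - θ)) := by
          rw [← Real.sqrt_eq_rpow]
          gcongr
      _ = K * (x ^ θ * x ^ (1/2 : ℝ) * x ^ (1/2 - θ)) := by ring
      _ = K * x := by
          rw [← Real.rpow_add hx0, ← Real.rpow_add hx0]
          ring_nf
          rw [Real.rpow_one]
  calc _ ≤ C * (x / Real.log x ^ A + K * (x / Real.log x ^ A)) := by gcongr
    _ = _ := by ring

end Pool.Agent.ANT
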