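import Pool.Agent.Lib.ANT.BVSep
import Pool.Agent.Lib.ANT.Minor
import Pool.Agent.Lib.ANT.SW

open Complex ArithmeticFunction
open scoped ArithmeticFunction.Moebius ArithmeticFunction.zeta

namespace Pool.Agent.ANT

/-- Riesz weight. -/
noncomputable def WR (y : ℝ) (n : ℕ) : ℝ := max (1 - n / y) 0

lemma WR_nonneg (y : ℝ) (n : ℕ) : 0 ≤ WR y n := le_max_right _ _

lemma WR_le_one {y : ℝ} (hy : 0 < y) (n : ℕ) : WR y n ≤ 1 := by
  unfold WR
  refine max_le ?_ zero_le_one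
  have : (0:ℝ) ≤ n / y := by positivity
  linarith

lemma WR_zero {y : ℝ} (hy : 0 < y) {n : ℕ} (h : y ≤ n) : WR y n = 0 := by
  unfold WR
  refine max_eq_right ?_
  rw [sub_nonpos, le_div_iff₀ hy]; linarith

/-- The von Mangoldt function as a complex arithmetic function. -/
noncomputable def LamC : ArithmeticFunction ℂ := ⟨fun n => (Λ n : ℂ), by simp⟩
/-- The logarithm as a complex arithmetic function. -/
noncomputable def logC : ArithmeticFunction ℂ := ⟨fun n => (Real.log n : ℂ), by simp⟩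
/-- truncated von Mangoldt function -/
noncomputable def L1f (U : ℕ) : ArithmeticFunction ℂ :=
  ⟨fun n => if n ≤ U then (Λ n : ℂ) else 0, by simp⟩
/-- tail of the von Mangoldt function -/
noncomputable def L2f (U : ℕ) : ArithmeticFunction ℂ :=
  ⟨fun n => if n ≤ U then 0 else (Λ n : ℂ), by simp⟩

lemma LamC_apply (n : ℕ) : LamC n = (Λ n : ℂ) := rfl
lemma logC_apply (n : ℕ) : logC n = (Real.log n : ℂ) := rfl
lemma L1f_apply (U n : ℕ) : L1f U n = if n ≤ U then (Λ n : ℂ) else 0 := rfl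
lemma L2f_apply (U n : ℕ) : L2f U n = if n ≤ U then 0 else (Λ n : ℂ) := rfl

lemma L1f_add_L2f (U : ℕ) : L1f U + L2f U = LamC := by
  ext n
  rw [ArithmeticFunction.add_apply, L1f_apply, L2f_apply, LamC_apply]
  split_ifs <;> simp

lemma LamC_mul_zeta : LamC * (ζ : ArithmeticFunction ℂ) = logC := by
  ext n
  rw [ArithmeticFunction.mul_apply, logC_apply]
  have h := congrArg (fun f : ArithmeticFunction ℝ => f n) vonMangoldt_mul_zeta
  simp only [ArithmeticFunction.mul_apply] at h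
  rw [show Real.log (n:ℝ) = ArithmeticFunction.log n from rfl, ← h]
  push_cast
  refine Finset.sum_congr rfl fun p hp => ?_
  have h4 := Nat.ne_zero_of_mem_divisorsAntidiagonal hp
  rw [LamC_apply]
  simp [h4.2]

/-- Vaughan's identity for the von Mangoldt function. -/
lemma vaughanL (U : ℕ) : LamC = L1f U + Mf U * logC -
    (Mf U * L1f U) * (ζ : ArithmeticFunction ℂ) +
      L2f U * (Hf U * (ζ : ArithmeticFunction ℂ)) := by
  set z := (ζ : ArithmeticFunction ℂ) with hz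
  have h1 : (Mf U + Hf U) * z = 1 := by
    rw [Mf_add_Hf]; exact coe_moebius_mul_coe_zeta
  have h2 : (L1f U + L2f U) * z = logC := by rw [L1f_add_L2f]; exact LamC_mul_zeta
  have h3 := L1f_add_L2f U
  rw [← h3, ← h2]
  linear_combination (- L2f U) * h1

lemma sum_conv_char {q : ℕ} (χ : DirichletCharacter ℂ q) (f g : ArithmeticFunction ℂ) (w : ℕ → ℝ)
    (N : ℕ) :
    ∑ n ∈ Finset.Ioc 0 N, (f * g) n * χ n * (w n : ℂ) =
      ∑ m ∈ Finset.Ioc 0 N, f m * χ m * ∑ k ∈ Finset.Ioc 0 (N / m), g k * χ k * (w (m * k) : ℂ) := by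
  have h1 : ∀ n ∈ Finset.Ioc 0 N, (f * g) n * χ n * (w n : ℂ) =
      ∑ p ∈ n.divisorsAntidiagonal, f p.1 * χ p.1 * (g p.2 * χ p.2 * (w (p.1 * p.2) : ℂ)) := by
    intro n _
    rw [ArithmeticFunction.mul_apply, Finset.sum_mul, Finset.sum_mul]
    refine Finset.sum_congr rfl fun p hp => ?_
    have h := (Nat.mem_divisorsAntidiagonal.mp hp).1
    have h2 : χ (n : ZMod q) = χ (p.1 : ZMod q) * χ (p.2 : ZMod q) := by
      rw [← h]; push_cast; exact map_mul _ _ _
    rw [h2, h]; ring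
  rw [Finset.sum_congr rfl h1, sum_pairs' (fun m k => f m * χ m * (g k * χ k * (w (m * k) : ℂ))) N]
  refine Finset.sum_congr rfl fun m _ => ?_
  rw [Finset.mul_sum]

/-- Partial sums of `χ log` from a bound on partial sums of `χ`. -/
lemma norm_sum_char_log_le' {q : ℕ} {χ : DirichletCharacter ℂ q} {P : ℝ}
    (hP : ∀ n : ℕ, ‖∑ k ∈ Finset.Ioc 0 n, χ k‖ ≤ P) {k : ℕ} (hk : 1 ≤ k) :
    ‖∑ n ∈ Finset.Ioc 0 k, χ n * (Real.log n : ℂ)‖ ≤ 2 * P * Real.log k := by
  have hk0 : (1:ℝ) ≤ k := by exact_mod_cast hk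
  have hlk : 0 ≤ Real.log k := Real.log_nonneg hk0
  set w : ℕ → ℝ := fun n => max (Real.log k - Real.log n) 0 with hw
  have h1 : ‖∑ n ∈ Finset.Ioc 0 k, χ n * (w n : ℂ)‖ ≤ P * w 1 := by
    refine abel_Ioc (fun n _ => le_max_right _ _) (fun n hn => ?_) (fun u _ => hP u)
    refine max_le_max ?_ le_rfl
    have : Real.log n ≤ Real.log ((n+1:ℕ):ℝ) :=
      Real.log_le_log (by exact_mod_cast hn) (by push_cast; linarith)
    linarith
  have h2 : ∑ n ∈ Finset.Ioc 0 k, χ n * (Real.log n : ℂ) =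
      (Real.log k : ℂ) * ∑ n ∈ Finset.Ioc 0 k, χ n - ∑ n ∈ Finset.Ioc 0 k, χ n * (w n : ℂ) := by
    rw [Finset.mul_sum, ← Finset.sum_sub_distrib]
    refine Finset.sum_congr rfl fun n hn => ?_
    obtain ⟨hn1, hn2⟩ := Finset.mem_Ioc.mp hn
    have : w n = Real.log k - Real.log n := by
      rw [hw]
      refine max_eq_left (sub_nonneg.mpr (Real.log_le_log (by exact_mod_cast hn1) ?_))
      exact_mod_cast hn2
    rw [this]; push_cast; ring
  have hw1 : w 1 = Real.log k := by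
    rw [hw]; simp [hlk]
  rw [h2]
  calc _ ≤ ‖(Real.log k : ℂ) * ∑ n ∈ Finset.Ioc 0 k, χ n‖ + ‖∑ n ∈ Finset.Ioc 0 k, χ n * (w n : ℂ)‖ :=
        norm_sub_le _ _
    _ ≤ Real.log k * P + P * w 1 := by
        refine add_le_add ?_ h1
        rw [norm_mul, Complex.norm_real, Real.norm_of_nonneg hlk]
        exact mul_le_mul_of_nonneg_left (hP k) hlk
    _ = _ := by rw [hw1]; ring

lemma WR_mul_antitone {y : ℝ} (hy : 0 < y) (m k : ℕ) : WR y (m * (k+1)) ≤ WR y (m * k) := by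
  unfold WR
  refine max_le_max ?_ le_rfl
  have : ((m * k : ℕ) : ℝ) ≤ ((m * (k+1) : ℕ) : ℝ) := by
    exact_mod_cast Nat.mul_le_mul_left m (Nat.le_succ k)
  have : ((m * k : ℕ) : ℝ) / y ≤ ((m * (k+1) : ℕ) : ℝ) / y := by gcongr
  linarith

lemma inner_one {q : ℕ} {χ : DirichletCharacter ℂ q} {P : ℝ}
    (hP : ∀ n : ℕ, ‖∑ k ∈ Finset.Ioc 0 n, χ k‖ ≤ P) {y : ℝ} (hy : 0 < y) (m X : ℕ) :
    ‖∑ k ∈ Finset.Ioc 0 X, (ζ : ArithmeticFunction ℂ) k * χ k * (WR y (m * k) : ℂ)‖ ≤ P := by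
  have hP0 : 0 ≤ P := (norm_nonneg _).trans (hP 0)
  have h1 : ∑ k ∈ Finset.Ioc 0 X, (ζ : ArithmeticFunction ℂ) k * χ k * (WR y (m * k) : ℂ) =
      ∑ k ∈ Finset.Ioc 0 X, χ k * (((fun k => WR y (m * k)) k : ℝ) : ℂ) := by
    refine Finset.sum_congr rfl fun k hk => ?_
    have : k ≠ 0 := by have := (Finset.mem_Ioc.mp hk).1; omega
    simp [this]
  rw [h1]
  have h2 := abel_Ioc (b := fun k : ℕ => χ k) (w := fun k => WR y (m * k)) (X := X) (B := P)
    (fun n _ => WR_nonneg _ _) (fun n _ => WR_mul_antitone hy m n) (fun u _ => hP u)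
  refine h2.trans ?_
  calc P * WR y (m * 1) ≤ P * 1 := by
        have := WR_le_one hy (m * 1); gcongr
    _ = P := mul_one P

lemma inner_log {q : ℕ} {χ : DirichletCharacter ℂ q} {P : ℝ}
    (hP : ∀ n : ℕ, ‖∑ k ∈ Finset.Ioc 0 n, χ k‖ ≤ P) {y : ℝ} (hy : 0 < y) (m X : ℕ) {L : ℝ}
    (hL0 : 0 ≤ L) (hL : ∀ k : ℕ, 1 ≤ k → k ≤ X → Real.log k ≤ L) :
    ‖∑ k ∈ Finset.Ioc 0 X, logC k * χ k * (WR y (m * k) : ℂ)‖ ≤ 2 * P * L := by
  have hP0 : 0 ≤ P := (norm_nonneg _).trans (hP 0)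
  have h1 : ∑ k ∈ Finset.Ioc 0 X, logC k * χ k * (WR y (m * k) : ℂ) =
      ∑ k ∈ Finset.Ioc 0 X, (χ k * (Real.log k : ℂ)) * (((fun k => WR y (m * k)) k : ℝ) : ℂ) := by
    refine Finset.sum_congr rfl fun k hk => ?_
    rw [logC_apply]; ring
  rw [h1]
  have h2 := abel_Ioc (b := fun k : ℕ => χ k * (Real.log k : ℂ)) (w := fun k => WR y (m * k))
    (X := X) (B := 2 * P * L)
    (fun n _ => WR_nonneg _ _) (fun n _ => WR_mul_antitone hy m n) (fun u hu => by
      rcases Nat.eq_zero_or_pos u with h | h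
      · subst h; simp; positivity
      · have h3 := norm_sum_char_log_le' hP h
        have h4 := hL u h hu
        calc _ ≤ 2 * P * Real.log u := h3
          _ ≤ 2 * P * L := by gcongr)
  refine h2.trans ?_
  calc 2 * P * L * WR y (m * 1) ≤ 2 * P * L * 1 := by
        have := WR_le_one hy (m * 1); gcongr
    _ = _ := mul_one _

lemma norm_ML_le (U n : ℕ) : ‖(Mf U * L1f U) n‖ ≤ Real.log n := by
  rw [ArithmeticFunction.mul_apply]
  have h := congrArg (fun f : ArithmeticFunction ℝ => f n) (mul_comm Λ (ζ : ArithmeticFunction ℝ) ▸ vonMangoldt_mul_zeta)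
  simp only [ArithmeticFunction.mul_apply] at h
  rw [show Real.log (n:ℝ) = ArithmeticFunction.log n from rfl, ← h]
  refine (norm_sum_le _ _).trans (Finset.sum_le_sum fun p hp => ?_)
  have h4 := Nat.ne_zero_of_mem_divisorsAntidiagonal hp
  rw [norm_mul, L1f_apply]
  have h5 : ((ζ : ArithmeticFunction ℝ) p.1) = 1 := by simp [h4.1]
  rw [h5]
  have h6 : ‖(if p.2 ≤ U then (Λ p.2 : ℂ) else 0)‖ ≤ Λ p.2 := by
    split_ifs
    · rw [Complex.norm_real, Real.norm_of_nonneg vonMangoldt_nonneg]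
    · simp
  calc ‖Mf U p.1‖ * _ ≤ 1 * Λ p.2 := mul_le_mul (norm_Mf_le _ _) h6 (norm_nonneg _) zero_le_one
    _ = _ := rfl

lemma ML_zero {U n : ℕ} (h : U * U < n) : (Mf U * L1f U) n = 0 := by
  rw [ArithmeticFunction.mul_apply]
  refine Finset.sum_eq_zero fun p hp => ?_
  have h1 := (Nat.mem_divisorsAntidiagonal.mp hp).1
  rw [Mf_apply, L1f_apply]
  split_ifs with h2 h3
  · exfalso
    have := Nat.mul_le_mul h2 h3
    omega
  all_goals simp

/-- dyadic block of the tail of `Λ` -/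
noncomputable def blk (U i : ℕ) (m : ℕ) : ℂ := if Nat.log 2 m = i then L2f U m else 0

/-- the bilinear part of the majorant -/
noncomputable def G4 (x : ℝ) (U : ℕ) {q : ℕ} (χ : DirichletCharacter ℂ q) : ℝ :=
  ∑ i ∈ Finset.range (Nat.log 2 ⌊x⌋₊ + 1), Real.exp 1 * Real.log x / Real.pi *
    Gint (tw (blk U i) χ) (tw (fun n => (Hf U * (ζ : ArithmeticFunction ℂ)) n) χ)
      (2 ^ (i+1)) (⌊x⌋₊ / 2 ^ i) (Real.log x)⁻¹

lemma type_two {x : ℝ} (hx : 3 ≤ x) (U : ℕ) {q : ℕ} (χ : DirichletCharacter ℂ q) {y : ℝ}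
    (hy : 0 < y) (hyx : y ≤ x) :
    ‖∑ m ∈ Finset.Ioc 0 ⌊x⌋₊, L2f U m * χ m * ∑ k ∈ Finset.Ioc 0 (⌊x⌋₊ / m),
      (Hf U * (ζ : ArithmeticFunction ℂ)) k * χ k * (WR y (m * k) : ℂ)‖ ≤ G4 x U χ := by
  set N := ⌊x⌋₊ with hN
  have hlog := one_le_log hx
  have hσ : 0 < (Real.log x)⁻¹ := by positivity
  have hσ1 : (Real.log x)⁻¹ ≤ 1 := inv_le_one_of_one_le₀ hlog
  have hx0 : 0 < x := by linarith
  set B : ℕ → ℂ := fun n => (Hf U * (ζ : ArithmeticFunction ℂ)) n with hB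
  have hWz : ∀ j : ℕ, N < j → WR y j = 0 := by
    intro j hj
    refine WR_zero hy ?_
    have : x < j := (Nat.floor_lt hx0.le).mp (hN ▸ hj)
    linarith
  -- rewrite as sum of blocks
  have h1 : ∑ m ∈ Finset.Ioc 0 N, L2f U m * χ m * ∑ k ∈ Finset.Ioc 0 (N / m),
      B k * χ k * (WR y (m * k) : ℂ) =
      ∑ i ∈ Finset.range (Nat.log 2 N + 1), ∑ m ∈ Finset.Ioc 0 (2 ^ (i+1)),
        ∑ k ∈ Finset.Ioc 0 (N / 2 ^ i), tw (blk U i) χ m * tw B χ k *
          ((max (1 - (m * k : ℕ) / y) 0 : ℝ) : ℂ) := by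
    -- the block term as function
    set F : ℕ → ℂ := fun m => L2f U m * χ m * ∑ k ∈ Finset.Ioc 0 (N / m),
      B k * χ k * (WR y (m * k) : ℂ) with hF
    have h2 : ∑ m ∈ Finset.Ioc 0 N, F m = ∑ i ∈ Finset.range (Nat.log 2 N + 1),
        ∑ m ∈ (Finset.Ioc 0 N).filter (fun m => Nat.log 2 m = i), F m := by
      rw [Finset.sum_fiberwise_of_maps_to]
      intro m hm
      have := (Finset.mem_Ioc.mp hm).2
      exact Finset.mem_range.mpr (Nat.lt_succ_of_le (Nat.log_mono_right this))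
    rw [h2]
    refine Finset.sum_congr rfl fun i hi => ?_
    have h3 : ∑ m ∈ (Finset.Ioc 0 N).filter (fun m => Nat.log 2 m = i), F m =
        ∑ m ∈ (Finset.Ioc 0 (2 ^ (i+1))).filter (fun m => Nat.log 2 m = i), F m := by
      have hFz : ∀ m, N < m → F m = 0 := by
        intro m hm
        simp only [hF]
        rw [Nat.div_eq_of_lt hm]; simp
      have hA : ∀ m, Nat.log 2 m = i → 0 < m → m < 2 ^ (i+1) := by
        intro m hm h0
        rw [← hm]; exact Nat.lt_pow_succ_log_self (by norm_num) m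
      rw [← Finset.sum_subset (s₁ := ((Finset.Ioc 0 N) ∩ Finset.Ioc 0 (2 ^ (i+1))).filter
        (fun m => Nat.log 2 m = i)) (s₂ := (Finset.Ioc 0 N).filter (fun m => Nat.log 2 m = i)),
        ← Finset.sum_subset (s₁ := ((Finset.Ioc 0 N) ∩ Finset.Ioc 0 (2 ^ (i+1))).filter
        (fun m => Nat.log 2 m = i)) (s₂ := (Finset.Ioc 0 (2 ^ (i+1))).filter (fun m => Nat.log 2 m = i))]
      · exact Finset.filter_subset_filter _ Finset.inter_subset_right
      · intro m hm hm'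
        obtain ⟨hm1, hm2⟩ := Finset.mem_filter.mp hm
        refine hFz m ?_
        by_contra hcon
        refine hm' (Finset.mem_filter.mpr ⟨Finset.mem_inter.mpr ⟨?_, hm1⟩, hm2⟩)
        exact Finset.mem_Ioc.mpr ⟨(Finset.mem_Ioc.mp hm1).1, by omega⟩
      · exact Finset.filter_subset_filter _ Finset.inter_subset_left
      · intro m hm hm'
        obtain ⟨hm1, hm2⟩ := Finset.mem_filter.mp hm
        exfalso
        refine hm' (Finset.mem_filter.mpr ⟨Finset.mem_inter.mpr ⟨hm1, ?_⟩, hm2⟩)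
        have h0 := (Finset.mem_Ioc.mp hm1).1
        exact Finset.mem_Ioc.mpr ⟨h0, (hA m hm2 h0).le⟩
    rw [h3, Finset.sum_filter]
    refine Finset.sum_congr rfl fun m hm => ?_
    have hm0 := (Finset.mem_Ioc.mp hm).1
    by_cases hmi : Nat.log 2 m = i
    · rw [if_pos hmi]
      have hpow : 2 ^ i ≤ m := by rw [← hmi]; exact Nat.pow_log_le_self 2 hm0.ne'
      simp only [hF]
      rw [Finset.mul_sum]
      have hsub : Finset.Ioc 0 (N / m) ⊆ Finset.Ioc 0 (N / 2 ^ i) :=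
        Finset.Ioc_subset_Ioc_right (Nat.div_le_div_left hpow (by positivity))
      rw [← Finset.sum_subset hsub]
      · refine Finset.sum_congr rfl fun k _ => ?_
        unfold tw blk WR
        rw [if_pos hmi]; ring
      · intro k hk hk'
        have hk0 := (Finset.mem_Ioc.mp hk).1
        have h5 : N < m * k := by
          by_contra hcon
          refine hk' (Finset.mem_Ioc.mpr ⟨hk0, ?_⟩)
          rw [Nat.le_div_iff_mul_le hm0, mul_comm]; omega
        have h6 := hWz _ h5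
        unfold WR at h6
        rw [h6]; simp
    · rw [if_neg hmi]
      symm
      refine Finset.sum_eq_zero fun k _ => ?_
      unfold tw blk
      rw [if_neg hmi]; simp
  rw [h1]
  unfold G4
  refine (norm_sum_le _ _).trans (Finset.sum_le_sum fun i _ => ?_)
  refine (riesz_separate hσ hσ1 _ _ _ _ hy).trans ?_
  have h7 : y ^ (Real.log x)⁻¹ ≤ Real.exp 1 := by
    calc y ^ (Real.log x)⁻¹ ≤ x ^ (Real.log x)⁻¹ := Real.rpow_le_rpow hy.le hyx hσ.le
      _ = Real.exp 1 := by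
          rw [Real.rpow_def_of_pos hx0, mul_inv_cancel₀ (by linarith)]
  have h8 := Gint_nonneg (tw (blk U i) χ) (tw B χ) (2 ^ (i+1)) (N / 2 ^ i) (Real.log x)⁻¹
  have hpi := Real.pi_pos
  calc _ ≤ Real.exp 1 / (Real.pi * (Real.log x)⁻¹) *
        Gint (tw (blk U i) χ) (tw B χ) (2 ^ (i+1)) (N / 2 ^ i) (Real.log x)⁻¹ := by gcongr
    _ = _ := by
        congr 1
        field_simp

end Pool.Agent.ANT
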