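import Pool.Agent.Lib.ANT.BVRiesz

open Complex ArithmeticFunction
open scoped ArithmeticFunction.Moebius ArithmeticFunction.zeta

namespace Pool.Agent.ANT

open Classical in
/-- **Bombieri–Vinogradov for Riesz means.** -/
theorem riesz_bv (A : ℕ) : ∃ C : ℝ, 0 < C ∧ ∀ X : ℝ, 3 ≤ X → ∀ Q : ℕ, (Q:ℝ) ≤ √X →
    ∀ (y : ℕ → ℝ) (a : ℕ → ℕ), (∀ q, 0 < y q ∧ y q ≤ X) → (∀ q, (a q).Coprime q) →
    ∑ q ∈ Finset.Ioc 0 Q, |SAP X (y q) q (a q : ZMod q) - y q / (2 * q.totient)| ≤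
      C * (X / Real.log X ^ A + Q * √X * Real.log X ^ 8) := by
  obtain ⟨B, hB⟩ : ∃ B : ℕ, B = A + 8 := ⟨_, rfl⟩
  obtain ⟨m, hm⟩ : ∃ m : ℕ, m = A + 2 * B + 2 := ⟨_, rfl⟩
  obtain ⟨Cs, hCs, hsw⟩ := sw_sup m
  obtain ⟨Cp, hCp, hpnt⟩ := pnt_sup m
  obtain ⟨Cl, hCl, hlogp⟩ := log_pow_le_rpow (A + 8) (show (0:ℝ) < 1/20 by norm_num)
  refine ⟨4 * Cs + 200000 + 4 * Cp + 200000 * Cl, by positivity, fun X hX Q hQX y a hy ha => ?_⟩
  have hX0 : 0 < X := by linarith
  have hlog := one_le_log hX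
  set L := Real.log X with hL
  have hL0 : 0 < L := by linarith
  have hsq : √X * √X = X := Real.mul_self_sqrt hX0.le
  have hsq1 : 1 ≤ √X := Real.one_le_sqrt.mpr (by linarith)
  rcases Nat.eq_zero_or_pos Q with hQ0 | hQ1
  · subst hQ0
    simp only [Finset.Ioc_self, Finset.sum_empty]
    positivity
  have hQR : (1:ℝ) ≤ Q := by exact_mod_cast hQ1
  have hQX' : (Q:ℝ) ≤ X := hQX.trans (by nlinarith)
  set N := ⌊X⌋₊ with hN
  have hN0 : N ≠ 0 := by
    have : 1 ≤ N := Nat.le_floor (by push_cast; linarith)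
    omega
  have hNX : (N:ℝ) ≤ X := Nat.floor_le hX0.le
  have hlogN : Real.log N ≤ L :=
    Real.log_le_log (by exact_mod_cast Nat.pos_of_ne_zero hN0) hNX
  have hlogN0 : 0 ≤ Real.log N := Real.log_natCast_nonneg _
  set T : ℝ := L ^ B with hT
  have hT0 : 0 < T := by positivity
  set S : ℝ := Cs * X / L ^ m with hS
  have hS0 : 0 ≤ S := by positivity
  -- the parameter U
  set z : ℝ := X ^ (1/10 : ℝ) with hz
  have hz1 : 1 ≤ z := Real.one_le_rpow (by linarith) (by norm_num)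
  set U := ⌊z⌋₊ with hU
  have hU1 : 1 ≤ U := Nat.le_floor (by push_cast; exact hz1)
  have hUz : (U:ℝ) ≤ z := Nat.floor_le (by linarith)
  have hUR : (1:ℝ) ≤ U := by exact_mod_cast hU1
  have hUz2 : z / 2 ≤ U := by
    have := Nat.lt_floor_add_one z
    rw [← hU] at this
    linarith
  have hzX : z ≤ X := by
    calc z ≤ X ^ (1:ℝ) := Real.rpow_le_rpow_of_exponent_le (by linarith) (by norm_num)
      _ = X := Real.rpow_one X
  have hUX : (U:ℝ) ≤ X := hUz.trans hzX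
  -- pointwise bounds
  have hprim : ∀ (r : ℕ) [NeZero r] (χ : DirichletCharacter ℂ r), χ.IsPrimitive → 1 < r →
      ∀ y : ℝ, 0 < y → y ≤ X → ‖RM X y χ‖ ≤ Gp X T S U ⟨r, χ⟩ := by
    intro r _ χ hχ hr y hy0 hyX
    have hχ1 : χ ≠ 1 := by
      intro h
      have h1 := DirichletCharacter.eq_one_iff_conductor_eq_one.mp h
      rw [DirichletCharacter.isPrimitive_def] at hχ
      omega
    unfold Gp RM
    simp only
    split_ifs with hrT
    · have h1 := riesz_of_partial (f := fun n => (Λ n : ℂ) * χ n) hX0.le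
        (fun u hu => hsw r χ hχ1 X hX u hu) hy0
      refine h1.trans (le_of_eq ?_)
      rw [hS, hL]; ring
    · have hrR : (1:ℝ) ≤ r := by exact_mod_cast hr.le
      have hPV := polya_vinogradov hχ (by omega)
      have hP1 : 1 ≤ 2 * √(r:ℝ) * (1 + Real.log r) := by
        have h1 : 1 ≤ √(r:ℝ) := Real.one_le_sqrt.mpr hrR
        have h2 : 0 ≤ Real.log r := Real.log_nonneg hrR
        exact one_le_mul_of_one_le_of_one_le (by linarith) (by linarith)
      exact lambda_pointwise hX hU1 hUX χ hP1 hPV hy0 hyX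
  have hfac : ∀ q ∈ Finset.Ioc 0 Q, (q.primeFactors.card : ℝ) * Real.log N ≤ 2 * L ^ 2 := by
    intro q hq
    obtain ⟨hq0, hqQ⟩ := Finset.mem_Ioc.mp hq
    have h1 := card_primeFactors_le_log hq0.ne'
    have h2 : Real.log q ≤ L := Real.log_le_log (by exact_mod_cast hq0)
      (le_trans (by exact_mod_cast hqQ) hQX')
    calc (q.primeFactors.card : ℝ) * Real.log N ≤ (2 * L) * L := by
          have : (0:ℝ) ≤ q.primeFactors.card := Nat.cast_nonneg _
          gcongr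
          linarith
      _ = _ := by ring
  have hchar : ∀ q ∈ Finset.Ioc 0 Q, ∀ [NeZero q] (χ : DirichletCharacter ℂ q), χ ≠ 1 →
      ∀ y : ℝ, 0 < y → y ≤ X →
      ‖RM X y χ‖ ≤ Gp X T S U ⟨χ.conductor, χ.primitiveCharacter⟩ + 2 * L ^ 2 := by
    intro q hq _ χ hχ1 y hy0 hyX
    have h1 := prim_compare χ hN0 (w := WR y) (WR_nonneg y) (WR_le_one hy0)
    have h0 := DirichletCharacter.conductor_ne_zero χ
    have h2 : χ.conductor ≠ 1 := fun h => hχ1 (DirichletCharacter.eq_one_iff_conductor_eq_one.mpr h)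
    haveI : NeZero χ.conductor := ⟨h0⟩
    have h3 := hprim χ.conductor χ.primitiveCharacter χ.primitiveCharacter_isPrimitive
      (by omega) y hy0 hyX
    exact h1.trans (add_le_add h3 (hfac q hq))
  have hone : ∀ q ∈ Finset.Ioc 0 Q, ∀ [NeZero q], ∀ y : ℝ, 0 < y → y ≤ X →
      ‖RM X y (1 : DirichletCharacter ℂ q) - y / 2‖ ≤ Cp * X / L ^ m + 3 * L ^ 2 := by
    intro q hq _ y hy0 hyX
    have e1 : RM X y (1 : DirichletCharacter ℂ q) - y / 2 =
        (∑ n ∈ Finset.Ioc 0 N, ((Λ n : ℂ) - 1) * (WR y n : ℂ)) +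
        ((∑ n ∈ Finset.Ioc 0 N, WR y n - y / 2 : ℝ) : ℂ) -
        ∑ n ∈ (Finset.Ioc 0 N).filter (fun n => ¬ n.Coprime q), (Λ n : ℂ) * (WR y n : ℂ) := by
      have e2 : RM X y (1 : DirichletCharacter ℂ q) = ∑ n ∈ Finset.Ioc 0 N, (Λ n : ℂ) * (WR y n : ℂ) -
          ∑ n ∈ (Finset.Ioc 0 N).filter (fun n => ¬ n.Coprime q), (Λ n : ℂ) * (WR y n : ℂ) := by
        unfold RM
        rw [Finset.sum_filter, ← Finset.sum_sub_distrib]
        refine Finset.sum_congr rfl fun n _ => ?_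
        by_cases h : n.Coprime q
        · have : IsUnit (n : ZMod q) := (ZMod.isUnit_iff_coprime n q).mpr h
          rw [MulChar.one_apply this]
          simp [h]
        · have : ¬ IsUnit (n : ZMod q) := fun h' => h ((ZMod.isUnit_iff_coprime n q).mp h')
          rw [MulChar.map_nonunit _ this]
          simp [h]
      rw [e2]
      push_cast
      simp_rw [sub_mul, one_mul, Finset.sum_sub_distrib]
      ring
    rw [e1]
    have h1 := riesz_of_partial (f := fun n => (Λ n : ℂ) - 1) hX0.le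
      (fun u hu => hpnt X hX u hu) hy0
    have h2 := sum_WR hy0 hyX
    have h3 : ‖∑ n ∈ (Finset.Ioc 0 N).filter (fun n => ¬ n.Coprime q), (Λ n : ℂ) * (WR y n : ℂ)‖ ≤
        2 * L ^ 2 := by
      refine le_trans ?_ ((sum_vonMangoldt_not_coprime_le (NeZero.ne q) hN0).trans (hfac q hq))
      refine (norm_sum_le _ _).trans (Finset.sum_le_sum fun n _ => ?_)
      rw [norm_mul, Complex.norm_real, Complex.norm_real,
        Real.norm_of_nonneg vonMangoldt_nonneg, Real.norm_of_nonneg (WR_nonneg y n)]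
      have h3 : 0 ≤ Λ n := vonMangoldt_nonneg
      have h4 := WR_le_one hy0 n
      exact mul_le_of_le_one_right h3 h4
    have h4 : ‖((∑ n ∈ Finset.Ioc 0 N, WR y n - y / 2 : ℝ) : ℂ)‖ ≤ 1 := by
      rw [Complex.norm_real]; exact h2
    have h5 : 1 ≤ L ^ 2 := one_le_pow₀ hlog
    calc _ ≤ Cp * X / L ^ m + 1 + 2 * L ^ 2 :=
          (norm_sub_le _ _).trans (add_le_add ((norm_add_le _ _).trans (add_le_add h1 h4)) h3)
      _ ≤ _ := by linarith
  -- the function H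
  set H : ℕ → ℝ := fun r => if 1 < r then ∑ χ ∈ Prim r, Gp X T S U ⟨r, χ⟩ else 0 with hH
  have hH0 : ∀ r, 0 ≤ H r := by
    intro r
    simp only [hH]
    split_ifs
    · exact Finset.sum_nonneg fun χ _ => Gp_nonneg hX T hS0 U _
    · exact le_rfl
  have hpoint : ∀ q ∈ Finset.Ioc 0 Q, |SAP X (y q) q (a q : ZMod q) - y q / (2 * q.totient)| ≤
      (1:ℝ) / q.totient * ∑ r ∈ q.divisors, H r + 2 * L ^ 2 +
        1 / q.totient * (Cp * X / L ^ m + 3 * L ^ 2) := by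
    intro q hq
    obtain ⟨hq0, hqQ⟩ := Finset.mem_Ioc.mp hq
    haveI : NeZero q := ⟨hq0.ne'⟩
    have hφ : (0:ℝ) < q.totient := by exact_mod_cast Nat.totient_pos.mpr hq0
    have hau : IsUnit ((a q : ℕ) : ZMod q) := (ZMod.isUnit_iff_coprime _ _).mpr (ha q)
    refine (ap_decomp hau X (y q)).trans ?_
    have h1 : ∑ χ ∈ (Finset.univ : Finset (DirichletCharacter ℂ q)).filter (fun χ => χ ≠ 1),
        ‖RM X (y q) χ‖ ≤ ∑ r ∈ q.divisors, H r + q.totient * (2 * L ^ 2) := by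
      calc _ ≤ ∑ χ ∈ (Finset.univ : Finset (DirichletCharacter ℂ q)).filter (fun χ => χ ≠ 1),
            (Gp X T S U ⟨χ.conductor, χ.primitiveCharacter⟩ + 2 * L ^ 2) :=
            Finset.sum_le_sum fun χ hχ => hchar q hq χ (Finset.mem_filter.mp hχ).2 _ (hy q).1 (hy q).2
        _ = ∑ χ ∈ (Finset.univ : Finset (DirichletCharacter ℂ q)).filter (fun χ => χ ≠ 1),
            Gp X T S U ⟨χ.conductor, χ.primitiveCharacter⟩ +
            (((Finset.univ : Finset (DirichletCharacter ℂ q)).filter (fun χ => χ ≠ 1)).card : ℝ) *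
              (2 * L ^ 2) := by
            rw [Finset.sum_add_distrib, Finset.sum_const, nsmul_eq_mul]
        _ ≤ _ := by
            refine add_le_add (sum_prim_le _ (Gp_nonneg hX T hS0 U)) ?_
            have h2 : (((Finset.univ : Finset (DirichletCharacter ℂ q)).filter
                (fun χ => χ ≠ 1)).card : ℝ) ≤ q.totient := by
              have h := DirichletCharacter.card_eq_totient_of_hasEnoughRootsOfUnity ℂ q
              rw [Nat.card_eq_fintype_card] at h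
              rw [← h]
              exact_mod_cast Finset.card_le_univ _
            gcongr
    have h2 := hone q hq (y q) (hy q).1 (hy q).2
    calc _ ≤ 1 / (q.totient:ℝ) * ((∑ r ∈ q.divisors, H r + q.totient * (2 * L ^ 2)) +
          (Cp * X / L ^ m + 3 * L ^ 2)) := by gcongr
      _ = _ := by field_simp
  have hHsQ : Hs Q ≤ 2 * L := by
    refine (Hs_le Q).trans ?_
    have : Real.log Q ≤ L := Real.log_le_log (by linarith) hQX'
    linarith
  have hHs2 : Hs Q ^ 2 ≤ 4 * L ^ 2 := by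
    have := Hs_nonneg Q
    calc Hs Q ^ 2 ≤ (2 * L) ^ 2 := by gcongr
      _ = _ := by ring
  -- small moduli + large moduli
  have hHsum : ∑ r ∈ Finset.Ioc 0 Q, H r / r.totient ≤ S * T ^ 2 +
      6 * L * (8 * (U:ℝ) ^ 2 * (2 * √(2 * Q) * (1 + Real.log (2 * Q))) * L * Q +
        2592 * L ^ 5 * (X / T + X / √U + 2 * Q * √X)) := by
    have h1 := large_moduli hX hU1 hT0 hQ1 hQX
    have h2 : ∑ r ∈ Finset.Ioc 0 Q, (if (r:ℝ) ≤ T then S * T else 0) ≤ S * T ^ 2 := by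
      rw [← Finset.sum_filter, Finset.sum_const, nsmul_eq_mul]
      have h3 : (Finset.Ioc 0 Q).filter (fun r : ℕ => (r:ℝ) ≤ T) ⊆ Finset.Ioc 0 ⌊T⌋₊ := by
        intro r hr
        obtain ⟨hr1, hr2⟩ := Finset.mem_filter.mp hr
        exact Finset.mem_Ioc.mpr ⟨(Finset.mem_Ioc.mp hr1).1, Nat.le_floor hr2⟩
      have h4 : (((Finset.Ioc 0 Q).filter (fun r : ℕ => (r:ℝ) ≤ T)).card : ℝ) ≤ T := by
        calc _ ≤ ((Finset.Ioc 0 ⌊T⌋₊).card : ℝ) := by exact_mod_cast Finset.card_le_card h3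
          _ = (⌊T⌋₊ : ℝ) := by simp
          _ ≤ T := Nat.floor_le hT0.le
      calc _ ≤ T * (S * T) := by gcongr
        _ = _ := by ring
    refine le_trans ?_ (add_le_add h2 h1)
    rw [← Finset.sum_add_distrib]
    refine Finset.sum_le_sum fun r hr => ?_
    obtain ⟨hr0, hrQ⟩ := Finset.mem_Ioc.mp hr
    haveI : NeZero r := ⟨hr0.ne'⟩
    have hφ : (0:ℝ) < r.totient := by exact_mod_cast Nat.totient_pos.mpr hr0
    have hcard := card_Prim_le r
    have hnn : 0 ≤ (∑ χ ∈ Prim r, (4 * (U:ℝ) ^ 2 * (2 * √(r:ℝ) * (1 + Real.log r)) * L +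
        G4 X U χ)) / (r.totient : ℝ) := by
      refine div_nonneg (Finset.sum_nonneg fun χ _ => ?_) hφ.le
      have h3 : 0 ≤ Real.log (r:ℝ) := Real.log_natCast_nonneg _
      have := G4_nonneg hX U χ
      positivity
    by_cases hr1 : 1 < r
    · simp only [hH]
      rw [if_pos hr1]
      by_cases hrT : (r:ℝ) ≤ T
      · rw [if_pos hrT, if_neg (not_lt.mpr hrT), add_zero]
        have e1 : ∑ χ ∈ Prim r, Gp X T S U ⟨r, χ⟩ = (Prim r).card * (S * r) := by
          unfold Gp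
          simp only [hrT, if_true]
          rw [Finset.sum_const, nsmul_eq_mul]
        rw [e1, div_le_iff₀ hφ]
        calc ((Prim r).card : ℝ) * (S * r) ≤ r.totient * (S * T) := by gcongr
          _ = _ := by ring
      · rw [if_neg hrT, if_pos (not_le.mp hrT), zero_add]
        have e1 : ∑ χ ∈ Prim r, Gp X T S U ⟨r, χ⟩ = ∑ χ ∈ Prim r,
            (4 * (U:ℝ) ^ 2 * (2 * √(r:ℝ) * (1 + Real.log r)) * L + G4 X U χ) := by
          unfold Gp
          simp only [hrT, if_false]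
          rfl
        rw [e1]
    · simp only [hH]
      rw [if_neg hr1, zero_div]
      refine add_nonneg ?_ ?_
      · split_ifs <;> positivity
      · split_ifs
        · exact hnn
        · exact le_rfl
  -- the sum over q
  have hsum : ∑ q ∈ Finset.Ioc 0 Q, |SAP X (y q) q (a q : ZMod q) - y q / (2 * q.totient)| ≤
      4 * L ^ 2 * (S * T ^ 2 +
      6 * L * (8 * (U:ℝ) ^ 2 * (2 * √(2 * Q) * (1 + Real.log (2 * Q))) * L * Q +
        2592 * L ^ 5 * (X / T + X / √U + 2 * Q * √X))) + Q * (2 * L ^ 2) +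
      4 * L ^ 2 * (Cp * X / L ^ m + 3 * L ^ 2) := by
    calc _ ≤ ∑ q ∈ Finset.Ioc 0 Q, ((1:ℝ) / q.totient * ∑ r ∈ q.divisors, H r + 2 * L ^ 2 +
          1 / q.totient * (Cp * X / L ^ m + 3 * L ^ 2)) := Finset.sum_le_sum hpoint
      _ = ∑ q ∈ Finset.Ioc 0 Q, (1:ℝ) / q.totient * ∑ r ∈ q.divisors, H r + Q * (2 * L ^ 2) +
          (∑ q ∈ Finset.Ioc 0 Q, (1:ℝ) / q.totient) * (Cp * X / L ^ m + 3 * L ^ 2) := by
          rw [Finset.sum_add_distrib, Finset.sum_add_distrib, Finset.sum_mul, Finset.sum_const,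
            Nat.card_Ioc, nsmul_eq_mul, Nat.sub_zero]
      _ ≤ _ := by
          have h1 := sum_conductor_le H hH0 Q
          have h2 := sum_inv_totient_le Q
          have h3 : 0 ≤ ∑ r ∈ Finset.Ioc 0 Q, H r / (r.totient:ℝ) :=
            Finset.sum_nonneg fun r _ => div_nonneg (hH0 r) (Nat.cast_nonneg _)
          refine add_le_add (add_le_add ?_ le_rfl) ?_
          · refine h1.trans ?_
            exact mul_le_mul hHs2 hHsum h3 (by positivity)
          · exact mul_le_mul_of_nonneg_right (h2.trans hHs2) (by positivity)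
  refine hsum.trans ?_
  -- final estimates
  have hLA : 0 < L ^ A := by positivity
  have hX95 : L ^ 8 * X ^ (19/20 : ℝ) ≤ Cl * (X / L ^ A) := by
    rw [mul_div_assoc', le_div_iff₀ hLA]
    have h1 := hlogp X (by linarith)
    calc L ^ 8 * X ^ (19/20 : ℝ) * L ^ A = L ^ (A+8) * X ^ (19/20 : ℝ) := by ring
      _ ≤ Cl * X ^ (1/20 : ℝ) * X ^ (19/20 : ℝ) := by gcongr
      _ = Cl * X := by
          rw [mul_assoc, ← Real.rpow_add hX0]; norm_num
  have hX95_1 : 1 ≤ X ^ (19/20 : ℝ) := Real.one_le_rpow (by linarith) (by norm_num)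
  have t1 : 4 * L ^ 2 * (S * T ^ 2) = 4 * Cs * (X / L ^ A) := by
    rw [hS, hT, hm]
    have : L ^ (A + 2 * B + 2) = L ^ A * (L ^ B) ^ 2 * L ^ 2 := by ring
    rw [this]
    field_simp
  have t2 : 4 * L ^ 2 * (6 * L * (8 * (U:ℝ) ^ 2 * (2 * √(2 * Q) * (1 + Real.log (2 * Q))) * L * Q)) ≤
      2304 * (L ^ 8 * X ^ (19/20 : ℝ)) := by
    have h1 : (U:ℝ) ^ 2 ≤ X ^ (1/5 : ℝ) := by
      calc (U:ℝ) ^ 2 ≤ z ^ 2 := by gcongr
        _ = X ^ (1/5 : ℝ) := by
            rw [hz, ← Real.rpow_natCast, ← Real.rpow_mul hX0.le]; norm_num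
    have h2 : √(2 * (Q:ℝ)) ≤ 2 * X ^ (1/4 : ℝ) := by
      calc √(2 * (Q:ℝ)) ≤ √(4 * √X) := Real.sqrt_le_sqrt (by linarith)
        _ = 2 * X ^ (1/4 : ℝ) := by
            rw [Real.sqrt_mul (by norm_num), show (4:ℝ) = 2 ^ 2 by norm_num,
              Real.sqrt_sq (by norm_num), Real.sqrt_eq_rpow, Real.sqrt_eq_rpow,
              ← Real.rpow_mul hX0.le]
            norm_num
    have h3 : Real.log (2 * (Q:ℝ)) ≤ 2 * L := by
      have h4 : 2 * (Q:ℝ) ≤ X ^ 2 := by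
        rw [sq]
        exact mul_le_mul (by linarith) hQX' (by linarith) hX0.le
      have h5 := Real.log_le_log (by linarith) h4
      rw [Real.log_pow] at h5
      push_cast at h5; exact h5
    have h3' : 0 ≤ Real.log (2 * (Q:ℝ)) := Real.log_nonneg (by linarith)
    have h4 : (Q:ℝ) ≤ X ^ (1/2 : ℝ) := by rw [← Real.sqrt_eq_rpow]; exact hQX
    calc _ ≤ 4 * L ^ 2 * (6 * L * (8 * X ^ (1/5 : ℝ) * (2 * (2 * X ^ (1/4 : ℝ)) * (1 + 2 * L)) * L *
          X ^ (1/2 : ℝ))) := by gcongr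
      _ ≤ 4 * L ^ 2 * (6 * L * (8 * X ^ (1/5 : ℝ) * (2 * (2 * X ^ (1/4 : ℝ)) * (3 * L)) * L *
          X ^ (1/2 : ℝ))) := by gcongr; linarith
      _ = 2304 * L ^ 5 * (X ^ (1/5 : ℝ) * X ^ (1/4 : ℝ) * X ^ (1/2 : ℝ)) := by ring
      _ = 2304 * L ^ 5 * X ^ (19/20 : ℝ) := by
          rw [← Real.rpow_add hX0, ← Real.rpow_add hX0]; norm_num
      _ ≤ 2304 * L ^ 8 * X ^ (19/20 : ℝ) := by
          have : L ^ 5 ≤ L ^ 8 := pow_le_pow_right₀ hlog (by norm_num)
          gcongr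
      _ = _ := by ring
  have t3 : 4 * L ^ 2 * (6 * L * (2592 * L ^ 5 * (X / T))) = 62208 * (X / L ^ A) := by
    rw [hT, hB]
    have : L ^ (A + 8) = L ^ A * L ^ 8 := by ring
    rw [this]
    field_simp
    norm_num
  have t4 : 4 * L ^ 2 * (6 * L * (2592 * L ^ 5 * (X / √U))) ≤ 124416 * (L ^ 8 * X ^ (19/20 : ℝ)) := by
    have h1 : X ^ (1/20 : ℝ) / 2 ≤ √(U:ℝ) := by
      apply Real.le_sqrt_of_sq_le
      have h2 : (X ^ (1/20 : ℝ)) ^ 2 = z := by
        rw [hz, ← Real.rpow_natCast, ← Real.rpow_mul hX0.le]; norm_num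
      rw [div_pow, h2]; linarith
    have h2 : X / √(U:ℝ) ≤ 2 * X ^ (19/20 : ℝ) := by
      have h3 : 0 < X ^ (1/20 : ℝ) := by positivity
      have h4 : 0 < √(U:ℝ) := lt_of_lt_of_le (by positivity) h1
      rw [div_le_iff₀ h4]
      calc X = 2 * X ^ (19/20 : ℝ) * (X ^ (1/20 : ℝ) / 2) := by
            have : X ^ (19/20 : ℝ) * X ^ (1/20 : ℝ) = X := by
              rw [← Real.rpow_add hX0]; norm_num
            linear_combination -this
        _ ≤ _ := by gcongr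
    calc _ ≤ 4 * L ^ 2 * (6 * L * (2592 * L ^ 5 * (2 * X ^ (19/20 : ℝ)))) := by gcongr
      _ = _ := by ring
  have t5 : 4 * L ^ 2 * (6 * L * (2592 * L ^ 5 * (2 * Q * √X))) = 124416 * (Q * √X * L ^ 8) := by ring
  have t6 : (Q:ℝ) * (2 * L ^ 2) ≤ 2 * (Q * √X * L ^ 8) := by
    have h1 : L ^ 2 ≤ L ^ 8 := pow_le_pow_right₀ hlog (by norm_num)
    calc (Q:ℝ) * (2 * L ^ 2) = 2 * (Q * 1 * L ^ 2) := by ring
      _ ≤ 2 * (Q * √X * L ^ 8) := by gcongr
  have t7 : 4 * L ^ 2 * (Cp * X / L ^ m) ≤ 4 * Cp * (X / L ^ A) := by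
    have h1 : L ^ A * L ^ 2 ≤ L ^ m := by
      rw [← pow_add]; exact pow_le_pow_right₀ hlog (by omega)
    calc _ ≤ 4 * L ^ 2 * (Cp * X / (L ^ A * L ^ 2)) := by gcongr
      _ = _ := by field_simp
  have t8 : 4 * L ^ 2 * (3 * L ^ 2) ≤ 12 * (L ^ 8 * X ^ (19/20 : ℝ)) := by
    have h1 : L ^ 4 ≤ L ^ 8 := pow_le_pow_right₀ hlog (by norm_num)
    calc _ = 12 * (L ^ 4 * 1) := by ring
      _ ≤ 12 * (L ^ 8 * X ^ (19/20 : ℝ)) := by gcongr
  have hXA : 0 ≤ X / L ^ A := by positivity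
  have hQL : 0 ≤ Q * √X * L ^ 8 := by positivity
  have expand : 4 * L ^ 2 * (S * T ^ 2 +
      6 * L * (8 * (U:ℝ) ^ 2 * (2 * √(2 * Q) * (1 + Real.log (2 * Q))) * L * Q +
        2592 * L ^ 5 * (X / T + X / √U + 2 * Q * √X))) + Q * (2 * L ^ 2) +
      4 * L ^ 2 * (Cp * X / L ^ m + 3 * L ^ 2) =
      4 * L ^ 2 * (S * T ^ 2) +
      4 * L ^ 2 * (6 * L * (8 * (U:ℝ) ^ 2 * (2 * √(2 * Q) * (1 + Real.log (2 * Q))) * L * Q)) +
      4 * L ^ 2 * (6 * L * (2592 * L ^ 5 * (X / T))) +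
      4 * L ^ 2 * (6 * L * (2592 * L ^ 5 * (X / √U))) +
      4 * L ^ 2 * (6 * L * (2592 * L ^ 5 * (2 * Q * √X))) + Q * (2 * L ^ 2) +
      4 * L ^ 2 * (Cp * X / L ^ m) + 4 * L ^ 2 * (3 * L ^ 2) := by ring
  rw [expand, t1, t3, t5]
  have hCX : 0 ≤ Cl * (X / L ^ A) := by positivity
  calc _ ≤ 4 * Cs * (X / L ^ A) + 2304 * (Cl * (X / L ^ A)) + 62208 * (X / L ^ A) +
        124416 * (Cl * (X / L ^ A)) + 124416 * (Q * √X * L ^ 8) + 2 * (Q * √X * L ^ 8) +
        4 * Cp * (X / L ^ A) + 12 * (Cl * (X / L ^ A)) := by linarith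
    _ ≤ (4 * Cs + 200000 + 4 * Cp + 200000 * Cl) * (X / L ^ A) +
        200000 * (Q * √X * L ^ 8) := by
          have : (4 * Cs + 200000 + 4 * Cp + 200000 * Cl) * (X / L ^ A) =
            4 * Cs * (X / L ^ A) + 200000 * (X / L ^ A) + 4 * Cp * (X / L ^ A) +
            200000 * (Cl * (X / L ^ A)) := by ring
          rw [this]
          linarith
    _ ≤ _ := by
          have h1 : 200000 * (Q * √X * L ^ 8) ≤ (4 * Cs + 200000 + 4 * Cp + 200000 * Cl) *
              (Q * √X * L ^ 8) := by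
            have h2 : (200000:ℝ) ≤ 4 * Cs + 200000 + 4 * Cp + 200000 * Cl := by
              have : 0 ≤ 200000 * Cl := by positivity
              linarith
            exact mul_le_mul_of_nonneg_right h2 hQL
          rw [mul_add]
          linarith

end Pool.Agent.ANT
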