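import Pool.Agent.Lib.ANT.BVMean

open Complex ArithmeticFunction
open scoped ArithmeticFunction.Moebius ArithmeticFunction.zeta

namespace Pool.Agent.ANT

/-! ### Uniform bounds for all `u ≤ X` -/

/-- passing from a bound at `x ≥ 3` to a bound uniform in `u ≤ X`. -/
lemma sup_of_bound (m : ℕ) : ∃ C : ℝ, 0 < C ∧ ∀ (f : ℕ → ℂ) (B : ℝ), 1 ≤ B →
    (∀ u : ℕ, ‖∑ n ∈ Finset.Ioc 0 u, f n‖ ≤ 8 * u) →
    (∀ u : ℕ, 3 ≤ u → ‖∑ n ∈ Finset.Ioc 0 u, f n‖ ≤ B * u / Real.log u ^ m) →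
    ∀ X : ℝ, 3 ≤ X → ∀ u : ℕ, (u:ℝ) ≤ X →
      ‖∑ n ∈ Finset.Ioc 0 u, f n‖ ≤ C * B * X / Real.log X ^ m := by
  obtain ⟨L, hL, hlog⟩ := log_pow_le_rpow m (show (0:ℝ) < 1/2 by norm_num)
  refine ⟨16 * L + 2 ^ m, by positivity, fun f B hB h1 h2 X hX u hu => ?_⟩
  have hX0 : 0 < X := by linarith
  have hlogX := one_le_log hX
  have hsq : √X * √X = X := Real.mul_self_sqrt hX0.le
  have hsq1 : 1 ≤ √X := Real.one_le_sqrt.mpr (by linarith)
  have h0 : √X ≤ L * X / Real.log X ^ m := by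
    rw [le_div_iff₀ (by positivity)]
    have := hlog X (by linarith)
    rw [← Real.sqrt_eq_rpow] at this
    calc √X * Real.log X ^ m ≤ √X * (L * √X) := by gcongr
      _ = L * (√X * √X) := by ring
      _ = L * X := by rw [hsq]
  have hpos : 0 ≤ X / Real.log X ^ m := by positivity
  by_cases hc : (u:ℝ) ≤ 2 * √X
  · calc _ ≤ 8 * (u:ℝ) := h1 u
      _ ≤ 16 * √X := by linarith
      _ ≤ 16 * (L * X / Real.log X ^ m) := by gcongr
      _ = 16 * L * 1 * (X / Real.log X ^ m) := by ring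
      _ ≤ 16 * L * B * (X / Real.log X ^ m) := by gcongr
      _ ≤ (16 * L + 2 ^ m) * B * X / Real.log X ^ m := by
          have : 0 ≤ (2:ℝ) ^ m * B * (X / Real.log X ^ m) := by positivity
          calc _ ≤ 16 * L * B * (X / Real.log X ^ m) + 2 ^ m * B * (X / Real.log X ^ m) := by linarith
            _ = _ := by ring
  · push Not at hc
    have hu3 : 3 ≤ u := by
      have h3 : (3:ℝ) < u ^ 2 := by nlinarith
      by_contra hcon
      have h4 : √X < u := by linarith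
      have h5 : (1.7:ℝ) ≤ √X := by
        apply Real.le_sqrt_of_sq_le; norm_num; linarith
      have h6 : (u:ℝ) ≤ 2 := by exact_mod_cast (by omega : u ≤ 2)
      linarith
    have hu3' : (3:ℝ) ≤ u := by exact_mod_cast hu3
    have h3 : Real.log X / 2 ≤ Real.log u := by
      have h4 : √X ≤ u := by linarith
      have := Real.log_le_log (by linarith) h4
      rwa [Real.log_sqrt hX0.le] at this
    have h4 := h2 u hu3
    calc _ ≤ B * u / Real.log u ^ m := h4
      _ ≤ B * X / (Real.log X / 2) ^ m := by gcongr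
      _ = 2 ^ m * B * (X / Real.log X ^ m) := by rw [div_pow]; field_simp
      _ ≤ (16 * L + 2 ^ m) * B * X / Real.log X ^ m := by
          have : 0 ≤ 16 * L * B * (X / Real.log X ^ m) := by positivity
          calc _ ≤ 16 * L * B * (X / Real.log X ^ m) + 2 ^ m * B * (X / Real.log X ^ m) := by linarith
            _ = _ := by ring

lemma psi_nat_le (u : ℕ) : ∑ n ∈ Finset.Ioc 0 u, Λ n ≤ 6 * u := by
  have := sum_vonMangoldt_le (x := u) (by positivity)
  rwa [Nat.floor_natCast] at this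

lemma sw_sup (m : ℕ) : ∃ C : ℝ, 0 < C ∧ ∀ (q : ℕ) [NeZero q] (χ : DirichletCharacter ℂ q), χ ≠ 1 →
    ∀ X : ℝ, 3 ≤ X → ∀ u : ℕ, (u:ℝ) ≤ X →
      ‖∑ n ∈ Finset.Ioc 0 u, (Λ n : ℂ) * χ n‖ ≤ C * q * X / Real.log X ^ m := by
  obtain ⟨C1, hC1, h1⟩ := siegel_walfisz_lambda m (show (0:ℝ) < 1 by norm_num)
  obtain ⟨C2, hC2, h2⟩ := sup_of_bound m
  refine ⟨C2 * (C1 + 1), by positivity, fun q _ χ hχ X hX u hu => ?_⟩
  have hq : (1:ℝ) ≤ q := by exact_mod_cast Nat.pos_of_ne_zero (NeZero.ne q)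
  have h3 := h2 (fun n => (Λ n : ℂ) * χ n) ((C1 + 1) * q) (by nlinarith) (fun u => ?_) (fun u hu => ?_)
    X hX u hu
  · calc _ ≤ _ := h3
      _ = _ := by ring
  · calc _ ≤ ∑ n ∈ Finset.Ioc 0 u, Λ n := by
          refine (norm_sum_le _ _).trans (Finset.sum_le_sum fun n _ => ?_)
          rw [norm_mul, Complex.norm_real, Real.norm_of_nonneg vonMangoldt_nonneg]
          have := DirichletCharacter.norm_le_one χ (n : ZMod q)
          have h4 : 0 ≤ Λ n := vonMangoldt_nonneg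
          nlinarith
      _ ≤ 6 * u := psi_nat_le u
      _ ≤ 8 * u := by have : (0:ℝ) ≤ u := Nat.cast_nonneg _; linarith
  · have h4 := h1 q χ hχ u (by exact_mod_cast hu)
    rw [Nat.floor_natCast, Real.rpow_one] at h4
    have hu3 : (3:ℝ) ≤ u := by exact_mod_cast hu
    have h5 := one_le_log hu3
    calc ‖∑ n ∈ Finset.Ioc 0 u, (Λ n : ℂ) * χ n‖ = ‖∑ n ∈ Finset.Icc 1 u, χ n * (Λ n : ℂ)‖ := by
          congr 1
          exact Finset.sum_congr rfl fun n _ => mul_comm _ _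
      _ ≤ C1 * q * u / Real.log u ^ m := h4
      _ ≤ _ := by
          have : 0 ≤ Real.log u ^ m := by positivity
          gcongr
          linarith

lemma pnt_sup (m : ℕ) : ∃ C : ℝ, 0 < C ∧
    ∀ X : ℝ, 3 ≤ X → ∀ u : ℕ, (u:ℝ) ≤ X →
      ‖∑ n ∈ Finset.Ioc 0 u, ((Λ n : ℂ) - 1)‖ ≤ C * X / Real.log X ^ m := by
  obtain ⟨C1, hC1, h1⟩ := psi_pnt m
  obtain ⟨C2, hC2, h2⟩ := sup_of_bound m
  have e : ∀ u : ℕ, ‖∑ n ∈ Finset.Ioc 0 u, ((Λ n : ℂ) - 1)‖ = |∑ n ∈ Finset.Ioc 0 u, Λ n - u| := by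
    intro u
    rw [← Real.norm_eq_abs, ← Complex.norm_real]
    congr 1
    push_cast
    rw [Finset.sum_sub_distrib]
    simp
  refine ⟨C2 * (C1 + 1), by positivity, fun X hX u hu => ?_⟩
  have h3 := h2 (fun n => (Λ n : ℂ) - 1) (C1 + 1) (by linarith) (fun u => ?_) (fun u hu => ?_)
    X hX u hu
  · exact h3
  · rw [e]
    have h4 := psi_nat_le u
    have h5 : 0 ≤ ∑ n ∈ Finset.Ioc 0 u, Λ n := Finset.sum_nonneg fun _ _ => vonMangoldt_nonneg
    have : (0:ℝ) ≤ u := Nat.cast_nonneg _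
    rw [abs_le]; constructor <;> linarith
  · rw [e]
    have hu3 : (3:ℝ) ≤ u := by exact_mod_cast hu
    have h4 := h1 u hu3
    rw [Nat.floor_natCast] at h4
    have h5 := one_le_log hu3
    calc _ ≤ C1 * u / Real.log u ^ m := h4
      _ ≤ _ := by
          have : 0 ≤ Real.log u ^ m := by positivity
          gcongr
          linarith

/-- Riesz means inherit bounds of partial sums. -/
lemma riesz_of_partial {f : ℕ → ℂ} {X B : ℝ} (hX : 0 ≤ X)
    (h : ∀ u : ℕ, (u:ℝ) ≤ X → ‖∑ n ∈ Finset.Ioc 0 u, f n‖ ≤ B) {y : ℝ} (hy : 0 < y) :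
    ‖∑ n ∈ Finset.Ioc 0 ⌊X⌋₊, f n * (WR y n : ℂ)‖ ≤ B := by
  have hB0 : 0 ≤ B := (norm_nonneg _).trans (h 0 (by simpa using hX))
  have h1 := abel_Ioc (b := f) (w := fun n => WR y n) (X := ⌊X⌋₊) (B := B)
    (fun n _ => WR_nonneg _ _) (fun n _ => by simpa using WR_mul_antitone hy 1 n)
    (fun u hu => h u (le_trans (by exact_mod_cast hu) (Nat.floor_le hX)))
  refine h1.trans ?_
  calc B * WR y 1 ≤ B * 1 := by
        have := WR_le_one hy 1; gcongr
    _ = B := mul_one B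

/-- `∑ (1 - n/y)_+ = y/2 + O(1)`. -/
lemma sum_WR {X y : ℝ} (hy : 0 < y) (hyX : y ≤ X) :
    |∑ n ∈ Finset.Ioc 0 ⌊X⌋₊, WR y n - y / 2| ≤ 1 := by
  set M := ⌊y⌋₊ with hM
  have h1 : ∑ n ∈ Finset.Ioc 0 ⌊X⌋₊, WR y n = ∑ n ∈ Finset.Ioc 0 M, (1 - (n:ℝ) / y) := by
    rw [← Finset.sum_subset (Finset.Ioc_subset_Ioc_right (Nat.floor_le_floor hyX))]
    · refine Finset.sum_congr rfl fun n hn => ?_
      have h2 : (n:ℝ) ≤ y := (Nat.le_floor_iff hy.le).mp (Finset.mem_Ioc.mp hn).2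
      unfold WR
      refine max_eq_left ?_
      rw [sub_nonneg, div_le_one hy]; exact h2
    · intro n hn hn'
      obtain ⟨hn1, hn2⟩ := Finset.mem_Ioc.mp hn
      refine WR_zero hy ?_
      have : M < n := by
        by_contra hcon; exact hn' (Finset.mem_Ioc.mpr ⟨hn1, by omega⟩)
      exact ((Nat.floor_lt hy.le).mp this).le
  have h2 : ∀ K : ℕ, ∑ n ∈ Finset.Ioc 0 K, (1 - (n:ℝ) / y) = K - (K:ℝ) * (K+1) / (2 * y) := by
    intro K
    induction K with
    | zero => simp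
    | succ K ih =>
      rw [Finset.sum_Ioc_succ_top (Nat.zero_le K), ih]
      push_cast
      field_simp
      ring
  rw [h1, h2]
  have h3 : (M:ℝ) ≤ y := Nat.floor_le hy.le
  have h4 : y < M + 1 := Nat.lt_floor_add_one y
  have hM0 : (0:ℝ) ≤ M := Nat.cast_nonneg _
  have e : (M:ℝ) - (M:ℝ) * (M+1) / (2 * y) - y / 2 = - ((y - M) ^ 2 + M) / (2 * y) := by
    field_simp; ring
  rw [e, abs_div, abs_neg, abs_of_nonneg (by positivity), abs_of_pos (by positivity),
    div_le_one (by positivity)]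
  have : (y - M) ^ 2 ≤ (y - M) := by nlinarith
  linarith

/-! ### Totients -/

lemma le_tau_mul_totient (k : ℕ) : (k:ℝ) ≤ tauR k * k.totient := by
  rcases Nat.eq_zero_or_pos k with rfl | hk
  · simp [tauR]
  have h1 : k = ∑ d ∈ k.divisors, d.totient := (Nat.sum_totient k).symm
  have h2 : ∑ d ∈ k.divisors, d.totient ≤ ∑ _d ∈ k.divisors, k.totient := by
    refine Finset.sum_le_sum fun d hd => ?_
    exact Nat.le_of_dvd (Nat.totient_pos.mpr hk) (Nat.totient_dvd_of_dvd (Nat.dvd_of_mem_divisors hd))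
  rw [Finset.sum_const, smul_eq_mul] at h2
  unfold tauR
  calc (k:ℝ) = ((∑ d ∈ k.divisors, d.totient : ℕ) : ℝ) := by rw [← h1]
    _ ≤ ((k.divisors.card * k.totient : ℕ) : ℝ) := by exact_mod_cast h2
    _ = _ := by push_cast; ring

lemma sum_inv_totient_le (K : ℕ) : ∑ k ∈ Finset.Ioc 0 K, (1:ℝ) / k.totient ≤ Hs K ^ 2 := by
  refine le_trans (Finset.sum_le_sum fun k hk => ?_) (sum_tau_div_le K)
  have hk0 := (Finset.mem_Ioc.mp hk).1
  have h1 : (0:ℝ) < k.totient := by exact_mod_cast Nat.totient_pos.mpr hk0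
  have h2 : (0:ℝ) < k := by exact_mod_cast hk0
  rw [div_le_div_iff₀ h1 h2, one_mul]
  exact le_tau_mul_totient k

/-- Rearrangement of the sum over moduli according to conductors. -/
lemma sum_conductor_le (H : ℕ → ℝ) (hH : ∀ q, 0 ≤ H q) (Q : ℕ) :
    ∑ q ∈ Finset.Ioc 0 Q, (1:ℝ) / q.totient * ∑ r ∈ q.divisors, H r ≤
      Hs Q ^ 2 * ∑ r ∈ Finset.Ioc 0 Q, H r / r.totient := by
  have e1 : ∀ q ∈ Finset.Ioc 0 Q, (1:ℝ) / q.totient * ∑ r ∈ q.divisors, H r =
      ∑ p ∈ q.divisorsAntidiagonal, H p.1 / (p.1 * p.2).totient := by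
    intro q hq
    rw [Finset.mul_sum, Nat.sum_divisorsAntidiagonal (f := fun a b => H a / ((a * b : ℕ)).totient)]
    refine Finset.sum_congr rfl fun r hr => ?_
    rw [Nat.mul_div_cancel' (Nat.dvd_of_mem_divisors hr)]; ring
  rw [Finset.sum_congr rfl e1, sum_pairs' (fun a b => H a / ((a * b : ℕ)).totient) Q, Finset.mul_sum]
  refine Finset.sum_le_sum fun r hr => ?_
  have hr0 := (Finset.mem_Ioc.mp hr).1
  have hφr : (0:ℝ) < r.totient := by exact_mod_cast Nat.totient_pos.mpr hr0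
  calc ∑ k ∈ Finset.Ioc 0 (Q / r), H r / ((r * k : ℕ)).totient ≤
        ∑ k ∈ Finset.Ioc 0 (Q / r), H r / r.totient * (1 / k.totient) := by
        refine Finset.sum_le_sum fun k hk => ?_
        have hk0 := (Finset.mem_Ioc.mp hk).1
        have hφk : (0:ℝ) < k.totient := by exact_mod_cast Nat.totient_pos.mpr hk0
        rw [div_mul_div_comm, mul_one]
        have h1 : (r.totient : ℝ) * k.totient ≤ ((r * k : ℕ)).totient := by
          exact_mod_cast Nat.totient_super_multiplicative r k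
        have := hH r
        gcongr
    _ = H r / r.totient * ∑ k ∈ Finset.Ioc 0 (Q / r), (1:ℝ) / k.totient := by rw [Finset.mul_sum]
    _ ≤ H r / r.totient * Hs Q ^ 2 := by
        have h1 := sum_inv_totient_le (Q / r)
        have h2 : Hs (Q / r) ≤ Hs Q := Hs_mono (Nat.div_le_self _ _)
        have h3 := Hs_nonneg (Q / r)
        have h4 := hH r
        have h5 : Hs (Q / r) ^ 2 ≤ Hs Q ^ 2 := by gcongr
        gcongr
        exact h1.trans h5
    _ = _ := mul_comm _ _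

/-! ### Reduction to primitive characters -/

lemma prim_injective {q : ℕ} [NeZero q] : Function.Injective
    (fun χ : DirichletCharacter ℂ q =>
      (⟨χ.conductor, χ.primitiveCharacter⟩ : Σ r : ℕ, DirichletCharacter ℂ r)) := by
  have key : ∀ (x y : Σ r : ℕ, DirichletCharacter ℂ r) (hx : x.1 ∣ q) (hy : y.1 ∣ q), x = y →
      DirichletCharacter.changeLevel hx x.2 = DirichletCharacter.changeLevel hy y.2 := by
    intro x y hx hy h; subst h; rfl
  intro χ ψ h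
  have h1 := key _ _ χ.conductor_dvd_level ψ.conductor_dvd_level h
  simp only at h1
  rw [DirichletCharacter.changeLevel_primitiveCharacter,
    DirichletCharacter.changeLevel_primitiveCharacter] at h1
  exact h1

open Classical in
lemma sum_prim_le {q : ℕ} [NeZero q] (F : (Σ r : ℕ, DirichletCharacter ℂ r) → ℝ) (hF : ∀ x, 0 ≤ F x) :
    ∑ χ ∈ (Finset.univ : Finset (DirichletCharacter ℂ q)).filter (fun χ => χ ≠ 1),
      F ⟨χ.conductor, χ.primitiveCharacter⟩ ≤
    ∑ r ∈ q.divisors, if 1 < r then ∑ χ ∈ Prim r, F ⟨r, χ⟩ else 0 := by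
  rw [← Finset.sum_filter, Finset.sum_sigma' (f := fun r χ => F ⟨r, χ⟩)]
  rw [← Finset.sum_image (s := (Finset.univ : Finset (DirichletCharacter ℂ q)).filter (fun χ => χ ≠ 1))
    (g := fun χ => (⟨χ.conductor, χ.primitiveCharacter⟩ : Σ r : ℕ, DirichletCharacter ℂ r))
    (f := F) (fun a _ b _ h => prim_injective h)]
  refine Finset.sum_le_sum_of_subset_of_nonneg ?_ fun x _ _ => hF x
  intro x hx
  obtain ⟨χ, hχ, rfl⟩ := Finset.mem_image.mp hx
  have hχ1 := (Finset.mem_filter.mp hχ).2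
  refine Finset.mem_sigma.mpr ⟨Finset.mem_filter.mpr ⟨?_, ?_⟩, ?_⟩
  · exact Nat.mem_divisors.mpr ⟨χ.conductor_dvd_level, NeZero.ne q⟩
  · have h0 := DirichletCharacter.conductor_ne_zero χ
    have h1 : χ.conductor ≠ 1 := fun h => hχ1 (DirichletCharacter.eq_one_iff_conductor_eq_one.mpr h)
    show 1 < χ.conductor
    omega
  · exact mem_Prim.mpr χ.primitiveCharacter_isPrimitive

/-- Comparison of `χ` with the primitive character inducing it. -/
lemma prim_compare {q : ℕ} [NeZero q] (χ : DirichletCharacter ℂ q) {N : ℕ} (hN : N ≠ 0)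
    {w : ℕ → ℝ} (hw0 : ∀ n, 0 ≤ w n) (hw1 : ∀ n, w n ≤ 1) :
    ‖∑ n ∈ Finset.Ioc 0 N, (Λ n : ℂ) * χ n * (w n : ℂ)‖ ≤
      ‖∑ n ∈ Finset.Ioc 0 N, (Λ n : ℂ) * χ.primitiveCharacter n * (w n : ℂ)‖ +
        q.primeFactors.card * Real.log N := by
  have h1 : ∑ n ∈ Finset.Ioc 0 N, (Λ n : ℂ) * χ n * (w n : ℂ) =
      ∑ n ∈ Finset.Ioc 0 N, (Λ n : ℂ) * χ.primitiveCharacter n * (w n : ℂ) -
      ∑ n ∈ (Finset.Ioc 0 N).filter (fun n => ¬ n.Coprime q),
        (Λ n : ℂ) * χ.primitiveCharacter n * (w n : ℂ) := by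
    rw [Finset.sum_filter, ← Finset.sum_sub_distrib]
    refine Finset.sum_congr rfl fun n _ => ?_
    by_cases h : n.Coprime q
    · have h2 : IsCoprime ((n:ℕ):ℤ) (q:ℤ) := Nat.isCoprime_iff_coprime.mpr h
      have h3 := DirichletCharacter.primitiveCharacter_apply_of_isCoprime χ h2
      rw [Int.cast_natCast, Int.cast_natCast] at h3
      simp [h, h3]
    · have : ¬ IsUnit (n : ZMod q) := fun h' => h ((ZMod.isUnit_iff_coprime n q).mp h')
      rw [MulChar.map_nonunit _ this]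
      simp [h]
  rw [h1]
  refine (norm_sub_le _ _).trans (add_le_add le_rfl ?_)
  refine le_trans ?_ (sum_vonMangoldt_not_coprime_le (NeZero.ne q) hN)
  refine (norm_sum_le _ _).trans (Finset.sum_le_sum fun n _ => ?_)
  rw [norm_mul, norm_mul, Complex.norm_real, Complex.norm_real,
    Real.norm_of_nonneg vonMangoldt_nonneg, Real.norm_of_nonneg (hw0 n)]
  have h2 := DirichletCharacter.norm_le_one χ.primitiveCharacter (n : ZMod χ.conductor)
  have h3 : 0 ≤ Λ n := vonMangoldt_nonneg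
  have h4 := hw1 n
  have h5 := hw0 n
  calc Λ n * ‖χ.primitiveCharacter n‖ * w n ≤ Λ n * 1 * 1 := by gcongr
    _ = Λ n := by ring

end Pool.Agent.ANT
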