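import Pool.Agent.Lib.ANT.BVRed

open Complex ArithmeticFunction
open scoped ArithmeticFunction.Moebius ArithmeticFunction.zeta

namespace Pool.Agent.ANT

/-- Riesz mean of `Λ χ`. -/
noncomputable def RM (X y : ℝ) {q : ℕ} (χ : DirichletCharacter ℂ q) : ℂ :=
  ∑ n ∈ Finset.Ioc 0 ⌊X⌋₊, (Λ n : ℂ) * χ n * (WR y n : ℂ)

/-- Riesz mean in a progression. -/
noncomputable def SAP (X y : ℝ) (q : ℕ) (a : ZMod q) : ℝ :=
  ∑ n ∈ (Finset.Ioc 0 ⌊X⌋₊).filter (fun n : ℕ => (n : ZMod q) = a), Λ n * WR y n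

open Classical in
lemma ap_decomp {q : ℕ} [NeZero q] {a : ZMod q} (ha : IsUnit a) (X y : ℝ) :
    |SAP X y q a - y / (2 * q.totient)| ≤ (1:ℝ) / q.totient *
      (∑ χ ∈ (Finset.univ : Finset (DirichletCharacter ℂ q)).filter (fun χ => χ ≠ 1), ‖RM X y χ‖ +
        ‖RM X y (1 : DirichletCharacter ℂ q) - y / 2‖) := by
  have hφ : (0:ℝ) < q.totient := by
    exact_mod_cast Nat.totient_pos.mpr (Nat.pos_of_ne_zero (NeZero.ne q))
  have h1 : ∑ χ : DirichletCharacter ℂ q, χ a⁻¹ * RM X y χ = (q.totient : ℂ) * (SAP X y q a : ℂ) := by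
    unfold RM SAP
    simp only [Finset.mul_sum]
    rw [Finset.sum_comm]
    push_cast
    rw [Finset.sum_filter, Finset.mul_sum]
    refine Finset.sum_congr rfl fun n _ => ?_
    have h2 := DirichletCharacter.sum_char_inv_mul_char_eq ℂ ha (n : ZMod q)
    have h3 : ∑ χ : DirichletCharacter ℂ q, χ a⁻¹ * ((Λ n : ℂ) * χ n * (WR y n : ℂ)) =
        (Λ n : ℂ) * (WR y n : ℂ) * ∑ χ : DirichletCharacter ℂ q, χ a⁻¹ * χ n := by
      rw [Finset.mul_sum]
      refine Finset.sum_congr rfl fun χ _ => ?_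
      ring
    rw [h3, h2]
    by_cases h4 : (n : ZMod q) = a
    · rw [if_pos h4, if_pos h4.symm]; ring
    · rw [if_neg h4, if_neg (fun h => h4 h.symm)]; ring
  have h2 : ∑ χ : DirichletCharacter ℂ q, χ a⁻¹ * RM X y χ =
      ∑ χ ∈ (Finset.univ : Finset (DirichletCharacter ℂ q)).filter (fun χ => χ ≠ 1), χ a⁻¹ * RM X y χ +
      RM X y (1 : DirichletCharacter ℂ q) := by
    rw [← Finset.sum_filter_add_sum_filter_not (Finset.univ : Finset (DirichletCharacter ℂ q))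
      (fun χ => χ ≠ 1)]
    congr 1
    have h3 : (Finset.univ : Finset (DirichletCharacter ℂ q)).filter (fun χ => ¬ χ ≠ 1) = {1} := by
      ext χ; simp
    rw [h3, Finset.sum_singleton]
    have h4 : IsUnit (a⁻¹) := by
      obtain ⟨u, rfl⟩ := ha
      rw [ZMod.inv_coe_unit]
      exact Units.isUnit _
    rw [MulChar.one_apply h4, one_mul]
  have h3 : ((q.totient : ℝ) * (SAP X y q a - y / (2 * q.totient)) : ℝ) =
      q.totient * SAP X y q a - y / 2 := by field_simp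
  have h4 : (q.totient : ℝ) * |SAP X y q a - y / (2 * q.totient)| ≤
      ∑ χ ∈ (Finset.univ : Finset (DirichletCharacter ℂ q)).filter (fun χ => χ ≠ 1), ‖RM X y χ‖ +
        ‖RM X y (1 : DirichletCharacter ℂ q) - y / 2‖ := by
    rw [← abs_of_pos hφ, ← abs_mul, abs_of_pos hφ, h3, ← Real.norm_eq_abs, ← Complex.norm_real]
    push_cast
    rw [← h1, h2, add_sub_assoc]
    refine (norm_add_le _ _).trans (add_le_add ?_ le_rfl)
    refine (norm_sum_le _ _).trans (Finset.sum_le_sum fun χ _ => ?_)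
    rw [norm_mul]
    have := DirichletCharacter.norm_le_one χ a⁻¹
    calc _ ≤ 1 * ‖RM X y χ‖ := by gcongr
      _ = _ := one_mul _
  rw [one_div, ← div_eq_inv_mul, le_div_iff₀ hφ, mul_comm]
  exact h4

/-- The majorant on primitive characters. -/
noncomputable def Gp (X T S : ℝ) (U : ℕ) (x : Σ r : ℕ, DirichletCharacter ℂ r) : ℝ :=
  if (x.1 : ℝ) ≤ T then S * x.1 else
    4 * (U:ℝ) ^ 2 * (2 * √(x.1:ℝ) * (1 + Real.log x.1)) * Real.log X + G4 X U x.2

lemma G4_nonneg {X : ℝ} (hX : 3 ≤ X) (U : ℕ) {q : ℕ} (χ : DirichletCharacter ℂ q) : 0 ≤ G4 X U χ := by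
  unfold G4
  have := one_le_log hX
  have := Real.pi_pos
  refine Finset.sum_nonneg fun i _ => mul_nonneg (by positivity) (Gint_nonneg _ _ _ _ _)

lemma Gp_nonneg {X : ℝ} (hX : 3 ≤ X) (T : ℝ) {S : ℝ} (hS : 0 ≤ S) (U : ℕ)
    (x : Σ r : ℕ, DirichletCharacter ℂ r) : 0 ≤ Gp X T S U x := by
  unfold Gp
  have h1 := one_le_log hX
  have h2 := G4_nonneg hX U x.2
  split_ifs
  · positivity
  · have h3 : 0 ≤ Real.log (x.1:ℝ) := Real.log_natCast_nonneg _
    positivity

lemma card_Prim_le (q : ℕ) [NeZero q] : ((Prim q).card : ℝ) ≤ q.totient := by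
  have h := DirichletCharacter.card_eq_totient_of_hasEnoughRootsOfUnity ℂ q
  rw [Nat.card_eq_fintype_card] at h
  have h1 : (Prim q).card ≤ Fintype.card (DirichletCharacter ℂ q) := Finset.card_le_univ _
  rw [h] at h1
  exact_mod_cast h1

/-- number of dyadic blocks -/
lemma natLog_le {X : ℝ} (hX : 3 ≤ X) {N : ℕ} (hN1 : 1 ≤ N) (hNx : (N:ℝ) ≤ X) :
    ((Nat.log 2 N + 1 : ℕ) : ℝ) ≤ 3 * Real.log X := by
  have hlog := one_le_log hX
  have h1 : ((Nat.log 2 N : ℕ) : ℝ) ≤ Real.logb 2 N := Real.natLog_le_logb N 2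
  have h2 : Real.logb 2 N = Real.log N / Real.log 2 := rfl
  have h3 : Real.log N ≤ Real.log X := Real.log_le_log (by exact_mod_cast hN1) hNx
  have h4 : (0.69:ℝ) < Real.log 2 := by have := Real.log_two_gt_d9; linarith
  have h5 : Real.log N / Real.log 2 ≤ Real.log X / 0.69 := by
    have : 0 ≤ Real.log N := Real.log_nonneg (by exact_mod_cast hN1)
    gcongr
  push_cast
  have h6 : Real.log X / 0.69 ≤ 2 * Real.log X := by
    rw [div_le_iff₀ (by norm_num)]; nlinarith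
  linarith

/-- Large moduli: dyadic decomposition. -/
lemma large_moduli {X : ℝ} (hX : 3 ≤ X) {U : ℕ} (hU : 1 ≤ U) {T : ℝ} (hT : 0 < T) {Q : ℕ}
    (hQ1 : 1 ≤ Q) (hQX : (Q:ℝ) ≤ √X) :
    ∑ r ∈ Finset.Ioc 0 Q, (if T < r then
      (∑ χ ∈ Prim r, (4 * (U:ℝ) ^ 2 * (2 * √(r:ℝ) * (1 + Real.log r)) * Real.log X + G4 X U χ)) /
        (r.totient : ℝ) else (0:ℝ)) ≤
      6 * Real.log X * (8 * (U:ℝ) ^ 2 * (2 * √(2 * Q) * (1 + Real.log (2 * Q))) * Real.log X * Q +
        2592 * Real.log X ^ 5 * (X / T + X / √U + 2 * Q * √X)) := by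
  have hX0 : 0 < X := by linarith
  have hlog := one_le_log hX
  set L := Real.log X with hL
  have hQR : (1:ℝ) ≤ Q := by exact_mod_cast hQ1
  have hQX' : (Q:ℝ) ≤ X := by
    refine hQX.trans ?_
    rw [Real.sqrt_le_left hX0.le]
    nlinarith
  have hUR : (1:ℝ) ≤ U := by exact_mod_cast hU
  set P2 : ℝ := 2 * √(2 * Q) * (1 + Real.log (2 * Q)) with hP2
  have hlog2Q : 0 ≤ Real.log (2 * (Q:ℝ)) := Real.log_nonneg (by linarith)
  have hP20 : 0 ≤ P2 := by positivity
  set Z : ℝ := 8 * (U:ℝ) ^ 2 * P2 * L * Q + 2592 * L ^ 5 * (X / T + X / √U + 2 * Q * √X) with hZ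
  have hsU : 0 < √(U:ℝ) := Real.sqrt_pos.mpr (by linarith)
  have hZ0 : 0 ≤ Z := by positivity
  set F : ℕ → ℝ := fun r => if T < r then
      (∑ χ ∈ Prim r, (4 * (U:ℝ) ^ 2 * (2 * √(r:ℝ) * (1 + Real.log r)) * L + G4 X U χ)) /
        (r.totient : ℝ) else (0:ℝ) with hF
  have h2 : ∑ r ∈ Finset.Ioc 0 Q, F r = ∑ i ∈ Finset.range (Nat.log 2 Q + 1),
      ∑ r ∈ (Finset.Ioc 0 Q).filter (fun r => Nat.log 2 r = i), F r := by
    rw [Finset.sum_fiberwise_of_maps_to]
    intro m hm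
    have := (Finset.mem_Ioc.mp hm).2
    exact Finset.mem_range.mpr (Nat.lt_succ_of_le (Nat.log_mono_right this))
  have hblock : ∀ i ∈ Finset.range (Nat.log 2 Q + 1),
      ∑ r ∈ (Finset.Ioc 0 Q).filter (fun r => Nat.log 2 r = i), F r ≤ 2 * Z := by
    intro i hi
    have hi2 : i ≤ Nat.log 2 Q := Nat.lt_succ_iff.mp (Finset.mem_range.mp hi)
    have hpow : 2 ^ i ≤ Q := Nat.pow_le_of_le_log (by omega) hi2
    set Q' : ℕ := 2 ^ (i+1) with hQ'
    have hQ'R : (Q':ℝ) = 2 * 2 ^ i := by rw [hQ']; push_cast; ring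
    have hQ'2 : (Q':ℝ) ≤ 2 * Q := by
      rw [hQ'R]
      have : ((2 ^ i : ℕ) : ℝ) ≤ Q := by exact_mod_cast hpow
      push_cast at this; linarith
    have hQ'0 : (0:ℝ) < Q' := by rw [hQ'R]; positivity
    rcases le_or_gt (Q' : ℝ) T with hc | hc
    · -- empty block
      rw [Finset.sum_eq_zero]
      · positivity
      · intro r hr
        obtain ⟨hr1, hr2⟩ := Finset.mem_filter.mp hr
        have hr0 := (Finset.mem_Ioc.mp hr1).1
        have h3 : r < 2 ^ (i+1) := by rw [← hr2]; exact Nat.lt_pow_succ_log_self (by norm_num) r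
        have h4 : (r:ℝ) ≤ Q' := by rw [hQ']; exact_mod_cast h3.le
        simp only [hF]
        rw [if_neg (by linarith)]
    · have hsub : (Finset.Ioc 0 Q).filter (fun r => Nat.log 2 r = i) ⊆ Finset.Ioc 0 Q' := by
        intro r hr
        obtain ⟨hr1, hr2⟩ := Finset.mem_filter.mp hr
        have hr0 := (Finset.mem_Ioc.mp hr1).1
        have h3 : r < 2 ^ (i+1) := by rw [← hr2]; exact Nat.lt_pow_succ_log_self (by norm_num) r
        exact Finset.mem_Ioc.mpr ⟨hr0, h3.le⟩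
      set G : ℕ → ℝ := fun r => (r:ℝ) / r.totient * ∑ χ ∈ Prim r,
        (4 * (U:ℝ) ^ 2 * P2 * L + G4 X U χ) with hG
      have hG0 : ∀ r, 0 ≤ G r := by
        intro r
        simp only [hG]
        refine mul_nonneg (by positivity) (Finset.sum_nonneg fun χ _ => ?_)
        have := G4_nonneg hX U χ
        positivity
      have hFG : ∀ r ∈ (Finset.Ioc 0 Q).filter (fun r => Nat.log 2 r = i),
          F r ≤ (2 / Q') * G r := by
        intro r hr
        obtain ⟨hr1, hr2⟩ := Finset.mem_filter.mp hr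
        obtain ⟨hr0, hrQ⟩ := Finset.mem_Ioc.mp hr1
        have hrR : (1:ℝ) ≤ r := by exact_mod_cast hr0
        have hrQR : (r:ℝ) ≤ Q := by exact_mod_cast hrQ
        have hpr : (2:ℝ) ^ i ≤ r := by
          have : 2 ^ i ≤ r := by rw [← hr2]; exact Nat.pow_log_le_self 2 hr0.ne'
          exact_mod_cast this
        have hφ : (0:ℝ) < r.totient := by exact_mod_cast Nat.totient_pos.mpr hr0
        have h5 : 0 ≤ (2 / Q') * G r := by have := hG0 r; positivity
        simp only [hF]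
        split_ifs with hTr
        · have h6 : ∑ χ ∈ Prim r, (4 * (U:ℝ) ^ 2 * (2 * √(r:ℝ) * (1 + Real.log r)) * L + G4 X U χ) ≤
              ∑ χ ∈ Prim r, (4 * (U:ℝ) ^ 2 * P2 * L + G4 X U χ) := by
            refine Finset.sum_le_sum fun χ _ => ?_
            have h7 : 2 * √(r:ℝ) * (1 + Real.log r) ≤ P2 := by
              rw [hP2]
              have h8 : √(r:ℝ) ≤ √(2 * Q) := Real.sqrt_le_sqrt (by linarith)
              have h9 : Real.log r ≤ Real.log (2 * Q) := Real.log_le_log (by linarith) (by linarith)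
              have h10 : 0 ≤ Real.log r := Real.log_nonneg hrR
              gcongr
            gcongr
          have h7 : 0 ≤ ∑ χ ∈ Prim r, (4 * (U:ℝ) ^ 2 * P2 * L + G4 X U χ) :=
            Finset.sum_nonneg fun χ _ => by have := G4_nonneg hX U χ; positivity
          calc _ ≤ (∑ χ ∈ Prim r, (4 * (U:ℝ) ^ 2 * P2 * L + G4 X U χ)) / (r.totient:ℝ) := by gcongr
            _ = 1 * ((∑ χ ∈ Prim r, (4 * (U:ℝ) ^ 2 * P2 * L + G4 X U χ)) / (r.totient:ℝ)) := by ring
            _ ≤ (2 / (Q':ℝ) * (r:ℝ)) * ((∑ χ ∈ Prim r, (4 * (U:ℝ) ^ 2 * P2 * L + G4 X U χ)) /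
                  (r.totient:ℝ)) := by
                have h8 : 1 ≤ 2 / Q' * (r:ℝ) := by
                  rw [div_mul_eq_mul_div, le_div_iff₀ hQ'0, hQ'R]; linarith
                gcongr
            _ = _ := by simp only [hG]; ring
        · exact h5
      have hGsum : ∑ r ∈ Finset.Ioc 0 Q', G r ≤ 4 * (U:ℝ) ^ 2 * P2 * L * (Q':ℝ) ^ 2 +
          2592 * L ^ 5 * (X + Q' * X / √U + (Q':ℝ) ^ 2 * √X) := by
        have e1 : ∑ r ∈ Finset.Ioc 0 Q', G r =
            ∑ r ∈ Finset.Ioc 0 Q', (r:ℝ) / r.totient * ((Prim r).card * (4 * (U:ℝ) ^ 2 * P2 * L)) +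
            ∑ r ∈ Finset.Ioc 0 Q', (r:ℝ) / r.totient * ∑ χ ∈ Prim r, G4 X U χ := by
          rw [← Finset.sum_add_distrib]
          refine Finset.sum_congr rfl fun r _ => ?_
          simp only [hG]
          rw [Finset.sum_add_distrib, Finset.sum_const, nsmul_eq_mul]; ring
        rw [e1]
        refine add_le_add ?_ (G4_mean hX hU Q')
        calc _ ≤ ∑ r ∈ Finset.Ioc 0 Q', (Q':ℝ) * (4 * (U:ℝ) ^ 2 * P2 * L) := by
              refine Finset.sum_le_sum fun r hr => ?_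
              obtain ⟨hr0, hrQ⟩ := Finset.mem_Ioc.mp hr
              haveI : NeZero r := ⟨hr0.ne'⟩
              have hφ : (0:ℝ) < r.totient := by exact_mod_cast Nat.totient_pos.mpr hr0
              have h1 := card_Prim_le r
              have h3 : (r:ℝ) ≤ Q' := by exact_mod_cast hrQ
              calc (r:ℝ) / r.totient * ((Prim r).card * (4 * (U:ℝ) ^ 2 * P2 * L)) ≤
                    (r:ℝ) / r.totient * (r.totient * (4 * (U:ℝ) ^ 2 * P2 * L)) := by gcongr
                _ = r * (4 * (U:ℝ) ^ 2 * P2 * L) := by field_simp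
                _ ≤ _ := by gcongr
          _ = _ := by
              rw [Finset.sum_const, Nat.card_Ioc, nsmul_eq_mul, Nat.sub_zero]; ring
      calc _ ≤ ∑ r ∈ (Finset.Ioc 0 Q).filter (fun r => Nat.log 2 r = i), (2 / Q') * G r :=
            Finset.sum_le_sum hFG
        _ ≤ ∑ r ∈ Finset.Ioc 0 Q', (2 / Q') * G r :=
            Finset.sum_le_sum_of_subset_of_nonneg hsub fun r _ _ => by
              have := hG0 r; positivity
        _ = (2 / Q') * ∑ r ∈ Finset.Ioc 0 Q', G r := by rw [Finset.mul_sum]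
        _ ≤ (2 / Q') * (4 * (U:ℝ) ^ 2 * P2 * L * (Q':ℝ) ^ 2 +
          2592 * L ^ 5 * (X + Q' * X / √U + (Q':ℝ) ^ 2 * √X)) := by gcongr
        _ = 2 * (4 * (U:ℝ) ^ 2 * P2 * L * (Q':ℝ) +
          2592 * L ^ 5 * (X / Q' + X / √U + (Q':ℝ) * √X)) := by field_simp
        _ ≤ 2 * Z := by
            have h5 : X / Q' ≤ X / T := by gcongr
            have h6 : 4 * (U:ℝ) ^ 2 * P2 * L * (Q':ℝ) ≤ 8 * (U:ℝ) ^ 2 * P2 * L * Q := by
              calc _ ≤ 4 * (U:ℝ) ^ 2 * P2 * L * (2 * Q) := by gcongr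
                _ = _ := by ring
            rw [hZ]
            gcongr
  change ∑ r ∈ Finset.Ioc 0 Q, F r ≤ 6 * L * Z
  rw [h2]
  calc _ ≤ ∑ i ∈ Finset.range (Nat.log 2 Q + 1), 2 * Z := Finset.sum_le_sum hblock
    _ = ((Nat.log 2 Q + 1 : ℕ) : ℝ) * (2 * Z) := by
        rw [Finset.sum_const, Finset.card_range, nsmul_eq_mul]
    _ ≤ (3 * L) * (2 * Z) := by
        have := natLog_le hX hQ1 hQX'
        gcongr
    _ = _ := by ring

end Pool.Agent.ANT
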