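import Mathlib

open Complex MeasureTheory Set Filter Asymptotics Topology

namespace Pool.Agent.ANT

/-- The Riesz weight. -/
noncomputable def rieszF (y : ℝ) : ℂ :=
  indicator (Ioc (0:ℝ) 1) (fun _ => (1:ℂ)) y - indicator (Ioc (0:ℝ) 1) (fun t : ℝ => (t:ℂ) ^ (1:ℂ)) y

lemma rieszF_eq {y : ℝ} (hy : 0 < y) : rieszF y = ((max (1 - y) 0 : ℝ) : ℂ) := by
  unfold rieszF
  by_cases h : y ≤ 1
  · rw [indicator_of_mem (show y ∈ Ioc (0:ℝ) 1 from ⟨hy, h⟩),
      indicator_of_mem (show y ∈ Ioc (0:ℝ) 1 from ⟨hy, h⟩), cpow_one, max_eq_left (by linarith)]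
    push_cast; ring
  · rw [indicator_of_notMem (fun h' => h h'.2), indicator_of_notMem (fun h' => h h'.2),
      max_eq_right (by linarith)]
    simp

/-- Its Mellin transform. -/
noncomputable def rieszM (s : ℂ) : ℂ := 1 / s - 1 / (s + 1)

lemma hasMellin_rieszF {s : ℂ} (hs : 0 < s.re) : HasMellin rieszF s (rieszM s) := by
  have h1 := hasMellin_one_Ioc hs
  have h2 := hasMellin_cpow_Ioc 1 (s := s) (by simp; linarith)
  have := hasMellin_sub h1.1 h2.1
  rw [h1.2, h2.2] at this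
  exact this

lemma norm_rieszM_le {σ : ℝ} (hσ : 1 ≤ σ) (t : ℝ) :
    ‖rieszM (σ + t * I)‖ ≤ (1 + t ^ 2)⁻¹ := by
  set s : ℂ := σ + t * I with hs
  have hre : s.re = σ := by simp [hs]
  have him : s.im = t := by simp [hs]
  have hs0 : s ≠ 0 := by
    intro h
    have := congrArg Complex.re h
    rw [hre, zero_re] at this
    linarith
  have hs1 : s + 1 ≠ 0 := by
    intro h
    have := congrArg Complex.re h
    rw [add_re, hre, one_re, zero_re] at this
    linarith
  have e : rieszM s = 1 / (s * (s + 1)) := by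
    unfold rieszM; field_simp; ring
  rw [e, norm_div, norm_one, norm_mul, one_div]
  have h1 : 1 + t ^ 2 ≤ ‖s‖ ^ 2 := by
    rw [Complex.sq_norm, Complex.normSq_apply, hre, him]; nlinarith
  have hre1 : (s + 1).re = σ + 1 := by simp [hs]
  have him1 : (s + 1).im = t := by simp [hs]
  have h2 : ‖s‖ ^ 2 ≤ ‖s + 1‖ ^ 2 := by
    rw [Complex.sq_norm, Complex.sq_norm, Complex.normSq_apply, Complex.normSq_apply, hre1, him1,
      hre, him]; nlinarith
  have h3 : ‖s‖ ≤ ‖s + 1‖ := by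
    exact le_of_pow_le_pow_left₀ two_ne_zero (norm_nonneg _) h2
  have h4 : 1 + t ^ 2 ≤ ‖s‖ * ‖s + 1‖ := by
    calc 1 + t ^ 2 ≤ ‖s‖ ^ 2 := h1
      _ = ‖s‖ * ‖s‖ := sq _
      _ ≤ ‖s‖ * ‖s + 1‖ := by gcongr
  exact inv_anti₀ (by positivity) h4

lemma continuous_vert (σ : ℝ) : Continuous (fun t : ℝ => ((σ:ℂ) + t * I)) := by fun_prop

lemma vert_ne {σ : ℝ} (hσ : 1 ≤ σ) (t : ℝ) : ((σ:ℂ) + t * I) ≠ 0 ∧ ((σ:ℂ) + t * I) + 1 ≠ 0 := by
  constructor
  · intro h
    have := congrArg Complex.re h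
    simp at this
    linarith
  · intro h
    have := congrArg Complex.re h
    simp at this
    linarith

lemma continuous_rieszM {σ : ℝ} (hσ : 1 ≤ σ) : Continuous (fun t : ℝ => rieszM (σ + t * I)) := by
  unfold rieszM
  refine Continuous.sub ?_ ?_
  · exact continuous_const.div (continuous_vert σ) (fun t => (vert_ne hσ t).1)
  · exact continuous_const.div ((continuous_vert σ).add continuous_const) (fun t => (vert_ne hσ t).2)

lemma integrable_rieszM {σ : ℝ} (hσ : 1 ≤ σ) : Integrable (fun t : ℝ => rieszM (σ + t * I)) := by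
  refine Integrable.mono' integrable_inv_one_add_sq (continuous_rieszM hσ).aestronglyMeasurable ?_
  exact Eventually.of_forall fun t => norm_rieszM_le hσ t

lemma riesz_inversion {σ : ℝ} (hσ : 1 ≤ σ) {y : ℝ} (hy : 0 < y) :
    (1 / (2 * Real.pi)) • ∫ t : ℝ, (y : ℂ) ^ (-(σ + t * I)) * rieszM (σ + t * I) =
      ((max (1 - y) 0 : ℝ) : ℂ) := by
  have hmel : ∀ t : ℝ, mellin rieszF (σ + t * I) = rieszM (σ + t * I) := fun t =>
    (hasMellin_rieszF (by simp; linarith)).2
  have hconv : MellinConvergent rieszF σ := (hasMellin_rieszF (by simp; linarith)).1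
  have hvert : VerticalIntegrable (mellin rieszF) σ := by
    unfold VerticalIntegrable
    simp only [hmel]
    exact integrable_rieszM hσ
  have hcont : ContinuousAt rieszF y := by
    have h1 : ContinuousAt (fun y : ℝ => ((max (1 - y) 0 : ℝ) : ℂ)) y := by fun_prop
    refine h1.congr ?_
    filter_upwards [eventually_gt_nhds hy] with z hz
    exact (rieszF_eq hz).symm
  have h := mellinInv_mellin_eq σ rieszF hy hconv hvert hcont
  rw [rieszF_eq hy] at h
  rw [← h]
  unfold mellinInv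
  simp only [hmel, smul_eq_mul]

/-- absolute constant -/
noncomputable def Kr : ℝ := ∫ t : ℝ, ((1:ℝ) + t ^ 2) ^ (-(3/4) : ℝ)

lemma integrable_Kr : Integrable (fun t : ℝ => ((1:ℝ) + t ^ 2) ^ (-(3/4) : ℝ)) := by
  have := integrable_rpow_neg_one_add_norm_sq (E := ℝ) (μ := volume) (r := 3/2) (by simp; norm_num)
  refine this.congr (Eventually.of_forall fun t => ?_)
  simp only [Real.norm_eq_abs, sq_abs]
  congr 1
  norm_num

lemma Kr_nonneg : 0 ≤ Kr := integral_nonneg fun t => by positivity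

lemma term_mul_eq {a : ℕ → ℂ} {n : ℕ} (hn : n ≠ 0) {x : ℝ} (hx : 0 < x) (s : ℂ) :
    LSeries.term a s n * (x:ℂ) ^ s = a n * (((n / x : ℝ)) : ℂ) ^ (-s) := by
  rw [LSeries.term_of_ne_zero hn]
  have hn0 : (0:ℝ) < n := by exact_mod_cast Nat.pos_of_ne_zero hn
  have hx' : (x:ℂ) ≠ 0 := by exact_mod_cast hx.ne'
  have hn' : (n:ℂ) ≠ 0 := by exact_mod_cast hn
  have hnx : (((n / x : ℝ)) : ℂ) ≠ 0 := by
    have : (n / x : ℝ) ≠ 0 := by positivity
    exact_mod_cast this
  rw [cpow_def_of_ne_zero hn', cpow_def_of_ne_zero hx', cpow_def_of_ne_zero hnx]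
  have e1 : Complex.log ((n / x : ℝ) : ℂ) = ((Real.log n - Real.log x : ℝ) : ℂ) := by
    rw [← Complex.ofReal_log (by positivity), Real.log_div hn0.ne' hx.ne']
  have e2 : Complex.log (n:ℂ) = ((Real.log n : ℝ) : ℂ) := by
    rw [← Complex.ofReal_natCast, ← Complex.ofReal_log hn0.le]
  have e3 : Complex.log (x:ℂ) = ((Real.log x : ℝ) : ℂ) := by
    rw [← Complex.ofReal_log hx.le]
  rw [e1, e2, e3, div_mul_eq_mul_div, mul_div_assoc, ← Complex.exp_sub]
  congr 2
  push_cast
  ring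

/-- **Riesz mean bound via Perron**. -/
theorem riesz_bound {a : ℕ → ℂ} {σ B x : ℝ} (hσ : 1 ≤ σ) (hx : 0 < x)
    (hsum : LSeriesSummable a (σ:ℂ))
    (hB : ∀ t : ℝ, ‖LSeries a (σ + t * I)‖ ≤ B * (1 + t ^ 2) ^ (1/4 : ℝ)) :
    ‖∑ n ∈ Finset.Icc 1 ⌊x⌋₊, a n * ((1 - n / x : ℝ) : ℂ)‖ ≤ Kr * B * x ^ σ := by
  set F : ℕ → ℝ → ℂ := fun n t => LSeries.term a (σ + t * I) n * (x:ℂ) ^ ((σ:ℂ) + t * I) *
    rieszM (σ + t * I) with hF
  have hnorm : ∀ n t, ‖F n t‖ = ‖LSeries.term a σ n‖ * x ^ σ * ‖rieszM (σ + t * I)‖ := by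
    intro n t
    rw [hF]
    simp only [norm_mul]
    congr 2
    · rw [LSeries.norm_term_eq, LSeries.norm_term_eq]
      simp
    · rw [Complex.norm_cpow_eq_rpow_re_of_pos hx]
      simp
  have hmeas : ∀ n, Continuous (F n) := by
    intro n
    rw [hF]
    refine Continuous.mul (Continuous.mul ?_ ?_) (continuous_rieszM hσ)
    · rcases eq_or_ne n 0 with rfl | hn
      · simp only [LSeries.term_zero]; exact continuous_const
      · have hn' : (n:ℂ) ≠ 0 := by exact_mod_cast hn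
        have : (fun t : ℝ => LSeries.term a (σ + t * I) n) =
            fun t : ℝ => a n * (n:ℂ) ^ (-((σ:ℂ) + t * I)) := by
          ext t
          rw [LSeries.term_of_ne_zero hn, cpow_neg, div_eq_mul_inv]
        rw [this]
        refine continuous_const.mul ?_
        exact Continuous.const_cpow (continuous_vert σ).neg (Or.inl hn')
    · exact Continuous.const_cpow (continuous_vert σ) (Or.inl (by exact_mod_cast hx.ne'))
  have hint : ∀ n, Integrable (F n) := by
    intro n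
    have h1 : Integrable (fun t : ℝ => ‖LSeries.term a σ n‖ * x ^ σ * ‖rieszM (σ + t * I)‖) :=
      (integrable_rieszM hσ).norm.const_mul _
    refine h1.mono' (hmeas n).aestronglyMeasurable (Eventually.of_forall fun t => ?_)
    exact (hnorm n t).le
  have hsumm : Summable fun n => ∫ t, ‖F n t‖ := by
    have : (fun n => ∫ t, ‖F n t‖) = fun n => ‖LSeries.term a σ n‖ *
        (x ^ σ * ∫ t : ℝ, ‖rieszM (σ + t * I)‖) := by
      ext n
      simp only [hnorm]
      rw [integral_const_mul]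
      ring
    rw [this]
    exact hsum.norm.mul_right _
  have hmain := hasSum_integral_of_summable_integral_norm hint hsumm
  have hterm : ∀ n, ∫ t, F n t = if n = 0 then 0 else
      (2 * Real.pi : ℝ) * (a n * ((max (1 - n / x) 0 : ℝ) : ℂ)) := by
    intro n
    rcases eq_or_ne n 0 with rfl | hn
    · simp [hF]
    · rw [if_neg hn]
      have hnx : (0:ℝ) < n / x := by
        have : (0:ℝ) < n := by exact_mod_cast Nat.pos_of_ne_zero hn
        positivity
      rw [← riesz_inversion hσ hnx]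
      have : ∀ t, F n t = a n * ((((n / x : ℝ)) : ℂ) ^ (-((σ:ℂ) + t * I)) * rieszM (σ + t * I)) := by
        intro t
        rw [hF]
        simp only
        rw [term_mul_eq hn hx]; ring
      simp only [this]
      rw [integral_const_mul]
      rw [real_smul]
      have hpi : ((2 * Real.pi : ℝ) : ℂ) * ((1 / (2 * Real.pi) : ℝ) : ℂ) = 1 := by
        rw [← ofReal_mul]
        have : 2 * Real.pi * (1 / (2 * Real.pi)) = 1 := by
          have := Real.pi_pos
          field_simp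
        rw [this]; simp
      linear_combination (-(a n * ∫ t : ℝ, (((n / x : ℝ)) : ℂ) ^ (-((σ:ℂ) + t * I)) *
        rieszM (σ + t * I))) * hpi
  -- the tsum is a finite sum
  have hfin : ∑' n, (∫ t, F n t) =
      (2 * Real.pi : ℝ) * ∑ n ∈ Finset.Icc 1 ⌊x⌋₊, a n * ((1 - n / x : ℝ) : ℂ) := by
    rw [tsum_eq_sum (s := Finset.Icc 1 ⌊x⌋₊)]
    · rw [Finset.mul_sum]
      refine Finset.sum_congr rfl fun n hn => ?_
      have h1 := (Finset.mem_Icc.mp hn).1
      have h2 := (Finset.mem_Icc.mp hn).2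
      rw [hterm, if_neg (by omega), max_eq_left]
      have : (n:ℝ) ≤ x := (Nat.le_floor_iff hx.le).mp h2
      rw [sub_nonneg, div_le_one hx]
      exact this
    · intro n hn
      rw [hterm]
      split_ifs with h0
      · rfl
      · have : ¬ (n ≤ ⌊x⌋₊) := fun h => hn (Finset.mem_Icc.mpr ⟨by omega, h⟩)
        have h1 : x < n := by
          by_contra hcon
          push Not at hcon
          exact this (Nat.le_floor hcon)
        rw [max_eq_right]
        · simp
        · rw [sub_nonpos, one_le_div hx]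
          exact h1.le
  have hsumF : ∀ t, ∑' n, F n t = LSeries a (σ + t * I) * (x:ℂ) ^ ((σ:ℂ) + t * I) *
      rieszM (σ + t * I) := by
    intro t
    rw [hF]
    simp only
    rw [tsum_mul_right, tsum_mul_right]
    rfl
  have hfinal := hmain.tsum_eq
  rw [hfin] at hfinal
  simp only [hsumF] at hfinal
  have hbound : ‖∫ t : ℝ, LSeries a (σ + t * I) * (x:ℂ) ^ ((σ:ℂ) + t * I) * rieszM (σ + t * I)‖ ≤
      Kr * B * x ^ σ := by
    have hi : Integrable (fun t : ℝ => (B * x ^ σ) * ((1:ℝ) + t ^ 2) ^ (-(3/4) : ℝ)) :=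
      integrable_Kr.const_mul _
    refine (norm_integral_le_of_norm_le hi (Eventually.of_forall fun t => ?_)).trans (le_of_eq ?_)
    · rw [norm_mul, norm_mul, Complex.norm_cpow_eq_rpow_re_of_pos hx]
      have e1 : ((σ:ℂ) + t * I).re = σ := by simp
      rw [e1]
      have e2 : ((1:ℝ) + t ^ 2) ^ (-(3/4) : ℝ) = (1 + t ^ 2) ^ (1/4 : ℝ) * (1 + t ^ 2)⁻¹ := by
        rw [← Real.rpow_neg_one, ← Real.rpow_add (by positivity)]
        norm_num
      rw [e2]
      calc ‖LSeries a (σ + t * I)‖ * x ^ σ * ‖rieszM (σ + t * I)‖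
          ≤ (B * (1 + t ^ 2) ^ (1/4 : ℝ)) * x ^ σ * (1 + t ^ 2)⁻¹ := by
            have := hB t
            have h0 : 0 ≤ ‖LSeries a (σ + t * I)‖ := norm_nonneg _
            gcongr
            · exact mul_nonneg (h0.trans this) (by positivity)
            · exact norm_rieszM_le hσ t
        _ = B * x ^ σ * ((1 + t ^ 2) ^ (1/4 : ℝ) * (1 + t ^ 2)⁻¹) := by ring
    · rw [integral_const_mul]
      unfold Kr
      ring
  rw [← hfinal, norm_mul, Complex.norm_real, Real.norm_of_nonneg (by positivity)] at hbound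
  have hpi : 1 ≤ 2 * Real.pi := by
    have := Real.pi_gt_three
    linarith
  calc ‖∑ n ∈ Finset.Icc 1 ⌊x⌋₊, a n * ((1 - n / x : ℝ) : ℂ)‖
      = 1 * ‖∑ n ∈ Finset.Icc 1 ⌊x⌋₊, a n * ((1 - n / x : ℝ) : ℂ)‖ := (one_mul _).symm
    _ ≤ 2 * Real.pi * ‖∑ n ∈ Finset.Icc 1 ⌊x⌋₊, a n * ((1 - n / x : ℝ) : ℂ)‖ := by gcongr
    _ ≤ _ := hbound

end Pool.Agent.ANT
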