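import Pool.Agent.Lib.ANT.PolyaV
import Pool.Agent.Lib.ANT.Perron

open Complex MeasureTheory Set Filter Topology

namespace Pool.Agent.ANT

/-! ### Separation of variables by the Riesz kernel near the line `Re s = 0` -/

lemma norm_rieszM_le' {σ : ℝ} (hσ : 0 < σ) (hσ1 : σ ≤ 1) (t : ℝ) :
    ‖rieszM (σ + t * I)‖ ≤ 2 / σ * (1 + t ^ 2)⁻¹ := by
  set s : ℂ := σ + t * I with hs
  have hre : s.re = σ := by simp [hs]
  have him : s.im = t := by simp [hs]
  have hs0 : s ≠ 0 := by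
    intro h
    have := congrArg Complex.re h
    rw [hre, zero_re] at this
    linarith
  have hre1 : (s + 1).re = σ + 1 := by simp [hs]
  have him1 : (s + 1).im = t := by simp [hs]
  have hs1 : s + 1 ≠ 0 := by
    intro h
    have := congrArg Complex.re h
    rw [hre1, zero_re] at this
    linarith
  have e : rieszM s = 1 / (s * (s + 1)) := by
    unfold rieszM; field_simp; ring
  have hσs : σ ≤ ‖s‖ := by
    have := Complex.re_le_norm s; rw [hre] at this; exact this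
  have hts : |t| ≤ ‖s‖ := by
    have := Complex.abs_im_le_norm s; rw [him] at this; exact this
  have h1s : 1 ≤ ‖s + 1‖ := by
    have := Complex.re_le_norm (s + 1); rw [hre1] at this; linarith
  have hts1 : |t| ≤ ‖s + 1‖ := by
    have := Complex.abs_im_le_norm (s + 1); rw [him1] at this; exact this
  have key : σ / 2 * (1 + t ^ 2) ≤ ‖s‖ * ‖s + 1‖ := by
    rcases le_total (|t|) 1 with h | h
    · have ht2 : t ^ 2 ≤ 1 := by rw [← sq_abs]; nlinarith [abs_nonneg t]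
      calc σ / 2 * (1 + t ^ 2) ≤ σ * 1 := by nlinarith
        _ ≤ ‖s‖ * ‖s + 1‖ := mul_le_mul hσs h1s (by norm_num) (norm_nonneg _)
    · have ht2 : 1 ≤ t ^ 2 := by rw [← sq_abs]; nlinarith [abs_nonneg t]
      calc σ / 2 * (1 + t ^ 2) ≤ t ^ 2 := by nlinarith [mul_nonneg hσ.le (sq_nonneg t)]
        _ = |t| * |t| := by rw [← sq_abs]; ring
        _ ≤ ‖s‖ * ‖s + 1‖ := mul_le_mul hts hts1 (abs_nonneg _) (norm_nonneg _)
  rw [e, norm_div, norm_one, norm_mul, one_div]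
  calc (‖s‖ * ‖s + 1‖)⁻¹ ≤ (σ / 2 * (1 + t ^ 2))⁻¹ := inv_anti₀ (by positivity) key
    _ = _ := by rw [mul_inv, inv_div]

lemma vert_ne' {σ : ℝ} (hσ : 0 < σ) (t : ℝ) :
    ((σ:ℂ) + t * I) ≠ 0 ∧ ((σ:ℂ) + t * I) + 1 ≠ 0 := by
  constructor
  · intro h
    have := congrArg Complex.re h
    simp at this
    linarith
  · intro h
    have := congrArg Complex.re h
    simp at this
    linarith

lemma continuous_rieszM' {σ : ℝ} (hσ : 0 < σ) : Continuous (fun t : ℝ => rieszM (σ + t * I)) := by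
  unfold rieszM
  refine Continuous.sub ?_ ?_
  · exact continuous_const.div (continuous_vert σ) (fun t => (vert_ne' hσ t).1)
  · exact continuous_const.div ((continuous_vert σ).add continuous_const) (fun t => (vert_ne' hσ t).2)

lemma integrable_rieszM' {σ : ℝ} (hσ : 0 < σ) (hσ1 : σ ≤ 1) :
    Integrable (fun t : ℝ => rieszM (σ + t * I)) := by
  refine Integrable.mono' (integrable_inv_one_add_sq.const_mul (2 / σ))
    (continuous_rieszM' hσ).aestronglyMeasurable ?_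
  exact Eventually.of_forall fun t => norm_rieszM_le' hσ hσ1 t

lemma riesz_inversion' {σ : ℝ} (hσ : 0 < σ) (hσ1 : σ ≤ 1) {y : ℝ} (hy : 0 < y) :
    (1 / (2 * Real.pi)) • ∫ t : ℝ, (y : ℂ) ^ (-(σ + t * I)) * rieszM (σ + t * I) =
      ((max (1 - y) 0 : ℝ) : ℂ) := by
  have hmel : ∀ t : ℝ, mellin rieszF (σ + t * I) = rieszM (σ + t * I) := fun t =>
    (hasMellin_rieszF (by simp; linarith)).2
  have hconv : MellinConvergent rieszF σ := (hasMellin_rieszF (by simp; linarith)).1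
  have hvert : VerticalIntegrable (mellin rieszF) σ := by
    unfold VerticalIntegrable
    simp only [hmel]
    exact integrable_rieszM' hσ hσ1
  have hcont : ContinuousAt rieszF y := by
    have h1 : ContinuousAt (fun y : ℝ => ((max (1 - y) 0 : ℝ) : ℂ)) y := by fun_prop
    refine h1.congr ?_
    filter_upwards [eventually_gt_nhds hy] with z hz
    exact (rieszF_eq hz).symm
  have h := mellinInv_mellin_eq σ rieszF hy hconv hvert hcont
  rw [rieszF_eq hy] at h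
  rw [← h]
  unfold mellinInv
  simp only [hmel, smul_eq_mul]

/-- twisted coefficient sum -/
noncomputable def TS (a : ℕ → ℂ) (M : ℕ) (σ t : ℝ) : ℂ :=
  ∑ m ∈ Finset.Ioc 0 M, a m * (m:ℂ) ^ (-((σ:ℂ) + t * I))

lemma continuous_cpow_vert {m : ℕ} (hm : 0 < m) (σ : ℝ) :
    Continuous (fun t : ℝ => (m:ℂ) ^ (-((σ:ℂ) + t * I))) := by
  have hm' : (m:ℂ) ≠ 0 := by exact_mod_cast hm.ne'
  refine Continuous.const_cpow (by fun_prop) (Or.inl hm')

lemma continuous_TS (a : ℕ → ℂ) (M : ℕ) (σ : ℝ) : Continuous (TS a M σ) := by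
  unfold TS
  refine continuous_finset_sum _ fun m hm => ?_
  exact continuous_const.mul (continuous_cpow_vert (Finset.mem_Ioc.mp hm).1 σ)

lemma norm_TS_le (a : ℕ → ℂ) (M : ℕ) {σ : ℝ} (hσ : 0 ≤ σ) (t : ℝ) :
    ‖TS a M σ t‖ ≤ ∑ m ∈ Finset.Ioc 0 M, ‖a m‖ := by
  unfold TS
  refine (norm_sum_le _ _).trans (Finset.sum_le_sum fun m hm => ?_)
  have hm0 := (Finset.mem_Ioc.mp hm).1
  rw [norm_mul]
  have h1 : ‖(m:ℂ) ^ (-((σ:ℂ) + t * I))‖ ≤ 1 := by
    rw [Complex.norm_natCast_cpow_of_pos hm0]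
    have : (-((σ:ℂ) + t * I)).re = -σ := by simp
    rw [this]
    exact Real.rpow_le_one_of_one_le_of_nonpos (by exact_mod_cast hm0) (by linarith)
  calc ‖a m‖ * _ ≤ ‖a m‖ * 1 := by gcongr
    _ = ‖a m‖ := mul_one _

/-- The integral majorant. -/
noncomputable def Gint (a b : ℕ → ℂ) (M N : ℕ) (σ : ℝ) : ℝ :=
  ∫ t : ℝ, ‖TS a M σ t‖ * ‖TS b N σ t‖ * (1 + t ^ 2)⁻¹

lemma integrable_Gint (a b : ℕ → ℂ) (M N : ℕ) {σ : ℝ} (hσ : 0 ≤ σ) :
    Integrable (fun t : ℝ => ‖TS a M σ t‖ * ‖TS b N σ t‖ * (1 + t ^ 2)⁻¹) := by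
  refine Integrable.mono' (integrable_inv_one_add_sq.const_mul
    ((∑ m ∈ Finset.Ioc 0 M, ‖a m‖) * (∑ n ∈ Finset.Ioc 0 N, ‖b n‖))) ?_ ?_
  · refine Continuous.aestronglyMeasurable ?_
    refine Continuous.mul (Continuous.mul (continuous_TS a M σ).norm (continuous_TS b N σ).norm) ?_
    exact Continuous.inv₀ (by fun_prop) (fun t => by positivity)
  · refine Eventually.of_forall fun t => ?_
    rw [Real.norm_of_nonneg (by positivity)]
    have h1 := norm_TS_le a M hσ t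
    have h2 := norm_TS_le b N hσ t
    gcongr

lemma Gint_nonneg (a b : ℕ → ℂ) (M N : ℕ) (σ : ℝ) : 0 ≤ Gint a b M N σ :=
  integral_nonneg fun t => by positivity

/-- Separation of variables. -/
theorem riesz_separate {σ : ℝ} (hσ : 0 < σ) (hσ1 : σ ≤ 1) (a b : ℕ → ℂ) (M N : ℕ) {y : ℝ}
    (hy : 0 < y) :
    ‖∑ m ∈ Finset.Ioc 0 M, ∑ n ∈ Finset.Ioc 0 N,
      a m * b n * ((max (1 - (m * n : ℕ) / y) 0 : ℝ) : ℂ)‖ ≤
      y ^ σ / (Real.pi * σ) * Gint a b M N σ := by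
  have hpi := Real.pi_pos
  have e1 : ∀ m ∈ Finset.Ioc 0 M, ∀ n ∈ Finset.Ioc 0 N,
      a m * b n * ((max (1 - (m * n : ℕ) / y) 0 : ℝ) : ℂ) =
      (1 / (2 * Real.pi)) • ∫ t : ℝ, (a m * (m:ℂ) ^ (-((σ:ℂ) + t * I))) *
        (b n * (n:ℂ) ^ (-((σ:ℂ) + t * I))) * ((y:ℂ) ^ ((σ:ℂ) + t * I) * rieszM (σ + t * I)) := by
    intro m hm n hn
    have hm0 := (Finset.mem_Ioc.mp hm).1
    have hn0 := (Finset.mem_Ioc.mp hn).1
    have hmR : (0:ℝ) < m := by exact_mod_cast hm0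
    have hnR : (0:ℝ) < n := by exact_mod_cast hn0
    have hpos : (0:ℝ) < ((m * n : ℕ) : ℝ) / y := by push_cast; positivity
    rw [← riesz_inversion' hσ hσ1 hpos]
    rw [mul_smul_comm, ← integral_const_mul]
    congr 1
    refine integral_congr_ae (Eventually.of_forall fun t => ?_)
    simp only
    have h1 : ((((m * n : ℕ) : ℝ) / y : ℝ) : ℂ) ^ (-((σ:ℂ) + t * I)) =
        (m:ℂ) ^ (-((σ:ℂ) + t * I)) * (n:ℂ) ^ (-((σ:ℂ) + t * I)) * (y:ℂ) ^ ((σ:ℂ) + t * I) := by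
      have h2 : ((((m * n : ℕ) : ℝ) / y : ℝ) : ℂ) = (((m:ℝ) * ((n:ℝ) * y⁻¹) : ℝ) : ℂ) := by
        congr 1; push_cast; field_simp
      rw [h2, Complex.ofReal_mul, Complex.mul_cpow_ofReal_nonneg hmR.le (by positivity),
        Complex.ofReal_mul, Complex.mul_cpow_ofReal_nonneg hnR.le (by positivity)]
      have h3 : ((y⁻¹ : ℝ) : ℂ) ^ (-((σ:ℂ) + t * I)) = (y:ℂ) ^ ((σ:ℂ) + t * I) := by
        rw [Complex.ofReal_inv, Complex.inv_cpow, ← Complex.cpow_neg, neg_neg]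
        rw [Complex.arg_ofReal_of_nonneg hy.le]
        exact hpi.ne
      rw [h3]
      push_cast
      ring
    rw [h1]; ring
  have hint : ∀ m ∈ Finset.Ioc 0 M, ∀ n ∈ Finset.Ioc 0 N,
      Integrable (fun t : ℝ => (a m * (m:ℂ) ^ (-((σ:ℂ) + t * I))) *
        (b n * (n:ℂ) ^ (-((σ:ℂ) + t * I))) * ((y:ℂ) ^ ((σ:ℂ) + t * I) * rieszM (σ + t * I))) := by
    intro m hm n hn
    have hm0 := (Finset.mem_Ioc.mp hm).1
    have hn0 := (Finset.mem_Ioc.mp hn).1
    have hy' : (y:ℂ) ≠ 0 := by exact_mod_cast hy.ne'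
    refine Integrable.mono' (g := fun t => (‖a m‖ * ‖b n‖ * y ^ σ) * (2 / σ * (1 + t ^ 2)⁻¹))
      ((integrable_inv_one_add_sq.const_mul (2 / σ)).const_mul _) ?_ ?_
    · refine Continuous.aestronglyMeasurable ?_
      refine Continuous.mul (Continuous.mul (continuous_const.mul (continuous_cpow_vert hm0 σ))
        (continuous_const.mul (continuous_cpow_vert hn0 σ))) (Continuous.mul ?_ (continuous_rieszM' hσ))
      exact Continuous.const_cpow (by fun_prop) (Or.inl hy')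
    · refine Eventually.of_forall fun t => ?_
      have hle : ∀ k : ℕ, 0 < k → ‖(k:ℂ) ^ (-((σ:ℂ) + t * I))‖ ≤ 1 := by
        intro k hk
        rw [Complex.norm_natCast_cpow_of_pos hk]
        have : (-((σ:ℂ) + t * I)).re = -σ := by simp
        rw [this]
        exact Real.rpow_le_one_of_one_le_of_nonpos (by exact_mod_cast hk) (by linarith)
      have hyy : ‖(y:ℂ) ^ ((σ:ℂ) + t * I)‖ = y ^ σ := by
        rw [Complex.norm_cpow_eq_rpow_re_of_pos hy]; simp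
      rw [norm_mul, norm_mul, norm_mul, norm_mul, norm_mul, hyy]
      calc ‖a m‖ * ‖(m:ℂ) ^ (-((σ:ℂ) + t * I))‖ * (‖b n‖ * ‖(n:ℂ) ^ (-((σ:ℂ) + t * I))‖) *
            (y ^ σ * ‖rieszM (σ + t * I)‖) ≤
            ‖a m‖ * 1 * (‖b n‖ * 1) * (y ^ σ * (2 / σ * (1 + t ^ 2)⁻¹)) := by
            have := hle m hm0
            have := hle n hn0
            have := norm_rieszM_le' hσ hσ1 t
            have : 0 < y ^ σ := by positivity
            gcongr
        _ = _ := by ring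
  have e2 : ∑ m ∈ Finset.Ioc 0 M, ∑ n ∈ Finset.Ioc 0 N,
      a m * b n * ((max (1 - (m * n : ℕ) / y) 0 : ℝ) : ℂ) =
      (1 / (2 * Real.pi)) • ∫ t : ℝ, TS a M σ t * TS b N σ t *
        ((y:ℂ) ^ ((σ:ℂ) + t * I) * rieszM (σ + t * I)) := by
    rw [Finset.sum_congr rfl fun m hm => Finset.sum_congr rfl fun n hn => e1 m hm n hn]
    simp_rw [← Finset.smul_sum]
    congr 1
    rw [Finset.sum_congr rfl fun m hm => (integral_finset_sum _ (hint m hm)).symm,
      ← integral_finset_sum _ fun m hm => integrable_finset_sum _ (hint m hm)]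
    refine integral_congr_ae (Eventually.of_forall fun t => ?_)
    simp only [TS]
    rw [Finset.sum_mul_sum, Finset.sum_mul]
    refine Finset.sum_congr rfl fun m _ => ?_
    rw [Finset.sum_mul]
  rw [e2, norm_smul, Real.norm_of_nonneg (by positivity)]
  have h3 : ‖∫ t : ℝ, TS a M σ t * TS b N σ t *
        ((y:ℂ) ^ ((σ:ℂ) + t * I) * rieszM (σ + t * I))‖ ≤
      y ^ σ * (2 / σ) * Gint a b M N σ := by
    unfold Gint
    rw [← integral_const_mul]
    refine norm_integral_le_of_norm_le ((integrable_Gint a b M N hσ.le).const_mul _)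
      (Eventually.of_forall fun t => ?_)
    have hyy : ‖(y:ℂ) ^ ((σ:ℂ) + t * I)‖ = y ^ σ := by
      rw [Complex.norm_cpow_eq_rpow_re_of_pos hy]; simp
    rw [norm_mul, norm_mul, norm_mul, hyy]
    calc ‖TS a M σ t‖ * ‖TS b N σ t‖ * (y ^ σ * ‖rieszM (σ + t * I)‖) ≤
          ‖TS a M σ t‖ * ‖TS b N σ t‖ * (y ^ σ * (2 / σ * (1 + t ^ 2)⁻¹)) := by
          have := norm_rieszM_le' hσ hσ1 t
          have : 0 < y ^ σ := by positivity
          gcongr
      _ = _ := by ring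
  calc 1 / (2 * Real.pi) * ‖∫ t : ℝ, TS a M σ t * TS b N σ t *
        ((y:ℂ) ^ ((σ:ℂ) + t * I) * rieszM (σ + t * I))‖ ≤
        1 / (2 * Real.pi) * (y ^ σ * (2 / σ) * Gint a b M N σ) := by gcongr
    _ = _ := by field_simp

/-- twist of a sequence by a character -/
noncomputable def tw {q : ℕ} (a : ℕ → ℂ) (χ : DirichletCharacter ℂ q) : ℕ → ℂ := fun n => a n * χ n

/-- Mean value of the integral majorants over primitive characters. -/
theorem Gint_mean {σ : ℝ} (hσ : 0 ≤ σ) (a b : ℕ → ℂ) (M N Q : ℕ) :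
    ∑ q ∈ Finset.Ioc 0 Q, (q:ℝ) / q.totient * ∑ χ ∈ Prim q, Gint (tw a χ) (tw b χ) M N σ ≤
      Real.pi * (√(12 * (2 * M + (Q:ℝ) ^ 2) * ∑ m ∈ Finset.Ioc 0 M, ‖a m‖ ^ 2) *
        √(12 * (2 * N + (Q:ℝ) ^ 2) * ∑ n ∈ Finset.Ioc 0 N, ‖b n‖ ^ 2)) := by
  set K := √(12 * (2 * M + (Q:ℝ) ^ 2) * ∑ m ∈ Finset.Ioc 0 M, ‖a m‖ ^ 2) *
        √(12 * (2 * N + (Q:ℝ) ^ 2) * ∑ n ∈ Finset.Ioc 0 N, ‖b n‖ ^ 2) with hK
  have hTS : ∀ (c : ℕ → ℂ) (X : ℕ) (t : ℝ) (q : ℕ) (χ : DirichletCharacter ℂ q),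
      TS (tw c χ) X σ t = ∑ m ∈ Finset.Ioc 0 X, (c m * (m:ℂ) ^ (-((σ:ℂ) + t * I))) * χ m := by
    intro c X t q χ
    unfold TS tw
    refine Finset.sum_congr rfl fun m _ => ?_
    ring
  have hpt : ∀ t : ℝ, ∑ q ∈ Finset.Ioc 0 Q, (q:ℝ) / q.totient * ∑ χ ∈ Prim q,
      ‖TS (tw a χ) M σ t‖ * ‖TS (tw b χ) N σ t‖ ≤ K := by
    intro t
    simp_rw [hTS]
    refine (large_sieve_bilinear Q M N _ _).trans ?_
    rw [hK]
    have hle : ∀ (c : ℕ → ℂ) (X : ℕ), ∑ m ∈ Finset.Ioc 0 X, ‖c m * (m:ℂ) ^ (-((σ:ℂ) + t * I))‖ ^ 2 ≤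
        ∑ m ∈ Finset.Ioc 0 X, ‖c m‖ ^ 2 := by
      intro c X
      refine Finset.sum_le_sum fun m hm => ?_
      have hm0 := (Finset.mem_Ioc.mp hm).1
      have h1 : ‖(m:ℂ) ^ (-((σ:ℂ) + t * I))‖ ≤ 1 := by
        rw [Complex.norm_natCast_cpow_of_pos hm0]
        have : (-((σ:ℂ) + t * I)).re = -σ := by simp
        rw [this]
        exact Real.rpow_le_one_of_one_le_of_nonpos (by exact_mod_cast hm0) (by linarith)
      rw [norm_mul]
      have : ‖c m‖ * ‖(m:ℂ) ^ (-((σ:ℂ) + t * I))‖ ≤ ‖c m‖ * 1 := by gcongr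
      rw [mul_one] at this
      gcongr
    have := hle a M
    have := hle b N
    gcongr
  have hInt : ∀ (q : ℕ) (χ : DirichletCharacter ℂ q),
      Integrable (fun t : ℝ => ‖TS (tw a χ) M σ t‖ * ‖TS (tw b χ) N σ t‖ * (1 + t ^ 2)⁻¹) :=
    fun q χ => integrable_Gint _ _ _ _ hσ
  have e1 : ∑ q ∈ Finset.Ioc 0 Q, (q:ℝ) / q.totient * ∑ χ ∈ Prim q, Gint (tw a χ) (tw b χ) M N σ =
      ∫ t : ℝ, ∑ q ∈ Finset.Ioc 0 Q, (q:ℝ) / q.totient * ∑ χ ∈ Prim q,
        ‖TS (tw a χ) M σ t‖ * ‖TS (tw b χ) N σ t‖ * (1 + t ^ 2)⁻¹ := by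
    rw [integral_finset_sum]
    · refine Finset.sum_congr rfl fun q _ => ?_
      rw [integral_const_mul, integral_finset_sum]
      · rfl
      · intro χ _; exact hInt q χ
    · intro q _
      exact (integrable_finset_sum _ fun χ _ => hInt q χ).const_mul _
  rw [e1]
  calc _ ≤ ∫ t : ℝ, K * (1 + t ^ 2)⁻¹ := by
        refine integral_mono ?_ (integrable_inv_one_add_sq.const_mul K) fun t => ?_
        · exact integrable_finset_sum _ fun q _ =>
            (integrable_finset_sum _ fun χ _ => hInt q χ).const_mul _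
        · simp only
          have h1 := hpt t
          have h2 : 0 ≤ (1 + t ^ 2)⁻¹ := by positivity
          calc _ = (∑ q ∈ Finset.Ioc 0 Q, (q:ℝ) / q.totient * ∑ χ ∈ Prim q,
                ‖TS (tw a χ) M σ t‖ * ‖TS (tw b χ) N σ t‖) * (1 + t ^ 2)⁻¹ := by
                rw [Finset.sum_mul]
                refine Finset.sum_congr rfl fun q _ => ?_
                rw [mul_assoc, Finset.sum_mul]
            _ ≤ _ := by gcongr
    _ = K * Real.pi := by rw [integral_const_mul, integral_univ_inv_one_add_sq]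
    _ = _ := mul_comm _ _

end Pool.Agent.ANT
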