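import Pool.Agent.Lib.ANT.LDeriv

open Complex MeasureTheory Set Filter Asymptotics Topology

namespace Pool.Agent.ANT

/-- Mean value of a character mod `q`. -/
noncomputable def kap {q : ℕ} [NeZero q] (χ : DirichletCharacter ℂ q) : ℂ :=
  (∑ a : ZMod q, χ a) / q

lemma kap_eq_zero {q : ℕ} [NeZero q] {χ : DirichletCharacter ℂ q} (hχ : χ ≠ 1) : kap χ = 0 := by
  unfold kap
  rw [MulChar.sum_eq_zero_of_ne_one hχ, zero_div]

lemma norm_kap_le {q : ℕ} [NeZero q] (χ : DirichletCharacter ℂ q) : ‖kap χ‖ ≤ 1 := by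
  unfold kap
  have hq : (0:ℝ) < q := by exact_mod_cast Nat.pos_of_ne_zero (NeZero.ne q)
  rw [norm_div, Complex.norm_natCast, div_le_one hq]
  calc ‖∑ a : ZMod q, χ a‖ ≤ ∑ a : ZMod q, ‖χ a‖ := norm_sum_le _ _
    _ ≤ ∑ a : ZMod q, (1:ℝ) := Finset.sum_le_sum fun a _ => χ.norm_le_one a
    _ = q := by simp [ZMod.card]

lemma sum_range_char_sub_add {q : ℕ} [NeZero q] (χ : DirichletCharacter ℂ q) (n : ℕ) :
    ∑ k ∈ Finset.range (n + q), χ k - kap χ * ((n + q : ℕ) : ℂ) =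
      ∑ k ∈ Finset.range n, χ k - kap χ * (n : ℂ) := by
  rw [Finset.sum_range_add]
  have := sum_range_zmod (fun a => χ a) n
  rw [this]
  have hq : (q : ℂ) ≠ 0 := by exact_mod_cast NeZero.ne q
  have h2 : ∑ a : ZMod q, χ a = kap χ * q := by
    unfold kap; field_simp
  rw [h2]; push_cast; ring

lemma sum_range_char_sub_mod {q : ℕ} [NeZero q] (χ : DirichletCharacter ℂ q) (n : ℕ) :
    ∑ k ∈ Finset.range n, χ k - kap χ * (n : ℂ) =
      ∑ k ∈ Finset.range (n % q), χ k - kap χ * ((n % q : ℕ) : ℂ) := by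
  induction n using Nat.strong_induction_on with
  | _ n ih =>
    by_cases h : n < q
    · rw [Nat.mod_eq_of_lt h]
    · push Not at h
      have hq : 0 < q := Nat.pos_of_ne_zero (NeZero.ne q)
      have h1 := ih (n - q) (by omega)
      have h2 := sum_range_char_sub_add χ (n - q)
      rw [Nat.sub_add_cancel h] at h2
      rw [h2, h1, Nat.mod_eq_sub_mod h]

lemma norm_sum_range_char_sub_le {q : ℕ} [NeZero q] (χ : DirichletCharacter ℂ q) (n : ℕ) :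
    ‖∑ k ∈ Finset.range n, χ k - kap χ * (n : ℂ)‖ ≤ 2 * q - 2 := by
  rw [sum_range_char_sub_mod]
  have hq : 0 < q := Nat.pos_of_ne_zero (NeZero.ne q)
  have hr : ((n % q : ℕ) : ℝ) ≤ q - 1 := by
    have : n % q + 1 ≤ q := Nat.mod_lt n hq
    have : ((n % q : ℕ) : ℝ) + 1 ≤ q := by exact_mod_cast this
    linarith
  have h1 : ‖∑ k ∈ Finset.range (n % q), χ k‖ ≤ (n % q : ℕ) := by
    calc ‖∑ k ∈ Finset.range (n % q), χ k‖ ≤ ∑ k ∈ Finset.range (n % q), ‖χ k‖ := norm_sum_le _ _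
      _ ≤ ∑ k ∈ Finset.range (n % q), (1:ℝ) := Finset.sum_le_sum fun k _ => χ.norm_le_one _
      _ = (n % q : ℕ) := by simp
  have h2 : ‖kap χ * ((n % q : ℕ) : ℂ)‖ ≤ (n % q : ℕ) := by
    rw [norm_mul, Complex.norm_natCast]
    exact mul_le_of_le_one_left (by positivity) (norm_kap_le χ)
  calc ‖∑ k ∈ Finset.range (n % q), χ k - kap χ * ((n % q : ℕ) : ℂ)‖
      ≤ (n % q : ℕ) + (n % q : ℕ) := (norm_sub_le _ _).trans (add_le_add h1 h2)
    _ ≤ 2 * q - 2 := by linarith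

lemma norm_sum_Icc_char_sub_le {q : ℕ} [NeZero q] (χ : DirichletCharacter ℂ q) (n : ℕ) :
    ‖∑ k ∈ Finset.Icc 1 n, χ k - kap χ * (n : ℂ)‖ ≤ 2 * q := by
  have h1 : ∑ k ∈ Finset.Icc 1 n, χ k = ∑ k ∈ Finset.range (n+1), χ k - χ ((0:ℕ) : ZMod q) := by
    rw [Finset.sum_range_succ']
    rw [Finset.range_eq_Ico, Finset.sum_Ico_add' (fun k : ℕ => χ (k : ZMod q)) 0 n 1]
    simp only [zero_add, add_sub_cancel_right]
    rfl
  have h2 : ∑ k ∈ Finset.Icc 1 n, χ k - kap χ * (n : ℂ) =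
      (∑ k ∈ Finset.range (n+1), χ k - kap χ * ((n + 1 : ℕ) : ℂ)) - (χ ((0:ℕ) : ZMod q) - kap χ) := by
    rw [h1]; push_cast; ring
  rw [h2]
  have h3 := norm_sum_range_char_sub_le χ (n+1)
  have h4 : ‖χ ((0:ℕ) : ZMod q) - kap χ‖ ≤ 2 := by
    refine (norm_sub_le _ _).trans ?_
    have := χ.norm_le_one ((0:ℕ) : ZMod q)
    have := norm_kap_le χ
    linarith
  refine (norm_sub_le _ _).trans ?_
  linarith

lemma norm_Rem_char_le {q : ℕ} [NeZero q] (χ : DirichletCharacter ℂ q) {u : ℝ} (hu : 1 ≤ u) :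
    ‖Rem (fun n => χ n) (kap χ) u‖ ≤ 3 * q := by
  have := norm_Rem_le (f := fun n => χ n) (κ := kap χ) (fun n => norm_sum_Icc_char_sub_le χ n)
    (by linarith : (0:ℝ) ≤ u)
  have h2 := norm_kap_le χ
  have hq : (1:ℝ) ≤ q := by exact_mod_cast Nat.pos_of_ne_zero (NeZero.ne q)
  linarith

lemma norm_Rem_one_le {u : ℝ} (hu : 1 ≤ u) : ‖Rem (fun _ => 1) 1 u‖ ≤ 1 := by
  have h : ∀ n : ℕ, ‖(∑ _k ∈ Finset.Icc 1 n, (1:ℂ)) - 1 * n‖ ≤ 0 := by
    intro n; simp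
  have := norm_Rem_le (f := fun _ => 1) (κ := 1) h (by linarith : (0:ℝ) ≤ u)
  simpa using this

/-- The L-function on `Re s > 0`. -/
noncomputable def LX {q : ℕ} [NeZero q] (χ : DirichletCharacter ℂ q) : ℂ → ℂ :=
  Gx (fun n => χ n) (kap χ)

/-- The zeta function on `Re s > 0`. -/
noncomputable def ZX : ℂ → ℂ := Gx (fun _ => 1) 1

/-- The basic logarithmic size of the conductor. -/
noncomputable def Lam (q : ℕ) (t : ℝ) : ℝ := ell (3 * q) t

lemma one_le_three_mul {q : ℕ} [NeZero q] : (1:ℝ) ≤ 3 * q := by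
  have hq : (1:ℝ) ≤ q := by exact_mod_cast Nat.pos_of_ne_zero (NeZero.ne q)
  linarith

lemma one_le_Lam (q : ℕ) [NeZero q] (t : ℝ) : 1 ≤ Lam q t := one_le_ell one_le_three_mul t

lemma LX_eq_LSeries {q : ℕ} [NeZero q] (χ : DirichletCharacter ℂ q) {s : ℂ} (hs : 1 < s.re) :
    LX χ s = LSeries (fun n => χ n) s :=
  (LSeries_eq_HInt (fun n => χ.norm_le_one _) (fun _ hu => norm_Rem_char_le χ hu) hs).symm

lemma ZX_eq_LSeries {s : ℂ} (hs : 1 < s.re) :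
    ZX s = LSeries (fun _ => 1) s :=
  (LSeries_eq_HInt (fun n => by simp) (fun _ hu => norm_Rem_one_le hu) hs).symm

lemma ZX_eq_zeta {s : ℂ} (hs : 1 < s.re) : ZX s = riemannZeta s := by
  rw [ZX_eq_LSeries hs]
  exact LSeries_one_eq_riemannZeta hs

lemma LX_eq_LFunction {q : ℕ} [NeZero q] (χ : DirichletCharacter ℂ q) {s : ℂ} (hs : 1 < s.re) :
    LX χ s = χ.LFunction s := by
  rw [LX_eq_LSeries χ hs, χ.LFunction_eq_LSeries hs]

lemma LX_differentiableAt {q : ℕ} [NeZero q] (χ : DirichletCharacter ℂ q) {s : ℂ} (hs : 0 < s.re)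
    (h1 : χ ≠ 1 ∨ s ≠ 1) : DifferentiableAt ℂ (LX χ) s := by
  refine Gx_differentiableAt (fun _ hu => norm_Rem_char_le χ hu) hs ?_
  rcases h1 with h | h
  · exact Or.inl (kap_eq_zero h)
  · exact Or.inr h

lemma ZX_differentiableAt {s : ℂ} (hs : 0 < s.re) (h1 : s ≠ 1) : DifferentiableAt ℂ ZX s :=
  Gx_differentiableAt (fun _ hu => norm_Rem_one_le hu) hs (Or.inr h1)

lemma norm_iteratedDeriv_LX_le {q : ℕ} [NeZero q] {χ : DirichletCharacter ℂ q} (hχ : χ ≠ 1) {s : ℂ}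
    (hs : 1 ≤ s.re) (j : ℕ) :
    ‖iteratedDeriv j (LX χ) s‖ ≤ j.factorial * (48 * Lam q s.im) * (6 * Lam q s.im) ^ j :=
  norm_iteratedDeriv_Gx_le (fun n => χ.norm_le_one _) (norm_kap_le χ) one_le_three_mul
    (fun _ hu => norm_Rem_char_le χ hu) hs (Or.inl (kap_eq_zero hχ)) j

lemma norm_iteratedDeriv_ZX_le {s : ℂ} (hs : 1 ≤ s.re) (ht : 1 ≤ |s.im|) (j : ℕ) :
    ‖iteratedDeriv j ZX s‖ ≤ j.factorial * (48 * ell 1 s.im) * (6 * ell 1 s.im) ^ j :=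
  norm_iteratedDeriv_Gx_le (fun n => by simp) (by simp) le_rfl
    (fun _ hu => norm_Rem_one_le hu) hs (Or.inr ht) j

lemma norm_LX_le {q : ℕ} [NeZero q] (χ : DirichletCharacter ℂ q) {s : ℂ} (hs : 1 ≤ s.re)
    (hs1 : s ≠ 1) :
    ‖LX χ s‖ ≤ 21 * Lam q s.im + 3 * (‖kap χ‖ / ‖s - 1‖) := by
  have h1 : 1 ≤ ell (3 * q) s.im := one_le_ell one_le_three_mul _
  have hσ : 1 - 1 / (3 * ell (3 * q) s.im) ≤ s.re := by
    have : 0 ≤ 1 / (3 * ell (3 * q) s.im) := by positivity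
    linarith
  exact norm_cont_le_ell (fun n => χ.norm_le_one _) (norm_kap_le χ) one_le_three_mul
    (fun _ hu => norm_Rem_char_le χ hu) hs1 hσ

/-- Real bound for zeta. -/
lemma norm_ZX_le {s : ℂ} (hs : 1 < s.re) : ‖ZX s‖ ≤ ‖s‖ / ‖s - 1‖ + ‖s‖ / s.re := by
  unfold ZX Gx
  refine (norm_add_le _ _).trans (add_le_add ?_ ?_)
  · rw [one_mul, norm_div]
  · rw [norm_mul]
    have := norm_HInt_le (f := fun _ => 1) (κ := 1) (fun _ hu => norm_Rem_one_le hu) (s := s)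
      (by linarith)
    calc ‖s‖ * ‖HInt (fun _ => 1) 1 s‖ ≤ ‖s‖ * (1 / s.re) := by gcongr
      _ = ‖s‖ / s.re := by ring

lemma zeta_real_le {σ : ℝ} (hσ : 1 < σ) (hσ2 : σ ≤ 2) : ‖riemannZeta σ‖ ≤ 3 / (σ - 1) := by
  have h0 : 0 < σ - 1 := by linarith
  rw [← ZX_eq_zeta (by simpa using hσ)]
  refine (norm_ZX_le (by simpa using hσ)).trans ?_
  have e1 : ‖(σ:ℂ)‖ = σ := by
    rw [Complex.norm_real, Real.norm_of_nonneg (by linarith)]
  have e2 : ‖(σ:ℂ) - 1‖ = σ - 1 := by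
    have : (σ:ℂ) - 1 = ((σ - 1 : ℝ) : ℂ) := by push_cast; ring
    rw [this, Complex.norm_real, Real.norm_of_nonneg (by linarith)]
  rw [e1, e2, ofReal_re, div_self (by linarith), div_add_one h0.ne']
  gcongr
  linarith

end Pool.Agent.ANT
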