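import Mathlib

open Complex Set Filter Asymptotics Topology

namespace Pool.Agent.ANT

lemma sum_range_zmod {q : ℕ} [NeZero q] (g : ZMod q → ℂ) (n : ℕ) :
    ∑ k ∈ Finset.range q, g ((n + k : ℕ) : ZMod q) = ∑ a : ZMod q, g a := by
  have h1 : ∑ k ∈ Finset.range q, g ((n + k : ℕ) : ZMod q) = ∑ a : ZMod q, g ((n : ZMod q) + a) := by
    refine Finset.sum_bij' (fun k _ => (k : ZMod q)) (fun a _ => a.val) ?_ ?_ ?_ ?_ ?_
    · intro k _; exact Finset.mem_univ _
    · intro a _; exact Finset.mem_range.mpr (ZMod.val_lt a)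
    · intro k hk
      rw [ZMod.val_natCast, Nat.mod_eq_of_lt (Finset.mem_range.mp hk)]
    · intro a _; simp
    · intro k _; simp
  rw [h1]
  exact Fintype.sum_equiv (Equiv.addLeft (n : ZMod q)) _ _ (fun a => rfl)

lemma sum_range_char_add {q : ℕ} [NeZero q] {χ : DirichletCharacter ℂ q} (hχ : χ ≠ 1) (n : ℕ) :
    ∑ k ∈ Finset.range (n + q), χ k = ∑ k ∈ Finset.range n, χ k := by
  rw [Finset.sum_range_add]
  have := sum_range_zmod (fun a => χ a) n
  rw [this, MulChar.sum_eq_zero_of_ne_one hχ, add_zero]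

lemma sum_range_char_mod {q : ℕ} [NeZero q] {χ : DirichletCharacter ℂ q} (hχ : χ ≠ 1) (n : ℕ) :
    ∑ k ∈ Finset.range n, χ k = ∑ k ∈ Finset.range (n % q), χ k := by
  induction n using Nat.strong_induction_on with
  | _ n ih =>
    by_cases h : n < q
    · rw [Nat.mod_eq_of_lt h]
    · push Not at h
      have hq : 0 < q := Nat.pos_of_ne_zero (NeZero.ne q)
      have h1 := ih (n - q) (by omega)
      have h2 := sum_range_char_add hχ (n - q)
      rw [Nat.sub_add_cancel h] at h2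
      rw [h2, h1, Nat.mod_eq_sub_mod h]

lemma norm_sum_range_char_le {q : ℕ} [NeZero q] {χ : DirichletCharacter ℂ q} (hχ : χ ≠ 1) (n : ℕ) :
    ‖∑ k ∈ Finset.range n, χ k‖ ≤ q := by
  rw [sum_range_char_mod hχ]
  calc ‖∑ k ∈ Finset.range (n % q), χ k‖ ≤ ∑ k ∈ Finset.range (n % q), ‖χ k‖ := norm_sum_le _ _
    _ ≤ ∑ k ∈ Finset.range (n % q), (1:ℝ) := Finset.sum_le_sum fun k _ => χ.norm_le_one _
    _ = (n % q : ℕ) := by simp
    _ ≤ q := by exact_mod_cast (Nat.mod_lt n (Nat.pos_of_ne_zero (NeZero.ne q))).le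

lemma level_ne_one {q : ℕ} {χ : DirichletCharacter ℂ q} (hχ : χ ≠ 1) : q ≠ 1 := by
  rintro rfl
  exact hχ (DirichletCharacter.level_one χ)

lemma norm_sum_Icc_char_le {q : ℕ} [NeZero q] {χ : DirichletCharacter ℂ q} (hχ : χ ≠ 1) (n : ℕ) :
    ‖∑ k ∈ Finset.Icc 1 n, χ k‖ ≤ q := by
  have h0 : χ ((0:ℕ) : ZMod q) = 0 := by
    have hq : q ≠ 1 := level_ne_one hχ
    apply χ.map_nonunit
    have : Nontrivial (ZMod q) := ZMod.nontrivial_iff.mpr hq
    simp
  have h1 : ∑ k ∈ Finset.Icc 1 n, χ k = ∑ k ∈ Finset.range (n+1), χ k := by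
    rw [Finset.sum_range_succ', h0, add_zero]
    rw [Finset.range_eq_Ico, Finset.sum_Ico_add' (fun k : ℕ => χ (k : ZMod q)) 0 n 1]
    rfl
  rw [h1]
  exact norm_sum_range_char_le hχ _

end Pool.Agent.ANT
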