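import Mathlib

/-!
# Continuation of Dirichlet series with regular partial sums to `Re s > 0`
-/

open Complex MeasureTheory Set Filter Asymptotics Topology

namespace Pool.Agent.ANT

/-- The remainder `∑_{k ≤ u} f k - κ u`. -/
noncomputable def Rem (f : ℕ → ℂ) (κ : ℂ) (u : ℝ) : ℂ :=
  (∑ k ∈ Finset.Icc 1 ⌊u⌋₊, f k) - κ * u

/-- The integral `∫_1^∞ Rem(u) u^{-s-1} du`. -/
noncomputable def HInt (f : ℕ → ℂ) (κ : ℂ) (s : ℂ) : ℂ :=
  ∫ u in Ioi (1:ℝ), Rem f κ u * (u:ℂ) ^ (-(s+1))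

lemma measurable_Rem (f : ℕ → ℂ) (κ : ℂ) : Measurable (Rem f κ) := by
  unfold Rem
  refine Measurable.sub ?_ (by fun_prop)
  exact (measurable_from_nat (f := fun n : ℕ => ∑ k ∈ Finset.Icc 1 n, f k)).comp Nat.measurable_floor

lemma norm_Rem_le {f : ℕ → ℂ} {κ : ℂ} {R0 : ℝ}
    (h : ∀ n : ℕ, ‖(∑ k ∈ Finset.Icc 1 n, f k) - κ * n‖ ≤ R0) {u : ℝ} (hu : 0 ≤ u) :
    ‖Rem f κ u‖ ≤ R0 + ‖κ‖ := by
  have h1 : Rem f κ u = ((∑ k ∈ Finset.Icc 1 ⌊u⌋₊, f k) - κ * (⌊u⌋₊ : ℕ)) -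
      κ * ((u - ⌊u⌋₊ : ℝ) : ℂ) := by
    unfold Rem; push_cast; ring
  rw [h1]
  refine (norm_sub_le _ _).trans (add_le_add (h _) ?_)
  rw [norm_mul, Complex.norm_real, Real.norm_eq_abs]
  have h2 := Nat.floor_le hu
  have h3 := Nat.lt_floor_add_one u
  rw [abs_of_nonneg (by linarith)]
  exact mul_le_of_le_one_right (norm_nonneg _) (by linarith)

lemma norm_cpow_neg_add_one {u : ℝ} (hu : 0 < u) (s : ℂ) :
    ‖(u:ℂ) ^ (-(s+1))‖ = u ^ (-(s.re + 1)) := by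
  rw [Complex.norm_cpow_eq_rpow_re_of_pos hu]
  simp

lemma integrableOn_Rem {f : ℕ → ℂ} {κ : ℂ} {R1 : ℝ}
    (h : ∀ u : ℝ, 1 ≤ u → ‖Rem f κ u‖ ≤ R1) {s : ℂ} (hs : 0 < s.re) {a : ℝ} (ha : 1 ≤ a) :
    IntegrableOn (fun u : ℝ => Rem f κ u * (u:ℂ) ^ (-(s+1))) (Ioi a) := by
  have h0 : 0 < a := by linarith
  have hint : IntegrableOn (fun u : ℝ => R1 * u ^ (-(s.re + 1))) (Ioi a) :=
    (integrableOn_Ioi_rpow_of_lt (by linarith) h0).const_mul _
  refine Integrable.mono' hint ?_ ?_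
  · refine AEStronglyMeasurable.mul ?_ ?_
    · exact (measurable_Rem f κ).aestronglyMeasurable
    · refine ContinuousOn.aestronglyMeasurable ?_ measurableSet_Ioi
      intro u hu
      have hu' : 0 < u := lt_trans h0 hu
      exact (continuousAt_ofReal_cpow_const _ _ (Or.inr hu'.ne')).continuousWithinAt
  · refine (ae_restrict_iff' measurableSet_Ioi).mpr (Eventually.of_forall fun u hu => ?_)
    have hu' : 0 < u := lt_trans h0 hu
    have hu1 : 1 ≤ u := ha.trans (le_of_lt hu)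
    rw [norm_mul, norm_cpow_neg_add_one hu']
    exact mul_le_mul_of_nonneg_right (h u hu1) (by positivity)

lemma norm_tail_le {f : ℕ → ℂ} {κ : ℂ} {R1 : ℝ}
    (h : ∀ u : ℝ, 1 ≤ u → ‖Rem f κ u‖ ≤ R1) {s : ℂ} (hs : 0 < s.re) {a : ℝ} (ha : 1 ≤ a) :
    ‖∫ u in Ioi a, Rem f κ u * (u:ℂ) ^ (-(s+1))‖ ≤ R1 * (a ^ (-s.re) / s.re) := by
  have h0 : 0 < a := by linarith
  have hint : IntegrableOn (fun u : ℝ => R1 * u ^ (-(s.re + 1))) (Ioi a) :=
    (integrableOn_Ioi_rpow_of_lt (by linarith) h0).const_mul _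
  have h1 : ‖∫ u in Ioi a, Rem f κ u * (u:ℂ) ^ (-(s+1))‖ ≤
      ∫ u in Ioi a, R1 * u ^ (-(s.re + 1)) := by
    refine norm_integral_le_of_norm_le hint ?_
    refine (ae_restrict_iff' measurableSet_Ioi).mpr (Eventually.of_forall fun u hu => ?_)
    have hu' : 0 < u := lt_trans h0 hu
    have hu1 : 1 ≤ u := ha.trans (le_of_lt hu)
    rw [norm_mul, norm_cpow_neg_add_one hu']
    exact mul_le_mul_of_nonneg_right (h u hu1) (by positivity)
  refine h1.trans (le_of_eq ?_)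
  rw [integral_const_mul, integral_Ioi_rpow_of_lt (by linarith) h0]
  congr 1
  have : -(s.re + 1) + 1 = - s.re := by ring
  rw [this]
  rw [neg_div_neg_eq]

lemma norm_HInt_le {f : ℕ → ℂ} {κ : ℂ} {R1 : ℝ}
    (h : ∀ u : ℝ, 1 ≤ u → ‖Rem f κ u‖ ≤ R1) {s : ℂ} (hs : 0 < s.re) :
    ‖HInt f κ s‖ ≤ R1 / s.re := by
  have := norm_tail_le h hs (le_refl (1:ℝ))
  simpa [HInt, div_eq_mul_inv] using this

lemma HInt_eq_mellin (f : ℕ → ℂ) (κ : ℂ) (s : ℂ) :
    HInt f κ s = mellin (indicator (Ioi (1:ℝ)) (Rem f κ)) (-s) := by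
  unfold HInt mellin
  have h1 : (fun t : ℝ => (t:ℂ) ^ (-s - 1) • indicator (Ioi (1:ℝ)) (Rem f κ) t) =
      indicator (Ioi (1:ℝ)) (fun t : ℝ => Rem f κ t * (t:ℂ) ^ (-(s+1))) := by
    ext t
    by_cases ht : t ∈ Ioi (1:ℝ)
    · simp only [indicator_of_mem ht, smul_eq_mul]
      rw [mul_comm]
      congr 2
      ring
    · simp only [indicator_of_notMem ht, smul_zero]
  rw [h1, integral_indicator measurableSet_Ioi, Measure.restrict_restrict measurableSet_Ioi,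
    inter_eq_self_of_subset_left (Ioi_subset_Ioi zero_le_one)]

lemma HInt_differentiableAt {f : ℕ → ℂ} {κ : ℂ} {R1 : ℝ}
    (h : ∀ u : ℝ, 1 ≤ u → ‖Rem f κ u‖ ≤ R1) {s : ℂ} (hs : 0 < s.re) :
    DifferentiableAt ℂ (HInt f κ) s := by
  have hfun : HInt f κ = fun s => mellin (indicator (Ioi (1:ℝ)) (Rem f κ)) (-s) := by
    ext s; exact HInt_eq_mellin f κ s
  rw [hfun]
  have hbound : ∀ u : ℝ, ‖indicator (Ioi (1:ℝ)) (Rem f κ) u‖ ≤ |R1| := by
    intro u
    by_cases hu : u ∈ Ioi (1:ℝ)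
    · rw [indicator_of_mem hu]
      exact (h u (le_of_lt hu)).trans (le_abs_self _)
    · rw [indicator_of_notMem hu]; simp
  have hmeas : AEStronglyMeasurable (indicator (Ioi (1:ℝ)) (Rem f κ)) (volume.restrict (Ioi 0)) :=
    ((measurable_Rem f κ).indicator measurableSet_Ioi).aestronglyMeasurable
  have hloc : LocallyIntegrableOn (indicator (Ioi (1:ℝ)) (Rem f κ)) (Ioi 0) := by
    refine LocallyIntegrable.locallyIntegrableOn ?_ _
    have hc : LocallyIntegrable (fun _ : ℝ => |R1|) volume := locallyIntegrable_const _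
    refine hc.mono ((measurable_Rem f κ).indicator measurableSet_Ioi).aestronglyMeasurable ?_
    refine Eventually.of_forall fun u => ?_
    refine (hbound u).trans ?_
    simp
  have hd : DifferentiableAt ℂ (mellin (indicator (Ioi (1:ℝ)) (Rem f κ))) (-s) := by
    refine mellin_differentiableAt_of_isBigO_rpow (a := 0) (b := (-s).re - 1) hloc ?_ ?_ ?_ ?_
    · refine IsBigO.of_bound |R1| (Eventually.of_forall fun u => ?_)
      simpa using hbound u
    · simpa using hs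
    · refine IsBigO.of_bound 0 ?_
      have : ∀ᶠ u : ℝ in 𝓝[>] 0, u < 1 :=
        eventually_nhdsWithin_of_eventually_nhds (eventually_lt_nhds zero_lt_one)
      filter_upwards [this] with u hu
      rw [indicator_of_notMem (by simpa using hu.le)]
      simp
    · linarith
  exact hd.comp s (differentiableAt_id.neg)

/-- The Dirichlet series in terms of `HInt`. -/
lemma LSeries_eq_HInt {f : ℕ → ℂ} {κ : ℂ} {R1 : ℝ} (hf : ∀ n, ‖f n‖ ≤ 1)
    (h : ∀ u : ℝ, 1 ≤ u → ‖Rem f κ u‖ ≤ R1) {s : ℂ} (hs : 1 < s.re) :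
    LSeries f s = κ * (s / (s - 1)) + s * HInt f κ s := by
  have hO : (fun n : ℕ ↦ ∑ k ∈ Finset.Icc 1 n, ‖f k‖) =O[atTop] fun n : ℕ ↦ (n : ℝ) ^ (1:ℝ) := by
    refine IsBigO.of_bound 1 (Eventually.of_forall fun n => ?_)
    rw [Real.norm_of_nonneg (Finset.sum_nonneg fun _ _ => norm_nonneg _)]
    simp only [Real.rpow_one, one_mul, RCLike.norm_natCast]
    calc ∑ k ∈ Finset.Icc 1 n, ‖f k‖ ≤ ∑ k ∈ Finset.Icc 1 n, (1:ℝ) :=
          Finset.sum_le_sum fun k _ => hf k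
      _ = n := by simp
  rw [LSeries_eq_mul_integral' f zero_le_one hs hO]
  have hs0 : (s:ℂ) ≠ 0 := by
    intro h0; rw [h0] at hs; simp at hs; linarith
  have hs1 : s - 1 ≠ 0 := by
    intro h0
    have : s = 1 := by linear_combination h0
    rw [this] at hs; simp at hs
  have h1 : ∀ t ∈ Ioi (1:ℝ), (∑ k ∈ Finset.Icc 1 ⌊t⌋₊, f k) * (t:ℂ) ^ (-(s + 1)) =
      Rem f κ t * (t:ℂ) ^ (-(s + 1)) + κ * (t:ℂ) ^ (-s) := by
    intro t ht
    have ht0 : (t:ℂ) ≠ 0 := by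
      have : (0:ℝ) < t := lt_trans zero_lt_one ht
      exact_mod_cast this.ne'
    unfold Rem
    have h2 : (t:ℂ) * (t:ℂ) ^ (-(s+1)) = (t:ℂ) ^ (-s) := by
      have : -s = 1 + (-(s+1)) := by ring
      rw [this, cpow_add _ _ ht0, cpow_one]
    rw [← h2]; ring
  rw [setIntegral_congr_fun measurableSet_Ioi h1, integral_add]
  · rw [integral_const_mul, integral_Ioi_cpow_of_lt (by simpa using hs) zero_lt_one]
    have : HInt f κ s = ∫ u in Ioi (1:ℝ), Rem f κ u * (u:ℂ) ^ (-(s+1)) := rfl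
    rw [← this]
    simp only [ofReal_one, one_cpow]
    have h3 : -s + 1 = -(s-1) := by ring
    rw [h3]
    field_simp
    ring
  · exact integrableOn_Rem h (by linarith) le_rfl
  · refine Integrable.const_mul ?_ _
    exact integrableOn_Ioi_cpow_of_lt (by simpa using hs) zero_lt_one

end Pool.Agent.ANT
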