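import Pool.Agent.Lib.ANT.Recip

open Complex MeasureTheory Set Filter Asymptotics Topology

namespace Pool.Agent.ANT

/-- `(s-1) ζ(s)`, regularised. -/
noncomputable def Zreg (s : ℂ) : ℂ := (s - 1) * EX s + 1

lemma Zreg_eq {s : ℂ} (hs : s ≠ 1) : Zreg s = (s - 1) * ZX s := by
  have : s - 1 ≠ 0 := sub_ne_zero.mpr hs
  rw [ZX_eq_EX hs]
  unfold Zreg
  field_simp

lemma Zreg_diff {s : ℂ} (hs : 0 < s.re) : DifferentiableAt ℂ Zreg s := by
  unfold Zreg
  exact ((differentiableAt_id.sub_const _).mul (EX_differentiableAt hs)).add_const _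

lemma ZX_eq_zeta' {s : ℂ} (hs : 1 ≤ s.re) (hs1 : s ≠ 1) : ZX s = riemannZeta s := by
  have h1 : Tendsto ZX (𝓝[{z | 1 < z.re}] s) (𝓝 (ZX s)) :=
    (ZX_differentiableAt (by linarith) hs1).continuousAt.tendsto.mono_left nhdsWithin_le_nhds
  have h2 : Tendsto riemannZeta (𝓝[{z | 1 < z.re}] s) (𝓝 (riemannZeta s)) :=
    (differentiableAt_riemannZeta hs1).continuousAt.tendsto.mono_left nhdsWithin_le_nhds
  have hne : (𝓝[{z : ℂ | 1 < z.re}] s).NeBot := by
    rw [← mem_closure_iff_nhdsWithin_neBot]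
    rw [Complex.closure_setOfPred_lt_re]
    exact hs
  refine tendsto_nhds_unique h1 (h2.congr' ?_)
  filter_upwards [self_mem_nhdsWithin] with z hz
  exact (ZX_eq_zeta hz).symm

lemma Zreg_ne_zero {s : ℂ} (hs : 1 ≤ s.re) : Zreg s ≠ 0 := by
  by_cases h : s = 1
  · subst h
    simp [Zreg]
  · rw [Zreg_eq h, ZX_eq_zeta' hs h]
    exact mul_ne_zero (sub_ne_zero.mpr h) (riemannZeta_ne_zero_of_one_le_re hs)

/-- The Möbius function with complex values. -/
noncomputable def muC (n : ℕ) : ℂ := ((ArithmeticFunction.moebius n : ℤ) : ℂ)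

lemma norm_muC_le (n : ℕ) : ‖muC n‖ ≤ 1 := by
  unfold muC
  rw [Complex.norm_intCast]
  exact_mod_cast ArithmeticFunction.abs_moebius_le_one

lemma LSeries_muC_mul {z : ℂ} (hz : 1 < z.re) : LSeries muC z * ZX z = 1 := by
  rw [ZX_eq_LSeries hz, mul_comm]
  exact LSeries_one_mul_Lseries_moebius hz

/-- `1/ζ` near the line, low height. -/
lemma mu_low (k : ℕ) : ∃ C : ℝ, 0 ≤ C ∧ ∀ σ t : ℝ, 1 < σ → σ ≤ 2 → |t| ≤ 1 →
    ‖iteratedDeriv k (LSeries muC) (σ + t * I)‖ ≤ C := by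
  set U : Set ℂ := {z | 0 < z.re ∧ Zreg z ≠ 0} with hU
  have hUopen : IsOpen U := by
    have hc : ContinuousOn Zreg {z | 0 < z.re} := fun z hz => (Zreg_diff hz).continuousAt.continuousWithinAt
    have := hc.isOpen_inter_preimage isOpen_re_pos (isOpen_compl_singleton (x := (0:ℂ)))
    exact this
  set G : ℂ → ℂ := fun z => (z - 1) / Zreg z with hG
  have hGd : DifferentiableOn ℂ G U := by
    intro z hz
    refine DifferentiableAt.differentiableWithinAt ?_
    exact (differentiableAt_id.sub_const _).div (Zreg_diff hz.1) hz.2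
  have hGa : AnalyticOnNhd ℂ G U := hGd.analyticOnNhd hUopen
  have hcont : ContinuousOn (iteratedDeriv k G) U := by
    have : AnalyticOnNhd ℂ (iteratedDeriv k G) U := by
      rw [iteratedDeriv_eq_iterate]
      exact hGa.iterated_deriv k
    exact this.continuousOn
  set K : Set ℂ := (Icc (1:ℝ) 2) ×ℂ (Icc (-1:ℝ) 1) with hK
  have hKc : IsCompact K := isCompact_Icc.reProdIm isCompact_Icc
  have hKU : K ⊆ U := by
    intro z hz
    rw [hK, Complex.mem_reProdIm] at hz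
    exact ⟨by linarith [hz.1.1], Zreg_ne_zero hz.1.1⟩
  obtain ⟨C, hC⟩ := hKc.exists_bound_of_continuousOn (hcont.mono hKU)
  refine ⟨max C 0, le_max_right _ _, fun σ t hσ hσ2 ht => ?_⟩
  have hmem : ((σ:ℂ) + t * I) ∈ K := by
    rw [hK, Complex.mem_reProdIm]
    rw [abs_le] at ht
    simp only [add_re, ofReal_re, mul_re, I_re, mul_zero, ofReal_im, I_im, mul_one, sub_self,
      add_zero, add_im, mul_im, zero_add, mem_Icc]
    exact ⟨⟨hσ.le, hσ2⟩, ⟨ht.1, ht.2⟩⟩
  have heq : LSeries muC =ᶠ[𝓝 ((σ:ℂ) + t * I)] G := by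
    have : ((σ:ℂ) + t * I) ∈ {z : ℂ | 1 < z.re} := by simpa using hσ
    filter_upwards [isOpen_re_gt_one.mem_nhds this] with z hz
    have hz1 : z ≠ 1 := by
      rintro rfl
      simp at hz
    have h1 := LSeries_muC_mul hz
    have h2 := Zreg_eq hz1
    have h3 : z - 1 ≠ 0 := sub_ne_zero.mpr hz1
    have h4 : ZX z ≠ 0 := by
      intro h0; rw [h0, mul_zero] at h1; exact zero_ne_one h1
    rw [hG]
    simp only
    rw [h2, eq_div_iff (mul_ne_zero h3 h4)]
    linear_combination (z - 1) * h1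
  rw [heq.iteratedDeriv_eq]
  exact (hC _ hmem).trans (le_max_left _ _)

lemma ell_one_le_Lam (t : ℝ) : ell 1 t ≤ Lam 1 t := by
  unfold Lam ell
  apply Real.log_le_log (by positivity)
  push_cast
  nlinarith [abs_nonneg t]

lemma LSeries_char_one {z : ℂ} (hz : 1 < z.re) (χ : DirichletCharacter ℂ 1) :
    LSeries (fun n : ℕ => χ n) z = ZX z := by
  rw [ZX_eq_LSeries hz]
  have : (fun n : ℕ => χ n) = fun _ => (1:ℂ) := by
    have := DirichletCharacter.modOne_eq_one (χ := χ)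
    rw [this]; rfl
  rw [this]

lemma ZX_lower {t : ℝ} (ht : 1 ≤ |t|) {x : ℝ} (hx : 0 < x) (hx1 : x ≤ 1) :
    1 / (2 * 1728 ^ 3 * Lam 1 t ^ 6 * (45 * Lam 1 t) ^ 4) ≤ ‖ZX (1 + x + I * t)‖ := by
  have hΛ : 1 ≤ Lam 1 t := one_le_Lam 1 t
  have hell1 : 1 ≤ ell 1 t := one_le_ell le_rfl t
  refine three_four_one (h := fun x : ℝ => ‖ZX (1 + x + I * t)‖) hΛ (by linarith)
    (fun x => norm_nonneg _) ?_ ?_ hx hx1
  · intro y hy hy1
    have h1 := DirichletCharacter.norm_LSeries_product_ge_one (1 : DirichletCharacter ℂ 1) hy t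
    have hre1 : 1 < ((1:ℂ) + y).re := by simp [hy]
    have hre2 : 1 < ((1:ℂ) + y + I * t).re := by simp [hy]
    have hre3 : 1 < ((1:ℂ) + y + 2 * I * t).re := by simp [hy]
    rw [norm_mul, norm_mul, norm_pow, norm_pow, LSeries_char_one hre1, LSeries_char_one hre2,
      LSeries_char_one hre3] at h1
    have h2 : ‖ZX ((1:ℂ) + y)‖ ≤ 3 / y := by
      rw [ZX_eq_zeta hre1]
      have := zeta_real_le (σ := 1 + y) (by linarith) (by linarith)
      push_cast at this
      simpa using this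
    have h3 : ‖ZX ((1:ℂ) + y + 2 * I * t)‖ ≤ 45 * Lam 1 t := by
      have hne : (1:ℂ) + y + 2 * I * t ≠ 1 := by
        intro h
        have := congrArg Complex.re h
        simp at this
        exact hy.ne' this
      have him : ((1:ℂ) + y + 2 * I * t).im = 2 * t := by simp
      have hb := norm_cont_le_ell (f := fun _ => 1) (κ := 1) (R1 := 1) (by simp) (by simp) le_rfl
        (fun _ hu => norm_Rem_one_le hu) hne (by
          have : 0 ≤ 1 / (3 * ell 1 ((1:ℂ) + y + 2 * I * t).im) := by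
            have := one_le_ell (R := 1) le_rfl ((1:ℂ) + y + 2 * I * t).im
            positivity
          linarith [hre3])
      rw [him] at hb
      have h4 : 2 ≤ ‖(1:ℂ) + y + 2 * I * t - 1‖ := by
        have := Complex.abs_im_le_norm ((1:ℂ) + y + 2 * I * t - 1)
        rw [sub_im, him, one_im, sub_zero, abs_mul, abs_two] at this
        linarith
      have h5 : ‖(1:ℂ)‖ / ‖(1:ℂ) + y + 2 * I * t - 1‖ ≤ 1 / 2 := by
        rw [norm_one]
        exact one_div_le_one_div_of_le two_pos h4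
      have h6 : ell 1 (2 * t) ≤ Lam 1 (2 * t) := ell_one_le_Lam _
      have h7 := Lam_two_mul (q := 1) t
      have h8 : ‖ZX ((1:ℂ) + y + 2 * I * t)‖ ≤ 21 * ell 1 (2 * t) + 3 * (1/2) := by
        refine le_trans ?_ (hb.trans ?_)
        · exact le_of_eq rfl
        · linarith
      linarith
    have h4 : 1 ≤ (3 / y) ^ 3 * ‖ZX (1 + y + I * t)‖ ^ 4 * (45 * Lam 1 t) := by
      calc (1:ℝ) ≤ _ := h1
        _ ≤ _ := by gcongr
    have h5 : (3 / y) ^ 3 * ‖ZX (1 + y + I * t)‖ ^ 4 * (45 * Lam 1 t) =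
        (27 * ‖ZX (1 + y + I * t)‖ ^ 4 * (45 * Lam 1 t)) / y ^ 3 := by rw [div_pow]; ring
    rw [h5, le_div_iff₀ (by positivity), one_mul] at h4
    exact h4
  · intro y y' hy hyy' hy1
    have hy' : 0 < y' := lt_of_lt_of_le hy hyy'
    have h1 := ZX_sub_le (B := Lam 1 t) (convex_ray t) (fun z hz => hz.1)
      (fun z hz => by rw [hz.2]; exact ht) (fun z hz => by rw [hz.2]; exact ell_one_le_Lam t)
      (mem_ray hy) (mem_ray hy') (x := 1 + y + I * t) (y := 1 + y' + I * t)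
    have h2 : ‖((1:ℂ) + y' + I * t) - (1 + y + I * t)‖ = y' - y := by
      have : ((1:ℂ) + y' + I * t) - (1 + y + I * t) = ((y' - y : ℝ) : ℂ) := by push_cast; ring
      rw [this, Complex.norm_real, Real.norm_of_nonneg (by linarith)]
    rw [h2] at h1
    have h3 := norm_sub_norm_le (ZX (1 + y' + I * t)) (ZX (1 + y + I * t))
    linarith

lemma ZX_diffOn : DifferentiableOn ℂ ZX {z : ℂ | 1 < z.re} := by
  intro z hz
  refine (ZX_differentiableAt (by simp only [mem_ofPred_eq] at hz; linarith) ?_).differentiableWithinAt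
  rintro rfl
  simp at hz

lemma Fk_bound_mu (k : ℕ) : ∃ C : ℝ, 1 ≤ C ∧ ∀ σ t : ℝ, 1 < σ → σ ≤ 2 →
    ‖LSeries (fun n => muC n * ((Real.log n ^ k : ℝ) : ℂ)) (σ + t * I)‖ ≤
      C * (1 + t ^ 2) ^ (1/4 : ℝ) := by
  obtain ⟨C0, hC0, hlow⟩ := mu_low k
  obtain ⟨C2, hC2, hrec⟩ := recip_deriv_bound k
  obtain ⟨C3, hC3, hLam⟩ := Lam_pow_le (14 * (3 * k + 1)) one_pos
  set C1 : ℝ := 2 * 1728 ^ 3 * 45 ^ 4 with hC1
  have hC1' : 1 ≤ C1 := by rw [hC1]; norm_num
  refine ⟨max 1 (max C0 (C2 * C1 ^ (3*k+1) * C3)), le_max_left _ _, fun σ t hσ hσ2 => ?_⟩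
  set s : ℂ := σ + t * I with hs
  have hre : s.re = σ := by simp [hs]
  have him : s.im = t := by simp [hs]
  have hs1 : 1 < s.re := by rw [hre]; exact hσ
  rw [norm_LSeries_log_eq k (abscissa_lt norm_muC_le hs1)]
  have h1t : 1 ≤ (1 + t ^ 2) ^ (1/4 : ℝ) := Real.one_le_rpow (by nlinarith) (by norm_num)
  by_cases ht : |t| ≤ 1
  · have h1 := hlow σ t hσ hσ2 ht
    calc _ ≤ C0 := h1
      _ ≤ max 1 (max C0 (C2 * C1 ^ (3*k+1) * C3)) :=
          le_trans (le_max_left _ _) (le_max_right _ _)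
      _ = max 1 (max C0 (C2 * C1 ^ (3*k+1) * C3)) * 1 := (mul_one _).symm
      _ ≤ _ := by gcongr
  · push Not at ht
    set W : ℝ := C1 * Lam 1 t ^ 14 with hW
    have hΛ : 1 ≤ Lam 1 t := one_le_Lam 1 t
    have hΛW : Lam 1 t ≤ W := by
      have h1 : Lam 1 t ≤ Lam 1 t ^ 14 := by
        calc Lam 1 t = Lam 1 t ^ 1 := (pow_one _).symm
          _ ≤ _ := pow_le_pow_right₀ hΛ (by norm_num)
      rw [hW]
      nlinarith [pow_pos (by linarith : 0 < Lam 1 t) 14]
    have hW1 : 1 ≤ W := hΛ.trans hΛW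
    have hseq : s = 1 + ((σ - 1 : ℝ) : ℂ) + I * t := by
      rw [hs]; push_cast; ring
    have hlower := ZX_lower ht.le (x := σ - 1) (by linarith) (by linarith)
    rw [← hseq] at hlower
    have hFs : ‖LSeries muC s‖ ≤ W := by
      have h2 := LSeries_muC_mul hs1
      have h3 := congrArg norm h2
      rw [norm_mul, norm_one] at h3
      rw [div_le_iff₀ (by positivity)] at hlower
      have h4 : 1 ≤ W * ‖ZX s‖ := by
        calc (1:ℝ) ≤ _ := hlower
          _ = C1 * Lam 1 t ^ 10 * ‖ZX s‖ := by rw [hC1]; ring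
          _ ≤ C1 * Lam 1 t ^ 14 * ‖ZX s‖ := by
              gcongr
              norm_num
      calc ‖LSeries muC s‖ = ‖LSeries muC s‖ * 1 := (mul_one _).symm
        _ ≤ ‖LSeries muC s‖ * (W * ‖ZX s‖) := by gcongr
        _ = W * (‖LSeries muC s‖ * ‖ZX s‖) := by ring
        _ = W := by rw [h3, mul_one]
    have hLs : ∀ j : ℕ, ‖iteratedDeriv j ZX s‖ ≤ j.factorial * (48 * W) * (6 * W) ^ j := by
      intro j
      have h1 := norm_iteratedDeriv_ZX_le hs1.le (by rw [him]; exact ht.le) j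
      rw [him] at h1
      have h2 : ell 1 t ≤ W := (ell_one_le_Lam t).trans hΛW
      have h3 : 0 ≤ ell 1 t := by linarith [one_le_ell (R := 1) le_rfl t]
      refine h1.trans ?_
      gcongr
    have hmain := hrec (LSeries muC) ZX {z | 1 < z.re} isOpen_re_gt_one
      (LSeries_diffOn_of_bdd norm_muC_le) ZX_diffOn
      (fun z hz => LSeries_muC_mul hz) s hs1 W hW1 hFs hLs
    have h5 := hLam 1 t
    calc ‖iteratedDeriv k (LSeries muC) s‖ ≤ C2 * W ^ (3 * k + 1) := hmain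
      _ = C2 * (C1 ^ (3*k+1) * Lam 1 t ^ (14 * (3 * k + 1))) := by
          rw [hW, mul_pow, pow_mul]
      _ ≤ C2 * (C1 ^ (3*k+1) * (C3 * ((1:ℕ):ℝ) ^ (1:ℝ) * (1 + t ^ 2) ^ (1/4 : ℝ))) := by
          gcongr
      _ = (C2 * C1 ^ (3*k+1) * C3) * (1 + t ^ 2) ^ (1/4 : ℝ) := by
          simp; ring
      _ ≤ _ := by
          gcongr
          exact le_trans (le_max_right _ _) (le_max_right _ _)

/-- **PNT for the Möbius function with arbitrary powers of log.** -/
theorem mertens_bound (m : ℕ) : ∃ C : ℝ, 0 < C ∧ ∀ x : ℝ, 3 ≤ x →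
    ‖∑ n ∈ Finset.Icc 1 ⌊x⌋₊, muC n‖ ≤ C * x / Real.log x ^ m := by
  obtain ⟨C1, hC1, hsum⟩ := sum_bound_of_line m
  obtain ⟨C2, hC2, hline⟩ := Fk_bound_mu (2*m)
  refine ⟨C1 * (C2 + 1), by positivity, fun x hx => ?_⟩
  exact hsum muC C2 norm_muC_le (fun σ t h1 h2 => hline σ t h1 h2) x hx

end Pool.Agent.ANT
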