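import Pool.Agent.Lib.ANT.DivBound
import Pool.Agent.Lib.ANT.MuPNT

open Complex ArithmeticFunction
open scoped ArithmeticFunction.Moebius

namespace Pool.Agent.ANT

/-- `φ_m(y) = y/(2m + log y)^m`. -/
noncomputable def phim (m : ℕ) (y : ℝ) : ℝ := y / (2 * m + Real.log y) ^ m

lemma phim_nonneg (m : ℕ) {y : ℝ} (hy : 1 ≤ y) : 0 ≤ phim m y := by
  unfold phim
  have := Real.log_nonneg hy
  positivity

lemma phim_nat_nonneg (m : ℕ) (n : ℕ) : 0 ≤ phim m n := by
  unfold phim
  have := Real.log_natCast_nonneg n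
  positivity

/-- key scaling inequality -/
lemma phim_scale (m : ℕ) {y z : ℝ} (hy : 1 ≤ y) (hyz : y ≤ z) :
    phim m y ≤ √(y/z) * phim m z := by
  have hy0 : 0 < y := by linarith
  have hz0 : 0 < z := by linarith
  have hly : 0 ≤ Real.log y := Real.log_nonneg hy
  have hlz : Real.log y ≤ Real.log z := Real.log_le_log hy0 hyz
  set t := Real.log z - Real.log y with ht
  have ht0 : 0 ≤ t := by linarith
  have key : (2 * m + Real.log z) ^ m ≤ (2 * m + Real.log y) ^ m * Real.exp (t/2) := by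
    rcases Nat.eq_zero_or_pos m with rfl | hm
    · simp; positivity
    · have hm0 : (0:ℝ) < m := by exact_mod_cast hm
      have h1 : 2 * m + Real.log z ≤ (2 * m + Real.log y) * Real.exp (t / (2*m)) := by
        have h2 := Real.add_one_le_exp (t / (2*m))
        have h3 : 2 * m + Real.log z ≤ (2 * m + Real.log y) * (t / (2*m) + 1) := by
          have h4 : t ≤ (2 * m + Real.log y) * (t / (2*m)) := by
            have : 0 ≤ Real.log y * (t / (2 * m)) := by positivity
            have h5 : (2 * m + Real.log y) * (t / (2*m)) = t + Real.log y * (t / (2 * m)) := by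
              field_simp
            linarith
          linarith
        refine h3.trans ?_
        gcongr
      calc (2 * m + Real.log z) ^ m ≤ ((2 * m + Real.log y) * Real.exp (t / (2*m))) ^ m := by
            have : 0 ≤ Real.log z := by linarith
            gcongr
        _ = (2 * m + Real.log y) ^ m * Real.exp (t/2) := by
            rw [mul_pow, ← Real.exp_nat_mul]
            congr 2
            field_simp
  have hexp : Real.exp (t/2) = √(z/y) := by
    rw [ht, ← Real.log_div hz0.ne' hy0.ne', Real.sqrt_eq_rpow, Real.rpow_def_of_pos (by positivity)]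
    congr 1
    ring
  rw [hexp] at key
  unfold phim
  rcases Nat.eq_zero_or_pos m with rfl | hm
  · simp only [pow_zero, div_one]
    have h1 : √(y/z) * √(y/z) = y/z := Real.mul_self_sqrt (by positivity)
    have h2 : √(y/z) ≤ 1 := Real.sqrt_le_one.mpr ((div_le_one hz0).mpr hyz)
    have h3 : y = (y/z) * z := by field_simp
    calc y = (√(y/z) * √(y/z)) * z := by rw [h1]; exact h3
      _ ≤ (√(y/z) * 1) * z := by gcongr
      _ = _ := by ring
  · have hm0 : (0:ℝ) < m := by exact_mod_cast hm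
    have hpy : 0 < (2 * m + Real.log y) ^ m := by positivity
    have hpz : 0 < (2 * m + Real.log z) ^ m := by
      have : 0 ≤ Real.log z := by linarith
      positivity
    rw [← mul_div_assoc, div_le_div_iff₀ hpy hpz]
    have h1 : √(y/z) * z * √(z/y) = z := by
      have : √(y/z) * √(z/y) = 1 := by
        rw [← Real.sqrt_mul (by positivity)]
        rw [div_mul_div_cancel₀ hz0.ne', div_self hy0.ne', Real.sqrt_one]
      linear_combination z * this
    have h2 : √(z/y) * y = √(y/z) * z := by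
      have e1 : √(z/y) = √z / √y := Real.sqrt_div hz0.le y
      have e2 : √(y/z) = √y / √z := Real.sqrt_div hy0.le z
      have e3 : √z * √z = z := Real.mul_self_sqrt hz0.le
      have e4 : √y * √y = y := Real.mul_self_sqrt hy0.le
      have e5 : 0 < √z := Real.sqrt_pos.mpr hz0
      have e6 : 0 < √y := Real.sqrt_pos.mpr hy0
      rw [e1, e2, div_mul_eq_mul_div, div_mul_eq_mul_div, div_eq_div_iff e6.ne' e5.ne']
      linear_combination y * e3 - z * e4
    calc y * (2 * m + Real.log z) ^ m ≤ y * ((2 * m + Real.log y) ^ m * √(z/y)) := by gcongr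
      _ = √(z/y) * y * (2 * m + Real.log y) ^ m := by ring
      _ = √(y/z) * z * (2 * m + Real.log y) ^ m := by rw [h2]

lemma phim_mono (m : ℕ) {y z : ℝ} (hy : 1 ≤ y) (hyz : y ≤ z) : phim m y ≤ phim m z := by
  refine (phim_scale m hy hyz).trans (mul_le_of_le_one_left (phim_nonneg m (hy.trans hyz)) ?_)
  exact Real.sqrt_le_one.mpr ((div_le_one (by linarith)).mpr hyz)

lemma phim_nat_mono (m : ℕ) {a b : ℕ} (h : a ≤ b) : phim m a ≤ phim m b := by
  rcases Nat.eq_zero_or_pos a with rfl | ha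
  · have : phim m ((0:ℕ):ℝ) = 0 := by simp [phim]
    rw [this]; exact phim_nat_nonneg m b
  · exact phim_mono m (by exact_mod_cast ha) (by exact_mod_cast h)

lemma phim_div_prime (m : ℕ) {p N : ℕ} (hp : 2 ≤ p) :
    phim m ((N / p : ℕ) : ℝ) ≤ 3/4 * phim m N := by
  rcases Nat.eq_zero_or_pos (N/p) with h | h
  · rw [h]
    have : phim m ((0:ℕ):ℝ) = 0 := by simp [phim]
    rw [this]
    have := phim_nat_nonneg m N
    positivity
  · have hN : 0 < N := lt_of_lt_of_le h (Nat.div_le_self _ _)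
    have hN0 : (0:ℝ) < N := by exact_mod_cast hN
    refine (phim_scale m (y := ((N/p:ℕ):ℝ)) (z := N) (by exact_mod_cast h)
      (by exact_mod_cast Nat.div_le_self _ _)).trans ?_
    refine mul_le_mul_of_nonneg_right ?_ (phim_nat_nonneg m N)
    have h1 : ((N/p:ℕ):ℝ) / N ≤ (3/4)^2 := by
      rw [div_le_iff₀ hN0]
      have h2 : ((N/p:ℕ):ℝ) ≤ N / p := Nat.cast_div_le
      have hp' : (2:ℝ) ≤ p := by exact_mod_cast hp
      have h3 : (N:ℝ) / p ≤ N / 2 := by gcongr
      nlinarith
    calc √(((N/p:ℕ):ℝ) / N) ≤ √((3/4)^2) := Real.sqrt_le_sqrt h1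
      _ = 3/4 := Real.sqrt_sq (by norm_num)

/-- Conversion of a logarithmic saving for `x ≥ 3` to the majorant `φ_m`. -/
lemma to_phim {a : ℕ → ℂ} (ha : ∀ n, ‖a n‖ ≤ 1) {m : ℕ} {C : ℝ} (hC : 0 ≤ C)
    (h : ∀ x : ℝ, 3 ≤ x → ‖∑ n ∈ Finset.Icc 1 ⌊x⌋₊, a n‖ ≤ C * x / Real.log x ^ m) (N : ℕ) :
    ‖∑ n ∈ Finset.Ioc 0 N, a n‖ ≤ (C + 1) * (2 * m + 1) ^ m * phim m N := by
  have hlN : 0 ≤ Real.log N := Real.log_natCast_nonneg N
  rcases lt_or_ge N 3 with h3 | h3
  · rcases Nat.eq_zero_or_pos N with rfl | hN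
    · simp [phim]
    have h1 : ‖∑ n ∈ Finset.Ioc 0 N, a n‖ ≤ N := by
      calc _ ≤ ∑ n ∈ Finset.Ioc 0 N, (1:ℝ) := (norm_sum_le _ _).trans (Finset.sum_le_sum fun n _ => ha n)
        _ = N := by simp
    have h2 : (N:ℝ) ≤ (2 * m + 1) ^ m * phim m N := by
      unfold phim
      rcases Nat.eq_zero_or_pos m with rfl | hm
      · simp
      have hm0 : (0:ℝ) < m := by exact_mod_cast hm
      rw [mul_div_assoc', le_div_iff₀ (by positivity), mul_comm]
      have hl1 : Real.log N ≤ 1 := by
        have h5 : (N:ℝ) ≤ 2 := by exact_mod_cast (by omega : N ≤ 2)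
        have h6 := Real.log_le_log (by exact_mod_cast hN) h5
        have := Real.log_two_lt_d9
        linarith
      gcongr
    have h4 : 0 ≤ (2 * (m:ℝ) + 1) ^ m * phim m N := mul_nonneg (by positivity) (phim_nat_nonneg m N)
    calc _ ≤ _ := h1
      _ ≤ _ := h2
      _ ≤ (C + 1) * ((2 * m + 1) ^ m * phim m N) := by nlinarith
      _ = _ := by ring
  · have h1 := h N (by exact_mod_cast h3)
    rw [Nat.floor_natCast] at h1
    have h3' : (3:ℝ) ≤ N := by exact_mod_cast h3
    have hl1 : 1 ≤ Real.log N := by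
      rw [Real.le_log_iff_exp_le (by linarith)]
      have := Real.exp_one_lt_d9
      linarith
    calc _ ≤ _ := h1
      _ ≤ C * (2 * m + 1) ^ m * phim m N := by
          unfold phim
          rcases Nat.eq_zero_or_pos m with rfl | hm
          · simp
          have hm0 : (0:ℝ) < m := by exact_mod_cast hm
          have h2 : (2 * (m:ℝ) + Real.log N) ^ m ≤ (2 * m + 1) ^ m * Real.log N ^ m := by
            rw [← mul_pow]
            gcongr
            nlinarith
          rw [mul_div_assoc', div_le_div_iff₀ (by positivity) (by positivity)]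
          calc C * N * (2 * (m:ℝ) + Real.log N) ^ m ≤ C * N * ((2 * m + 1) ^ m * Real.log N ^ m) := by
                gcongr
            _ = _ := by ring
      _ ≤ _ := by
          have := phim_nat_nonneg m N
          gcongr
          linarith

/-! ### Adding and removing coprimality conditions -/

/-- `∑_{n ≤ N, no p ∈ S divides n} μ(n) g(n)`. -/
noncomputable def SS (S : Finset ℕ) (N : ℕ) (g : ℕ → ℂ) : ℂ :=
  ∑ n ∈ (Finset.Ioc 0 N).filter (fun n => ∀ p ∈ S, ¬ p ∣ n), muC n * g n

lemma muC_prime_mul {p k : ℕ} (hp : p.Prime) : muC (p * k) = if p ∣ k then 0 else - muC k := by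
  unfold muC
  split_ifs with h
  · obtain ⟨j, rfl⟩ := h
    have : ¬ Squarefree (p * (p * j)) := by
      intro hsq
      have := hsq p ⟨j, by ring⟩
      exact hp.one_lt.ne' (Nat.isUnit_iff.mp this)
    rw [moebius_eq_zero_of_not_squarefree this]
    simp
  · have hcop : Nat.Coprime p k := (Nat.Prime.coprime_iff_not_dvd hp).mpr h
    rw [isMultiplicative_moebius.map_mul_of_coprime hcop, moebius_apply_prime hp]
    simp

lemma SS_insert {S : Finset ℕ} (hS : ∀ q ∈ S, q.Prime) {p : ℕ} (hp : p.Prime) (hpS : p ∉ S) (N : ℕ)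
    (g : ℕ → ℂ) :
    SS S N g = SS (insert p S) N g - SS (insert p S) (N / p) (fun n => g (p * n)) := by
  unfold SS
  -- split according to `p ∣ n`
  have h1 : ∑ n ∈ (Finset.Ioc 0 N).filter (fun n => ∀ q ∈ S, ¬ q ∣ n), muC n * g n =
      ∑ n ∈ (Finset.Ioc 0 N).filter (fun n => ∀ q ∈ insert p S, ¬ q ∣ n), muC n * g n +
      ∑ n ∈ (Finset.Ioc 0 N).filter (fun n => p ∣ n ∧ ∀ q ∈ S, ¬ q ∣ n), muC n * g n := by
    rw [Finset.sum_filter, Finset.sum_filter, Finset.sum_filter, ← Finset.sum_add_distrib]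
    refine Finset.sum_congr rfl fun n _ => ?_
    by_cases hpn : p ∣ n <;> by_cases hSn : ∀ q ∈ S, ¬ q ∣ n
    · have : ¬ ∀ q ∈ insert p S, ¬ q ∣ n := fun h => h p (Finset.mem_insert_self _ _) hpn
      rw [if_pos hSn, if_neg this, if_pos ⟨hpn, hSn⟩, zero_add]
    · have : ¬ ∀ q ∈ insert p S, ¬ q ∣ n := fun h => h p (Finset.mem_insert_self _ _) hpn
      rw [if_neg hSn, if_neg this, if_neg (fun h => hSn h.2), zero_add]
    · have : ∀ q ∈ insert p S, ¬ q ∣ n := by
        intro q hq
        rcases Finset.mem_insert.mp hq with rfl | hq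
        · exact hpn
        · exact hSn q hq
      rw [if_pos hSn, if_pos this, if_neg (fun h => hpn h.1), add_zero]
    · have : ¬ ∀ q ∈ insert p S, ¬ q ∣ n := fun h => hSn fun q hq => h q (Finset.mem_insert_of_mem hq)
      rw [if_neg hSn, if_neg this, if_neg (fun h => hpn h.1), add_zero]
  have h2 : ∑ n ∈ (Finset.Ioc 0 N).filter (fun n => p ∣ n ∧ ∀ q ∈ S, ¬ q ∣ n), muC n * g n =
      ∑ k ∈ (Finset.Ioc 0 (N/p)).filter (fun k => ∀ q ∈ S, ¬ q ∣ k), muC (p * k) * g (p * k) := by
    symm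
    refine Finset.sum_bij' (fun k _ => p * k) (fun n _ => n / p) ?_ ?_ ?_ ?_ ?_
    · intro k hk
      obtain ⟨hk1, hk2⟩ := Finset.mem_filter.mp hk
      obtain ⟨hk3, hk4⟩ := Finset.mem_Ioc.mp hk1
      refine Finset.mem_filter.mpr ⟨Finset.mem_Ioc.mpr ⟨Nat.mul_pos hp.pos hk3, ?_⟩,
        dvd_mul_right p k, fun q hq hqd => ?_⟩
      · rw [mul_comm]; exact (Nat.le_div_iff_mul_le hp.pos).mp hk4
      · rcases (hS q hq).dvd_mul.mp hqd with h | h
        · have : q = p := (Nat.prime_dvd_prime_iff_eq (hS q hq) hp).mp h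
          exact hpS (this ▸ hq)
        · exact hk2 q hq h
    · intro n hn
      obtain ⟨hn1, hn2, hn3⟩ := Finset.mem_filter.mp hn
      obtain ⟨hn4, hn5⟩ := Finset.mem_Ioc.mp hn1
      obtain ⟨k, rfl⟩ := hn2
      have hk : 0 < k := Nat.pos_of_ne_zero (by rintro rfl; simp at hn4)
      rw [Nat.mul_div_cancel_left _ hp.pos]
      refine Finset.mem_filter.mpr ⟨Finset.mem_Ioc.mpr ⟨hk, ?_⟩, fun q hq hqd => ?_⟩
      · rw [Nat.le_div_iff_mul_le hp.pos, mul_comm]; exact hn5
      · exact hn3 q hq (hqd.mul_left p)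
    · intro k _
      exact Nat.mul_div_cancel_left _ hp.pos
    · intro n hn
      exact Nat.mul_div_cancel' (Finset.mem_filter.mp hn).2.1
    · intro k _; rfl
  have h3 : ∑ k ∈ (Finset.Ioc 0 (N/p)).filter (fun k => ∀ q ∈ S, ¬ q ∣ k), muC (p * k) * g (p * k) =
      - ∑ k ∈ (Finset.Ioc 0 (N/p)).filter (fun k => ∀ q ∈ insert p S, ¬ q ∣ k),
        muC k * g (p * k) := by
    rw [Finset.sum_filter, Finset.sum_filter, ← Finset.sum_neg_distrib]
    refine Finset.sum_congr rfl fun k _ => ?_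
    by_cases hSk : ∀ q ∈ S, ¬ q ∣ k
    · rw [if_pos hSk, muC_prime_mul hp]
      by_cases hpk : p ∣ k
      · have : ¬ ∀ q ∈ insert p S, ¬ q ∣ k := fun h => h p (Finset.mem_insert_self _ _) hpk
        rw [if_pos hpk, if_neg this]; ring
      · have : ∀ q ∈ insert p S, ¬ q ∣ k := by
          intro q hq
          rcases Finset.mem_insert.mp hq with rfl | hq
          · exact hpk
          · exact hSk q hq
        rw [if_neg hpk, if_pos this]; ring
    · have : ¬ ∀ q ∈ insert p S, ¬ q ∣ k := fun h => hSk fun q hq => h q (Finset.mem_insert_of_mem hq)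
      rw [if_neg hSk, if_neg this]; ring
  rw [h1, h2, h3]; ring

/-- A class of weights closed under dilation by primes. -/
def DilClosed (G : Set (ℕ → ℂ)) : Prop :=
  ∀ g ∈ G, ∀ p : ℕ, p.Prime → (fun n => g (p * n)) ∈ G

/-- Removing primes. -/
lemma SS_remove {G : Set (ℕ → ℂ)} (hG : DilClosed G) {m : ℕ} {K : ℝ} (hK : 0 ≤ K)
    (h : ∀ g ∈ G, ∀ N : ℕ, ‖∑ n ∈ Finset.Ioc 0 N, muC n * g n‖ ≤ K * phim m N)
    (S : Finset ℕ) (hS : ∀ q ∈ S, q.Prime) :
    ∀ g ∈ G, ∀ N : ℕ, ‖SS S N g‖ ≤ 4 ^ S.card * K * phim m N := by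
  induction S using Finset.induction_on with
  | empty =>
    intro g hg N
    unfold SS
    have : (Finset.Ioc 0 N).filter (fun n => ∀ p ∈ (∅:Finset ℕ), ¬ p ∣ n) = Finset.Ioc 0 N :=
      Finset.filter_true_of_mem fun n _ p hp => absurd hp (Finset.notMem_empty p)
    rw [this]
    simpa using h g hg N
  | insert p S hpS ih =>
    have hp := hS p (Finset.mem_insert_self _ _)
    have hS' : ∀ q ∈ S, q.Prime := fun q hq => hS q (Finset.mem_insert_of_mem hq)
    have ih' := ih hS'
    intro g hg N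
    induction N using Nat.strong_induction_on generalizing g with
    | _ N ihN =>
      rcases Nat.eq_zero_or_pos N with rfl | hN
      · unfold SS; simp [phim]
      have h1 := SS_insert hS' hp hpS N g
      have h2 : SS (insert p S) N g = SS S N g + SS (insert p S) (N / p) (fun n => g (p * n)) := by
        rw [h1]; ring
      rw [h2, Finset.card_insert_of_notMem hpS, pow_succ]
      have h3 := ih' g hg N
      have h4 := ihN (N/p) (Nat.div_lt_self hN hp.one_lt) (fun n => g (p * n)) (hG g hg p hp)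
      rw [Finset.card_insert_of_notMem hpS, pow_succ] at h4
      have h5 := phim_div_prime m (N := N) hp.two_le
      calc _ ≤ 4 ^ S.card * K * phim m N + 4 ^ S.card * 4 * K * phim m ((N/p : ℕ):ℝ) :=
            (norm_add_le _ _).trans (add_le_add h3 h4)
        _ ≤ 4 ^ S.card * K * phim m N + 4 ^ S.card * 4 * K * (3/4 * phim m N) := by gcongr
        _ = _ := by ring

/-- Adding primes back. -/
lemma SS_addback {G : Set (ℕ → ℂ)} (hG : DilClosed G) {m : ℕ} {K : ℝ} (hK : 0 ≤ K)
    (S : Finset ℕ) (hS : ∀ q ∈ S, q.Prime) (T : Finset ℕ) (hTS : T ⊆ S)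
    (h : ∀ g ∈ G, ∀ N : ℕ, ‖SS S N g‖ ≤ K * phim m N) :
    ∀ g ∈ G, ∀ N : ℕ, ‖SS (S \ T) N g‖ ≤ 2 ^ T.card * K * phim m N := by
  induction T using Finset.induction_on with
  | empty =>
    intro g hg N
    simpa using h g hg N
  | insert p T hpT ih =>
    have hT : T ⊆ S := (Finset.insert_subset_iff.mp hTS).2
    have hpS : p ∈ S := (Finset.insert_subset_iff.mp hTS).1
    have ih' := ih hT
    have hp := hS p hpS
    intro g hg N
    have hins : insert p (S \ insert p T) = S \ T := by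
      ext q
      simp only [Finset.mem_insert, Finset.mem_sdiff, not_or]
      constructor
      · rintro (rfl | ⟨h1, h2, h3⟩)
        · exact ⟨hpS, hpT⟩
        · exact ⟨h1, h3⟩
      · rintro ⟨h1, h2⟩
        by_cases hq : q = p
        · exact Or.inl hq
        · exact Or.inr ⟨h1, hq, h2⟩
    have h1 := SS_insert (S := S \ insert p T) (fun q hq => hS q (Finset.mem_sdiff.mp hq).1) hp
      (fun h => (Finset.mem_sdiff.mp h).2 (Finset.mem_insert_self _ _)) N g
    rw [hins] at h1
    rw [h1, Finset.card_insert_of_notMem hpT, pow_succ]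
    have h3 := ih' g hg N
    have h4 := ih' (fun n => g (p * n)) (hG g hg p hp) (N/p)
    have h5 := phim_nat_mono m (Nat.div_le_self N p)
    calc _ ≤ 2 ^ T.card * K * phim m N + 2 ^ T.card * K * phim m ((N/p : ℕ):ℝ) :=
          (norm_sub_le _ _).trans (add_le_add h3 h4)
      _ ≤ 2 ^ T.card * K * phim m N + 2 ^ T.card * K * phim m N := by gcongr
      _ = _ := by ring

lemma forall_primeFactors_iff {q n : ℕ} (hq : q ≠ 0) :
    (∀ p ∈ q.primeFactors, ¬ p ∣ n) ↔ n.Coprime q := by
  constructor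
  · intro h
    by_contra hcon
    obtain ⟨p, hp, hpn, hpq⟩ := Nat.Prime.not_coprime_iff_dvd.mp hcon
    exact h p (Nat.mem_primeFactors.mpr ⟨hp, hpq, hq⟩) hpn
  · intro h p hp hpn
    have hp' := Nat.prime_of_mem_primeFactors hp
    have := Nat.dvd_gcd hpn (Nat.dvd_of_mem_primeFactors hp)
    rw [Nat.Coprime] at h
    rw [h] at this
    exact hp'.one_lt.ne' (Nat.dvd_one.mp this)

lemma SS_primeFactors {q : ℕ} (hq : q ≠ 0) (N : ℕ) (g : ℕ → ℂ) :
    SS q.primeFactors N g = ∑ n ∈ (Finset.Ioc 0 N).filter (fun n => n.Coprime q), muC n * g n := by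
  unfold SS
  congr 1
  exact Finset.filter_congr fun n _ => forall_primeFactors_iff hq

end Pool.Agent.ANT
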