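import Pool.Agent.Lib.ANT.Hyp

open Complex

namespace Pool.Agent.ANT

/-- Harmonic sum. -/
noncomputable def Hs (N : ℕ) : ℝ := ∑ n ∈ Finset.Ioc 0 N, (1:ℝ) / n

lemma Hs_nonneg (N : ℕ) : 0 ≤ Hs N := Finset.sum_nonneg fun _ _ => by positivity

lemma Hs_mono {M N : ℕ} (h : M ≤ N) : Hs M ≤ Hs N :=
  Finset.sum_le_sum_of_subset_of_nonneg (Finset.Ioc_subset_Ioc_right h) fun _ _ _ => by positivity

lemma Hs_eq_harmonic (N : ℕ) : Hs N = (harmonic N : ℝ) := by
  unfold Hs harmonic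
  push_cast
  induction N with
  | zero => simp
  | succ n ih =>
    rw [Finset.sum_Ioc_succ_top (by omega), Finset.sum_range_succ, ih]
    simp

lemma Hs_le (N : ℕ) : Hs N ≤ 1 + Real.log N := by
  rw [Hs_eq_harmonic]; exact harmonic_le_one_add_log N

/-- Number of divisors as a real number. -/
noncomputable def tauR (n : ℕ) : ℝ := (n.divisors.card : ℝ)

lemma tauR_nonneg (n : ℕ) : 0 ≤ tauR n := Nat.cast_nonneg _

lemma one_le_tauR {n : ℕ} (hn : n ≠ 0) : 1 ≤ tauR n := by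
  unfold tauR
  exact_mod_cast Finset.card_pos.mpr ⟨1, Nat.one_mem_divisors.mpr hn⟩

lemma tauR_mul_le (m n : ℕ) : tauR (m * n) ≤ tauR m * tauR n := by
  unfold tauR
  rw [Nat.divisors_mul]
  exact_mod_cast Finset.card_mul_le

/-- Real version of `sum_conv`. -/
lemma sum_convR (F G : ℕ → ℝ) (N : ℕ) :
    ∑ k ∈ Finset.Ioc 0 N, ∑ p ∈ k.divisorsAntidiagonal, F p.1 * G p.2 =
      ∑ m ∈ Finset.Ioc 0 N, F m * ∑ n ∈ Finset.Ioc 0 (N / m), G n := by
  have h := sum_conv (fun n => (F n : ℂ)) (fun n => (G n : ℂ)) N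
  exact_mod_cast h

/-- `∑_{k ≤ N} ∑_{mn = k} F(m,n)`. -/
lemma sum_pairs (F : ℕ → ℕ → ℝ) (N : ℕ) :
    ∑ k ∈ Finset.Ioc 0 N, ∑ p ∈ k.divisorsAntidiagonal, F p.1 p.2 =
      ∑ m ∈ Finset.Ioc 0 N, ∑ n ∈ Finset.Ioc 0 (N / m), F m n := by
  rw [Finset.sum_sigma', Finset.sum_sigma']
  refine Finset.sum_bij' (fun x _ => ⟨x.2.1, x.2.2⟩) (fun y _ => ⟨y.1 * y.2, (y.1, y.2)⟩) ?_ ?_ ?_ ?_ ?_
  · rintro ⟨k, p⟩ h
    simp only [Finset.mem_sigma, Finset.mem_Ioc, Nat.mem_divisorsAntidiagonal] at h ⊢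
    obtain ⟨⟨h1, h2⟩, h3, h4⟩ := h
    have hp1 : 0 < p.1 := Nat.pos_of_ne_zero (by rintro h; simp [h] at h3; omega)
    have hp2 : 0 < p.2 := Nat.pos_of_ne_zero (by rintro h; simp [h] at h3; omega)
    refine ⟨⟨hp1, ?_⟩, hp2, ?_⟩
    · calc p.1 ≤ p.1 * p.2 := Nat.le_mul_of_pos_right _ hp2
        _ ≤ N := by rw [h3]; exact h2
    · rw [Nat.le_div_iff_mul_le hp1, mul_comm, h3]; exact h2
  · rintro ⟨m, n⟩ h
    simp only [Finset.mem_sigma, Finset.mem_Ioc, Nat.mem_divisorsAntidiagonal] at h ⊢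
    obtain ⟨⟨h1, h2⟩, h3, h4⟩ := h
    have := (Nat.le_div_iff_mul_le h1).mp h4
    refine ⟨⟨Nat.mul_pos h1 h3, by rw [mul_comm]; exact this⟩, trivial, by positivity⟩
  · rintro ⟨k, p⟩ h
    simp only [Finset.mem_sigma, Nat.mem_divisorsAntidiagonal] at h
    simp [h.2.1]
  · rintro ⟨m, n⟩ h
    rfl
  · rintro ⟨k, p⟩ h
    rfl

lemma tauR_eq_sum (n : ℕ) : tauR n = ∑ _p ∈ n.divisorsAntidiagonal, (1:ℝ) := by
  simp only [tauR, Finset.sum_const, nsmul_eq_mul, mul_one]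
  rw [← Nat.map_div_right_divisors, Finset.card_map]

lemma sum_tau_mul (h : ℕ → ℝ) (N : ℕ) :
    ∑ k ∈ Finset.Ioc 0 N, tauR k * h k =
      ∑ m ∈ Finset.Ioc 0 N, ∑ n ∈ Finset.Ioc 0 (N / m), h (m * n) := by
  rw [← sum_pairs (fun m n => h (m * n)) N]
  refine Finset.sum_congr rfl fun k _ => ?_
  rw [tauR_eq_sum, Finset.sum_mul]
  refine Finset.sum_congr rfl fun p hp => ?_
  rw [one_mul, (Nat.mem_divisorsAntidiagonal.mp hp).1]

lemma sum_tau_div_le (N : ℕ) : ∑ k ∈ Finset.Ioc 0 N, tauR k / k ≤ Hs N ^ 2 := by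
  have h1 := sum_tau_mul (fun k => 1 / (k:ℝ)) N
  simp only [mul_one_div] at h1
  rw [h1]
  calc ∑ m ∈ Finset.Ioc 0 N, ∑ n ∈ Finset.Ioc 0 (N / m), 1 / ((m * n : ℕ) : ℝ)
      ≤ ∑ m ∈ Finset.Ioc 0 N, (1 / (m:ℝ)) * Hs N := by
        refine Finset.sum_le_sum fun m hm => ?_
        have : ∑ n ∈ Finset.Ioc 0 (N / m), 1 / ((m * n : ℕ) : ℝ) = (1 / (m:ℝ)) * Hs (N / m) := by
          unfold Hs
          rw [Finset.mul_sum]
          refine Finset.sum_congr rfl fun n _ => ?_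
          push_cast
          rw [one_div_mul_one_div]
        rw [this]
        exact mul_le_mul_of_nonneg_left (Hs_mono (Nat.div_le_self _ _)) (by positivity)
    _ = Hs N ^ 2 := by rw [← Finset.sum_mul, sq]; rfl

lemma sum_tau_le (N : ℕ) : ∑ k ∈ Finset.Ioc 0 N, tauR k ≤ N * Hs N := by
  have h1 := sum_tau_mul (fun _ => (1:ℝ)) N
  simp only [mul_one] at h1
  rw [h1]
  unfold Hs
  rw [Finset.mul_sum]
  refine Finset.sum_le_sum fun m hm => ?_
  simp only [Finset.sum_const, Nat.card_Ioc, nsmul_eq_mul, mul_one, tsub_zero, mul_one_div]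
  exact Nat.cast_div_le

lemma sum_tau_sq_div_le (N : ℕ) : ∑ k ∈ Finset.Ioc 0 N, tauR k ^ 2 / k ≤ Hs N ^ 4 := by
  have h1 := sum_tau_mul (fun k => tauR k / (k:ℝ)) N
  have h2 : ∑ k ∈ Finset.Ioc 0 N, tauR k ^ 2 / k = ∑ k ∈ Finset.Ioc 0 N, tauR k * (tauR k / (k:ℝ)) :=
    Finset.sum_congr rfl fun k _ => by ring
  rw [h2, h1]
  calc ∑ m ∈ Finset.Ioc 0 N, ∑ n ∈ Finset.Ioc 0 (N / m), tauR (m * n) / ((m * n : ℕ) : ℝ)
      ≤ ∑ m ∈ Finset.Ioc 0 N, (tauR m / m) * Hs N ^ 2 := by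
        refine Finset.sum_le_sum fun m hm => ?_
        calc ∑ n ∈ Finset.Ioc 0 (N / m), tauR (m * n) / ((m * n : ℕ) : ℝ)
            ≤ ∑ n ∈ Finset.Ioc 0 (N / m), (tauR m / m) * (tauR n / n) := by
              refine Finset.sum_le_sum fun n _ => ?_
              rw [div_mul_div_comm]
              push_cast
              exact div_le_div_of_nonneg_right (tauR_mul_le m n) (by positivity)
          _ = (tauR m / m) * ∑ n ∈ Finset.Ioc 0 (N / m), tauR n / n := by rw [Finset.mul_sum]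
          _ ≤ (tauR m / m) * Hs N ^ 2 := by
              refine mul_le_mul_of_nonneg_left ((sum_tau_div_le _).trans ?_)
                (div_nonneg (tauR_nonneg _) (Nat.cast_nonneg _))
              exact pow_le_pow_left₀ (Hs_nonneg _) (Hs_mono (Nat.div_le_self _ _)) 2
    _ = (∑ m ∈ Finset.Ioc 0 N, (tauR m / m)) * Hs N ^ 2 := by rw [Finset.sum_mul]
    _ ≤ Hs N ^ 2 * Hs N ^ 2 := mul_le_mul_of_nonneg_right (sum_tau_div_le N) (by positivity)
    _ = Hs N ^ 4 := by ring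

lemma sum_tau_sq_le (N : ℕ) : ∑ k ∈ Finset.Ioc 0 N, tauR k ^ 2 ≤ N * Hs N ^ 3 := by
  have h1 := sum_tau_mul (fun k => tauR k) N
  have h2 : ∑ k ∈ Finset.Ioc 0 N, tauR k ^ 2 = ∑ k ∈ Finset.Ioc 0 N, tauR k * tauR k :=
    Finset.sum_congr rfl fun k _ => by ring
  rw [h2, h1]
  calc ∑ m ∈ Finset.Ioc 0 N, ∑ n ∈ Finset.Ioc 0 (N / m), tauR (m * n)
      ≤ ∑ m ∈ Finset.Ioc 0 N, (tauR m / m) * (N * Hs N) := by
        refine Finset.sum_le_sum fun m hm => ?_
        have hm0 : (0:ℝ) < m := by exact_mod_cast (Finset.mem_Ioc.mp hm).1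
        calc ∑ n ∈ Finset.Ioc 0 (N / m), tauR (m * n)
            ≤ ∑ n ∈ Finset.Ioc 0 (N / m), tauR m * tauR n :=
              Finset.sum_le_sum fun n _ => tauR_mul_le m n
          _ = tauR m * ∑ n ∈ Finset.Ioc 0 (N / m), tauR n := by rw [Finset.mul_sum]
          _ ≤ tauR m * ((N / m : ℕ) * Hs (N / m)) :=
              mul_le_mul_of_nonneg_left (sum_tau_le _) (tauR_nonneg _)
          _ ≤ tauR m * ((N / m : ℝ) * Hs N) := by
              refine mul_le_mul_of_nonneg_left ?_ (tauR_nonneg _)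
              exact mul_le_mul Nat.cast_div_le (Hs_mono (Nat.div_le_self _ _)) (Hs_nonneg _)
                (by positivity)
          _ = (tauR m / m) * (N * Hs N) := by ring
    _ = (∑ m ∈ Finset.Ioc 0 N, (tauR m / m)) * (N * Hs N) := by rw [Finset.sum_mul]
    _ ≤ Hs N ^ 2 * (N * Hs N) :=
        mul_le_mul_of_nonneg_right (sum_tau_div_le N) (mul_nonneg (by positivity) (Hs_nonneg _))
    _ = N * Hs N ^ 3 := by ring

/-! ### Factorials -/

lemma sum_log_bounds {k : ℕ} (hk : 1 ≤ k) :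
    |∑ n ∈ Finset.Ioc 0 k, Real.log n - (k * Real.log k - k)| ≤ 1 + Real.log k := by
  have key : ∀ k : ℕ, 1 ≤ k → 1 ≤ ∑ n ∈ Finset.Ioc 0 k, Real.log n - (k * Real.log k - k) ∧
      ∑ n ∈ Finset.Ioc 0 k, Real.log n - (k * Real.log k - k) ≤ Hs k := by
    intro k hk
    induction k, hk using Nat.le_induction with
    | base => simp [Hs]
    | succ k hk ih =>
      have hk0 : (0:ℝ) < k := by exact_mod_cast hk
      unfold Hs at ih ⊢
      rw [Finset.sum_Ioc_succ_top (by omega), Finset.sum_Ioc_succ_top (by omega)]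
      have h1 : Real.log ((k+1:ℕ):ℝ) = Real.log k + Real.log (1 + 1 / k) := by
        rw [← Real.log_mul (by positivity) (by positivity)]
        congr 1
        push_cast
        field_simp
      have h2 : Real.log (1 + 1 / (k:ℝ)) ≤ 1 / k := by
        have := Real.log_le_sub_one_of_pos (show (0:ℝ) < 1 + 1 / k by positivity)
        linarith
      have h3 : 2 * (1 / (k:ℝ)) / (1 / k + 2) ≤ Real.log (1 + 1 / k) :=
        Real.le_log_one_add_of_nonneg (by positivity)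
      have h4 : 2 * (1 / (k:ℝ)) / (1 / k + 2) = 2 / (2 * k + 1) := by field_simp; ring
      rw [h4] at h3
      have h5 : (k:ℝ) * Real.log (1 + 1 / k) ≤ 1 := by
        calc (k:ℝ) * Real.log (1 + 1 / k) ≤ k * (1 / k) := by gcongr
          _ = 1 := by field_simp
      have h6 : 1 - 1 / ((k+1:ℕ):ℝ) ≤ k * Real.log (1 + 1 / k) := by
        calc 1 - 1 / ((k+1:ℕ):ℝ) ≤ k * (2 / (2 * k + 1)) := by
              push_cast
              rw [sub_le_iff_le_add, ← sub_nonneg]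
              have : (k:ℝ) * (2 / (2 * k + 1)) + 1 / (k + 1) - 1 = k / ((2 * k + 1) * (k + 1)) := by
                field_simp
                ring
              rw [this]; positivity
          _ ≤ _ := by gcongr
      rw [h1]
      push_cast
      push_cast at h6
      constructor <;> nlinarith [ih.1, ih.2]
  obtain ⟨h1, h2⟩ := key k hk
  rw [abs_le]
  have := Hs_le k
  constructor
  · have : 0 ≤ Real.log k := Real.log_nonneg (by exact_mod_cast hk)
    linarith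
  · linarith

/-! ### The divisor problem -/

lemma Hs_approx {k : ℕ} (hk : 1 ≤ k) :
    0 ≤ Hs k - Real.log k - Real.eulerMascheroniConstant ∧
      Hs k - Real.log k - Real.eulerMascheroniConstant ≤ 1 / k := by
  have hk0 : (0:ℝ) < k := by exact_mod_cast hk
  rw [Hs_eq_harmonic]
  have h1 := Real.eulerMascheroniConstant_lt_eulerMascheroniSeq' k
  have h2 := Real.eulerMascheroniSeq_lt_eulerMascheroniConstant k
  unfold Real.eulerMascheroniSeq' at h1
  unfold Real.eulerMascheroniSeq at h2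
  rw [if_neg (by omega)] at h1
  constructor
  · linarith
  · have h3 : Real.log (k+1) ≤ Real.log k + 1 / k := by
      have h4 : Real.log ((k:ℝ)+1) = Real.log k + Real.log (1 + 1 / k) := by
        rw [← Real.log_mul (by positivity) (by positivity)]
        congr 1
        field_simp
      have h5 : Real.log (1 + 1 / (k:ℝ)) ≤ 1 / k := by
        have := Real.log_le_sub_one_of_pos (show (0:ℝ) < 1 + 1 / k by positivity)
        linarith
      linarith
    linarith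

lemma sum_tau_eq (k : ℕ) (hk : 1 ≤ k) :
    ∑ n ∈ Finset.Ioc 0 k, tauR n =
      2 * ∑ m ∈ Finset.Ioc 0 (Nat.sqrt k), ((k / m : ℕ) : ℝ) - (Nat.sqrt k : ℝ) ^ 2 := by
  set s := Nat.sqrt k with hs
  have hs1 : 1 ≤ s := Nat.le_sqrt.mpr (by omega)
  have hsk : s ≤ k := Nat.sqrt_le_self k
  have hss : s * s ≤ k := Nat.sqrt_le k
  have hss' : k < (s+1) * (s+1) := Nat.lt_succ_sqrt k
  have h1 := sum_tau_mul (fun _ => (1:ℝ)) k
  simp only [mul_one] at h1
  have h2 := hyperbola (fun _ => (1:ℝ)) (fun _ => (1:ℝ)) hsk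
  simp only [one_mul] at h2
  rw [h1, h2]
  simp only [Finset.sum_const, Nat.card_Ioc, nsmul_eq_mul, mul_one, tsub_zero]
  have h3 : ∑ x ∈ Finset.Ioc 0 (k / (s + 1)), ((k / x - s : ℕ) : ℝ) =
      ∑ x ∈ Finset.Ioc 0 s, ((k / x - s : ℕ) : ℝ) := by
    refine Finset.sum_subset (Finset.Ioc_subset_Ioc_right ?_) ?_
    · have : k / (s+1) < s + 1 := (Nat.div_lt_iff_lt_mul (by omega)).mpr hss'
      omega
    · intro n hn hn'
      obtain ⟨hn1, hn2⟩ := Finset.mem_Ioc.mp hn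
      have hn3 : k / (s+1) < n := by
        by_contra h
        exact hn' (Finset.mem_Ioc.mpr ⟨hn1, by omega⟩)
      have h4 : k < n * (s+1) := (Nat.div_lt_iff_lt_mul (by omega)).mp hn3
      have h5 : k / n < s + 1 := (Nat.div_lt_iff_lt_mul hn1).mpr (by rwa [mul_comm])
      have : k / n - s = 0 := by omega
      rw [this]; simp
  rw [h3]
  have h4 : ∑ x ∈ Finset.Ioc 0 s, ((k / x - s : ℕ) : ℝ) =
      ∑ x ∈ Finset.Ioc 0 s, (((k / x : ℕ) : ℝ) - s) := by
    refine Finset.sum_congr rfl fun n hn => ?_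
    obtain ⟨hn1, hn2⟩ := Finset.mem_Ioc.mp hn
    have : s ≤ k / n := (Nat.le_div_iff_mul_le hn1).mpr ((Nat.mul_le_mul_left s hn2).trans hss)
    rw [Nat.cast_sub this]
  rw [h4, Finset.sum_sub_distrib]
  simp only [Finset.sum_const, Nat.card_Ioc, nsmul_eq_mul, tsub_zero]
  ring

/-- Dirichlet's divisor problem, elementary error term. -/
lemma sum_tau_asymp {k : ℕ} (hk : 1 ≤ k) :
    |∑ n ∈ Finset.Ioc 0 k, tauR n - (k * Real.log k +
      (2 * Real.eulerMascheroniConstant - 1) * k)| ≤ 14 * √(k:ℝ) := by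
  set s := Nat.sqrt k with hs
  have hs1 : 1 ≤ s := Nat.le_sqrt.mpr (by omega)
  have hss : s * s ≤ k := Nat.sqrt_le k
  have hss' : k < (s+1) * (s+1) := Nat.lt_succ_sqrt k
  have hs0 : (0:ℝ) < s := by exact_mod_cast hs1
  have hk0 : (0:ℝ) < k := by exact_mod_cast hk
  have hssR : (s:ℝ) ^ 2 ≤ k := by rw [sq]; exact_mod_cast hss
  have hssR' : (k:ℝ) ≤ (s:ℝ) ^ 2 + 2 * s := by
    have : k ≤ s * s + 2 * s := by nlinarith
    have h : ((k:ℕ):ℝ) ≤ ((s * s + 2 * s : ℕ) : ℝ) := by exact_mod_cast this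
    push_cast at h
    nlinarith
  have hsq : (s:ℝ) ≤ √(k:ℝ) := Real.nat_sqrt_le_real_sqrt
  have h3 : (k:ℝ) ≤ 3 * s ^ 2 := by
    have : (1:ℝ) ≤ s := by exact_mod_cast hs1
    nlinarith
  rw [sum_tau_eq k hk, ← hs]
  -- replace floors
  have h4 : ∑ m ∈ Finset.Ioc 0 s, ((k / m : ℕ) : ℝ) ≤ k * Hs s := by
    unfold Hs
    rw [Finset.mul_sum]
    refine Finset.sum_le_sum fun m _ => ?_
    rw [mul_one_div]
    exact Nat.cast_div_le
  have h5 : k * Hs s - s ≤ ∑ m ∈ Finset.Ioc 0 s, ((k / m : ℕ) : ℝ) := by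
    have : k * Hs s - s = ∑ m ∈ Finset.Ioc 0 s, ((k:ℝ) / m - 1) := by
      unfold Hs
      rw [Finset.mul_sum, Finset.sum_sub_distrib]
      simp [mul_one_div, div_eq_mul_inv]
    rw [this]
    refine Finset.sum_le_sum fun m hm => ?_
    have hm0 : 0 < m := (Finset.mem_Ioc.mp hm).1
    have := Nat.lt_floor_add_one ((k:ℝ) / m)
    rw [Nat.floor_div_eq_div] at this
    linarith
  obtain ⟨h6, h7⟩ := Hs_approx hs1
  set γ := Real.eulerMascheroniConstant
  set t : ℝ := k / s ^ 2 - 1 with ht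
  have ht0 : 0 ≤ t := by
    rw [ht, sub_nonneg, le_div_iff₀ (by positivity)]; linarith
  have ht2 : t ≤ 2 / s := by
    rw [ht, sub_le_iff_le_add, div_le_iff₀ (by positivity)]
    have : (2 / (s:ℝ) + 1) * s ^ 2 = s ^ 2 + 2 * s := by field_simp; ring
    rw [this]; exact hssR'
  have hkt : (k:ℝ) = s ^ 2 * (1 + t) := by rw [ht]; field_simp; ring
  have h8 : Real.log k = 2 * Real.log s + Real.log (1 + t) := by
    rw [hkt, Real.log_mul (by positivity) (by positivity), Real.log_pow]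
    push_cast; ring
  have h9 : Real.log (1 + t) ≤ t := by
    have := Real.log_le_sub_one_of_pos (show (0:ℝ) < 1 + t by positivity)
    linarith
  have h10 : t ≤ (1 + t) * Real.log (1 + t) := by
    have := Real.one_sub_inv_le_log_of_pos (show (0:ℝ) < 1 + t by positivity)
    calc t = (1 + t) * (1 - (1 + t)⁻¹) := by field_simp; ring
      _ ≤ _ := by gcongr
  have h11 : (1 + t) * Real.log (1 + t) ≤ t + t ^ 2 := by
    calc (1 + t) * Real.log (1 + t) ≤ (1 + t) * t := by gcongr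
      _ = _ := by ring
  have h12 : (s:ℝ) ^ 2 * t ^ 2 ≤ 4 := by
    have : (s:ℝ) * t ≤ 2 := by
      calc (s:ℝ) * t ≤ s * (2 / s) := by gcongr
        _ = 2 := by field_simp
    nlinarith [mul_nonneg hs0.le ht0]
  have h13 : (k:ℝ) * Real.log (1 + t) = s ^ 2 * ((1 + t) * Real.log (1 + t)) := by
    rw [hkt]; ring
  have h14 : (k:ℝ) - s ^ 2 = s ^ 2 * t := by rw [hkt]; ring
  have h15 : (s:ℝ) ^ 2 * t ≤ k * Real.log (1 + t) := by rw [h13]; gcongr
  have h16 : (k:ℝ) * Real.log (1 + t) ≤ s ^ 2 * t + 4 := by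
    rw [h13]
    calc (s:ℝ) ^ 2 * ((1 + t) * Real.log (1 + t)) ≤ s ^ 2 * (t + t ^ 2) := by gcongr
      _ ≤ _ := by linarith
  have h17 : (k:ℝ) * (1 / s) ≤ 3 * s := by
    rw [mul_one_div, div_le_iff₀ hs0]
    nlinarith
  have h18 : 0 ≤ (k:ℝ) * (Hs s - Real.log s - γ) := mul_nonneg hk0.le h6
  have h19 : (k:ℝ) * (Hs s - Real.log s - γ) ≤ 3 * s :=
    (mul_le_mul_of_nonneg_left h7 hk0.le).trans h17
  have h20 : (1:ℝ) ≤ s := by exact_mod_cast hs1
  rw [abs_le]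
  constructor
  · nlinarith [h4, h5, h15, h16, h18, h19, hsq]
  · nlinarith [h4, h5, h15, h16, h18, h19, hsq]

end Pool.Agent.ANT
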