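import Mathlib

open Complex MeasureTheory Set Filter Asymptotics Topology
open scoped ComplexOrder

namespace Pool.Agent.ANT

lemma iteratedDeriv_inv_sub_one (m : ℕ) :
    iteratedDeriv m (fun z : ℂ => (z - 1)⁻¹) 2 = (-1) ^ m * m.factorial := by
  rw [iteratedDeriv_eq_iterate]
  have h := iter_deriv_inv_linear_sub m (1:ℂ) 1
  simp only [one_mul, one_pow, mul_one] at h
  rw [h]
  have : (2:ℂ) - 1 = 1 := by norm_num
  simp [this]

/-- Estermann's inequality. -/
theorem estermann {F0 : ℂ → ℂ} {a : ℕ → ℂ} {lam M : ℝ}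
    (hF0 : DifferentiableOn ℂ F0 {z | 0 < z.re}) (ha : 0 ≤ a) (ha1 : a 1 = 1)
    (habs : LSeries.abscissaOfAbsConv a ≤ 1)
    (hLS : ∀ z : ℂ, 1 < z.re → LSeries a z = F0 z + lam * (z - 1)⁻¹)
    (hM : ∀ z ∈ Metric.sphere (2:ℂ) (3/2), ‖F0 z‖ ≤ M) (hM1 : 1 ≤ M) (hlam : 0 ≤ lam)
    {s : ℝ} (hs : 7/8 ≤ s) (hs1 : s < 1) (hle : (F0 s).re ≤ lam / (1 - s)) :
    (1 - s) / 6 ≤ lam * (8 * M) ^ (4 * (1 - s)) := by
  have hopen : IsOpen {z : ℂ | 0 < z.re} := isOpen_lt continuous_const continuous_re
  have habs2 : LSeries.abscissaOfAbsConv a < ((2:ℝ) : EReal) := by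
    refine lt_of_le_of_lt habs ?_
    exact_mod_cast (by norm_num : (1:ℝ) < 2)
  have hball : Metric.ball (2:ℂ) (3/2) ⊆ {z : ℂ | 0 < z.re} := by
    intro z hz
    rw [mem_ball_iff_norm] at hz
    have h1 := (Complex.abs_re_le_norm (z - 2)).trans_lt hz
    simp only [sub_re, re_ofNat] at h1
    rw [abs_lt] at h1
    simp only [mem_ofPred_eq]
    linarith [h1.1]
  have hcball : Metric.closedBall (2:ℂ) (3/2) ⊆ {z : ℂ | 0 < z.re} := by
    intro z hz
    rw [mem_closedBall_iff_norm] at hz
    have h1 := (Complex.abs_re_le_norm (z - 2)).trans hz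
    simp only [sub_re, re_ofNat] at h1
    rw [abs_le] at h1
    simp only [mem_ofPred_eq]
    linarith [h1.1]
  -- the coefficients
  set d : ℕ → ℂ := fun m => (-1) ^ m * iteratedDeriv m F0 2 / m.factorial with hd
  have hcont : ∀ m : ℕ, ContDiffAt ℂ m F0 2 := by
    intro m
    have : AnalyticAt ℂ F0 2 := hF0.analyticAt (hopen.mem_nhds (by simp))
    exact this.contDiffAt
  have hcont2 : ∀ m : ℕ, ContDiffAt ℂ m (fun z : ℂ => (lam:ℂ) * (z - 1)⁻¹) 2 := by
    intro m
    refine ContDiffAt.mul contDiffAt_const ?_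
    refine ContDiffAt.inv (contDiffAt_id.sub contDiffAt_const) ?_
    norm_num
  have hder : ∀ m : ℕ, iteratedDeriv m (LSeries a) 2 =
      iteratedDeriv m F0 2 + lam * ((-1) ^ m * m.factorial) := by
    intro m
    have heq : LSeries a =ᶠ[𝓝 2] (F0 + fun z : ℂ => (lam:ℂ) * (z - 1)⁻¹) := by
      have : IsOpen {z : ℂ | 1 < z.re} := isOpen_lt continuous_const continuous_re
      filter_upwards [this.mem_nhds (by simp : (2:ℂ) ∈ {z : ℂ | 1 < z.re})] with z hz
      exact hLS z hz
    rw [heq.iteratedDeriv_eq, iteratedDeriv_add (hcont m) (hcont2 m)]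
    congr 1
    rw [iteratedDeriv_const_mul_field, iteratedDeriv_inv_sub_one]
  have hdm : ∀ m : ℕ, -lam ≤ (d m).re := by
    intro m
    have h1 := LSeries.iteratedDeriv_alternating ha (x := 2) habs2 m
    have h2 : ((2:ℝ):ℂ) = 2 := by norm_num
    rw [h2, hder m, mul_add] at h1
    have h3 : ((-1:ℂ)) ^ m * ((lam:ℂ) * ((-1) ^ m * m.factorial)) = lam * m.factorial := by
      have : ((-1:ℂ)) ^ m * (-1) ^ m = 1 := by
        rw [← pow_add, Even.neg_one_pow ⟨m, rfl⟩]
      calc ((-1:ℂ)) ^ m * ((lam:ℂ) * ((-1) ^ m * m.factorial))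
          = lam * m.factorial * ((-1:ℂ) ^ m * (-1) ^ m) := by ring
        _ = _ := by rw [this, mul_one]
    rw [h3] at h1
    have h4 : (-1:ℂ) ^ m * iteratedDeriv m F0 2 = d m * m.factorial := by
      have : (m.factorial : ℂ) ≠ 0 := by exact_mod_cast m.factorial_ne_zero
      rw [hd]; field_simp
    rw [h4, ← add_mul] at h1
    have h5 : (0:ℝ) < m.factorial := by exact_mod_cast m.factorial_pos
    have h6 := (Complex.le_def.mp h1).1
    have h7 : ((d m + lam) * (m.factorial : ℂ)).re = ((d m).re + lam) * m.factorial := by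
      have : (m.factorial : ℂ) = ((m.factorial : ℝ) : ℂ) := by simp
      rw [this, re_mul_ofReal, add_re, ofReal_re]
    rw [h7, zero_re] at h6
    have := nonneg_of_mul_nonneg_left h6 h5
    linarith
  have hd0 : 1 - lam ≤ (d 0).re := by
    have h1 : (1:ℝ) ≤ (LSeries a 2).re := by
      have hsum : LSeriesSummable a 2 := LSeriesSummable_of_abscissaOfAbsConv_lt_re (by simpa using habs2)
      have h3 : (LSeries a 2).re = ∑' n, (LSeries.term a 2 n).re := by
        unfold LSeries
        exact Complex.re_tsum hsum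
      rw [h3]
      have hsum' : Summable fun n => (LSeries.term a 2 n).re := (Complex.hasSum_re hsum.hasSum).summable
      have h4 : ∀ n, 0 ≤ (LSeries.term a 2 n).re := by
        intro n
        have := LSeries.term_nonneg (ha n) 2
        exact (Complex.le_def.mp (by simpa using this)).1
      calc (1:ℝ) = (LSeries.term a 2 1).re := by
            rw [LSeries.term_of_ne_zero one_ne_zero, ha1]; simp
        _ ≤ ∑' n, (LSeries.term a 2 n).re := hsum'.le_tsum 1 (fun j _ => h4 j)
    have h2 := hLS 2 (by simp)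
    have h3 : (2:ℂ) - 1 = 1 := by norm_num
    rw [h3, inv_one, mul_one] at h2
    have h4 : d 0 = F0 2 := by simp [hd]
    rw [h4]
    rw [h2, add_re, ofReal_re] at h1
    linarith
  have hdn : ∀ m : ℕ, ‖d m‖ ≤ M * (2/3) ^ m := by
    intro m
    have hdc : DiffContOnCl ℂ F0 (Metric.ball 2 (3/2)) := by
      apply DifferentiableOn.diffContOnCl
      rw [closure_ball _ (by norm_num)]
      exact hF0.mono hcball
    have h1 := Complex.norm_iteratedDeriv_le_of_forall_mem_sphere_norm_le m (by norm_num : (0:ℝ) < 3/2)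
      hdc hM
    rw [hd]
    simp only [norm_div, norm_mul, norm_pow, norm_neg, norm_one, one_pow, one_mul, Complex.norm_natCast]
    have h5 : (0:ℝ) < m.factorial := by exact_mod_cast m.factorial_pos
    rw [div_le_iff₀ h5]
    refine h1.trans (le_of_eq ?_)
    rw [div_eq_mul_inv, ← inv_pow]
    norm_num
    ring
  -- Taylor expansion
  have hs0 : 0 < s := by linarith
  have hx : (s:ℂ) ∈ Metric.ball (2:ℂ) (3/2) := by
    rw [mem_ball_iff_norm]
    have : (s:ℂ) - 2 = ((s - 2 : ℝ) : ℂ) := by push_cast; ring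
    rw [this, Complex.norm_real, Real.norm_eq_abs, abs_lt]
    constructor <;> linarith
  have htaylor := Complex.hasSum_taylorSeries_on_ball (hF0.mono hball) hx
  have hterm : ∀ m : ℕ, (m.factorial : ℂ)⁻¹ • ((s:ℂ) - 2) ^ m • iteratedDeriv m F0 2 =
      d m * (((2 - s) ^ m : ℝ) : ℂ) := by
    intro m
    rw [hd]
    simp only [smul_eq_mul]
    have h1 : ((s:ℂ) - 2) ^ m = (-1) ^ m * (((2 - s) ^ m : ℝ) : ℂ) := by
      push_cast
      rw [← mul_pow]; congr 1; ring
    rw [h1]
    have : (m.factorial : ℂ) ≠ 0 := by exact_mod_cast m.factorial_ne_zero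
    field_simp
  simp only [hterm] at htaylor
  have hre : HasSum (fun m => (d m).re * (2 - s) ^ m) (F0 s).re := by
    have := Complex.hasSum_re htaylor
    simpa only [re_mul_ofReal] using this
  set x := 2 - s with hxdef
  have hx1 : 1 < x := by linarith
  have hx2 : x ≤ 9/8 := by linarith
  -- choose K
  set K := ⌈Real.log (8 * M) / Real.log (4/3)⌉₊ with hK
  have hlog43 : 1/4 ≤ Real.log (4/3) := by
    rw [Real.le_log_iff_exp_le (by norm_num)]
    have h1 : Real.exp (1/4) ≤ 4/3 := by
      have h2 : Real.exp (1/4) ^ 4 = Real.exp 1 := by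
        rw [← Real.exp_nat_mul]; norm_num
      have h3 := Real.exp_one_lt_d9
      have h4 : (4/3:ℝ) ^ 4 > 2.7182818286 := by norm_num
      by_contra hcon
      push Not at hcon
      have : (4/3:ℝ) ^ 4 < Real.exp (1/4) ^ 4 := by gcongr
      linarith
    exact h1
  have hlog43' : 0 < Real.log (4/3) := by linarith
  have h8M : 8 ≤ 8 * M := by linarith
  have hlog8M : 0 < Real.log (8 * M) := Real.log_pos (by linarith)
  have hKge : Real.log (8 * M) / Real.log (4/3) ≤ K := Nat.le_ceil _
  have hKle : (K:ℝ) ≤ 4 * Real.log (8 * M) + 1 := by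
    have h1 : (K:ℝ) < Real.log (8 * M) / Real.log (4/3) + 1 := Nat.ceil_lt_add_one (by positivity)
    have h2 : Real.log (8 * M) / Real.log (4/3) ≤ 4 * Real.log (8 * M) := by
      rw [div_le_iff₀ hlog43']
      nlinarith
    linarith
  have hK0 : 1 ≤ K := by
    have : 0 < Real.log (8 * M) / Real.log (4/3) := by positivity
    have := Nat.ceil_pos.mpr this
    omega
  have h34 : 4 * M * (3/4) ^ K ≤ 1/2 := by
    have h1 : Real.log (8 * M) ≤ K * Real.log (4/3) := by
      rwa [div_le_iff₀ hlog43'] at hKge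
    have h2 : 8 * M ≤ (4/3) ^ K := by
      rw [← Real.log_pow] at h1
      exact (Real.log_le_log_iff (by linarith) (by positivity)).mp h1
    have h3 : (3/4:ℝ) ^ K * (4/3) ^ K = 1 := by
      rw [← mul_pow]; norm_num
    have h4 : 0 < (3/4:ℝ) ^ K := by positivity
    nlinarith
  -- split
  have hsplit := hre.summable.sum_add_tsum_nat_add K
  rw [hre.tsum_eq] at hsplit
  have hhead : 1 - lam * ((x ^ K - 1) / (x - 1)) ≤ ∑ m ∈ Finset.range K, (d m).re * x ^ m := by
    have h1 : ∑ m ∈ Finset.range K, ((if m = 0 then 1 else 0) - lam * x ^ m) ≤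
        ∑ m ∈ Finset.range K, (d m).re * x ^ m := by
      refine Finset.sum_le_sum fun m _ => ?_
      by_cases hm : m = 0
      · subst hm; simp; linarith
      · rw [if_neg hm]
        have := hdm m
        have hxm : 0 < x ^ m := by positivity
        nlinarith
    refine le_trans (le_of_eq ?_) h1
    rw [Finset.sum_sub_distrib, ← Finset.mul_sum, geom_sum_eq hx1.ne']
    congr 1
    rw [Finset.sum_ite_eq']
    rw [if_pos (Finset.mem_range.mpr (by omega))]
  have htail : -(4 * M * (3/4) ^ K) ≤ ∑' m, (d (m + K)).re * x ^ (m + K) := by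
    have hgeom : HasSum (fun m : ℕ => M * (3/4) ^ (m + K)) (4 * M * (3/4) ^ K) := by
      have h1 : HasSum (fun m : ℕ => (3/4 : ℝ) ^ m) 4 := by
        have := hasSum_geometric_of_lt_one (by norm_num : (0:ℝ) ≤ 3/4) (by norm_num)
        norm_num at this
        exact this
      have h2 := h1.mul_left (M * (3/4) ^ K)
      have h3 : (fun m : ℕ => M * (3/4) ^ K * (3/4 : ℝ) ^ m) = fun m : ℕ => M * (3/4) ^ (m + K) := by
        ext m; rw [pow_add]; ring
      rw [h3] at h2
      have h4 : 4 * M * (3/4) ^ K = M * (3/4) ^ K * 4 := by ring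
      rw [h4]; exact h2
    have hbd : ∀ m : ℕ, ‖(d (m + K)).re * x ^ (m + K)‖ ≤ M * (3/4) ^ (m + K) := by
      intro m
      rw [norm_mul, Real.norm_eq_abs, Real.norm_of_nonneg (by positivity)]
      have h1 : |(d (m+K)).re| ≤ M * (2/3) ^ (m + K) := (Complex.abs_re_le_norm _).trans (hdn _)
      calc |(d (m+K)).re| * x ^ (m + K) ≤ M * (2/3) ^ (m + K) * (9/8) ^ (m + K) := by
            gcongr
        _ = M * (3/4) ^ (m + K) := by
            rw [mul_assoc, ← mul_pow]; norm_num
    have := tsum_of_norm_bounded hgeom hbd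
    rw [Real.norm_eq_abs, abs_le] at this
    exact this.1
  have hmain : 1/2 ≤ lam * x ^ K / (1 - s) := by
    have hx1' : x - 1 = 1 - s := by rw [hxdef]; ring
    rw [hx1'] at hhead
    have h1s : 0 < 1 - s := by linarith
    have h2 : lam * ((x ^ K - 1) / (1 - s)) = lam * x ^ K / (1 - s) - lam / (1 - s) := by ring
    rw [h2] at hhead
    linarith
  have hxK : x ^ K ≤ 3 * (8 * M) ^ (4 * (1 - s)) := by
    have h1s : 0 < 1 - s := by linarith
    have h1 : x ≤ Real.exp (1 - s) := by
      have := Real.add_one_le_exp (1 - s)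
      rw [hxdef]; linarith
    calc x ^ K ≤ Real.exp (1 - s) ^ K := by gcongr
      _ = Real.exp (K * (1 - s)) := by rw [← Real.exp_nat_mul]
      _ ≤ Real.exp (1 + Real.log (8 * M) * (4 * (1 - s))) := by
          apply Real.exp_le_exp.mpr
          have := mul_le_mul_of_nonneg_right hKle h1s.le
          nlinarith
      _ = Real.exp 1 * (8 * M) ^ (4 * (1 - s)) := by
          rw [Real.exp_add, Real.rpow_def_of_pos (by linarith)]
      _ ≤ 3 * (8 * M) ^ (4 * (1 - s)) := by
          have := Real.exp_one_lt_d9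
          gcongr
          linarith
  have h1s : 0 < 1 - s := by linarith
  rw [le_div_iff₀ h1s] at hmain
  have : lam * x ^ K ≤ lam * (3 * (8 * M) ^ (4 * (1 - s))) := by gcongr
  linarith

end Pool.Agent.ANT
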