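import Pool.Agent.Lib.ANT.RealChar

open Complex MeasureTheory Set Filter Asymptotics Topology
open scoped ComplexOrder

namespace Pool.Agent.ANT

open DirichletCharacter ArithmeticFunction

/-- Product of characters of different levels. -/
noncomputable def psi {q1 q2 : ℕ} (χ1 : DirichletCharacter ℂ q1) (χ2 : DirichletCharacter ℂ q2) :
    DirichletCharacter ℂ (q1 * q2) :=
  changeLevel (dvd_mul_right q1 q2) χ1 * changeLevel (dvd_mul_left q2 q1) χ2

lemma psi_apply {q1 q2 : ℕ} (χ1 : DirichletCharacter ℂ q1) (χ2 : DirichletCharacter ℂ q2) (n : ℕ) :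
    psi χ1 χ2 (n : ZMod (q1 * q2)) = χ1 n * χ2 n := by
  by_cases h : n.Coprime (q1 * q2)
  · have h' : IsCoprime (n : ℤ) ((q1 * q2 : ℕ) : ℤ) := Nat.isCoprime_iff_coprime.mpr h
    have e1 := changeLevel_eq_cast_of_dvd' χ1 (dvd_mul_right q1 q2) h'
    have e2 := changeLevel_eq_cast_of_dvd' χ2 (dvd_mul_left q2 q1) h'
    simp only [Int.cast_natCast] at e1 e2
    unfold psi
    rw [MulChar.mul_apply, e1, e2]
  · have h1 : ¬ IsUnit ((n : ℕ) : ZMod (q1 * q2)) := by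
      rwa [ZMod.isUnit_iff_coprime]
    rw [MulChar.map_nonunit _ h1]
    rw [Nat.coprime_mul_iff_right, not_and_or] at h
    rcases h with h | h
    · have : ¬ IsUnit ((n : ℕ) : ZMod q1) := by rwa [ZMod.isUnit_iff_coprime]
      rw [MulChar.map_nonunit _ this, zero_mul]
    · have : ¬ IsUnit ((n : ℕ) : ZMod q2) := by rwa [ZMod.isUnit_iff_coprime]
      rw [MulChar.map_nonunit _ this, mul_zero]

lemma psi_sq {q1 q2 : ℕ} {χ1 : DirichletCharacter ℂ q1} {χ2 : DirichletCharacter ℂ q2}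
    (h1 : χ1 ^ 2 = 1) (h2 : χ2 ^ 2 = 1) : psi χ1 χ2 ^ 2 = 1 := by
  unfold psi
  rw [mul_pow, ← map_pow, ← map_pow, h1, h2, map_one, map_one, mul_one]

/-- The coefficients of `ζ L(χ1) L(χ2) L(χ1 χ2)`. -/
noncomputable def four {q1 q2 : ℕ} (χ1 : DirichletCharacter ℂ q1) (χ2 : DirichletCharacter ℂ q2) :
    ArithmeticFunction ℂ :=
  χ1.zetaMul * (toArithmeticFunction (χ2 ·)).pmul χ1.zetaMul

lemma four_mult {q1 q2 : ℕ} (χ1 : DirichletCharacter ℂ q1) (χ2 : DirichletCharacter ℂ q2) :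
    (four χ1 χ2).IsMultiplicative :=
  χ1.isMultiplicative_zetaMul.mul
    ((isMultiplicative_toArithmeticFunction χ2).pmul χ1.isMultiplicative_zetaMul)

/-- values of `zetaMul` at prime powers -/
lemma zetaMul_prime_pow {q : ℕ} (χ : DirichletCharacter ℂ q) {p : ℕ} (hp : p.Prime) (k : ℕ) :
    χ.zetaMul (p ^ k) = ∑ i ∈ Finset.range (k+1), (χ p) ^ i := by
  simp only [zetaMul, toArithmeticFunction, coe_zeta_mul_apply, coe_mk,
    Nat.sum_divisors_prime_pow hp, pow_eq_zero_iff', hp.ne_zero, ne_eq, false_and, ↓reduceIte,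
    Nat.cast_pow, map_pow]

lemma four_prime_pow {q1 q2 : ℕ} (χ1 : DirichletCharacter ℂ q1) (χ2 : DirichletCharacter ℂ q2)
    {p : ℕ} (hp : p.Prime) (k : ℕ) :
    four χ1 χ2 (p ^ k) = ∑ j ∈ Finset.range (k+1),
      χ1.zetaMul (p ^ (k - j)) * ((χ2 p) ^ j * χ1.zetaMul (p ^ j)) := by
  unfold four
  rw [ArithmeticFunction.mul_apply]
  rw [Nat.sum_divisorsAntidiagonal' (f := fun a b => χ1.zetaMul a *
    ((toArithmeticFunction (χ2 ·)).pmul χ1.zetaMul) b)]
  rw [Nat.sum_divisors_prime_pow hp]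
  refine Finset.sum_congr rfl fun j hj => ?_
  have hjk : j ≤ k := Nat.lt_succ_iff.mp (Finset.mem_range.mp hj)
  rw [Nat.pow_div hjk hp.pos, pmul_apply]
  congr 2
  simp [toArithmeticFunction, hp.ne_zero]

lemma zero_pow_sum (k : ℕ) : ∑ i ∈ Finset.range (k+1), (0:ℝ) ^ i = 1 := by
  rw [Finset.sum_range_succ']
  simp

lemma neg_one_sum (k : ℕ) : ∑ i ∈ Finset.range (k+1), (-1:ℝ) ^ i = (1 + (-1) ^ k) / 2 := by
  induction k with
  | zero => simp
  | succ k ih => rw [Finset.sum_range_succ, ih, pow_succ]; ring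

lemma one_sum (k : ℕ) : ∑ i ∈ Finset.range (k+1), (1:ℝ) ^ i = k + 1 := by
  simp

/-- closed form for the alternating sum. -/
lemma alt_sum (k : ℝ) (m : ℕ) :
    ∑ j ∈ Finset.range (m+1), (-1:ℝ) ^ j * ((k - j + 1) * (j + 1)) =
      (-1) ^ m * (-(m:ℝ)^2/2 + (k-1)/2 * m + (3*k+2)/4) + (k+2)/4 := by
  induction m with
  | zero => simp; ring
  | succ m ih =>
    rw [Finset.sum_range_succ, ih, pow_succ]
    push_cast
    ring

lemma four_prime_pow_nonneg_real (c d : ℝ) (hc : c = 0 ∨ c = 1 ∨ c = -1)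
    (hd : d = 0 ∨ d = 1 ∨ d = -1) (k : ℕ) :
    0 ≤ ∑ j ∈ Finset.range (k+1), (∑ i ∈ Finset.range (k - j + 1), c ^ i) *
      (d ^ j * ∑ i ∈ Finset.range (j+1), c ^ i) := by
  have hr : ∀ j : ℕ, 0 ≤ ∑ i ∈ Finset.range (j+1), c ^ i := by
    intro j
    rcases hc with rfl | rfl | rfl
    · rw [zero_pow_sum]; norm_num
    · rw [one_sum]; positivity
    · rw [neg_one_sum]
      have : (-1:ℝ) ^ j = 1 ∨ (-1:ℝ) ^ j = -1 := neg_one_pow_eq_or ℝ j
      rcases this with h | h <;> rw [h] <;> norm_num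
  rcases hd with rfl | rfl | rfl
  · refine Finset.sum_nonneg fun j _ => mul_nonneg (hr _) (mul_nonneg ?_ (hr _))
    positivity
  · refine Finset.sum_nonneg fun j _ => mul_nonneg (hr _) (mul_nonneg ?_ (hr _))
    positivity
  · rcases hc with rfl | rfl | rfl
    · simp only [zero_pow_sum, mul_one, one_mul]
      rw [neg_one_sum]
      have : (-1:ℝ) ^ k = 1 ∨ (-1:ℝ) ^ k = -1 := neg_one_pow_eq_or ℝ k
      rcases this with h | h <;> rw [h] <;> norm_num
    · simp only [one_sum]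
      have h1 : ∑ j ∈ Finset.range (k+1), (((k - j : ℕ) : ℝ) + 1) * ((-1:ℝ) ^ j * ((j:ℝ) + 1)) =
          ∑ j ∈ Finset.range (k+1), (-1:ℝ) ^ j * (((k:ℝ) - j + 1) * (j + 1)) := by
        refine Finset.sum_congr rfl fun j hj => ?_
        have hjk : j ≤ k := Nat.lt_succ_iff.mp (Finset.mem_range.mp hj)
        rw [Nat.cast_sub hjk]; ring
      rw [h1, alt_sum]
      have h2 : (-(k:ℝ)^2/2 + ((k:ℝ)-1)/2 * k + (3*(k:ℝ)+2)/4) = ((k:ℝ)+2)/4 := by ring
      rw [h2]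
      have : (-1:ℝ) ^ k = 1 ∨ (-1:ℝ) ^ k = -1 := neg_one_pow_eq_or ℝ k
      rcases this with h | h <;> rw [h]
      · positivity
      · simp
    · refine Finset.sum_nonneg fun j _ => mul_nonneg (hr _) ?_
      rw [neg_one_sum]
      have : (-1:ℝ) ^ j = 1 ∨ (-1:ℝ) ^ j = -1 := neg_one_pow_eq_or ℝ j
      rcases this with h | h <;> rw [h] <;> norm_num

lemma quad_values {q : ℕ} {χ : DirichletCharacter ℂ q} (hχ : χ ^ 2 = 1) (a : ZMod q) :
    ∃ c : ℝ, (c = 0 ∨ c = 1 ∨ c = -1) ∧ χ a = (c : ℂ) := by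
  rcases MulChar.isQuadratic_iff_sq_eq_one.mpr hχ a with h | h | h
  · exact ⟨0, Or.inl rfl, by simp [h]⟩
  · exact ⟨1, Or.inr (Or.inl rfl), by simp [h]⟩
  · exact ⟨-1, Or.inr (Or.inr rfl), by simp [h]⟩

lemma four_nonneg {q1 q2 : ℕ} {χ1 : DirichletCharacter ℂ q1} {χ2 : DirichletCharacter ℂ q2}
    (h1 : χ1 ^ 2 = 1) (h2 : χ2 ^ 2 = 1) (n : ℕ) : 0 ≤ four χ1 χ2 n := by
  rcases eq_or_ne n 0 with rfl | hn
  · simp
  · rw [(four_mult χ1 χ2).multiplicative_factorization _ hn]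
    refine Finset.prod_nonneg fun p hp => ?_
    have hp' : p.Prime := Nat.prime_of_mem_primeFactors hp
    obtain ⟨c, hc, hc'⟩ := quad_values h1 (p : ZMod q1)
    obtain ⟨d, hd, hd'⟩ := quad_values h2 (p : ZMod q2)
    change 0 ≤ four χ1 χ2 (p ^ (n.factorization p))
    rw [four_prime_pow χ1 χ2 hp']
    have := four_prime_pow_nonneg_real c d hc hd (n.factorization p)
    have h3 : ∑ j ∈ Finset.range (n.factorization p + 1),
        χ1.zetaMul (p ^ (n.factorization p - j)) * ((χ2 p) ^ j * χ1.zetaMul (p ^ j)) =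
        ((∑ j ∈ Finset.range (n.factorization p + 1),
          (∑ i ∈ Finset.range (n.factorization p - j + 1), c ^ i) *
          (d ^ j * ∑ i ∈ Finset.range (j+1), c ^ i) : ℝ) : ℂ) := by
      push_cast
      refine Finset.sum_congr rfl fun j _ => ?_
      rw [zetaMul_prime_pow χ1 hp', zetaMul_prime_pow χ1 hp', hc', hd']
    rw [h3]
    exact_mod_cast this

lemma four_one {q1 q2 : ℕ} (χ1 : DirichletCharacter ℂ q1) (χ2 : DirichletCharacter ℂ q2) :
    four χ1 χ2 1 = 1 := (four_mult χ1 χ2).map_one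

lemma pmul_eq_mul {q1 q2 : ℕ} (χ1 : DirichletCharacter ℂ q1) (χ2 : DirichletCharacter ℂ q2) :
    ((fun n => ((toArithmeticFunction (χ2 ·)).pmul χ1.zetaMul) n) : ℕ → ℂ) =
      ((χ2 ·) : ℕ → ℂ) * (fun n => χ1.zetaMul n) := by
  ext n
  rw [pmul_apply, Pi.mul_apply]
  rcases eq_or_ne n 0 with rfl | hn
  · simp
  · rw [← apply_eq_toArithmeticFunction_apply χ2 hn]

lemma summable_pmul {q1 q2 : ℕ} (χ1 : DirichletCharacter ℂ q1) (χ2 : DirichletCharacter ℂ q2)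
    {s : ℂ} (hs : 1 < s.re) :
    LSeriesSummable (fun n => ((toArithmeticFunction (χ2 ·)).pmul χ1.zetaMul) n) s := by
  rw [pmul_eq_mul]
  exact DirichletCharacter.LSeriesSummable_mul χ2 (χ1.LSeriesSummable_zetaMul hs)

lemma LSeries_pmul {q1 q2 : ℕ} [NeZero q1] [NeZero q2] (χ1 : DirichletCharacter ℂ q1)
    (χ2 : DirichletCharacter ℂ q2) {s : ℂ} (hs : 1 < s.re) :
    LSeries (fun n => ((toArithmeticFunction (χ2 ·)).pmul χ1.zetaMul) n) s =
      LX χ2 s * LX (psi χ1 χ2) s := by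
  rw [pmul_eq_mul, LX_eq_LSeries χ2 hs, LX_eq_LSeries (psi χ1 χ2) hs]
  have e1 : (fun n => χ1.zetaMul n) = LSeries.convolution (1 : ℕ → ℂ) (fun n : ℕ => χ1 n) := by
    rw [DirichletCharacter.zetaMul, ← ArithmeticFunction.coe_mul]
    refine LSeries.convolution_congr (fun {n} hn => ?_) (fun {n} hn => ?_)
    · simp [natCoe_apply, hn]
    · exact (apply_eq_toArithmeticFunction_apply χ1 hn).symm
  rw [e1, ← mul_convolution_distrib χ2]
  have e2 : (((χ2 ·) : ℕ → ℂ) * (1 : ℕ → ℂ)) = fun n : ℕ => χ2 n := by ext n; simp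
  have e3 : (((χ2 ·) : ℕ → ℂ) * (fun n : ℕ => χ1 n)) = fun n : ℕ => psi χ1 χ2 (n : ZMod (q1 * q2)) := by
    ext n; rw [Pi.mul_apply, psi_apply, mul_comm]
  rw [e2, e3]
  rw [LSeries_convolution']
  · exact LSeriesSummable_of_one_lt_re χ2 hs
  · exact LSeriesSummable_of_one_lt_re (psi χ1 χ2) hs

lemma LSeries_four {q1 q2 : ℕ} [NeZero q1] [NeZero q2] (χ1 : DirichletCharacter ℂ q1)
    (χ2 : DirichletCharacter ℂ q2) {s : ℂ} (hs : 1 < s.re) :
    LSeries (fun n => four χ1 χ2 n) s = ZX s * (LX χ1 s * LX χ2 s * LX (psi χ1 χ2) s) := by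
  have := ArithmeticFunction.LSeries_mul' (χ1.LSeriesSummable_zetaMul hs) (summable_pmul χ1 χ2 hs)
  have h2 : LSeries (fun n => four χ1 χ2 n) s = LSeries (fun n => χ1.zetaMul n) s *
      LSeries (fun n => ((toArithmeticFunction (χ2 ·)).pmul χ1.zetaMul) n) s := this
  rw [h2, LSeries_zetaMul χ1 hs, LSeries_pmul χ1 χ2 hs]
  ring

lemma abscissa_four_le {q1 q2 : ℕ} (χ1 : DirichletCharacter ℂ q1)
    (χ2 : DirichletCharacter ℂ q2) :
    LSeries.abscissaOfAbsConv (fun n => four χ1 χ2 n) ≤ 1 :=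
  LSeries.abscissaOfAbsConv_le_of_forall_lt_LSeriesSummable
    fun y hy => ArithmeticFunction.LSeriesSummable_mul
      (χ1.LSeriesSummable_zetaMul (by simpa using hy)) (summable_pmul χ1 χ2 (by simpa using hy))

end Pool.Agent.ANT
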