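import Pool.Agent.Lib.ANT.DivSum

open Complex

namespace Pool.Agent.ANT

/-- `e(θ) = exp(2π i θ)`. -/
noncomputable def ee (θ : ℝ) : ℂ := Complex.exp (I * ((2 * Real.pi * θ : ℝ) : ℂ))

lemma norm_ee (θ : ℝ) : ‖ee θ‖ = 1 := by
  unfold ee; rw [mul_comm]; exact Complex.norm_exp_ofReal_mul_I _

lemma ee_add (a b : ℝ) : ee (a + b) = ee a * ee b := by
  unfold ee
  rw [← Complex.exp_add]
  congr 1
  push_cast
  ring

lemma ee_int (k : ℤ) : ee (k : ℝ) = 1 := by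
  unfold ee
  rw [show I * ((2 * Real.pi * (k:ℝ) : ℝ) : ℂ) = k * (2 * Real.pi * I) by push_cast; ring]
  exact Complex.exp_int_mul_two_pi_mul_I k

lemma ee_zero : ee 0 = 1 := by
  have := ee_int 0
  simpa using this

lemma ee_add_int (a : ℝ) (k : ℤ) : ee (a + k) = ee a := by rw [ee_add, ee_int, mul_one]

lemma ee_sub_int (a : ℝ) (k : ℤ) : ee (a - k) = ee a := by
  have := ee_add_int (a - k) k
  rw [sub_add_cancel] at this
  exact this.symm

lemma ee_nat_mul (n : ℕ) (θ : ℝ) : ee (n * θ) = ee θ ^ n := by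
  unfold ee
  rw [← Complex.exp_nat_mul]
  congr 1
  push_cast
  ring

lemma conj_ee (θ : ℝ) : (starRingEnd ℂ) (ee θ) = ee (-θ) := by
  unfold ee
  rw [← Complex.exp_conj, map_mul, Complex.conj_I, Complex.conj_ofReal]
  congr 1
  push_cast
  ring

/-- Distance to the nearest integer. -/
noncomputable def nn (θ : ℝ) : ℝ := |θ - round θ|

lemma nn_nonneg (θ : ℝ) : 0 ≤ nn θ := abs_nonneg _

lemma nn_le_half (θ : ℝ) : nn θ ≤ 1/2 := abs_sub_round θ

lemma nn_le_abs_sub_int (θ : ℝ) (k : ℤ) : nn θ ≤ |θ - k| := round_le θ k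

lemma four_nn_le (θ : ℝ) : 4 * nn θ ≤ ‖ee θ - 1‖ := by
  have h1 : ee θ = ee (θ - round θ) := (ee_sub_int θ (round θ)).symm
  rw [h1]
  unfold ee
  rw [Complex.norm_exp_I_mul_ofReal_sub_one, Real.norm_eq_abs, abs_mul, abs_two]
  have h2 : 2 * Real.pi * (θ - round θ) / 2 = Real.pi * (θ - round θ) := by ring
  rw [h2]
  have h3 : |Real.pi * (θ - round θ)| ≤ Real.pi / 2 := by
    rw [abs_mul, abs_of_pos Real.pi_pos]
    have := abs_sub_round θ
    nlinarith [Real.pi_pos]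
  have h4 := Real.mul_abs_le_abs_sin h3
  rw [abs_mul, abs_of_pos Real.pi_pos] at h4
  have h5 : 2 / Real.pi * (Real.pi * |θ - round θ|) = 2 * |θ - round θ| := by
    field_simp
  rw [h5] at h4
  unfold nn
  linarith

lemma geom_Ioc (z : ℂ) {A B : ℕ} (h : A ≤ B) :
    (z - 1) * ∑ l ∈ Finset.Ioc A B, z ^ l = z ^ (B+1) - z ^ (A+1) := by
  induction B, h using Nat.le_induction with
  | base => simp
  | succ B hB ih => rw [sum_Ioc_succ' _ hB, mul_add, ih]; ring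

/-- Truncated reciprocal distance `min (Y, 1/‖θ‖)`. -/
noncomputable def Fy (Y θ : ℝ) : ℝ := (max Y⁻¹ (nn θ))⁻¹

lemma Fy_pos {Y : ℝ} (hY : 0 < Y) (θ : ℝ) : 0 < Fy Y θ := by
  unfold Fy
  have : 0 < max Y⁻¹ (nn θ) := lt_max_of_lt_left (inv_pos.mpr hY)
  positivity

lemma Fy_le {Y : ℝ} (hY : 0 < Y) (θ : ℝ) : Fy Y θ ≤ Y := by
  unfold Fy
  calc (max Y⁻¹ (nn θ))⁻¹ ≤ (Y⁻¹)⁻¹ := inv_anti₀ (inv_pos.mpr hY) (le_max_left _ _)
    _ = Y := inv_inv Y

lemma Fy_mono {Y Y' : ℝ} (hY : 0 < Y) (h : Y ≤ Y') (θ : ℝ) : Fy Y θ ≤ Fy Y' θ := by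
  unfold Fy
  have h1 : Y'⁻¹ ≤ Y⁻¹ := inv_anti₀ hY h
  have h2 : 0 < max Y'⁻¹ (nn θ) := lt_max_of_lt_left (inv_pos.mpr (by linarith))
  exact inv_anti₀ h2 (max_le_max h1 le_rfl)

lemma le_Fy {Y θ s : ℝ} (hY : 0 < Y) (h1 : s ≤ Y) (h2 : s * nn θ ≤ 1) : s ≤ Fy Y θ := by
  unfold Fy
  have h0 : 0 < max Y⁻¹ (nn θ) := lt_max_of_lt_left (inv_pos.mpr hY)
  rw [← one_div, le_div_iff₀ h0]
  rcases max_choice Y⁻¹ (nn θ) with h | h
  · rw [h, ← div_eq_mul_inv, div_le_one hY]; exact h1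
  · rw [h]; exact h2

/-- Geometric sum bound. -/
lemma norm_geom_le {Y θ : ℝ} (hY : 0 < Y) {A B : ℕ} (hAB : ((B - A : ℕ) : ℝ) ≤ Y) :
    ‖∑ l ∈ Finset.Ioc A B, ee (l * θ)‖ ≤ Fy Y θ := by
  rcases le_or_gt B A with h | h
  · rw [Finset.Ioc_eq_empty (by omega)]
    simpa using (Fy_pos hY θ).le
  · simp_rw [ee_nat_mul]
    refine le_Fy hY ?_ ?_
    · calc ‖∑ l ∈ Finset.Ioc A B, ee θ ^ l‖ ≤ ∑ l ∈ Finset.Ioc A B, (1:ℝ) := by
            refine (norm_sum_le _ _).trans (Finset.sum_le_sum fun l _ => ?_)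
            rw [norm_pow, norm_ee, one_pow]
        _ = ((B - A : ℕ) : ℝ) := by simp
        _ ≤ Y := hAB
    · have h1 := geom_Ioc (ee θ) h.le
      have h2 : ‖ee θ - 1‖ * ‖∑ l ∈ Finset.Ioc A B, ee θ ^ l‖ ≤ 2 := by
        rw [← norm_mul, h1]
        refine (norm_sub_le _ _).trans ?_
        rw [norm_pow, norm_pow, norm_ee]
        norm_num
      have h3 := four_nn_le θ
      have h4 := norm_nonneg (∑ l ∈ Finset.Ioc A B, ee θ ^ l)
      nlinarith [nn_nonneg θ, mul_le_mul_of_nonneg_right h3 h4]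

/-- Geometric sum with weight `l`. -/
lemma norm_geom_weight_le {Y θ : ℝ} (hY : 0 < Y) {A B : ℕ} (hB : (B:ℝ) ≤ Y) :
    ‖∑ l ∈ Finset.Ioc A B, (l:ℂ) * ee (l * θ)‖ ≤ 2 * (Y * Fy Y θ) := by
  have hF := Fy_pos hY θ
  rcases le_or_gt B A with h | h
  · rw [Finset.Ioc_eq_empty (by omega)]
    simp
    positivity
  have hg : ∀ u : ℕ, u ≤ B → ‖∑ l ∈ Finset.Ioc A u, ee (l * θ)‖ ≤ Fy Y θ := fun u hu =>
    norm_geom_le hY (le_trans (by exact_mod_cast (by omega : u - A ≤ B)) hB)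
  set w : ℕ → ℝ := fun n => ((B - n : ℕ) : ℝ) with hw
  have h1 : ‖∑ l ∈ Finset.Ioc A B, ee (l * θ) * (w l : ℂ)‖ ≤ Fy Y θ * w (A+1) := by
    refine abel_ineq h.le (fun n _ => by positivity) (fun n _ => ?_) (fun u _ hu => hg u hu)
    simp only [hw]
    exact_mod_cast (by omega : B - (n+1) ≤ B - n)
  have h2 : w (A+1) ≤ Y := by
    refine le_trans ?_ hB
    simp only [hw]
    exact_mod_cast (by omega : B - (A+1) ≤ B)
  have h3 : ∑ l ∈ Finset.Ioc A B, (l:ℂ) * ee (l * θ) =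
      (B:ℂ) * ∑ l ∈ Finset.Ioc A B, ee (l * θ) - ∑ l ∈ Finset.Ioc A B, ee (l * θ) * (w l : ℂ) := by
    rw [Finset.mul_sum, ← Finset.sum_sub_distrib]
    refine Finset.sum_congr rfl fun l hl => ?_
    have hl2 := (Finset.mem_Ioc.mp hl).2
    simp only [hw]
    push_cast [Nat.cast_sub hl2]
    ring
  rw [h3]
  calc _ ≤ ‖(B:ℂ) * ∑ l ∈ Finset.Ioc A B, ee (l * θ)‖ +
        ‖∑ l ∈ Finset.Ioc A B, ee (l * θ) * (w l : ℂ)‖ := norm_sub_le _ _
    _ ≤ Y * Fy Y θ + Fy Y θ * Y := by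
        refine add_le_add ?_ (h1.trans (by gcongr))
        rw [norm_mul, Complex.norm_natCast]
        exact mul_le_mul hB (hg B le_rfl) (norm_nonneg _) hY.le
    _ = _ := by ring

/-! ### Spaced points -/

lemma nn_rational {a r : ℤ} {h : ℤ} (hr : 0 < r) (hcop : IsCoprime a r) (hh : ¬ r ∣ h) :
    1 / (r:ℝ) ≤ nn (h * (a / r : ℝ)) := by
  unfold nn
  set k := round ((h:ℝ) * (a / r : ℝ))
  have hr0 : (0:ℝ) < r := by exact_mod_cast hr
  have h1 : (h:ℝ) * (a / r : ℝ) - k = ((h * a - k * r : ℤ) : ℝ) / r := by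
    push_cast
    field_simp
  have h2 : h * a - k * r ≠ 0 := by
    intro h0
    have h3 : r ∣ h * a := ⟨k, by linarith⟩
    exact hh (hcop.symm.dvd_of_dvd_mul_right h3)
  rw [h1, abs_div, abs_of_pos hr0]
  gcongr
  exact_mod_cast Int.one_le_abs h2

/-- Diophantine data: `|α - a/r| ≤ 1/r²`, `(a,r) = 1`. -/
structure Approx (α : ℝ) (r : ℕ) : Prop where
  pos : 0 < r
  ex : ∃ a : ℤ, IsCoprime a (r:ℤ) ∧ |α - a / r| ≤ 1 / (r:ℝ) ^ 2

lemma nn_sub_ge {x y : ℝ} : nn x - |x - y| ≤ nn y := by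
  have h := nn_le_abs_sub_int x (round y)
  have h2 : |x - round y| ≤ |x - y| + |y - round y| := by
    have := abs_add_le (x - y) (y - round y)
    rwa [sub_add_sub_cancel] at this
  unfold nn at h ⊢
  linarith

lemma nn_spaced {α : ℝ} {r : ℕ} (h : Approx α r) {d : ℤ} (hd : d ≠ 0) (hd2 : 2 * |d| ≤ r) :
    1 / (2 * r : ℝ) ≤ nn (d * α) := by
  obtain ⟨hr, a, hcop, ha⟩ := h
  have hr0 : (0:ℝ) < r := by exact_mod_cast hr
  have hnd : ¬ (r:ℤ) ∣ d := by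
    intro hdvd
    have h1 := Int.le_of_dvd (abs_pos.mpr hd) ((dvd_abs _ _).mpr hdvd)
    have : 0 < |d| := abs_pos.mpr hd
    omega
  have h1 := nn_rational (by exact_mod_cast hr) hcop hnd
  have h2 : |(d:ℝ) * (a / r : ℝ) - d * α| ≤ 1 / (2 * r) := by
    rw [← mul_sub, abs_mul, abs_sub_comm]
    have h3 : |(d:ℝ)| ≤ r / 2 := by
      have : 2 * |(d:ℝ)| ≤ r := by exact_mod_cast hd2
      linarith
    calc |(d:ℝ)| * |α - a / r| ≤ (r/2) * (1 / (r:ℝ)^2) := by gcongr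
      _ = 1 / (2 * r) := by field_simp
  have h3 := nn_sub_ge (x := (d:ℝ) * (a / r : ℝ)) (y := d * α)
  push_cast at h1
  have h4 : 1 / (r:ℝ) - 1 / (2 * r) = 1 / (2 * r) := by field_simp; ring
  linarith

/-- The bucket of `θ`. -/
noncomputable def bucket (r : ℕ) (θ : ℝ) : ℕ := ⌊2 * r * Int.fract θ⌋₊

lemma bucket_lt {r : ℕ} (hr : 0 < r) (θ : ℝ) : bucket r θ < 2 * r := by
  unfold bucket
  have hr0 : (0:ℝ) < r := by exact_mod_cast hr
  rw [Nat.floor_lt (mul_nonneg (by positivity) (Int.fract_nonneg _))]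
  push_cast
  have := Int.fract_lt_one θ
  nlinarith

lemma bucket_inj {α : ℝ} {r : ℕ} (h : Approx α r) {d e : ℤ} (hd2 : 2 * |d - e| ≤ r)
    (hb : bucket r (d * α) = bucket r (e * α)) : d = e := by
  by_contra hne
  have hr0 : (0:ℝ) < r := by exact_mod_cast h.pos
  have h1 := nn_spaced h (sub_ne_zero.mpr hne) hd2
  unfold bucket at hb
  have f1 := Nat.floor_le (mul_nonneg (by positivity : (0:ℝ) ≤ 2 * r) (Int.fract_nonneg (d * α)))
  have f2 := Nat.lt_floor_add_one (2 * r * Int.fract (d * α))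
  have f3 := Nat.floor_le (mul_nonneg (by positivity : (0:ℝ) ≤ 2 * r) (Int.fract_nonneg (e * α)))
  have f4 := Nat.lt_floor_add_one (2 * r * Int.fract (e * α))
  rw [hb] at f1 f2
  have h2 : |2 * r * (Int.fract (d * α) - Int.fract (e * α))| < 1 := by
    rw [abs_lt]; constructor <;> linarith
  have h3 : nn (((d - e : ℤ) : ℝ) * α) ≤ |Int.fract (d * α) - Int.fract (e * α)| := by
    have := nn_le_abs_sub_int (((d - e : ℤ) : ℝ) * α) (⌊(d:ℝ) * α⌋ - ⌊(e:ℝ) * α⌋)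
    have e1 : ((d - e : ℤ) : ℝ) * α - ((⌊(d:ℝ) * α⌋ - ⌊(e:ℝ) * α⌋ : ℤ) : ℝ) =
        Int.fract (d * α) - Int.fract (e * α) := by
      unfold Int.fract; push_cast; ring
    rwa [e1] at this
  rw [abs_mul, abs_of_pos (by positivity : (0:ℝ) < 2 * r)] at h2
  have h4 : 1 ≤ 2 * r * nn (((d - e : ℤ) : ℝ) * α) := by
    calc (1:ℝ) = 2 * r * (1 / (2 * r)) := by field_simp
      _ ≤ _ := by gcongr
  have h5 : 2 * r * nn (((d - e : ℤ) : ℝ) * α) ≤ 2 * r * |Int.fract (d * α) - Int.fract (e * α)| := by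
    gcongr
  linarith

lemma nn_eq_min (θ : ℝ) : nn θ = min (Int.fract θ) (1 - Int.fract θ) := abs_sub_round_eq_min θ

/-- majorant of `Fy` in terms of the bucket -/
noncomputable def Gb (r : ℕ) (Y : ℝ) (v : ℕ) : ℝ :=
  (max Y⁻¹ ((min v (2 * r - 1 - v) : ℕ) / (2 * r : ℝ)))⁻¹

lemma Fy_le_Gb {r : ℕ} (hr : 0 < r) {Y : ℝ} (hY : 0 < Y) (θ : ℝ) :
    Fy Y θ ≤ Gb r Y (bucket r θ) := by
  unfold Fy Gb
  have hr0 : (0:ℝ) < r := by exact_mod_cast hr
  refine inv_anti₀ (lt_max_of_lt_left (inv_pos.mpr hY)) (max_le_max le_rfl ?_)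
  rw [nn_eq_min, div_le_iff₀ (by positivity)]
  have hlt := bucket_lt hr θ
  have f1 := Nat.floor_le (mul_nonneg (by positivity : (0:ℝ) ≤ 2 * r) (Int.fract_nonneg θ))
  have f2 := Nat.lt_floor_add_one (2 * r * Int.fract θ)
  change ((bucket r θ : ℕ) : ℝ) ≤ _ at f1
  change _ < ((bucket r θ : ℕ) : ℝ) + 1 at f2
  rcases min_choice (Int.fract θ) (1 - Int.fract θ) with h | h
  · rw [h]
    calc ((min (bucket r θ) (2 * r - 1 - bucket r θ) : ℕ) : ℝ) ≤ (bucket r θ : ℝ) := by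
          exact_mod_cast min_le_left _ _
      _ ≤ _ := by linarith
  · rw [h]
    calc ((min (bucket r θ) (2 * r - 1 - bucket r θ) : ℕ) : ℝ) ≤ ((2 * r - 1 - bucket r θ : ℕ) : ℝ) := by
          exact_mod_cast min_le_right _ _
      _ = 2 * r - 1 - bucket r θ := by
          rw [Nat.cast_sub (by omega), Nat.cast_sub (by omega)]
          push_cast; ring
      _ ≤ _ := by linarith

lemma sum_Gb_le {r : ℕ} (hr : 0 < r) {Y : ℝ} (hY : 0 < Y) :
    ∑ v ∈ Finset.range (2 * r), Gb r Y v ≤ 2 * Y + 4 * r * (1 + Real.log r) := by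
  have hr0 : (0:ℝ) < r := by exact_mod_cast hr
  have h1 : ∑ v ∈ Finset.range (2 * r), Gb r Y v = 2 * ∑ v ∈ Finset.range r, Gb r Y v := by
    rw [two_mul r, Finset.sum_range_add, two_mul]
    congr 1
    rw [← Finset.sum_range_reflect]
    refine Finset.sum_congr rfl fun v hv => ?_
    have hv' := Finset.mem_range.mp hv
    unfold Gb
    have : min (r + (r - 1 - v)) (2 * r - 1 - (r + (r - 1 - v))) = min v (2 * r - 1 - v) := by omega
    rw [this]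
  have h2 : ∑ v ∈ Finset.range r, Gb r Y v ≤ Y + 2 * r * Hs r := by
    obtain ⟨k, rfl⟩ : ∃ k, r = k + 1 := ⟨r - 1, by omega⟩
    rw [Finset.sum_range_succ']
    have h3 : Gb (k+1) Y 0 = Y := by
      unfold Gb
      have : (0:ℝ) ≤ Y⁻¹ := (inv_pos.mpr hY).le
      simp [this]
    rw [h3, add_comm]
    gcongr
    unfold Hs
    rw [Finset.mul_sum]
    calc ∑ i ∈ Finset.range k, Gb (k+1) Y (i+1)
        ≤ ∑ i ∈ Finset.range k, 2 * ((k+1:ℕ):ℝ) * (1 / ((i+1:ℕ):ℝ)) := by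
          refine Finset.sum_le_sum fun i hi => ?_
          have hi' := Finset.mem_range.mp hi
          unfold Gb
          have h4 : min (i+1) (2 * (k+1) - 1 - (i+1)) = i + 1 := by omega
          rw [h4]
          calc (max Y⁻¹ (((i+1:ℕ):ℝ) / (2 * ((k+1:ℕ):ℝ))))⁻¹ ≤ (((i+1:ℕ):ℝ) / (2 * ((k+1:ℕ):ℝ)))⁻¹ :=
                inv_anti₀ (by positivity) (le_max_right _ _)
            _ = _ := by rw [inv_div]; ring
      _ = ∑ n ∈ Finset.Ioc 0 k, 2 * ((k+1:ℕ):ℝ) * (1 / (n:ℝ)) := by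
          rw [Finset.range_eq_Ico, Finset.sum_Ico_add' (fun n : ℕ => 2 * ((k+1:ℕ):ℝ) * (1 / (n:ℝ))) 0 k 1]
          rfl
      _ ≤ _ := Finset.sum_le_sum_of_subset_of_nonneg (Finset.Ioc_subset_Ioc_right (by omega))
          fun _ _ _ => by positivity
  rw [h1]
  have h3 := Hs_le r
  calc 2 * ∑ v ∈ Finset.range r, Gb r Y v ≤ 2 * (Y + 2 * r * (1 + Real.log r)) := by
        gcongr
        exact h2.trans (by gcongr)
    _ = _ := by ring

lemma Gb_nonneg {r : ℕ} {Y : ℝ} (hY : 0 < Y) (v : ℕ) : 0 ≤ Gb r Y v := by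
  unfold Gb
  have : 0 < max Y⁻¹ (((min v (2 * r - 1 - v) : ℕ) : ℝ) / (2 * r : ℝ)) :=
    lt_max_of_lt_left (inv_pos.mpr hY)
  positivity

/-- Sum over one block. -/
lemma block_sum_le {α : ℝ} {r : ℕ} (h : Approx α r) {Y : ℝ} (hY : 0 < Y) (S : Finset ℕ) (t : ℤ)
    (s : ℤ) (hs : s = 1 ∨ s = -1)
    (hS : ∀ d ∈ S, ∀ e ∈ S, 2 * |(d:ℤ) - e| ≤ r) :
    ∑ d ∈ S, Fy Y (((s * d + t : ℤ) : ℝ) * α) ≤ 2 * Y + 4 * r * (1 + Real.log r) := by
  calc ∑ d ∈ S, Fy Y (((s * d + t : ℤ) : ℝ) * α)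
      ≤ ∑ d ∈ S, Gb r Y (bucket r (((s * d + t : ℤ) : ℝ) * α)) :=
        Finset.sum_le_sum fun d _ => Fy_le_Gb h.pos hY _
    _ = ∑ v ∈ S.image (fun d : ℕ => bucket r (((s * d + t : ℤ) : ℝ) * α)), Gb r Y v := by
        rw [Finset.sum_image]
        intro d hd e he hde
        have h1 : s * d + t = s * e + t := by
          refine bucket_inj h ?_ hde
          have : s * (d:ℤ) + t - (s * e + t) = s * (d - e) := by ring
          rw [this, abs_mul]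
          have h2 : |s| = 1 := by rcases hs with rfl | rfl <;> simp
          rw [h2, one_mul]
          exact hS d hd e he
        rcases hs with rfl | rfl <;> omega
    _ ≤ ∑ v ∈ Finset.range (2 * r), Gb r Y v := by
        refine Finset.sum_le_sum_of_subset_of_nonneg ?_ fun _ _ _ => Gb_nonneg hY _
        intro v hv
        obtain ⟨d, _, rfl⟩ := Finset.mem_image.mp hv
        exact Finset.mem_range.mpr (bucket_lt h.pos _)
    _ ≤ _ := sum_Gb_le h.pos hY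

end Pool.Agent.ANT
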