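import Pool.Agent.Lib.ANT.MuPNT

open Complex

namespace Pool.Agent.ANT

/-- Summatory function of a Dirichlet convolution, for plain functions. -/
lemma sum_conv (F G : ℕ → ℂ) (N : ℕ) :
    ∑ k ∈ Finset.Ioc 0 N, ∑ p ∈ k.divisorsAntidiagonal, F p.1 * G p.2 =
      ∑ m ∈ Finset.Ioc 0 N, F m * ∑ n ∈ Finset.Ioc 0 (N / m), G n := by
  set F' : ArithmeticFunction ℂ := ⟨fun n => if n = 0 then 0 else F n, by simp⟩ with hF'
  set G' : ArithmeticFunction ℂ := ⟨fun n => if n = 0 then 0 else G n, by simp⟩ with hG'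
  have hF : ∀ n, n ≠ 0 → F' n = F n := fun n hn => by simp [hF', hn]
  have hG : ∀ n, n ≠ 0 → G' n = G n := fun n hn => by simp [hG', hn]
  have h := ArithmeticFunction.sum_Ioc_mul_eq_sum_sum F' G' N
  have h1 : ∑ k ∈ Finset.Ioc 0 N, ∑ p ∈ k.divisorsAntidiagonal, F p.1 * G p.2 =
      ∑ n ∈ Finset.Ioc 0 N, (F' * G') n := by
    refine Finset.sum_congr rfl fun k _ => ?_
    rw [ArithmeticFunction.mul_apply]
    refine Finset.sum_congr rfl fun p hp => ?_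
    have := Nat.ne_zero_of_mem_divisorsAntidiagonal hp
    rw [hF _ this.1, hG _ this.2]
  rw [h1, h]
  refine Finset.sum_congr rfl fun m hm => ?_
  rw [hF _ (by have := (Finset.mem_Ioc.mp hm).1; omega)]
  congr 1
  refine Finset.sum_congr rfl fun n hn => ?_
  rw [hG _ (by have := (Finset.mem_Ioc.mp hn).1; omega)]

lemma hyperbola_aux {N U m n : ℕ} :
    (m ∈ Finset.Ioc U N ∧ n ∈ Finset.Ioc 0 (N / m)) ↔
      (m ∈ Finset.Ioc U (N / n) ∧ n ∈ Finset.Ioc 0 (N / (U+1))) := by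
  simp only [Finset.mem_Ioc]
  constructor
  · rintro ⟨⟨h1, h2⟩, h3, h4⟩
    have hm : 0 < m := by omega
    have h5 : n * m ≤ N := (Nat.le_div_iff_mul_le hm).mp h4
    refine ⟨⟨h1, (Nat.le_div_iff_mul_le h3).mpr (by rwa [mul_comm])⟩, h3,
      (Nat.le_div_iff_mul_le (by omega)).mpr ((Nat.mul_le_mul_left n (by omega)).trans h5)⟩
  · rintro ⟨⟨h1, h2⟩, h3, h4⟩
    have h5 : m * n ≤ N := (Nat.le_div_iff_mul_le h3).mp h2
    have hm : 0 < m := by omega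
    exact ⟨⟨h1, (Nat.le_mul_of_pos_right m h3).trans h5⟩, h3,
      (Nat.le_div_iff_mul_le hm).mpr (by rwa [mul_comm])⟩

/-- Dirichlet hyperbola method. -/
lemma hyperbola {R : Type*} [CommRing R] (f g : ℕ → R) {N U : ℕ} (hU : U ≤ N) :
    ∑ m ∈ Finset.Ioc 0 N, f m * ∑ n ∈ Finset.Ioc 0 (N / m), g n =
      ∑ m ∈ Finset.Ioc 0 U, f m * ∑ n ∈ Finset.Ioc 0 (N / m), g n +
      ∑ n ∈ Finset.Ioc 0 (N / (U+1)), g n * ∑ m ∈ Finset.Ioc U (N / n), f m := by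
  rw [← Finset.sum_Ioc_consecutive _ (Nat.zero_le U) hU]
  congr 1
  simp_rw [Finset.mul_sum]
  rw [Finset.sum_comm' (s' := fun n => Finset.Ioc U (N / n)) (t' := Finset.Ioc 0 (N / (U+1)))
    (fun m n => hyperbola_aux)]
  refine Finset.sum_congr rfl fun n _ => Finset.sum_congr rfl fun m _ => mul_comm _ _

lemma sum_Ioc_sub {R : Type*} [AddCommGroup R] (f : ℕ → R) {U V : ℕ} (h : U ≤ V) :
    ∑ m ∈ Finset.Ioc U V, f m = ∑ m ∈ Finset.Ioc 0 V, f m - ∑ m ∈ Finset.Ioc 0 U, f m := by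
  rw [← Finset.sum_Ioc_consecutive f (Nat.zero_le U) h]; abel

lemma sum_inv_sqrt_le (U : ℕ) : ∑ m ∈ Finset.Ioc 0 U, (1:ℝ) / √(m:ℝ) ≤ 2 * √(U:ℝ) := by
  induction U with
  | zero => simp
  | succ U ih =>
    rw [Finset.sum_Ioc_succ_top (by omega)]
    have h1 : (1:ℝ) / √((U+1:ℕ):ℝ) ≤ 2 * (√((U+1:ℕ):ℝ) - √(U:ℝ)) := by
      have ha : 0 < √((U+1:ℕ):ℝ) := Real.sqrt_pos.mpr (by positivity)
      have hb : 0 ≤ √(U:ℝ) := Real.sqrt_nonneg _
      have hab : √(U:ℝ) ≤ √((U+1:ℕ):ℝ) := Real.sqrt_le_sqrt (by push_cast; linarith)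
      have hsq : √((U+1:ℕ):ℝ) ^ 2 = U + 1 := by rw [Real.sq_sqrt (by positivity)]; push_cast; ring
      have hsq' : √(U:ℝ) ^ 2 = U := Real.sq_sqrt (by positivity)
      rw [div_le_iff₀ ha]
      nlinarith
    linarith

/-- Abstract convolution bound by the hyperbola method. -/
lemma conv_bound {f g : ℕ → ℂ} {G K A : ℝ} {j N U : ℕ} (hG0 : 0 ≤ G) (hK0 : 0 ≤ K)
    (hf : ∀ n, ‖f n‖ ≤ 1)
    (hG : ∀ k : ℕ, 1 ≤ k → ‖∑ n ∈ Finset.Ioc 0 k, g n‖ ≤ G * √(k:ℝ))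
    (hA : ∀ k : ℕ, 1 ≤ k → ∑ n ∈ Finset.Ioc 0 k, ‖g n‖ / n ≤ A * (1 + Real.log k) ^ 2)
    (hF : ∀ k : ℕ, 3 ≤ k → ‖∑ n ∈ Finset.Ioc 0 k, f n‖ ≤ K * k / Real.log k ^ j)
    (hU : 3 ≤ U) (hUN : U < N) :
    ‖∑ m ∈ Finset.Ioc 0 N, f m * ∑ n ∈ Finset.Ioc 0 (N / m), g n‖ ≤
      2 * G * √(N:ℝ) * √(U:ℝ) + 2 * K * A * N * (1 + Real.log N) ^ 2 / Real.log U ^ j := by
  have hlogU : 1 ≤ Real.log U := by
    rw [Real.le_log_iff_exp_le (by positivity)]
    have := Real.exp_one_lt_d9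
    have : (3:ℝ) ≤ U := by exact_mod_cast hU
    linarith
  rw [hyperbola f g hUN.le]
  refine (norm_add_le _ _).trans (add_le_add ?_ ?_)
  · calc ‖∑ m ∈ Finset.Ioc 0 U, f m * ∑ n ∈ Finset.Ioc 0 (N / m), g n‖
        ≤ ∑ m ∈ Finset.Ioc 0 U, G * √(N:ℝ) * (1 / √(m:ℝ)) := by
          refine (norm_sum_le _ _).trans (Finset.sum_le_sum fun m hm => ?_)
          obtain ⟨hm1, hm2⟩ := Finset.mem_Ioc.mp hm
          rw [norm_mul]
          have h1 : 1 ≤ N / m := (Nat.le_div_iff_mul_le hm1).mpr (by omega)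
          have h2 : √((N / m : ℕ) : ℝ) ≤ √(N:ℝ) * (1 / √(m:ℝ)) := by
            rw [mul_one_div, ← Real.sqrt_div (by positivity)]
            exact Real.sqrt_le_sqrt Nat.cast_div_le
          calc ‖f m‖ * ‖∑ n ∈ Finset.Ioc 0 (N / m), g n‖ ≤ 1 * (G * √((N / m : ℕ) : ℝ)) :=
                mul_le_mul (hf m) (hG _ h1) (norm_nonneg _) zero_le_one
            _ ≤ 1 * (G * (√(N:ℝ) * (1 / √(m:ℝ)))) := by gcongr
            _ = _ := by ring
      _ = G * √(N:ℝ) * ∑ m ∈ Finset.Ioc 0 U, (1:ℝ) / √(m:ℝ) := by rw [Finset.mul_sum]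
      _ ≤ G * √(N:ℝ) * (2 * √(U:ℝ)) := by
          gcongr
          exact sum_inv_sqrt_le U
      _ = _ := by ring
  · have hN1 : 1 ≤ N / (U+1) := (Nat.le_div_iff_mul_le (by omega)).mpr (by omega)
    calc ‖∑ n ∈ Finset.Ioc 0 (N / (U+1)), g n * ∑ m ∈ Finset.Ioc U (N / n), f m‖
        ≤ ∑ n ∈ Finset.Ioc 0 (N / (U+1)), ‖g n‖ / n * (2 * K * N / Real.log U ^ j) := by
          refine (norm_sum_le _ _).trans (Finset.sum_le_sum fun n hn => ?_)
          obtain ⟨hn1, hn2⟩ := Finset.mem_Ioc.mp hn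
          have hn0 : (0:ℝ) < n := by exact_mod_cast hn1
          have h3 : U + 1 ≤ N / n := by
            rw [Nat.le_div_iff_mul_le hn1]
            have := (Nat.le_div_iff_mul_le (by omega : 0 < U + 1)).mp hn2
            rwa [mul_comm]
          have h4 : ((N / n : ℕ) : ℝ) ≤ N / n := Nat.cast_div_le
          have h5 : (U:ℝ) ≤ ((N / n : ℕ) : ℝ) := by exact_mod_cast (by omega : U ≤ N / n)
          have hU0 : (0:ℝ) < U := by positivity
          have hlog : Real.log U ≤ Real.log ((N / n : ℕ) : ℝ) := Real.log_le_log hU0 h5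
          rw [norm_mul, sum_Ioc_sub f (by omega : U ≤ N / n)]
          have h6 : ‖∑ m ∈ Finset.Ioc 0 (N / n), f m‖ ≤ K * (N / n) / Real.log U ^ j := by
            refine (hF _ (by omega)).trans ?_
            gcongr
          have h7 : ‖∑ m ∈ Finset.Ioc 0 U, f m‖ ≤ K * (N / n) / Real.log U ^ j := by
            refine (hF _ hU).trans ?_
            gcongr
            exact h5.trans h4
          calc ‖g n‖ * ‖∑ m ∈ Finset.Ioc 0 (N / n), f m - ∑ m ∈ Finset.Ioc 0 U, f m‖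
              ≤ ‖g n‖ * (K * (N / n) / Real.log U ^ j + K * (N / n) / Real.log U ^ j) := by
                gcongr
                exact (norm_sub_le _ _).trans (add_le_add h6 h7)
            _ = _ := by field_simp; ring
      _ = (∑ n ∈ Finset.Ioc 0 (N / (U+1)), ‖g n‖ / n) * (2 * K * N / Real.log U ^ j) := by
          rw [Finset.sum_mul]
      _ ≤ (A * (1 + Real.log ((N / (U+1) : ℕ):ℝ)) ^ 2) * (2 * K * N / Real.log U ^ j) := by
          gcongr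
          exact hA _ hN1
      _ ≤ (A * (1 + Real.log N) ^ 2) * (2 * K * N / Real.log U ^ j) := by
          have hA0 : 0 ≤ A := by
            have := hA 1 le_rfl
            simp at this
            exact (norm_nonneg _).trans this
          have h8 : (1:ℝ) ≤ ((N / (U+1) : ℕ):ℝ) := by exact_mod_cast hN1
          have h9 : 0 ≤ Real.log ((N / (U+1) : ℕ):ℝ) := Real.log_nonneg h8
          have h10 : Real.log ((N / (U+1) : ℕ):ℝ) ≤ Real.log N :=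
            Real.log_le_log (by linarith) (by exact_mod_cast Nat.div_le_self _ _)
          gcongr
      _ = _ := by ring

/-- With `U = √N`. -/
lemma conv_bound_sqrt {f g : ℕ → ℂ} {G K A : ℝ} {j N : ℕ} (hG0 : 0 ≤ G) (hK0 : 0 ≤ K)
    (hf : ∀ n, ‖f n‖ ≤ 1)
    (hG : ∀ k : ℕ, 1 ≤ k → ‖∑ n ∈ Finset.Ioc 0 k, g n‖ ≤ G * √(k:ℝ))
    (hA : ∀ k : ℕ, 1 ≤ k → ∑ n ∈ Finset.Ioc 0 k, ‖g n‖ / n ≤ A * (1 + Real.log k) ^ 2)
    (hF : ∀ k : ℕ, 3 ≤ k → ‖∑ n ∈ Finset.Ioc 0 k, f n‖ ≤ K * k / Real.log k ^ (j+2))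
    (hN : 9 ≤ N) :
    ‖∑ m ∈ Finset.Ioc 0 N, f m * ∑ n ∈ Finset.Ioc 0 (N / m), g n‖ ≤
      2 * G * (N:ℝ) ^ (3/4 : ℝ) + 8 * 4 ^ (j+2) * K * A * N / Real.log N ^ j := by
  have hN0 : (0:ℝ) < N := by positivity
  have hlogN : 1 ≤ Real.log N := by
    rw [Real.le_log_iff_exp_le (by positivity)]
    have := Real.exp_one_lt_d9
    have : (9:ℝ) ≤ N := by exact_mod_cast hN
    linarith
  set U := Nat.sqrt N with hUdef
  have hU3 : 3 ≤ U := Nat.le_sqrt.mpr (by omega)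
  have hUN : U < N := Nat.sqrt_lt_self (by omega)
  have hA0 : 0 ≤ A := by
    have := hA 1 le_rfl
    simp at this
    exact (norm_nonneg _).trans this
  refine (conv_bound hG0 hK0 hf hG hA hF hU3 hUN).trans (add_le_add ?_ ?_)
  · have h1 : √(N:ℝ) * √(U:ℝ) ≤ (N:ℝ) ^ (3/4 : ℝ) := by
      have h2 : (U:ℝ) ≤ √(N:ℝ) := Real.nat_sqrt_le_real_sqrt
      have h3 : √(U:ℝ) ≤ (N:ℝ) ^ (1/4 : ℝ) := by
        calc √(U:ℝ) ≤ √(√(N:ℝ)) := Real.sqrt_le_sqrt h2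
          _ = (N:ℝ) ^ (1/4 : ℝ) := by
            rw [Real.sqrt_eq_rpow, Real.sqrt_eq_rpow, ← Real.rpow_mul hN0.le]; norm_num
      calc √(N:ℝ) * √(U:ℝ) ≤ (N:ℝ) ^ (1/2 : ℝ) * (N:ℝ) ^ (1/4 : ℝ) := by
            rw [Real.sqrt_eq_rpow (N:ℝ)]
            gcongr
        _ = (N:ℝ) ^ (3/4 : ℝ) := by rw [← Real.rpow_add hN0]; norm_num
    calc 2 * G * √(N:ℝ) * √(U:ℝ) = 2 * G * (√(N:ℝ) * √(U:ℝ)) := by ring
      _ ≤ _ := by gcongr
  · have hlogU : Real.log N / 4 ≤ Real.log U := by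
      have h1 : N < (U + 1) * (U + 1) := Nat.lt_succ_sqrt N
      have h2 : N < U ^ 4 := by
        have h3 : U + 1 ≤ U ^ 2 := by nlinarith
        calc N < (U+1) * (U+1) := h1
          _ ≤ U ^ 2 * U ^ 2 := Nat.mul_le_mul h3 h3
          _ = U ^ 4 := by ring
      have h3 : (N:ℝ) ≤ (U:ℝ) ^ 4 := by exact_mod_cast h2.le
      have h4 := Real.log_le_log hN0 h3
      rw [Real.log_pow] at h4
      push_cast at h4
      linarith
    calc 2 * K * A * N * (1 + Real.log N) ^ 2 / Real.log U ^ (j+2)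
        ≤ 2 * K * A * N * (2 * Real.log N) ^ 2 / (Real.log N / 4) ^ (j+2) := by
          gcongr
          linarith
      _ = 8 * 4 ^ (j+2) * K * A * N / Real.log N ^ j := by
          rw [div_pow, pow_add (Real.log N) j 2]
          field_simp
          ring

end Pool.Agent.ANT
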