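import Pool.Agent.Lib.ANT.LUpper

open Complex MeasureTheory Set Filter Asymptotics Topology

namespace Pool.Agent.ANT

/-- The continuation to `Re s > 0` of the Dirichlet series of `f` with mean value `κ`. -/
noncomputable def Gx (f : ℕ → ℂ) (κ : ℂ) (s : ℂ) : ℂ := κ * (s / (s - 1)) + s * HInt f κ s

lemma Gx_zero (f : ℕ → ℂ) : Gx f 0 = fun s => s * HInt f 0 s := by
  ext s; simp [Gx]

lemma Gx_differentiableAt {f : ℕ → ℂ} {κ : ℂ} {R1 : ℝ}
    (h : ∀ u : ℝ, 1 ≤ u → ‖Rem f κ u‖ ≤ R1) {s : ℂ} (hs : 0 < s.re) (hs1 : κ = 0 ∨ s ≠ 1) :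
    DifferentiableAt ℂ (Gx f κ) s := by
  rcases hs1 with rfl | hs1
  · rw [Gx_zero]
    exact differentiableAt_id.mul (HInt_differentiableAt h hs)
  · unfold Gx
    refine DifferentiableAt.add ?_ (differentiableAt_id.mul (HInt_differentiableAt h hs))
    refine DifferentiableAt.const_mul ?_ _
    exact differentiableAt_id.div (differentiableAt_id.sub_const _) (sub_ne_zero.mpr hs1)

lemma ell_mono {R : ℝ} (hR : 1 ≤ R) {t t' : ℝ} (h : |t| ≤ |t'|) : ell R t ≤ ell R t' := by
  unfold ell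
  apply Real.log_le_log (by positivity)
  gcongr

lemma ell_le_two_mul {R : ℝ} (hR : 1 ≤ R) {t t' : ℝ} (h : |t'| ≤ |t| + 1) :
    ell R t' ≤ 2 * ell R t := by
  unfold ell
  have h1 : R * (|t'| + 3) ≤ (R * (|t| + 3)) ^ 2 := by
    have h3 : 3 ≤ R * (|t| + 3) := by
      calc (3:ℝ) = 1 * (0 + 3) := by ring
        _ ≤ R * (|t| + 3) := by
          gcongr
          exact abs_nonneg _
    have h4 : R * (|t'| + 3) ≤ R * (|t| + 3) * 3 := by
      calc R * (|t'| + 3) ≤ R * ((|t| + 1) + 3) := by gcongr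
        _ ≤ R * ((|t| + 3) * 3) := by
          gcongr
          linarith [abs_nonneg t]
        _ = R * (|t| + 3) * 3 := by ring
    calc R * (|t'| + 3) ≤ R * (|t| + 3) * 3 := h4
      _ ≤ R * (|t| + 3) * (R * (|t| + 3)) := by gcongr
      _ = (R * (|t| + 3)) ^ 2 := by ring
  calc Real.log (R * (|t'| + 3)) ≤ Real.log ((R * (|t| + 3)) ^ 2) :=
        Real.log_le_log (by positivity) h1
    _ = 2 * Real.log (R * (|t| + 3)) := by rw [Real.log_pow]; push_cast; ring

lemma norm_Gx_zero_le {f : ℕ → ℂ} {R1 : ℝ} (hf : ∀ n, ‖f n‖ ≤ 1) (hR1 : 1 ≤ R1)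
    (h : ∀ u : ℝ, 1 ≤ u → ‖Rem f 0 u‖ ≤ R1) {s : ℂ}
    (hσ : 1 - 1 / (3 * ell R1 s.im) ≤ s.re) :
    ‖Gx f 0 s‖ ≤ 21 * ell R1 s.im := by
  by_cases hs1 : s = 1
  · subst hs1
    have hcont : ContinuousAt (Gx f 0) 1 :=
      (Gx_differentiableAt h (by simp) (Or.inl rfl)).continuousAt
    have hpath : Tendsto (fun t : ℝ => (1:ℂ) + t * I) (𝓝[≠] 0) (𝓝 1) := by
      have : ContinuousAt (fun t : ℝ => (1:ℂ) + t * I) 0 := by fun_prop
      have h2 : Tendsto (fun t : ℝ => (1:ℂ) + t * I) (𝓝 0) (𝓝 1) := by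
        have := this.tendsto
        simpa using this
      exact h2.mono_left nhdsWithin_le_nhds
    have h1 : Tendsto (fun t : ℝ => ‖Gx f 0 ((1:ℂ) + t * I)‖) (𝓝[≠] 0) (𝓝 ‖Gx f 0 1‖) :=
      (hcont.tendsto.comp hpath).norm
    have h2 : Tendsto (fun t : ℝ => 21 * ell R1 t) (𝓝[≠] 0) (𝓝 (21 * ell R1 0)) := by
      have : ContinuousAt (fun t : ℝ => 21 * ell R1 t) 0 := by
        unfold ell
        refine ContinuousAt.mul continuousAt_const ?_
        refine ContinuousAt.log (by fun_prop) ?_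
        have : (0:ℝ) < R1 * (|0| + 3) := by positivity
        exact this.ne'
      exact this.tendsto.mono_left nhdsWithin_le_nhds
    have h3 : ∀ᶠ t : ℝ in 𝓝[≠] 0, ‖Gx f 0 ((1:ℂ) + t * I)‖ ≤ 21 * ell R1 t := by
      filter_upwards [self_mem_nhdsWithin] with t ht
      have ht' : t ≠ 0 := ht
      have hne : (1:ℂ) + t * I ≠ 1 := by
        intro h0
        have := congrArg Complex.im h0
        simp at this
        exact ht' this
      have hσ' : 1 - 1 / (3 * ell R1 ((1:ℂ) + t * I).im) ≤ ((1:ℂ) + t * I).re := by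
        have hell : 1 ≤ ell R1 ((1:ℂ) + t * I).im := one_le_ell hR1 _
        have : 0 ≤ 1 / (3 * ell R1 ((1:ℂ) + t * I).im) := by positivity
        simp only [add_re, one_re, mul_re, ofReal_re, I_re, mul_zero, ofReal_im, I_im, mul_one,
          sub_self, add_zero]
        simp only [add_im, one_im, mul_im, ofReal_re, I_im, mul_one, ofReal_im, I_re, mul_zero,
          add_zero, zero_add] at this ⊢
        linarith
      have := norm_cont_le_ell (κ := 0) hf (by simp) hR1 h hne hσ'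
      simpa [Gx] using this
    have h4 := le_of_tendsto_of_tendsto h1 h2 h3
    simpa using h4
  · have := norm_cont_le_ell (κ := 0) hf (by simp) hR1 h hs1 hσ
    simpa [Gx] using this

/-- Bounds for all derivatives on `Re s ≥ 1`. -/
lemma norm_iteratedDeriv_Gx_le {f : ℕ → ℂ} {κ : ℂ} {R1 : ℝ} (hf : ∀ n, ‖f n‖ ≤ 1) (hκ : ‖κ‖ ≤ 1)
    (hR1 : 1 ≤ R1)
    (h : ∀ u : ℝ, 1 ≤ u → ‖Rem f κ u‖ ≤ R1) {s : ℂ} (hs : 1 ≤ s.re) (hs1 : κ = 0 ∨ 1 ≤ |s.im|)
    (j : ℕ) :
    ‖iteratedDeriv j (Gx f κ) s‖ ≤ j.factorial * (48 * ell R1 s.im) * (6 * ell R1 s.im) ^ j := by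
  set L := ell R1 s.im with hL
  have hL1 : 1 ≤ L := one_le_ell hR1 _
  set r : ℝ := 1 / (6 * L) with hr
  have hr0 : 0 < r := by positivity
  have hr1 : r ≤ 1/6 := by
    rw [hr]
    apply one_div_le_one_div_of_le (by norm_num)
    linarith
  have hclosed : ∀ z ∈ Metric.closedBall s r, |z.im - s.im| ≤ r ∧ s.re - r ≤ z.re := by
    intro z hz
    rw [mem_closedBall_iff_norm] at hz
    constructor
    · calc |z.im - s.im| = |(z - s).im| := by simp
        _ ≤ ‖z - s‖ := Complex.abs_im_le_norm _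
        _ ≤ r := hz
    · have : |(z - s).re| ≤ r := (Complex.abs_re_le_norm _).trans hz
      rw [sub_re, abs_le] at this
      linarith [this.1]
  have him : ∀ z ∈ Metric.closedBall s r, κ = 0 ∨ 1/2 ≤ ‖z - 1‖ := by
    intro z hz
    rcases hs1 with h0 | h0
    · exact Or.inl h0
    · right
      have h1 := (hclosed z hz).1
      have h2 : |s.im| ≤ |z.im| + |z.im - s.im| := by
        have := abs_sub_abs_le_abs_sub s.im z.im
        rw [abs_sub_comm] at this
        linarith
      have h3 : |z.im| ≤ ‖z - 1‖ := by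
        have := Complex.abs_im_le_norm (z - 1)
        simpa using this
      linarith
  have hd : DiffContOnCl ℂ (Gx f κ) (Metric.ball s r) := by
    apply DifferentiableOn.diffContOnCl
    rw [closure_ball _ hr0.ne']
    intro z hz
    refine (Gx_differentiableAt h ?_ ?_).differentiableWithinAt
    · have := (hclosed z hz).2
      linarith
    · rcases him z hz with h0 | h0
      · exact Or.inl h0
      · right
        rintro rfl
        simp at h0
        norm_num at h0
  have hbound : ∀ z ∈ Metric.sphere s r, ‖Gx f κ z‖ ≤ 48 * L := by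
    intro z hz
    have hz' : z ∈ Metric.closedBall s r := Metric.sphere_subset_closedBall hz
    have h1 := hclosed z hz'
    have hzt : |z.im| ≤ |s.im| + 1 := by
      have : |z.im| ≤ |s.im| + |z.im - s.im| := by
        have := abs_sub_abs_le_abs_sub z.im s.im
        linarith
      linarith
    have hell : ell R1 z.im ≤ 2 * L := ell_le_two_mul hR1 hzt
    have hell1 : 1 ≤ ell R1 z.im := one_le_ell hR1 _
    have hσ : 1 - 1 / (3 * ell R1 z.im) ≤ z.re := by
      have : r ≤ 1 / (3 * ell R1 z.im) := by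
        rw [hr]
        apply one_div_le_one_div_of_le (by positivity)
        linarith
      linarith [h1.2]
    rcases him z hz' with h0 | h0
    · subst h0
      have := norm_Gx_zero_le hf hR1 h hσ
      linarith
    · have hne : z ≠ 1 := by
        rintro rfl
        simp at h0
        norm_num at h0
      have := norm_cont_le_ell hf hκ hR1 h hne hσ
      have h2 : ‖κ‖ / ‖z - 1‖ ≤ 2 := by
        rw [div_le_iff₀ (by linarith)]
        linarith
      unfold Gx
      linarith
  have := Complex.norm_iteratedDeriv_le_of_forall_mem_sphere_norm_le j hr0 hd hbound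
  refine this.trans (le_of_eq ?_)
  rw [hr]
  rw [one_div, inv_pow, div_inv_eq_mul]

end Pool.Agent.ANT
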