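import Pool.Agent.Lib.ANT.Siegel

open Complex MeasureTheory Set Filter Asymptotics Topology

namespace Pool.Agent.ANT

/-- `‖L(f,s)‖ ≤ ζ(Re s)` for bounded coefficients. -/
lemma norm_LSeries_le {f : ℕ → ℂ} (hf : ∀ n, ‖f n‖ ≤ 1) {s : ℂ} (hs : 1 < s.re) :
    ‖LSeries f s‖ ≤ ‖riemannZeta (s.re : ℂ)‖ := by
  have hs' : 1 < ((s.re : ℝ) : ℂ).re := by simpa using hs
  have h1 : LSeriesSummable f s := LSeriesSummable_of_bounded_of_one_lt_re (m := 1)
    (fun n _ => hf n) hs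
  have h2 : LSeriesSummable (fun _ => (1:ℂ)) ((s.re : ℝ) : ℂ) :=
    LSeriesSummable_of_bounded_of_one_lt_re (m := 1) (fun n _ => by simp) hs'
  have h3 : ∀ n, ‖LSeries.term f s n‖ ≤ (LSeries.term (fun _ => (1:ℂ)) ((s.re : ℝ) : ℂ) n).re := by
    intro n
    rcases eq_or_ne n 0 with rfl | hn
    · simp
    · rw [LSeries.norm_term_eq, if_neg hn, LSeries.term_of_ne_zero hn]
      have hn0 : (0:ℝ) < n := by exact_mod_cast Nat.pos_of_ne_zero hn
      have e : (1:ℂ) / (n:ℂ) ^ ((s.re : ℝ) : ℂ) = ((1 / (n:ℝ) ^ s.re : ℝ) : ℂ) := by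
        push_cast
        rw [Complex.ofReal_cpow hn0.le]
        simp
      rw [e, ofReal_re]
      gcongr
      exact hf n
  have h4 : Summable fun n => (LSeries.term (fun _ => (1:ℂ)) ((s.re : ℝ) : ℂ) n).re :=
    (Complex.hasSum_re h2.hasSum).summable
  calc ‖LSeries f s‖ ≤ ∑' n, ‖LSeries.term f s n‖ := norm_tsum_le_tsum_norm h1.norm
    _ ≤ ∑' n, (LSeries.term (fun _ => (1:ℂ)) ((s.re : ℝ) : ℂ) n).re := h1.norm.tsum_le_tsum h3 h4
    _ = (LSeries (fun _ => (1:ℂ)) ((s.re : ℝ) : ℂ)).re := by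
        unfold LSeries
        rw [Complex.re_tsum h2]
    _ ≤ ‖LSeries (fun _ => (1:ℂ)) ((s.re : ℝ) : ℂ)‖ := Complex.re_le_norm _
    _ = ‖riemannZeta (s.re : ℂ)‖ := by
        rw [← LSeries_one_eq_riemannZeta hs']; rfl

lemma norm_LSeries_le' {f : ℕ → ℂ} (hf : ∀ n, ‖f n‖ ≤ 1) {s : ℂ} (hs : 1 < s.re) (hs2 : s.re ≤ 2) :
    ‖LSeries f s‖ ≤ 3 / (s.re - 1) :=
  (norm_LSeries_le hf hs).trans (zeta_real_le hs hs2)

/-- The abstract 3-4-1 argument. -/
lemma three_four_one {h : ℝ → ℝ} {Λ W : ℝ} (hΛ : 1 ≤ Λ) (hW : 1 ≤ W) (h0 : ∀ x, 0 ≤ h x)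
    (h1 : ∀ x, 0 < x → x ≤ 1 → x ^ 3 ≤ 27 * h x ^ 4 * W)
    (h2 : ∀ x x', 0 < x → x ≤ x' → x' ≤ 1 → h x' ≤ h x + (x' - x) * (288 * Λ ^ 2))
    {x : ℝ} (hx : 0 < x) (hx1 : x ≤ 1) :
    1 / (2 * 1728 ^ 3 * Λ ^ 6 * W ^ 4) ≤ h x := by
  set ρ : ℝ := 1 / (1728 * Λ ^ 2 * W) with hρ
  have hρ0 : 0 < ρ := by positivity
  have hρ1 : ρ ≤ 1/1728 := by
    rw [hρ]
    apply one_div_le_one_div_of_le (by norm_num)
    have : 1 ≤ Λ ^ 2 * W := by nlinarith
    nlinarith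
  have hkey : ∀ y, 3 * ρ ^ 4 ≤ y → y ≤ 1 → ρ ^ 3 / W ≤ h y := by
    intro y hy hy1
    have hy0 : 0 < y := lt_of_lt_of_le (by positivity) hy
    have e1 := h1 y hy0 hy1
    have e2 : (3 * ρ ^ 4) ^ 3 ≤ y ^ 3 := by gcongr
    have e3 : (ρ ^ 3 / W) ^ 4 ≤ h y ^ 4 := by
      have e4 : ρ ^ 12 ≤ h y ^ 4 * W := by nlinarith
      rw [div_pow]
      rw [div_le_iff₀ (by positivity)]
      have e5 : W ≤ W ^ 4 := by
        calc W = W ^ 1 := (pow_one W).symm
          _ ≤ W ^ 4 := pow_le_pow_right₀ hW (by norm_num)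
      calc (ρ ^ 3) ^ 4 = ρ ^ 12 := by ring
        _ ≤ h y ^ 4 * W := e4
        _ ≤ h y ^ 4 * W ^ 4 := by
            have := h0 y
            gcongr
    exact le_of_pow_le_pow_left₀ (by norm_num) (h0 y) e3
  have h3ρ : 3 * ρ ^ 4 ≤ 1 := by
    have : ρ ^ 4 ≤ (1/1728) ^ 4 := by gcongr
    have : (3:ℝ) * (1/1728) ^ 4 ≤ 1 := by norm_num
    linarith
  have hfin : ρ ^ 3 / W / 2 ≤ h x := by
    by_cases hxρ : 3 * ρ ^ 4 ≤ x
    · have := hkey x hxρ hx1
      have h6 : 0 ≤ ρ ^ 3 / W := by positivity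
      linarith
    · push Not at hxρ
      have e1 := hkey (3 * ρ ^ 4) le_rfl h3ρ
      have e2 := h2 x (3 * ρ ^ 4) hx hxρ.le h3ρ
      have e3 : (3 * ρ ^ 4 - x) * (288 * Λ ^ 2) ≤ 3 * ρ ^ 4 * (288 * Λ ^ 2) := by
        gcongr
        linarith
      have e4 : 3 * ρ ^ 4 * (288 * Λ ^ 2) = ρ ^ 3 / W / 2 := by
        rw [hρ]; field_simp; norm_num
      rw [e4] at e3
      linarith
  refine le_trans (le_of_eq ?_) hfin
  rw [hρ]
  field_simp

lemma LX_sub_le {q : ℕ} [NeZero q] {χ : DirichletCharacter ℂ q} (hχ : χ ≠ 1) {B : ℝ}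
    {S : Set ℂ} (hS : Convex ℝ S) (hS1 : ∀ z ∈ S, 1 ≤ z.re) (hB : ∀ z ∈ S, Lam q z.im ≤ B)
    {x y : ℂ} (hx : x ∈ S) (hy : y ∈ S) : ‖LX χ y - LX χ x‖ ≤ 288 * B ^ 2 * ‖y - x‖ := by
  refine hS.norm_image_sub_le_of_norm_deriv_le (𝕜 := ℂ) (f := LX χ) (fun z hz => ?_) (fun z hz => ?_) hx hy
  · exact LX_differentiableAt χ (by have := hS1 z hz; linarith) (Or.inl hχ)
  · have h1 := norm_iteratedDeriv_LX_le hχ (hS1 z hz) 1
    rw [iteratedDeriv_one] at h1
    have h2 : 1 ≤ Lam q z.im := one_le_Lam q _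
    calc ‖deriv (LX χ) z‖ ≤ _ := h1
      _ = 288 * Lam q z.im ^ 2 := by simp; ring
      _ ≤ 288 * B ^ 2 := by
          gcongr
          exact hB z hz

lemma ZX_sub_le {B : ℝ}
    {S : Set ℂ} (hS : Convex ℝ S) (hS1 : ∀ z ∈ S, 1 ≤ z.re) (hS2 : ∀ z ∈ S, 1 ≤ |z.im|)
    (hB : ∀ z ∈ S, ell 1 z.im ≤ B)
    {x y : ℂ} (hx : x ∈ S) (hy : y ∈ S) : ‖ZX y - ZX x‖ ≤ 288 * B ^ 2 * ‖y - x‖ := by
  refine hS.norm_image_sub_le_of_norm_deriv_le (𝕜 := ℂ) (f := ZX) (fun z hz => ?_) (fun z hz => ?_) hx hy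
  · refine ZX_differentiableAt (by have := hS1 z hz; linarith) ?_
    rintro rfl
    have := hS2 _ hz
    norm_num at this
  · have h1 := norm_iteratedDeriv_ZX_le (hS1 z hz) (hS2 z hz) 1
    rw [iteratedDeriv_one] at h1
    have h2 : 1 ≤ ell 1 z.im := one_le_ell le_rfl _
    calc ‖deriv ZX z‖ ≤ _ := h1
      _ = 288 * ell 1 z.im ^ 2 := by simp; ring
      _ ≤ 288 * B ^ 2 := by
          gcongr
          exact hB z hz

/-- the horizontal ray -/
def ray (t : ℝ) : Set ℂ := {z | 1 ≤ z.re ∧ z.im = t}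

lemma convex_ray (t : ℝ) : Convex ℝ (ray t) := by
  intro x hx y hy a b ha hb hab
  simp only [ray, mem_ofPred_eq, add_re, add_im, real_smul, mul_re, mul_im, ofReal_re, ofReal_im,
    zero_mul, sub_zero, add_zero] at *
  constructor
  · nlinarith [hx.1, hy.1]
  · rw [hx.2, hy.2, ← add_mul, hab, one_mul]

lemma mem_ray {x t : ℝ} (hx : 0 < x) : ((1:ℂ) + x + I * t) ∈ ray t := by
  simp [ray, hx.le]

lemma Lam_two_mul {q : ℕ} [NeZero q] (t : ℝ) : Lam q (2 * t) ≤ 2 * Lam q t := by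
  unfold Lam ell
  have h1 : (1:ℝ) ≤ 3 * q := one_le_three_mul
  have h3 : 3 ≤ 3 * (q:ℝ) * (|t| + 3) := by
    calc (3:ℝ) = 1 * (0 + 3) := by ring
      _ ≤ 3 * (q:ℝ) * (|t| + 3) := by
        gcongr
        exact abs_nonneg _
  have h4 : 3 * (q:ℝ) * (|2 * t| + 3) ≤ (3 * (q:ℝ) * (|t| + 3)) ^ 2 := by
    rw [abs_mul, abs_two]
    calc 3 * (q:ℝ) * (2 * |t| + 3) ≤ 3 * (q:ℝ) * ((|t| + 3) * 3) := by
          gcongr
          linarith [abs_nonneg t]
      _ = (3 * (q:ℝ) * (|t| + 3)) * 3 := by ring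
      _ ≤ (3 * (q:ℝ) * (|t| + 3)) * (3 * (q:ℝ) * (|t| + 3)) := by gcongr
      _ = _ := by ring
  calc Real.log (3 * (q:ℝ) * (|2 * t| + 3)) ≤ Real.log ((3 * (q:ℝ) * (|t| + 3)) ^ 2) :=
        Real.log_le_log (by positivity) h4
    _ = _ := by rw [Real.log_pow]; push_cast; ring

/-- 3-4-1 for `LX` given an upper bound for `L(χ²)` on the line `2t`. -/
lemma LX_lower_of_bound {q : ℕ} [NeZero q] {χ : DirichletCharacter ℂ q} (hχ : χ ≠ 1) {t W : ℝ}
    (hW : 1 ≤ W)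
    (hbd : ∀ x : ℝ, 0 < x → x ≤ 1 → ‖LX (χ ^ 2) (1 + x + 2 * I * t)‖ ≤ W)
    {x : ℝ} (hx : 0 < x) (hx1 : x ≤ 1) :
    1 / (2 * 1728 ^ 3 * Lam q t ^ 6 * W ^ 4) ≤ ‖LX χ (1 + x + I * t)‖ := by
  refine three_four_one (h := fun x : ℝ => ‖LX χ (1 + x + I * t)‖) (one_le_Lam q t) hW
    (fun x => norm_nonneg _) ?_ ?_ hx hx1
  · intro y hy hy1
    have h1 := DirichletCharacter.norm_LSeries_product_ge_one χ hy t
    have hre1 : 1 < ((1:ℂ) + y).re := by simp [hy]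
    have hre1' : ((1:ℂ) + y).re ≤ 2 := by simp; linarith
    have hre2 : 1 < ((1:ℂ) + y + I * t).re := by simp [hy]
    have hre3 : 1 < ((1:ℂ) + y + 2 * I * t).re := by simp [hy]
    rw [norm_mul, norm_mul, norm_pow, norm_pow, ← LX_eq_LSeries χ hre2,
      ← LX_eq_LSeries (χ ^ 2) hre3] at h1
    have h2 : ‖LSeries (fun n : ℕ => (1 : DirichletCharacter ℂ q) n) ((1:ℂ) + y)‖ ≤ 3 / y := by
      have := norm_LSeries_le' (f := fun n : ℕ => (1 : DirichletCharacter ℂ q) n)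
        (fun n => DirichletCharacter.norm_le_one _ _) hre1 hre1'
      simpa using this
    have h3 := hbd y hy hy1
    have h4 : 1 ≤ (3 / y) ^ 3 * ‖LX χ (1 + y + I * t)‖ ^ 4 * W := by
      calc (1:ℝ) ≤ _ := h1
        _ ≤ _ := by gcongr
    have h5 : (3 / y) ^ 3 * ‖LX χ (1 + y + I * t)‖ ^ 4 * W =
        (27 * ‖LX χ (1 + y + I * t)‖ ^ 4 * W) / y ^ 3 := by rw [div_pow]; ring
    rw [h5, le_div_iff₀ (by positivity), one_mul] at h4
    exact h4
  · intro y y' hy hyy' hy1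
    have hy' : 0 < y' := lt_of_lt_of_le hy hyy'
    have h1 := LX_sub_le hχ (B := Lam q t) (convex_ray t) (fun z hz => hz.1)
      (fun z hz => by rw [hz.2]) (mem_ray hy) (mem_ray hy') (x := 1 + y + I * t) (y := 1 + y' + I * t)
    have h2 : ‖((1:ℂ) + y' + I * t) - (1 + y + I * t)‖ = y' - y := by
      have : ((1:ℂ) + y' + I * t) - (1 + y + I * t) = ((y' - y : ℝ) : ℂ) := by push_cast; ring
      rw [this, Complex.norm_real, Real.norm_of_nonneg (by linarith)]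
    rw [h2] at h1
    have h3 := norm_sub_norm_le (LX χ (1 + y' + I * t)) (LX χ (1 + y + I * t))
    linarith

/-- Lower bound in the region of absolute convergence. -/
lemma LX_lower_far {q : ℕ} [NeZero q] (χ : DirichletCharacter ℂ q) {s : ℂ}
    (hs : 1 < s.re) (hs2 : s.re ≤ 2) : (s.re - 1) / 3 ≤ ‖LX χ s‖ := by
  have h1 := DirichletCharacter.LSeries.mul_mu_eq_one χ hs
  have h2 : ‖LSeries ((fun n : ℕ => χ n) * (fun n : ℕ => ((ArithmeticFunction.moebius n : ℤ) : ℂ))) s‖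
      ≤ 3 / (s.re - 1) := by
    refine norm_LSeries_le' (fun n => ?_) hs hs2
    rw [Pi.mul_apply, norm_mul]
    have h3 := χ.norm_le_one (n : ZMod q)
    have h4 : ‖((ArithmeticFunction.moebius n : ℤ) : ℂ)‖ ≤ 1 := by
      rw [Complex.norm_intCast]
      exact_mod_cast ArithmeticFunction.abs_moebius_le_one
    calc _ ≤ (1:ℝ) * 1 := by gcongr
      _ = 1 := one_mul 1
  have h0 : 0 < s.re - 1 := by linarith
  have h3 := congrArg norm h1
  rw [norm_mul, norm_one] at h3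
  rw [LX_eq_LSeries χ hs]
  have h5 : 1 ≤ ‖LSeries (fun n : ℕ => χ n) s‖ * (3 / (s.re - 1)) := by
    refine (le_of_eq h3.symm).trans ?_
    gcongr
  rw [mul_div_assoc', le_div_iff₀ h0] at h5
  linarith

private lemma convex_reg : Convex ℝ {z : ℂ | 1 ≤ z.re ∧ |z.im| ≤ 1} := by
  intro a ha b hb α β hα hβ hαβ
  simp only [mem_ofPred_eq, add_re, add_im, real_smul, mul_re, mul_im, ofReal_re,
    ofReal_im, zero_mul, sub_zero, add_zero] at *
  have h3 := abs_le.1 ha.2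
  have h4 := abs_le.1 hb.2
  have h1 := mul_le_mul_of_nonneg_left ha.1 hα
  have h2 := mul_le_mul_of_nonneg_left hb.1 hβ
  have h5 := mul_le_mul_of_nonneg_left h3.1 hα
  have h6 := mul_le_mul_of_nonneg_left h4.1 hβ
  have h7 := mul_le_mul_of_nonneg_left h3.2 hα
  have h8 := mul_le_mul_of_nonneg_left h4.2 hβ
  exact ⟨by linarith, abs_le.2 ⟨by linarith, by linarith⟩⟩

/-- **Lower bound for nonprincipal L-functions to the right of 1.** -/
theorem LX_lower {ε : ℝ} (hε : 0 < ε) : ∃ C : ℝ, 1 ≤ C ∧ ∀ (q : ℕ) [NeZero q]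
    (χ : DirichletCharacter ℂ q), χ ≠ 1 → ∀ s : ℂ, 1 < s.re → s.re ≤ 2 →
    1 ≤ C * (q:ℝ) ^ ε * Lam q s.im ^ 14 * ‖LX χ s‖ := by
  obtain ⟨c0, hc0, hsieg⟩ := siegel (ε := ε/4) (by positivity)
  set c1 := min c0 1 with hc1
  have hc1pos : 0 < c1 := lt_min hc0 one_pos
  have hc1le : c1 ≤ 1 := min_le_right _ _
  have hc1c0 : c1 ≤ c0 := min_le_left _ _
  set CA : ℝ := 2 * 1728 ^ 3 * 42 ^ 4 with hCA
  set CB : ℝ := 2 * 1728 ^ 3 * (7000 / c1) ^ 4 with hCB
  have h7000 : 7000 ≤ 7000 / c1 := by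
    rw [le_div_iff₀ hc1pos]; nlinarith
  have hCAB : CA ≤ CB := by
    rw [hCA, hCB]
    gcongr
    linarith
  have hCB1 : 1 ≤ CB := by
    have : (1:ℝ) ≤ CA := by rw [hCA]; norm_num
    linarith
  have hCB2 : 14000 / c1 ≤ CB := by
    rw [hCB]
    have h1 : 1 ≤ 7000 / c1 := by linarith
    have h2 : 7000 / c1 ≤ (7000 / c1) ^ 4 := by
      calc 7000 / c1 = (7000 / c1) ^ 1 := (pow_one _).symm
        _ ≤ _ := pow_le_pow_right₀ h1 (by norm_num)
    have h3 : (14000:ℝ) / c1 = 2 * (7000 / c1) := by ring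
    rw [h3]
    nlinarith
  refine ⟨CB, hCB1, fun q _ χ hχ s hs hs2 => ?_⟩
  have hq : (1:ℝ) ≤ q := by exact_mod_cast Nat.pos_of_ne_zero (NeZero.ne q)
  set t := s.im with ht
  set x := s.re - 1 with hx
  have hx0 : 0 < x := by linarith
  have hx1 : x ≤ 1 := by linarith
  have hs_eq : s = 1 + x + I * t := by
    apply Complex.ext <;> simp [hx, ht]
  set L := Lam q t with hL
  have hL1 : 1 ≤ L := one_le_Lam q t
  have hqε : 1 ≤ (q:ℝ) ^ ε := Real.one_le_rpow hq hε.le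
  by_cases h2 : χ ^ 2 = 1
  · -- quadratic case
    have hs1 := hsieg q χ h2 hχ
    set L1 := Lam q 1 with hL1def
    have hL11 : 1 ≤ L1 := one_le_Lam q 1
    have hL1L : L1 ≤ 2 * L := ell_le_two_mul one_le_three_mul (by simp)
    set u : ℝ := c1 * (q:ℝ) ^ (-(ε/4)) with hu
    have hu0 : 0 < u := by positivity
    have huL : u ≤ (LX χ 1).re := by
      refine le_trans ?_ hs1
      rw [hu]; gcongr
    have hu1 : u ≤ 1 := by
      have : (q:ℝ) ^ (-(ε/4)) ≤ 1 := Real.rpow_le_one_of_one_le_of_nonpos hq (by linarith)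
      rw [hu]; nlinarith
    set t0 : ℝ := u / (1152 * L1 ^ 2) with ht0
    have ht0pos : 0 < t0 := by positivity
    have ht0le : t0 ≤ 1 := by
      rw [ht0, div_le_one (by positivity)]
      have h1 : 1 ≤ L1 ^ 2 := one_le_pow₀ hL11
      linarith
    have hinv : 1 / t0 ≤ 4608 * L ^ 2 * (q:ℝ) ^ (ε/4) / c1 := by
      have e1 : 1 / t0 = 1152 * L1 ^ 2 * (q:ℝ) ^ (ε/4) / c1 := by
        rw [ht0, hu, Real.rpow_neg (by linarith)]
        field_simp
      rw [e1]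
      have e2 : 1152 * L1 ^ 2 ≤ 4608 * L ^ 2 := by
        have h1 : L1 ^ 2 ≤ (2 * L) ^ 2 := pow_le_pow_left₀ (by linarith) hL1L 2
        linarith only [h1]
      have e3 : 0 < (q:ℝ) ^ (ε/4) := by positivity
      exact div_le_div_of_nonneg_right (mul_le_mul_of_nonneg_right e2 e3.le) hc1pos.le
    have hq4 : 1 ≤ (q:ℝ) ^ (ε/4) := Real.one_le_rpow hq (by positivity)
    have hqq : (q:ℝ) ^ (ε/4) ≤ (q:ℝ) ^ ε := Real.rpow_le_rpow_of_exponent_le hq (by linarith)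
    by_cases htt : t0 ≤ |t|
    · -- use 3-4-1
      set W : ℝ := 7000 * L ^ 2 * (q:ℝ) ^ (ε/4) / c1 with hW
      have hW1 : 1 ≤ W := by
        rw [hW, le_div_iff₀ hc1pos]
        have : 1 ≤ L ^ 2 * (q:ℝ) ^ (ε/4) :=
          one_le_mul_of_one_le_of_one_le (one_le_pow₀ hL1) hq4
        linarith
      have hbd : ∀ y : ℝ, 0 < y → y ≤ 1 → ‖LX (χ ^ 2) (1 + y + 2 * I * t)‖ ≤ W := by
        intro y hy hy1
        have hne : (1:ℂ) + y + 2 * I * t ≠ 1 := by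
          intro h
          have := congrArg Complex.re h
          simp at this
          exact hy.ne' this
        have h3 := norm_LX_le (χ ^ 2) (s := 1 + y + 2 * I * t) (by simp [hy.le]) hne
        have him : ((1:ℂ) + y + 2 * I * t).im = 2 * t := by simp
        rw [him] at h3
        have h4 : 2 * t0 ≤ ‖(1:ℂ) + y + 2 * I * t - 1‖ := by
          have := Complex.abs_im_le_norm ((1:ℂ) + y + 2 * I * t - 1)
          rw [sub_im, him, one_im, sub_zero, abs_mul, abs_two] at this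
          linarith
        have h5 : ‖kap (χ ^ 2)‖ / ‖(1:ℂ) + y + 2 * I * t - 1‖ ≤ 1 / (2 * t0) := by
          apply div_le_div₀ zero_le_one (norm_kap_le _) (by positivity) h4
        have h6 : 1 / (2 * t0) = (1/t0) / 2 := by field_simp
        have h7 := Lam_two_mul (q := q) t
        have h8 : 42 * L ≤ 42 * L ^ 2 * (q:ℝ) ^ (ε/4) / c1 := by
          rw [le_div_iff₀ hc1pos]
          have : L ≤ L ^ 2 := le_self_pow₀ hL1 two_ne_zero
          have h9 : L ^ 2 ≤ L ^ 2 * (q:ℝ) ^ (ε/4) := le_mul_of_one_le_right (sq_nonneg L) hq4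
          have h10 : L * c1 ≤ L := mul_le_of_le_one_right (by linarith) hc1le
          linarith
        have h10 : W = 42 * L ^ 2 * (q:ℝ) ^ (ε/4) / c1 + 6958 * (L ^ 2 * (q:ℝ) ^ (ε/4) / c1) := by
          rw [hW]; ring
        have h11 : 0 ≤ L ^ 2 * (q:ℝ) ^ (ε/4) / c1 := by positivity
        have h12 : 4608 * L ^ 2 * (q:ℝ) ^ (ε/4) / c1 = 4608 * (L ^ 2 * (q:ℝ) ^ (ε/4) / c1) := by ring
        rw [h12] at hinv
        rw [h6] at h5
        linarith
      have h3 := LX_lower_of_bound hχ hW1 hbd hx0 hx1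
      rw [← hs_eq] at h3
      rw [div_le_iff₀ (by positivity)] at h3
      have h4 : 2 * 1728 ^ 3 * L ^ 6 * W ^ 4 = CB * (q:ℝ) ^ ε * L ^ 14 := by
        have e1 : ((q:ℝ) ^ (ε/4)) ^ 4 = (q:ℝ) ^ ε := by
          rw [← Real.rpow_natCast, ← Real.rpow_mul (by linarith)]
          congr 1; push_cast; ring
        rw [hW, hCB, ← e1]; ring
      rw [← h4]
      linarith
    · push Not at htt
      by_cases hxt : x < t0
      · -- near s = 1
        set S : Set ℂ := {z | 1 ≤ z.re ∧ |z.im| ≤ 1} with hS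
        have hconv : Convex ℝ S := convex_reg
        have h3 := LX_sub_le hχ (B := L1) hconv (fun z hz => hz.1)
          (fun z hz => ell_mono one_le_three_mul (by rw [abs_one]; exact hz.2))
          (x := 1) (y := s) (by simp [hS]) (by
            simp only [hS, mem_ofPred_eq]
            exact ⟨hs.le, by linarith⟩)
        have h4 : ‖s - 1‖ ≤ 2 * t0 := by
          have := Complex.norm_le_abs_re_add_abs_im (s - 1)
          simp only [sub_re, one_re, sub_im, one_im, sub_zero] at this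
          rw [← hx, abs_of_pos hx0, ← ht] at this
          linarith
        have h5 : 288 * L1 ^ 2 * ‖s - 1‖ ≤ u / 2 := by
          calc 288 * L1 ^ 2 * ‖s - 1‖ ≤ 288 * L1 ^ 2 * (2 * t0) := by gcongr
            _ = u / 2 := by rw [ht0]; field_simp; norm_num
        have h6 := norm_sub_norm_le (LX χ 1) (LX χ s)
        rw [norm_sub_rev, norm_LX_one h2 hχ] at h6
        have h7 : u / 2 ≤ ‖LX χ s‖ := by linarith
        have h8 : 1 ≤ CB * (q:ℝ) ^ ε * (u / 2) := by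
          have e1 : (q:ℝ) ^ ε * u = c1 * (q:ℝ) ^ (ε - ε/4) := by
            rw [hu, sub_eq_add_neg, Real.rpow_add (by linarith)]; ring
          have e2 : 1 ≤ (q:ℝ) ^ (ε - ε/4) := Real.one_le_rpow hq (by linarith)
          have e3 : 14000 ≤ CB * c1 := by
            rw [div_le_iff₀ hc1pos] at hCB2; linarith
          calc (1:ℝ) ≤ 7000 * 1 := by norm_num
            _ ≤ (CB * c1 / 2) * (q:ℝ) ^ (ε - ε/4) := by
                apply mul_le_mul (by linarith) e2 zero_le_one (by positivity)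
            _ = CB * ((q:ℝ) ^ ε * u) / 2 := by rw [e1]; ring
            _ = CB * (q:ℝ) ^ ε * (u / 2) := by ring
        calc (1:ℝ) ≤ CB * (q:ℝ) ^ ε * (u / 2) := h8
          _ ≤ CB * (q:ℝ) ^ ε * ‖LX χ s‖ := by gcongr
          _ = CB * (q:ℝ) ^ ε * 1 * ‖LX χ s‖ := by ring
          _ ≤ CB * (q:ℝ) ^ ε * L ^ 14 * ‖LX χ s‖ := by
              gcongr
              exact one_le_pow₀ hL1
      · push Not at hxt
        have h3 := LX_lower_far χ hs hs2
        have h4 : t0 / 3 ≤ ‖LX χ s‖ := by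
          rw [← hx] at h3; linarith
        have h5 : 1 ≤ 4608 * L ^ 2 * (q:ℝ) ^ (ε/4) / c1 * t0 := by
          have := mul_le_mul_of_nonneg_right hinv ht0pos.le
          rwa [one_div, inv_mul_cancel₀ ht0pos.ne'] at this
        have h6 : 4608 * L ^ 2 * (q:ℝ) ^ (ε/4) / c1 * 3 ≤ CB * (q:ℝ) ^ ε * L ^ 14 := by
          have e1 : (4608:ℝ) * 3 / c1 ≤ CB := by
            refine le_trans ?_ hCB2
            gcongr
            norm_num
          calc 4608 * L ^ 2 * (q:ℝ) ^ (ε/4) / c1 * 3 = (4608 * 3 / c1) * (q:ℝ) ^ (ε/4) * L ^ 2 := by ring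
            _ ≤ CB * (q:ℝ) ^ ε * L ^ 14 := by
              gcongr
              norm_num
        calc (1:ℝ) ≤ 4608 * L ^ 2 * (q:ℝ) ^ (ε/4) / c1 * t0 := h5
          _ = (4608 * L ^ 2 * (q:ℝ) ^ (ε/4) / c1 * 3) * (t0 / 3) := by ring
          _ ≤ (CB * (q:ℝ) ^ ε * L ^ 14) * ‖LX χ s‖ := by gcongr
  · -- non-quadratic case
    have hbd : ∀ y : ℝ, 0 < y → y ≤ 1 → ‖LX (χ ^ 2) (1 + y + 2 * I * t)‖ ≤ 42 * L := by
      intro y hy hy1
      have hne : (1:ℂ) + y + 2 * I * t ≠ 1 := by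
        intro h
        have := congrArg Complex.re h
        simp at this
        exact hy.ne' this
      have h3 := norm_LX_le (χ ^ 2) (s := 1 + y + 2 * I * t) (by simp [hy.le]) hne
      have him : ((1:ℂ) + y + 2 * I * t).im = 2 * t := by simp
      rw [him, kap_eq_zero h2] at h3
      simp only [norm_zero, zero_div, mul_zero, add_zero] at h3
      have h7 := Lam_two_mul (q := q) t
      linarith
    have h3 := LX_lower_of_bound hχ (by linarith : 1 ≤ 42 * L) hbd hx0 hx1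
    rw [← hs_eq, div_le_iff₀ (by positivity)] at h3
    calc (1:ℝ) ≤ _ := h3
      _ = CA * 1 * L ^ 10 * ‖LX χ s‖ := by rw [hCA]; ring
      _ ≤ CB * (q:ℝ) ^ ε * L ^ 14 * ‖LX χ s‖ := by
          gcongr
          norm_num

end Pool.Agent.ANT
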