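import Pool.Agent.Lib.ANT.LSieve
import Pool.Agent.Lib.ANT.CharSum

open Complex

namespace Pool.Agent.ANT

/-! ### Gauss sums of primitive characters and the multiplicative large sieve -/

/-- The Gauss sum. -/
noncomputable def tauG {q : ℕ} [NeZero q] (χ : DirichletCharacter ℂ q) : ℂ :=
  gaussSum χ (ZMod.stdAddChar (N := q))

lemma stdAddChar_nat {q : ℕ} [NeZero q] (n b : ℕ) :
    (ZMod.stdAddChar (N := q)) ((n : ZMod q) * (b : ZMod q)) = ee (n * ((b:ℝ) / q)) := by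
  have h1 : ((n : ZMod q) * (b : ZMod q)) = (((n * b : ℕ) : ℤ) : ZMod q) := by push_cast; ring
  rw [h1, ZMod.stdAddChar_coe]
  unfold ee
  congr 1
  push_cast
  ring

lemma gauss_expand {q : ℕ} [NeZero q] {χ : DirichletCharacter ℂ q} (hχ : χ.IsPrimitive)
    (n : ZMod q) :
    χ⁻¹ n * tauG χ = ∑ b : ZMod q, χ b * (ZMod.stdAddChar (N := q)) (n * b) := by
  have h := gaussSum_mulShift_of_isPrimitive (ZMod.stdAddChar (N := q)) hχ n
  unfold tauG
  rw [← h]
  unfold gaussSum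
  rfl

lemma norm_inv_char {q : ℕ} [NeZero q] (χ : DirichletCharacter ℂ q) (n : ZMod q) :
    ‖χ⁻¹ n‖ = ‖χ n‖ := by
  have : (starRingEnd ℂ) (χ n) = χ⁻¹ n := by
    rw [starRingEnd_apply, MulChar.star_apply']
  rw [← this, RCLike.norm_conj]

lemma conj_char {q : ℕ} [NeZero q] (χ : DirichletCharacter ℂ q) (n : ZMod q) :
    (starRingEnd ℂ) (χ n) = χ⁻¹ n := by
  rw [starRingEnd_apply, MulChar.star_apply']

lemma sum_std_mul_conj {q : ℕ} [NeZero q] (b c : ZMod q) :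
    ∑ n : ZMod q, (ZMod.stdAddChar (N := q)) (n * b) *
      (starRingEnd ℂ) ((ZMod.stdAddChar (N := q)) (n * c)) = if b = c then (q:ℂ) else 0 := by
  have h1 : ∀ n : ZMod q, (ZMod.stdAddChar (N := q)) (n * b) *
      (starRingEnd ℂ) ((ZMod.stdAddChar (N := q)) (n * c)) =
      (ZMod.stdAddChar (N := q)) (n * (b - c)) := by
    intro n
    rw [← AddChar.map_neg_eq_conj, ← AddChar.map_add_eq_mul]
    congr 1; ring
  simp_rw [h1]
  rw [AddChar.sum_mulShift _ (ZMod.isPrimitive_stdAddChar q), ZMod.card]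
  simp [sub_eq_zero]

lemma sum_norm_sq_expand {q : ℕ} [NeZero q] (f : ZMod q → ℂ) :
    ∑ n : ZMod q, ‖∑ b : ZMod q, f b * (ZMod.stdAddChar (N := q)) (n * b)‖ ^ 2 =
      q * ∑ b : ZMod q, ‖f b‖ ^ 2 := by
  have h : ((∑ n : ZMod q, ‖∑ b : ZMod q, f b * (ZMod.stdAddChar (N := q)) (n * b)‖ ^ 2 : ℝ) : ℂ) =
      ((q * ∑ b : ZMod q, ‖f b‖ ^ 2 : ℝ) : ℂ) := by
    push_cast
    simp_rw [← Complex.mul_conj']
    have e1 : ∀ n : ZMod q, (∑ b : ZMod q, f b * (ZMod.stdAddChar (N := q)) (n * b)) *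
        (starRingEnd ℂ) (∑ b : ZMod q, f b * (ZMod.stdAddChar (N := q)) (n * b)) =
        ∑ b : ZMod q, ∑ c : ZMod q, (f b * (starRingEnd ℂ) (f c)) *
          ((ZMod.stdAddChar (N := q)) (n * b) *
            (starRingEnd ℂ) ((ZMod.stdAddChar (N := q)) (n * c))) := by
      intro n
      rw [map_sum, Finset.sum_mul_sum]
      refine Finset.sum_congr rfl fun b _ => Finset.sum_congr rfl fun c _ => ?_
      rw [RingHom.map_mul]; ring
    simp_rw [e1]
    rw [Finset.sum_comm, Finset.mul_sum]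
    refine Finset.sum_congr rfl fun b _ => ?_
    rw [Finset.sum_comm]
    simp_rw [← Finset.mul_sum, sum_std_mul_conj]
    rw [Finset.sum_eq_single b]
    · rw [if_pos rfl]; ring
    · intro c _ hcb; rw [if_neg (Ne.symm hcb), mul_zero]
    · intro h; exact absurd (Finset.mem_univ _) h
  exact_mod_cast h

lemma norm_tauG_sq {q : ℕ} [NeZero q] {χ : DirichletCharacter ℂ q} (hχ : χ.IsPrimitive) :
    ‖tauG χ‖ ^ 2 = q := by
  have h1 := sum_norm_sq_expand (fun b : ZMod q => χ b)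
  have h2 : ∑ n : ZMod q, ‖∑ b : ZMod q, χ b * (ZMod.stdAddChar (N := q)) (n * b)‖ ^ 2 =
      ‖tauG χ‖ ^ 2 * ∑ b : ZMod q, ‖χ b‖ ^ 2 := by
    rw [Finset.mul_sum]
    refine Finset.sum_congr rfl fun n _ => ?_
    rw [← gauss_expand hχ, norm_mul, norm_inv_char]; ring
  rw [h2] at h1
  have h3 : 0 < ∑ b : ZMod q, ‖χ b‖ ^ 2 := by
    refine Finset.sum_pos' (fun _ _ => by positivity) ⟨1, Finset.mem_univ _, ?_⟩
    rw [map_one]; norm_num
  exact mul_right_cancel₀ h3.ne' h1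

lemma isPrimitive_inv {q : ℕ} [NeZero q] {χ : DirichletCharacter ℂ q} (hχ : χ.IsPrimitive) :
    χ⁻¹.IsPrimitive := by
  rw [DirichletCharacter.isPrimitive_def] at hχ ⊢
  have key : ∀ (ψ : DirichletCharacter ℂ q) (d : ℕ), ψ.FactorsThrough d → ψ⁻¹.FactorsThrough d := by
    intro ψ d h
    obtain ⟨hd, ψ0, rfl⟩ := h
    exact ⟨hd, ψ0⁻¹, by rw [map_inv]⟩
  have h1 : χ.conductor ≤ χ⁻¹.conductor :=
    Nat.sInf_le (by
      have := key _ _ (DirichletCharacter.factorsThrough_conductor χ⁻¹)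
      rwa [inv_inv] at this)
  have h2 : χ⁻¹.conductor ≤ q :=
    Nat.le_of_dvd (Nat.pos_of_ne_zero (NeZero.ne q)) (DirichletCharacter.conductor_dvd_level _)
  omega

lemma sum_char_conj {q : ℕ} [NeZero q] (b c : ZMod q) :
    ∑ χ : DirichletCharacter ℂ q, χ b * (starRingEnd ℂ) (χ c) =
      if b = c ∧ IsUnit c then (q.totient : ℂ) else 0 := by
  by_cases hc : IsUnit c
  · have h := DirichletCharacter.sum_char_inv_mul_char_eq ℂ hc b
    have h1 : ∀ χ : DirichletCharacter ℂ q, χ b * (starRingEnd ℂ) (χ c) = χ c⁻¹ * χ b := by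
      intro χ
      rw [conj_char, mul_comm]
      congr 1
      rw [MulChar.inv_apply]
      congr 1
      obtain ⟨u, rfl⟩ := hc
      rw [Ring.inverse_unit]
      exact (ZMod.inv_coe_unit u).symm
    simp_rw [h1, h]
    by_cases hbc : b = c
    · simp [hbc, hc]
    · simp [hbc, Ne.symm hbc]
  · simp [hc, MulChar.map_nonunit _ hc]

lemma sum_char_norm_sq {q : ℕ} [NeZero q] (f : ZMod q → ℂ) :
    ∑ χ : DirichletCharacter ℂ q, ‖∑ b : ZMod q, χ b * f b‖ ^ 2 =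
      q.totient * ∑ b : ZMod q, if IsUnit b then ‖f b‖ ^ 2 else 0 := by
  classical
  have h : ((∑ χ : DirichletCharacter ℂ q, ‖∑ b : ZMod q, χ b * f b‖ ^ 2 : ℝ) : ℂ) =
      ((q.totient * ∑ b : ZMod q, (if IsUnit b then ‖f b‖ ^ 2 else 0) : ℝ) : ℂ) := by
    push_cast
    simp_rw [← Complex.mul_conj']
    have e1 : ∀ χ : DirichletCharacter ℂ q, (∑ b : ZMod q, χ b * f b) *
        (starRingEnd ℂ) (∑ b : ZMod q, χ b * f b) =
        ∑ b : ZMod q, ∑ c : ZMod q, (f b * (starRingEnd ℂ) (f c)) *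
          (χ b * (starRingEnd ℂ) (χ c)) := by
      intro χ
      rw [map_sum, Finset.sum_mul_sum]
      refine Finset.sum_congr rfl fun b _ => Finset.sum_congr rfl fun c _ => ?_
      rw [map_mul]; ring
    simp_rw [e1]
    rw [Finset.sum_comm, Finset.mul_sum]
    refine Finset.sum_congr rfl fun b _ => ?_
    rw [Finset.sum_comm]
    simp_rw [← Finset.mul_sum, sum_char_conj]
    rw [Finset.sum_eq_single b]
    · by_cases hb : IsUnit b
      · rw [if_pos ⟨rfl, hb⟩, if_pos hb, Complex.mul_conj']; push_cast; ring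
      · rw [if_neg (fun h => hb h.2), if_neg hb]; simp
    · intro c _ hcb
      rw [if_neg (fun h => hcb h.1.symm), mul_zero]
    · intro h; exact absurd (Finset.mem_univ _) h
  exact_mod_cast h

lemma sum_unit_eq {q : ℕ} [NeZero q] (F : ZMod q → ℝ) :
    (∑ b : ZMod q, if IsUnit b then F b else 0) =
      ∑ b ∈ (Finset.range q).filter (fun b => Nat.Coprime b q), F (b : ZMod q) := by
  classical
  rw [← Finset.sum_filter]
  refine Finset.sum_bij' (fun a _ => a.val) (fun k _ => (k : ZMod q)) ?_ ?_ ?_ ?_ ?_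
  · intro a ha
    have hu := (Finset.mem_filter.mp ha).2
    refine Finset.mem_filter.mpr ⟨Finset.mem_range.mpr (ZMod.val_lt a), ?_⟩
    rw [← ZMod.isUnit_iff_coprime]
    simpa using hu
  · intro k hk
    have hc := (Finset.mem_filter.mp hk).2
    exact Finset.mem_filter.mpr ⟨Finset.mem_univ _, (ZMod.isUnit_iff_coprime k q).mpr hc⟩
  · intro a _; simp
  · intro k hk
    have := Finset.mem_range.mp (Finset.mem_filter.mp hk).1
    rw [ZMod.val_natCast, Nat.mod_eq_of_lt this]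
  · intro a _; simp

open Classical in
/-- One modulus: primitive character sums are controlled by additive character sums. -/
lemma prim_le_farey {q : ℕ} [NeZero q] (N : ℕ) (a : ℕ → ℂ) :
    (q:ℝ) / q.totient * ∑ χ ∈ (Finset.univ : Finset (DirichletCharacter ℂ q)).filter
        (fun χ => χ.IsPrimitive), ‖∑ n ∈ Finset.Ioc 0 N, a n * χ n‖ ^ 2 ≤
      ∑ b ∈ (Finset.range q).filter (fun b => Nat.Coprime b q),
        ‖∑ n ∈ Finset.Ioc 0 N, a n * ee (n * ((b:ℝ) / q))‖ ^ 2 := by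
  have hφ : (0:ℝ) < q.totient := by exact_mod_cast Nat.totient_pos.mpr (Nat.pos_of_ne_zero (NeZero.ne q))
  set T : ZMod q → ℂ := fun b => ∑ n ∈ Finset.Ioc 0 N, a n * (ZMod.stdAddChar (N := q)) (n * b) with hT
  have h1 : ∀ χ : DirichletCharacter ℂ q, χ.IsPrimitive →
      (q:ℝ) * ‖∑ n ∈ Finset.Ioc 0 N, a n * χ n‖ ^ 2 = ‖∑ b : ZMod q, χ⁻¹ b * T b‖ ^ 2 := by
    intro χ hχ
    have hχ' := isPrimitive_inv hχ
    rw [← norm_tauG_sq hχ', ← mul_pow, ← norm_mul]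
    congr 2
    rw [Finset.mul_sum]
    simp only [hT, Finset.mul_sum]
    rw [Finset.sum_comm]
    refine Finset.sum_congr rfl fun n _ => ?_
    have := gauss_expand hχ' (n : ZMod q)
    rw [inv_inv] at this
    calc tauG χ⁻¹ * (a n * χ n) = a n * (χ n * tauG χ⁻¹) := by ring
      _ = a n * ∑ b : ZMod q, χ⁻¹ b * (ZMod.stdAddChar (N := q)) (n * b) := by rw [this]
      _ = _ := by
          rw [Finset.mul_sum]
          refine Finset.sum_congr rfl fun b _ => ?_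
          ring
  have h2 : (q:ℝ) * ∑ χ ∈ (Finset.univ : Finset (DirichletCharacter ℂ q)).filter
        (fun χ => χ.IsPrimitive), ‖∑ n ∈ Finset.Ioc 0 N, a n * χ n‖ ^ 2 ≤
      q.totient * ∑ b ∈ (Finset.range q).filter (fun b => Nat.Coprime b q),
        ‖∑ n ∈ Finset.Ioc 0 N, a n * ee (n * ((b:ℝ) / q))‖ ^ 2 := by
    calc _ = ∑ χ ∈ (Finset.univ : Finset (DirichletCharacter ℂ q)).filter
          (fun χ => χ.IsPrimitive), ‖∑ b : ZMod q, χ⁻¹ b * T b‖ ^ 2 := by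
          rw [Finset.mul_sum]
          exact Finset.sum_congr rfl fun χ hχ => h1 χ (Finset.mem_filter.mp hχ).2
      _ ≤ ∑ χ : DirichletCharacter ℂ q, ‖∑ b : ZMod q, χ⁻¹ b * T b‖ ^ 2 :=
          Finset.sum_le_sum_of_subset_of_nonneg (Finset.filter_subset _ _) fun _ _ _ => by positivity
      _ = ∑ χ : DirichletCharacter ℂ q, ‖∑ b : ZMod q, χ b * T b‖ ^ 2 :=
          Fintype.sum_equiv (Equiv.inv _) _ _ (fun χ => rfl)
      _ = q.totient * ∑ b : ZMod q, (if IsUnit b then ‖T b‖ ^ 2 else 0) := sum_char_norm_sq T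
      _ = _ := by
          rw [sum_unit_eq (fun b => ‖T b‖ ^ 2)]
          congr 1
          refine Finset.sum_congr rfl fun b _ => ?_
          simp only [hT]
          congr 2
          refine Finset.sum_congr rfl fun n _ => ?_
          rw [stdAddChar_nat]
  rw [div_mul_eq_mul_div, div_le_iff₀ hφ]
  calc _ ≤ _ := h2
    _ = _ := by ring

open Classical in
/-- The set of primitive characters mod `q`. -/
noncomputable def Prim (q : ℕ) : Finset (DirichletCharacter ℂ q) :=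
  Finset.univ.filter (fun χ => χ.IsPrimitive)

lemma mem_Prim {q : ℕ} {χ : DirichletCharacter ℂ q} : χ ∈ Prim q ↔ χ.IsPrimitive := by
  classical
  simp [Prim]

/-- **Multiplicative large sieve.** -/
theorem large_sieve_mult (Q N : ℕ) (a : ℕ → ℂ) :
    ∑ q ∈ Finset.Ioc 0 Q, (q:ℝ) / q.totient * ∑ χ ∈ Prim q, ‖∑ n ∈ Finset.Ioc 0 N, a n * χ n‖ ^ 2 ≤
      12 * (2 * N + (Q:ℝ) ^ 2) * ∑ n ∈ Finset.Ioc 0 N, ‖a n‖ ^ 2 := by
  classical
  refine le_trans (Finset.sum_le_sum fun q hq => ?_) (large_sieve_farey Q N a)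
  have hq0 := (Finset.mem_Ioc.mp hq).1
  haveI : NeZero q := ⟨hq0.ne'⟩
  unfold Prim
  convert prim_le_farey (q := q) N a

/-- Bilinear form of the large sieve. -/
theorem large_sieve_bilinear (Q M N : ℕ) (a b : ℕ → ℂ) :
    ∑ q ∈ Finset.Ioc 0 Q, (q:ℝ) / q.totient * ∑ χ ∈ Prim q,
      ‖∑ m ∈ Finset.Ioc 0 M, a m * χ m‖ * ‖∑ n ∈ Finset.Ioc 0 N, b n * χ n‖ ≤
      √(12 * (2 * M + (Q:ℝ) ^ 2) * ∑ m ∈ Finset.Ioc 0 M, ‖a m‖ ^ 2) *
      √(12 * (2 * N + (Q:ℝ) ^ 2) * ∑ n ∈ Finset.Ioc 0 N, ‖b n‖ ^ 2) := by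
  set A : ∀ q : ℕ, DirichletCharacter ℂ q → ℝ := fun q χ => ‖∑ m ∈ Finset.Ioc 0 M, a m * χ m‖ with hA
  set B : ∀ q : ℕ, DirichletCharacter ℂ q → ℝ := fun q χ => ‖∑ n ∈ Finset.Ioc 0 N, b n * χ n‖ with hB
  set S : Finset (Σ q : ℕ, DirichletCharacter ℂ q) := (Finset.Ioc 0 Q).sigma (fun q => Prim q) with hS
  have h1 : ∑ q ∈ Finset.Ioc 0 Q, (q:ℝ) / q.totient * ∑ χ ∈ Prim q, A q χ * B q χ =
      ∑ x ∈ S, (√((x.1:ℝ) / x.1.totient) * A x.1 x.2) * (√((x.1:ℝ) / x.1.totient) * B x.1 x.2) := by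
    rw [hS, Finset.sum_sigma]
    refine Finset.sum_congr rfl fun q _ => ?_
    rw [Finset.mul_sum]
    refine Finset.sum_congr rfl fun χ _ => ?_
    simp only
    have : √((q:ℝ) / q.totient) * √((q:ℝ) / q.totient) = (q:ℝ) / q.totient :=
      Real.mul_self_sqrt (by positivity)
    calc _ = (√((q:ℝ) / q.totient) * √((q:ℝ) / q.totient)) * (A q χ * B q χ) := by rw [this]
      _ = _ := by ring
  have h2 : ∀ (c : ℕ → ℂ) (X : ℕ), ∑ x ∈ S, (√((x.1:ℝ) / x.1.totient) *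
      ‖∑ m ∈ Finset.Ioc 0 X, c m * x.2 m‖) ^ 2 ≤
      12 * (2 * X + (Q:ℝ) ^ 2) * ∑ n ∈ Finset.Ioc 0 X, ‖c n‖ ^ 2 := by
    intro c X
    refine le_trans (le_of_eq ?_) (large_sieve_mult Q X c)
    rw [hS, Finset.sum_sigma]
    refine Finset.sum_congr rfl fun q _ => ?_
    rw [Finset.mul_sum]
    refine Finset.sum_congr rfl fun χ _ => ?_
    simp only
    rw [mul_pow, Real.sq_sqrt (by positivity)]
  change ∑ q ∈ Finset.Ioc 0 Q, (q:ℝ) / q.totient * ∑ χ ∈ Prim q, A q χ * B q χ ≤ _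
  rw [h1]
  refine (Real.sum_mul_le_sqrt_mul_sqrt S _ _).trans ?_
  have h3 := h2 a M
  have h4 := h2 b N
  exact mul_le_mul (Real.sqrt_le_sqrt h3) (Real.sqrt_le_sqrt h4) (Real.sqrt_nonneg _)
    (Real.sqrt_nonneg _)

end Pool.Agent.ANT
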