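import Pool.Agent.Lib.ANT.Geo

open Complex

namespace Pool.Agent.ANT

/-! ### The large sieve inequality (elementary proof through the Fejer kernel and duality) -/

/-- Dirichlet kernel. -/
noncomputable def DK (K : ℕ) (θ : ℝ) : ℂ := ∑ l ∈ Finset.Ioc 0 K, ee (l * θ)

lemma norm_DK_le {K : ℕ} (hK : 0 < K) (θ : ℝ) : ‖DK K θ‖ ≤ Fy K θ :=
  norm_geom_le (by exact_mod_cast hK) (by simp)

lemma norm_DK_neg (K : ℕ) (θ : ℝ) : ‖DK K (-θ)‖ = ‖DK K θ‖ := by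
  have : DK K (-θ) = (starRingEnd ℂ) (DK K θ) := by
    unfold DK
    rw [map_sum]
    refine Finset.sum_congr rfl fun l _ => ?_
    rw [conj_ee]; congr 1; ring
  rw [this, RCLike.norm_conj]

lemma sum_ee_sub (K : ℕ) (θ : ℝ) :
    ∑ i ∈ Finset.Ioc 0 K, ∑ j ∈ Finset.Ioc 0 K, ee (((i:ℝ) - j) * θ) =
      ((‖DK K θ‖ ^ 2 : ℝ) : ℂ) := by
  push_cast
  rw [← Complex.mul_conj']
  unfold DK
  rw [map_sum, Finset.sum_mul_sum]
  refine Finset.sum_congr rfl fun i _ => Finset.sum_congr rfl fun j _ => ?_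
  rw [conj_ee, ← ee_add]
  congr 1
  ring

lemma fejer_identity {ι : Type*} (S : Finset ι) (α : ι → ℝ) (b : ι → ℂ) (K : ℕ) :
    ((∑ i ∈ Finset.Ioc 0 K, ∑ j ∈ Finset.Ioc 0 K,
      ‖∑ r ∈ S, b r * ee (((i:ℝ) - j) * α r)‖ ^ 2 : ℝ) : ℂ) =
    ∑ r ∈ S, ∑ s ∈ S, b r * (starRingEnd ℂ) (b s) * ((‖DK K (α r - α s)‖ ^ 2 : ℝ) : ℂ) := by
  push_cast
  have e1 : ∀ i j : ℕ, ((‖∑ r ∈ S, b r * ee (((i:ℝ) - j) * α r)‖ : ℂ)) ^ 2 =
      ∑ r ∈ S, ∑ s ∈ S, b r * (starRingEnd ℂ) (b s) * ee (((i:ℝ) - j) * (α r - α s)) := by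
    intro i j
    rw [← Complex.mul_conj', map_sum, Finset.sum_mul_sum]
    refine Finset.sum_congr rfl fun r _ => Finset.sum_congr rfl fun s _ => ?_
    rw [map_mul, conj_ee]
    have : ee (((i:ℝ) - j) * (α r - α s)) = ee (((i:ℝ) - j) * α r) * ee (-(((i:ℝ) - j) * α s)) := by
      rw [← ee_add]; congr 1; ring
    rw [this]; ring
  simp_rw [e1]
  have e2 : ∀ r s : ι, b r * (starRingEnd ℂ) (b s) * ((‖DK K (α r - α s)‖ : ℂ)) ^ 2 =
      ∑ i ∈ Finset.Ioc 0 K, ∑ j ∈ Finset.Ioc 0 K,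
        b r * (starRingEnd ℂ) (b s) * ee (((i:ℝ) - j) * (α r - α s)) := by
    intro r s
    have := sum_ee_sub K (α r - α s)
    push_cast at this
    rw [← this, Finset.mul_sum]
    refine Finset.sum_congr rfl fun i _ => ?_
    rw [Finset.mul_sum]
  simp_rw [e2]
  -- reorder sums
  calc _ = ∑ i ∈ Finset.Ioc 0 K, ∑ r ∈ S, ∑ j ∈ Finset.Ioc 0 K, ∑ s ∈ S,
        b r * (starRingEnd ℂ) (b s) * ee (((i:ℝ) - j) * (α r - α s)) := by
        refine Finset.sum_congr rfl fun i _ => ?_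
        exact Finset.sum_comm
    _ = ∑ r ∈ S, ∑ i ∈ Finset.Ioc 0 K, ∑ j ∈ Finset.Ioc 0 K, ∑ s ∈ S,
        b r * (starRingEnd ℂ) (b s) * ee (((i:ℝ) - j) * (α r - α s)) := Finset.sum_comm
    _ = _ := by
        refine Finset.sum_congr rfl fun r _ => ?_
        calc _ = ∑ i ∈ Finset.Ioc 0 K, ∑ s ∈ S, ∑ j ∈ Finset.Ioc 0 K,
              b r * (starRingEnd ℂ) (b s) * ee (((i:ℝ) - j) * (α r - α s)) := by
              refine Finset.sum_congr rfl fun i _ => ?_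
              exact Finset.sum_comm
          _ = _ := Finset.sum_comm

lemma fejer_count {F : ℝ → ℝ} (hF : ∀ x, 0 ≤ F x) {N K : ℕ} (hNK : N ≤ K) :
    ((K - N : ℕ) : ℝ) * ∑ n ∈ Finset.Ioc 0 N, F n ≤
      ∑ i ∈ Finset.Ioc 0 K, ∑ j ∈ Finset.Ioc 0 K, F ((i:ℝ) - j) := by
  rw [Finset.sum_comm]
  calc ((K - N : ℕ) : ℝ) * ∑ n ∈ Finset.Ioc 0 N, F n =
        ∑ j ∈ Finset.Ioc 0 (K - N), ∑ n ∈ Finset.Ioc 0 N, F n := by simp
    _ ≤ ∑ j ∈ Finset.Ioc 0 (K - N), ∑ i ∈ Finset.Ioc 0 K, F ((i:ℝ) - j) := by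
        refine Finset.sum_le_sum fun j hj => ?_
        have hj2 := (Finset.mem_Ioc.mp hj).2
        have himg : (Finset.Ioc 0 N).image (fun n => n + j) ⊆ Finset.Ioc 0 K := by
          intro m hm
          obtain ⟨n, hn, rfl⟩ := Finset.mem_image.mp hm
          have := Finset.mem_Ioc.mp hn
          exact Finset.mem_Ioc.mpr ⟨by omega, by omega⟩
        calc ∑ n ∈ Finset.Ioc 0 N, F n =
              ∑ m ∈ (Finset.Ioc 0 N).image (fun n => n + j), F ((m:ℝ) - j) := by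
              rw [Finset.sum_image (fun a _ b _ h => by simpa using h)]
              refine Finset.sum_congr rfl fun n _ => ?_
              congr 1; push_cast; ring
          _ ≤ _ := Finset.sum_le_sum_of_subset_of_nonneg himg fun _ _ _ => hF _
    _ ≤ _ := by
        refine Finset.sum_le_sum_of_subset_of_nonneg
          (Finset.Ioc_subset_Ioc_right (Nat.sub_le _ _)) fun _ _ _ => ?_
        exact Finset.sum_nonneg fun _ _ => hF _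

/-- Majorant of the squared kernel in terms of buckets. -/
noncomputable def hb (K L : ℕ) (v : ℕ) : ℝ := if v = 0 then (K:ℝ) ^ 2 else (L:ℝ) ^ 2 * ((v:ℝ) ^ 2)⁻¹

lemma hb_nonneg (K L v : ℕ) : 0 ≤ hb K L v := by
  unfold hb; split_ifs <;> positivity

lemma sum_hb_le (K L : ℕ) : ∑ v ∈ Finset.range L, hb K L v ≤ (K:ℝ) ^ 2 + 2 * (L:ℝ) ^ 2 := by
  rcases Nat.eq_zero_or_pos L with rfl | hL
  · simp
  have h1 : Finset.range L = insert 0 (Finset.Ioo 0 L) := by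
    ext v; simp only [Finset.mem_range, Finset.mem_insert, Finset.mem_Ioo]; omega
  rw [h1, Finset.sum_insert (by simp)]
  have h2 : ∑ v ∈ Finset.Ioo 0 L, hb K L v = (L:ℝ) ^ 2 * ∑ v ∈ Finset.Ioo 0 L, ((v:ℝ) ^ 2)⁻¹ := by
    rw [Finset.mul_sum]
    refine Finset.sum_congr rfl fun v hv => ?_
    have := Finset.mem_Ioo.mp hv
    unfold hb
    rw [if_neg (by omega)]
  have h3 : ∑ v ∈ Finset.Ioo 0 L, ((v:ℝ) ^ 2)⁻¹ ≤ 2 := by
    have := sum_Ioo_inv_sq_le (α := ℝ) 0 L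
    simpa using this
  rw [h2]
  have h4 : hb K L 0 = (K:ℝ) ^ 2 := by simp [hb]
  rw [h4]
  nlinarith [sq_nonneg (L:ℝ)]

/-- bucket of width `1/L` -/
noncomputable def bk (L : ℕ) (θ : ℝ) : ℕ := ⌊(L:ℝ) * Int.fract θ⌋₊

lemma bk_lt {L : ℕ} (hL : 0 < L) (θ : ℝ) : bk L θ < L := by
  unfold bk
  rw [Nat.floor_lt (by positivity)]
  have h1 := Int.fract_lt_one θ
  have h2 : (0:ℝ) < L := by exact_mod_cast hL
  nlinarith

lemma Fy_sq_le_hb {K L : ℕ} (hK : 0 < K) (hL : 0 < L) (θ : ℝ) :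
    Fy K θ ^ 2 ≤ hb K L (bk L θ) + hb K L (L - 1 - bk L θ) := by
  have hKR : (0:ℝ) < K := by exact_mod_cast hK
  have hLR : (0:ℝ) < L := by exact_mod_cast hL
  have hF0 := Fy_pos hKR θ
  have hFK := Fy_le hKR θ
  set v := bk L θ with hv
  have hvL : v < L := bk_lt hL θ
  have hn1 := hb_nonneg K L v
  have hn2 := hb_nonneg K L (L - 1 - v)
  by_cases h0 : v = 0
  · have : hb K L v = (K:ℝ) ^ 2 := by simp [hb, h0]
    have h3 : Fy K θ ^ 2 ≤ (K:ℝ) ^ 2 := by gcongr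
    linarith
  by_cases h1 : L - 1 - v = 0
  · have : hb K L (L - 1 - v) = (K:ℝ) ^ 2 := by simp [hb, h1]
    have h3 : Fy K θ ^ 2 ≤ (K:ℝ) ^ 2 := by gcongr
    linarith
  have hfr0 := Int.fract_nonneg θ
  have hv1 : (v:ℝ) ≤ L * Int.fract θ := by
    rw [hv]; unfold bk; exact Nat.floor_le (by positivity)
  have hv2 : (L:ℝ) * Int.fract θ < v + 1 := by
    rw [hv]; unfold bk; exact Nat.lt_floor_add_one _
  -- general claim
  have key : ∀ m : ℕ, m ≠ 0 → (m:ℝ) ≤ L * nn θ → Fy K θ ^ 2 ≤ (L:ℝ) ^ 2 * ((m:ℝ) ^ 2)⁻¹ := by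
    intro m hm hmn
    have hm0 : (0:ℝ) < m := by exact_mod_cast Nat.pos_of_ne_zero hm
    have h2 : Fy K θ * (m / L) ≤ 1 := by
      have h3 : (m:ℝ) / L ≤ nn θ := by rw [div_le_iff₀ hLR]; linarith
      have h4 : Fy K θ * nn θ ≤ 1 := by
        unfold Fy
        have h5 : 0 < max (K:ℝ)⁻¹ (nn θ) := lt_max_of_lt_left (inv_pos.mpr hKR)
        rw [inv_mul_le_iff₀ h5, mul_one]
        exact le_max_right _ _
      calc Fy K θ * (m / L) ≤ Fy K θ * nn θ := by gcongr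
        _ ≤ 1 := h4
    have h3 : Fy K θ ≤ L / m := by
      rw [le_div_iff₀ hm0]
      have : Fy K θ * (m / L) * L ≤ 1 * L := by gcongr
      calc Fy K θ * m = Fy K θ * (m / L) * L := by field_simp
        _ ≤ 1 * L := this
        _ = L := one_mul _
    calc Fy K θ ^ 2 ≤ ((L:ℝ) / m) ^ 2 := by gcongr
      _ = _ := by rw [div_pow, div_eq_mul_inv]
  rw [nn_eq_min] at key
  rcases le_total (Int.fract θ) (1 - Int.fract θ) with h | h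
  · rw [min_eq_left h] at key
    have h2 := key v h0 hv1
    have h3 : hb K L v = (L:ℝ) ^ 2 * ((v:ℝ) ^ 2)⁻¹ := by simp [hb, h0]
    linarith
  · rw [min_eq_right h] at key
    have h2 := key (L - 1 - v) h1 (by
      have : ((L - 1 - v : ℕ) : ℝ) = L - 1 - v := by
        rw [Nat.cast_sub (by omega), Nat.cast_sub (by omega)]; simp
      rw [this]; nlinarith)
    have h3 : hb K L (L - 1 - v) = (L:ℝ) ^ 2 * (((L - 1 - v : ℕ):ℝ) ^ 2)⁻¹ := by simp [hb, h1]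
    linarith

lemma bk_inj {L : ℕ} (hL : 0 < L) {θ θ' : ℝ} (h : bk L θ = bk L θ') : nn (θ - θ') < 1 / L := by
  have hLR : (0:ℝ) < L := by exact_mod_cast hL
  have h1 : (bk L θ : ℝ) ≤ L * Int.fract θ := by
    unfold bk; exact Nat.floor_le (by have := Int.fract_nonneg θ; positivity)
  have h2 : (L:ℝ) * Int.fract θ < bk L θ + 1 := by unfold bk; exact Nat.lt_floor_add_one _
  have h3 : (bk L θ' : ℝ) ≤ L * Int.fract θ' := by
    unfold bk; exact Nat.floor_le (by have := Int.fract_nonneg θ'; positivity)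
  have h4 : (L:ℝ) * Int.fract θ' < bk L θ' + 1 := by unfold bk; exact Nat.lt_floor_add_one _
  have h5 : nn (θ - θ') ≤ |θ - θ' - ((⌊θ⌋ - ⌊θ'⌋ : ℤ) : ℝ)| := nn_le_abs_sub_int _ _
  have h6 : θ - θ' - ((⌊θ⌋ - ⌊θ'⌋ : ℤ) : ℝ) = Int.fract θ - Int.fract θ' := by
    unfold Int.fract; push_cast; ring
  rw [h6] at h5
  refine lt_of_le_of_lt h5 ?_
  rw [← h] at h3 h4
  rw [abs_lt, lt_div_iff₀ hLR, ← neg_div, div_lt_iff₀ hLR]
  constructor <;> nlinarith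

lemma sum_kernel_le {ι : Type*} [DecidableEq ι] {S : Finset ι} {α : ι → ℝ} {L : ℕ} (hL : 0 < L)
    (hsp : ∀ r ∈ S, ∀ s ∈ S, r ≠ s → 1 / (L:ℝ) ≤ nn (α r - α s)) {K : ℕ} (hK : 0 < K) (r : ι)
    (hLK : L ≤ K) :
    ∑ s ∈ S, ‖DK K (α r - α s)‖ ^ 2 ≤ 6 * (K:ℝ) ^ 2 := by
  have h1 : ∑ s ∈ S, ‖DK K (α r - α s)‖ ^ 2 ≤
      ∑ s ∈ S, (hb K L (bk L (α r - α s)) + hb K L (L - 1 - bk L (α r - α s))) := by
    refine Finset.sum_le_sum fun s _ => ?_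
    refine le_trans ?_ (Fy_sq_le_hb hK hL _)
    have := norm_DK_le hK (α r - α s)
    gcongr
  have hinj : Set.InjOn (fun s => bk L (α r - α s)) (S : Set ι) := by
    intro s hs t ht hst
    by_contra hne
    have h2 := bk_inj hL hst
    have h3 : α r - α s - (α r - α t) = α t - α s := by ring
    rw [h3] at h2
    have h4 := hsp t ht s hs (Ne.symm hne)
    linarith
  have h2 : ∑ s ∈ S, (hb K L (bk L (α r - α s)) + hb K L (L - 1 - bk L (α r - α s))) ≤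
      ∑ v ∈ Finset.range L, (hb K L v + hb K L (L - 1 - v)) := by
    rw [← Finset.sum_image (f := fun v => hb K L v + hb K L (L - 1 - v)) hinj]
    refine Finset.sum_le_sum_of_subset_of_nonneg ?_ fun v _ _ =>
      add_nonneg (hb_nonneg _ _ _) (hb_nonneg _ _ _)
    intro v hv
    obtain ⟨s, _, rfl⟩ := Finset.mem_image.mp hv
    exact Finset.mem_range.mpr (bk_lt hL _)
  have h3 : ∑ v ∈ Finset.range L, (hb K L v + hb K L (L - 1 - v)) =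
      2 * ∑ v ∈ Finset.range L, hb K L v := by
    rw [Finset.sum_add_distrib, Finset.sum_range_reflect (hb K L) L]; ring
  have h4 := sum_hb_le K L
  have h5 : (L:ℝ) ^ 2 ≤ (K:ℝ) ^ 2 := by
    have : (L:ℝ) ≤ K := by exact_mod_cast hLK
    gcongr
  linarith

/-- Dual large sieve. -/
theorem dual_large_sieve {ι : Type*} [DecidableEq ι] {S : Finset ι} {α : ι → ℝ} {L : ℕ} (hL : 0 < L)
    (hsp : ∀ r ∈ S, ∀ s ∈ S, r ≠ s → 1 / (L:ℝ) ≤ nn (α r - α s)) (N : ℕ) (b : ι → ℂ) :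
    ∑ n ∈ Finset.Ioc 0 N, ‖∑ r ∈ S, b r * ee (n * α r)‖ ^ 2 ≤
      12 * (2 * N + L) * ∑ r ∈ S, ‖b r‖ ^ 2 := by
  set K := 2 * N + L with hKdef
  have hK : 0 < K := by omega
  have hLK : L ≤ K := by omega
  have hKR : (0:ℝ) < K := by exact_mod_cast hK
  set F : ℝ → ℝ := fun x => ‖∑ r ∈ S, b r * ee (x * α r)‖ ^ 2 with hF
  have hF0 : ∀ x, 0 ≤ F x := fun x => by positivity
  have h1 := fejer_count hF0 (show N ≤ K by omega)
  have h2 := fejer_identity S α b K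
  have h3 : ∑ i ∈ Finset.Ioc 0 K, ∑ j ∈ Finset.Ioc 0 K, F ((i:ℝ) - j) ≤
      ∑ r ∈ S, ∑ s ∈ S, ‖b r‖ * ‖b s‖ * ‖DK K (α r - α s)‖ ^ 2 := by
    have h4 : ∑ i ∈ Finset.Ioc 0 K, ∑ j ∈ Finset.Ioc 0 K, F ((i:ℝ) - j) =
        ‖((∑ i ∈ Finset.Ioc 0 K, ∑ j ∈ Finset.Ioc 0 K,
          ‖∑ r ∈ S, b r * ee (((i:ℝ) - j) * α r)‖ ^ 2 : ℝ) : ℂ)‖ := by
      rw [Complex.norm_real, Real.norm_of_nonneg]
      exact Finset.sum_nonneg fun _ _ => Finset.sum_nonneg fun _ _ => by positivity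
    rw [h4, h2]
    refine (norm_sum_le _ _).trans (Finset.sum_le_sum fun r _ => ?_)
    refine (norm_sum_le _ _).trans (Finset.sum_le_sum fun s _ => ?_)
    rw [norm_mul, norm_mul, RCLike.norm_conj, Complex.norm_real,
      Real.norm_of_nonneg (by positivity : (0:ℝ) ≤ ‖DK K (α r - α s)‖ ^ 2)]
  have h4 : ∑ r ∈ S, ∑ s ∈ S, ‖b r‖ * ‖b s‖ * ‖DK K (α r - α s)‖ ^ 2 ≤
      ∑ r ∈ S, ∑ s ∈ S, ‖b r‖ ^ 2 * ‖DK K (α r - α s)‖ ^ 2 := by
    have h5 : ∀ r s, ‖b r‖ * ‖b s‖ * ‖DK K (α r - α s)‖ ^ 2 ≤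
        (‖b r‖ ^ 2 * ‖DK K (α r - α s)‖ ^ 2 + ‖b s‖ ^ 2 * ‖DK K (α r - α s)‖ ^ 2) / 2 := by
      intro r s
      have h6 : 0 ≤ ‖DK K (α r - α s)‖ ^ 2 := by positivity
      have h7 : ‖b r‖ * ‖b s‖ ≤ (‖b r‖ ^ 2 + ‖b s‖ ^ 2) / 2 := by
        nlinarith [sq_nonneg (‖b r‖ - ‖b s‖)]
      calc _ ≤ (‖b r‖ ^ 2 + ‖b s‖ ^ 2) / 2 * ‖DK K (α r - α s)‖ ^ 2 := by gcongr
        _ = _ := by ring
    have h8 : ∑ r ∈ S, ∑ s ∈ S, ‖b s‖ ^ 2 * ‖DK K (α r - α s)‖ ^ 2 =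
        ∑ r ∈ S, ∑ s ∈ S, ‖b r‖ ^ 2 * ‖DK K (α r - α s)‖ ^ 2 := by
      rw [Finset.sum_comm]
      refine Finset.sum_congr rfl fun r _ => Finset.sum_congr rfl fun s _ => ?_
      rw [← norm_DK_neg, neg_sub]
    calc _ ≤ ∑ r ∈ S, ∑ s ∈ S, (‖b r‖ ^ 2 * ‖DK K (α r - α s)‖ ^ 2 +
          ‖b s‖ ^ 2 * ‖DK K (α r - α s)‖ ^ 2) / 2 :=
          Finset.sum_le_sum fun r _ => Finset.sum_le_sum fun s _ => h5 r s
      _ = (∑ r ∈ S, ∑ s ∈ S, ‖b r‖ ^ 2 * ‖DK K (α r - α s)‖ ^ 2 +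
          ∑ r ∈ S, ∑ s ∈ S, ‖b s‖ ^ 2 * ‖DK K (α r - α s)‖ ^ 2) / 2 := by
          rw [← Finset.sum_add_distrib, Finset.sum_div]
          refine Finset.sum_congr rfl fun r _ => ?_
          rw [← Finset.sum_add_distrib, Finset.sum_div]
      _ = _ := by rw [h8]; ring
  have h5 : ∑ r ∈ S, ∑ s ∈ S, ‖b r‖ ^ 2 * ‖DK K (α r - α s)‖ ^ 2 ≤
      6 * (K:ℝ) ^ 2 * ∑ r ∈ S, ‖b r‖ ^ 2 := by
    rw [Finset.mul_sum]
    refine Finset.sum_le_sum fun r _ => ?_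
    rw [← Finset.mul_sum]
    have := sum_kernel_le hL hsp hK r hLK
    calc _ ≤ ‖b r‖ ^ 2 * (6 * (K:ℝ) ^ 2) := by gcongr
      _ = _ := by ring
  have h6 : ((K - N : ℕ) : ℝ) * ∑ n ∈ Finset.Ioc 0 N, F n ≤ 6 * (K:ℝ) ^ 2 * ∑ r ∈ S, ‖b r‖ ^ 2 :=
    h1.trans (h3.trans (h4.trans h5))
  have h7 : (K:ℝ) / 2 ≤ ((K - N : ℕ) : ℝ) := by
    rw [Nat.cast_sub (by omega)]
    have : 2 * (N:ℝ) ≤ K := by exact_mod_cast (by omega : 2 * N ≤ K)
    linarith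
  have h8 : 0 ≤ ∑ n ∈ Finset.Ioc 0 N, F n := Finset.sum_nonneg fun _ _ => hF0 _
  have h9 : (K:ℝ) / 2 * ∑ n ∈ Finset.Ioc 0 N, F n ≤ 6 * (K:ℝ) ^ 2 * ∑ r ∈ S, ‖b r‖ ^ 2 :=
    (mul_le_mul_of_nonneg_right h7 h8).trans h6
  have h10 : ∑ n ∈ Finset.Ioc 0 N, F n ≤ 12 * K * ∑ r ∈ S, ‖b r‖ ^ 2 := by
    have h11 : (K:ℝ) / 2 * ∑ n ∈ Finset.Ioc 0 N, F n ≤
        (K:ℝ) / 2 * (12 * K * ∑ r ∈ S, ‖b r‖ ^ 2) := by
      refine h9.trans (le_of_eq ?_); ring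
    exact le_of_mul_le_mul_left h11 (by positivity)
  have h12 : (K:ℝ) = 2 * N + L := by rw [hKdef]; push_cast; ring
  rw [← h12]
  exact h10

/-- **Large sieve** for well spaced points. -/
theorem large_sieve {ι : Type*} [DecidableEq ι] {S : Finset ι} {α : ι → ℝ} {L : ℕ} (hL : 0 < L)
    (hsp : ∀ r ∈ S, ∀ s ∈ S, r ≠ s → 1 / (L:ℝ) ≤ nn (α r - α s)) (N : ℕ) (a : ℕ → ℂ) :
    ∑ r ∈ S, ‖∑ n ∈ Finset.Ioc 0 N, a n * ee (n * α r)‖ ^ 2 ≤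
      12 * (2 * N + L) * ∑ n ∈ Finset.Ioc 0 N, ‖a n‖ ^ 2 := by
  set T : ι → ℂ := fun r => ∑ n ∈ Finset.Ioc 0 N, a n * ee (n * α r) with hT
  set X : ℝ := ∑ r ∈ S, ‖T r‖ ^ 2 with hX
  have hX0 : 0 ≤ X := Finset.sum_nonneg fun _ _ => by positivity
  set b : ι → ℂ := fun r => (starRingEnd ℂ) (T r) with hb
  have hdual := dual_large_sieve hL hsp N b
  have hb2 : ∑ r ∈ S, ‖b r‖ ^ 2 = X := by
    rw [hX]
    refine Finset.sum_congr rfl fun r _ => ?_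
    rw [hb]; simp only [RCLike.norm_conj]
  rw [hb2] at hdual
  set A : ℝ := ∑ n ∈ Finset.Ioc 0 N, ‖a n‖ ^ 2 with hA
  have hA0 : 0 ≤ A := Finset.sum_nonneg fun _ _ => by positivity
  have h1 : (X : ℂ) = ∑ n ∈ Finset.Ioc 0 N, a n * ∑ r ∈ S, b r * ee (n * α r) := by
    have : (X : ℂ) = ∑ r ∈ S, b r * T r := by
      rw [hX]; push_cast
      refine Finset.sum_congr rfl fun r _ => ?_
      rw [hb]; rw [← Complex.conj_mul']
    rw [this]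
    simp only [hT, Finset.mul_sum]
    rw [Finset.sum_comm]
    refine Finset.sum_congr rfl fun n _ => Finset.sum_congr rfl fun r _ => ?_
    ring
  have h2 : X ≤ ∑ n ∈ Finset.Ioc 0 N, ‖a n‖ * ‖∑ r ∈ S, b r * ee (n * α r)‖ := by
    have : X = ‖(X:ℂ)‖ := by rw [Complex.norm_real, Real.norm_of_nonneg hX0]
    rw [this, h1]
    refine (norm_sum_le _ _).trans (Finset.sum_le_sum fun n _ => ?_)
    rw [norm_mul]
  have h3 : X ^ 2 ≤ A * (12 * (2 * N + L) * X) := by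
    calc X ^ 2 ≤ (∑ n ∈ Finset.Ioc 0 N, ‖a n‖ * ‖∑ r ∈ S, b r * ee (n * α r)‖) ^ 2 := by
          gcongr
      _ ≤ A * ∑ n ∈ Finset.Ioc 0 N, ‖∑ r ∈ S, b r * ee (n * α r)‖ ^ 2 :=
          Finset.sum_mul_sq_le_sq_mul_sq _ _ _
      _ ≤ _ := by gcongr
  rcases hX0.eq_or_lt with h0 | h0
  · rw [← h0]; positivity
  · have h4 : X * X ≤ (12 * (2 * N + L) * A) * X := by
      calc X * X = X ^ 2 := (sq X).symm
        _ ≤ _ := h3
        _ = _ := by ring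
    exact le_of_mul_le_mul_right h4 h0

/-! ### Farey points -/

/-- reduced fractions `a/q`, `0 ≤ a < q ≤ Q` -/
def Farey (Q : ℕ) : Finset (Σ _ : ℕ, ℕ) :=
  (Finset.Ioc 0 Q).sigma (fun q => (Finset.range q).filter (fun a => Nat.Coprime a q))

lemma farey_spaced {Q : ℕ} (x y : Σ _ : ℕ, ℕ) (hx : x ∈ Farey Q) (hy : y ∈ Farey Q) (hne : x ≠ y) :
    1 / ((Q ^ 2 : ℕ):ℝ) ≤ nn ((x.2:ℝ) / x.1 - (y.2:ℝ) / y.1) := by
  obtain ⟨q, a⟩ := x
  obtain ⟨r, b⟩ := y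
  simp only [Farey, Finset.mem_sigma, Finset.mem_Ioc, Finset.mem_filter, Finset.mem_range] at hx hy
  obtain ⟨⟨hq0, hqQ⟩, haq, hca⟩ := hx
  obtain ⟨⟨hr0, hrQ⟩, hbr, hcb⟩ := hy
  simp only
  have hqR : (0:ℝ) < q := by exact_mod_cast hq0
  have hrR : (0:ℝ) < r := by exact_mod_cast hr0
  have hQR : (0:ℝ) < Q := by exact_mod_cast lt_of_lt_of_le hq0 hqQ
  unfold nn
  set k := round ((a:ℝ) / q - (b:ℝ) / r) with hk
  have e : (a:ℝ) / q - (b:ℝ) / r - k = (((a:ℤ) * r - b * q - k * (q * r) : ℤ) : ℝ) / (q * r) := by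
    push_cast; field_simp
  rw [e, abs_div, abs_of_pos (mul_pos hqR hrR)]
  have hnz : (a:ℤ) * r - b * q - k * (q * r) ≠ 0 := by
    intro h0
    apply hne
    have h1 : (a:ℤ) * r = q * (b + k * r) := by linarith
    have h2 : (q:ℤ) ∣ a * r := ⟨_, h1⟩
    have h3 : q ∣ a * r := by exact_mod_cast h2
    have h4 : q ∣ r := (Nat.Coprime.dvd_of_dvd_mul_left hca.symm h3)
    have h5 : (b:ℤ) * q = r * (a - k * q) := by linarith
    have h6 : (r:ℤ) ∣ b * q := ⟨_, h5⟩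
    have h7 : r ∣ b * q := by exact_mod_cast h6
    have h8 : r ∣ q := (Nat.Coprime.dvd_of_dvd_mul_left hcb.symm h7)
    have h9 : q = r := Nat.dvd_antisymm h4 h8
    subst h9
    have h10 : (a:ℤ) - b = k * q := by
      have : (q:ℤ) * (a - b) = q * (k * q) := by linarith
      exact mul_left_cancel₀ (by exact_mod_cast hq0.ne') this
    have h11 : k = 0 := by
      by_contra hk0
      have h12 : (q:ℤ) ≤ |(a:ℤ) - b| := by
        rw [h10, abs_mul]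
        have : (1:ℤ) ≤ |k| := Int.one_le_abs hk0
        have h13 : |(q:ℤ)| = q := abs_of_nonneg (by positivity)
        rw [h13]; nlinarith
      have h14 : |(a:ℤ) - b| < q := by rw [abs_lt]; constructor <;> omega
      omega
    rw [h11, zero_mul] at h10
    have : a = b := by omega
    rw [this]
  have h1 : (1:ℝ) ≤ |(((a:ℤ) * r - b * q - k * (q * r) : ℤ) : ℝ)| := by
    rw [← Int.cast_abs]; exact_mod_cast Int.one_le_abs hnz
  have h2 : (q:ℝ) * r ≤ ((Q ^ 2 : ℕ):ℝ) := by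
    push_cast
    have : (q:ℝ) ≤ Q := by exact_mod_cast hqQ
    have : (r:ℝ) ≤ Q := by exact_mod_cast hrQ
    nlinarith
  calc 1 / ((Q ^ 2 : ℕ):ℝ) ≤ 1 / (q * r) := one_div_le_one_div_of_le (mul_pos hqR hrR) h2
    _ ≤ _ := by gcongr

/-- **Large sieve inequality** at Farey points. -/
theorem large_sieve_farey (Q N : ℕ) (a : ℕ → ℂ) :
    ∑ q ∈ Finset.Ioc 0 Q, ∑ b ∈ (Finset.range q).filter (fun b => Nat.Coprime b q),
      ‖∑ n ∈ Finset.Ioc 0 N, a n * ee (n * ((b:ℝ) / q))‖ ^ 2 ≤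
      12 * (2 * N + (Q:ℝ) ^ 2) * ∑ n ∈ Finset.Ioc 0 N, ‖a n‖ ^ 2 := by
  rcases Nat.eq_zero_or_pos Q with rfl | hQ
  · simp
    positivity
  have h := large_sieve (S := Farey Q) (α := fun x => (x.2:ℝ) / x.1) (L := Q ^ 2) (by positivity)
    (fun r hr s hs hne => farey_spaced r s hr hs hne) N a
  rw [Farey, Finset.sum_sigma] at h
  push_cast at h
  exact h

end Pool.Agent.ANT
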