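import Pool.Agent.Lib.ANT.Trunc
import Pool.Agent.Lib.ANT.CharSum

open Complex MeasureTheory Set Filter Asymptotics Topology

namespace Pool.Agent.ANT

lemma rpow_neg_le_of_near_one {N : ℕ} (hN : 3 ≤ N) {σ : ℝ} (hσ : 1 - 1 / Real.log N ≤ σ)
    {n : ℕ} (hn : 1 ≤ n) (hnN : n ≤ N) : (n:ℝ) ^ (-σ) ≤ 3 * (n:ℝ)⁻¹ := by
  have hn0 : (0:ℝ) < n := by exact_mod_cast hn
  have hN0 : (0:ℝ) < N := by positivity
  have hlogN : 0 < Real.log N := Real.log_pos (by exact_mod_cast (by omega : 1 < N))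
  have hlogn : 0 ≤ Real.log n := Real.log_nonneg (by exact_mod_cast hn)
  have hlog : Real.log n ≤ Real.log N := Real.log_le_log hn0 (by exact_mod_cast hnN)
  have h1 : (n:ℝ) ^ (-σ) = (n:ℝ)⁻¹ * (n:ℝ) ^ (1 - σ) := by
    rw [← Real.rpow_neg_one, ← Real.rpow_add hn0]; congr 1; ring
  rw [h1, mul_comm]
  refine mul_le_mul_of_nonneg_right ?_ (by positivity)
  rw [Real.rpow_def_of_pos hn0]
  have h2 : Real.log n * (1 - σ) ≤ 1 := by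
    calc Real.log n * (1 - σ) ≤ Real.log n * (1 / Real.log N) :=
          mul_le_mul_of_nonneg_left (by linarith) hlogn
      _ ≤ Real.log N * (1 / Real.log N) := mul_le_mul_of_nonneg_right hlog (by positivity)
      _ = 1 := by field_simp
  calc Real.exp (Real.log n * (1 - σ)) ≤ Real.exp 1 := Real.exp_le_exp.mpr h2
    _ ≤ 3 := by have := Real.exp_one_lt_d9; linarith

lemma harmonic_le (N : ℕ) : ∑ n ∈ Finset.Icc 1 N, ((n:ℝ))⁻¹ ≤ 1 + Real.log N := by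
  have := harmonic_le_one_add_log N
  rw [harmonic_eq_sum_Icc] at this
  push_cast at this
  exact this

/-- Upper bound near the 1-line. -/
lemma norm_cont_le {f : ℕ → ℂ} {κ : ℂ} {R1 : ℝ} (hf : ∀ n, ‖f n‖ ≤ 1) (hκ : ‖κ‖ ≤ 1)
    (hR1 : 1 ≤ R1)
    (h : ∀ u : ℝ, 1 ≤ u → ‖Rem f κ u‖ ≤ R1) {s : ℂ} (hs : 1/2 ≤ s.re) (hs1 : s ≠ 1)
    {N : ℕ} (hN : 3 ≤ N) (hσ : 1 - 1 / Real.log N ≤ s.re) (hN2 : R1 * (|s.im| + 3) ≤ N) :
    ‖κ * (s / (s - 1)) + s * HInt f κ s‖ ≤ 12 + 3 * Real.log N + 3 * (‖κ‖ / ‖s - 1‖) := by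
  have hs0 : 0 < s.re := by linarith
  rw [trunc_formula h hs0 hs1 (by omega : 1 ≤ N)]
  have hN0 : (0:ℝ) < N := by positivity
  have hN1 : (1:ℝ) ≤ N := by exact_mod_cast (by omega : 1 ≤ N)
  have hNc : (N:ℂ) ≠ 0 := by exact_mod_cast hN0.ne'
  have hNpow : (N:ℝ) ^ (-s.re) ≤ 3 * (N:ℝ)⁻¹ := rpow_neg_le_of_near_one hN hσ (by omega) le_rfl
  have b1 : ‖∑ n ∈ Finset.Icc 1 N, f n * (n:ℂ) ^ (-s)‖ ≤ 3 * (1 + Real.log N) := by
    calc ‖∑ n ∈ Finset.Icc 1 N, f n * (n:ℂ) ^ (-s)‖ ≤ ∑ n ∈ Finset.Icc 1 N, 3 * ((n:ℝ))⁻¹ := by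
          refine (norm_sum_le _ _).trans (Finset.sum_le_sum fun n hn => ?_)
          have hn1 := (Finset.mem_Icc.mp hn).1
          have hn2 := (Finset.mem_Icc.mp hn).2
          have hn0 : (0:ℝ) < n := by exact_mod_cast hn1
          rw [norm_mul]
          have : ‖(n:ℂ) ^ (-s)‖ = (n:ℝ) ^ (-s.re) := by
            have := Complex.norm_cpow_eq_rpow_re_of_pos hn0 (-s)
            simpa using this
          rw [this]
          calc ‖f n‖ * (n:ℝ) ^ (-s.re) ≤ 1 * (n:ℝ) ^ (-s.re) :=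
                mul_le_mul_of_nonneg_right (hf n) (by positivity)
            _ ≤ 3 * (n:ℝ)⁻¹ := by rw [one_mul]; exact rpow_neg_le_of_near_one hN hσ hn1 hn2
      _ = 3 * ∑ n ∈ Finset.Icc 1 N, ((n:ℝ))⁻¹ := by rw [Finset.mul_sum]
      _ ≤ 3 * (1 + Real.log N) := by have := harmonic_le N; linarith
  have b2 : ‖κ * ((N:ℂ) ^ (1 - s) / (s - 1))‖ ≤ 3 * (‖κ‖ / ‖s - 1‖) := by
    rw [norm_mul, norm_div]
    have e1 : ‖(N:ℂ) ^ (1 - s)‖ = (N:ℝ) * (N:ℝ) ^ (-s.re) := by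
      have := Complex.norm_cpow_eq_rpow_re_of_pos hN0 (1 - s)
      have e2 : ((N:ℝ):ℂ) = (N:ℂ) := by simp
      rw [e2] at this
      rw [this]
      simp only [sub_re, one_re]
      rw [sub_eq_add_neg, Real.rpow_add hN0, Real.rpow_one]
    rw [e1]
    have e3 : (N:ℝ) * (N:ℝ) ^ (-s.re) ≤ 3 := by
      calc (N:ℝ) * (N:ℝ) ^ (-s.re) ≤ N * (3 * (N:ℝ)⁻¹) := mul_le_mul_of_nonneg_left hNpow hN0.le
        _ = 3 := by field_simp
    calc ‖κ‖ * ((N:ℝ) * (N:ℝ) ^ (-s.re) / ‖s - 1‖) ≤ ‖κ‖ * (3 / ‖s - 1‖) := by gcongr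
      _ = 3 * (‖κ‖ / ‖s - 1‖) := by ring
  have hRN : R1 * (N:ℝ)⁻¹ * (|s.im| + 3) ≤ 1 := by
    rw [mul_right_comm]
    rw [← div_eq_mul_inv]
    exact (div_le_one hN0).mpr hN2
  have hR1N : R1 * (N:ℝ)⁻¹ * 3 ≤ 1 := by
    refine le_trans ?_ hRN
    refine mul_le_mul_of_nonneg_left ?_ (by positivity)
    linarith [abs_nonneg s.im]
  have b3 : ‖Rem f κ N * (N:ℂ) ^ (-s)‖ ≤ 1 := by
    rw [norm_mul]
    have : ‖(N:ℂ) ^ (-s)‖ = (N:ℝ) ^ (-s.re) := by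
      have := Complex.norm_cpow_eq_rpow_re_of_pos hN0 (-s)
      simpa using this
    rw [this]
    calc ‖Rem f κ N‖ * (N:ℝ) ^ (-s.re) ≤ R1 * (3 * (N:ℝ)⁻¹) := by
          gcongr
          exact h N hN1
      _ = R1 * (N:ℝ)⁻¹ * 3 := by ring
      _ ≤ 1 := hR1N
  have b4 : ‖s * ∫ u in Ioi (N:ℝ), Rem f κ u * (u:ℂ) ^ (-(s+1))‖ ≤ 8 := by
    rw [norm_mul]
    have h1 := norm_tail_le h hs0 hN1
    have h2 : ‖s‖ ≤ s.re + |s.im| := by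
      have := Complex.norm_le_abs_re_add_abs_im s
      rwa [abs_of_pos hs0] at this
    have h3 : ‖s‖ / s.re ≤ 1 + 2 * |s.im| := by
      rw [div_le_iff₀ hs0]
      nlinarith [abs_nonneg s.im]
    calc ‖s‖ * ‖∫ u in Ioi (N:ℝ), Rem f κ u * (u:ℂ) ^ (-(s+1))‖
        ≤ ‖s‖ * (R1 * ((N:ℝ) ^ (-s.re) / s.re)) := by gcongr
      _ = (‖s‖ / s.re) * (R1 * (N:ℝ) ^ (-s.re)) := by ring
      _ ≤ (1 + 2 * |s.im|) * (R1 * (3 * (N:ℝ)⁻¹)) := by gcongr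
      _ ≤ (2 * (|s.im| + 3)) * (R1 * (3 * (N:ℝ)⁻¹)) := by
          gcongr
          linarith [abs_nonneg s.im]
      _ = 6 * (R1 * (N:ℝ)⁻¹ * (|s.im| + 3)) := by ring
      _ ≤ 6 * 1 := by gcongr
      _ ≤ 8 := by norm_num
  calc ‖∑ n ∈ Finset.Icc 1 N, f n * (n:ℂ) ^ (-s) + κ * ((N:ℂ) ^ (1 - s) / (s - 1))
        - Rem f κ N * (N:ℂ) ^ (-s) + s * ∫ u in Ioi (N:ℝ), Rem f κ u * (u:ℂ) ^ (-(s+1))‖
      ≤ ‖∑ n ∈ Finset.Icc 1 N, f n * (n:ℂ) ^ (-s)‖ + ‖κ * ((N:ℂ) ^ (1 - s) / (s - 1))‖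
        + ‖Rem f κ N * (N:ℂ) ^ (-s)‖ + ‖s * ∫ u in Ioi (N:ℝ), Rem f κ u * (u:ℂ) ^ (-(s+1))‖ := by
        refine (norm_add_le _ _).trans (add_le_add ?_ le_rfl)
        refine (norm_sub_le _ _).trans (add_le_add ?_ le_rfl)
        exact norm_add_le _ _
    _ ≤ 3 * (1 + Real.log N) + 3 * (‖κ‖ / ‖s - 1‖) + 1 + 8 := by gcongr
    _ = 12 + 3 * Real.log N + 3 * (‖κ‖ / ‖s - 1‖) := by ring

/-- The basic logarithmic size `log (R (|t| + 3))`. -/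
noncomputable def ell (R : ℝ) (t : ℝ) : ℝ := Real.log (R * (|t| + 3))

lemma one_le_ell {R : ℝ} (hR : 1 ≤ R) (t : ℝ) : 1 ≤ ell R t := by
  unfold ell
  rw [Real.le_log_iff_exp_le (by positivity)]
  have := Real.exp_one_lt_d9
  have h1 : 1 * (0 + 3) ≤ R * (|t| + 3) := by
    gcongr
    exact abs_nonneg t
  linarith

/-- Upper bound near the 1-line, in terms of `ell`. -/
lemma norm_cont_le_ell {f : ℕ → ℂ} {κ : ℂ} {R1 : ℝ} (hf : ∀ n, ‖f n‖ ≤ 1) (hκ : ‖κ‖ ≤ 1)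
    (hR1 : 1 ≤ R1)
    (h : ∀ u : ℝ, 1 ≤ u → ‖Rem f κ u‖ ≤ R1) {s : ℂ} (hs1 : s ≠ 1)
    (hσ : 1 - 1 / (3 * ell R1 s.im) ≤ s.re) :
    ‖κ * (s / (s - 1)) + s * HInt f κ s‖ ≤ 21 * ell R1 s.im + 3 * (‖κ‖ / ‖s - 1‖) := by
  set y := R1 * (|s.im| + 3) with hy
  have hy3 : 3 ≤ y := by
    have h1 : 1 * (0 + 3) ≤ R1 * (|s.im| + 3) := by
      gcongr
      exact abs_nonneg _
    linarith
  have hell : ell R1 s.im = Real.log y := rfl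
  have hell1 : 1 ≤ ell R1 s.im := one_le_ell hR1 _
  set N := ⌈y⌉₊ with hNdef
  have hNy : y ≤ N := Nat.le_ceil y
  have hNy2 : (N:ℝ) < y + 1 := Nat.ceil_lt_add_one (by linarith)
  have hN3 : 3 ≤ N := by
    have : (3:ℝ) ≤ N := hy3.trans hNy
    exact_mod_cast this
  have hlogN : Real.log N ≤ 3 * ell R1 s.im := by
    rw [hell]
    have : Real.log N ≤ Real.log (y^2) := by
      apply Real.log_le_log (by positivity)
      nlinarith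
    rw [Real.log_pow] at this
    push_cast at this
    rw [hell] at hell1
    linarith
  have hlogN0 : 0 < Real.log N := Real.log_pos (by exact_mod_cast (by omega : 1 < N))
  have hσ2 : 1 - 1 / Real.log N ≤ s.re := by
    have : 1 / (3 * ell R1 s.im) ≤ 1 / Real.log N := one_div_le_one_div_of_le hlogN0 hlogN
    linarith
  have hhalf : 1/2 ≤ s.re := by
    have : 1 / (3 * ell R1 s.im) ≤ 1 / 3 := by
      apply one_div_le_one_div_of_le (by norm_num)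
      linarith
    linarith
  have := norm_cont_le hf hκ hR1 h hhalf hs1 hN3 hσ2 hNy
  linarith

end Pool.Agent.ANT
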