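import Pool.Agent.Lib.ANT.LSMult

open Complex

namespace Pool.Agent.ANT

lemma Fy_le_two {q j : ℕ} (hj : 0 < j) (hjq : j < q) {Y : ℝ} (hY : 0 < Y) :
    Fy Y ((j:ℝ) / q) ≤ (q:ℝ) / j + (q:ℝ) / (q - j : ℕ) := by
  have hjR : (0:ℝ) < j := by exact_mod_cast hj
  have hqR : (0:ℝ) < q := by exact_mod_cast (by omega : 0 < q)
  have hlt : (j:ℝ) < q := by exact_mod_cast hjq
  have hfr : Int.fract ((j:ℝ) / q) = (j:ℝ) / q := by
    rw [Int.fract_eq_self]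
    exact ⟨by positivity, (div_lt_one hqR).mpr hlt⟩
  have hsub : ((q - j : ℕ) : ℝ) = q - j := by rw [Nat.cast_sub hjq.le]
  have hn : nn ((j:ℝ) / q) = min ((j:ℝ) / q) (1 - (j:ℝ) / q) := by rw [nn_eq_min, hfr]
  have h1 : 0 < 1 - (j:ℝ) / q := by rw [sub_pos]; exact (div_lt_one hqR).mpr hlt
  have hnpos : 0 < nn ((j:ℝ) / q) := by rw [hn]; exact lt_min (by positivity) h1
  have h2 : Fy Y ((j:ℝ) / q) ≤ (nn ((j:ℝ) / q))⁻¹ := by
    unfold Fy
    exact inv_anti₀ hnpos (le_max_right _ _)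
  refine h2.trans ?_
  rw [hn]
  have e1 : (q:ℝ) / j = ((j:ℝ) / q)⁻¹ := by rw [inv_div]
  have e2 : (q:ℝ) / (q - j : ℕ) = (1 - (j:ℝ) / q)⁻¹ := by
    rw [hsub, ← inv_div]; congr 1; field_simp
  rw [e1, e2]
  rcases min_choice ((j:ℝ) / q) (1 - (j:ℝ) / q) with h | h
  · rw [h]
    have : 0 ≤ (1 - (j:ℝ) / q)⁻¹ := by positivity
    linarith
  · rw [h]
    have : 0 ≤ ((j:ℝ) / q)⁻¹ := by positivity
    linarith

/-- **Polya–Vinogradov** for primitive characters. -/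
theorem polya_vinogradov {q : ℕ} [NeZero q] {χ : DirichletCharacter ℂ q} (hχ : χ.IsPrimitive)
    (hq : q ≠ 1) (n : ℕ) :
    ‖∑ k ∈ Finset.Ioc 0 n, χ k‖ ≤ 2 * √q * (1 + Real.log q) := by
  have hq0 : 0 < q := Nat.pos_of_ne_zero (NeZero.ne q)
  have hqR : (0:ℝ) < q := by exact_mod_cast hq0
  have hχ' := isPrimitive_inv hχ
  have hntr : Nontrivial (ZMod q) := ZMod.nontrivial_iff.mpr hq
  have h1 : tauG χ⁻¹ * ∑ k ∈ Finset.Ioc 0 n, χ k =
      ∑ b : ZMod q, χ⁻¹ b * ∑ k ∈ Finset.Ioc 0 n, (ZMod.stdAddChar (N := q)) (k * b) := by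
    simp only [Finset.mul_sum]
    rw [Finset.sum_comm]
    refine Finset.sum_congr rfl fun k _ => ?_
    have := gauss_expand hχ' (k : ZMod q)
    rw [inv_inv] at this
    rw [mul_comm, this]
  have h2 : ‖tauG χ⁻¹‖ * ‖∑ k ∈ Finset.Ioc 0 n, χ k‖ ≤
      ∑ j ∈ Finset.range q, ‖χ⁻¹ (j : ZMod q) *
        ∑ k ∈ Finset.Ioc 0 n, (ZMod.stdAddChar (N := q)) (k * (j : ZMod q))‖ := by
    rw [← norm_mul, h1]
    have := sum_range_zmod (fun b : ZMod q => χ⁻¹ b *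
      ∑ k ∈ Finset.Ioc 0 n, (ZMod.stdAddChar (N := q)) (k * b)) 0
    rw [← this]
    simp only [zero_add]
    exact norm_sum_le _ _
  have h3 : ∀ j ∈ Finset.range q, ‖χ⁻¹ (j : ZMod q) *
        ∑ k ∈ Finset.Ioc 0 n, (ZMod.stdAddChar (N := q)) (k * (j : ZMod q))‖ ≤
      if j = 0 then 0 else (q:ℝ) / j + (q:ℝ) / (q - j : ℕ) := by
    intro j hj
    have hjq := Finset.mem_range.mp hj
    split_ifs with hj0
    · subst hj0
      have : χ⁻¹ (((0:ℕ) : ZMod q)) = 0 := by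
        rw [Nat.cast_zero]; exact MulChar.map_nonunit _ (by simp)
      rw [this, zero_mul, norm_zero]
    · rw [norm_mul]
      have h4 : ‖χ⁻¹ (j : ZMod q)‖ ≤ 1 := DirichletCharacter.norm_le_one _ _
      have h5 : ‖∑ k ∈ Finset.Ioc 0 n, (ZMod.stdAddChar (N := q)) (k * (j : ZMod q))‖ ≤
          Fy (n + 1) ((j:ℝ) / q) := by
        simp_rw [stdAddChar_nat]
        exact norm_geom_le (by positivity) (by simp)
      have h6 := Fy_le_two (Nat.pos_of_ne_zero hj0) hjq (show (0:ℝ) < (n:ℝ) + 1 by positivity)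
      calc _ ≤ 1 * Fy (n + 1) ((j:ℝ) / q) := by gcongr
        _ ≤ _ := by rw [one_mul]; exact h6
  have h4 : ∑ j ∈ Finset.range q, (if j = 0 then 0 else (q:ℝ) / j + (q:ℝ) / (q - j : ℕ)) ≤
      2 * q * (1 + Real.log q) := by
    have e1 : Finset.range q = insert 0 (Finset.Ico 1 q) := by
      ext v; simp only [Finset.mem_range, Finset.mem_insert, Finset.mem_Ico]; omega
    rw [e1, Finset.sum_insert (by simp), if_pos rfl, zero_add]
    have e2 : ∑ j ∈ Finset.Ico 1 q, (if j = 0 then 0 else (q:ℝ) / j + (q:ℝ) / (q - j : ℕ)) =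
        ∑ j ∈ Finset.Ico 1 q, (q:ℝ) / j + ∑ j ∈ Finset.Ico 1 q, (q:ℝ) / (q - j : ℕ) := by
      rw [← Finset.sum_add_distrib]
      refine Finset.sum_congr rfl fun j hj => ?_
      rw [if_neg (by have := Finset.mem_Ico.mp hj; omega)]
    have e3 : ∑ j ∈ Finset.Ico 1 q, (q:ℝ) / (q - j : ℕ) = ∑ j ∈ Finset.Ico 1 q, (q:ℝ) / j := by
      refine Finset.sum_bij' (fun j _ => q - j) (fun j _ => q - j) ?_ ?_ ?_ ?_ ?_
      · intro j hj; have := Finset.mem_Ico.mp hj; exact Finset.mem_Ico.mpr ⟨by omega, by omega⟩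
      · intro j hj; have := Finset.mem_Ico.mp hj; exact Finset.mem_Ico.mpr ⟨by omega, by omega⟩
      · intro j hj; have := Finset.mem_Ico.mp hj; omega
      · intro j hj; have := Finset.mem_Ico.mp hj; omega
      · intro j hj; rfl
    have e4 : ∑ j ∈ Finset.Ico 1 q, (q:ℝ) / j ≤ q * Hs q := by
      unfold Hs
      rw [Finset.mul_sum]
      have hsub : Finset.Ico 1 q ⊆ Finset.Ioc 0 q := by
        intro j hj; have := Finset.mem_Ico.mp hj; exact Finset.mem_Ioc.mpr ⟨by omega, by omega⟩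
      calc _ = ∑ j ∈ Finset.Ico 1 q, (q:ℝ) * (1 / j) :=
            Finset.sum_congr rfl fun j _ => by ring
        _ ≤ _ := Finset.sum_le_sum_of_subset_of_nonneg hsub fun _ _ _ => by positivity
    rw [e2, e3]
    have := Hs_le q
    nlinarith
  have h5 : ‖tauG χ⁻¹‖ = √q := by
    rw [← norm_tauG_sq hχ', Real.sqrt_sq (norm_nonneg _)]
  have h6 : √(q:ℝ) * ‖∑ k ∈ Finset.Ioc 0 n, χ k‖ ≤ √q * (2 * √q * (1 + Real.log q)) := by
    rw [← h5]
    calc _ ≤ _ := h2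
      _ ≤ _ := Finset.sum_le_sum h3
      _ ≤ _ := h4
      _ = ‖tauG χ⁻¹‖ * (2 * ‖tauG χ⁻¹‖ * (1 + Real.log q)) := by
          have : (q:ℝ) = ‖tauG χ⁻¹‖ ^ 2 := (norm_tauG_sq hχ').symm
          nth_rewrite 1 [this]; ring
  exact le_of_mul_le_mul_left h6 (Real.sqrt_pos.mpr hqR)

end Pool.Agent.ANT
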