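import Pool.Agent.Lib.ANT.SiegelCore

open Complex MeasureTheory Set Filter Asymptotics Topology
open scoped ComplexOrder

namespace Pool.Agent.ANT

lemma eq_ofReal_of_im {z : ℂ} (h : z.im = 0) : z = ((z.re : ℝ) : ℂ) := by
  apply Complex.ext <;> simp [h]

lemma Rem_im_eq_zero {f : ℕ → ℂ} {κ : ℂ} (hf : ∀ n, (f n).im = 0) (hκ : κ.im = 0) (u : ℝ) :
    (Rem f κ u).im = 0 := by
  unfold Rem
  rw [sub_im, im_sum, mul_im, hκ, Finset.sum_eq_zero (fun k _ => hf k)]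
  simp

lemma HInt_eq_ofReal {f : ℕ → ℂ} {κ : ℂ} (hf : ∀ n, (f n).im = 0) (hκ : κ.im = 0) (s : ℝ) :
    HInt f κ s = ((∫ u in Ioi (1:ℝ), (Rem f κ u).re * u ^ (-(s+1)) : ℝ) : ℂ) := by
  unfold HInt
  rw [← integral_complex_ofReal]
  refine setIntegral_congr_fun measurableSet_Ioi fun u hu => ?_
  have hu0 : (0:ℝ) ≤ u := (zero_le_one.trans (le_of_lt hu))
  rw [ofReal_mul, Complex.ofReal_cpow hu0, ← eq_ofReal_of_im (Rem_im_eq_zero hf hκ u)]
  push_cast
  rfl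

/-- `ZX` on the real segment `(0,1)`. -/
lemma ZX_real_neg {s : ℝ} (hs : 0 < s) (hs1 : s < 1) : ∃ r : ℝ, r < 0 ∧ ZX s = (r : ℂ) := by
  have h := HInt_eq_ofReal (f := fun _ => 1) (κ := 1) (by simp) (by simp) s
  refine ⟨s / (s - 1) + s * ∫ u in Ioi (1:ℝ), (Rem (fun _ => 1) 1 u).re * u ^ (-(s+1)), ?_, ?_⟩
  · have h1 : ∫ u in Ioi (1:ℝ), (Rem (fun _ => 1) 1 u).re * u ^ (-(s+1)) ≤ 0 := by
      refine setIntegral_nonpos measurableSet_Ioi fun u hu => ?_
      have hu0 : (0:ℝ) ≤ u := (zero_le_one.trans (le_of_lt hu))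
      refine mul_nonpos_of_nonpos_of_nonneg ?_ (by positivity)
      unfold Rem
      have := Nat.floor_le hu0
      simp
      exact this
    have h2 : s / (s - 1) < 0 := div_neg_of_pos_of_neg hs (by linarith)
    have h3 : s * ∫ u in Ioi (1:ℝ), (Rem (fun _ => 1) 1 u).re * u ^ (-(s+1)) ≤ 0 :=
      mul_nonpos_of_nonneg_of_nonpos hs.le h1
    linarith
  · unfold ZX Gx
    rw [h]
    push_cast
    ring

/-- quadratic characters are real valued -/
lemma quad_im {q : ℕ} {χ : DirichletCharacter ℂ q} (hχ : χ ^ 2 = 1) (a : ZMod q) :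
    (χ a).im = 0 := by
  rcases MulChar.isQuadratic_iff_sq_eq_one.mpr hχ a with h | h | h <;> simp [h]

lemma LX_real {q : ℕ} [NeZero q] {χ : DirichletCharacter ℂ q} (hχ : χ ^ 2 = 1) (hχ1 : χ ≠ 1)
    (s : ℝ) : (LX χ s).im = 0 := by
  unfold LX
  rw [kap_eq_zero hχ1, Gx_zero]
  simp only
  rw [HInt_eq_ofReal (fun n => quad_im hχ _) (by simp)]
  rw [← ofReal_mul, ofReal_im]

lemma LX_one_eq {q : ℕ} [NeZero q] {χ : DirichletCharacter ℂ q} (hχ1 : χ ≠ 1) :
    LX χ 1 = χ.LFunction 1 := by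
  have h1 : Tendsto (LX χ) (𝓝[{z | 1 < z.re}] 1) (𝓝 (LX χ 1)) :=
    (LX_differentiableAt χ (by simp) (Or.inl hχ1)).continuousAt.tendsto.mono_left nhdsWithin_le_nhds
  have h2 : Tendsto (χ.LFunction) (𝓝[{z | 1 < z.re}] 1) (𝓝 (χ.LFunction 1)) :=
    (χ.differentiableAt_LFunction 1 (Or.inr hχ1)).continuousAt.tendsto.mono_left nhdsWithin_le_nhds
  have hne : (𝓝[{z : ℂ | 1 < z.re}] 1).NeBot := by
    rw [← mem_closure_iff_nhdsWithin_neBot]
    rw [Complex.closure_setOfPred_lt_re]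
    simp
  refine tendsto_nhds_unique h1 (h2.congr' ?_)
  filter_upwards [self_mem_nhdsWithin] with z hz
  exact (LX_eq_LFunction χ hz).symm

lemma LX_one_ne_zero {q : ℕ} [NeZero q] {χ : DirichletCharacter ℂ q} (hχ1 : χ ≠ 1) :
    LX χ 1 ≠ 0 := by
  rw [LX_one_eq hχ1]
  exact DirichletCharacter.LFunction_apply_one_ne_zero hχ1

lemma LSeries_zetaMul {q : ℕ} [NeZero q] (χ : DirichletCharacter ℂ q) {s : ℂ} (hs : 1 < s.re) :
    LSeries (fun n => χ.zetaMul n) s = ZX s * LX χ s := by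
  rw [ZX_eq_zeta hs, LX_eq_LSeries χ hs]
  rw [DirichletCharacter.zetaMul, ← ArithmeticFunction.coe_mul, LSeries_convolution']
  · congr 1
    · rw [← ArithmeticFunction.LSeries_zeta_eq_riemannZeta hs]
      rfl
    · exact LSeries_congr (fun {n} hn => (χ.apply_eq_toArithmeticFunction_apply hn).symm) s
  · exact ArithmeticFunction.LSeriesSummable_zeta_iff.mpr hs
  · exact (LSeriesSummable_congr _ fun h ↦ (χ.apply_eq_toArithmeticFunction_apply h).symm).mpr <|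
      ZMod.LSeriesSummable_of_one_lt_re χ hs

lemma zetaMul_one {q : ℕ} (χ : DirichletCharacter ℂ q) : χ.zetaMul 1 = 1 :=
  χ.isMultiplicative_zetaMul.map_one

lemma abscissa_zetaMul_le {q : ℕ} (χ : DirichletCharacter ℂ q) :
    LSeries.abscissaOfAbsConv (fun n => χ.zetaMul n) ≤ 1 :=
  LSeries.abscissaOfAbsConv_le_of_forall_lt_LSeriesSummable
    fun _ hy => χ.LSeriesSummable_zetaMul (by simpa using hy)

lemma LX_pos_of_one_lt {q : ℕ} [NeZero q] {χ : DirichletCharacter ℂ q} (hχ : χ ^ 2 = 1)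
    (hχ1 : χ ≠ 1) {s : ℝ} (hs : 1 < s) : 0 < (LX χ s).re := by
  have hs' : 1 < (s:ℂ).re := by simpa using hs
  have h1 : 0 < LSeries (fun n => χ.zetaMul n) s := by
    refine LSeries.positive (fun n => DirichletCharacter.zetaMul_nonneg hχ n) ?_ ?_
    · rw [zetaMul_one]; exact zero_lt_one
    · exact lt_of_le_of_lt (abscissa_zetaMul_le χ) (by exact_mod_cast hs)
  rw [LSeries_zetaMul χ hs', ZX_eq_zeta hs'] at h1
  have h2 : 0 < riemannZeta s := riemannZeta_pos_of_one_lt hs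
  have h3 := (Complex.lt_def.mp h2)
  have h4 := (Complex.lt_def.mp h1)
  have h5 : (riemannZeta s * LX χ s).re = (riemannZeta s).re * (LX χ s).re := by
    rw [mul_re, LX_real hχ hχ1 s]; ring
  have h6 : 0 < (riemannZeta s).re * (LX χ s).re := by
    rw [← h5]; simpa using h4.1
  have h7 : 0 < (riemannZeta s).re := by simpa using h3.1
  exact (pos_iff_pos_of_mul_pos h6).mp h7

lemma LX_continuousOn {q : ℕ} [NeZero q] {χ : DirichletCharacter ℂ q} (hχ1 : χ ≠ 1) :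
    ContinuousOn (fun s : ℝ => (LX χ s).re) (Ioi 0) := by
  intro s hs
  have h1 : ContinuousAt (LX χ) (s:ℂ) :=
    (LX_differentiableAt χ (by simpa using hs) (Or.inl hχ1)).continuousAt
  have h2 : ContinuousAt (fun s : ℝ => (LX χ s)) s :=
    ContinuousAt.comp (f := fun s : ℝ => (s:ℂ)) h1 Complex.continuous_ofReal.continuousAt
  exact (Complex.continuous_re.continuousAt.comp h2).continuousWithinAt

lemma LX_one_pos {q : ℕ} [NeZero q] {χ : DirichletCharacter ℂ q} (hχ : χ ^ 2 = 1)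
    (hχ1 : χ ≠ 1) : 0 < (LX χ 1).re := by
  have h0 : 0 ≤ (LX χ ((1:ℝ):ℂ)).re := by
    have hc : ContinuousWithinAt (fun s : ℝ => (LX χ s).re) (Ioi 1) 1 :=
      ((LX_continuousOn hχ1) 1 (by simp)).mono (Ioi_subset_Ioi zero_le_one)
    have hev : ∀ᶠ s : ℝ in 𝓝[>] 1, 0 ≤ (LX χ s).re := by
      filter_upwards [self_mem_nhdsWithin] with s hs
      exact (LX_pos_of_one_lt hχ hχ1 hs).le
    exact ge_of_tendsto hc hev
  have h1 : (LX χ ((1:ℝ):ℂ)).im = 0 := LX_real hχ hχ1 1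
  simp only [ofReal_one] at h0 h1
  refine lt_of_le_of_ne h0 fun h => ?_
  apply LX_one_ne_zero hχ1
  apply Complex.ext
  · rw [← h]; simp
  · rw [h1]; simp

/-- If there is no real zero on `(a,1)` then `L` is nonnegative there. -/
lemma LX_nonneg_of_no_zero {q : ℕ} [NeZero q] {χ : DirichletCharacter ℂ q} (hχ : χ ^ 2 = 1)
    (hχ1 : χ ≠ 1) {a : ℝ} (ha : 0 < a)
    (h : ∀ s : ℝ, a < s → s < 1 → LX χ s ≠ 0) {s : ℝ} (has : a < s) (hs1 : s < 1) :
    0 ≤ (LX χ s).re := by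
  by_contra hcon
  push Not at hcon
  have hcont : ContinuousOn (fun s : ℝ => (LX χ s).re) (Icc s 1) :=
    (LX_continuousOn hχ1).mono (fun x hx => lt_of_lt_of_le (ha.trans has) hx.1)
  have h1 : (0:ℝ) ∈ Ioo ((LX χ s).re) ((LX χ ((1:ℝ):ℂ)).re) := by
    refine ⟨hcon, ?_⟩
    have := LX_one_pos hχ hχ1
    simpa using this
  obtain ⟨x, hx, hx0⟩ := intermediate_value_Ioo hs1.le hcont h1
  apply h x (has.trans hx.1) hx.2
  apply Complex.ext
  · simpa using hx0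
  · rw [LX_real hχ hχ1 x]; simp

end Pool.Agent.ANT
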