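import Mathlib

open Complex MeasureTheory Set Filter Asymptotics Topology

namespace Pool.Agent.ANT

lemma sum_Ioc_succ' {M : Type*} [AddCommMonoid M] (f : ℕ → M) {Y X : ℕ} (h : Y ≤ X) :
    ∑ n ∈ Finset.Ioc Y (X+1), f n = ∑ n ∈ Finset.Ioc Y X, f n + f (X+1) :=
  Finset.sum_Ioc_succ_top (by omega) f

lemma abel_identity (b : ℕ → ℂ) (w : ℕ → ℝ) {Y X : ℕ} (h : Y ≤ X) :
    ∑ n ∈ Finset.Ioc Y X, b n * w n =
      (∑ n ∈ Finset.Ioc Y X, b n) * w (X+1) +
        ∑ n ∈ Finset.Ioc Y X, (∑ j ∈ Finset.Ioc Y n, b j) * ((w n - w (n+1) : ℝ) : ℂ) := by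
  induction X, h using Nat.le_induction with
  | base => simp
  | succ X hX ih =>
    rw [sum_Ioc_succ' _ hX, ih, sum_Ioc_succ' (fun n => (∑ j ∈ Finset.Ioc Y n, b j) *
      ((w n - w (n+1) : ℝ) : ℂ)) hX, sum_Ioc_succ' b hX]
    push_cast
    ring

/-- Abel's inequality for antitone nonnegative weights. -/
lemma abel_ineq {b : ℕ → ℂ} {w : ℕ → ℝ} {Y X : ℕ} (h : Y ≤ X) {B : ℝ}
    (hw0 : ∀ n, Y < n → 0 ≤ w n) (hw : ∀ n, Y < n → w (n+1) ≤ w n)
    (hB : ∀ u, Y ≤ u → u ≤ X → ‖∑ n ∈ Finset.Ioc Y u, b n‖ ≤ B) :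
    ‖∑ n ∈ Finset.Ioc Y X, b n * w n‖ ≤ B * w (Y+1) := by
  have hB0 : 0 ≤ B := (norm_nonneg _).trans (hB Y le_rfl h)
  rw [abel_identity b w h]
  have h1 : ‖(∑ n ∈ Finset.Ioc Y X, b n) * (w (X+1) : ℂ)‖ ≤ B * w (X+1) := by
    rw [norm_mul, Complex.norm_real, Real.norm_of_nonneg (hw0 _ (by omega))]
    exact mul_le_mul_of_nonneg_right (hB X h le_rfl) (hw0 _ (by omega))
  have h2 : ‖∑ n ∈ Finset.Ioc Y X, (∑ j ∈ Finset.Ioc Y n, b j) * ((w n - w (n+1) : ℝ) : ℂ)‖ ≤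
      ∑ n ∈ Finset.Ioc Y X, B * (w n - w (n+1)) := by
    refine (norm_sum_le _ _).trans (Finset.sum_le_sum fun n hn => ?_)
    obtain ⟨hn1, hn2⟩ := Finset.mem_Ioc.mp hn
    rw [norm_mul, Complex.norm_real, Real.norm_of_nonneg (by linarith [hw n hn1])]
    exact mul_le_mul_of_nonneg_right (hB n hn1.le hn2) (by linarith [hw n hn1])
  have h3 : ∑ n ∈ Finset.Ioc Y X, B * (w n - w (n+1)) = B * (w (Y+1) - w (X+1)) := by
    clear h1 h2 hB
    induction X, h using Nat.le_induction with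
    | base => simp
    | succ X hX ih => rw [sum_Ioc_succ' _ hX, ih]; ring
  calc _ ≤ _ := norm_add_le _ _
    _ ≤ B * w (X+1) + B * (w (Y+1) - w (X+1)) := by rw [← h3]; exact add_le_add h1 h2
    _ = B * w (Y+1) := by ring

/-- Removing the Riesz weight. -/
lemma unsmooth {b : ℕ → ℂ} {x h M D : ℝ} (hx : 1 ≤ x) (hh : 0 < h) (hhx : h ≤ x)
    (hD : ∀ n : ℕ, 1 ≤ n → (n:ℝ) ≤ 2 * x → ‖b n‖ ≤ D)
    (hR : ∀ y : ℝ, x ≤ y → y ≤ 2 * x →
      ‖∑ n ∈ Finset.Icc 1 ⌊y⌋₊, b n * ((1 - n / y : ℝ) : ℂ)‖ ≤ M * y) :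
    ‖∑ n ∈ Finset.Icc 1 ⌊x⌋₊, b n‖ ≤ 5 * M * x ^ 2 / h + (h + 1) * D := by
  have hx0 : 0 < x := by linarith
  have hM : 0 ≤ M := by
    have := (norm_nonneg _).trans (hR x le_rfl (by linarith))
    by_contra hcon
    push Not at hcon
    nlinarith
  have hD0 : 0 ≤ D := (norm_nonneg _).trans (hD 1 le_rfl (by push_cast; linarith))
  -- A1
  have hA1 : ∀ y : ℝ, x ≤ y → y ≤ 2 * x →
      ‖∑ n ∈ Finset.Icc 1 ⌊y⌋₊, b n * ((y - n : ℝ) : ℂ)‖ ≤ M * y ^ 2 := by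
    intro y hy hy2
    have hy0 : 0 < y := by linarith
    have e1 : ∑ n ∈ Finset.Icc 1 ⌊y⌋₊, b n * ((y - n : ℝ) : ℂ) =
        y * ∑ n ∈ Finset.Icc 1 ⌊y⌋₊, b n * ((1 - n / y : ℝ) : ℂ) := by
      rw [Finset.mul_sum]
      refine Finset.sum_congr rfl fun n _ => ?_
      have : (y - n : ℝ) = y * (1 - n / y) := by field_simp
      rw [this]; push_cast; ring
    rw [e1, norm_mul, Complex.norm_real, Real.norm_of_nonneg hy0.le]
    calc y * ‖_‖ ≤ y * (M * y) := by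
          gcongr
          exact hR y hy hy2
      _ = M * y ^ 2 := by ring
  have hfl : ⌊x⌋₊ ≤ ⌊x + h⌋₊ := Nat.floor_le_floor (by linarith)
  have hsplit : ∑ n ∈ Finset.Icc 1 ⌊x+h⌋₊, b n * ((x + h - n : ℝ) : ℂ) =
      ∑ n ∈ Finset.Icc 1 ⌊x⌋₊, b n * ((x + h - n : ℝ) : ℂ) +
      ∑ n ∈ Finset.Ioc ⌊x⌋₊ ⌊x+h⌋₊, b n * ((x + h - n : ℝ) : ℂ) := by
    have : Finset.Icc 1 ⌊x+h⌋₊ = Finset.Icc 1 ⌊x⌋₊ ∪ Finset.Ioc ⌊x⌋₊ ⌊x+h⌋₊ := by
      ext n
      simp only [Finset.mem_union, Finset.mem_Icc, Finset.mem_Ioc]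
      omega
    rw [this, Finset.sum_union]
    rw [Finset.disjoint_left]
    intro n hn hn'
    simp only [Finset.mem_Icc, Finset.mem_Ioc] at hn hn'
    omega
  have hdiff : (h:ℂ) * ∑ n ∈ Finset.Icc 1 ⌊x⌋₊, b n =
      ∑ n ∈ Finset.Icc 1 ⌊x+h⌋₊, b n * ((x + h - n : ℝ) : ℂ) -
      ∑ n ∈ Finset.Icc 1 ⌊x⌋₊, b n * ((x - n : ℝ) : ℂ) -
      ∑ n ∈ Finset.Ioc ⌊x⌋₊ ⌊x+h⌋₊, b n * ((x + h - n : ℝ) : ℂ) := by
    rw [hsplit, Finset.mul_sum]
    have : ∑ n ∈ Finset.Icc 1 ⌊x⌋₊, (h:ℂ) * b n =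
        ∑ n ∈ Finset.Icc 1 ⌊x⌋₊, b n * ((x + h - n : ℝ) : ℂ) -
        ∑ n ∈ Finset.Icc 1 ⌊x⌋₊, b n * ((x - n : ℝ) : ℂ) := by
      rw [← Finset.sum_sub_distrib]
      refine Finset.sum_congr rfl fun n _ => ?_
      push_cast; ring
    rw [this]; ring
  have hshort : ‖∑ n ∈ Finset.Ioc ⌊x⌋₊ ⌊x+h⌋₊, b n * ((x + h - n : ℝ) : ℂ)‖ ≤ h * ((h + 1) * D) := by
    calc ‖∑ n ∈ Finset.Ioc ⌊x⌋₊ ⌊x+h⌋₊, b n * ((x + h - n : ℝ) : ℂ)‖
        ≤ ∑ n ∈ Finset.Ioc ⌊x⌋₊ ⌊x+h⌋₊, D * h := by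
          refine (norm_sum_le _ _).trans (Finset.sum_le_sum fun n hn => ?_)
          obtain ⟨hn1, hn2⟩ := Finset.mem_Ioc.mp hn
          have h1 : x < n := (Nat.floor_lt hx0.le).mp hn1
          have h2 : (n:ℝ) ≤ x + h := (Nat.le_floor_iff (by linarith)).mp hn2
          rw [norm_mul, Complex.norm_real, Real.norm_of_nonneg (by linarith)]
          have h3 : ‖b n‖ ≤ D := by
            apply hD n _ (by linarith)
            have : 1 ≤ ⌊x⌋₊ := (Nat.one_le_floor_iff _).mpr hx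
            omega
          have h4 : x + h - n ≤ h := by linarith
          have h5 : 0 ≤ x + h - n := by linarith
          gcongr
      _ = ((⌊x+h⌋₊ - ⌊x⌋₊ : ℕ) : ℝ) * (D * h) := by simp
      _ ≤ (h + 1) * (D * h) := by
          have h1 : ((⌊x+h⌋₊ - ⌊x⌋₊ : ℕ) : ℝ) ≤ h + 1 := by
            rw [Nat.cast_sub hfl]
            have h2 := Nat.floor_le (by linarith : 0 ≤ x + h)
            have h3 := Nat.lt_floor_add_one x
            linarith
          gcongr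
      _ = h * ((h + 1) * D) := by ring
  have hfinal : h * ‖∑ n ∈ Finset.Icc 1 ⌊x⌋₊, b n‖ ≤ 5 * M * x ^ 2 + h * ((h+1) * D) := by
    have e0 : h * ‖∑ n ∈ Finset.Icc 1 ⌊x⌋₊, b n‖ = ‖(h:ℂ) * ∑ n ∈ Finset.Icc 1 ⌊x⌋₊, b n‖ := by
      rw [norm_mul, Complex.norm_real, Real.norm_of_nonneg hh.le]
    rw [e0, hdiff]
    have h1 := hA1 (x+h) (by linarith) (by linarith)
    have h2 := hA1 x le_rfl (by linarith)
    have h3 : M * (x+h) ^ 2 ≤ 4 * M * x ^ 2 := by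
      have : (x + h) ^ 2 ≤ (2 * x) ^ 2 := by gcongr; linarith
      nlinarith
    calc _ ≤ ‖∑ n ∈ Finset.Icc 1 ⌊x+h⌋₊, b n * ((x + h - n : ℝ) : ℂ)‖ +
          ‖∑ n ∈ Finset.Icc 1 ⌊x⌋₊, b n * ((x - n : ℝ) : ℂ)‖ +
          ‖∑ n ∈ Finset.Ioc ⌊x⌋₊ ⌊x+h⌋₊, b n * ((x + h - n : ℝ) : ℂ)‖ := by
          refine (norm_sub_le _ _).trans (add_le_add (norm_sub_le _ _) le_rfl)
      _ ≤ M * (x+h)^2 + M * x ^ 2 + h * ((h+1) * D) := add_le_add (add_le_add h1 h2) hshort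
      _ ≤ _ := by linarith
  have : ‖∑ n ∈ Finset.Icc 1 ⌊x⌋₊, b n‖ ≤ (5 * M * x ^ 2 + h * ((h+1) * D)) / h := by
    rw [le_div_iff₀ hh]; linarith
  refine this.trans (le_of_eq ?_)
  field_simp

/-- `(log u)^m ≤ C u` for `u ≥ 1`. -/
lemma log_pow_le (m : ℕ) : ∃ C : ℝ, 1 ≤ C ∧ ∀ u : ℝ, 1 ≤ u → Real.log u ^ m ≤ C * u := by
  refine ⟨max 1 ((m:ℝ) ^ m), le_max_left _ _, fun u hu => ?_⟩
  rcases Nat.eq_zero_or_pos m with rfl | hm
  · simp only [pow_zero]
    calc (1:ℝ) ≤ 1 * u := by linarith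
      _ ≤ max 1 (((0:ℕ):ℝ) ^ 0) * u := by
        gcongr
        exact le_max_left _ _
  · have hm' : (0:ℝ) < m := by exact_mod_cast hm
    have h1 : Real.log u ≤ u ^ ((1:ℝ)/m) / (1/m) := Real.log_le_rpow_div (by linarith) (by positivity)
    have h0 : 0 ≤ Real.log u := Real.log_nonneg hu
    calc Real.log u ^ m ≤ (u ^ ((1:ℝ)/m) / (1/m)) ^ m := by gcongr
      _ = (m:ℝ) ^ m * u := by
          rw [div_pow, ← Real.rpow_natCast (u ^ ((1:ℝ)/m)), ← Real.rpow_mul (by linarith),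
            one_div_mul_cancel hm'.ne', Real.rpow_one, one_div, inv_pow, div_inv_eq_mul]
          ring
      _ ≤ max 1 ((m:ℝ) ^ m) * u := by
          gcongr
          exact le_max_right _ _

/-- From Riesz means of `a_n (log n)^{2m}` to sums of `a_n` with a saving of `(log x)^m`. -/
lemma sum_le_of_riesz (m : ℕ) : ∃ C : ℝ, 0 < C ∧ ∀ (a : ℕ → ℂ) (M : ℝ), (∀ n, ‖a n‖ ≤ 1) →
    (∀ y : ℝ, 3 ≤ y → ‖∑ n ∈ Finset.Icc 1 ⌊y⌋₊, a n * ((Real.log n ^ (2*m) : ℝ) : ℂ) *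
      ((1 - n / y : ℝ) : ℂ)‖ ≤ M * y) →
    ∀ x : ℝ, 3 ≤ x → ‖∑ n ∈ Finset.Icc 1 ⌊x⌋₊, a n‖ ≤ C * (M + 1) * x / Real.log x ^ m := by
  obtain ⟨C1, hC1, hlog⟩ := log_pow_le (2*m)
  set C2 : ℝ := 4 * C1 + 12 with hC2
  refine ⟨20 + 20 * C1 + 4 ^ m * 2 ^ m * (2 * (9 * C2)) + 8 ^ m * C1 * 10, by positivity, ?_⟩
  intro a M ha hR x hx
  have hM : 0 ≤ M := by
    have := (norm_nonneg _).trans (hR 3 le_rfl)
    linarith
  -- bound for A(u)
  have hA : ∀ u : ℝ, 3 ≤ u → ‖∑ n ∈ Finset.Icc 1 ⌊u⌋₊, a n * ((Real.log n ^ (2*m) : ℝ) : ℂ)‖ ≤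
      C2 * (M + 1) * u * Real.log (2 * u) ^ m := by
    intro u hu
    have hu0 : 0 < u := by linarith
    have hlog2u : 1 ≤ Real.log (2 * u) := by
      rw [Real.le_log_iff_exp_le (by linarith)]
      have := Real.exp_one_lt_d9
      linarith
    set ℓ := Real.log (2 * u) with hℓ
    have hℓm : 1 ≤ ℓ ^ m := one_le_pow₀ hlog2u
    set h := u / ℓ ^ m with hh
    have hh0 : 0 < h := by positivity
    have hhu : h ≤ u := div_le_self hu0.le hℓm
    have hD : ∀ n : ℕ, 1 ≤ n → (n:ℝ) ≤ 2 * u → ‖a n * ((Real.log n ^ (2*m) : ℝ) : ℂ)‖ ≤ ℓ ^ (2*m) := by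
      intro n hn hn2
      have hn0 : (0:ℝ) < n := by exact_mod_cast hn
      have h0 : 0 ≤ Real.log n := Real.log_nonneg (by exact_mod_cast hn)
      rw [norm_mul, Complex.norm_real, Real.norm_of_nonneg (by positivity)]
      have h1 : Real.log n ≤ ℓ := Real.log_le_log hn0 hn2
      calc ‖a n‖ * Real.log n ^ (2*m) ≤ 1 * ℓ ^ (2*m) := by
            gcongr
            exact ha n
        _ = _ := one_mul _
    have := unsmooth (b := fun n => a n * ((Real.log n ^ (2*m) : ℝ) : ℂ)) (M := M) (by linarith) hh0 hhu hD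
      (fun y hy _ => hR y (by linarith))
    refine this.trans ?_
    have e1 : 5 * M * u ^ 2 / h = 5 * M * u * ℓ ^ m := by
      rw [hh]; field_simp
    have e2 : (h + 1) * ℓ ^ (2*m) ≤ u * ℓ ^ m + 2 * C1 * u * ℓ ^ m := by
      have e3 : h * ℓ ^ (2*m) = u * ℓ ^ m := by
        rw [hh, pow_mul', pow_two]; field_simp
      have e4 : ℓ ^ (2*m) ≤ 2 * C1 * u * ℓ ^ m := by
        have := hlog (2*u) (by linarith)
        calc ℓ ^ (2*m) ≤ C1 * (2 * u) := this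
          _ = 2 * C1 * u * 1 := by ring
          _ ≤ 2 * C1 * u * ℓ ^ m := by gcongr
      rw [add_mul, e3, one_mul]
      linarith
    rw [e1]
    have e5 : 0 ≤ u * ℓ ^ m := by positivity
    calc 5 * M * u * ℓ ^ m + (h + 1) * ℓ ^ (2*m)
        ≤ 5 * M * u * ℓ ^ m + (u * ℓ ^ m + 2 * C1 * u * ℓ ^ m) := by linarith
      _ = (5 * M + 1 + 2 * C1) * (u * ℓ ^ m) := by ring
      _ ≤ (C2 * (M + 1)) * (u * ℓ ^ m) := by
          gcongr
          rw [hC2]
          nlinarith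
      _ = _ := by ring
  -- trivial bound for small x
  have hx0 : 0 < x := by linarith
  have hlogx : 1 ≤ Real.log x := by
    rw [Real.le_log_iff_exp_le hx0]
    have := Real.exp_one_lt_d9
    linarith
  have hlogxm : 1 ≤ Real.log x ^ m := one_le_pow₀ hlogx
  have htriv : ∀ N : ℕ, ‖∑ n ∈ Finset.Icc 1 N, a n‖ ≤ N := by
    intro N
    calc ‖∑ n ∈ Finset.Icc 1 N, a n‖ ≤ ∑ n ∈ Finset.Icc 1 N, (1:ℝ) :=
          (norm_sum_le _ _).trans (Finset.sum_le_sum fun n _ => ha n)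
      _ = N := by simp
  rw [le_div_iff₀ (by positivity)]
  by_cases hx9 : x < 9
  · have h1 : Real.log x ^ m ≤ Real.log x ^ (2*m) := pow_le_pow_right₀ hlogx (by omega)
    have h2 := hlog x (by linarith)
    have h3 : ‖∑ n ∈ Finset.Icc 1 ⌊x⌋₊, a n‖ ≤ x := (htriv _).trans (Nat.floor_le hx0.le)
    calc ‖∑ n ∈ Finset.Icc 1 ⌊x⌋₊, a n‖ * Real.log x ^ m ≤ x * (C1 * x) := by
          gcongr
          exact h1.trans h2
      _ ≤ 9 * (C1 * x) := by gcongr
      _ = (9 * C1) * (0 + 1) * x := by ring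
      _ ≤ (20 + 20 * C1 + 4 ^ m * 2 ^ m * (2 * (9 * C2)) + 8 ^ m * C1 * 10) * (M + 1) * x := by
          have : 0 ≤ 20 + 4 ^ m * 2 ^ m * (2 * (9 * C2)) + 8 ^ m * C1 * 10 := by positivity
          gcongr
          linarith
  · push Not at hx9
    -- split at sqrt
    set Y := ⌊Real.sqrt x⌋₊ with hY
    set X := ⌊x⌋₊ with hX
    have hsq3 : 3 ≤ Real.sqrt x := by
      apply Real.le_sqrt_of_sq_le; linarith
    have hsqx : Real.sqrt x ≤ x := by
      rw [Real.sqrt_le_left hx0.le]; nlinarith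
    have hYX : Y ≤ X := Nat.floor_le_floor hsqx
    have hY3 : 3 ≤ Y := Nat.le_floor (by exact_mod_cast hsq3)
    set b : ℕ → ℂ := fun n => a n * ((Real.log n ^ (2*m) : ℝ) : ℂ) with hb
    set w : ℕ → ℝ := fun n => (Real.log n ^ (2*m))⁻¹ with hw
    have hlogpos : ∀ n : ℕ, Y < n → 0 < Real.log n := by
      intro n hn
      apply Real.log_pos
      exact_mod_cast (by omega : 1 < n)
    have hw0 : ∀ n, Y < n → 0 ≤ w n := by
      intro n hn
      have := hlogpos n hn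
      rw [hw]; positivity
    have hw1 : ∀ n, Y < n → w (n+1) ≤ w n := by
      intro n hn
      have h1 := hlogpos n hn
      have hn0 : (0:ℝ) < n := by exact_mod_cast (by omega : 0 < n)
      rw [hw]
      apply inv_anti₀ (by positivity)
      gcongr
      push_cast; linarith
    set B := 2 * (C2 * (M + 1) * x * Real.log (2 * x) ^ m) with hBdef
    have hlog2x : 1 ≤ Real.log (2 * x) := by
      rw [Real.le_log_iff_exp_le (by linarith)]
      have := Real.exp_one_lt_d9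
      linarith
    have hAN : ∀ u : ℕ, 3 ≤ u → u ≤ X → ‖∑ n ∈ Finset.Icc 1 u, b n‖ ≤
        C2 * (M + 1) * x * Real.log (2 * x) ^ m := by
      intro u hu hu2
      have h1 := hA u (by exact_mod_cast hu)
      rw [Nat.floor_natCast] at h1
      refine h1.trans ?_
      have h2 : (u:ℝ) ≤ x := (Nat.le_floor_iff hx0.le).mp hu2
      have h3 : (3:ℝ) ≤ u := by exact_mod_cast hu
      have h4 : 0 ≤ Real.log (2 * (u:ℝ)) := Real.log_nonneg (by linarith)
      have h5 : Real.log (2 * (u:ℝ)) ≤ Real.log (2 * x) := Real.log_le_log (by linarith) (by linarith)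
      gcongr
    have hIoc : ∀ u : ℕ, Y ≤ u → u ≤ X → ‖∑ n ∈ Finset.Ioc Y u, b n‖ ≤ B := by
      intro u hu hu2
      have e1 : ∑ n ∈ Finset.Ioc Y u, b n = ∑ n ∈ Finset.Icc 1 u, b n - ∑ n ∈ Finset.Icc 1 Y, b n := by
        have : Finset.Icc 1 u = Finset.Icc 1 Y ∪ Finset.Ioc Y u := by
          ext n
          simp only [Finset.mem_union, Finset.mem_Icc, Finset.mem_Ioc]
          omega
        rw [this, Finset.sum_union]
        · ring
        rw [Finset.disjoint_left]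
        intro n hn hn'
        simp only [Finset.mem_Icc, Finset.mem_Ioc] at hn hn'
        omega
      rw [e1]
      refine (norm_sub_le _ _).trans ?_
      have h1 := hAN u (by omega) hu2
      have h2 := hAN Y hY3 hYX
      rw [hBdef]; linarith
    have habel := abel_ineq hYX hw0 hw1 hIoc
    have e2 : ∑ n ∈ Finset.Ioc Y X, b n * (w n : ℂ) = ∑ n ∈ Finset.Ioc Y X, a n := by
      refine Finset.sum_congr rfl fun n hn => ?_
      have h1 := hlogpos n (Finset.mem_Ioc.mp hn).1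
      rw [hb, hw]
      simp only
      rw [mul_assoc, ← ofReal_mul, mul_inv_cancel₀ (by positivity), ofReal_one, mul_one]
    rw [e2] at habel
    -- bound w (Y+1)
    have hwY : w (Y+1) ≤ 4 ^ m * (Real.log x ^ (2*m))⁻¹ := by
      rw [hw]
      simp only
      have h1 : Real.sqrt x ≤ ((Y+1 : ℕ) : ℝ) := by
        push_cast
        exact (Nat.lt_floor_add_one _).le
      have h2 : Real.log x / 2 ≤ Real.log ((Y+1 : ℕ) : ℝ) := by
        have := Real.log_le_log (by linarith) h1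
        rwa [Real.log_sqrt hx0.le] at this
      have h3 : (Real.log x / 2) ^ (2*m) ≤ Real.log ((Y+1 : ℕ) : ℝ) ^ (2*m) := by
        gcongr
      calc (Real.log ((Y+1 : ℕ) : ℝ) ^ (2*m))⁻¹ ≤ ((Real.log x / 2) ^ (2*m))⁻¹ :=
            inv_anti₀ (by positivity) h3
        _ = 4 ^ m * (Real.log x ^ (2*m))⁻¹ := by
            rw [div_pow, inv_div, pow_mul 2 2 m]
            norm_num
            ring
    have hlog2x' : Real.log (2 * x) ≤ 2 * Real.log x := by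
      rw [Real.log_mul two_ne_zero hx0.ne']
      have : Real.log 2 ≤ Real.log x := Real.log_le_log two_pos (by linarith)
      linarith
    have hmain1 : ‖∑ n ∈ Finset.Ioc Y X, a n‖ * Real.log x ^ m ≤
        4 ^ m * 2 ^ m * (2 * C2) * (M + 1) * x := by
      have h1 : B ≤ 2 * (C2 * (M + 1) * x * (2 ^ m * Real.log x ^ m)) := by
        rw [hBdef, ← mul_pow]
        have hC2' : 0 ≤ C2 := by rw [hC2]; positivity
        gcongr
      calc ‖∑ n ∈ Finset.Ioc Y X, a n‖ * Real.log x ^ m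
          ≤ (B * w (Y+1)) * Real.log x ^ m := by gcongr
        _ ≤ ((2 * (C2 * (M + 1) * x * (2 ^ m * Real.log x ^ m))) *
            (4 ^ m * (Real.log x ^ (2*m))⁻¹)) * Real.log x ^ m := by
            have := hw0 (Y+1) (by omega)
            have hC2' : 0 ≤ C2 := by rw [hC2]; positivity
            gcongr
        _ = 4 ^ m * 2 ^ m * (2 * C2) * (M + 1) * x := by
            rw [pow_mul', pow_two]
            field_simp
    have hmain2 : ‖∑ n ∈ Finset.Icc 1 Y, a n‖ * Real.log x ^ m ≤ 2 ^ m * C1 * x := by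
      have h1 : ‖∑ n ∈ Finset.Icc 1 Y, a n‖ ≤ Real.sqrt x :=
        (htriv _).trans (Nat.floor_le (Real.sqrt_nonneg _))
      have h2 : Real.log x ^ m ≤ 2 ^ m * C1 * Real.sqrt x := by
        have h3 := hlog (Real.sqrt x) (by linarith)
        rw [Real.log_sqrt hx0.le] at h3
        have h4 : 1 ≤ Real.log x / 2 := by
          have h9 : Real.log 9 ≤ Real.log x := Real.log_le_log (by norm_num) hx9
          have h10 : Real.log 9 = 2 * Real.log 3 := by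
            rw [show (9:ℝ) = 3 ^ 2 by norm_num, Real.log_pow]; push_cast; ring
          have h11 : 1 ≤ Real.log 3 := by
            rw [Real.le_log_iff_exp_le (by norm_num)]
            have := Real.exp_one_lt_d9
            linarith
          linarith
        have h5 : (Real.log x / 2) ^ m ≤ (Real.log x / 2) ^ (2*m) := pow_le_pow_right₀ h4 (by omega)
        calc Real.log x ^ m = 2 ^ m * (Real.log x / 2) ^ m := by rw [← mul_pow]; congr 1; ring
          _ ≤ 2 ^ m * (C1 * Real.sqrt x) := by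
              gcongr
              exact h5.trans h3
          _ = _ := by ring
      calc ‖∑ n ∈ Finset.Icc 1 Y, a n‖ * Real.log x ^ m
          ≤ Real.sqrt x * (2 ^ m * C1 * Real.sqrt x) := by gcongr
        _ = 2 ^ m * C1 * (Real.sqrt x * Real.sqrt x) := by ring
        _ = 2 ^ m * C1 * x := by rw [Real.mul_self_sqrt hx0.le]
    have e3 : ∑ n ∈ Finset.Icc 1 X, a n = ∑ n ∈ Finset.Icc 1 Y, a n + ∑ n ∈ Finset.Ioc Y X, a n := by
      have : Finset.Icc 1 X = Finset.Icc 1 Y ∪ Finset.Ioc Y X := by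
        ext n
        simp only [Finset.mem_union, Finset.mem_Icc, Finset.mem_Ioc]
        omega
      rw [this, Finset.sum_union]
      rw [Finset.disjoint_left]
      intro n hn hn'
      simp only [Finset.mem_Icc, Finset.mem_Ioc] at hn hn'
      omega
    rw [e3]
    calc ‖∑ n ∈ Finset.Icc 1 Y, a n + ∑ n ∈ Finset.Ioc Y X, a n‖ * Real.log x ^ m
        ≤ (‖∑ n ∈ Finset.Icc 1 Y, a n‖ + ‖∑ n ∈ Finset.Ioc Y X, a n‖) * Real.log x ^ m := by
          gcongr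
          exact norm_add_le _ _
      _ ≤ 2 ^ m * C1 * x + 4 ^ m * 2 ^ m * (2 * C2) * (M + 1) * x := by
          rw [add_mul]; exact add_le_add hmain2 hmain1
      _ ≤ (20 + 20 * C1 + 4 ^ m * 2 ^ m * (2 * (9 * C2)) + 8 ^ m * C1 * 10) * (M + 1) * x := by
          have h1 : (2:ℝ) ^ m ≤ 8 ^ m := by gcongr; norm_num
          have hC2' : 0 ≤ C2 := by rw [hC2]; positivity
          have h2 : 2 ^ m * C1 * x ≤ 8 ^ m * C1 * 10 * (M + 1) * x := by
            have : 2 ^ m * C1 * 1 * 1 ≤ 8 ^ m * C1 * 10 * (M + 1) := by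
              gcongr
              · norm_num
              · linarith
            nlinarith
          have h3 : 4 ^ m * 2 ^ m * (2 * C2) * (M + 1) * x ≤
              4 ^ m * 2 ^ m * (2 * (9 * C2)) * (M + 1) * x := by
            gcongr
            linarith
          have h4 : 0 ≤ (20 + 20 * C1) * (M + 1) * x := by positivity
          nlinarith

end Pool.Agent.ANT
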