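import Pool.Agent.Lib.ANT.LLower
import Pool.Agent.Lib.ANT.Perron
import Pool.Agent.Lib.ANT.Unsmooth

open Complex MeasureTheory Set Filter Asymptotics Topology

namespace Pool.Agent.ANT

/-- Bounds for the derivatives of a reciprocal. -/
lemma recip_deriv_bound (k : ℕ) : ∃ C : ℝ, 0 < C ∧ ∀ (F L : ℂ → ℂ) (U : Set ℂ), IsOpen U →
    DifferentiableOn ℂ F U → DifferentiableOn ℂ L U → (∀ z ∈ U, F z * L z = 1) →
    ∀ s ∈ U, ∀ W : ℝ, 1 ≤ W → ‖F s‖ ≤ W →
    (∀ j : ℕ, ‖iteratedDeriv j L s‖ ≤ j.factorial * (48 * W) * (6 * W) ^ j) →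
    ‖iteratedDeriv k F s‖ ≤ C * W ^ (3 * k + 1) := by
  induction k using Nat.strong_induction_on with
  | _ k ih =>
    rcases Nat.eq_zero_or_pos k with rfl | hk
    · refine ⟨1, one_pos, ?_⟩
      intro F L U hU hF hL hFL s hs W hW hFs hLs
      simpa using hFs
    · choose! C hC using ih
      refine ⟨1 + ∑ i ∈ Finset.range k, (k.choose i : ℝ) * (C i * ((k - i).factorial * 48 * 6 ^ (k - i))),
        ?_, ?_⟩
      · have : 0 ≤ ∑ i ∈ Finset.range k, (k.choose i : ℝ) * (C i * ((k - i).factorial * 48 * 6 ^ (k - i))) := by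
          refine Finset.sum_nonneg fun i hi => ?_
          have := (hC i (Finset.mem_range.mp hi)).1
          positivity
        linarith
      intro F L U hU hF hL hFL s hs W hW hFs hLs
      have hFa : ContDiffAt ℂ k F s := (hF.analyticAt (hU.mem_nhds hs)).contDiffAt
      have hLa : ContDiffAt ℂ k L s := (hL.analyticAt (hU.mem_nhds hs)).contDiffAt
      have h1 : iteratedDeriv k (F * L) s = 0 := by
        have heq : (F * L) =ᶠ[𝓝 s] (fun _ => (1:ℂ)) := by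
          filter_upwards [hU.mem_nhds hs] with z hz
          exact hFL z hz
        rw [heq.iteratedDeriv_eq]
        rw [iteratedDeriv_const, if_neg (by omega)]
      rw [iteratedDeriv_mul hFa hLa, Finset.sum_range_succ] at h1
      simp only [Nat.choose_self, Nat.cast_one, one_mul, Nat.sub_self, iteratedDeriv_zero] at h1
      have h2 : iteratedDeriv k F s = -(F s) * ∑ i ∈ Finset.range k,
          (k.choose i : ℂ) * iteratedDeriv i F s * iteratedDeriv (k - i) L s := by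
        have h3 := hFL s hs
        have h4 : iteratedDeriv k F s * L s = -∑ i ∈ Finset.range k,
          (k.choose i : ℂ) * iteratedDeriv i F s * iteratedDeriv (k - i) L s := by
          linear_combination h1
        calc iteratedDeriv k F s = iteratedDeriv k F s * (F s * L s) := by rw [h3, mul_one]
          _ = F s * (iteratedDeriv k F s * L s) := by ring
          _ = _ := by rw [h4]; ring
      rw [h2, norm_mul, norm_neg]
      have h5 : ‖∑ i ∈ Finset.range k,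
          (k.choose i : ℂ) * iteratedDeriv i F s * iteratedDeriv (k - i) L s‖ ≤
          ∑ i ∈ Finset.range k, (k.choose i : ℝ) * (C i * ((k - i).factorial * 48 * 6 ^ (k - i))) *
            W ^ (3 * k) := by
        refine (norm_sum_le _ _).trans (Finset.sum_le_sum fun i hi => ?_)
        have hik : i < k := Finset.mem_range.mp hi
        have h6 := (hC i hik).2 F L U hU hF hL hFL s hs W hW hFs hLs
        have h7 := hLs (k - i)
        have h8 := (hC i hik).1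
        rw [norm_mul, norm_mul, Complex.norm_natCast]
        calc (k.choose i : ℝ) * ‖iteratedDeriv i F s‖ * ‖iteratedDeriv (k - i) L s‖
            ≤ (k.choose i : ℝ) * (C i * W ^ (3 * i + 1)) *
              ((k - i).factorial * (48 * W) * (6 * W) ^ (k - i)) := by gcongr
          _ = (k.choose i : ℝ) * (C i * ((k - i).factorial * 48 * 6 ^ (k - i))) *
              W ^ ((3 * i + 1) + 1 + (k - i)) := by
              rw [mul_pow, pow_add, pow_add]; ring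
          _ ≤ _ := by
              gcongr
              omega
      calc ‖F s‖ * ‖_‖ ≤ W * ∑ i ∈ Finset.range k,
            (k.choose i : ℝ) * (C i * ((k - i).factorial * 48 * 6 ^ (k - i))) * W ^ (3 * k) := by
            gcongr
        _ = (∑ i ∈ Finset.range k, (k.choose i : ℝ) * (C i * ((k - i).factorial * 48 * 6 ^ (k - i)))) *
            W ^ (3 * k + 1) := by
            rw [← Finset.sum_mul, pow_succ]; ring
        _ ≤ _ := by
            gcongr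
            linarith

/-- iterating `logMul`. -/
lemma logMul_iterate (f : ℕ → ℂ) (k n : ℕ) :
    (LSeries.logMul^[k] f) n = (Complex.log n) ^ k * f n := by
  induction k with
  | zero => simp
  | succ k ih =>
    rw [Function.iterate_succ_apply', LSeries.logMul, ih, pow_succ]
    ring

lemma logMul_iterate' (f : ℕ → ℂ) (k : ℕ) :
    (LSeries.logMul^[k] f) = fun n => f n * ((Real.log n ^ k : ℝ) : ℂ) := by
  ext n
  rw [logMul_iterate, ← Complex.natCast_log]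
  push_cast
  ring

lemma norm_LSeries_log_eq {f : ℕ → ℂ} (k : ℕ) {s : ℂ} (h : LSeries.abscissaOfAbsConv f < s.re) :
    ‖LSeries (fun n => f n * ((Real.log n ^ k : ℝ) : ℂ)) s‖ = ‖iteratedDeriv k (LSeries f) s‖ := by
  rw [LSeries_iteratedDeriv k h, logMul_iterate', norm_mul, norm_pow, norm_neg, norm_one, one_pow,
    one_mul]

/-- `Λ^m ≤ C q^ε (1+t²)^{1/4}`. -/
lemma Lam_pow_le (m : ℕ) {ε : ℝ} (hε : 0 < ε) : ∃ C : ℝ, 1 ≤ C ∧ ∀ (q : ℕ) [NeZero q] (t : ℝ),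
    Lam q t ^ m ≤ C * (q:ℝ) ^ ε * (1 + t ^ 2) ^ (1/4 : ℝ) := by
  rcases Nat.eq_zero_or_pos m with rfl | hm
  · refine ⟨1, le_rfl, fun q _ t => ?_⟩
    have hq : (1:ℝ) ≤ q := by exact_mod_cast Nat.pos_of_ne_zero (NeZero.ne q)
    have h1 : 1 ≤ (q:ℝ) ^ ε := Real.one_le_rpow hq hε.le
    have h2 : 1 ≤ (1 + t ^ 2) ^ (1/4 : ℝ) := Real.one_le_rpow (by nlinarith) (by norm_num)
    simp only [pow_zero, one_mul]
    nlinarith
  set a : ℝ := min ε (1/2) / m with ha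
  have hm' : (0:ℝ) < m := by exact_mod_cast hm
  have hmin : 0 < min ε (1/2) := lt_min hε (by norm_num)
  have ha0 : 0 < a := by positivity
  refine ⟨max 1 ((12 ^ a / a) ^ m), le_max_left _ _, fun q _ t => ?_⟩
  have hq : (1:ℝ) ≤ q := by exact_mod_cast Nat.pos_of_ne_zero (NeZero.ne q)
  have h1 : Lam q t ≤ (12 ^ a / a) * ((q:ℝ) ^ a * ((1 + t ^ 2) ^ (1/2 : ℝ)) ^ a) := by
    unfold Lam ell
    have h2 : |t| + 3 ≤ 4 * (1 + t ^ 2) ^ (1/2 : ℝ) := by
      rw [← Real.sqrt_eq_rpow]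
      have h3 : |t| ≤ Real.sqrt (1 + t^2) := by
        apply Real.le_sqrt_of_sq_le
        rw [sq_abs]; linarith
      have h4 : 1 ≤ Real.sqrt (1 + t^2) := by
        apply Real.le_sqrt_of_sq_le
        nlinarith
      linarith
    have h3 : 3 * (q:ℝ) * (|t| + 3) ≤ 12 * (q * (1 + t ^ 2) ^ (1/2 : ℝ)) := by
      calc 3 * (q:ℝ) * (|t| + 3) ≤ 3 * (q:ℝ) * (4 * (1 + t ^ 2) ^ (1/2 : ℝ)) := by gcongr
        _ = _ := by ring
    have hpos : 0 < 3 * (q:ℝ) * (|t| + 3) := by positivity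
    calc Real.log (3 * (q:ℝ) * (|t| + 3)) ≤ (3 * (q:ℝ) * (|t| + 3)) ^ a / a :=
          Real.log_le_rpow_div hpos.le ha0
      _ ≤ (12 * (q * (1 + t ^ 2) ^ (1/2 : ℝ))) ^ a / a := by gcongr
      _ = _ := by
          rw [Real.mul_rpow (by norm_num) (by positivity), Real.mul_rpow (by positivity) (by positivity)]
          ring
  have h0 : 0 ≤ Lam q t := by linarith [one_le_Lam q t]
  have e1 : ((q:ℝ) ^ a) ^ m = (q:ℝ) ^ (min ε (1/2)) := by
    rw [← Real.rpow_natCast, ← Real.rpow_mul (by linarith), ha]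
    congr 1; field_simp
  have e2 : (((1 + t ^ 2) ^ (1/2 : ℝ)) ^ a) ^ m = ((1 + t ^ 2) ^ (1/2 : ℝ)) ^ (min ε (1/2)) := by
    rw [← Real.rpow_natCast, ← Real.rpow_mul (by positivity), ha]
    congr 1; field_simp
  calc Lam q t ^ m ≤ ((12 ^ a / a) * ((q:ℝ) ^ a * ((1 + t ^ 2) ^ (1/2 : ℝ)) ^ a)) ^ m := by gcongr
    _ = (12 ^ a / a) ^ m * ((q:ℝ) ^ (min ε (1/2)) * ((1 + t ^ 2) ^ (1/2 : ℝ)) ^ (min ε (1/2))) := by
        rw [mul_pow, mul_pow, e1, e2]
    _ ≤ max 1 ((12 ^ a / a) ^ m) * ((q:ℝ) ^ ε * (1 + t ^ 2) ^ (1/4 : ℝ)) := by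
        have i1 : (q:ℝ) ^ (min ε (1/2)) ≤ (q:ℝ) ^ ε :=
          Real.rpow_le_rpow_of_exponent_le hq (min_le_left _ _)
        have i2 : ((1 + t ^ 2) ^ (1/2 : ℝ)) ^ (min ε (1/2)) ≤ (1 + t ^ 2) ^ (1/4 : ℝ) := by
          have : (1 + t ^ 2) ^ (1/4 : ℝ) = ((1 + t ^ 2) ^ (1/2 : ℝ)) ^ (1/2 : ℝ) := by
            rw [← Real.rpow_mul (by positivity)]; norm_num
          rw [this]
          apply Real.rpow_le_rpow_of_exponent_le _ (min_le_right _ _)
          exact Real.one_le_rpow (by nlinarith) (by norm_num)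
        have i3 : (12 ^ a / a) ^ m ≤ max 1 ((12 ^ a / a) ^ m) := le_max_right _ _
        gcongr
    _ = _ := by ring

/-- The coefficients `χ(n) μ(n)`. -/
noncomputable def cmu {q : ℕ} (χ : DirichletCharacter ℂ q) (n : ℕ) : ℂ :=
  χ n * ((ArithmeticFunction.moebius n : ℤ) : ℂ)

lemma norm_cmu_le {q : ℕ} (χ : DirichletCharacter ℂ q) (n : ℕ) : ‖cmu χ n‖ ≤ 1 := by
  unfold cmu
  rw [norm_mul]
  have h3 := χ.norm_le_one (n : ZMod q)
  have h4 : ‖((ArithmeticFunction.moebius n : ℤ) : ℂ)‖ ≤ 1 := by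
    rw [Complex.norm_intCast]
    exact_mod_cast ArithmeticFunction.abs_moebius_le_one
  calc _ ≤ (1:ℝ) * 1 := by gcongr
    _ = 1 := one_mul 1

lemma abscissa_le_one_of_bdd {f : ℕ → ℂ} (hf : ∀ n, ‖f n‖ ≤ 1) :
    LSeries.abscissaOfAbsConv f ≤ 1 :=
  LSeries.abscissaOfAbsConv_le_of_le_const ⟨1, fun n _ => hf n⟩

lemma abscissa_lt {f : ℕ → ℂ} (hf : ∀ n, ‖f n‖ ≤ 1) {s : ℂ} (hs : 1 < s.re) :
    LSeries.abscissaOfAbsConv f < s.re :=
  lt_of_le_of_lt (abscissa_le_one_of_bdd hf) (by exact_mod_cast hs)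

lemma isOpen_re_gt_one : IsOpen {z : ℂ | 1 < z.re} := isOpen_lt continuous_const continuous_re

lemma LSeries_diffOn_of_bdd {f : ℕ → ℂ} (hf : ∀ n, ‖f n‖ ≤ 1) :
    DifferentiableOn ℂ (LSeries f) {z : ℂ | 1 < z.re} :=
  (LSeries_differentiableOn f).mono fun _ hz => abscissa_lt hf hz

lemma LSeries_cmu_mul {q : ℕ} [NeZero q] (χ : DirichletCharacter ℂ q) {z : ℂ} (hz : 1 < z.re) :
    LSeries (cmu χ) z * LX χ z = 1 := by
  have h1 := DirichletCharacter.LSeries.mul_mu_eq_one χ hz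
  rw [LX_eq_LSeries χ hz, mul_comm]
  exact h1

/-- Bounds for `∑ χ(n) μ(n) (log n)^k n^{-s}`. -/
lemma Fk_bound (k : ℕ) {ε : ℝ} (hε : 0 < ε) : ∃ C : ℝ, 1 ≤ C ∧ ∀ (q : ℕ) [NeZero q]
    (χ : DirichletCharacter ℂ q), χ ≠ 1 → ∀ σ t : ℝ, 1 < σ → σ ≤ 2 →
    ‖LSeries (fun n => cmu χ n * ((Real.log n ^ k : ℝ) : ℂ)) (σ + t * I)‖ ≤
      C * (q:ℝ) ^ ε * (1 + t ^ 2) ^ (1/4 : ℝ) := by
  set ε1 : ℝ := ε / (2 * (3 * k + 1)) with hε1
  have hε10 : 0 < ε1 := by positivity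
  obtain ⟨C1, hC1, hlow⟩ := LX_lower hε10
  obtain ⟨C2, hC2, hrec⟩ := recip_deriv_bound k
  obtain ⟨C3, hC3, hLam⟩ := Lam_pow_le (14 * (3 * k + 1)) (half_pos hε)
  refine ⟨max 1 (C2 * C1 ^ (3*k+1) * C3), le_max_left _ _, fun q _ χ hχ σ t hσ hσ2 => ?_⟩
  have hq : (1:ℝ) ≤ q := by exact_mod_cast Nat.pos_of_ne_zero (NeZero.ne q)
  set s : ℂ := σ + t * I with hs
  have hre : s.re = σ := by simp [hs]
  have him : s.im = t := by simp [hs]
  have hs1 : 1 < s.re := by rw [hre]; exact hσ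
  have hs2 : s.re ≤ 2 := by rw [hre]; exact hσ2
  rw [norm_LSeries_log_eq k (abscissa_lt (norm_cmu_le χ) hs1)]
  set W : ℝ := C1 * (q:ℝ) ^ ε1 * Lam q t ^ 14 with hW
  have hΛ : 1 ≤ Lam q t := one_le_Lam q t
  have hqε : 1 ≤ (q:ℝ) ^ ε1 := Real.one_le_rpow hq hε10.le
  have hΛW : Lam q t ≤ W := by
    have h1 : Lam q t ≤ Lam q t ^ 14 := by
      calc Lam q t = Lam q t ^ 1 := (pow_one _).symm
        _ ≤ _ := pow_le_pow_right₀ hΛ (by norm_num)
    have h2 : 1 ≤ C1 * (q:ℝ) ^ ε1 := by nlinarith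
    rw [hW]
    nlinarith [pow_pos (by linarith : 0 < Lam q t) 14]
  have hW1 : 1 ≤ W := hΛ.trans hΛW
  have hFs : ‖LSeries (cmu χ) s‖ ≤ W := by
    have h1 := hlow q χ hχ s hs1 hs2
    rw [him] at h1
    have h2 := LSeries_cmu_mul χ hs1
    have h3 := congrArg norm h2
    rw [norm_mul, norm_one] at h3
    calc ‖LSeries (cmu χ) s‖ = ‖LSeries (cmu χ) s‖ * 1 := (mul_one _).symm
      _ ≤ ‖LSeries (cmu χ) s‖ * (W * ‖LX χ s‖) := by gcongr
      _ = W * (‖LSeries (cmu χ) s‖ * ‖LX χ s‖) := by ring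
      _ = W := by rw [h3, mul_one]
  have hLs : ∀ j : ℕ, ‖iteratedDeriv j (LX χ) s‖ ≤ j.factorial * (48 * W) * (6 * W) ^ j := by
    intro j
    have h1 := norm_iteratedDeriv_LX_le hχ hs1.le j
    rw [him] at h1
    refine h1.trans ?_
    gcongr
  have hmain := hrec (LSeries (cmu χ)) (LX χ) {z | 1 < z.re} isOpen_re_gt_one
    (LSeries_diffOn_of_bdd (norm_cmu_le χ))
    ((LX_diffOn hχ).mono fun z hz => by
      simp only [mem_ofPred_eq] at *
      linarith)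
    (fun z hz => LSeries_cmu_mul χ hz) s hs1 W hW1 hFs hLs
  have hqpow : ((q:ℝ) ^ ε1) ^ (3 * k + 1) = (q:ℝ) ^ (ε/2) := by
    rw [← Real.rpow_natCast, ← Real.rpow_mul (by linarith), hε1]
    congr 1; push_cast; field_simp
  have hC1' : 0 < C1 := by linarith
  calc ‖iteratedDeriv k (LSeries (cmu χ)) s‖ ≤ C2 * W ^ (3 * k + 1) := hmain
    _ = C2 * (C1 ^ (3*k+1) * (q:ℝ) ^ (ε/2) * Lam q t ^ (14 * (3 * k + 1))) := by
        rw [hW, mul_pow, mul_pow, hqpow, pow_mul]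
    _ ≤ C2 * (C1 ^ (3*k+1) * (q:ℝ) ^ (ε/2) * (C3 * (q:ℝ) ^ (ε/2) * (1 + t ^ 2) ^ (1/4 : ℝ))) := by
        gcongr
        exact hLam q t
    _ = (C2 * C1 ^ (3*k+1) * C3) * (q:ℝ) ^ ε * (1 + t ^ 2) ^ (1/4 : ℝ) := by
        have : (q:ℝ) ^ ε = (q:ℝ) ^ (ε/2) * (q:ℝ) ^ (ε/2) := by
          rw [← Real.rpow_add (by linarith)]; ring_nf
        rw [this]; ring
    _ ≤ _ := by
        gcongr
        exact le_max_right _ _

lemma summable_log_of_bdd {f : ℕ → ℂ} (hf : ∀ n, ‖f n‖ ≤ 1) (k : ℕ) {s : ℂ} (hs : 1 < s.re) :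
    LSeriesSummable (fun n => f n * ((Real.log n ^ k : ℝ) : ℂ)) s := by
  rw [← logMul_iterate']
  apply LSeriesSummable_of_abscissaOfAbsConv_lt_re
  rw [LSeries.absicssaOfAbsConv_logPowMul]
  exact abscissa_lt hf hs

/-- General transfer: bounds on the line give bounds on sums. -/
lemma sum_bound_of_line (m : ℕ) : ∃ C : ℝ, 0 < C ∧ ∀ (f : ℕ → ℂ) (B : ℝ), (∀ n, ‖f n‖ ≤ 1) →
    (∀ σ t : ℝ, 1 < σ → σ ≤ 2 → ‖LSeries (fun n => f n * ((Real.log n ^ (2*m) : ℝ) : ℂ)) (σ + t * I)‖ ≤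
      B * (1 + t ^ 2) ^ (1/4 : ℝ)) →
    ∀ x : ℝ, 3 ≤ x → ‖∑ n ∈ Finset.Icc 1 ⌊x⌋₊, f n‖ ≤ C * (B + 1) * x / Real.log x ^ m := by
  obtain ⟨C, hC, hmain⟩ := sum_le_of_riesz m
  refine ⟨C * (3 * Kr + 1), ?_, fun f B hf hB x hx => ?_⟩
  · have := Kr_nonneg
    positivity
  have hB0 : 0 ≤ B := by
    have := (norm_nonneg _).trans (hB 2 0 (by norm_num) le_rfl)
    simpa using this
  have hK := Kr_nonneg
  have hx0 : 0 < x := by linarith
  have hlogx : 1 ≤ Real.log x := by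
    rw [Real.le_log_iff_exp_le hx0]
    have := Real.exp_one_lt_d9
    linarith
  have h1 := hmain f (3 * Kr * B) hf (fun y hy => ?_) x hx
  · refine h1.trans ?_
    have h2 : C * (3 * Kr * B + 1) ≤ C * (3 * Kr + 1) * (B + 1) := by
      have : 3 * Kr * B + 1 ≤ (3 * Kr + 1) * (B + 1) := by nlinarith
      calc C * (3 * Kr * B + 1) ≤ C * ((3 * Kr + 1) * (B + 1)) := by gcongr
        _ = _ := by ring
    gcongr
  · -- Riesz bound at y
    have hy0 : 0 < y := by linarith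
    have hlogy : 1 ≤ Real.log y := by
      rw [Real.le_log_iff_exp_le hy0]
      have := Real.exp_one_lt_d9
      linarith
    set σ : ℝ := 1 + 1 / Real.log y with hσ
    have hσ1 : 1 < σ := by
      have : 0 < 1 / Real.log y := by positivity
      linarith
    have hσ2 : σ ≤ 2 := by
      have : 1 / Real.log y ≤ 1 := by
        rw [div_le_one (by linarith)]; exact hlogy
      linarith
    have h3 := riesz_bound (a := fun n => f n * ((Real.log n ^ (2*m) : ℝ) : ℂ)) (B := B) hσ1.le hy0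
      (summable_log_of_bdd hf (2*m) (by simpa using hσ1)) (fun t => hB σ t hσ1 hσ2)
    refine h3.trans ?_
    have h4 : y ^ σ ≤ 3 * y := by
      rw [hσ, Real.rpow_add hy0, Real.rpow_one, mul_comm]
      have : y ^ (1 / Real.log y) = Real.exp 1 := by
        rw [Real.rpow_def_of_pos hy0, mul_one_div_cancel (by linarith)]
      rw [this]
      have := Real.exp_one_lt_d9
      gcongr
      linarith
    calc Kr * B * y ^ σ ≤ Kr * B * (3 * y) := by gcongr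
      _ = 3 * Kr * B * y := by ring

/-- **Siegel–Walfisz for the Möbius function, nonprincipal characters.** -/
theorem siegel_walfisz_mu (m : ℕ) {ε : ℝ} (hε : 0 < ε) : ∃ C : ℝ, 0 < C ∧ ∀ (q : ℕ) [NeZero q]
    (χ : DirichletCharacter ℂ q), χ ≠ 1 → ∀ x : ℝ, 3 ≤ x →
    ‖∑ n ∈ Finset.Icc 1 ⌊x⌋₊, cmu χ n‖ ≤ C * (q:ℝ) ^ ε * x / Real.log x ^ m := by
  obtain ⟨C1, hC1, hsum⟩ := sum_bound_of_line m
  obtain ⟨C2, hC2, hline⟩ := Fk_bound (2*m) hε
  refine ⟨C1 * (2 * C2), by positivity, fun q _ χ hχ x hx => ?_⟩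
  have hq : (1:ℝ) ≤ q := by exact_mod_cast Nat.pos_of_ne_zero (NeZero.ne q)
  have h1 := hsum (cmu χ) (C2 * (q:ℝ) ^ ε) (norm_cmu_le χ) (fun σ t h1 h2 => hline q χ hχ σ t h1 h2)
    x hx
  refine h1.trans ?_
  have hlogx : 1 ≤ Real.log x := by
    rw [Real.le_log_iff_exp_le (by linarith)]
    have := Real.exp_one_lt_d9
    linarith
  have hqε : 1 ≤ (q:ℝ) ^ ε := Real.one_le_rpow hq hε.le
  have h2 : C1 * (C2 * (q:ℝ) ^ ε + 1) ≤ C1 * (2 * C2) * (q:ℝ) ^ ε := by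
    have : C2 * (q:ℝ) ^ ε + 1 ≤ 2 * C2 * (q:ℝ) ^ ε := by nlinarith
    nlinarith
  gcongr

end Pool.Agent.ANT
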