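import Pool.Agent.Lib.ANT.FourFold

open Complex MeasureTheory Set Filter Asymptotics Topology
open scoped ComplexOrder

namespace Pool.Agent.ANT

open DirichletCharacter ArithmeticFunction

/-- elementary lower bound for the Euler factors quotient -/
lemma prod_quot_ge {ε : ℝ} (hε : 0 < ε) : ∃ c : ℝ, 0 < c ∧ ∀ n : ℕ, n ≠ 0 →
    c * (n:ℝ) ^ (-ε) ≤ ∏ p ∈ n.primeFactors, ((1 - (p:ℝ)⁻¹) / (1 + (p:ℝ)⁻¹)) := by
  obtain ⟨P0, hP0⟩ : ∃ P0 : ℕ, 1 ≤ P0 ∧ (P0:ℝ) ^ (-ε) ≤ 1/3 := by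
    have h1 : Tendsto (fun n : ℕ => (n:ℝ) ^ (-ε)) atTop (𝓝 0) :=
      (tendsto_rpow_neg_atTop hε).comp tendsto_natCast_atTop_atTop
    have h2 : ∀ᶠ n : ℕ in atTop, (n:ℝ) ^ (-ε) < 1/3 := h1.eventually_lt_const (by norm_num)
    obtain ⟨n, hn⟩ := (h2.and (eventually_ge_atTop 1)).exists
    exact ⟨n, hn.2, hn.1.le⟩
  refine ⟨(1/3) ^ P0, by positivity, fun n hn => ?_⟩
  have ht : ∀ p ∈ n.primeFactors, (if p < P0 then (1/3:ℝ) else 1) * (p:ℝ) ^ (-ε) ≤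
      (1 - (p:ℝ)⁻¹) / (1 + (p:ℝ)⁻¹) := by
    intro p hp
    have hp2 : (2:ℝ) ≤ p := by exact_mod_cast (Nat.prime_of_mem_primeFactors hp).two_le
    have hp0 : (0:ℝ) < p := by linarith
    have h13 : (1/3:ℝ) ≤ (1 - (p:ℝ)⁻¹) / (1 + (p:ℝ)⁻¹) := by
      rw [le_div_iff₀ (by positivity)]
      have : (p:ℝ)⁻¹ ≤ 1/2 := by
        rw [inv_le_comm₀ hp0 (by norm_num)]; linarith
      linarith
    split_ifs with h
    · have : (p:ℝ) ^ (-ε) ≤ 1 := Real.rpow_le_one_of_one_le_of_nonpos (by linarith) (by linarith)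
      nlinarith
    · rw [one_mul]
      push Not at h
      have : (p:ℝ) ^ (-ε) ≤ (P0:ℝ) ^ (-ε) := by
        apply Real.rpow_le_rpow_of_nonpos
        · exact_mod_cast hP0.1
        · exact_mod_cast h
        · linarith
      linarith [hP0.2]
  refine le_trans ?_ (Finset.prod_le_prod (fun p _ => ?_) ht)
  · rw [Finset.prod_mul_distrib]
    have h1 : ((1:ℝ)/3) ^ P0 ≤ ∏ p ∈ n.primeFactors, (if p < P0 then (1/3:ℝ) else 1) := by
      rw [Finset.prod_ite, Finset.prod_const, Finset.prod_const_one, mul_one]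
      apply pow_le_pow_of_le_one (by norm_num) (by norm_num)
      calc (n.primeFactors.filter (· < P0)).card ≤ (Finset.range P0).card := by
            apply Finset.card_le_card
            intro p hp
            rw [Finset.mem_filter] at hp
            exact Finset.mem_range.mpr hp.2
        _ = P0 := Finset.card_range _
    have h2 : (n:ℝ) ^ (-ε) ≤ ∏ p ∈ n.primeFactors, (p:ℝ) ^ (-ε) := by
      rw [Real.finset_prod_rpow _ _ (fun p _ => by positivity)]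
      apply Real.rpow_le_rpow_of_nonpos
      · refine Finset.prod_pos fun p hp => ?_
        exact_mod_cast (Nat.prime_of_mem_primeFactors hp).pos
      · have := Nat.le_of_dvd (Nat.pos_of_ne_zero hn) (Nat.prod_primeFactors_dvd n)
        rw [← Nat.cast_prod]
        exact Nat.cast_le.mpr this
      · linarith
    exact mul_le_mul h1 h2 (by positivity) (Finset.prod_nonneg fun p _ => by split_ifs <;> norm_num)
  · split_ifs <;> positivity

lemma norm_euler_ge {q : ℕ} (χ : DirichletCharacter ℂ q) {p : ℕ} (_hp : p.Prime) :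
    1 - (p:ℝ)⁻¹ ≤ ‖1 - χ p * (p:ℂ) ^ (-(1:ℂ))‖ := by
  have h1 : ‖χ p * (p:ℂ) ^ (-(1:ℂ))‖ ≤ (p:ℝ)⁻¹ := by
    rw [norm_mul, cpow_neg_one, norm_inv, Complex.norm_natCast]
    exact mul_le_of_le_one_left (by positivity) (χ.norm_le_one _)
  have h2 := norm_sub_norm_le (1:ℂ) (χ p * (p:ℂ) ^ (-(1:ℂ)))
  rw [norm_one] at h2
  linarith

lemma norm_euler_le {q : ℕ} (χ : DirichletCharacter ℂ q) {p : ℕ} (_hp : p.Prime) :
    ‖1 - χ p * (p:ℂ) ^ (-(1:ℂ))‖ ≤ 1 + (p:ℝ)⁻¹ := by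
  have h1 : ‖χ p * (p:ℂ) ^ (-(1:ℂ))‖ ≤ (p:ℝ)⁻¹ := by
    rw [norm_mul, cpow_neg_one, norm_inv, Complex.norm_natCast]
    exact mul_le_of_le_one_left (by positivity) (χ.norm_le_one _)
  have h2 := norm_sub_le (1:ℂ) (χ p * (p:ℂ) ^ (-(1:ℂ)))
  rw [norm_one] at h2
  linarith

/-- Comparison when both characters are induced by the same one. -/
lemma compare_same {q1 q : ℕ} [NeZero q1] [NeZero q] {χ1 : DirichletCharacter ℂ q1}
    {χ : DirichletCharacter ℂ q} (h2 : χ ^ 2 = 1) (h1' : χ1 ≠ 1)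
    (h2' : χ ≠ 1) (hpsi : psi χ1 χ = 1) :
    ‖LX χ1 1‖ * ∏ p ∈ (q1 * q).primeFactors, ((1 - (p:ℝ)⁻¹) / (1 + (p:ℝ)⁻¹)) ≤ ‖LX χ 1‖ := by
  have hcl : changeLevel (dvd_mul_right q1 q) χ1 = changeLevel (dvd_mul_left q q1) χ := by
    have h3 : (changeLevel (dvd_mul_left q q1) χ) ^ 2 = 1 := by rw [← map_pow, h2, map_one]
    have h4 : changeLevel (dvd_mul_right q1 q) χ1 * changeLevel (dvd_mul_left q q1) χ = 1 := hpsi
    calc changeLevel (dvd_mul_right q1 q) χ1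
        = changeLevel (dvd_mul_right q1 q) χ1 * (changeLevel (dvd_mul_left q q1) χ) ^ 2 := by
          rw [h3, mul_one]
      _ = (changeLevel (dvd_mul_right q1 q) χ1 * changeLevel (dvd_mul_left q q1) χ) *
          changeLevel (dvd_mul_left q q1) χ := by rw [pow_two, mul_assoc]
      _ = changeLevel (dvd_mul_left q q1) χ := by rw [h4, one_mul]
  have e1 := LFunction_changeLevel (dvd_mul_right q1 q) χ1 (s := 1) (Or.inl h1')
  have e2 := LFunction_changeLevel (dvd_mul_left q q1) χ (s := 1) (Or.inl h2')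
  rw [hcl, e2, ← LX_one_eq h1', ← LX_one_eq h2'] at e1
  have e3 : ‖LX χ 1‖ * ∏ p ∈ (q1 * q).primeFactors, ‖1 - χ p * (p:ℂ) ^ (-(1:ℂ))‖ =
      ‖LX χ1 1‖ * ∏ p ∈ (q1 * q).primeFactors, ‖1 - χ1 p * (p:ℂ) ^ (-(1:ℂ))‖ := by
    rw [← norm_prod, ← norm_prod, ← norm_mul, ← norm_mul, e1]
  have hprime : ∀ p ∈ (q1 * q).primeFactors, p.Prime := fun p hp => Nat.prime_of_mem_primeFactors hp
  have hpos : ∀ p ∈ (q1 * q).primeFactors, 0 < 1 - (p:ℝ)⁻¹ := by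
    intro p hp
    have : (2:ℝ) ≤ p := by exact_mod_cast (hprime p hp).two_le
    have : (p:ℝ)⁻¹ ≤ 1/2 := by
      rw [inv_le_comm₀ (by linarith) (by norm_num)]; linarith
    linarith
  have f1 : ∏ p ∈ (q1 * q).primeFactors, (1 - (p:ℝ)⁻¹) ≤
      ∏ p ∈ (q1 * q).primeFactors, ‖1 - χ1 p * (p:ℂ) ^ (-(1:ℂ))‖ :=
    Finset.prod_le_prod (fun p hp => (hpos p hp).le) (fun p hp => norm_euler_ge χ1 (hprime p hp))
  have f2 : ∏ p ∈ (q1 * q).primeFactors, ‖1 - χ p * (p:ℂ) ^ (-(1:ℂ))‖ ≤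
      ∏ p ∈ (q1 * q).primeFactors, (1 + (p:ℝ)⁻¹) :=
    Finset.prod_le_prod (fun p _ => norm_nonneg _) (fun p hp => norm_euler_le χ (hprime p hp))
  rw [Finset.prod_div_distrib, ← mul_div_assoc, div_le_iff₀ (Finset.prod_pos fun p _ => by positivity)]
  calc ‖LX χ1 1‖ * ∏ p ∈ (q1 * q).primeFactors, (1 - (p:ℝ)⁻¹)
      ≤ ‖LX χ1 1‖ * ∏ p ∈ (q1 * q).primeFactors, ‖1 - χ1 p * (p:ℂ) ^ (-(1:ℂ))‖ := by gcongr
    _ = ‖LX χ 1‖ * ∏ p ∈ (q1 * q).primeFactors, ‖1 - χ p * (p:ℂ) ^ (-(1:ℂ))‖ := e3.symm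
    _ ≤ ‖LX χ 1‖ * ∏ p ∈ (q1 * q).primeFactors, (1 + (p:ℝ)⁻¹) := by gcongr

lemma LX_one_eq_re {q : ℕ} [NeZero q] {χ : DirichletCharacter ℂ q} (hχ : χ ^ 2 = 1)
    (hχ1 : χ ≠ 1) : LX χ 1 = (((LX χ 1).re : ℝ) : ℂ) := by
  apply eq_ofReal_of_im
  have := LX_real hχ hχ1 1
  simpa using this

lemma norm_LX_one {q : ℕ} [NeZero q] {χ : DirichletCharacter ℂ q} (hχ : χ ^ 2 = 1)
    (hχ1 : χ ≠ 1) : ‖LX χ 1‖ = (LX χ 1).re := by
  rw [LX_one_eq_re hχ hχ1, Complex.norm_real, Real.norm_of_nonneg (LX_one_pos hχ hχ1).le, ofReal_re]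

lemma sphere_facts {z : ℂ} (hz : z ∈ Metric.sphere (2:ℂ) (3/2)) : 1/2 ≤ z.re ∧ ‖z‖ ≤ 7/2 := by
  rw [mem_sphere_iff_norm] at hz
  constructor
  · have h1 := (Complex.abs_re_le_norm (z - 2))
    rw [hz] at h1
    simp only [sub_re, re_ofNat] at h1
    rw [abs_le] at h1
    linarith [h1.1]
  · have : z = (z - 2) + 2 := by ring
    calc ‖z‖ = ‖(z - 2) + 2‖ := by rw [← this]
      _ ≤ ‖z - 2‖ + ‖(2:ℂ)‖ := norm_add_le _ _
      _ = 7/2 := by rw [hz]; norm_num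

lemma LX_diffOn {q : ℕ} [NeZero q] {χ : DirichletCharacter ℂ q} (hχ1 : χ ≠ 1) :
    DifferentiableOn ℂ (LX χ) {z | 0 < z.re} := fun _ hz =>
  (LX_differentiableAt χ hz (Or.inl hχ1)).differentiableWithinAt

lemma LX_one_re_le {q : ℕ} [NeZero q] {χ : DirichletCharacter ℂ q} (hχ1 : χ ≠ 1) :
    (LX χ 1).re ≤ 21 * q :=
  (Complex.re_le_norm _).trans (norm_LX_le_mul hχ1 (by norm_num) (by norm_num))

/-- two-factor lower bound -/
lemma siegel_two {q : ℕ} [NeZero q] {χ : DirichletCharacter ℂ q} (hχ : χ ^ 2 = 1)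
    (hχ1 : χ ≠ 1) {s : ℝ} (hs : 7/8 ≤ s) (hs1 : s < 1) (hL : 0 ≤ (LX χ s).re) :
    (1 - s) / 6 ≤ (LX χ 1).re * (128 * (21 * q)) ^ (4 * (1 - s)) := by
  have hq : (1:ℝ) ≤ q := by exact_mod_cast Nat.pos_of_ne_zero (NeZero.ne q)
  refine siegel_core (LX_diffOn hχ1) (a := fun n => χ.zetaMul n)
    (fun n => DirichletCharacter.zetaMul_nonneg hχ n) (zetaMul_one χ) (abscissa_zetaMul_le χ)
    (fun z hz => LSeries_zetaMul χ hz) (by linarith)
    (fun z hz => norm_LX_le_mul hχ1 (sphere_facts hz).1 (sphere_facts hz).2)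
    (LX_one_eq_re hχ hχ1) (LX_one_pos hχ hχ1).le (LX_one_re_le hχ1) hs hs1 ?_
  obtain ⟨r, hr, hr'⟩ := ZX_real_neg (by linarith : 0 < s) hs1
  rw [hr', re_ofReal_mul]
  exact mul_nonpos_of_nonpos_of_nonneg hr.le hL

/-- four-factor lower bound at a real zero -/
lemma siegel_four {q1 q : ℕ} [NeZero q1] [NeZero q] {χ1 : DirichletCharacter ℂ q1}
    {χ : DirichletCharacter ℂ q} (h1 : χ1 ^ 2 = 1) (h2 : χ ^ 2 = 1) (h1' : χ1 ≠ 1)
    (h2' : χ ≠ 1) (hpsi : psi χ1 χ ≠ 1) {s : ℝ} (hs : 7/8 ≤ s) (hs1 : s < 1)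
    (hL : LX χ1 s = 0) :
    (1 - s) / 6 ≤ ((LX χ1 1).re * (LX χ 1).re * (LX (psi χ1 χ) 1).re) *
      (128 * (21 * q1 * (21 * q) * (21 * (q1 * q)))) ^ (4 * (1 - s)) := by
  have hq1 : (1:ℝ) ≤ q1 := by exact_mod_cast Nat.pos_of_ne_zero (NeZero.ne q1)
  have hq : (1:ℝ) ≤ q := by exact_mod_cast Nat.pos_of_ne_zero (NeZero.ne q)
  have hps2 := psi_sq h1 h2
  have b3 : ∀ z : ℂ, 1/2 ≤ z.re → ‖z‖ ≤ 7/2 → ‖LX (psi χ1 χ) z‖ ≤ 21 * (q1 * q) := by
    intro z hz hz'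
    have := norm_LX_le_mul hpsi hz hz'
    push_cast at this
    exact this
  have p1 := LX_one_pos h1 h1'
  have p2 := LX_one_pos h2 h2'
  have p3 := LX_one_pos hps2 hpsi
  have c3 : (LX (psi χ1 χ) 1).re ≤ 21 * (q1 * q) :=
    (Complex.re_le_norm _).trans (b3 1 (by norm_num) (by norm_num))
  refine siegel_core (G := fun z => LX χ1 z * LX χ z * LX (psi χ1 χ) z)
    (((LX_diffOn h1').mul (LX_diffOn h2')).mul (LX_diffOn hpsi)) (a := fun n => four χ1 χ n)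
    (fun n => four_nonneg h1 h2 n) (four_one χ1 χ) (abscissa_four_le χ1 χ)
    (fun z hz => LSeries_four χ1 χ hz) ?_ ?_ ?_ ?_ ?_ hs hs1 ?_
  · calc (1:ℝ) ≤ (21 * 1) * (21 * 1) * (21 * (1 * 1)) := by norm_num
      _ ≤ _ := by gcongr
  · intro z hz
    obtain ⟨hz1, hz2⟩ := sphere_facts hz
    simp only [norm_mul]
    have i1 := norm_LX_le_mul h1' hz1 hz2
    have i2 := norm_LX_le_mul h2' hz1 hz2
    have i3 := b3 z hz1 hz2
    gcongr
  · rw [LX_one_eq_re h1 h1', LX_one_eq_re h2 h2', LX_one_eq_re hps2 hpsi]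
    push_cast
    simp
  · positivity
  · have j1 := LX_one_re_le h1'
    have j2 := LX_one_re_le h2'
    gcongr
  · simp [hL]

/-- **Siegel's theorem**. -/
theorem siegel {ε : ℝ} (hε : 0 < ε) : ∃ c : ℝ, 0 < c ∧ ∀ (q : ℕ) [NeZero q]
    (χ : DirichletCharacter ℂ q), χ ^ 2 = 1 → χ ≠ 1 → c * (q:ℝ) ^ (-ε) ≤ (LX χ 1).re := by
  set δ : ℝ := min (1/8) (ε/16) with hδ
  have hδ0 : 0 < δ := lt_min (by norm_num) (by linarith)
  have hδ8 : δ ≤ 1/8 := min_le_left _ _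
  have hδε : δ ≤ ε/16 := min_le_right _ _
  by_cases hcase : ∀ (q : ℕ) [NeZero q] (χ : DirichletCharacter ℂ q), χ ^ 2 = 1 → χ ≠ 1 →
      ∀ s : ℝ, 1 - δ < s → s < 1 → LX χ s ≠ 0
  · -- case I
    refine ⟨(δ/12) * (128 * 21 : ℝ) ^ (-(2*δ)), by positivity, fun q _ χ h2 h2' => ?_⟩
    have hq : (1:ℝ) ≤ q := by exact_mod_cast Nat.pos_of_ne_zero (NeZero.ne q)
    have hs : (7:ℝ)/8 ≤ 1 - δ/2 := by linarith
    have hs1 : 1 - δ/2 < 1 := by linarith
    have hL : 0 ≤ (LX χ ((1 - δ/2 : ℝ) : ℂ)).re :=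
      LX_nonneg_of_no_zero h2 h2' (a := 1 - δ) (by linarith) (hcase q χ h2 h2') (by linarith) hs1
    have := siegel_two h2 h2' hs hs1 hL
    have e1 : 1 - (1 - δ/2) = δ/2 := by ring
    have e2 : (4 * (δ/2)) = 2*δ := by ring
    have e3 : (128 * (21 * (q:ℝ))) = (128 * 21) * q := by ring
    rw [e1, e2, e3, Real.mul_rpow (by norm_num) (by linarith)] at this
    have h3 : (q:ℝ) ^ (-ε) ≤ (q:ℝ) ^ (-(2*δ)) := Real.rpow_le_rpow_of_exponent_le hq (by linarith)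
    have h4 : δ/12 * (128*21:ℝ) ^ (-(2*δ)) * (q:ℝ) ^ (-(2*δ)) ≤ (LX χ 1).re := by
      rw [Real.rpow_neg (by norm_num), Real.rpow_neg (by linarith)]
      have hp1 : 0 < (128*21:ℝ) ^ (2*δ) := by positivity
      have hp2 : 0 < (q:ℝ) ^ (2*δ) := by positivity
      rw [← div_eq_mul_inv, ← div_eq_mul_inv, div_div, div_le_iff₀ (by positivity)]
      linarith
    calc δ/12 * (128*21:ℝ) ^ (-(2*δ)) * (q:ℝ) ^ (-ε)
        ≤ δ/12 * (128*21:ℝ) ^ (-(2*δ)) * (q:ℝ) ^ (-(2*δ)) := by gcongr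
      _ ≤ _ := h4
  · -- case II
    push Not at hcase
    obtain ⟨q1, hq1inst, χ1, h1, h1', β, hβ, hβ1, hzero⟩ := hcase
    have hq1 : (1:ℝ) ≤ q1 := by exact_mod_cast Nat.pos_of_ne_zero (NeZero.ne q1)
    obtain ⟨c2, hc2, hprod⟩ := prod_quot_ge hε
    set η := 1 - β with hη
    have hη0 : 0 < η := by linarith
    have hηδ : η < δ := by linarith
    have hL1 := LX_one_pos h1 h1'
    -- constants
    set a : ℝ := ε/4 with ha
    have ha0 : 0 < a := by positivity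
    set K1 : ℝ := (LX χ1 1).re * (21 * ((9 * q1) ^ a / a)) * (128 * (21 * q1 * 21 * (21 * q1))) ^ (4 * η)
      with hK1
    have hK1pos : 0 < K1 := by positivity
    refine ⟨min ((η/6) / K1) ((LX χ1 1).re * (c2 * (q1:ℝ) ^ (-ε))), by positivity,
      fun q _ χ h2 h2' => ?_⟩
    have hq : (1:ℝ) ≤ q := by exact_mod_cast Nat.pos_of_ne_zero (NeZero.ne q)
    have hL := LX_one_pos h2 h2'
    by_cases hpsi : psi χ1 χ = 1
    · have := compare_same h2 h1' h2' hpsi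
      rw [norm_LX_one h1 h1', norm_LX_one h2 h2'] at this
      have h3 := hprod (q1 * q) (mul_ne_zero (NeZero.ne q1) (NeZero.ne q))
      push_cast at h3
      rw [Real.mul_rpow (by linarith) (by linarith)] at h3
      calc min ((η/6) / K1) ((LX χ1 1).re * (c2 * (q1:ℝ) ^ (-ε))) * (q:ℝ) ^ (-ε)
          ≤ ((LX χ1 1).re * (c2 * (q1:ℝ) ^ (-ε))) * (q:ℝ) ^ (-ε) := by
            gcongr
            exact min_le_right _ _
        _ = (LX χ1 1).re * (c2 * ((q1:ℝ) ^ (-ε) * (q:ℝ) ^ (-ε))) := by ring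
        _ ≤ (LX χ1 1).re * ∏ p ∈ (q1 * q).primeFactors, ((1 - (p:ℝ)⁻¹) / (1 + (p:ℝ)⁻¹)) := by gcongr
        _ ≤ _ := this
    · have hps2 := psi_sq h1 h2
      have h4 := siegel_four h1 h2 h1' h2' hpsi (by linarith : (7:ℝ)/8 ≤ β) hβ1 hzero
      rw [← hη] at h4
      -- bound of L(1, psi)
      have hLpsi : (LX (psi χ1 χ) 1).re ≤ 21 * ((9 * q1) ^ a / a * (q:ℝ) ^ a) := by
        have e1 : (LX (psi χ1 χ) 1).re ≤ ‖LX (psi χ1 χ) 1‖ := Complex.re_le_norm _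
        have e2 : ‖LX (psi χ1 χ) 1‖ ≤ 21 * Lam (q1 * q) 0 := by
          have hb := norm_Gx_zero_le (f := fun n => psi χ1 χ n) (R1 := 3 * ((q1 * q : ℕ) : ℝ))
            (fun n => (psi χ1 χ).norm_le_one _) one_le_three_mul
            (fun u hu => by
              have := norm_Rem_char_le (psi χ1 χ) hu
              rwa [kap_eq_zero hpsi] at this) (s := 1) (by
              have : 0 ≤ 1 / (3 * ell (3 * ((q1 * q : ℕ) : ℝ)) (1:ℂ).im) := by
                have := one_le_ell (R := 3 * ((q1 * q : ℕ) : ℝ)) one_le_three_mul (1:ℂ).im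
                positivity
              simp only [one_re]
              linarith)
          unfold LX
          rw [kap_eq_zero hpsi]
          simpa [Lam] using hb
        have e3 : Lam (q1 * q) 0 ≤ (9 * q1) ^ a / a * (q:ℝ) ^ a := by
          unfold Lam ell
          have h5 := Real.log_le_rpow_div (by positivity : (0:ℝ) ≤ 3 * ((q1 * q : ℕ):ℝ) * (|0| + 3)) ha0
          refine h5.trans (le_of_eq ?_)
          have : (3 * ((q1 * q : ℕ):ℝ) * (|0| + 3)) = (9 * q1) * q := by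
            push_cast; simp; ring
          rw [this, Real.mul_rpow (by positivity) (by positivity)]
          ring
        calc (LX (psi χ1 χ) 1).re ≤ 21 * Lam (q1 * q) 0 := e1.trans e2
          _ ≤ _ := by gcongr
      have h5 : (128 * (21 * (q1:ℝ) * (21 * q) * (21 * (q1 * q)))) =
          (128 * (21 * q1 * 21 * (21 * q1))) * (q:ℝ) ^ (2:ℝ) := by
        rw [Real.rpow_two]; ring
      rw [h5, Real.mul_rpow (by positivity) (by positivity), ← Real.rpow_mul (by linarith)] at h4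
      have h6 : η / 6 ≤ (LX χ 1).re * (K1 * (q:ℝ) ^ ε) := by
        calc η / 6 ≤ _ := h4
          _ ≤ (LX χ1 1).re * (LX χ 1).re * (21 * ((9 * q1) ^ a / a * (q:ℝ) ^ a)) *
              ((128 * (21 * q1 * 21 * (21 * q1))) ^ (4 * η) * (q:ℝ) ^ (2 * (4 * η))) := by
              gcongr
          _ = (LX χ 1).re * (K1 * ((q:ℝ) ^ a * (q:ℝ) ^ (2 * (4 * η)))) := by rw [hK1]; ring
          _ ≤ (LX χ 1).re * (K1 * (q:ℝ) ^ ε) := by
              gcongr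
              rw [← Real.rpow_add (by linarith)]
              apply Real.rpow_le_rpow_of_exponent_le hq
              rw [ha]; linarith
      calc min ((η/6) / K1) ((LX χ1 1).re * (c2 * (q1:ℝ) ^ (-ε))) * (q:ℝ) ^ (-ε)
          ≤ (η/6) / K1 * (q:ℝ) ^ (-ε) := by
            gcongr
            exact min_le_left _ _
        _ ≤ (LX χ 1).re := by
            rw [Real.rpow_neg (by linarith), ← div_eq_mul_inv, div_div, div_le_iff₀ (by positivity)]
            exact h6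

end Pool.Agent.ANT
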