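import Pool.Agent.Lib.ANT.Estermann
import Pool.Agent.Lib.ANT.CharRem

open Complex MeasureTheory Set Filter Asymptotics Topology
open scoped ComplexOrder

namespace Pool.Agent.ANT

/-- The regular part of zeta. -/
noncomputable def EX (s : ℂ) : ℂ := 1 + s * HInt (fun _ => 1) 1 s

lemma ZX_eq_EX {s : ℂ} (hs : s ≠ 1) : ZX s = EX s + (s - 1)⁻¹ := by
  unfold ZX Gx EX
  have : s - 1 ≠ 0 := sub_ne_zero.mpr hs
  field_simp
  ring

lemma EX_differentiableAt {s : ℂ} (hs : 0 < s.re) : DifferentiableAt ℂ EX s := by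
  unfold EX
  exact (differentiableAt_const _).add
    (differentiableAt_id.mul (HInt_differentiableAt (fun _ hu => norm_Rem_one_le hu) hs))

lemma isOpen_re_pos : IsOpen {z : ℂ | 0 < z.re} := isOpen_lt continuous_const continuous_re

lemma norm_ZX_le' {s : ℂ} (hs : 0 < s.re) : ‖ZX s‖ ≤ ‖s‖ / ‖s - 1‖ + ‖s‖ / s.re := by
  unfold ZX Gx
  refine (norm_add_le _ _).trans (add_le_add ?_ ?_)
  · rw [one_mul, norm_div]
  · rw [norm_mul]
    have := norm_HInt_le (f := fun _ => 1) (κ := 1) (fun _ hu => norm_Rem_one_le hu) (s := s) hs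
    calc ‖s‖ * ‖HInt (fun _ => 1) 1 s‖ ≤ ‖s‖ * (1 / s.re) := by gcongr
      _ = ‖s‖ / s.re := by ring

lemma siegel_core {G : ℂ → ℂ} (hG : DifferentiableOn ℂ G {z | 0 < z.re}) {a : ℕ → ℂ}
    (ha : 0 ≤ a) (ha1 : a 1 = 1) (habs : LSeries.abscissaOfAbsConv a ≤ 1)
    (hLS : ∀ z : ℂ, 1 < z.re → LSeries a z = ZX z * G z) {M0 lam : ℝ} (hM0 : 1 ≤ M0)
    (hM : ∀ z ∈ Metric.sphere (2:ℂ) (3/2), ‖G z‖ ≤ M0) (hlam : G 1 = lam) (hlam0 : 0 ≤ lam)
    (hlamM : lam ≤ M0) {s : ℝ} (hs : 7/8 ≤ s) (hs1 : s < 1) (hle : (ZX s * G s).re ≤ 0) :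
    (1 - s) / 6 ≤ lam * (128 * M0) ^ (4 * (1 - s)) := by
  set F0 : ℂ → ℂ := fun z => EX z * G z + dslope G 1 z with hF0def
  have hF0 : DifferentiableOn ℂ F0 {z | 0 < z.re} := by
    refine DifferentiableOn.add ?_ ?_
    · refine DifferentiableOn.mul (fun z hz => (EX_differentiableAt hz).differentiableWithinAt) hG
    · rw [Complex.differentiableOn_dslope (isOpen_re_pos.mem_nhds (by simp))]
      exact hG
  have hkey : ∀ z : ℂ, z ≠ 1 → F0 z = ZX z * G z - lam * (z - 1)⁻¹ := by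
    intro z hz
    have : z - 1 ≠ 0 := sub_ne_zero.mpr hz
    rw [hF0def]
    simp only
    rw [dslope_of_ne _ hz, slope_def_field, ZX_eq_EX hz, hlam]
    field_simp
    ring
  have hsph : ∀ z ∈ Metric.sphere (2:ℂ) (3/2), 1/2 ≤ z.re ∧ ‖z‖ ≤ 7/2 ∧ 1/2 ≤ ‖z - 1‖ := by
    intro z hz
    rw [mem_sphere_iff_norm] at hz
    refine ⟨?_, ?_, ?_⟩
    · have h1 := (Complex.abs_re_le_norm (z - 2))
      rw [hz] at h1
      simp only [sub_re, re_ofNat] at h1
      rw [abs_le] at h1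
      linarith [h1.1]
    · have : z = (z - 2) + 2 := by ring
      calc ‖z‖ = ‖(z - 2) + 2‖ := by rw [← this]
        _ ≤ ‖z - 2‖ + ‖(2:ℂ)‖ := norm_add_le _ _
        _ = 7/2 := by rw [hz]; norm_num
    · have h2 : ‖z - 2‖ ≤ ‖z - 1‖ + ‖(1:ℂ)‖ := by
        have : z - 2 = (z - 1) - 1 := by ring
        rw [this]
        exact norm_sub_le _ _
      rw [hz, norm_one] at h2
      linarith
  have hM' : ∀ z ∈ Metric.sphere (2:ℂ) (3/2), ‖F0 z‖ ≤ 16 * M0 := by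
    intro z hz
    obtain ⟨h1, h2, h3⟩ := hsph z hz
    have hne : z ≠ 1 := by
      rintro rfl
      norm_num at h3
    rw [hkey z hne]
    have hZ : ‖ZX z‖ ≤ 14 := by
      refine (norm_ZX_le' (by linarith)).trans ?_
      have e1 : ‖z‖ / ‖z - 1‖ ≤ 7 := by
        rw [div_le_iff₀ (by linarith)]; linarith
      have e2 : ‖z‖ / z.re ≤ 7 := by
        rw [div_le_iff₀ (by linarith)]; linarith
      linarith
    have hL : ‖(lam:ℂ) * (z - 1)⁻¹‖ ≤ 2 * M0 := by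
      rw [norm_mul, norm_inv, Complex.norm_real, Real.norm_of_nonneg hlam0]
      have : ‖z - 1‖⁻¹ ≤ 2 := by
        rw [inv_le_comm₀ (by linarith) (by norm_num)]
        linarith
      calc lam * ‖z - 1‖⁻¹ ≤ M0 * 2 := by gcongr
        _ = 2 * M0 := by ring
    calc ‖ZX z * G z - lam * (z - 1)⁻¹‖ ≤ ‖ZX z * G z‖ + ‖(lam:ℂ) * (z - 1)⁻¹‖ := norm_sub_le _ _
      _ ≤ 14 * M0 + 2 * M0 := by
          rw [norm_mul]
          gcongr
          exact hM z hz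
      _ = 16 * M0 := by ring
  have hLS' : ∀ z : ℂ, 1 < z.re → LSeries a z = F0 z + lam * (z - 1)⁻¹ := by
    intro z hz
    have hne : z ≠ 1 := by
      rintro rfl
      simp at hz
    rw [hkey z hne, hLS z hz]; ring
  have hle' : (F0 s).re ≤ lam / (1 - s) := by
    have hne : (s:ℂ) ≠ 1 := by
      intro h
      have : s = 1 := by exact_mod_cast h
      linarith
    rw [hkey _ hne, sub_re]
    have h1 : ((lam:ℂ) * ((s:ℂ) - 1)⁻¹).re = - (lam / (1 - s)) := by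
      have : (lam:ℂ) * ((s:ℂ) - 1)⁻¹ = ((lam * (s - 1)⁻¹ : ℝ) : ℂ) := by push_cast; ring
      rw [this, ofReal_re]
      have h2 : s - 1 = -(1 - s) := by ring
      rw [h2, inv_neg]; ring
    rw [h1]; linarith
  have := estermann hF0 ha ha1 habs hLS' hM' (by linarith) hlam0 hs hs1 hle'
  have h8 : 8 * (16 * M0) = 128 * M0 := by ring
  rwa [h8] at this

/-- `LX` bound on `Re s ≥ 1/2`, `‖s‖ ≤ 7/2`. -/
lemma norm_LX_le_mul {q : ℕ} [NeZero q] {χ : DirichletCharacter ℂ q} (hχ : χ ≠ 1) {z : ℂ}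
    (h1 : 1/2 ≤ z.re) (h2 : ‖z‖ ≤ 7/2) : ‖LX χ z‖ ≤ 21 * q := by
  unfold LX
  rw [kap_eq_zero hχ, Gx_zero]
  simp only
  have h := norm_HInt_le (f := fun n => χ n) (κ := kap χ) (fun _ hu => norm_Rem_char_le χ hu)
    (s := z) (by linarith)
  rw [kap_eq_zero hχ] at h
  rw [norm_mul]
  have h3 : (3 * q : ℝ) / z.re ≤ 6 * q := by
    rw [div_le_iff₀ (by linarith)]
    have : (0:ℝ) ≤ q := by positivity
    nlinarith
  calc ‖z‖ * ‖HInt (fun n => χ n) 0 z‖ ≤ (7/2) * (6 * q) := by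
        gcongr
        exact h.trans h3
    _ = 21 * q := by ring

end Pool.Agent.ANT
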