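import Pool.Agent.Lib.ANT.Cont

open Complex MeasureTheory Set Filter Asymptotics Topology

namespace Pool.Agent.ANT

lemma sum_Icc_zero_eq (f : ℕ → ℂ) (n : ℕ) :
    ∑ k ∈ Finset.Icc 0 n, (if k = 0 then 0 else f k) = ∑ k ∈ Finset.Icc 1 n, f k := by
  rw [← Finset.insert_Icc_add_one_left_eq_Icc n.zero_le, Finset.sum_insert (by simp)]
  simp only [if_true, zero_add]
  refine Finset.sum_congr rfl fun k hk => ?_
  rw [if_neg]
  have := (Finset.mem_Icc.mp hk).1
  omega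

lemma sum_Icc_zero_eq' (f : ℕ → ℂ) (g : ℕ → ℂ) (n : ℕ) :
    ∑ k ∈ Finset.Icc 0 n, g k * (if k = 0 then 0 else f k) = ∑ k ∈ Finset.Icc 1 n, g k * f k := by
  have := sum_Icc_zero_eq (fun k => g k * f k) n
  rw [← this]
  refine Finset.sum_congr rfl fun k _ => ?_
  split_ifs <;> simp

/-- Truncated formula for the continuation. -/
lemma trunc_formula {f : ℕ → ℂ} {κ : ℂ} {R1 : ℝ}
    (h : ∀ u : ℝ, 1 ≤ u → ‖Rem f κ u‖ ≤ R1) {s : ℂ} (hs : 0 < s.re) (hs1 : s ≠ 1)
    {N : ℕ} (hN : 1 ≤ N) :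
    κ * (s / (s - 1)) + s * HInt f κ s =
      ∑ n ∈ Finset.Icc 1 N, f n * (n:ℂ) ^ (-s) + κ * ((N:ℂ) ^ (1 - s) / (s - 1))
        - Rem f κ N * (N:ℂ) ^ (-s) + s * ∫ u in Ioi (N:ℝ), Rem f κ u * (u:ℂ) ^ (-(s+1)) := by
  have hN1 : (1:ℝ) ≤ N := by exact_mod_cast hN
  have hN0 : (N:ℂ) ≠ 0 := by
    have : N ≠ 0 := by omega
    exact_mod_cast this
  have hs0 : s ≠ 0 := by intro h0; rw [h0] at hs; simp at hs
  have hs1' : s - 1 ≠ 0 := sub_ne_zero.mpr hs1
  -- split the integral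
  have hsplit : HInt f κ s = (∫ u in Ioc (1:ℝ) N, Rem f κ u * (u:ℂ) ^ (-(s+1))) +
      ∫ u in Ioi (N:ℝ), Rem f κ u * (u:ℂ) ^ (-(s+1)) := by
    unfold HInt
    rw [← Ioc_union_Ioi_eq_Ioi hN1, setIntegral_union (Ioc_disjoint_Ioi le_rfl) measurableSet_Ioi]
    · exact (integrableOn_Rem h hs le_rfl).mono_set Ioc_subset_Ioi_self
    · exact integrableOn_Rem h hs hN1
  -- Abel summation
  have habel := sum_mul_eq_sub_integral_mul₀' (f := fun t : ℝ => (t:ℂ) ^ (-s))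
    (fun k : ℕ => if k = 0 then 0 else f k) (by simp) N
    (by
      intro t ht
      exact differentiableAt_id.ofReal_cpow_const (zero_lt_one.trans_le ht.1).ne' (neg_ne_zero.mpr hs0))
    (by
      refine ContinuousOn.integrableOn_Icc ?_
      have : ∀ t ∈ Icc (1:ℝ) N, deriv (fun t : ℝ => (t:ℂ) ^ (-s)) t = -s * (t:ℂ) ^ (-s-1) := by
        intro t ht
        rw [deriv_ofReal_cpow_const (zero_lt_one.trans_le ht.1).ne' (neg_ne_zero.mpr hs0)]
      refine ContinuousOn.congr ?_ this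
      refine ContinuousOn.mul continuousOn_const ?_
      intro t ht
      exact (continuousAt_ofReal_cpow_const _ _ (Or.inr (zero_lt_one.trans_le ht.1).ne')).continuousWithinAt)
  have e1 := sum_Icc_zero_eq' f (fun k : ℕ => (((k:ℕ):ℝ):ℂ) ^ (-s)) N
  have e0 : ∀ n : ℕ, ∑ k ∈ Finset.Icc 0 n, (fun k : ℕ => if k = 0 then 0 else f k) k =
      ∑ k ∈ Finset.Icc 1 n, f k := fun n => sum_Icc_zero_eq f n
  simp only [e0] at habel
  rw [e1] at habel
  have e2 : ∫ t in Ioc (1:ℝ) N, deriv (fun t : ℝ => (t:ℂ) ^ (-s)) t * ∑ k ∈ Finset.Icc 1 ⌊t⌋₊, f k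
      = -s * ∫ u in Ioc (1:ℝ) N, (∑ k ∈ Finset.Icc 1 ⌊u⌋₊, f k) * (u:ℂ) ^ (-(s+1)) := by
    rw [← integral_const_mul]
    refine setIntegral_congr_fun measurableSet_Ioc fun t ht => ?_
    rw [deriv_ofReal_cpow_const (zero_lt_one.trans ht.1).ne' (neg_ne_zero.mpr hs0)]
    have : -s - 1 = -(s+1) := by ring
    rw [this]; ring
  rw [e2] at habel
  have e3 : ∫ u in Ioc (1:ℝ) N, Rem f κ u * (u:ℂ) ^ (-(s+1)) =
      (∫ u in Ioc (1:ℝ) N, (∑ k ∈ Finset.Icc 1 ⌊u⌋₊, f k) * (u:ℂ) ^ (-(s+1))) -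
        κ * ∫ u in Ioc (1:ℝ) N, (u:ℂ) ^ (-s) := by
    rw [← integral_const_mul, ← integral_sub]
    · refine setIntegral_congr_fun measurableSet_Ioc fun t ht => ?_
      have ht0 : (t:ℂ) ≠ 0 := by
        have : (0:ℝ) < t := lt_trans zero_lt_one ht.1
        exact_mod_cast this.ne'
      have h2 : (t:ℂ) * (t:ℂ) ^ (-(s+1)) = (t:ℂ) ^ (-s) := by
        have : -s = 1 + (-(s+1)) := by ring
        rw [this, cpow_add _ _ ht0, cpow_one]
      simp only [Rem]
      rw [← h2]; ring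
    · have hR : IntegrableOn (fun u : ℝ => Rem f κ u * (u:ℂ) ^ (-(s+1))) (Ioc 1 N) :=
        (integrableOn_Rem h hs le_rfl).mono_set Ioc_subset_Ioi_self
      have hc : IntegrableOn (fun u : ℝ => κ * (u:ℂ) ^ (-s)) (Ioc 1 N) := by
        refine (ContinuousOn.integrableOn_Icc ?_).mono_set Ioc_subset_Icc_self
        refine ContinuousOn.mul continuousOn_const ?_
        intro t ht
        exact (continuousAt_ofReal_cpow_const _ _ (Or.inr (zero_lt_one.trans_le ht.1).ne')).continuousWithinAt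
      refine (hR.add hc).congr_fun ?_ measurableSet_Ioc
      intro t ht
      have ht0 : (t:ℂ) ≠ 0 := by
        have : (0:ℝ) < t := lt_trans zero_lt_one ht.1
        exact_mod_cast this.ne'
      have h2 : (t:ℂ) * (t:ℂ) ^ (-(s+1)) = (t:ℂ) ^ (-s) := by
        have : -s = 1 + (-(s+1)) := by ring
        rw [this, cpow_add _ _ ht0, cpow_one]
      simp only [Rem, Pi.add_apply]
      rw [← h2]; ring
    · refine (ContinuousOn.integrableOn_Icc ?_).mono_set Ioc_subset_Icc_self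
      refine ContinuousOn.mul continuousOn_const ?_
      intro t ht
      exact (continuousAt_ofReal_cpow_const _ _ (Or.inr (zero_lt_one.trans_le ht.1).ne')).continuousWithinAt
  have e4 : ∫ u in Ioc (1:ℝ) N, (u:ℂ) ^ (-s) = ((N:ℂ) ^ (1 - s) - 1) / (1 - s) := by
    rw [← intervalIntegral.integral_of_le hN1, integral_cpow]
    · simp only [ofReal_natCast, ofReal_one, one_cpow]
      congr 2 <;> ring_nf
    · right
      constructor
      · intro h0
        apply hs1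
        linear_combination -h0
      · rw [uIcc_of_le hN1]
        intro h0
        have := h0.1
        linarith
  have e5 : ∑ k ∈ Finset.Icc 1 N, (((k:ℕ):ℝ):ℂ) ^ (-s) * f k =
      ∑ n ∈ Finset.Icc 1 N, f n * (n:ℂ) ^ (-s) := by
    refine Finset.sum_congr rfl fun k _ => ?_
    push_cast; ring
  rw [e5] at habel
  have hRem : Rem f κ N = (∑ k ∈ Finset.Icc 1 N, f k) - κ * N := by
    unfold Rem; simp
  have h6 : (N:ℂ) * (N:ℂ) ^ (-s) = (N:ℂ) ^ (1 - s) := by
    have : (1 - s : ℂ) = 1 + (-s) := by ring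
    rw [this, cpow_add _ _ hN0, cpow_one]
  rw [hsplit, e3, e4, hRem, habel, ← h6]
  have h1s : (1 - s : ℂ) ≠ 0 := by
    intro h0; apply hs1; linear_combination -h0
  simp only [ofReal_natCast]
  field_simp
  ring

end Pool.Agent.ANT
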