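import Pool.Agent.Lib.ANT.TypeSums

open Complex

namespace Pool.Agent.ANT

/-- half of the off-diagonal sum -/
lemma half_sum_le {α : ℝ} {r : ℕ} (h : Approx α r) {N U : ℕ} (hN : 0 < N) (hU : 1 ≤ U)
    (s : ℤ) (hs : s = 1 ∨ s = -1) :
    ∑ n ∈ Finset.Ioc U (N/(U+1)), ∑ k ∈ Finset.range (n+1),
      2 * ((N/n : ℝ) * Fy (N/n) (((s * k + (-s) * n : ℤ) : ℝ) * α)) ≤
    2 * N * (8 * N * Hs N / r + 16 * (1 + Real.log r) * N / U + 2 * N * Hs N / U +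
      4 * r * (1 + Real.log r) * Hs N) := by
  set l := 1 + Real.log r with hl
  have hr0 : (0:ℝ) < r := by exact_mod_cast h.pos
  have hN0 : (0:ℝ) < N := by exact_mod_cast hN
  have hU0 : (0:ℝ) < U := by exact_mod_cast (by omega : 0 < U)
  have hl0 : 0 < l := by
    have := Real.log_natCast_nonneg r
    linarith
  have h1 : ∀ n ∈ Finset.Ioc U (N/(U+1)), ∑ k ∈ Finset.range (n+1),
      2 * ((N/n : ℝ) * Fy (N/n) (((s * k + (-s) * n : ℤ) : ℝ) * α)) ≤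
      2 * N * ((8 * N / r + 2 * N / U + 4 * r * l) * (1/n) + 16 * l) := by
    intro n hn
    obtain ⟨hn1, hn2⟩ := Finset.mem_Ioc.mp hn
    have hn0 : (0:ℝ) < n := by exact_mod_cast (by omega : 0 < n)
    have hnU : (U:ℝ) ≤ n := by exact_mod_cast hn1.le
    have hn1' : (1:ℝ) ≤ n := by exact_mod_cast (by omega : 1 ≤ n)
    have h2 := interval_sum_le h (Y := N/n) (by positivity) ((-s) * n) s hs (n+1)
    rw [← Finset.mul_sum, ← Finset.mul_sum]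
    calc 2 * ((N/n : ℝ) * ∑ k ∈ Finset.range (n+1), Fy (N/n) (((s * k + (-s) * n : ℤ) : ℝ) * α))
        ≤ 2 * ((N/n : ℝ) * ((2 * ((n+1:ℕ):ℝ) / r + 1) * BB r (N/n))) := by gcongr
      _ ≤ 2 * ((N/n : ℝ) * ((4 * n / r + 1) * (2 * (N/n) + 4 * r * l))) := by
          have h5 : 2 * ((n+1:ℕ):ℝ) / r + 1 ≤ 4 * n / r + 1 := by
            have h6 : 2 * ((n+1:ℕ):ℝ) ≤ 4 * n := by push_cast; linarith
            have := div_le_div_of_nonneg_right h6 hr0.le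
            linarith
          unfold BB
          rw [← hl]
          refine mul_le_mul_of_nonneg_left (mul_le_mul_of_nonneg_left
            (mul_le_mul_of_nonneg_right h5 (by positivity)) (by positivity)) (by norm_num)
      _ = 2 * N * ((8 * N / r + 2 * N / n + 4 * r * l) * (1/n) + 16 * l) := by
          field_simp
          ring
      _ ≤ _ := by gcongr
  have h3 : ∑ n ∈ Finset.Ioc U (N/(U+1)), (1:ℝ)/n ≤ Hs N := by
    unfold Hs
    refine Finset.sum_le_sum_of_subset_of_nonneg ?_ fun _ _ _ => by positivity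
    intro n hn
    obtain ⟨hn1, hn2⟩ := Finset.mem_Ioc.mp hn
    exact Finset.mem_Ioc.mpr ⟨by omega, hn2.trans (Nat.div_le_self _ _)⟩
  have h4 : ((Finset.Ioc U (N/(U+1))).card : ℝ) ≤ N / U := by
    rw [Nat.card_Ioc]
    calc ((N/(U+1) - U : ℕ) : ℝ) ≤ ((N/(U+1) : ℕ) : ℝ) := by exact_mod_cast Nat.sub_le _ _
      _ ≤ N / ((U+1:ℕ):ℝ) := Nat.cast_div_le
      _ ≤ N / U := by
        gcongr
        push_cast
        linarith
  calc _ ≤ ∑ n ∈ Finset.Ioc U (N/(U+1)), 2 * N * ((8 * N / r + 2 * N / U + 4 * r * l) * (1/(n:ℝ)) + 16 * l) :=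
        Finset.sum_le_sum h1
    _ = 2 * N * ((8 * N / r + 2 * N / U + 4 * r * l) * ∑ n ∈ Finset.Ioc U (N/(U+1)), (1:ℝ)/n +
        ((Finset.Ioc U (N/(U+1))).card : ℝ) * (16 * l)) := by
        rw [← Finset.mul_sum, Finset.sum_add_distrib, ← Finset.mul_sum, Finset.sum_const, nsmul_eq_mul]
    _ ≤ 2 * N * ((8 * N / r + 2 * N / U + 4 * r * l) * Hs N + (N/U) * (16 * l)) := by gcongr
    _ = _ := by ring

lemma typeII_core {α : ℝ} {r : ℕ} (h : Approx α r) {N U : ℕ} (hN : 0 < N) (hU : 1 ≤ U)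
    (b : ℕ → ℂ) (hb : ∀ n, ‖b n‖ ≤ 1) :
    ∑ m ∈ Finset.Ioc U (N/(U+1)), (m:ℝ) * ‖∑ n ∈ Finset.Ioc U (N/m), b n * ee (m * (n * α))‖ ^ 2 ≤
    4 * N * (8 * N * Hs N / r + 16 * (1 + Real.log r) * N / U + 2 * N * Hs N / U +
      4 * r * (1 + Real.log r) * Hs N) := by
  have hN0 : (0:ℝ) < N := by exact_mod_cast hN
  set I := Finset.Ioc U (N/(U+1)) with hI
  have hset : ∀ m ∈ I, Finset.Ioc U (N/m) = I.filter (fun n => m * n ≤ N) := by
    intro m hm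
    obtain ⟨hm1, hm2⟩ := Finset.mem_Ioc.mp hm
    have hm0 : 0 < m := by omega
    ext n
    simp only [hI, Finset.mem_filter, Finset.mem_Ioc]
    constructor
    · rintro ⟨h1, h2⟩
      have h3 := (Nat.le_div_iff_mul_le hm0).mp h2
      refine ⟨⟨h1, (Nat.le_div_iff_mul_le (by omega)).mpr ((Nat.mul_le_mul_left n (by omega)).trans h3)⟩,
        by rwa [mul_comm]⟩
    · rintro ⟨⟨h1, h2⟩, h3⟩
      exact ⟨h1, (Nat.le_div_iff_mul_le hm0).mpr (by rwa [mul_comm])⟩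
  -- expand the square
  have hexp : ((∑ m ∈ I, (m:ℝ) * ‖∑ n ∈ Finset.Ioc U (N/m), b n * ee (m * (n * α))‖ ^ 2 : ℝ) : ℂ) =
      ∑ n1 ∈ I, ∑ n2 ∈ I, b n1 * (starRingEnd ℂ) (b n2) *
        ∑ m ∈ I.filter (fun m => m * n1 ≤ N ∧ m * n2 ≤ N),
          (m:ℂ) * ee (m * (((n1:ℝ) - n2) * α)) := by
    rw [Complex.ofReal_sum]
    have h1 : ∀ m ∈ I, (((m:ℝ) * ‖∑ n ∈ Finset.Ioc U (N/m), b n * ee (m * (n * α))‖ ^ 2 : ℝ) : ℂ) =
        ∑ n1 ∈ I, ∑ n2 ∈ I, (if m * n1 ≤ N ∧ m * n2 ≤ N then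
          b n1 * (starRingEnd ℂ) (b n2) * ((m:ℂ) * ee (m * (((n1:ℝ) - n2) * α))) else 0) := by
      intro m hm
      rw [hset m hm]
      push_cast
      rw [← Complex.mul_conj', map_sum, Finset.sum_mul_sum, Finset.mul_sum, Finset.sum_filter]
      refine Finset.sum_congr rfl fun n1 _ => ?_
      rw [Finset.mul_sum, Finset.sum_filter]
      split_ifs with h1
      · refine Finset.sum_congr rfl fun n2 _ => ?_
        split_ifs with h2 h3 h3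
        · rw [map_mul, conj_ee]
          have : ee (m * (((n1:ℝ) - n2) * α)) = ee (m * (n1 * α)) * ee (-(m * (n2 * α))) := by
            rw [← ee_add]; congr 1; ring
          rw [this]; ring
        · exact absurd ⟨h1, h2⟩ h3
        · exact absurd h3.2 h2
        · rfl
      · refine (Finset.sum_eq_zero fun n2 _ => ?_).symm
        rw [if_neg (fun h => h1 h.1)]
    rw [Finset.sum_congr rfl h1, Finset.sum_comm]
    refine Finset.sum_congr rfl fun n1 _ => ?_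
    rw [Finset.sum_comm]
    refine Finset.sum_congr rfl fun n2 _ => ?_
    rw [Finset.mul_sum, Finset.sum_filter]
  have hnn : 0 ≤ ∑ m ∈ I, (m:ℝ) * ‖∑ n ∈ Finset.Ioc U (N/m), b n * ee (m * (n * α))‖ ^ 2 :=
    Finset.sum_nonneg fun _ _ => by positivity
  have hnorm : ∑ m ∈ I, (m:ℝ) * ‖∑ n ∈ Finset.Ioc U (N/m), b n * ee (m * (n * α))‖ ^ 2 ≤
      ∑ n1 ∈ I, ∑ n2 ∈ I, ‖∑ m ∈ I.filter (fun m => m * n1 ≤ N ∧ m * n2 ≤ N),
          (m:ℂ) * ee (m * (((n1:ℝ) - n2) * α))‖ := by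
    have e1 : ∑ m ∈ I, (m:ℝ) * ‖∑ n ∈ Finset.Ioc U (N/m), b n * ee (m * (n * α))‖ ^ 2 =
        ‖((∑ m ∈ I, (m:ℝ) * ‖∑ n ∈ Finset.Ioc U (N/m), b n * ee (m * (n * α))‖ ^ 2 : ℝ) : ℂ)‖ := by
      rw [Complex.norm_real, Real.norm_of_nonneg hnn]
    rw [e1, hexp]
    refine (norm_sum_le _ _).trans (Finset.sum_le_sum fun n1 _ => ?_)
    refine (norm_sum_le _ _).trans (Finset.sum_le_sum fun n2 _ => ?_)
    rw [norm_mul, norm_mul, RCLike.norm_conj]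
    refine mul_le_of_le_one_left (norm_nonneg _) ?_
    exact mul_le_one₀ (hb n1) (norm_nonneg _) (hb n2)
  -- each inner sum
  have hinner : ∀ n1 ∈ I, ∀ n2 ∈ I, n2 ≤ n1 →
      ‖∑ m ∈ I.filter (fun m => m * n1 ≤ N ∧ m * n2 ≤ N), (m:ℂ) * ee (m * (((n1:ℝ) - n2) * α))‖ ≤
      2 * ((N/n1 : ℝ) * Fy (N/n1) (((n1:ℝ) - n2) * α)) := by
    intro n1 hn1 n2 hn2 hle
    have hn1' := (Finset.mem_Ioc.mp hn1).1
    have hn0 : 0 < n1 := by omega
    have hn0' : (0:ℝ) < n1 := by exact_mod_cast hn0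
    have : I.filter (fun m => m * n1 ≤ N ∧ m * n2 ≤ N) = Finset.Ioc U (N / n1) := by
      rw [hset n1 hn1]
      ext m
      simp only [Finset.mem_filter]
      constructor
      · rintro ⟨h1, h2, h3⟩; exact ⟨h1, by rwa [mul_comm]⟩
      · rintro ⟨h1, h2⟩
        exact ⟨h1, by rwa [mul_comm], (Nat.mul_le_mul_left m hle).trans (by rwa [mul_comm])⟩
    rw [this]
    exact norm_geom_weight_le (by positivity) Nat.cast_div_le
  have hinner' : ∀ n1 ∈ I, ∀ n2 ∈ I, n1 ≤ n2 →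
      ‖∑ m ∈ I.filter (fun m => m * n1 ≤ N ∧ m * n2 ≤ N), (m:ℂ) * ee (m * (((n1:ℝ) - n2) * α))‖ ≤
      2 * ((N/n2 : ℝ) * Fy (N/n2) (((n1:ℝ) - n2) * α)) := by
    intro n1 hn1 n2 hn2 hle
    have hn1' := (Finset.mem_Ioc.mp hn2).1
    have hn0 : 0 < n2 := by omega
    have hn0' : (0:ℝ) < n2 := by exact_mod_cast hn0
    have : I.filter (fun m => m * n1 ≤ N ∧ m * n2 ≤ N) = Finset.Ioc U (N / n2) := by
      rw [hset n2 hn2]
      ext m
      simp only [Finset.mem_filter]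
      constructor
      · rintro ⟨h1, h2, h3⟩; exact ⟨h1, by rwa [mul_comm]⟩
      · rintro ⟨h1, h2⟩
        exact ⟨h1, (Nat.mul_le_mul_left m hle).trans (by rwa [mul_comm]), by rwa [mul_comm]⟩
    rw [this]
    exact norm_geom_weight_le (by positivity) Nat.cast_div_le
  have hFnn : ∀ n ∈ I, ∀ θ : ℝ, 0 ≤ 2 * ((N/n : ℝ) * Fy (N/n) θ) := by
    intro n hn θ
    have hn1' := (Finset.mem_Ioc.mp hn).1
    have hn0' : (0:ℝ) < n := by exact_mod_cast (by omega : 0 < n)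
    have := Fy_pos (show (0:ℝ) < N/n by positivity) θ
    positivity
  have hA := half_sum_le h hN hU (-1) (Or.inr rfl)
  have hB := half_sum_le h hN hU 1 (Or.inl rfl)
  rw [← hI] at hA hB
  have hsplit : ∑ n1 ∈ I, ∑ n2 ∈ I, ‖∑ m ∈ I.filter (fun m => m * n1 ≤ N ∧ m * n2 ≤ N),
          (m:ℂ) * ee (m * (((n1:ℝ) - n2) * α))‖ ≤
      (∑ n1 ∈ I, ∑ n2 ∈ I, if n2 ≤ n1 then 2 * ((N/n1 : ℝ) * Fy (N/n1) (((n1:ℝ) - n2) * α)) else 0) +
      (∑ n1 ∈ I, ∑ n2 ∈ I, if n1 ≤ n2 then 2 * ((N/n2 : ℝ) * Fy (N/n2) (((n1:ℝ) - n2) * α)) else 0) := by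
    rw [← Finset.sum_add_distrib]
    refine Finset.sum_le_sum fun n1 hn1 => ?_
    rw [← Finset.sum_add_distrib]
    refine Finset.sum_le_sum fun n2 hn2 => ?_
    rcases le_total n2 n1 with hle | hle
    · rw [if_pos hle]
      refine (hinner n1 hn1 n2 hn2 hle).trans (le_add_of_nonneg_right ?_)
      split_ifs
      · exact hFnn n2 hn2 _
      · exact le_rfl
    · rw [if_pos hle]
      refine (hinner' n1 hn1 n2 hn2 hle).trans (le_add_of_nonneg_left ?_)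
      split_ifs
      · exact hFnn n1 hn1 _
      · exact le_rfl
  have hA' : (∑ n1 ∈ I, ∑ n2 ∈ I, if n2 ≤ n1 then 2 * ((N/n1 : ℝ) * Fy (N/n1) (((n1:ℝ) - n2) * α)) else 0)
      ≤ ∑ n ∈ I, ∑ k ∈ Finset.range (n+1),
      2 * ((N/n : ℝ) * Fy (N/n) ((((-1) * (k:ℤ) + (-(-1)) * (n:ℤ) : ℤ) : ℝ) * α)) := by
    refine Finset.sum_le_sum fun n hn => ?_
    rw [← Finset.sum_filter]
    have e1 : ∀ k : ℕ, ((((-1) * (k:ℤ) + (-(-1)) * (n:ℤ) : ℤ) : ℝ) * α) = ((n:ℝ) - k) * α := by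
      intro k; push_cast; ring
    simp_rw [e1]
    refine Finset.sum_le_sum_of_subset_of_nonneg ?_ fun k _ _ => hFnn n hn _
    intro k hk
    have := (Finset.mem_filter.mp hk).2
    exact Finset.mem_range.mpr (by omega)
  have hB' : (∑ n1 ∈ I, ∑ n2 ∈ I, if n1 ≤ n2 then 2 * ((N/n2 : ℝ) * Fy (N/n2) (((n1:ℝ) - n2) * α)) else 0)
      ≤ ∑ n ∈ I, ∑ k ∈ Finset.range (n+1),
      2 * ((N/n : ℝ) * Fy (N/n) (((1 * (k:ℤ) + (-1) * (n:ℤ) : ℤ) : ℝ) * α)) := by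
    rw [Finset.sum_comm]
    refine Finset.sum_le_sum fun n hn => ?_
    rw [← Finset.sum_filter]
    have e1 : ∀ k : ℕ, (((1 * (k:ℤ) + (-1) * (n:ℤ) : ℤ) : ℝ) * α) = ((k:ℝ) - n) * α := by
      intro k; push_cast; ring
    simp_rw [e1]
    refine Finset.sum_le_sum_of_subset_of_nonneg ?_ fun k _ _ => hFnn n hn _
    intro k hk
    have := (Finset.mem_filter.mp hk).2
    exact Finset.mem_range.mpr (by omega)
  calc _ ≤ _ := hnorm
    _ ≤ _ := hsplit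
    _ ≤ _ := add_le_add (hA'.trans hA) (hB'.trans hB)
    _ = _ := by ring

/-- Type II sums. -/
lemma typeII_le {α : ℝ} {r : ℕ} (h : Approx α r) {N U : ℕ} (hN : 0 < N) (hU : 1 ≤ U)
    (a b : ℕ → ℂ) (ha : ∀ m, ‖a m‖ ≤ tauR m) (hb : ∀ n, ‖b n‖ ≤ 1) :
    ‖∑ m ∈ Finset.Ioc U (N/(U+1)), a m * ∑ n ∈ Finset.Ioc U (N/m), b n * ee (m * (n * α))‖ ^ 2 ≤
    Hs N ^ 4 * (4 * N * (8 * N * Hs N / r + 16 * (1 + Real.log r) * N / U + 2 * N * Hs N / U +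
      4 * r * (1 + Real.log r) * Hs N)) := by
  set I := Finset.Ioc U (N/(U+1)) with hI
  set Bm : ℕ → ℝ := fun m => ‖∑ n ∈ Finset.Ioc U (N/m), b n * ee (m * (n * α))‖ with hBm
  have hm0 : ∀ m ∈ I, (0:ℝ) < m := fun m hm => by
    exact_mod_cast (by have := (Finset.mem_Ioc.mp hm).1; omega : 0 < m)
  have h1 : ‖∑ m ∈ I, a m * ∑ n ∈ Finset.Ioc U (N/m), b n * ee (m * (n * α))‖ ≤
      ∑ m ∈ I, (tauR m / √(m:ℝ)) * (√(m:ℝ) * Bm m) := by
    refine (norm_sum_le _ _).trans (Finset.sum_le_sum fun m hm => ?_)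
    have := Real.sqrt_pos.mpr (hm0 m hm)
    rw [norm_mul]
    calc ‖a m‖ * Bm m ≤ tauR m * Bm m := mul_le_mul_of_nonneg_right (ha m) (norm_nonneg _)
      _ = _ := by field_simp
  have h2 := Finset.sum_mul_sq_le_sq_mul_sq I (fun m : ℕ => tauR m / √(m:ℝ))
    (fun m : ℕ => √(m:ℝ) * Bm m)
  have e1 : ∑ m ∈ I, (tauR m / √(m:ℝ)) ^ 2 ≤ Hs N ^ 4 := by
    calc _ = ∑ m ∈ I, tauR m ^ 2 / m := by
          refine Finset.sum_congr rfl fun m hm => ?_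
          rw [div_pow, Real.sq_sqrt (hm0 m hm).le]
      _ ≤ ∑ m ∈ Finset.Ioc 0 N, tauR m ^ 2 / m := by
          refine Finset.sum_le_sum_of_subset_of_nonneg ?_ fun m _ _ => by positivity
          intro n hn
          obtain ⟨hn1, hn2⟩ := Finset.mem_Ioc.mp hn
          exact Finset.mem_Ioc.mpr ⟨by omega, hn2.trans (Nat.div_le_self _ _)⟩
      _ ≤ _ := sum_tau_sq_div_le N
  have e2 : ∑ m ∈ I, (√(m:ℝ) * Bm m) ^ 2 = ∑ m ∈ I, (m:ℝ) * Bm m ^ 2 := by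
    refine Finset.sum_congr rfl fun m hm => ?_
    rw [mul_pow, Real.sq_sqrt (hm0 m hm).le]
  have h3 := typeII_core h hN hU b hb
  have h4 := Hs_nonneg N
  calc _ ≤ (∑ m ∈ I, (tauR m / √(m:ℝ)) * (√(m:ℝ) * Bm m)) ^ 2 := by gcongr
    _ ≤ _ := h2
    _ ≤ Hs N ^ 4 * (4 * N * (8 * N * Hs N / r + 16 * (1 + Real.log r) * N / U + 2 * N * Hs N / U +
      4 * r * (1 + Real.log r) * Hs N)) := by
        rw [e2]
        gcongr

end Pool.Agent.ANT
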