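import Pool.Agent.Lib.ANT.Geo

open Complex

namespace Pool.Agent.ANT

/-- Block bound. -/
noncomputable def BB (r : ℕ) (Y : ℝ) : ℝ := 2 * Y + 4 * r * (1 + Real.log r)

lemma BB_nonneg {r : ℕ} {Y : ℝ} (hY : 0 ≤ Y) : 0 ≤ BB r Y := by
  unfold BB
  have := Real.log_natCast_nonneg r
  positivity

lemma interval_sum_le {α : ℝ} {r : ℕ} (h : Approx α r) {Y : ℝ} (hY : 0 < Y) (t : ℤ) (s : ℤ)
    (hs : s = 1 ∨ s = -1) (n : ℕ) :
    ∑ d ∈ Finset.range n, Fy Y (((s * d + t : ℤ) : ℝ) * α) ≤ (2 * n / r + 1) * BB r Y := by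
  set L := r / 2 + 1 with hL
  have hr0 : (0:ℝ) < r := by exact_mod_cast h.pos
  have hL0 : 0 < L := by omega
  have hLr : (r:ℝ) ≤ 2 * L := by exact_mod_cast (by omega : r ≤ 2 * L)
  have h1 : ∀ k : ℕ, ∑ d ∈ Finset.range (k * L), Fy Y (((s * d + t : ℤ) : ℝ) * α) ≤ k * BB r Y := by
    intro k
    induction k with
    | zero => simp
    | succ k ih =>
      rw [add_mul, one_mul, Finset.sum_range_add]
      have h2 : ∑ x ∈ Finset.range L, Fy Y (((s * ((k * L + x : ℕ) : ℤ) + t : ℤ) : ℝ) * α) ≤ BB r Y := by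
        have h3 : ∀ x : ℕ, (s * ((k * L + x : ℕ) : ℤ) + t : ℤ) = s * x + (s * ((k * L : ℕ) : ℤ) + t) := by
          intro x; push_cast; ring
        simp_rw [h3]
        refine block_sum_le h hY (Finset.range L) _ s hs ?_
        intro d hd e he
        have hd' := Finset.mem_range.mp hd
        have he' := Finset.mem_range.mp he
        have : |(d:ℤ) - e| ≤ r / 2 := by rw [abs_le]; constructor <;> omega
        omega
      push_cast at h2 ih ⊢
      linarith
  calc ∑ d ∈ Finset.range n, Fy Y (((s * d + t : ℤ) : ℝ) * α)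
      ≤ ∑ d ∈ Finset.range ((n / L + 1) * L), Fy Y (((s * d + t : ℤ) : ℝ) * α) := by
        refine Finset.sum_le_sum_of_subset_of_nonneg (Finset.range_subset_range.mpr ?_)
          fun _ _ _ => (Fy_pos hY _).le
        have := Nat.div_add_mod n L
        have := Nat.mod_lt n hL0
        nlinarith
    _ ≤ ((n / L + 1 : ℕ) : ℝ) * BB r Y := h1 _
    _ ≤ _ := by
        refine mul_le_mul_of_nonneg_right ?_ (BB_nonneg hY.le)
        push_cast
        gcongr
        calc ((n / L : ℕ) : ℝ) ≤ n / L := Nat.cast_div_le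
          _ ≤ 2 * n / r := by
            rw [div_le_div_iff₀ (by exact_mod_cast hL0) hr0]
            have : (0:ℝ) ≤ n := Nat.cast_nonneg _
            nlinarith

/-- The basic type I divisor sum. -/
lemma typeI_base {α : ℝ} {r : ℕ} (h : Approx α r) {X : ℝ} (hX : 0 < X) (D : ℕ) :
    ∑ d ∈ Finset.Ioc 0 D, Fy (X / d) (d * α) ≤
      8 * r * (1 + Real.log r) + 8 * D * (1 + Real.log r) + 4 * X / r * Hs D := by
  set L := r / 2 + 1 with hL
  set l := 1 + Real.log r with hl
  have hr1 : (1:ℝ) ≤ r := by exact_mod_cast h.pos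
  have hr0 : (0:ℝ) < r := by linarith
  have hl1 : 1 ≤ l := by
    have := Real.log_natCast_nonneg r
    linarith
  have hL0 : 0 < L := by omega
  have hLR0 : (0:ℝ) < L := by exact_mod_cast hL0
  have hLr : (r:ℝ) ≤ 2 * L := by exact_mod_cast (by omega : r ≤ 2 * L)
  -- first block
  have hfirst : ∑ d ∈ Finset.Ico 1 L, Fy (X / d) (d * α) ≤ 4 * r + 4 * r * l := by
    calc ∑ d ∈ Finset.Ico 1 L, Fy (X / d) (d * α)
        ≤ ∑ d ∈ Finset.Ico 1 L, Fy (2 * r) (((1 * (d:ℤ) + 0 : ℤ) : ℝ) * α) := by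
          refine Finset.sum_le_sum fun d hd => ?_
          obtain ⟨hd1, hd2⟩ := Finset.mem_Ico.mp hd
          have hsp := nn_spaced h (d := (d:ℤ)) (by omega) (by
            rw [abs_of_nonneg (by positivity)]; omega)
          push_cast at hsp
          simp only [one_mul, add_zero]
          push_cast
          unfold Fy
          have e1 : max (2 * (r:ℝ))⁻¹ (nn (d * α)) = nn (d * α) := by
            rw [max_eq_right]; rw [← one_div]; exact hsp
          rw [e1]
          have : 0 < nn (d * α) := lt_of_lt_of_le (by positivity) hsp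
          exact inv_anti₀ this (le_max_right _ _)
      _ ≤ 2 * (2 * r) + 4 * r * (1 + Real.log r) := by
          refine block_sum_le h (by positivity) (Finset.Ico 1 L) 0 1 (Or.inl rfl) ?_
          intro d hd e he
          have hd' := Finset.mem_Ico.mp hd
          have he' := Finset.mem_Ico.mp he
          have : |(d:ℤ) - e| ≤ r / 2 := by rw [abs_le]; constructor <;> omega
          omega
      _ = _ := by rw [hl]; ring
  have hall : ∀ K : ℕ, ∑ d ∈ Finset.Ico 1 ((K+1) * L), Fy (X / d) (d * α) ≤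
      4 * r + 4 * r * l + K * (4 * r * l) + 2 * X / L * Hs K := by
    intro K
    induction K with
    | zero => simpa [Hs] using hfirst
    | succ K ih =>
      have h1 : 1 ≤ (K+1) * L := Nat.mul_pos (by omega) hL0
      have h2 : (K+1) * L ≤ (K+1+1) * L := Nat.mul_le_mul_right L (by omega)
      rw [← Finset.sum_Ico_consecutive _ h1 h2]
      have hKL : (0:ℝ) < ((K+1:ℕ):ℝ) * L := by positivity
      have h3 : ∑ d ∈ Finset.Ico ((K+1) * L) ((K+1+1) * L), Fy (X / d) (d * α) ≤
          2 * (X / (((K+1:ℕ):ℝ) * L)) + 4 * r * l := by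
        calc _ ≤ ∑ d ∈ Finset.Ico ((K+1) * L) ((K+1+1) * L),
              Fy (X / (((K+1:ℕ):ℝ) * L)) (((1 * (d:ℤ) + 0 : ℤ) : ℝ) * α) := by
              refine Finset.sum_le_sum fun d hd => ?_
              obtain ⟨hd1, hd2⟩ := Finset.mem_Ico.mp hd
              simp only [one_mul, add_zero]
              push_cast
              have hd0 : (0:ℝ) < d := by exact_mod_cast (by omega : 0 < d)
              refine Fy_mono (by positivity) ?_ _
              gcongr
              exact_mod_cast hd1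
          _ ≤ _ := by
              refine block_sum_le h (by positivity) _ 0 1 (Or.inl rfl) ?_
              intro d hd e he
              have hd' := Finset.mem_Ico.mp hd
              have he' := Finset.mem_Ico.mp he
              have e1 : (K+1+1) * L = (K+1) * L + L := by ring
              rw [e1] at hd' he'
              have : |(d:ℤ) - e| ≤ r / 2 := by rw [abs_le]; constructor <;> omega
              omega
      have h4 : Hs (K+1) = Hs K + 1 / ((K+1:ℕ):ℝ) := by
        unfold Hs; rw [Finset.sum_Ioc_succ_top (by omega)]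
      rw [h4]
      have h5 : 2 * X / L * (Hs K + 1 / ((K+1:ℕ):ℝ)) =
          2 * X / L * Hs K + 2 * (X / (((K+1:ℕ):ℝ) * L)) := by field_simp
      rw [h5]
      push_cast at h3 ih ⊢
      linarith
  calc ∑ d ∈ Finset.Ioc 0 D, Fy (X / d) (d * α)
      ≤ ∑ d ∈ Finset.Ico 1 ((D / L + 1) * L), Fy (X / d) (d * α) := by
        refine Finset.sum_le_sum_of_subset_of_nonneg ?_ fun d hd _ => (Fy_pos ?_ _).le
        · intro d hd
          obtain ⟨hd1, hd2⟩ := Finset.mem_Ioc.mp hd
          refine Finset.mem_Ico.mpr ⟨hd1, ?_⟩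
          have := Nat.div_add_mod D L
          have := Nat.mod_lt D hL0
          nlinarith
        · have : 1 ≤ d := (Finset.mem_Ico.mp hd).1
          have hd0 : (0:ℝ) < d := by exact_mod_cast (by omega : 0 < d)
          positivity
    _ ≤ 4 * r + 4 * r * l + ((D / L : ℕ) : ℝ) * (4 * r * l) + 2 * X / L * Hs (D / L) := hall _
    _ ≤ 4 * r * l + 4 * r * l + (2 * D / r) * (4 * r * l) + 4 * X / r * Hs D := by
        have h6 : ((D / L : ℕ) : ℝ) ≤ 2 * D / r := by
          calc ((D / L : ℕ) : ℝ) ≤ D / L := Nat.cast_div_le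
            _ ≤ 2 * D / r := by
              rw [div_le_div_iff₀ hLR0 hr0]
              have : (0:ℝ) ≤ D := Nat.cast_nonneg _
              nlinarith
        have h7 : 2 * X / L ≤ 4 * X / r := by
          rw [div_le_div_iff₀ hLR0 hr0]
          nlinarith
        have h8 : (4:ℝ) * r ≤ 4 * r * l := by nlinarith
        have h9 := Hs_mono (Nat.div_le_self D L)
        have h10 := Hs_nonneg (D / L)
        gcongr
    _ = _ := by field_simp; ring

/-- Type I sums. -/
lemma typeI_le {α : ℝ} {r : ℕ} (h : Approx α r) {N D : ℕ} (hN : 0 < N) (c : ℕ → ℂ)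
    (hc : ∀ d, ‖c d‖ ≤ tauR d) :
    ‖∑ d ∈ Finset.Ioc 0 D, c d * ∑ l ∈ Finset.Ioc 0 (N / d), ee (l * (d * α))‖ ^ 2 ≤
      N * Hs D ^ 4 * (8 * r * (1 + Real.log r) + 8 * D * (1 + Real.log r) + 4 * N / r * Hs D) := by
  have hN0 : (0:ℝ) < N := by exact_mod_cast hN
  have h1 : ‖∑ d ∈ Finset.Ioc 0 D, c d * ∑ l ∈ Finset.Ioc 0 (N / d), ee (l * (d * α))‖ ≤
      ∑ d ∈ Finset.Ioc 0 D, tauR d * Fy (N / d) (d * α) := by
    refine (norm_sum_le _ _).trans (Finset.sum_le_sum fun d hd => ?_)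
    have hd0 : (0:ℝ) < d := by exact_mod_cast (Finset.mem_Ioc.mp hd).1
    rw [norm_mul]
    refine mul_le_mul (hc d) ?_ (norm_nonneg _) (tauR_nonneg d)
    refine norm_geom_le (by positivity) ?_
    rw [Nat.sub_zero]
    exact Nat.cast_div_le
  have h2 : (∑ d ∈ Finset.Ioc 0 D, tauR d * Fy (N / d) (d * α)) ^ 2 ≤
      (∑ d ∈ Finset.Ioc 0 D, tauR d ^ 2 * Fy (N / d) (d * α)) *
        ∑ d ∈ Finset.Ioc 0 D, Fy (N / d) (d * α) := by
    have hcs := Finset.sum_mul_sq_le_sq_mul_sq (Finset.Ioc 0 D)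
      (fun d : ℕ => tauR d * √(Fy ((N:ℝ) / d) (d * α))) (fun d : ℕ => √(Fy ((N:ℝ) / d) (d * α)))
    have e1 : ∀ d ∈ Finset.Ioc 0 D, tauR d * √(Fy ((N:ℝ) / d) (d * α)) * √(Fy ((N:ℝ) / d) (d * α)) =
        tauR d * Fy (N / d) (d * α) := by
      intro d hd
      have hd0 : (0:ℝ) < d := by exact_mod_cast (Finset.mem_Ioc.mp hd).1
      rw [mul_assoc, Real.mul_self_sqrt (Fy_pos (by positivity) _).le]
    have e2 : ∀ d ∈ Finset.Ioc 0 D, (tauR d * √(Fy ((N:ℝ) / d) (d * α))) ^ 2 =
        tauR d ^ 2 * Fy (N / d) (d * α) := by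
      intro d hd
      have hd0 : (0:ℝ) < d := by exact_mod_cast (Finset.mem_Ioc.mp hd).1
      rw [mul_pow, Real.sq_sqrt (Fy_pos (by positivity) _).le]
    have e3 : ∀ d ∈ Finset.Ioc 0 D, (√(Fy ((N:ℝ) / d) (d * α))) ^ 2 = Fy (N / d) (d * α) := by
      intro d hd
      have hd0 : (0:ℝ) < d := by exact_mod_cast (Finset.mem_Ioc.mp hd).1
      rw [Real.sq_sqrt (Fy_pos (by positivity) _).le]
    rw [Finset.sum_congr rfl e1, Finset.sum_congr rfl e2, Finset.sum_congr rfl e3] at hcs
    exact hcs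
  have h3 : ∑ d ∈ Finset.Ioc 0 D, tauR d ^ 2 * Fy (N / d) (d * α) ≤ N * Hs D ^ 4 := by
    calc _ ≤ ∑ d ∈ Finset.Ioc 0 D, N * (tauR d ^ 2 / d) := by
          refine Finset.sum_le_sum fun d hd => ?_
          have hd0 : (0:ℝ) < d := by exact_mod_cast (Finset.mem_Ioc.mp hd).1
          calc tauR d ^ 2 * Fy (N / d) (d * α) ≤ tauR d ^ 2 * (N / d) := by
                gcongr
                exact Fy_le (by positivity) _
            _ = _ := by ring
      _ = N * ∑ d ∈ Finset.Ioc 0 D, tauR d ^ 2 / d := by rw [Finset.mul_sum]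
      _ ≤ _ := by
        gcongr
        exact sum_tau_sq_div_le D
  have h4 := typeI_base h hN0 D
  have h5 : 0 ≤ ∑ d ∈ Finset.Ioc 0 D, Fy (N / d) (d * α) := by
    refine Finset.sum_nonneg fun d hd => ?_
    have hd0 : (0:ℝ) < d := by exact_mod_cast (Finset.mem_Ioc.mp hd).1
    exact (Fy_pos (by positivity) _).le
  have h6 := Hs_nonneg D
  calc _ ≤ (∑ d ∈ Finset.Ioc 0 D, tauR d * Fy (N / d) (d * α)) ^ 2 := by gcongr
    _ ≤ _ := h2
    _ ≤ _ := by gcongr

end Pool.Agent.ANT
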