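import Pool.Agent.Lib.ANT.TypeSums
import Pool.Agent.Lib.ANT.Parseval

open Complex Polynomial

namespace Pool.Agent.ANT

lemma abs_le_nn_int_add (K : ℤ) {y : ℝ} (hy : |y| ≤ 1/2) : |y| ≤ nn (K + y) := by
  unfold nn
  set j := round ((K:ℝ) + y) - K with hj
  have h1 : (K:ℝ) + y - round ((K:ℝ) + y) = y - j := by rw [hj]; push_cast; ring
  rw [h1]
  rcases eq_or_ne j 0 with h0 | h0
  · rw [h0]; simp
  · have h2 : (1:ℝ) ≤ |(j:ℝ)| := by exact_mod_cast Int.one_le_abs h0
    have h3 : |(j:ℝ)| ≤ |y - j| + |y| := by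
      have := abs_sub (j:ℝ) y
      have h4 := abs_add_le (j - y) y
      rw [sub_add_cancel, abs_sub_comm] at h4
      exact h4
    linarith

/-- Vinogradov's lemma: if `‖nθ‖ ≤ δ` for many `n ≤ N` then `θ` is very close to a rational with
small denominator. -/
lemma vino_count {θ δ V : ℝ} {N : ℕ} {S : Finset ℕ} (hS : S ⊆ Finset.Ioc 0 N)
    (hnn : ∀ n ∈ S, nn (n * θ) ≤ δ) (hδ : 0 < δ) (hV : (N:ℝ) ≤ V * S.card) (hne : S.Nonempty)
    (hsm : 48 * δ * V * (1 + Real.log (2 * N)) ≤ 1) :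
    ∃ r : ℕ, 0 < r ∧ (r:ℝ) ≤ 24 * V ∧ nn (r * θ) ≤ 24 * V * δ / S.card := by
  have hN : 0 < N := by
    obtain ⟨n, hn⟩ := hne
    have := Finset.mem_Ioc.mp (hS hn)
    omega
  have hNR : (1:ℝ) ≤ N := by exact_mod_cast hN
  have hc0 : (0:ℝ) < S.card := by exact_mod_cast hne.card_pos
  have hcN : (S.card:ℝ) ≤ N := by
    have := Finset.card_le_card hS
    rw [Nat.card_Ioc, Nat.sub_zero] at this
    exact_mod_cast this
  have hV1 : 1 ≤ V := by
    by_contra hcon
    push Not at hcon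
    nlinarith
  have hlog0 : 0 ≤ Real.log (2 * N) := Real.log_nonneg (by linarith)
  obtain ⟨ρ, hρ1, hρ2⟩ := Real.exists_rat_abs_sub_le_and_den_le θ (n := 2 * N) (by omega)
  set r := ρ.den with hr
  have hr0 : 0 < r := ρ.den_pos
  have hrR : (0:ℝ) < r := by exact_mod_cast hr0
  have hr1 : (1:ℝ) ≤ r := by exact_mod_cast hr0
  have hρ : (ρ : ℝ) = ρ.num / r := by
    rw [hr]; exact_mod_cast (Rat.num_div_den ρ).symm
  rw [hρ] at hρ1
  have hrn : (r:ℝ) ≤ 2 * N := by exact_mod_cast hρ2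
  have hcop : IsCoprime ρ.num (r:ℤ) := by
    have := ρ.reduced
    rw [Int.isCoprime_iff_nat_coprime]
    simpa using this
  push_cast at hρ1
  have happ : Approx θ r := by
    refine ⟨hr0, ρ.num, hcop, hρ1.trans ?_⟩
    rw [div_le_div_iff₀ (by positivity) (by positivity)]
    nlinarith
  -- count
  have hcount : (S.card : ℝ) * (1/δ) ≤ (2 * (N+1:ℕ) / r + 1) * BB r (1/δ) := by
    have h1 := interval_sum_le happ (Y := 1/δ) (by positivity) 0 1 (Or.inl rfl) (N+1)
    refine le_trans ?_ h1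
    have h2 : S ⊆ Finset.range (N+1) := by
      intro n hn
      have := Finset.mem_Ioc.mp (hS hn)
      exact Finset.mem_range.mpr (by omega)
    calc (S.card : ℝ) * (1/δ) = ∑ n ∈ S, 1/δ := by rw [Finset.sum_const, nsmul_eq_mul]
      _ ≤ ∑ n ∈ S, Fy (1/δ) (((1 * n + 0 : ℤ) : ℝ) * θ) := by
          refine Finset.sum_le_sum fun n hn => ?_
          refine le_Fy (by positivity) le_rfl ?_
          have h3 := hnn n hn
          push_cast
          rw [one_mul, add_zero, one_div, inv_mul_le_iff₀ hδ, mul_one]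
          exact h3
      _ ≤ _ := Finset.sum_le_sum_of_subset_of_nonneg h2 fun _ _ _ => (Fy_pos (by positivity) _).le
  have hrV : (r:ℝ) ≤ 24 * V := by
    have h1 : (2 * ((N+1:ℕ):ℝ) / r + 1) ≤ 6 * N / r := by
      rw [div_add_one hrR.ne']
      gcongr
      push_cast
      linarith
    have h2 : BB r (1/δ) ≤ (2 + 4 * δ * r * (1 + Real.log (2 * N))) * (1/δ) := by
      unfold BB
      have h3 : Real.log r ≤ Real.log (2 * N) := Real.log_le_log hrR hrn
      have h4 : 4 * (r:ℝ) * (1 + Real.log r) ≤ 4 * r * (1 + Real.log (2*N)) := by gcongr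
      have h5 : (2 + 4 * δ * r * (1 + Real.log (2 * N))) * (1/δ) =
          2 * (1/δ) + 4 * r * (1 + Real.log (2 * N)) := by field_simp
      rw [h5]; linarith
    have h3 : (S.card : ℝ) * (1/δ) ≤ (6 * N / r * (2 + 4 * δ * r * (1 + Real.log (2 * N)))) * (1/δ) := by
      have hBB : 0 ≤ BB r (1/δ) := BB_nonneg (by positivity)
      calc _ ≤ _ := hcount
        _ ≤ (6 * N / r) * ((2 + 4 * δ * r * (1 + Real.log (2 * N))) * (1/δ)) := by gcongr
        _ = _ := by ring
    have h4 : (S.card : ℝ) ≤ 6 * N / r * (2 + 4 * δ * r * (1 + Real.log (2 * N))) :=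
      le_of_mul_le_mul_right h3 (by positivity)
    have h5 : (N:ℝ) ≤ V * (6 * N / r * (2 + 4 * δ * r * (1 + Real.log (2 * N)))) :=
      hV.trans (by gcongr)
    have h6 : V * (6 * N / r * (2 + 4 * δ * r * (1 + Real.log (2 * N)))) =
        N * (12 * V / r) + N * (48 * δ * V * (1 + Real.log (2 * N))) / 2 := by
      field_simp
      ring
    rw [h6] at h5
    have h7 : (N:ℝ) * (48 * δ * V * (1 + Real.log (2 * N))) ≤ N * 1 := by gcongr
    have h8 : (N:ℝ) * 1 ≤ N * (24 * V / r) := by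
      have : (N:ℝ) * (24 * V / r) = 2 * (N * (12 * V / r)) := by ring
      rw [this]; linarith
    have h9 : (1:ℝ) ≤ 24 * V / r := le_of_mul_le_mul_left h8 (by positivity)
    rwa [le_div_iff₀ hrR, one_mul] at h9
  refine ⟨r, hr0, hrV, ?_⟩
  set η := θ - ρ.num / r with hη
  have hηr : |η| ≤ 1 / ((2 * N + 1) * r) := hρ1
  -- the largest element
  obtain ⟨n, hnS, hncard⟩ : ∃ n ∈ S, S.card ≤ n := by
    by_contra hcon
    push Not at hcon
    have h1 : S ⊆ Finset.Ioc 0 (S.card - 1) := by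
      intro n hn
      have h2 := hcon n hn
      have h3 := Finset.mem_Ioc.mp (hS hn)
      exact Finset.mem_Ioc.mpr ⟨h3.1, by omega⟩
    have h2 := Finset.card_le_card h1
    rw [Nat.card_Ioc, Nat.sub_zero] at h2
    have := hne.card_pos
    omega
  have hnN := (Finset.mem_Ioc.mp (hS hnS)).2
  have hn0 := (Finset.mem_Ioc.mp (hS hnS)).1
  have hnR0 : (0:ℝ) < n := by exact_mod_cast hn0
  have hnη : |(n:ℝ) * η| ≤ 1 / (2 * r) := by
    rw [abs_mul, abs_of_pos hnR0]
    have h1 : (n:ℝ) ≤ N := by exact_mod_cast hnN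
    calc (n:ℝ) * |η| ≤ N * (1 / ((2 * N + 1) * r)) := by gcongr
      _ ≤ 1 / (2 * r) := by
          rw [mul_one_div, div_le_div_iff₀ (by positivity) (by positivity)]
          nlinarith
  have hδr : δ < 1 / (2 * r) := by
    have h1 : 48 * δ * V ≤ 1 := by
      have : 48 * δ * V * 1 ≤ 48 * δ * V * (1 + Real.log (2 * N)) := by gcongr; linarith
      linarith
    by_contra hcon
    push Not at hcon
    rw [div_le_iff₀ (by positivity)] at hcon
    -- 1 ≤ δ * (2 r) ≤ 48 δ V ≤ 1, strictness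
    have h2 : δ * (2 * r) ≤ 48 * δ * V := by nlinarith
    -- equality forces log = 0, but 2N ≥ 2
    have h3 : 0 < Real.log (2 * N) := Real.log_pos (by linarith)
    have h4 : 48 * δ * V * 1 < 48 * δ * V * (1 + Real.log (2 * N)) := by
      refine mul_lt_mul_of_pos_left (by linarith) (by positivity)
    linarith
  have hdvd : (r:ℤ) ∣ (n:ℤ) := by
    by_contra hnd
    have h1 := nn_rational (a := ρ.num) (r := (r:ℤ)) (h := (n:ℤ)) (by exact_mod_cast hr0) hcop hnd
    push_cast at h1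
    have h2 := nn_sub_ge (x := (n:ℝ) * (ρ.num / r)) (y := n * θ)
    have h3 : |(n:ℝ) * (ρ.num / r) - n * θ| = |(n:ℝ) * η| := by
      rw [hη, abs_sub_comm]; congr 1; ring
    have h4 := hnn n hnS
    have h5 : 1 / (r:ℝ) - 1 / (2 * r) = 1 / (2 * r) := by field_simp; ring
    linarith
  obtain ⟨m, hm⟩ := hdvd
  have hmn : (n:ℝ) * θ = ((m * ρ.num : ℤ) : ℝ) + n * η := by
    have : (n:ℝ) = r * m := by exact_mod_cast hm
    rw [hη]
    push_cast
    rw [this]
    field_simp
    ring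
  have hηn : |(n:ℝ) * η| ≤ δ := by
    have h1 := hnn n hnS
    rw [hmn] at h1
    refine (abs_le_nn_int_add (m * ρ.num) (hnη.trans ?_)).trans h1
    rw [div_le_div_iff₀ (by positivity) (by norm_num)]
    linarith
  have hη2 : |η| ≤ δ / S.card := by
    rw [abs_mul, abs_of_pos hnR0] at hηn
    rw [le_div_iff₀ hc0]
    have h1 : (S.card:ℝ) ≤ n := by exact_mod_cast hncard
    calc |η| * S.card ≤ |η| * n := by gcongr
      _ = n * |η| := by ring
      _ ≤ δ := hηn
  calc nn (r * θ) ≤ |(r:ℝ) * θ - (ρ.num : ℤ)| := nn_le_abs_sub_int _ _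
    _ = r * |η| := by
        rw [← abs_of_pos hrR, ← abs_mul, abs_of_pos hrR]
        congr 1
        rw [hη]; field_simp
    _ ≤ 24 * V * (δ / S.card) := by gcongr
    _ = _ := by ring

end Pool.Agent.ANT
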