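import Pool.Agent.Lib.ANT.WeylA
import Pool.Agent.Lib.ANT.Major

open Complex Polynomial

namespace Pool.Agent.ANT

lemma diff_id (a : ℕ → ℂ) (n : ℕ) :
    ‖∑ x ∈ Finset.range n, a x‖ ^ 2 + ∑ x ∈ Finset.range n, ‖a x‖ ^ 2 =
      2 * (∑ x ∈ Finset.range n, ∑ h ∈ Finset.range (x+1), a x * (starRingEnd ℂ) (a (x - h))).re := by
  induction n with
  | zero => simp
  | succ n ih =>
    rw [Finset.sum_range_succ, Finset.sum_range_succ (fun x => ‖a x‖ ^ 2),
      Finset.sum_range_succ (fun x => ∑ h ∈ Finset.range (x+1), a x * (starRingEnd ℂ) (a (x - h)))]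
    have h1 : ∑ h ∈ Finset.range (n+1), a n * (starRingEnd ℂ) (a (n - h)) =
        a n * (starRingEnd ℂ) (∑ x ∈ Finset.range n, a x) + ((‖a n‖ ^ 2 : ℝ) : ℂ) := by
      have h2 := Finset.sum_range_reflect (fun j => a n * (starRingEnd ℂ) (a j)) (n+1)
      rw [show n + 1 - 1 = n by omega] at h2
      rw [h2, Finset.sum_range_succ, ← Finset.mul_sum, ← map_sum, Complex.mul_conj']
      push_cast; ring
    rw [h1]
    set S := ∑ x ∈ Finset.range n, a x with hS
    have h3 : ‖S + a n‖ ^ 2 = ‖S‖ ^ 2 + ‖a n‖ ^ 2 + 2 * (a n * (starRingEnd ℂ) S).re := by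
      rw [← Complex.normSq_eq_norm_sq, ← Complex.normSq_eq_norm_sq, ← Complex.normSq_eq_norm_sq,
        add_comm S, Complex.normSq_add]
      ring
    rw [h3, Complex.add_re, Complex.add_re, Complex.ofReal_re]
    linarith

/-- Weyl differencing. -/
lemma weyl_diff (a : ℕ → ℂ) (n : ℕ) :
    ‖∑ x ∈ Finset.range n, a x‖ ^ 2 ≤
      2 * ∑ h ∈ Finset.range n, ‖∑ y ∈ Finset.range (n - h), a (y + h) * (starRingEnd ℂ) (a y)‖ := by
  have h1 := diff_id a n
  have h2 := Finset.sum_range_diag_flip n (fun h y => a (y + h) * (starRingEnd ℂ) (a y))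
  have h3 : ∑ x ∈ Finset.range n, ∑ h ∈ Finset.range (x+1), a x * (starRingEnd ℂ) (a (x - h)) =
      ∑ m ∈ Finset.range n, ∑ k ∈ Finset.range (m + 1),
        a (m - k + k) * (starRingEnd ℂ) (a (m - k)) := by
    refine Finset.sum_congr rfl fun m _ => Finset.sum_congr rfl fun k hk => ?_
    rw [Nat.sub_add_cancel (by have := Finset.mem_range.mp hk; omega)]
  rw [h3, h2] at h1
  have h4 : 0 ≤ ∑ x ∈ Finset.range n, ‖a x‖ ^ 2 := Finset.sum_nonneg fun _ _ => by positivity
  have h5 : (∑ m ∈ Finset.range n, ∑ k ∈ Finset.range (n - m), a (k + m) * (starRingEnd ℂ) (a k)).re ≤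
      ∑ h ∈ Finset.range n, ‖∑ y ∈ Finset.range (n - h), a (y + h) * (starRingEnd ℂ) (a y)‖ :=
    (Complex.re_le_norm _).trans (norm_sum_le _ _)
  linarith

lemma nn_int_mul_le (k : ℤ) (x : ℝ) : nn (k * x) ≤ |(k:ℝ)| * nn x := by
  have h := nn_le_abs_sub_int (k * x) (k * round x)
  push_cast at h
  rw [← mul_sub, abs_mul] at h
  exact h

lemma nn_add_le (x y : ℝ) : nn (x + y) ≤ nn x + nn y := by
  have h := nn_le_abs_sub_int (x + y) (round x + round y)
  push_cast at h
  rw [show x + y - (round x + round y) = (x - round x) + (y - round y) by ring] at h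
  exact h.trans (abs_add_le _ _)

lemma nn_zero : nn 0 = 0 := by unfold nn; simp

lemma nn_sum_le {ι : Type*} (s : Finset ι) (f : ι → ℝ) : nn (∑ i ∈ s, f i) ≤ ∑ i ∈ s, nn (f i) := by
  classical
  induction s using Finset.induction_on with
  | empty => simp [nn_zero]
  | insert a s ha ih =>
    rw [Finset.sum_insert ha, Finset.sum_insert ha]
    exact (nn_add_le _ _).trans (by linarith)

/-- shift averaging: for a unimodular sequence the average over shifts of a short progression. -/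
lemma shift_avg {F : ℕ → ℂ} (hF : ∀ x, ‖F x‖ ≤ 1) (P P' r : ℕ) (hP' : 0 < P') :
    ‖∑ x ∈ Finset.range P, F x‖ ≤
      (∑ t ∈ Finset.range P, ‖∑ y ∈ Finset.range P', F (t + r * y)‖) / P' + 2 * r * P' := by
  have h1 : ∀ s : ℕ, ‖∑ x ∈ Finset.range P, F x - ∑ x ∈ Finset.range P, F (x + s)‖ ≤ 2 * s := by
    intro s
    have e1 : ∑ x ∈ Finset.range P, F (x + s) =
        ∑ x ∈ Finset.range (P + s), F x - ∑ x ∈ Finset.range s, F x := by
      rw [add_comm P s, Finset.sum_range_add]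
      simp_rw [add_comm s]
      ring
    have e2 : ∑ x ∈ Finset.range (P + s), F x =
        ∑ x ∈ Finset.range P, F x + ∑ x ∈ Finset.range s, F (P + x) := Finset.sum_range_add ..
    rw [e1, e2]
    have e3 : ∑ x ∈ Finset.range P, F x - (∑ x ∈ Finset.range P, F x + ∑ x ∈ Finset.range s, F (P + x) -
        ∑ x ∈ Finset.range s, F x) = ∑ x ∈ Finset.range s, F x - ∑ x ∈ Finset.range s, F (P + x) := by
      ring
    rw [e3]
    refine (norm_sub_le _ _).trans ?_
    have h2 : ∀ G : ℕ → ℂ, (∀ x, ‖G x‖ ≤ 1) → ‖∑ x ∈ Finset.range s, G x‖ ≤ s := by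
      intro G hG
      refine (norm_sum_le _ _).trans ?_
      calc _ ≤ ∑ _x ∈ Finset.range s, (1:ℝ) := Finset.sum_le_sum fun x _ => hG x
        _ = s := by simp
    have := h2 F hF
    have := h2 (fun x => F (P + x)) (fun x => hF _)
    linarith
  have hP0 : (0:ℝ) < P' := by exact_mod_cast hP'
  have h2 : (P':ℝ) * ‖∑ x ∈ Finset.range P, F x‖ ≤
      (∑ t ∈ Finset.range P, ‖∑ y ∈ Finset.range P', F (t + r * y)‖) + P' * (2 * r * P') := by
    have e1 : ((P':ℂ)) * ∑ x ∈ Finset.range P, F x =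
        ∑ t ∈ Finset.range P, ∑ y ∈ Finset.range P', F (t + r * y) +
        ∑ y ∈ Finset.range P', (∑ x ∈ Finset.range P, F x - ∑ x ∈ Finset.range P, F (x + r * y)) := by
      rw [Finset.sum_comm (s := Finset.range P), ← Finset.sum_add_distrib]
      have : ∀ y ∈ Finset.range P', ∑ x ∈ Finset.range P, F (x + r * y) +
          (∑ x ∈ Finset.range P, F x - ∑ x ∈ Finset.range P, F (x + r * y)) =
          ∑ x ∈ Finset.range P, F x := fun y _ => by ring
      rw [Finset.sum_congr rfl this]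
      simp
    have e2 : (P':ℝ) * ‖∑ x ∈ Finset.range P, F x‖ = ‖((P':ℂ)) * ∑ x ∈ Finset.range P, F x‖ := by
      rw [norm_mul, Complex.norm_natCast]
    rw [e2, e1]
    refine (norm_add_le _ _).trans (add_le_add (norm_sum_le _ _) ?_)
    refine (norm_sum_le _ _).trans ?_
    calc _ ≤ ∑ _y ∈ Finset.range P', (2 * r * P' : ℝ) := by
          refine Finset.sum_le_sum fun y hy => (h1 (r * y)).trans ?_
          have : (y:ℝ) ≤ P' := by exact_mod_cast (Finset.mem_range.mp hy).le
          push_cast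
          nlinarith [Nat.cast_nonneg (α := ℝ) r, mul_le_mul_of_nonneg_left this (Nat.cast_nonneg (α := ℝ) r)]
      _ = _ := by simp
  rw [div_add' _ _ _ hP0.ne', le_div_iff₀ hP0]
  linarith

lemma natDegree_shift_sub {d : ℕ} {f : ℝ[X]} (hf : f.natDegree ≤ d + 1) (h : ℝ) :
    (taylor h f - f).natDegree ≤ d := by
  rw [natDegree_le_iff_coeff_eq_zero]
  intro N hN
  rw [coeff_sub, taylor_coeff]
  have h1 : (hasseDeriv N f).natDegree ≤ 0 := (natDegree_hasseDeriv_le f N).trans (by omega)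
  rw [eq_C_of_natDegree_le_zero h1, eval_C, hasseDeriv_coeff, zero_add, Nat.choose_self, Nat.cast_one,
    one_mul, sub_self]

lemma coeff_shift_sub {d : ℕ} {f : ℝ[X]} (hf : f.natDegree ≤ d + 1) (h : ℝ) :
    (taylor h f - f).coeff d = (d + 1) * h * f.coeff (d+1) := by
  rw [coeff_sub, taylor_coeff]
  have h1 : (hasseDeriv d f).natDegree ≤ 1 := (natDegree_hasseDeriv_le f d).trans (by omega)
  rw [eq_X_add_C_of_natDegree_le_one h1]
  simp only [hasseDeriv_coeff, zero_add, Nat.choose_self, Nat.cast_one, one_mul, eval_add, eval_mul,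
    eval_C, eval_X]
  rw [add_comm 1 d, Nat.choose_succ_self_right]
  push_cast; ring

end Pool.Agent.ANT
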