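import Pool.Agent.Lib.ANT.WeylB

open Complex Polynomial

namespace Pool.Agent.ANT

/-- Inverse theorem for Weyl sums of degree `≤ d` with exponent `C`. -/
def WeylHyp (d C : ℕ) : Prop := ∀ M : ℝ, 2 ≤ M → ∀ P : ℕ, 0 < P → ∀ f : ℝ[X], f.natDegree ≤ d →
  (P:ℝ) / M ≤ ‖∑ x ∈ Finset.range P, ee (f.eval (x:ℝ))‖ →
  ∃ r : ℕ, 0 < r ∧ (r:ℝ) ≤ M ^ C ∧ ∀ j, 1 ≤ j → j ≤ d → nn (r * f.coeff j) ≤ M ^ C / P ^ j

lemma succ_le_pow {M : ℝ} (hM : 2 ≤ M) (d : ℕ) : ((d:ℝ) + 1) ≤ M ^ (d+1) := by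
  have h1 : ((d+1:ℕ):ℝ) ≤ 2 ^ (d+1) := by exact_mod_cast Nat.lt_two_pow_self.le
  push_cast at h1
  exact h1.trans (by gcongr)

lemma one_add_log_le {y : ℝ} (hy : 1 ≤ y) : 1 + Real.log y ≤ 2 * √y := by
  have hs : 0 < √y := Real.sqrt_pos.mpr (by linarith)
  have h1 := Real.add_one_le_exp (Real.log (√y))
  rw [Real.exp_log hs, Real.log_sqrt (by linarith)] at h1
  linarith

lemma weyl_top {d C : ℕ} (hd : 1 ≤ d) (IH : WeylHyp d C) {M : ℝ} (hM : 2 ≤ M) {P : ℕ}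
    (hP : M ^ (40 * C + 20 * d + 60) ≤ P) {f : ℝ[X]} (hf : f.natDegree ≤ d + 1)
    (hS : (P:ℝ) / M ≤ ‖∑ x ∈ Finset.range P, ee (f.eval (x:ℝ))‖) :
    ∃ r : ℕ, 0 < r ∧ (r:ℝ) ≤ M ^ (20 * C + 6 * d + 14) ∧
      nn (r * f.coeff (d+1)) ≤ M ^ (20 * C + 6 * d + 14) / P ^ (d+1) := by
  classical
  have hM0 : 0 < M := by linarith
  have hM1 : 1 ≤ M := by linarith
  have hPR : (1:ℝ) ≤ P := (one_le_pow₀ hM1).trans hP
  have hP0 : (0:ℝ) < P := by linarith
  have hPn : 0 < P := by exact_mod_cast hP0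
  have hpow : ∀ a b : ℕ, a ≤ b → M ^ a ≤ M ^ b := fun a b h => pow_le_pow_right₀ hM1 h
  have hPk : ∀ k : ℕ, k ≤ 40 * C + 20 * d + 60 → M ^ k ≤ P := fun k hk => (hpow _ _ hk).trans hP
  set α := f.coeff (d+1) with hα
  set B : ℝ := 8 * M ^ 2 with hB
  have hB2 : 2 ≤ B := by rw [hB]; nlinarith only [hM1]
  have hB1 : 1 ≤ B := by linarith
  have hB0 : 0 < B := by linarith
  have hB5 : B ≤ M ^ 5 := by
    rw [hB]
    calc 8 * M ^ 2 = 2 ^ 3 * M ^ 2 := by norm_num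
      _ ≤ M ^ 3 * M ^ 2 := by gcongr
      _ = M ^ 5 := by ring
  have hPB : B ≤ P := hB5.trans (hPk 5 (by omega))
  set R := ⌊B ^ C⌋₊ with hR
  have hR0 : (R:ℝ) ≤ B ^ C := Nat.floor_le (by positivity)
  have hR1 : 1 ≤ R := Nat.le_floor (by push_cast; exact one_le_pow₀ hB1)
  have hR1' : (1:ℝ) ≤ R := by exact_mod_cast hR1
  have hRM : (R:ℝ) ≤ M ^ (5 * C) := by
    calc (R:ℝ) ≤ B ^ C := hR0
      _ ≤ (M ^ 5) ^ C := by gcongr
      _ = M ^ (5 * C) := by rw [← pow_mul]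
  set VV : ℕ → ℝ := fun h => ‖∑ y ∈ Finset.range (P - h),
    ee (f.eval ((y + h : ℕ) : ℝ)) * (starRingEnd ℂ) (ee (f.eval (y:ℝ)))‖ with hVV
  have hVtriv : ∀ h, VV h ≤ ((P - h : ℕ) : ℝ) := by
    intro h
    simp only [hVV]
    refine (norm_sum_le _ _).trans ?_
    calc _ ≤ ∑ _y ∈ Finset.range (P - h), (1:ℝ) := by
          refine Finset.sum_le_sum fun y _ => ?_
          rw [norm_mul, RCLike.norm_conj, norm_ee, norm_ee, one_mul]
      _ = _ := by simp
  have hVP : ∀ h, VV h ≤ P := fun h => (hVtriv h).trans (by exact_mod_cast Nat.sub_le _ _)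
  have hsum : (P:ℝ) ^ 2 / M ^ 2 ≤ 2 * ∑ h ∈ Finset.range P, VV h := by
    have h1 := weyl_diff (fun x => ee (f.eval (x:ℝ))) P
    refine le_trans ?_ h1
    rw [← div_pow]
    gcongr
  set τ : ℝ := P / B with hτ
  have hτ0 : 0 ≤ τ := by positivity
  set H := (Finset.range P).filter (fun h => 0 < h ∧ τ ≤ VV h) with hH
  have hsum2 : ∑ h ∈ Finset.range P, VV h ≤ P + H.card * P + P * τ := by
    calc ∑ h ∈ Finset.range P, VV h ≤ ∑ h ∈ Finset.range P,
          ((if h = 0 then (P:ℝ) else 0) + (if 0 < h ∧ τ ≤ VV h then (P:ℝ) else 0) + τ) := by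
          refine Finset.sum_le_sum fun h _ => ?_
          rcases Nat.eq_zero_or_pos h with h0 | h0
          · rw [if_pos h0]
            have := hVP h
            split_ifs <;> linarith
          · rw [if_neg (by omega)]
            split_ifs with h1
            · have := hVP h; linarith
            · have : ¬ τ ≤ VV h := fun h2 => h1 ⟨h0, h2⟩
              push Not at this
              linarith
      _ = P + H.card * P + P * τ := by
          rw [Finset.sum_add_distrib, Finset.sum_add_distrib, Finset.sum_ite_eq' , ← Finset.sum_filter]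
          rw [if_pos (Finset.mem_range.mpr hPn)]
          simp [hH]
  have hHcard : (P:ℝ) / (4 * M ^ 2) ≤ H.card := by
    have h1 : (P:ℝ) ^ 2 / M ^ 2 ≤ 2 * (P + H.card * P + P * τ) := by linarith
    have h2 : (P:ℝ) * (P / M ^ 2) ≤ P * (2 + 2 * H.card + 2 * τ) := by
      calc (P:ℝ) * (P / M ^ 2) = (P:ℝ) ^ 2 / M ^ 2 := by ring
        _ ≤ _ := h1
        _ = _ := by ring
    have h3 : (P:ℝ) / M ^ 2 ≤ 2 + 2 * H.card + 2 * τ := le_of_mul_le_mul_left h2 hP0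
    have h4 : τ = (P / M ^ 2) / 8 := by rw [hτ, hB]; field_simp
    have h5 : 8 ≤ P / M ^ 2 := by
      rw [le_div_iff₀ (by positivity)]; rw [hB] at hPB; exact hPB
    have h6 : (P:ℝ) / (4 * M ^ 2) = (P / M ^ 2) / 4 := by field_simp
    rw [h6]
    linarith
  -- induction hypothesis
  have hIH : ∀ h ∈ H, ∃ r : ℕ, 0 < r ∧ (r:ℝ) ≤ B ^ C ∧
      nn (((r * ((d+1) * h) : ℕ) : ℝ) * α) ≤ B ^ (C + d) / P ^ d := by
    intro h hh
    obtain ⟨hh1, hh2, hh3⟩ := Finset.mem_filter.mp hh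
    have hhP := Finset.mem_range.mp hh1
    have hlen : τ ≤ ((P - h : ℕ) : ℝ) := hh3.trans (hVtriv h)
    have hV : VV h = ‖∑ x ∈ Finset.range (P - h), ee ((taylor (h:ℝ) f - f).eval (x:ℝ))‖ := by
      simp only [hVV]
      congr 1
      refine Finset.sum_congr rfl fun x _ => ?_
      rw [conj_ee, ← ee_add, eval_sub, taylor_eval]
      congr 1
      push_cast
      ring
    obtain ⟨r, hr1, hr2, hr3⟩ := IH B hB2 (P - h) (by omega) (taylor (h:ℝ) f - f)
      (natDegree_shift_sub hf _) (by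
        rw [← hV]
        refine le_trans ?_ hh3
        rw [hτ]
        gcongr
        exact Nat.sub_le _ _)
    refine ⟨r, hr1, hr2, ?_⟩
    have h4 := hr3 d hd le_rfl
    rw [coeff_shift_sub hf] at h4
    have e1 : ((r * ((d+1) * h) : ℕ) : ℝ) * α = r * ((d+1) * h * α) := by push_cast; ring
    rw [e1]
    refine h4.trans ?_
    have hτpos : 0 < τ := by positivity
    calc B ^ C / ((P - h : ℕ) : ℝ) ^ d ≤ B ^ C / τ ^ d := by gcongr
      _ = B ^ (C + d) / P ^ d := by rw [hτ, div_pow, pow_add]; field_simp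
  choose! rr hrr1 hrr2 hrr3 using hIH
  set S := H.image (fun h => rr h * ((d+1) * h)) with hSdef
  have hHne : H.Nonempty := by
    rw [← Finset.card_pos]
    have : (0:ℝ) < H.card := lt_of_lt_of_le (by positivity) hHcard
    exact_mod_cast this
  have hSne : S.Nonempty := hHne.image _
  have hrrR : ∀ h ∈ H, rr h ≤ R := fun h hh => Nat.le_floor (hrr2 h hh)
  have hSsub : S ⊆ Finset.Ioc 0 (R * ((d+1) * P)) := by
    intro n hn
    obtain ⟨h, hh, rfl⟩ := Finset.mem_image.mp hn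
    obtain ⟨hh1, hh2, hh3⟩ := Finset.mem_filter.mp hh
    refine Finset.mem_Ioc.mpr ⟨Nat.mul_pos (hrr1 h hh) (by positivity), ?_⟩
    exact Nat.mul_le_mul (hrrR h hh) (Nat.mul_le_mul_left _ (Finset.mem_range.mp hh1).le)
  have hcard : H.card ≤ R * S.card := by
    refine Finset.card_le_mul_card_image H R fun b _ => ?_
    have h1 : (H.filter (fun h => rr h * ((d+1) * h) = b)).card ≤ (Finset.Ioc 0 R).card := by
      refine Finset.card_le_card_of_injOn rr ?_ ?_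
      · intro h hh
        obtain ⟨h2, _⟩ := Finset.mem_filter.mp hh
        exact Finset.mem_coe.mpr (Finset.mem_Ioc.mpr ⟨hrr1 h h2, hrrR h h2⟩)
      · intro h hh h' hh' heq
        obtain ⟨h2, h3⟩ := Finset.mem_filter.mp hh
        obtain ⟨h4, h5⟩ := Finset.mem_filter.mp hh'
        rw [← h5, ← heq] at h3
        have h6 := Nat.eq_of_mul_eq_mul_left (hrr1 h h2) h3
        exact Nat.eq_of_mul_eq_mul_left (by omega) h6
    rwa [Nat.card_Ioc, Nat.sub_zero] at h1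
  have hcardR : (H.card : ℝ) ≤ R * S.card := by exact_mod_cast hcard
  have hSc0 : (0:ℝ) < S.card := by exact_mod_cast hSne.card_pos
  set V : ℝ := 4 * (d+1) * M ^ 2 * R ^ 2 with hV
  set δ : ℝ := B ^ (C + d) / P ^ d with hδ
  have hδ0 : 0 < δ := by positivity
  have hV0 : 0 < V := by positivity
  have hNV : ((R * ((d+1) * P) : ℕ) : ℝ) ≤ V * S.card := by
    have h1 : (P:ℝ) ≤ 4 * M ^ 2 * H.card := by
      rw [div_le_iff₀ (by positivity)] at hHcard
      linarith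
    push_cast
    calc (R:ℝ) * ((d+1) * P) ≤ R * ((d+1) * (4 * M ^ 2 * (R * S.card))) := by
          have : (P:ℝ) ≤ 4 * M ^ 2 * (R * S.card) := h1.trans (by gcongr)
          gcongr
      _ = V * S.card := by rw [hV]; ring
  have hd1 : ((d:ℝ) + 1) ≤ M ^ (d+1) := succ_le_pow hM d
  have hVM : V ≤ M ^ (10 * C + d + 5) := by
    calc V ≤ 2 ^ 2 * M ^ (d+1) * M ^ 2 * (M ^ (5 * C)) ^ 2 := by
          rw [hV]; norm_num; gcongr
      _ ≤ M ^ 2 * M ^ (d+1) * M ^ 2 * (M ^ (5 * C)) ^ 2 := by gcongr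
      _ = M ^ (10 * C + d + 5) := by rw [← pow_mul]; ring_nf
  have hBpow : B ^ (C + d) ≤ M ^ (5 * C + 5 * d) := by
    calc B ^ (C + d) ≤ (M ^ 5) ^ (C + d) := by gcongr
      _ = _ := by rw [← pow_mul]; ring_nf
  have hsm : 48 * δ * V * (1 + Real.log (2 * ((R * ((d+1) * P) : ℕ) : ℝ))) ≤ 1 := by
    have hδP : δ ≤ M ^ (5 * C + 5 * d) / P := by
      rw [hδ]
      have : (P:ℝ) ≤ P ^ d := le_self_pow₀ hPR (by omega)
      gcongr
    have h1 : (1:ℝ) ≤ 2 * ((R * ((d+1) * P) : ℕ) : ℝ) := by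
      have : (1:ℝ) ≤ ((R * ((d+1) * P) : ℕ) : ℝ) := by
        exact_mod_cast Nat.mul_pos hR1 (by positivity)
      linarith
    have h2 := one_add_log_le h1
    have h3 : √(2 * ((R * ((d+1) * P) : ℕ) : ℝ)) ≤ M ^ (5 * C + d + 2) * √(P:ℝ) := by
      rw [Real.sqrt_le_left (by positivity), mul_pow, Real.sq_sqrt hP0.le]
      push_cast
      calc 2 * ((R:ℝ) * ((d+1) * P)) ≤ M * (M ^ (5 * C) * (M ^ (d+1) * P)) := by gcongr
        _ = M ^ (5 * C + d + 2) * P := by ring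
        _ ≤ (M ^ (5 * C + d + 2)) ^ 2 * P := by
            have : M ^ (5 * C + d + 2) ≤ (M ^ (5 * C + d + 2)) ^ 2 :=
              le_self_pow₀ (one_le_pow₀ hM1) (by norm_num)
            gcongr
    have hsP : 0 < √(P:ℝ) := Real.sqrt_pos.mpr hP0
    have hsPlow : M ^ (20 * C + 7 * d + 14) ≤ √(P:ℝ) := by
      rw [Real.le_sqrt (by positivity) hP0.le, ← pow_mul]
      exact hPk _ (by omega)
    calc 48 * δ * V * (1 + Real.log (2 * ((R * ((d+1) * P) : ℕ) : ℝ)))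
        ≤ 48 * (M ^ (5 * C + 5 * d) / P) * M ^ (10 * C + d + 5) *
            (2 * (M ^ (5 * C + d + 2) * √(P:ℝ))) := by
          have h5 : 0 ≤ 1 + Real.log (2 * ((R * ((d+1) * P) : ℕ) : ℝ)) := by
            have := Real.log_nonneg h1; linarith
          gcongr
          linarith
      _ = 96 * M ^ (20 * C + 7 * d + 7) * (√(P:ℝ) / P) := by ring
      _ ≤ 2 ^ 7 * M ^ (20 * C + 7 * d + 7) * (√(P:ℝ) / P) := by gcongr; norm_num
      _ ≤ M ^ 7 * M ^ (20 * C + 7 * d + 7) * (√(P:ℝ) / P) := by gcongr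
      _ = M ^ (20 * C + 7 * d + 14) / √(P:ℝ) := by
          rw [Real.sqrt_div_self, ← pow_add]
          ring_nf
      _ ≤ 1 := by rw [div_le_one hsP]; exact hsPlow
  obtain ⟨r, hr0, hrV, hrn⟩ := vino_count hSsub (θ := α) (δ := δ) (V := V) (by
    intro n hn
    obtain ⟨h, hh, rfl⟩ := Finset.mem_image.mp hn
    exact hrr3 h hh) hδ0 hNV hSne hsm
  have h24 : 24 * V ≤ M ^ (10 * C + d + 10) := by
    calc 24 * V ≤ 2 ^ 5 * M ^ (10 * C + d + 5) := by
          have : (0:ℝ) ≤ M ^ (10 * C + d + 5) := by positivity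
          linarith only [this, hVM]
      _ ≤ M ^ 5 * M ^ (10 * C + d + 5) := by gcongr
      _ = _ := by rw [← pow_add]; ring_nf
  refine ⟨r, hr0, (hrV.trans h24).trans (hpow _ _ (by omega)), hrn.trans ?_⟩
  have hSlow : (P:ℝ) / (4 * M ^ 2 * R) ≤ S.card := by
    rw [div_le_iff₀ (by positivity)]
    rw [div_le_iff₀ (by positivity)] at hHcard
    nlinarith only [hHcard, mul_le_mul_of_nonneg_right hcardR (by positivity : (0 : ℝ) ≤ 4 * M ^ 2)]
  calc 24 * V * δ / S.card ≤ M ^ (10 * C + d + 10) * (M ^ (5 * C + 5 * d) / P ^ d) /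
        (P / (4 * M ^ 2 * R)) := by
        rw [hδ]
        gcongr
    _ = M ^ (10 * C + d + 10) * M ^ (5 * C + 5 * d) * (2 ^ 2 * M ^ 2 * R) / P ^ (d+1) := by
        rw [pow_succ]; field_simp; norm_num; try ring
    _ ≤ M ^ (10 * C + d + 10) * M ^ (5 * C + 5 * d) * (M ^ 2 * M ^ 2 * M ^ (5 * C)) / P ^ (d+1) := by
        gcongr
    _ = M ^ (20 * C + 6 * d + 14) / P ^ (d+1) := by
        congr 1
        simp only [← pow_add]
        ring_nf

end Pool.Agent.ANT
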