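import Pool.Agent.Lib.ANT.WeylC

open Complex Polynomial

namespace Pool.Agent.ANT

/-- Removing a top coefficient that is almost rational, on a short progression. -/
lemma remove_top {d : ℕ} {f : ℝ[X]} (hf : f.natDegree ≤ d + 1) {r t P' : ℕ} (hr : 0 < r) {κ : ℝ}
    (hκ : ∀ y < P', 2 * Real.pi * (nn (r * f.coeff (d+1)) / r *
      (((t + r * y : ℕ) : ℝ) ^ (d+1) - (t:ℝ) ^ (d+1))) ≤ κ) :
    ‖∑ y ∈ Finset.range P', ee (f.eval (((t + r * y : ℕ) : ℝ)))‖ ≤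
      ‖∑ y ∈ Finset.range P', ee ((f.erase (d+1)).eval (((t + r * y : ℕ) : ℝ)))‖ + P' * κ := by
  set α := f.coeff (d+1) with hα
  set f0 := f.erase (d+1) with hf0
  have hrR : (0:ℝ) < r := by exact_mod_cast hr
  set b := round ((r:ℝ) * α) with hb
  set ε := (r:ℝ) * α - b with hε
  have hεn : |ε| = nn (r * α) := rfl
  have hαeq : α = (b + ε) / r := by rw [hε]; field_simp; ring
  have heval : ∀ z : ℝ, f.eval z = f0.eval z + α * z ^ (d+1) := by
    intro z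
    have h1 := monomial_add_erase f (d+1)
    conv_lhs => rw [← h1]
    rw [eval_add, eval_monomial, add_comm]
  set w := ee ((b + ε) / r * (t:ℝ) ^ (d+1)) with hw
  have hw1 : ‖w‖ = 1 := norm_ee _
  have hterm : ∀ y < P', ‖ee (f.eval (((t + r * y : ℕ) : ℝ))) -
      w * ee (f0.eval (((t + r * y : ℕ) : ℝ)))‖ ≤ κ := by
    intro y hy
    set z : ℕ := t + r * y with hz
    obtain ⟨k, hk⟩ : (r:ℤ) ∣ (z:ℤ) ^ (d+1) - (t:ℤ) ^ (d+1) := by
      refine dvd_trans ?_ (sub_dvd_pow_sub_pow (z:ℤ) (t:ℤ) (d+1))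
      refine ⟨y, ?_⟩
      rw [hz]; push_cast; ring
    have hk' : ((z:ℝ)) ^ (d+1) = (t:ℝ) ^ (d+1) + r * k := by
      have : (z:ℝ) ^ (d+1) - (t:ℝ) ^ (d+1) = r * k := by exact_mod_cast hk
      linarith
    have e1 : ee (f.eval (z:ℝ)) = ee (f0.eval (z:ℝ)) * (w * ee (ε / r * ((z:ℝ) ^ (d+1) - (t:ℝ) ^ (d+1)))) := by
      rw [heval, ee_add]
      congr 1
      have : α * (z:ℝ) ^ (d+1) = ((b + ε) / r * (t:ℝ) ^ (d+1) +
          ε / r * ((z:ℝ) ^ (d+1) - (t:ℝ) ^ (d+1))) + ((b * k : ℤ) : ℝ) := by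
        rw [hαeq, hk']
        push_cast
        field_simp
        ring
      rw [this, ee_add_int, ee_add]
    rw [e1]
    have e2 : ee (f0.eval (z:ℝ)) * (w * ee (ε / r * ((z:ℝ) ^ (d+1) - (t:ℝ) ^ (d+1)))) -
        w * ee (f0.eval (z:ℝ)) = ee (f0.eval (z:ℝ)) * w *
          (ee (ε / r * ((z:ℝ) ^ (d+1) - (t:ℝ) ^ (d+1))) - 1) := by ring
    rw [e2, norm_mul, norm_mul, norm_ee, hw1, one_mul, one_mul]
    refine (norm_ee_sub_one_le _).trans (le_trans (le_of_eq ?_) (hκ y hy))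
    have h3 : 0 ≤ (z:ℝ) ^ (d+1) - (t:ℝ) ^ (d+1) := by
      have : (t:ℝ) ≤ z := by rw [hz]; exact_mod_cast Nat.le_add_right _ _
      have := pow_le_pow_left₀ (Nat.cast_nonneg t) this (d+1)
      linarith
    rw [abs_mul, abs_div, abs_of_pos hrR, abs_of_nonneg h3, hεn]
  calc _ = ‖w * ∑ y ∈ Finset.range P', ee (f0.eval (((t + r * y : ℕ) : ℝ))) +
        ∑ y ∈ Finset.range P', (ee (f.eval (((t + r * y : ℕ) : ℝ))) -
          w * ee (f0.eval (((t + r * y : ℕ) : ℝ))))‖ := by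
        congr 1
        rw [Finset.mul_sum, ← Finset.sum_add_distrib]
        exact Finset.sum_congr rfl fun y _ => by ring
    _ ≤ ‖w * ∑ y ∈ Finset.range P', ee (f0.eval (((t + r * y : ℕ) : ℝ)))‖ + P' * κ := by
        refine (norm_add_le _ _).trans (add_le_add_right ((norm_sum_le _ _).trans ?_) _)
        calc _ ≤ ∑ _y ∈ Finset.range P', κ :=
              Finset.sum_le_sum fun y hy => hterm y (Finset.mem_range.mp hy)
          _ = _ := by simp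
    _ = _ := by rw [norm_mul, hw1, one_mul]

/-- Recovering the coefficients after an affine substitution. -/
lemma coeff_back {d : ℕ} {f : ℝ[X]} (hf : f.natDegree ≤ d) {r t : ℕ} (hr : 0 < r) (r2 : ℕ) (j : ℕ) :
    (r2:ℝ) * r ^ d * f.coeff j = ∑ i ∈ Finset.range (d+1),
      ((((r:ℤ) ^ (d - i) * (-(t:ℤ)) ^ (i - j) * (i.choose j : ℤ) : ℤ)) : ℝ) *
        (r2 * (f.comp (C (t:ℝ) + C (r:ℝ) * X)).coeff i) := by
  set g := f.comp (C (t:ℝ) + C (r:ℝ) * X) with hg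
  have hrR : (r:ℝ) ≠ 0 := by exact_mod_cast hr.ne'
  have hlin : (C (t:ℝ) + C (r:ℝ) * X : ℝ[X]).natDegree ≤ 1 := by
    refine (natDegree_add_le _ _).trans ?_
    rw [natDegree_C]
    exact max_le (by norm_num) ((natDegree_C_mul_le _ _).trans natDegree_X_le)
  have hgd : g.natDegree < d + 1 := by
    have h1 := natDegree_comp_le (p := f) (q := C (t:ℝ) + C (r:ℝ) * X)
    have h2 : f.natDegree * (C (t:ℝ) + C (r:ℝ) * X : ℝ[X]).natDegree ≤ d * 1 := Nat.mul_le_mul hf hlin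
    rw [hg]; omega
  have hback : f = g.comp (C ((r:ℝ)⁻¹) * (X + C (-(t:ℝ)))) := by
    rw [hg, comp_assoc]
    have : (C (t:ℝ) + C (r:ℝ) * X : ℝ[X]).comp (C ((r:ℝ)⁻¹) * (X + C (-(t:ℝ)))) = X := by
      rw [add_comp, C_comp, mul_comp, C_comp, X_comp, ← mul_assoc, ← C_mul, mul_inv_cancel₀ hrR, C_1,
        one_mul, C_neg]
      ring
    rw [this, comp_X]
  have hcoeff : f.coeff j = ∑ i ∈ Finset.range (d+1), g.coeff i * ((r:ℝ)⁻¹) ^ i *
      ((-(t:ℝ)) ^ (i - j) * (i.choose j : ℝ)) := by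
    conv_lhs => rw [hback, comp_eq_sum_left]
    rw [sum_over_range' _ (by intro n; simp) (d+1) hgd, finset_sum_coeff]
    refine Finset.sum_congr rfl fun i _ => ?_
    rw [mul_pow, ← C_pow, coeff_C_mul, coeff_C_mul, coeff_X_add_C_pow]
    ring
  rw [hcoeff, Finset.mul_sum]
  refine Finset.sum_congr rfl fun i hi => ?_
  have hid : i ≤ d := by have := Finset.mem_range.mp hi; omega
  push_cast
  have : (r:ℝ) ^ d * ((r:ℝ)⁻¹) ^ i = r ^ (d - i) := by
    rw [inv_pow, ← div_eq_mul_inv, pow_sub₀ _ hrR hid, div_eq_mul_inv]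
  calc _ = ((r:ℝ) ^ d * ((r:ℝ)⁻¹) ^ i) * ((-(t:ℝ)) ^ (i - j) * (i.choose j : ℝ)) * (r2 * g.coeff i) := by
        ring
    _ = _ := by rw [this]; ring

end Pool.Agent.ANT
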