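import Pool.Agent.Lib.ANT.WeylD

open Complex Polynomial

namespace Pool.Agent.ANT

lemma weyl_step {d K : ℕ} (hd : 1 ≤ d) (IH : WeylHyp d K) : ∃ C', WeylHyp (d+1) C' := by
  set E := 20 * K + 6 * d + 14 with hE
  set E3 := 2 * E + 2 * d + 8 with hE3
  set c0 := 40 * K + 20 * d + 60 with hc0
  refine ⟨c0 * (d+1) + E * (d+2) + 2 * d + 3 * K + (E3 + 1) * d + 5, ?_⟩
  set C' := c0 * (d+1) + E * (d+2) + 2 * d + 3 * K + (E3 + 1) * d + 5 with hC'
  have hC1' : E * (d+1) + 3 * K ≤ C' := by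
    rw [hC']
    linarith only [Nat.zero_le (c0 * (d+1)), Nat.zero_le ((E3 + 1) * d), Nat.zero_le E, Nat.zero_le d]
  have hC2' : 3 * K + E * d + E ≤ C' := by
    rw [hC']
    linarith only [Nat.zero_le (c0 * (d+1)), Nat.zero_le ((E3 + 1) * d), Nat.zero_le E, Nat.zero_le d]
  have hC3' : E + (d+1) + E * d + d + 3 * K + (E3 + 1) * d ≤ C' := by
    rw [hC']
    linarith only [Nat.zero_le (c0 * (d+1)), Nat.zero_le E, Nat.zero_le d]
  intro M hM P hPn f hf hS
  have hM0 : 0 < M := by linarith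
  have hM1 : 1 ≤ M := by linarith
  have hpow : ∀ a b : ℕ, a ≤ b → M ^ a ≤ M ^ b := fun a b h => pow_le_pow_right₀ hM1 h
  have hP0 : (0:ℝ) < P := by exact_mod_cast hPn
  have hP1 : (1:ℝ) ≤ P := by exact_mod_cast hPn
  rcases lt_or_ge (P:ℝ) (M ^ c0) with hPs | hPl
  · refine ⟨1, one_pos, by simpa using one_le_pow₀ hM1, fun j hj1 hj2 => ?_⟩
    refine (nn_le_half _).trans ?_
    rw [le_div_iff₀ (by positivity)]
    have h1 : (P:ℝ) ^ j ≤ (M ^ c0) ^ (d+1) := by
      calc (P:ℝ) ^ j ≤ (P:ℝ) ^ (d+1) := pow_le_pow_right₀ hP1 hj2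
        _ ≤ _ := by gcongr
    rw [← pow_mul] at h1
    have h2 := hpow (c0 * (d+1)) C' (by rw [hC']; omega)
    have h3 : 0 < (P:ℝ) ^ j := by positivity
    linarith
  obtain ⟨r1, hr10, hr1M, hr1n⟩ := weyl_top hd IH hM hPl hf hS
  have hr1R : (0:ℝ) < r1 := by exact_mod_cast hr10
  have hr11 : (1:ℝ) ≤ r1 := by exact_mod_cast hr10
  rw [← hE] at hr1M hr1n
  set α := f.coeff (d+1) with hα
  have hPk : ∀ k : ℕ, k ≤ c0 → M ^ k ≤ P := fun k hk => (hpow _ _ hk).trans hPl
  have hE3c : E3 + 1 ≤ c0 := by rw [hE3, hE, hc0]; omega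
  set P' := ⌊(P:ℝ) / M ^ E3⌋₊ with hP'
  have hP'le : (P':ℝ) ≤ P / M ^ E3 := Nat.floor_le (by positivity)
  have hPE1 : 2 ≤ (P:ℝ) / M ^ E3 := by
    rw [le_div_iff₀ (by positivity)]
    calc 2 * M ^ E3 ≤ M * M ^ E3 := by gcongr
      _ = M ^ (E3 + 1) := by ring
      _ ≤ P := hPk _ hE3c
  have hP'1 : 1 ≤ P' := Nat.le_floor (by push_cast; linarith)
  have hP'0 : (0:ℝ) < P' := by exact_mod_cast hP'1
  have hP'low : (P:ℝ) / M ^ (E3 + 1) ≤ P' := by
    have h1 := Nat.lt_floor_add_one ((P:ℝ) / M ^ E3)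
    rw [← hP'] at h1
    have h2 : (P:ℝ) / M ^ (E3 + 1) ≤ (P / M ^ E3) / 2 := by
      rw [pow_succ, ← div_div]
      gcongr
    linarith
  -- a good progression
  have hrP' : (r1:ℝ) * P' ≤ P / (4 * M) := by
    calc (r1:ℝ) * P' ≤ M ^ E * (P / M ^ E3) := by gcongr
      _ = P / M ^ (E + 2 * d + 8) := by
          rw [hE3, show 2 * E + 2 * d + 8 = E + (E + 2 * d + 8) by ring, pow_add M E]
          field_simp
      _ ≤ P / (4 * M) := by
          have : 4 * M ≤ M ^ (E + 2 * d + 8) := by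
            calc 4 * M = 2 ^ 2 * M := by norm_num
              _ ≤ M ^ 2 * M := by gcongr
              _ = M ^ 3 := by ring
              _ ≤ _ := hpow _ _ (by omega)
          gcongr
  obtain ⟨t, ht, htS⟩ : ∃ t ∈ Finset.range P, (P':ℝ) / (2 * M) ≤
      ‖∑ y ∈ Finset.range P', ee (f.eval (((t + r1 * y : ℕ) : ℝ)))‖ := by
    by_contra hcon
    push Not at hcon
    have h1 := shift_avg (F := fun x => ee (f.eval (x:ℝ))) (fun x => (norm_ee _).le) P P' r1 hP'1
    have h2 : ∑ t ∈ Finset.range P, ‖∑ y ∈ Finset.range P', ee (f.eval (((t + r1 * y : ℕ) : ℝ)))‖ <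
        ∑ _t ∈ Finset.range P, (P':ℝ) / (2 * M) :=
      Finset.sum_lt_sum_of_nonempty (Finset.nonempty_range_iff.mpr hPn.ne') hcon
    rw [Finset.sum_const, Finset.card_range, nsmul_eq_mul] at h2
    have h3 : (∑ t ∈ Finset.range P, ‖∑ y ∈ Finset.range P', ee (f.eval (((t + r1 * y : ℕ) : ℝ)))‖) / P' <
        P / (2 * M) := by
      rw [div_lt_iff₀ hP'0]
      calc _ < (P:ℝ) * (P' / (2 * M)) := h2
        _ = _ := by ring
    have h4 : 2 * (r1:ℝ) * P' ≤ P / (2 * M) := by
      calc 2 * (r1:ℝ) * P' = 2 * (r1 * P') := by ring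
        _ ≤ 2 * (P / (4 * M)) := by gcongr
        _ = _ := by field_simp; norm_num
    have h5 : (P:ℝ) / M = P / (2 * M) + P / (2 * M) := by field_simp; norm_num
    linarith
  have htP : (t:ℝ) ≤ P := by exact_mod_cast (Finset.mem_range.mp ht).le
  have hd1 : ((d:ℝ) + 1) ≤ M ^ (d+1) := succ_le_pow hM d
  have h2d : (2:ℝ) ^ d ≤ M ^ d := by gcongr
  -- remove the top coefficient
  have hrem := remove_top hf (r := r1) (t := t) (P' := P') hr10 (κ := 1 / (4 * M)) (by
    intro y hy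
    have hyP : (y:ℝ) ≤ P' := by exact_mod_cast hy.le
    set z : ℝ := ((t + r1 * y : ℕ) : ℝ) with hz
    have hz1 : z = t + r1 * y := by rw [hz]; push_cast; ring
    have hry : (r1:ℝ) * y ≤ P := by
      calc (r1:ℝ) * y ≤ r1 * P' := by gcongr
        _ ≤ P / (4 * M) := hrP'
        _ ≤ P := div_le_self hP0.le (by linarith)
    have hzt : 0 ≤ z - t := by rw [hz1, add_sub_cancel_left]; positivity
    have hz2 : z ≤ 2 * P := by rw [hz1]; linarith
    have hz0 : 0 ≤ z := Nat.cast_nonneg _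
    have h1 : z ^ (d+1) - (t:ℝ) ^ (d+1) ≤ (r1 * P') * (d+1) * (2 * P) ^ d := by
      have h2 := abs_pow_sub_pow_le z (t:ℝ) (d+1)
      rw [abs_of_nonneg hzt, abs_of_nonneg hz0, abs_of_nonneg (show (0:ℝ) ≤ (t:ℝ) from Nat.cast_nonneg t)] at h2
      refine (le_abs_self _).trans (h2.trans ?_)
      have h3 : z - t ≤ r1 * P' := by rw [hz1, add_sub_cancel_left]; gcongr
      have h4 : max z (t:ℝ) ≤ 2 * P := max_le hz2 (by linarith)
      rw [show d + 1 - 1 = d by omega]
      push_cast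
      gcongr
    have hnn0 := nn_nonneg ((r1:ℝ) * α)
    have hpi : 2 * Real.pi ≤ 2 ^ 3 := by have := Real.pi_lt_four; linarith
    calc 2 * Real.pi * (nn (r1 * α) / r1 * (z ^ (d+1) - (t:ℝ) ^ (d+1)))
        ≤ 2 ^ 3 * ((M ^ E / P ^ (d+1)) / r1 * ((r1 * P') * (d+1) * (2 * P) ^ d)) := by
          have h5 : 0 ≤ (M ^ E / (P:ℝ) ^ (d+1)) / r1 * ((r1 * P') * (d+1) * (2 * P) ^ d) := by positivity
          have h6 : nn (r1 * α) / r1 * (z ^ (d+1) - (t:ℝ) ^ (d+1)) ≤
              (M ^ E / (P:ℝ) ^ (d+1)) / r1 * ((r1 * P') * (d+1) * (2 * P) ^ d) := by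
            have h7 : 0 ≤ z ^ (d+1) - (t:ℝ) ^ (d+1) := by
              have := pow_le_pow_left₀ (Nat.cast_nonneg t) (sub_nonneg.mp hzt) (d+1)
              linarith
            gcongr
          have := Real.pi_pos
          calc _ ≤ 2 * Real.pi * ((M ^ E / (P:ℝ) ^ (d+1)) / r1 * ((r1 * P') * (d+1) * (2 * P) ^ d)) := by
                gcongr
            _ ≤ _ := by gcongr
      _ = 2 ^ 3 * M ^ E * (d+1) * 2 ^ d * (P' / P) := by
          rw [mul_pow, pow_succ]; field_simp; try ring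
      _ ≤ M ^ 3 * M ^ E * M ^ (d+1) * M ^ d * ((P / M ^ E3) / P) := by gcongr
      _ = 1 / M ^ (E + 4) := by
          rw [hE3]
          rw [show 2 * E + 2 * d + 8 = (3 + E + (d+1) + d) + (E + 4) by ring, pow_add M (3 + E + (d+1) + d)]
          simp only [pow_add]
          field_simp
      _ ≤ 1 / (4 * M) := by
          have : 4 * M ≤ M ^ (E + 4) := by
            calc 4 * M = 2 ^ 2 * M := by norm_num
              _ ≤ M ^ 2 * M := by gcongr
              _ = M ^ 3 := by ring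
              _ ≤ _ := hpow _ _ (by omega)
          gcongr)
  set f0 := f.erase (d+1) with hf0
  have hf0d : f0.natDegree ≤ d := by
    rw [natDegree_le_iff_coeff_eq_zero]
    intro N hN
    rw [hf0, coeff_erase]
    split_ifs with h
    · rfl
    · exact coeff_eq_zero_of_natDegree_lt (by omega)
  set g := f0.comp (C (t:ℝ) + C (r1:ℝ) * X) with hg
  have hlin : (C (t:ℝ) + C (r1:ℝ) * X : ℝ[X]).natDegree ≤ 1 := by
    refine (natDegree_add_le _ _).trans ?_
    rw [natDegree_C]
    exact max_le (by norm_num) ((natDegree_C_mul_le _ _).trans natDegree_X_le)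
  have hgd : g.natDegree ≤ d := by
    have h1 := natDegree_comp_le (p := f0) (q := C (t:ℝ) + C (r1:ℝ) * X)
    have h2 : f0.natDegree * (C (t:ℝ) + C (r1:ℝ) * X : ℝ[X]).natDegree ≤ d * 1 :=
      Nat.mul_le_mul hf0d hlin
    rw [hg]; omega
  have hgeval : ∀ y : ℕ, g.eval (y:ℝ) = f0.eval (((t + r1 * y : ℕ) : ℝ)) := by
    intro y
    rw [hg, eval_comp]
    congr 1
    simp
  obtain ⟨r2, hr20, hr2M, hr2n⟩ := IH (4 * M) (by linarith) P' hP'1 g hgd (by
    simp_rw [hgeval]
    have h1 : (P':ℝ) / (2 * M) = P' / (4 * M) + P' * (1 / (4 * M)) := by field_simp; norm_num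
    linarith)
  have h4M : (4 * M) ^ K ≤ M ^ (3 * K) := by
    rw [pow_mul]
    have : 4 * M ≤ M ^ 3 := by
      calc 4 * M = 2 ^ 2 * M := by norm_num
        _ ≤ M ^ 2 * M := by gcongr
        _ = M ^ 3 := by ring
    gcongr
  have hr2R : (0:ℝ) < r2 := by exact_mod_cast hr20
  refine ⟨r1 * (r2 * r1 ^ d), by positivity, ?_, fun j hj1 hj2 => ?_⟩
  · push_cast
    calc (r1:ℝ) * (r2 * r1 ^ d) ≤ M ^ E * (M ^ (3 * K) * (M ^ E) ^ d) := by
          have := hr2M.trans h4M
          gcongr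
      _ = M ^ (E * (d+1) + 3 * K) := by rw [← pow_mul, ← pow_add, ← pow_add]; ring_nf
      _ ≤ M ^ C' := hpow _ _ hC1'
  rcases eq_or_ne j (d+1) with hjd | hjd
  · subst hjd
    have e1 : ((r1 * (r2 * r1 ^ d) : ℕ) : ℝ) * f.coeff (d+1) =
        (((r2 * r1 ^ d : ℕ) : ℤ) : ℝ) * (r1 * α) := by rw [hα]; push_cast; ring
    rw [e1]
    refine (nn_int_mul_le _ _).trans ?_
    rw [abs_of_nonneg (by positivity)]
    push_cast
    calc (r2:ℝ) * r1 ^ d * nn (r1 * α) ≤ M ^ (3 * K) * (M ^ E) ^ d * (M ^ E / P ^ (d+1)) := by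
          have := hr2M.trans h4M
          have := nn_nonneg ((r1:ℝ) * α)
          gcongr
      _ = M ^ (3 * K + E * d + E) / P ^ (d+1) := by rw [← pow_mul, pow_add, pow_add]; ring
      _ ≤ M ^ C' / P ^ (d+1) := by
          have := hpow (3 * K + E * d + E) C' hC2'
          gcongr
  · have hjd' : j ≤ d := by omega
    have hcoeff : f.coeff j = f0.coeff j := by
      rw [hf0, coeff_erase, if_neg hjd]
    have hback := coeff_back hf0d (r := r1) (t := t) hr10 r2 j
    rw [← hg] at hback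
    have e1 : ((r1 * (r2 * r1 ^ d) : ℕ) : ℝ) * f.coeff j =
        ((r1 : ℤ) : ℝ) * ((r2:ℝ) * r1 ^ d * f0.coeff j) := by rw [hcoeff]; push_cast; ring
    rw [e1]
    refine (nn_int_mul_le _ _).trans ?_
    rw [hback, abs_of_nonneg (by positivity)]
    have hmain : nn (∑ i ∈ Finset.range (d+1),
        ((((r1:ℤ) ^ (d - i) * (-(t:ℤ)) ^ (i - j) * (i.choose j : ℤ) : ℤ)) : ℝ) * (r2 * g.coeff i)) ≤
        (d + 1) * (M ^ (E * d) * M ^ d * M ^ (3 * K) * M ^ ((E3 + 1) * d) / P ^ j) := by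
      refine (nn_sum_le _ _).trans ?_
      calc _ ≤ ∑ _i ∈ Finset.range (d+1),
            (M ^ (E * d) * M ^ d * M ^ (3 * K) * M ^ ((E3 + 1) * d) / (P:ℝ) ^ j) := by
            refine Finset.sum_le_sum fun i hi => ?_
            have hid : i ≤ d := by have := Finset.mem_range.mp hi; omega
            refine (nn_int_mul_le _ _).trans ?_
            rcases lt_or_ge i j with hij | hij
            · rw [Nat.choose_eq_zero_of_lt hij]
              simp only [Nat.cast_zero, mul_zero, Int.cast_zero, abs_zero, zero_mul]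
              positivity
            · have h1 := hr2n i (by omega) hid
              have h2 : |((((r1:ℤ) ^ (d - i) * (-(t:ℤ)) ^ (i - j) * (i.choose j : ℤ) : ℤ)) : ℝ)| ≤
                  M ^ (E * d) * P ^ (i - j) * M ^ d := by
                push_cast
                rw [abs_mul, abs_mul, abs_pow, abs_pow, abs_neg, abs_of_pos hr1R,
                  abs_of_nonneg (Nat.cast_nonneg t), abs_of_nonneg (Nat.cast_nonneg (i.choose j))]
                have h3 : (r1:ℝ) ^ (d - i) ≤ M ^ (E * d) := by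
                  rw [pow_mul]
                  calc (r1:ℝ) ^ (d - i) ≤ (r1:ℝ) ^ d := pow_le_pow_right₀ hr11 (Nat.sub_le _ _)
                    _ ≤ (M ^ E) ^ d := by gcongr
                have h4 : ((i.choose j : ℕ) : ℝ) ≤ M ^ d := by
                  calc ((i.choose j : ℕ) : ℝ) ≤ ((2 ^ i : ℕ) : ℝ) := by
                        exact_mod_cast Nat.choose_le_two_pow i j
                    _ = 2 ^ i := by push_cast; ring
                    _ ≤ 2 ^ d := pow_le_pow_right₀ (by norm_num) hid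
                    _ ≤ M ^ d := h2d
                gcongr
              have hPP' : (P:ℝ) / P' ≤ M ^ (E3 + 1) := by
                rw [div_le_iff₀ hP'0]
                rw [div_le_iff₀ (by positivity)] at hP'low
                linarith
              calc _ ≤ (M ^ (E * d) * P ^ (i - j) * M ^ d) * ((4 * M) ^ K / P' ^ i) := by
                    have := nn_nonneg ((r2:ℝ) * g.coeff i)
                    gcongr
                _ ≤ (M ^ (E * d) * P ^ (i - j) * M ^ d) * (M ^ (3 * K) / P' ^ i) := by gcongr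
                _ = M ^ (E * d) * M ^ d * M ^ (3 * K) * ((P:ℝ) / P') ^ i / P ^ j := by
                    have h5 : (P:ℝ) ^ i = P ^ (i - j) * P ^ j := by rw [← pow_add]; congr 1; omega
                    rw [div_pow, h5]
                    field_simp
                _ ≤ M ^ (E * d) * M ^ d * M ^ (3 * K) * M ^ ((E3 + 1) * d) / P ^ j := by
                    have h6 : ((P:ℝ) / P') ^ i ≤ M ^ ((E3 + 1) * d) := by
                      calc ((P:ℝ) / P') ^ i ≤ (M ^ (E3 + 1)) ^ i := by gcongr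
                        _ = M ^ ((E3 + 1) * i) := by rw [← pow_mul]
                        _ ≤ _ := hpow _ _ (Nat.mul_le_mul_left _ hid)
                    gcongr
        _ = _ := by simp
    calc ((r1 : ℤ) : ℝ) * _ ≤ M ^ E * ((M ^ (d+1)) * (M ^ (E * d) * M ^ d * M ^ (3 * K) *
          M ^ ((E3 + 1) * d) / P ^ j)) := by
          have h0 := nn_nonneg (∑ i ∈ Finset.range (d+1),
            ((((r1:ℤ) ^ (d - i) * (-(t:ℤ)) ^ (i - j) * (i.choose j : ℤ) : ℤ)) : ℝ) * (r2 * g.coeff i))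
          have h7 : ((r1 : ℤ) : ℝ) ≤ M ^ E := by push_cast; exact hr1M
          have h8 := hmain.trans (mul_le_mul_of_nonneg_right hd1 (by positivity))
          gcongr
      _ = M ^ (E + (d+1) + E * d + d + 3 * K + (E3 + 1) * d) / P ^ j := by
          simp only [pow_add]; ring
      _ ≤ M ^ C' / P ^ j := by
          have := hpow (E + (d+1) + E * d + d + 3 * K + (E3 + 1) * d) C' hC3'
          gcongr

lemma weyl_base : WeylHyp 1 1 := by
  intro M hM P hPn f hf hS
  have hM0 : 0 < M := by linarith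
  have hP0 : (0:ℝ) < P := by exact_mod_cast hPn
  refine ⟨1, one_pos, by simpa using (by linarith : (1:ℝ) ≤ M), fun j hj1 hj2 => ?_⟩
  obtain rfl : j = 1 := le_antisymm hj2 hj1
  have hfe : f = C (f.coeff 1) * X + C (f.coeff 0) := eq_X_add_C_of_natDegree_le_one hf
  have h1 : ‖∑ x ∈ Finset.range P, ee (f.eval (x:ℝ))‖ = ‖∑ l ∈ Finset.Ioc 0 P, ee (l * f.coeff 1)‖ := by
    have e1 : ∑ l ∈ Finset.Ioc 0 P, ee (l * f.coeff 1) =
        ee (f.coeff 1 - f.coeff 0) * ∑ x ∈ Finset.range P, ee (f.eval (x:ℝ)) := by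
      rw [Finset.mul_sum]
      refine (Finset.sum_bij' (fun x _ => x + 1) (fun l _ => l - 1) ?_ ?_ ?_ ?_ ?_).symm
      · intro x hx; have := Finset.mem_range.mp hx; exact Finset.mem_Ioc.mpr ⟨by omega, by omega⟩
      · intro l hl; have := Finset.mem_Ioc.mp hl; exact Finset.mem_range.mpr (by omega)
      · intro x _; simp
      · intro l hl; have := Finset.mem_Ioc.mp hl; omega
      · intro x _
        rw [← ee_add]
        congr 1
        conv_lhs => rw [hfe]
        simp only [coeff_add, coeff_C_mul, coeff_X_one, coeff_C_succ, coeff_X_zero, coeff_C_zero,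
          mul_one, mul_zero, add_zero, zero_add, eval_add, eval_mul, eval_C, eval_X]
        push_cast; ring
    rw [e1, norm_mul, norm_ee, one_mul]
  rw [h1] at hS
  have h2 := hS.trans (norm_geom_le (Y := P) hP0 (A := 0) (B := P) (by simp))
  have h3 : nn (f.coeff 1) ≤ M / P := by
    by_contra hcon
    push Not at hcon
    unfold Fy at h2
    have h4 : M / P < max ((P:ℝ)⁻¹) (nn (f.coeff 1)) := lt_max_of_lt_right hcon
    have h5 : (max ((P:ℝ)⁻¹) (nn (f.coeff 1)))⁻¹ < (M / P)⁻¹ := inv_strictAnti₀ (by positivity) h4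
    rw [inv_div] at h5
    linarith
  simpa using h3

/-- **Inverse theorem for Weyl sums**, with polynomial dependence. -/
theorem weyl_inverse (d : ℕ) : ∃ C : ℕ, WeylHyp d C := by
  rcases Nat.eq_zero_or_pos d with rfl | hd
  · refine ⟨0, fun M hM P hPn f hf hS => ⟨1, one_pos, by simp, fun j hj1 hj2 => ?_⟩⟩
    omega
  · induction d, hd using Nat.le_induction with
    | base => exact ⟨1, weyl_base⟩
    | succ d hd ih =>
      obtain ⟨C, hC⟩ := ih
      exact weyl_step hd hC

end Pool.Agent.ANT
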